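import Pool.Agent.Lib.GP.SpecA

/-!
# Theorem GP, module AD1: denominators of finite adeles (helper95)
-/

set_option autoImplicit false

open IsDedekindDomain Matrix MeasureTheory

noncomputable section

namespace Pool.Agent.GP

private theorem AD1_int (v : HeightOneSpectrum ℤ) (b : ℤ) :
    ((b : ℤ) : v.adicCompletion ℚ) ∈ v.adicCompletionIntegers ℚ := intCast_mem _ b

private theorem AD1_nat (v : HeightOneSpectrum ℤ) (b : ℕ) :
    ((b : ℕ) : v.adicCompletion ℚ) ∈ v.adicCompletionIntegers ℚ := natCast_mem _ b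

private theorem AD1_loc (v : HeightOneSpectrum ℤ) (a : v.adicCompletion ℚ) :
    ∃ n : ℕ, 0 < n ∧ ((n : ℕ) : v.adicCompletion ℚ) * a ∈ v.adicCompletionIntegers ℚ := by
  obtain ⟨b, hb, hab⟩ := HeightOneSpectrum.adicCompletion.mul_nonZeroDivisor_mem_adicCompletionIntegers v a
  have hb0 : b ≠ 0 := nonZeroDivisors.ne_zero hb
  refine ⟨b.natAbs, Int.natAbs_pos.2 hb0, ?_⟩
  have h1 : a * ((b : ℤ) : v.adicCompletion ℚ) ∈ v.adicCompletionIntegers ℚ := by
    have h2 : (algebraMap ℤ (v.adicCompletion ℚ) b) = ((b : ℤ) : v.adicCompletion ℚ) := by simp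
    rw [← h2]
    exact hab
  rcases Int.natAbs_eq b with h | h
  · have h2 : ((b.natAbs : ℕ) : v.adicCompletion ℚ) = ((b : ℤ) : v.adicCompletion ℚ) := by
      conv_rhs => rw [h]
      simp
    rw [h2, mul_comm]
    exact h1
  · have h2 : ((b.natAbs : ℕ) : v.adicCompletion ℚ) = -((b : ℤ) : v.adicCompletion ℚ) := by
      conv_rhs => rw [h]
      simp
    rw [h2, neg_mul, mul_comm]
    exact neg_mem h1

theorem tAD1 : S_AD1 := by
  classical
  intro a
  have hT : {v : HeightOneSpectrum ℤ | ¬ a v ∈ v.adicCompletionIntegers ℚ}.Finite := by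
    have h := a.2
    rw [Filter.eventually_cofinite] at h
    exact h
  choose n hn hna using fun v : HeightOneSpectrum ℤ => AD1_loc v (a v)
  refine ⟨∏ v ∈ hT.toFinset, n v, Finset.prod_pos fun v _ => hn v, fun v => ?_⟩
  have e : (((∏ w ∈ hT.toFinset, n w : ℕ) : Af) * a) v =
      ((∏ w ∈ hT.toFinset, n w : ℕ) : v.adicCompletion ℚ) * a v := rfl
  rw [e]
  by_cases hv : a v ∈ v.adicCompletionIntegers ℚ
  · exact mul_mem (AD1_nat v _) hv
  · have hvT : v ∈ hT.toFinset := by
      rw [Set.Finite.mem_toFinset]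
      exact hv
    rw [← Finset.mul_prod_erase _ _ hvT, Nat.cast_mul, mul_assoc, mul_left_comm]
    exact mul_mem (AD1_nat v _) (hna v)

end Pool.Agent.GP
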