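import Pool.Agent.Lib.GP.SpecA

/-!
# Theorem GP, module AD2: rational numbers which are integral adeles (helper95)
-/

set_option autoImplicit false

open IsDedekindDomain Matrix MeasureTheory

noncomputable section

namespace Pool.Agent.GP

theorem tAD2 : S_AD2 := by
  intro q hq
  have h : ∀ v : HeightOneSpectrum ℤ, v.valuation ℚ q ≤ 1 := by
    intro v
    have h1 : (algebraMap ℚ Af q) v ∈ v.adicCompletionIntegers ℚ := hq v
    rw [HeightOneSpectrum.mem_adicCompletionIntegers] at h1
    exact (HeightOneSpectrum.valuedAdicCompletion_eq_valuation' v q).symm.le.trans h1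
  obtain ⟨z, hz⟩ := HeightOneSpectrum.mem_integers_of_valuation_le_one ℚ q h
  exact ⟨z, hz.symm⟩

end Pool.Agent.GP
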