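import Pool.Agent.Lib.GP.SpecA

set_option autoImplicit false

open IsDedekindDomain Matrix MeasureTheory

noncomputable section

namespace Pool.Agent.GP

private lemma AD3_val (v : HeightOneSpectrum ℤ) (k : ℚ) :
    Valued.v (algebraMap ℚ (v.adicCompletion ℚ) k) = v.valuation ℚ k :=
  HeightOneSpectrum.valuedAdicCompletion_eq_valuation' v k

private lemma AD3_valZ (v : HeightOneSpectrum ℤ) (c : ℤ) :
    Valued.v (c : v.adicCompletion ℚ) = v.intValuation c := by
  have h1 : (c : v.adicCompletion ℚ) = algebraMap ℚ (v.adicCompletion ℚ) (c : ℚ) :=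
    (map_intCast _ _).symm
  rw [h1, AD3_val]
  exact v.valuation_of_algebraMap (K := ℚ) c

/-- Integers are dense in the local integers. -/
private lemma AD3_local (v : HeightOneSpectrum ℤ) (y : v.adicCompletion ℚ)
    (hy : y ∈ v.adicCompletionIntegers ℚ) (M : ℤ) (hM : M ≠ 0) :
    ∃ c : ℤ, Valued.v ((c : v.adicCompletion ℚ) - y) ≤ Valued.v (M : v.adicCompletion ℚ) := by
  have hM0 : Valued.v (M : v.adicCompletion ℚ) ≠ 0 := by
    rw [AD3_valZ]; exact v.intValuation_ne_zero M hM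
  have hM1 : Valued.v (M : v.adicCompletion ℚ) ≤ 1 := by
    rw [AD3_valZ]; exact v.intValuation_le_one M
  have hMne : (M : v.adicCompletion ℚ) ≠ 0 := by
    intro h; rw [h, map_zero] at hM0; exact hM0 rfl
  -- a rational number near `y`
  have hopen : IsOpen {x : v.adicCompletion ℚ | (x - y) * (M : v.adicCompletion ℚ)⁻¹ ∈ v.adicCompletionIntegers ℚ} := by
    have h1 : IsOpen (v.adicCompletionIntegers ℚ : Set (v.adicCompletion ℚ)) :=
      Valued.isOpen_valuationSubring _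
    exact h1.preimage ((continuous_id.sub continuous_const).mul continuous_const)
  obtain ⟨q, hq⟩ := (HeightOneSpectrum.denseRange_algebraMap ℚ v).exists_mem_open hopen
    ⟨y, by simp⟩
  have hq1 : Valued.v (algebraMap ℚ (v.adicCompletion ℚ) q - y) ≤ Valued.v (M : v.adicCompletion ℚ) := by
    have h1 : Valued.v ((algebraMap ℚ (v.adicCompletion ℚ) q - y) * (M : v.adicCompletion ℚ)⁻¹) ≤ 1 := hq
    have h2 : algebraMap ℚ (v.adicCompletion ℚ) q - y =
        ((algebraMap ℚ (v.adicCompletion ℚ) q - y) * (M : v.adicCompletion ℚ)⁻¹) * (M : v.adicCompletion ℚ) := by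
      field_simp
    rw [h2, map_mul]
    exact mul_le_of_le_one_left' h1
  have hq2 : v.valuation ℚ q ≤ 1 := by
    rw [← AD3_val]
    have h1 : algebraMap ℚ (v.adicCompletion ℚ) q = (algebraMap ℚ (v.adicCompletion ℚ) q - y) + y := by ring
    rw [h1]
    exact le_trans (Valued.v.map_add _ _) (max_le (le_trans hq1 hM1) hy)
  obtain ⟨c, hc⟩ := v.exists_valuation_sub_lt_of_integer (K := ℚ) hq2 (Units.mk0 _ hM0)
  refine ⟨c, ?_⟩
  have h1 : (c : v.adicCompletion ℚ) - y = algebraMap ℚ (v.adicCompletion ℚ) (algebraMap ℤ ℚ c - q) +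
      (algebraMap ℚ (v.adicCompletion ℚ) q - y) := by
    rw [map_sub]
    simp
  rw [h1]
  refine le_trans (Valued.v.map_add _ _) (max_le ?_ hq1)
  rw [AD3_val]
  exact hc.le

/-- Strong approximation for integral adeles. -/
private lemma AD3_claim (b : Af) (hb : b ∈ Zh) (M : ℕ) (hM : 0 < M) :
    ∃ (c : ℤ) (z : Af), z ∈ Zh ∧ b = algebraMap ℚ Af c + M * z := by
  classical
  have hM0 : (M : ℤ) ≠ 0 := by exact_mod_cast hM.ne'
  have hloc : ∀ v : HeightOneSpectrum ℤ, ∃ c : ℤ,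
      Valued.v ((c : v.adicCompletion ℚ) - b v) ≤ Valued.v ((M : ℤ) : v.adicCompletion ℚ) :=
    fun v => AD3_local v (b v) (hb v) M hM0
  choose c hc using hloc
  have hexp : ∀ v : HeightOneSpectrum ℤ, ∃ n : ℕ, WithZero.exp (-(n : ℤ)) < v.intValuation (M : ℤ) :=
    fun v => WithZero.exists_exp_neg_natCast_lt (v.intValuation_ne_zero _ hM0)
  choose e he using hexp
  have hfin : {v : HeightOneSpectrum ℤ | v.intValuation (M : ℤ) < 1}.Finite := by
    simp_rw [HeightOneSpectrum.intValuation_lt_one_iff_dvd]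
    apply Ideal.finite_factors
    simpa only [Submodule.zero_eq_bot, ne_eq, Ideal.span_singleton_eq_bot] using hM0
  obtain ⟨C, hC⟩ := IsDedekindDomain.exists_forall_sub_mem_ideal (s := hfin.toFinset)
    (fun v : HeightOneSpectrum ℤ => v.asIdeal) e (fun v _ => v.prime)
    (fun v _ w _ hvw h => hvw (HeightOneSpectrum.ext h)) (fun v => c v.1)
  have hCv : ∀ v : HeightOneSpectrum ℤ,
      Valued.v ((C : v.adicCompletion ℚ) - b v) ≤ Valued.v ((M : ℤ) : v.adicCompletion ℚ) := by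
    intro v
    by_cases hv : v.intValuation (M : ℤ) < 1
    · have h1 := hC v (hfin.mem_toFinset.2 hv)
      rw [← HeightOneSpectrum.intValuation_le_pow_iff_mem] at h1
      have h2 : (C : v.adicCompletion ℚ) - b v = ((C - c v : ℤ) : v.adicCompletion ℚ) +
          ((c v : v.adicCompletion ℚ) - b v) := by
        push_cast; ring
      rw [h2]
      refine le_trans (Valued.v.map_add _ _) (max_le ?_ (hc v))
      rw [AD3_valZ, AD3_valZ]
      exact le_trans h1 (he v).le
    · have h1 : v.intValuation (M : ℤ) = 1 := le_antisymm (v.intValuation_le_one _) (not_lt.1 hv)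
      rw [AD3_valZ v M, h1]
      refine le_trans (Valued.v.map_sub _ _) (max_le ?_ (hb v))
      rw [AD3_valZ]
      exact v.intValuation_le_one _
  have hinv : (M : Af) * algebraMap ℚ Af (M : ℚ)⁻¹ = 1 := by
    have h1 : (M : Af) = algebraMap ℚ Af (M : ℚ) := (map_natCast _ _).symm
    rw [h1, ← map_mul, mul_inv_cancel₀ (by exact_mod_cast hM.ne'), map_one]
  refine ⟨C, (b - algebraMap ℚ Af C) * algebraMap ℚ Af (M : ℚ)⁻¹, ?_, ?_⟩
  · intro v
    have h0 : ((b - algebraMap ℚ Af C) * algebraMap ℚ Af (M : ℚ)⁻¹) v =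
        (b v - (C : v.adicCompletion ℚ)) * ((M : ℤ) : v.adicCompletion ℚ)⁻¹ := by
      have h1 : (algebraMap ℚ Af (C : ℚ)) v = (C : v.adicCompletion ℚ) := by
        have : (algebraMap ℚ Af (C : ℚ)) v = algebraMap ℚ (v.adicCompletion ℚ) (C : ℚ) := rfl
        rw [this, map_intCast]
      have h2 : (algebraMap ℚ Af (M : ℚ)⁻¹) v = ((M : ℤ) : v.adicCompletion ℚ)⁻¹ := by
        have : (algebraMap ℚ Af (M : ℚ)⁻¹) v = algebraMap ℚ (v.adicCompletion ℚ) (M : ℚ)⁻¹ := rfl
        rw [this, map_inv₀, map_natCast]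
        simp
      have h3 : ((b - algebraMap ℚ Af C) * algebraMap ℚ Af (M : ℚ)⁻¹) v =
          (b v - (algebraMap ℚ Af (C : ℚ)) v) * (algebraMap ℚ Af (M : ℚ)⁻¹) v := rfl
      rw [h3, h1, h2]
    rw [h0]
    have h4 : Valued.v ((M : ℤ) : v.adicCompletion ℚ) ≠ 0 := by
      rw [AD3_valZ]; exact v.intValuation_ne_zero _ hM0
    rw [HeightOneSpectrum.mem_adicCompletionIntegers, map_mul, map_inv₀]
    rw [← mul_inv_cancel₀ h4]
    refine mul_le_mul' ?_ le_rfl
    have h5 := hCv v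
    rw [Valuation.map_sub_swap] at h5
    exact h5
  · rw [mul_comm (b - _), ← mul_assoc, hinv, one_mul]
    ring

theorem tAD3 : S_AD3 := by
  intro hAD1 a m hm
  obtain ⟨n, hn, hna⟩ := hAD1 a
  obtain ⟨c, z, hz, h⟩ := AD3_claim ((n : Af) * a) hna (n * m) (Nat.mul_pos hn hm)
  have hinv : algebraMap ℚ Af (n : ℚ)⁻¹ * (n : Af) = 1 := by
    have h1 : (n : Af) = algebraMap ℚ Af (n : ℚ) := (map_natCast _ _).symm
    rw [h1, ← map_mul, inv_mul_cancel₀ (by exact_mod_cast hn.ne'), map_one]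
  refine ⟨(n : ℚ)⁻¹ * c, z, hz, ?_⟩
  calc a = algebraMap ℚ Af (n : ℚ)⁻¹ * ((n : Af) * a) := by rw [← mul_assoc, hinv, one_mul]
    _ = algebraMap ℚ Af (n : ℚ)⁻¹ * (algebraMap ℚ Af c + ((n * m : ℕ) : Af) * z) := by rw [h]
    _ = algebraMap ℚ Af (n : ℚ)⁻¹ * algebraMap ℚ Af c + (algebraMap ℚ Af (n : ℚ)⁻¹ * (n : Af)) * (m * z) := by
        push_cast; ring
    _ = algebraMap ℚ Af ((n : ℚ)⁻¹ * c) + m * z := by rw [hinv, one_mul, map_mul]

end Pool.Agent.GP
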