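import Pool.Agent.Lib.GP.SpecA

/-!
# Theorem GP, module AD5: bounded denominators on compact sets
-/

set_option autoImplicit false

open IsDedekindDomain Matrix MeasureTheory

noncomputable section

namespace Pool.Agent.GP

private theorem AD5_dvd {m M : ℕ} (h : m ∣ M) {a : Af} (ha : (m : Af) * a ∈ Zh) :
    (M : Af) * a ∈ Zh := by
  obtain ⟨k, rfl⟩ := h
  have e : ((m * k : ℕ) : Af) * a = (k : Af) * ((m : Af) * a) := by
    push_cast
    ring
  rw [e]
  exact Zh.mul_mem (natCast_mem Zh k) ha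

private theorem AD5_open : IsOpen (Zh : Set Af) :=
  RestrictedProduct.isOpen_forall_mem (fun _ => Valued.isOpen_valuationSubring _)

private theorem AD5_cont {N : ℕ} (Q : Matrix (Fin N) (Fin N) ℚ) (i j : Fin N) :
    Continuous fun g : Gp Q Af => g.1.1 i j := by
  have h1 : Continuous fun g : Gp Q Af => g.1 := continuous_subtype_val
  have h2 : Continuous fun g : SpecialLinearGroup (Fin N) Af => g.1 := continuous_subtype_val
  have h3 : Continuous fun M : Matrix (Fin N) (Fin N) Af => M i j :=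
    (continuous_apply j).comp (continuous_apply i)
  exact h3.comp (h2.comp h1)

theorem tAD5 : S_AD5 := by
  intro h1 N Q S hS
  have key : ∀ i j : Fin N, ∃ m : ℕ, 0 < m ∧ ∀ g ∈ S, (m : Af) * g.1.1 i j ∈ Zh := by
    intro i j
    obtain ⟨t, ht⟩ := hS.elim_finite_subcover
      (fun m : {m : ℕ // 0 < m} => {g : Gp Q Af | (m.1 : Af) * g.1.1 i j ∈ Zh})
      (fun m => AD5_open.preimage (continuous_const.mul (AD5_cont Q i j)))
      (fun g _ => by
        obtain ⟨m, hm, hma⟩ := h1 (g.1.1 i j)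
        exact Set.mem_iUnion.2 ⟨⟨m, hm⟩, hma⟩)
    refine ⟨∏ m ∈ t, m.1, Finset.prod_pos fun m _ => m.2, fun g hg => ?_⟩
    obtain ⟨m, hm, hmg⟩ := Set.mem_iUnion₂.1 (ht hg)
    exact AD5_dvd (Finset.dvd_prod_of_mem (fun m : {m : ℕ // 0 < m} => m.1) hm) hmg
  choose m hm0 hm using key
  refine ⟨∏ i, ∏ j, m i j, Finset.prod_pos fun i _ => Finset.prod_pos fun j _ => hm0 i j,
    fun g hg i j => AD5_dvd ?_ (hm i j g hg)⟩
  exact (Finset.dvd_prod_of_mem (fun j => m i j) (Finset.mem_univ j)).trans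
    (Finset.dvd_prod_of_mem (fun i => ∏ j, m i j) (Finset.mem_univ i))

end Pool.Agent.GP
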