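import Pool.Agent.Lib.GP.SpecA

/-!
# Theorem GP, module AD6: open subgroups of the adelic group contain a congruence subgroup
-/

set_option autoImplicit false

open IsDedekindDomain Matrix MeasureTheory

noncomputable section

namespace Pool.Agent.GP

/-- Integers of small valuation. -/
private theorem AD6_loc (v : HeightOneSpectrum ℤ) (t : Set (v.adicCompletionIntegers ℚ))
    (ht : t ∈ nhds (0 : v.adicCompletionIntegers ℚ)) : ∃ m : ℕ, 0 < m ∧
      ∀ x : v.adicCompletionIntegers ℚ, ∀ y : v.adicCompletion ℚ, Valued.v y ≤ 1 →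
        x.1 = (m : v.adicCompletion ℚ) * y → x ∈ t := by
  rw [nhds_subtype_eq_comap, Filter.mem_comap] at ht
  obtain ⟨s, hs, hst⟩ := ht
  obtain ⟨γ, hγ⟩ := Valued.mem_nhds_zero.1 hs
  have hγ0 : MonoidWithZeroHom.ValueGroup₀.embedding γ.1 ≠ 0 := by
    intro h
    exact γ.ne_zero ((map_eq_zero _).1 h)
  obtain ⟨q, hq, hq0⟩ : ∃ q : ℕ, (q : ℤ) ∈ v.asIdeal ∧ 0 < q := by
    obtain ⟨p, hp, hp0⟩ := Submodule.exists_mem_ne_zero_of_ne_bot v.ne_bot
    refine ⟨p.natAbs, ?_, Int.natAbs_pos.2 hp0⟩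
    rcases Int.natAbs_eq p with h | h
    · rw [← h]
      exact hp
    · have h1 := v.asIdeal.neg_mem hp
      rw [h, neg_neg] at h1
      exact h1
  have hv : Valued.v (q : v.adicCompletion ℚ) < 1 := by
    have h1 := (HeightOneSpectrum.valuation_lt_one_iff_mem (K := ℚ) v _).2 hq
    have h2 := HeightOneSpectrum.valuedAdicCompletion_eq_valuation (K := ℚ) v (q : ℤ)
    rw [← h2] at h1
    simpa using h1
  obtain ⟨j, hj⟩ := exists_pow_lt₀ hv (Units.mk0 _ hγ0)
  refine ⟨q ^ j, pow_pos hq0 j, fun x y hy hx => hst (hγ ?_)⟩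
  change Valued.v.restrict x.1 < γ.1
  rw [Valuation.restrict_lt_iff_lt_embedding, hx, map_mul, Nat.cast_pow, map_pow]
  exact lt_of_le_of_lt (mul_le_of_le_one_right' hy) hj

/-- The component at `v`. -/
private def AD6_ev (v : HeightOneSpectrum ℤ) : Af →+* v.adicCompletion ℚ where
  toFun a := a v
  map_one' := rfl
  map_mul' _ _ := rfl
  map_zero' := rfl
  map_add' _ _ := rfl

private theorem AD6_ev_nat (v : HeightOneSpectrum ℤ) (r m : ℕ) (z : Af) :
    (((r * m : ℕ) : Af) * z) v = (r : v.adicCompletion ℚ) * (((m : ℕ) : Af) * z) v := by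
  have h : AD6_ev v (((r * m : ℕ) : Af) * z) = (r : v.adicCompletion ℚ) * AD6_ev v ((m : Af) * z) := by
    rw [map_mul, map_natCast, map_mul, map_natCast, Nat.cast_mul, mul_assoc]
  exact h

/-- Every neighbourhood of zero contains a multiple of `Zh`. -/
private theorem AD6_nhds (U : Set Af) (hU : U ∈ nhds (0 : Af)) :
    ∃ m : ℕ, 0 < m ∧ ∀ z ∈ Zh, (m : Af) * z ∈ U := by
  classical
  have hc : Continuous (RestrictedProduct.structureMap (fun v : HeightOneSpectrum ℤ =>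
      v.adicCompletion ℚ) (fun v : HeightOneSpectrum ℤ => v.adicCompletionIntegers ℚ)
      Filter.cofinite) := RestrictedProduct.isEmbedding_structureMap.continuous
  have h1 : U ∈ nhds ((RestrictedProduct.structureMap (fun v : HeightOneSpectrum ℤ =>
      v.adicCompletion ℚ) (fun v : HeightOneSpectrum ℤ => v.adicCompletionIntegers ℚ)
      Filter.cofinite) 0) := hU
  have h2 := hc.continuousAt.preimage_mem_nhds h1
  rw [nhds_pi, Filter.mem_pi] at h2
  obtain ⟨I, hI, t, ht, hsub⟩ := h2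
  choose f hf0 hf using fun v => AD6_loc v (t v) (ht v)
  refine ⟨∏ v ∈ hI.toFinset, f v, Finset.prod_pos fun v _ => hf0 v, fun z hz => ?_⟩
  have hmem : ∀ v : HeightOneSpectrum ℤ, (((∏ v ∈ hI.toFinset, f v : ℕ) : Af) * z) v ∈
      v.adicCompletionIntegers ℚ := Zh.mul_mem (natCast_mem Zh _) hz
  have h3 : (fun v : HeightOneSpectrum ℤ => (⟨_, hmem v⟩ : v.adicCompletionIntegers ℚ)) ∈
      Set.pi I t := by
    intro v hv
    have hvI : v ∈ hI.toFinset := hI.mem_toFinset.2 hv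
    refine hf v _ ((((∏ w ∈ hI.toFinset.erase v, f w : ℕ) : Af) * z) v) ?_ ?_
    · have h4 : (((∏ w ∈ hI.toFinset.erase v, f w : ℕ) : Af) * z) ∈ Zh :=
        Zh.mul_mem (natCast_mem Zh _) hz
      exact (HeightOneSpectrum.mem_adicCompletionIntegers ℤ ℚ v).1 (h4 v)
    · change (((∏ v ∈ hI.toFinset, f v : ℕ) : Af) * z) v = _
      rw [← Finset.mul_prod_erase _ _ hvI]
      exact AD6_ev_nat v (f v) _ z
  exact hsub h3

/-- Neighbourhoods of zero in a finite power. -/
private theorem AD6_pow {X : Type} [TopologicalSpace X] [Zero X] {n : ℕ} {W : Set (Fin n → X)}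
    (hW : W ∈ nhds (0 : Fin n → X)) :
    ∃ U ∈ nhds (0 : X), ∀ f : Fin n → X, (∀ i, f i ∈ U) → f ∈ W := by
  rw [nhds_pi, Filter.mem_pi] at hW
  obtain ⟨I, -, t, ht, hsub⟩ := hW
  refine ⟨⋂ i, t i, (Filter.iInter_mem).2 ht, fun f hf => hsub fun i _ => ?_⟩
  exact Set.mem_iInter.1 (hf i) i

/-- Neighbourhoods of the identity matrix. -/
private theorem AD6_mat {X : Type} [CommRing X] [TopologicalSpace X] [IsTopologicalRing X] {n : ℕ}
    {W : Set (Matrix (Fin n) (Fin n) X)} (hW : W ∈ nhds (1 : Matrix (Fin n) (Fin n) X)) :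
    ∃ U ∈ nhds (0 : X), ∀ A : Matrix (Fin n) (Fin n) X,
      (∀ i j, A i j - (1 : Matrix (Fin n) (Fin n) X) i j ∈ U) → A ∈ W := by
  obtain ⟨W', hW'⟩ : ∃ W' : Set (Fin n → Fin n → X), W' = W := ⟨W, rfl⟩
  obtain ⟨J, hJ⟩ : ∃ J : Fin n → Fin n → X, J = (1 : Matrix (Fin n) (Fin n) X) := ⟨_, rfl⟩
  have hWJ : W' ∈ nhds J := by
    rw [hW', hJ]
    exact hW
  have hc : Continuous fun A : Fin n → Fin n → X => J + A := continuous_const.add continuous_id
  have h2 : (fun A : Fin n → Fin n → X => J + A) ⁻¹' W' ∈ nhds (0 : Fin n → Fin n → X) := by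
    refine hc.continuousAt.preimage_mem_nhds ?_
    rw [add_zero]
    exact hWJ
  obtain ⟨U1, hU1, h3⟩ := AD6_pow h2
  obtain ⟨U, hU, h4⟩ := AD6_pow hU1
  refine ⟨U, hU, fun A hA => ?_⟩
  have h5 : J + (fun i j => A i j - J i j) ∈ W' := h3 _ fun i => h4 _ fun j => by
    rw [hJ]
    exact hA i j
  have e : J + (fun i j => A i j - J i j) = A := by
    funext i j
    exact add_sub_cancel _ _
  rw [e, hW'] at h5
  exact h5

theorem tAD6 : S_AD6 := by
  intro N Q K hK
  have hi : Topology.IsInducing (fun g : Gp Q Af => g.1.1) := by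
    have h1 : Topology.IsInducing (Subtype.val : SpecialLinearGroup (Fin N) Af →
        Matrix (Fin N) (Fin N) Af) := Topology.IsInducing.subtypeVal
    exact h1.comp Topology.IsInducing.subtypeVal
  have h1 : (K : Set (Gp Q Af)) ∈ nhds (1 : Gp Q Af) := hK.mem_nhds K.one_mem
  rw [hi.nhds_eq_comap, Filter.mem_comap] at h1
  obtain ⟨W, hW, hWK⟩ := h1
  obtain ⟨U, hU, h4⟩ := AD6_mat hW
  obtain ⟨m, hm, hmU⟩ := AD6_nhds U hU
  refine ⟨m, hm, fun g hg => hWK (h4 g.1.1 fun i j => ?_)⟩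
  obtain ⟨z, hz, e⟩ := hg i j
  rw [e, add_sub_cancel_left]
  exact hmU z hz

end Pool.Agent.GP
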