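import Pool.Agent.Lib.GP.SpecA

/-!
# Theorem GP: assembly (author helper25)
-/

set_option autoImplicit false

open IsDedekindDomain Matrix MeasureTheory

noncomputable section

namespace Pool.Agent.GP

variable {N : ℕ}

/-- The representative of a class, as an element of `G(Af)`. -/
private def hh (Q : Matrix (Fin N) (Fin N) ℚ) (e : Fin N → ℚ) (K : Subgroup (Gp Q Af)) (c : ClH Q e K) : Gp Q Af :=
  (Quotient.out c : Hp Q e Af).1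

private theorem muH_prob (Q : Matrix (Fin N) (Fin N) ℚ) (e : Fin N → ℚ) [CompactSpace (Hp Q e ℝ)] :
    @IsProbabilityMeasure (Hp Q e ℝ) (borel _) (muH Q e) := by
  let _ : MeasurableSpace (Hp Q e ℝ) := borel _
  have _ : BorelSpace (Hp Q e ℝ) := ⟨rfl⟩
  refine ⟨?_⟩
  change ((Measure.haar (Set.univ : Set (Hp Q e ℝ)))⁻¹) * (Measure.haar (Set.univ : Set (Hp Q e ℝ))) = 1
  exact ENNReal.inv_mul_cancel (isOpen_univ.measure_ne_zero _ Set.univ_nonempty) (isCompact_univ.measure_ne_top)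

private theorem muH_left (Q : Matrix (Fin N) (Fin N) ℚ) (e : Fin N → ℚ) :
    @Measure.IsMulLeftInvariant (Hp Q e ℝ) (borel _) _ (muH Q e) := by
  let _ : MeasurableSpace (Hp Q e ℝ) := borel _
  have _ : BorelSpace (Hp Q e ℝ) := ⟨rfl⟩
  change Measure.IsMulLeftInvariant (((Measure.haar (Set.univ : Set (Hp Q e ℝ)))⁻¹) • (Measure.haar : Measure (Hp Q e ℝ)))
  infer_instance

private theorem muH_pos (Q : Matrix (Fin N) (Fin N) ℚ) (e : Fin N → ℚ) [CompactSpace (Hp Q e ℝ)] :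
    @Measure.IsOpenPosMeasure (Hp Q e ℝ) _ (borel _) (muH Q e) := by
  let _ : MeasurableSpace (Hp Q e ℝ) := borel _
  have _ : BorelSpace (Hp Q e ℝ) := ⟨rfl⟩
  change Measure.IsOpenPosMeasure (((Measure.haar (Set.univ : Set (Hp Q e ℝ)))⁻¹) • (Measure.haar : Measure (Hp Q e ℝ)))
  refine ⟨fun U hU hne h0 => ?_⟩
  have h1 : ((Measure.haar (Set.univ : Set (Hp Q e ℝ)))⁻¹) * (Measure.haar U) = 0 := h0
  rcases mul_eq_zero.1 h1 with h | h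
  · exact isCompact_univ.measure_ne_top (ENNReal.inv_eq_zero.1 h)
  · exact hU.measure_ne_zero _ hne h

/-- The conclusion of the main theorem for one pair of weights. -/
private def Concl (Q : Matrix (Fin N) (Fin N) ℚ) (e : Fin N → ℚ) (K : Subgroup (Gp Q Af)) (C : ℝ)
    {V W : Type} [NormedAddCommGroup V] [InnerProductSpace ℂ V] [NormedAddCommGroup W] [InnerProductSpace ℂ W]
    (ρ : URep (Gp Q ℝ) V) (σ : URep (Hp Q e ℝ) W) : Prop :=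
  (∀ 𝒩 : Submodule ℂ (Hp Q e ℝ → Hp Q e Af → ℂ), 𝒩 ≤ AH Q e K σ →
    (∀ φ' ∈ 𝒩, ∀ φ ∈ AG Q K ρ, Per Q e K φ φ' = 0) →
    FiniteDimensional ℂ 𝒩 ∧ (Module.finrank ℂ 𝒩 : ℝ) ≤ C * ((Module.finrank ℂ W : ℝ) ^ 2 *
      ((Module.finrank ℂ W : ℝ) / Module.finrank ℂ V) ^ (1 / (2 * N + 4 : ℝ)))) ∧
  (C * (Module.finrank ℂ W : ℝ) ^ (2 * N + 5) ≤ Module.finrank ℂ V →
    ∀ φ' ∈ AH Q e K σ, φ' ≠ 0 → ∃ φ ∈ AG Q K ρ, Per Q e K φ φ' ≠ 0)

private theorem num1 (X d D : ℝ) (N : ℕ) (hX : 0 ≤ X) (hd : 1 ≤ d) (hD : (X ^ (2 * N + 4) + 1) * d ^ (2 * N + 5) ≤ D) :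
    X * (d * (d / D) ^ (1 / (2 * N + 4 : ℝ))) < 1 := by
  have hd0 : 0 < d := by linarith
  have h1 : X ^ (2 * N + 4) * d ^ (2 * N + 5) < D := by
    have : 0 < d ^ (2 * N + 5) := by positivity
    nlinarith
  have hD0 : 0 < D := lt_of_le_of_lt (by positivity) h1
  have h2 : (X * (d * (d / D) ^ (1 / (2 * N + 4 : ℝ)))) ^ (2 * N + 4) < 1 := by
    have h3 : ((d / D) ^ (1 / (2 * N + 4 : ℝ))) ^ (2 * N + 4) = d / D := by
      rw [← Real.rpow_natCast, ← Real.rpow_mul (by positivity)]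
      have : (1 / (2 * N + 4 : ℝ)) * ((2 * N + 4 : ℕ) : ℝ) = 1 := by
        push_cast
        field_simp
      rw [this, Real.rpow_one]
    rw [mul_pow, mul_pow, h3]
    have h4 : X ^ (2 * N + 4) * (d ^ (2 * N + 4) * (d / D)) = X ^ (2 * N + 4) * d ^ (2 * N + 5) / D := by
      rw [pow_succ d (2 * N + 4)]
      ring
    rw [h4, div_lt_one hD0]
    exact h1
  by_contra h5
  push Not at h5
  have h6 := one_le_pow₀ h5 (n := 2 * N + 4)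
  linarith

private theorem num2 (B M : ℝ) (hM : 0 ≤ M) (d D : ℕ) (nn u : ℝ) (N : ℕ) (h1 : nn ≤ d * u)
    (h2 : u ≤ B ^ 2 * (M * (d * ((d : ℝ) / D) ^ (1 / (2 * N + 4 : ℝ))))) :
    nn ≤ (B ^ 2 * M + ((B ^ 2 * M) ^ (2 * N + 4) + 1)) *
      ((d : ℝ) ^ 2 * ((d : ℝ) / D) ^ (1 / (2 * N + 4 : ℝ))) := by
  have h3 : 0 ≤ (B ^ 2 * M) ^ (2 * N + 4) := by positivity
  have h4 : 0 ≤ (d : ℝ) ^ 2 * ((d : ℝ) / D) ^ (1 / (2 * N + 4 : ℝ)) := by positivity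
  calc nn ≤ d * u := h1
    _ ≤ d * (B ^ 2 * (M * (d * ((d : ℝ) / D) ^ (1 / (2 * N + 4 : ℝ))))) := mul_le_mul_of_nonneg_left h2 (by positivity)
    _ = (B ^ 2 * M) * ((d : ℝ) ^ 2 * ((d : ℝ) / D) ^ (1 / (2 * N + 4 : ℝ))) := by ring
    _ ≤ _ := mul_le_mul_of_nonneg_right (by linarith) h4

private theorem num3 (B M : ℝ) (hM : 0 ≤ M) (d D : ℕ) (u : ℝ) (N : ℕ) (hd : (1 : ℝ) ≤ d)
    (h2 : u ≤ B ^ 2 * (M * (d * ((d : ℝ) / D) ^ (1 / (2 * N + 4 : ℝ)))))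
    (h3 : (B ^ 2 * M + ((B ^ 2 * M) ^ (2 * N + 4) + 1)) * (d : ℝ) ^ (2 * N + 5) ≤ D) : u < 1 := by
  have hX : 0 ≤ B ^ 2 * M := by positivity
  have h4 : 0 ≤ (d : ℝ) ^ (2 * N + 5) := by positivity
  have h6 : ((B ^ 2 * M) ^ (2 * N + 4) + 1) * (d : ℝ) ^ (2 * N + 5) ≤ D := by
    refine le_trans ?_ h3
    exact mul_le_mul_of_nonneg_right (by linarith) h4
  have h7 := num1 (B ^ 2 * M) d D N hX hd h6
  calc u ≤ _ := h2
    _ = (B ^ 2 * M) * (d * ((d : ℝ) / D) ^ (1 / (2 * N + 4 : ℝ))) := by ring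
    _ < 1 := h7

private theorem num4 (B M : ℝ) (hM : 0 ≤ M) (N : ℕ) : 0 < B ^ 2 * M + ((B ^ 2 * M) ^ (2 * N + 4) + 1) := by
  have h3 : 0 ≤ (B ^ 2 * M) ^ (2 * N + 4) := by positivity
  have hX : 0 ≤ B ^ 2 * M := by positivity
  linarith

private theorem num5 (d D N : ℕ) : (0 : ℝ) ≤ d * ((d : ℝ) / D) ^ (1 / (2 * N + 4 : ℝ)) := by positivity

private theorem step (hLoc : C_Loc) (hNull : C_Null) (hBF : C_BF) (hGR1 : C_GR1) (hGR2 : C_GR2) (hGR3 : C_GR3)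
    (Q : Matrix (Fin N) (Fin N) ℚ) (e : Fin N → ℚ) (K : Subgroup (Gp Q Af)) (hN : 3 ≤ N) (hQ : PQ Q) (he : e ≠ 0)
    (hKc : IsCompact (K : Set (Gp Q Af))) (hfin : Finite (ClH Q e K)) (Γ1 : Subgroup (Gp Q ℚ))
    (h1 : ∀ c c' : ClH Q e K, ∀ γ ∈ Γ1, γ ∈ tr (jG Q Af) K (hh Q e K c) (hh Q e K c') → c = c')
    (h2 : ∀ c c' : ClH Q e K, ∀ γ : Gp Q ℚ, γ ∉ Γ1 → γ ∈ tr (jG Q Af) K (hh Q e K c) (hh Q e K c') →
      γ.1.1 *ᵥ ve e ℚ ≠ ve e ℚ ∧ γ.1.1 *ᵥ ve e ℚ ≠ -ve e ℚ)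
    (κ : ℝ) (h3 : ∀ c : ClH Q e K, wt (jG Q Af) K Γ1 (hh Q e K) c =
      κ * ((st (⊤ : Subgroup (Hp Q e ℚ)) (jH Q e Af) (KH Q e K) (Quotient.out c) : ℕ) : ℝ)⁻¹) :
    ∃ C : ℝ, 0 < C ∧ ∀ (V W : Type) [NormedAddCommGroup V] [InnerProductSpace ℂ V] [FiniteDimensional ℂ V]
        [NormedAddCommGroup W] [InnerProductSpace ℂ W] [FiniteDimensional ℂ W]
        (ρ : URep (Gp Q ℝ) V) (σ : URep (Hp Q e ℝ) W) (l : V →ₗ[ℂ] W →ₗ[ℂ] ℂ), ρ.Irr → σ.Irr → l ≠ 0 →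
        (∀ (x : Hp Q e ℝ) (v : V) (w : W), l (ρ.act x v) (σ.act x w) = l v w) →
        (∀ (c : ClH Q e K) (a : V), (∀ γ ∈ Hp Q e ℚ, γ ∈ tr (jG Q Af) K (hh Q e K c) (hh Q e K c) →
          ρ.act (jG Q ℝ γ) a = a) → ∀ γ ∈ Γ1, γ ∈ tr (jG Q Af) K (hh Q e K c) (hh Q e K c) →
          ρ.act (jG Q ℝ γ) a = a) → Concl Q e K C ρ σ := by
  classical
  obtain ⟨cG, cH, -⟩ := hGR1 N Q e hQ
  obtain ⟨e', R, hR⟩ := hGR2 N Q e hQ he
  have hd : FD (jG Q Af) K Γ1 (hh Q e K) := ⟨hGR3 N Q K hQ hKc, h1⟩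
  let _ : Fintype (ClH Q e K) := Fintype.ofFinite _
  have hτ : ∀ (g : Gp Q ℝ) (x : EE N), R.τ g (R.τ g⁻¹ x) = x := by
    intro g x
    have h5 : R.τ g * R.τ g⁻¹ = 1 := by rw [← map_mul, mul_inv_cancel, map_one]
    have h6 : (R.τ g * R.τ g⁻¹) x = (1 : EE N ≃ₗᵢ[ℝ] EE N) x := by rw [h5]
    exact h6
  -- the constants
  have hC : ∀ γ : Gp Q ℚ, ∃ C : ℝ, 0 < C ∧ (γ.1.1 *ᵥ ve e ℚ ≠ ve e ℚ → γ.1.1 *ᵥ ve e ℚ ≠ -ve e ℚ →
      ∀ (V : Type) [NormedAddCommGroup V] [InnerProductSpace ℂ V] [FiniteDimensional ℂ V] (ρ : URep (Gp Q ℝ) V)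
        (P : V →ₗ[ℂ] V), ρ.Irr → Prj P → (∀ h : Gp Q ℝ, R.τ h e' = e' → ∀ v, P (ρ.act h v) = ρ.act h (P v)) →
          Ph ρ P (jG Q ℝ γ)⁻¹ ≤ C * (rk P * ((rk P : ℝ) / Module.finrank ℂ V) ^ (1 / (2 * N + 4 : ℝ)))) := by
    intro γ
    by_cases hγ : γ.1.1 *ᵥ ve e ℚ ≠ ve e ℚ ∧ γ.1.1 *ᵥ ve e ℚ ≠ -ve e ℚ
    · have k1 : R.τ (jG Q ℝ γ)⁻¹ e' ≠ e' := by
        intro hx
        have hy : R.τ (jG Q ℝ γ) e' = e' := by
          have h5 := hτ (jG Q ℝ γ) e'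
          rw [hx] at h5
          exact h5
        have hz : (jG Q ℝ γ).1.1 *ᵥ ve e ℝ = ve e ℝ := (hR _).1.1 hy
        rw [jG_ve] at hz
        refine hγ.1 (funext fun i => ?_)
        have := congrFun hz i
        exact (algebraMap ℚ ℝ).injective this
      have k2 : R.τ (jG Q ℝ γ)⁻¹ e' ≠ -e' := by
        intro hx
        have hy : R.τ (jG Q ℝ γ) e' = -e' := by
          have h5 := hτ (jG Q ℝ γ) e'
          rw [hx, map_neg] at h5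
          rw [← neg_eq_iff_eq_neg]
          exact h5
        have hz : (jG Q ℝ γ).1.1 *ᵥ ve e ℝ = -ve e ℝ := (hR _).2.1 hy
        rw [jG_ve] at hz
        refine hγ.2 (funext fun i => ?_)
        have := congrFun hz i
        refine (algebraMap ℚ ℝ).injective ?_
        rw [this, Pi.neg_apply, Pi.neg_apply, map_neg]
        rfl
      obtain ⟨C, hC0, hC1⟩ := hLoc N (Gp Q ℝ) e' R hN (jG Q ℝ γ)⁻¹ k1 k2
      exact ⟨C, hC0, fun _ _ => hC1⟩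
    · refine ⟨1, one_pos, fun h5 h6 => absurd ⟨h5, h6⟩ hγ⟩
  choose C0 hC0 hC1 using hC
  obtain ⟨B, hB⟩ : ∃ B : ℕ, B = ∑ i, ∑ j, (bad hd i j).card := ⟨_, rfl⟩
  obtain ⟨M, hM0, hMle⟩ : ∃ M : ℝ, 0 ≤ M ∧ ∀ i j, ∀ γ ∈ bad hd i j, C0 γ ≤ M := by
    refine ⟨∑ i, ∑ j, ∑ γ ∈ bad hd i j, C0 γ, Finset.sum_nonneg fun i _ => Finset.sum_nonneg fun j _ =>
      Finset.sum_nonneg fun γ _ => (hC0 γ).le, ?_⟩
    intro i j γ hγ
    have k1 : C0 γ ≤ ∑ γ ∈ bad hd i j, C0 γ := Finset.single_le_sum (fun γ _ => (hC0 γ).le) hγ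
    have k2 : ∑ γ ∈ bad hd i j, C0 γ ≤ ∑ j, ∑ γ ∈ bad hd i j, C0 γ :=
      Finset.single_le_sum (f := fun j => ∑ γ ∈ bad hd i j, C0 γ)
        (fun j _ => Finset.sum_nonneg fun γ _ => (hC0 γ).le) (Finset.mem_univ j)
    have k3 : ∑ j, ∑ γ ∈ bad hd i j, C0 γ ≤ ∑ i, ∑ j, ∑ γ ∈ bad hd i j, C0 γ :=
      Finset.single_le_sum (f := fun i => ∑ j, ∑ γ ∈ bad hd i j, C0 γ)
        (fun i _ => Finset.sum_nonneg fun j _ => Finset.sum_nonneg fun γ _ => (hC0 γ).le) (Finset.mem_univ i)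
    exact k1.trans (k2.trans k3)
  refine ⟨(B : ℝ) ^ 2 * M + (((B : ℝ) ^ 2 * M) ^ (2 * N + 4) + 1), num4 _ _ hM0 N, ?_⟩
  intro V W _ _ _ _ _ _ ρ σ l hρ hσ hl hinv h4
  let _ : MeasurableSpace (Hp Q e ℝ) := borel _
  have _ : BorelSpace (Hp Q e ℝ) := ⟨rfl⟩
  have _ := muH_prob Q e
  have _ := muH_left Q e
  have _ := muH_pos Q e
  obtain ⟨P, hP, hPc, hrk, Θ, hΘ1, hΘ2, hΘ3, hΘ4⟩ := hBF (Gp Q ℚ) (Gp Q ℝ) (Gp Q Af) V W (ClH Q e K) (jG Q ℝ) (jG Q Af) K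
    (Hp Q e ℚ) (Hp Q e ℝ) (Hp Q e Af) (jH Q e ℝ) (jH Q e Af) (KH Q e K) (muH Q e) ρ σ
    (fun c => Quotient.out c) (fun _ => 1) l (fun _ => rfl) (fun _ => rfl)
    (fun i k hk => by
      have hk' : (1 : Gp Q Af)⁻¹ * (k : Gp Q Af) * 1 ∈ K := hk
      rw [inv_one, one_mul, mul_one] at hk'
      exact hk') hσ hl hinv
  obtain ⟨d, hdd⟩ : ∃ d : ℕ, d = Module.finrank ℂ W := ⟨_, rfl⟩
  obtain ⟨D, hDD⟩ : ∃ D : ℕ, D = Module.finrank ℂ V := ⟨_, rfl⟩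
  have _ : Nontrivial W := hσ.1
  have hd1 : (1 : ℝ) ≤ d := by
    have : 0 < Module.finrank ℂ W := Module.finrank_pos
    rw [hdd]
    exact_mod_cast this
  have hdim : (Module.finrank ℂ (Nul (jG Q ℝ) (jG Q Af) K Γ1 (hh Q e K) ρ P) : ℝ) ≤
      (B : ℝ) ^ 2 * (M * (d * ((d : ℝ) / D) ^ (1 / (2 * N + 4 : ℝ)))) := by
    rw [hB]
    refine hNull (Gp Q ℚ) (Gp Q ℝ) (Gp Q Af) V (ClH Q e K) (jG Q ℝ) (jG Q Af) K Γ1 (hh Q e K) ρ P hd _ hP ?_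
    intro i j γ hγ
    have hγ' : γ ∈ tr (jG Q Af) K (hh Q e K i) (hh Q e K j) ∧ γ ∉ Γ1 := by
      have := hγ
      rw [bad, Finset.mem_filter, Set.Finite.mem_toFinset] at this
      exact this
    obtain ⟨k1, k2⟩ := h2 i j γ hγ'.2 hγ'.1
    have := hC1 γ k1 k2 V ρ P hρ hP (fun h hh' v => hPc h ((hR h).1.1 hh') v)
    rw [hrk, ← hdd, ← hDD] at this
    exact this.trans (mul_le_mul_of_nonneg_right (hMle i j γ hγ) (num5 d D N))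
  -- the vectors of a form in the null space
  have hNulmem : ∀ φ' : AH Q e K σ, (∀ φ ∈ AG Q K ρ, Per Q e K φ φ'.1 = 0) → ∀ k : Fin (Module.finrank ℂ W),
      Θ φ' k ∈ Nul (jG Q ℝ) (jG Q Af) K Γ1 (hh Q e K) ρ P := by
    intro φ' hφ' k
    refine ⟨fun i => ⟨hΘ1 φ' k i, ?_⟩, ?_⟩
    · refine h4 i _ fun γ hγ hγ1 => hΘ2 φ' k i γ hγ ?_
      change γ ∈ tr (jG Q Af) K (hh Q e K i * 1) (hh Q e K i * 1)
      rw [mul_one]
      exact hγ1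
    · intro f hf
      obtain ⟨φ, hφ, hφ1⟩ := hΘ3 f hf k
      have h7 := hφ' φ hφ
      have h8 : ∀ i : ClH Q e K, (wt (jG Q Af) K Γ1 (hh Q e K) i : ℂ) * inner ℂ (f (hh Q e K i)) (Θ φ' k i) =
          (κ : ℂ) * (((st (⊤ : Subgroup (Hp Q e ℚ)) (jH Q e Af) (KH Q e K) (Quotient.out i) : ℂ))⁻¹ *
            @integral (Hp Q e ℝ) ℂ _ _ (borel _) (muH Q e)
              (fun x => φ x.1 (Quotient.out i).1 * φ'.1 x (Quotient.out i))) := by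
        intro i
        rw [h3 i]
        have h9 := hφ1 φ' i
        have h10 : (((Quotient.out i : Hp Q e Af) : Gp Q Af) * (1 : Gp Q Af)) = hh Q e K i := mul_one _
        rw [h10] at h9
        rw [← h9]
        push_cast
        rw [mul_assoc]
        rfl
      rw [Finset.sum_congr rfl fun i _ => h8 i, ← Finset.mul_sum]
      have h11 : Per Q e K φ φ'.1 = ∑ c : ClH Q e K, ((st (⊤ : Subgroup (Hp Q e ℚ)) (jH Q e Af) (KH Q e K) (Quotient.out c) : ℂ))⁻¹ *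
            @integral (Hp Q e ℝ) ℂ _ _ (borel _) (muH Q e)
              (fun x => φ x.1 (Quotient.out c).1 * φ'.1 x (Quotient.out c)) := finsum_eq_sum_of_fintype _
      rw [← h11, h7, mul_zero]
  have hinj : ∀ φ' : AH Q e K σ, (∀ k : Fin (Module.finrank ℂ W), Θ φ' k = 0) → φ' = 0 := by
    intro φ' h5
    refine hΘ4 Set.univ ?_ φ' (fun k i _ => by rw [h5 k]; rfl)
    intro g
    refine ⟨(Quotient.mk _ g : ClH Q e K), Set.mem_univ _, ?_⟩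
    have h6 : (clsSetoid (jH Q e Af) (KH Q e K)).r (Quotient.out (Quotient.mk _ g : ClH Q e K)) g :=
      Quotient.exact (Quotient.out_eq (Quotient.mk _ g : ClH Q e K))
    obtain ⟨γ, k, hk, hgk⟩ := h6
    exact ⟨γ, k, hk, hgk⟩
  constructor
  · intro 𝒩 h𝒩 hper
    let Ψ : 𝒩 →ₗ[ℂ] (Fin (Module.finrank ℂ W) → Nul (jG Q ℝ) (jG Q Af) K Γ1 (hh Q e K) ρ P) :=
      LinearMap.pi fun k => LinearMap.codRestrict _
        ((LinearMap.proj k).comp (Θ.comp (Submodule.inclusion h𝒩)))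
        (fun φ' => hNulmem _ (fun φ hφ => hper φ'.1 φ'.2 φ hφ) k)
    have hΨ : Function.Injective Ψ := by
      rw [injective_iff_map_eq_zero]
      intro φ' h5
      have h6 := hinj (Submodule.inclusion h𝒩 φ') (fun k => by
        have := congrArg Subtype.val (congrFun h5 k)
        exact this)
      have h7 := congrArg Subtype.val h6
      exact Subtype.ext h7
    have hfd : FiniteDimensional ℂ 𝒩 := Module.Finite.of_injective Ψ hΨ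
    refine ⟨hfd, ?_⟩
    have h5 := LinearMap.finrank_le_finrank_of_injective hΨ
    rw [Module.finrank_pi_fintype, Finset.sum_const, Finset.card_univ, Fintype.card_fin, smul_eq_mul] at h5
    have h6 : (Module.finrank ℂ 𝒩 : ℝ) ≤ d * (Module.finrank ℂ (Nul (jG Q ℝ) (jG Q Af) K Γ1 (hh Q e K) ρ P) : ℝ) := by
      rw [hdd]
      exact_mod_cast h5
    rw [← hdd, ← hDD]
    exact num2 B M hM0 d D _ _ N h6 hdim
  · intro hbig φ' hφ' hne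
    by_contra hcon
    push Not at hcon
    rw [← hdd, ← hDD] at hbig
    have h5 := num3 B M hM0 d D _ N hd1 hdim hbig
    have h6 : Module.finrank ℂ (Nul (jG Q ℝ) (jG Q Af) K Γ1 (hh Q e K) ρ P) = 0 := by
      have h7 : Module.finrank ℂ (Nul (jG Q ℝ) (jG Q Af) K Γ1 (hh Q e K) ρ P) < 1 := by exact_mod_cast h5
      omega
    have h7 : Nul (jG Q ℝ) (jG Q Af) K Γ1 (hh Q e K) ρ P = ⊥ := Submodule.finrank_eq_zero.1 h6
    have h8 := hinj ⟨φ', hφ'⟩ (fun k => by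
      have := hNulmem ⟨φ', hφ'⟩ hcon k
      rw [h7] at this
      exact (Submodule.mem_bot ℂ).1 this)
    exact hne (congrArg Subtype.val h8)

private theorem cls_eq (Q : Matrix (Fin N) (Fin N) ℚ) (e : Fin N → ℚ) (K : Subgroup (Gp Q Af)) (c c' : ClH Q e K)
    (γ : Gp Q ℚ) (hγ : γ ∈ Hp Q e ℚ) (h : γ ∈ tr (jG Q Af) K (hh Q e K c) (hh Q e K c')) : c = c' := by
  have h1 : (hh Q e K c')⁻¹ * (jG Q Af γ * hh Q e K c) ∈ K := h
  have h2 : (clsSetoid (jH Q e Af) (KH Q e K)).r (Quotient.out c) (Quotient.out c') := by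
    refine ⟨⟨γ, hγ⟩, (jH Q e Af ⟨γ, hγ⟩ * Quotient.out c)⁻¹ * Quotient.out c', ?_, ?_⟩
    · have h3 := K.inv_mem h1
      change ((((jH Q e Af ⟨γ, hγ⟩ * Quotient.out c)⁻¹ * Quotient.out c' : Hp Q e Af)) : Gp Q Af) ∈ K
      have h4 : ((((jH Q e Af ⟨γ, hγ⟩ * Quotient.out c)⁻¹ * Quotient.out c' : Hp Q e Af)) : Gp Q Af) =
          ((hh Q e K c')⁻¹ * (jG Q Af γ * hh Q e K c))⁻¹ := by
        have h5 : ∀ x y z : Gp Q Af, (x * y)⁻¹ * z = (z⁻¹ * (x * y))⁻¹ := by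
          intro x y z
          group
        exact h5 _ _ _
      rw [h4]
      exact h3
    · rw [mul_inv_cancel_left]
  have h3 : (Quotient.mk _ (Quotient.out c) : ClH Q e K) = Quotient.mk _ (Quotient.out c') := Quotient.sound h2
  exact (Quotient.out_eq c).symm.trans (h3.trans (Quotient.out_eq c'))

private theorem out_ve (Q : Matrix (Fin N) (Fin N) ℚ) (e : Fin N → ℚ) (K : Subgroup (Gp Q Af)) (c : ClH Q e K) :
    (hh Q e K c).1.1 *ᵥ ve e Af = ve e Af := (Quotient.out c : Hp Q e Af).2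

private theorem out_inv_ve (Q : Matrix (Fin N) (Fin N) ℚ) (e : Fin N → ℚ) (K : Subgroup (Gp Q Af)) (c : ClH Q e K) :
    ((hh Q e K c)⁻¹).1.1 *ᵥ ve e Af = ve e Af := (Hp Q e Af).inv_mem (Quotient.out c : Hp Q e Af).2

private theorem neg_ve (Q : Matrix (Fin N) (Fin N) ℚ) (e : Fin N → ℚ) (K : Subgroup (Gp Q Af)) (c c' : ClH Q e K)
    (γ : Gp Q ℚ) (hγ : γ.1.1 *ᵥ ve e ℚ = -ve e ℚ) :
    ((hh Q e K c')⁻¹ * (jG Q Af γ * hh Q e K c)).1.1 *ᵥ ve e Af = -ve e Af := by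
  change (((hh Q e K c')⁻¹).1.1 * ((jG Q Af γ).1.1 * (hh Q e K c).1.1)) *ᵥ ve e Af = -ve e Af
  rw [← Matrix.mulVec_mulVec, ← Matrix.mulVec_mulVec, out_ve, jG_ve, hγ]
  have h1 : (fun i => algebraMap ℚ Af ((-ve e ℚ) i)) = -ve e Af := by
    funext i
    rw [Pi.neg_apply, Pi.neg_apply, map_neg]
    rfl
  rw [h1, Matrix.mulVec_neg, out_inv_ve]

private theorem st_eq (Q : Matrix (Fin N) (Fin N) ℚ) (e : Fin N → ℚ) (K : Subgroup (Gp Q Af)) (c : ClH Q e K) :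
    st (Hp Q e ℚ) (jG Q Af) K (hh Q e K c) = st (⊤ : Subgroup (Hp Q e ℚ)) (jH Q e Af) (KH Q e K) (Quotient.out c) := by
  refine Nat.card_congr ⟨fun γ => ⟨⟨γ.1, γ.2.1⟩, Subgroup.mem_top _, γ.2.2⟩, fun γ => ⟨γ.1.1, γ.1.2, γ.2.2⟩,
    fun _ => rfl, fun _ => rfl⟩

private theorem caseA (hLoc : C_Loc) (hNull : C_Null) (hBF : C_BF) (hGR1 : C_GR1) (hGR2 : C_GR2) (hGR3 : C_GR3)
    (Q : Matrix (Fin N) (Fin N) ℚ) (e : Fin N → ℚ) (K : Subgroup (Gp Q Af)) (hN : 3 ≤ N) (hQ : PQ Q) (he : e ≠ 0)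
    (hKc : IsCompact (K : Set (Gp Q Af))) (hfin : Finite (ClH Q e K))
    (hA : ∀ k ∈ K, k.1.1 *ᵥ ve e Af ≠ -ve e Af) :
    ∃ C : ℝ, 0 < C ∧ ∀ (V W : Type) [NormedAddCommGroup V] [InnerProductSpace ℂ V] [FiniteDimensional ℂ V]
        [NormedAddCommGroup W] [InnerProductSpace ℂ W] [FiniteDimensional ℂ W]
        (ρ : URep (Gp Q ℝ) V) (σ : URep (Hp Q e ℝ) W) (l : V →ₗ[ℂ] W →ₗ[ℂ] ℂ), ρ.Irr → σ.Irr → l ≠ 0 →
        (∀ (x : Hp Q e ℝ) (v : V) (w : W), l (ρ.act x v) (σ.act x w) = l v w) → Concl Q e K C ρ σ := by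
  obtain ⟨C, hC, h⟩ := step hLoc hNull hBF hGR1 hGR2 hGR3 Q e K hN hQ he hKc hfin (Hp Q e ℚ)
    (fun c c' γ hγ h => cls_eq Q e K c c' γ hγ h) (fun c c' γ hγ h => ⟨hγ, fun hx => hA _ h (neg_ve Q e K c c' γ hx)⟩)
    1 (fun c => by rw [wt, st_eq, one_mul])
  refine ⟨C, hC, ?_⟩
  intro V W _ _ _ _ _ _ ρ σ l hρ hσ hl hinv
  exact h V W ρ σ l hρ hσ hl hinv (fun c a h1 γ hγ h2 => h1 γ hγ h2)

/-- The stabilizer of the line of `e`. -/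
private def Lin (Q : Matrix (Fin N) (Fin N) ℚ) (e : Fin N → ℚ) : Subgroup (Gp Q ℚ) where
  carrier := {γ | γ.1.1 *ᵥ ve e ℚ = ve e ℚ ∨ γ.1.1 *ᵥ ve e ℚ = -ve e ℚ}
  mul_mem' := by
    intro a b ha hb
    change (a.1.1 * b.1.1) *ᵥ ve e ℚ = ve e ℚ ∨ (a.1.1 * b.1.1) *ᵥ ve e ℚ = -ve e ℚ
    rw [← Matrix.mulVec_mulVec]
    rcases ha with ha | ha <;> rcases hb with hb | hb
    · left; rw [hb, ha]
    · right; rw [hb, Matrix.mulVec_neg, ha]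
    · right; rw [hb, ha]
    · left; rw [hb, Matrix.mulVec_neg, ha, neg_neg]
  one_mem' := Or.inl (Matrix.one_mulVec _)
  inv_mem' := by
    intro a ha
    have e1 : (a⁻¹).1.1 * a.1.1 = 1 := congrArg (fun z : Gp Q ℚ => z.1.1) (inv_mul_cancel a)
    change (a⁻¹).1.1 *ᵥ ve e ℚ = ve e ℚ ∨ (a⁻¹).1.1 *ᵥ ve e ℚ = -ve e ℚ
    have h1 : (a⁻¹).1.1 *ᵥ (a.1.1 *ᵥ ve e ℚ) = ve e ℚ := by rw [Matrix.mulVec_mulVec, e1, Matrix.one_mulVec]
    rcases ha with ha | ha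
    · left
      rw [ha] at h1
      exact h1
    · right
      rw [ha, Matrix.mulVec_neg] at h1
      exact neg_eq_iff_eq_neg.1 h1

private theorem Af_nontrivial : Nontrivial Af := by
  refine ⟨0, 1, fun h => ?_⟩
  let v : HeightOneSpectrum ℤ := ⟨Ideal.span {(2 : ℤ)}, (Ideal.span_singleton_prime two_ne_zero).2 Int.prime_two, by simp⟩
  have h1 : (0 : Af) v = (1 : Af) v := by rw [h]
  exact zero_ne_one (α := v.adicCompletion ℚ) h1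

private theorem zeta (Q : Matrix (Fin N) (Fin N) ℚ) (z : Gp Q Af) (hz : z.1.1 = -1) : ∃ ζ : Gp Q ℚ, ζ.1.1 = -1 := by
  have h1 : ((-1 : ℚ)) ^ N = 1 := by
    have h2 : z.1.1.det = 1 := z.1.2
    rw [hz, Matrix.det_neg, Matrix.det_one, mul_one, Fintype.card_fin] at h2
    have h3 : algebraMap ℚ Af ((-1 : ℚ) ^ N) = algebraMap ℚ Af 1 := by
      rw [map_pow, map_neg, map_one]
      exact h2
    have _ := Af_nontrivial
    exact (algebraMap ℚ Af).injective h3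
  refine ⟨⟨⟨-1, ?_⟩, ?_⟩, rfl⟩
  · rw [Matrix.det_neg, Matrix.det_one, mul_one, Fintype.card_fin]
    exact h1
  · change (-1 : Matrix (Fin N) (Fin N) ℚ)ᵀ * Q.map (algebraMap ℚ ℚ) * (-1) = _
    rw [Matrix.transpose_neg, Matrix.transpose_one]
    simp

private theorem caseB (hLoc : C_Loc) (hNull : C_Null) (hBF : C_BF) (hGR1 : C_GR1) (hGR2 : C_GR2) (hGR3 : C_GR3)
    (Q : Matrix (Fin N) (Fin N) ℚ) (e : Fin N → ℚ) (K : Subgroup (Gp Q Af)) (hN : 3 ≤ N) (hQ : PQ Q) (he : e ≠ 0)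
    (hKc : IsCompact (K : Set (Gp Q Af))) (hfin : Finite (ClH Q e K)) (z : Gp Q Af) (hzK : z ∈ K)
    (hz : z.1.1 = -1) :
    ∃ C : ℝ, 0 < C ∧ ∀ (V W : Type) [NormedAddCommGroup V] [InnerProductSpace ℂ V] [FiniteDimensional ℂ V]
        [NormedAddCommGroup W] [InnerProductSpace ℂ W] [FiniteDimensional ℂ W]
        (ρ : URep (Gp Q ℝ) V) (σ : URep (Hp Q e ℝ) W) (l : V →ₗ[ℂ] W →ₗ[ℂ] ℂ), ρ.Irr → σ.Irr → l ≠ 0 →
        (∀ (x : Hp Q e ℝ) (v : V) (w : W), l (ρ.act x v) (σ.act x w) = l v w) →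
        (∀ z : Gp Q ℝ, z.1.1 = -1 → ρ.act z = 1) → Concl Q e K C ρ σ := by
  obtain ⟨ζ, hζ⟩ := zeta Q z hz
  have hζA : jG Q Af ζ = z := by
    refine Subtype.ext (Subtype.ext ?_)
    rw [hz]
    change ζ.1.1.map (algebraMap ℚ Af) = -1
    rw [hζ]
    refine Matrix.ext fun i j => ?_
    rw [Matrix.map_apply, Matrix.neg_apply, Matrix.neg_apply, map_neg]
    congr 1
    rw [Matrix.one_apply, Matrix.one_apply]
    split_ifs
    · exact map_one _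
    · exact map_zero _
  have hζR : (jG Q ℝ ζ).1.1 = -1 := by
    change ζ.1.1.map (algebraMap ℚ ℝ) = -1
    rw [hζ]
    refine Matrix.ext fun i j => ?_
    rw [Matrix.map_apply, Matrix.neg_apply, Matrix.neg_apply, map_neg]
    congr 1
    rw [Matrix.one_apply, Matrix.one_apply]
    split_ifs
    · exact map_one _
    · exact map_zero _
  have hve : ve e ℚ ≠ -ve e ℚ := by
    intro h
    apply he
    funext i
    have h1 : (e i : ℚ) = -(e i) := congrFun h i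
    have h2 : e i = 0 := by linarith
    exact h2
  -- the multiplication by `-1`
  have hm : ∀ γ : Gp Q ℚ, ∀ g : Fin N → ℚ, (ζ * γ).1.1 *ᵥ g = -(γ.1.1 *ᵥ g) := by
    intro γ g
    change (ζ.1.1 * γ.1.1) *ᵥ g = _
    rw [hζ, neg_one_mul, Matrix.neg_mulVec]
  have hzc : ∀ g : Gp Q Af, z * g = g * z := by
    intro g
    refine Subtype.ext (Subtype.ext ?_)
    change z.1.1 * g.1.1 = g.1.1 * z.1.1
    rw [hz, neg_one_mul, mul_neg_one]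
  have htr : ∀ c c' : ClH Q e K, ∀ γ : Gp Q ℚ, γ ∈ tr (jG Q Af) K (hh Q e K c) (hh Q e K c') →
      ζ * γ ∈ tr (jG Q Af) K (hh Q e K c) (hh Q e K c') := by
    intro c c' γ hγ
    have h1 : (hh Q e K c')⁻¹ * (jG Q Af γ * hh Q e K c) ∈ K := hγ
    change (hh Q e K c')⁻¹ * (jG Q Af (ζ * γ) * hh Q e K c) ∈ K
    rw [map_mul, hζA]
    have h2 : (hh Q e K c')⁻¹ * (z * jG Q Af γ * hh Q e K c) = z * ((hh Q e K c')⁻¹ * (jG Q Af γ * hh Q e K c)) := by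
      rw [mul_assoc z, ← mul_assoc _ z, ← hzc, mul_assoc]
    rw [h2]
    exact K.mul_mem hzK h1
  have hζζ : ∀ γ : Gp Q ℚ, ζ * (ζ * γ) = γ := by
    intro γ
    refine Subtype.ext (Subtype.ext ?_)
    change ζ.1.1 * (ζ.1.1 * γ.1.1) = γ.1.1
    rw [hζ, neg_one_mul, neg_one_mul, neg_neg]
  have hmem : ∀ γ : Gp Q ℚ, γ.1.1 *ᵥ ve e ℚ = -ve e ℚ → ζ * γ ∈ Hp Q e ℚ := by
    intro γ hγ
    change (ζ * γ).1.1 *ᵥ ve e ℚ = ve e ℚ
    rw [hm, hγ, neg_neg]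
  have hmem2 : ∀ γ : Gp Q ℚ, γ ∈ Hp Q e ℚ → (ζ * γ).1.1 *ᵥ ve e ℚ = -ve e ℚ := by
    intro γ hγ
    have h1 : γ.1.1 *ᵥ ve e ℚ = ve e ℚ := hγ
    rw [hm, h1]
  have hst : ∀ c : ClH Q e K, st (Lin Q e) (jG Q Af) K (hh Q e K c) =
      2 * st (⊤ : Subgroup (Hp Q e ℚ)) (jH Q e Af) (KH Q e K) (Quotient.out c) := by
    intro c
    rw [← st_eq]
    have h1 : Nat.card (Bool × {γ : Gp Q ℚ // γ ∈ Hp Q e ℚ ∧ γ ∈ tr (jG Q Af) K (hh Q e K c) (hh Q e K c)}) =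
        2 * st (Hp Q e ℚ) (jG Q Af) K (hh Q e K c) := by
      rw [Nat.card_prod, Nat.card_eq_fintype_card, Fintype.card_bool]
      rfl
    rw [← h1]
    symm
    refine Nat.card_congr (Equiv.ofBijective (fun p => ⟨if p.1 then ζ * p.2.1 else p.2.1, ?_⟩) ⟨?_, ?_⟩)
    · by_cases hp : p.1 = true
      · rw [if_pos hp]
        exact ⟨Or.inr (hmem2 _ p.2.2.1), htr c c _ p.2.2.2⟩
      · rw [if_neg hp]
        exact ⟨Or.inl p.2.2.1, p.2.2.2⟩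
    · rintro ⟨b, γ, hγ1, hγ2⟩ ⟨b', γ', hγ1', hγ2'⟩ h
      have h2 : (if b then ζ * γ else γ) = (if b' then ζ * γ' else γ') := congrArg Subtype.val h
      have hγe : γ.1.1 *ᵥ ve e ℚ = ve e ℚ := hγ1
      have hγe' : γ'.1.1 *ᵥ ve e ℚ = ve e ℚ := hγ1'
      have h3 := congrArg (fun x : Gp Q ℚ => x.1.1 *ᵥ ve e ℚ) h2
      cases b <;> cases b'
      · have h4 : γ = γ' := h2
        subst h4
        rfl
      · have h4 : γ.1.1 *ᵥ ve e ℚ = (ζ * γ').1.1 *ᵥ ve e ℚ := h3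
        rw [hγe, hmem2 γ' hγ1'] at h4
        exact absurd h4 hve
      · have h4 : (ζ * γ).1.1 *ᵥ ve e ℚ = γ'.1.1 *ᵥ ve e ℚ := h3
        rw [hγe', hmem2 γ hγ1] at h4
        exact absurd h4.symm hve
      · have h4 : ζ * γ = ζ * γ' := h2
        have h5 : γ = γ' := mul_left_cancel h4
        subst h5
        rfl
    · rintro ⟨γ, hγ1, hγ2⟩
      rcases hγ1 with hγ1 | hγ1
      · exact ⟨⟨false, γ, hγ1, hγ2⟩, rfl⟩
      · refine ⟨⟨true, ζ * γ, hmem γ hγ1, htr c c γ hγ2⟩, Subtype.ext ?_⟩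
        exact hζζ γ
  obtain ⟨C, hC, h⟩ := step hLoc hNull hBF hGR1 hGR2 hGR3 Q e K hN hQ he hKc hfin (Lin Q e)
    (fun c c' γ hγ h => by
      rcases hγ with hγ | hγ
      · exact cls_eq Q e K c c' γ hγ h
      · exact cls_eq Q e K c c' (ζ * γ) (hmem γ hγ) (htr c c' γ h))
    (fun c c' γ hγ h => ⟨fun hx => hγ (Or.inl hx), fun hx => hγ (Or.inr hx)⟩)
    2⁻¹ (fun c => by
      rw [wt, hst]
      push_cast
      rw [mul_inv])
  refine ⟨C, hC, ?_⟩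
  intro V W _ _ _ _ _ _ ρ σ l hρ hσ hl hinv hρz
  refine h V W ρ σ l hρ hσ hl hinv (fun c a h1 γ hγ h2 => ?_)
  rcases hγ with hγ | hγ
  · exact h1 γ hγ h2
  · have h3 := h1 (ζ * γ) (hmem γ hγ) (htr c c γ h2)
    rw [map_mul, map_mul, hρz _ hζR, one_mul] at h3
    exact h3

/-- **Assembly.** -/
theorem tGP : C_Loc → C_Null → C_BF → C_GR1 → C_GR2 → C_GR3 → C_CN4 → C_GP := by
  intro hLoc hNull hBF hGR1 hGR2 hGR3 hCN N Q e K hN hQ he hKo hKc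
  have hfin : Finite (ClH Q e K) := hCN N Q e K hQ hKo
  refine ⟨hfin, ?_⟩
  by_cases hA : ∀ k ∈ K, k.1.1 *ᵥ ve e Af ≠ -ve e Af
  · obtain ⟨C, hC, h⟩ := caseA hLoc hNull hBF hGR1 hGR2 hGR3 Q e K hN hQ he hKc hfin hA
    refine ⟨C, hC, ?_⟩
    intro V W _ _ _ _ _ _ ρ σ l hρ hσ hl hinv _
    exact h V W ρ σ l hρ hσ hl hinv
  · by_cases hz : ∃ k ∈ K, k.1.1 = -1
    · obtain ⟨z, hzK, hz1⟩ := hz
      obtain ⟨C, hC, h⟩ := caseB hLoc hNull hBF hGR1 hGR2 hGR3 Q e K hN hQ he hKc hfin z hzK hz1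
      refine ⟨C, hC, ?_⟩
      intro V W _ _ _ _ _ _ ρ σ l hρ hσ hl hinv hor
      rcases hor with hor | hor
      · exact absurd hor hA
      · exact h V W ρ σ l hρ hσ hl hinv hor.2
    · refine ⟨1, one_pos, ?_⟩
      intro V W _ _ _ _ _ _ ρ σ l hρ hσ hl hinv hor
      rcases hor with hor | hor
      · exact absurd hor hA
      · exact absurd hor.1 hz

end Pool.Agent.GP
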