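import Pool.Agent.Lib.GP.Spec4

/-!
# Theorem GPO: assembly (author helper25)
-/

set_option autoImplicit false

open IsDedekindDomain Matrix MeasureTheory

noncomputable section

namespace Pool.Agent.GP

variable {N : ℕ}

/-- The representative of a class, as an element of `G(Af)`. -/
private def zz (Q : Matrix (Fin N) (Fin N) ℚ) (e : Fin N → ℚ) (K : Subgroup (Gp Q Af)) (c : ClH Q e K) : Gp Q Af :=
  (Quotient.out c : Hp Q e Af).1

private theorem m_prob (Q : Matrix (Fin N) (Fin N) ℚ) (e : Fin N → ℚ) [CompactSpace (Hp Q e ℝ)] :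
    @IsProbabilityMeasure (Hp Q e ℝ) (borel _) (muH Q e) := by
  let _ : MeasurableSpace (Hp Q e ℝ) := borel _
  have _ : BorelSpace (Hp Q e ℝ) := ⟨rfl⟩
  refine ⟨?_⟩
  change ((Measure.haar (Set.univ : Set (Hp Q e ℝ)))⁻¹) * (Measure.haar (Set.univ : Set (Hp Q e ℝ))) = 1
  exact ENNReal.inv_mul_cancel (isOpen_univ.measure_ne_zero _ Set.univ_nonempty) (isCompact_univ.measure_ne_top)

private theorem m_left (Q : Matrix (Fin N) (Fin N) ℚ) (e : Fin N → ℚ) :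
    @Measure.IsMulLeftInvariant (Hp Q e ℝ) (borel _) _ (muH Q e) := by
  let _ : MeasurableSpace (Hp Q e ℝ) := borel _
  have _ : BorelSpace (Hp Q e ℝ) := ⟨rfl⟩
  change Measure.IsMulLeftInvariant (((Measure.haar (Set.univ : Set (Hp Q e ℝ)))⁻¹) • (Measure.haar : Measure (Hp Q e ℝ)))
  infer_instance

private theorem m_pos (Q : Matrix (Fin N) (Fin N) ℚ) (e : Fin N → ℚ) [CompactSpace (Hp Q e ℝ)] :
    @Measure.IsOpenPosMeasure (Hp Q e ℝ) _ (borel _) (muH Q e) := by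
  let _ : MeasurableSpace (Hp Q e ℝ) := borel _
  have _ : BorelSpace (Hp Q e ℝ) := ⟨rfl⟩
  change Measure.IsOpenPosMeasure (((Measure.haar (Set.univ : Set (Hp Q e ℝ)))⁻¹) • (Measure.haar : Measure (Hp Q e ℝ)))
  refine ⟨fun U hU hne h0 => ?_⟩
  have h1 : ((Measure.haar (Set.univ : Set (Hp Q e ℝ)))⁻¹) * (Measure.haar U) = 0 := h0
  rcases mul_eq_zero.1 h1 with h | h
  · exact isCompact_univ.measure_ne_top (ENNReal.inv_eq_zero.1 h)
  · exact hU.measure_ne_zero _ hne h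

private theorem c_eq (Q : Matrix (Fin N) (Fin N) ℚ) (e : Fin N → ℚ) (K : Subgroup (Gp Q Af)) (c c' : ClH Q e K)
    (γ : Gp Q ℚ) (hγ : γ ∈ Hp Q e ℚ) (h : γ ∈ tr (jG Q Af) K (zz Q e K c) (zz Q e K c')) : c = c' := by
  have h1 : (zz Q e K c')⁻¹ * (jG Q Af γ * zz Q e K c) ∈ K := h
  have h2 : (clsSetoid (jH Q e Af) (KH Q e K)).r (Quotient.out c) (Quotient.out c') := by
    refine ⟨⟨γ, hγ⟩, (jH Q e Af ⟨γ, hγ⟩ * Quotient.out c)⁻¹ * Quotient.out c', ?_, ?_⟩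
    · have h3 := K.inv_mem h1
      change ((((jH Q e Af ⟨γ, hγ⟩ * Quotient.out c)⁻¹ * Quotient.out c' : Hp Q e Af)) : Gp Q Af) ∈ K
      have h4 : ((((jH Q e Af ⟨γ, hγ⟩ * Quotient.out c)⁻¹ * Quotient.out c' : Hp Q e Af)) : Gp Q Af) =
          ((zz Q e K c')⁻¹ * (jG Q Af γ * zz Q e K c))⁻¹ := by
        have h5 : ∀ x y z : Gp Q Af, (x * y)⁻¹ * z = (z⁻¹ * (x * y))⁻¹ := by
          intro x y z
          group
        exact h5 _ _ _
      rw [h4]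
      exact h3
    · rw [mul_inv_cancel_left]
  have h3 : (Quotient.mk _ (Quotient.out c) : ClH Q e K) = Quotient.mk _ (Quotient.out c') := Quotient.sound h2
  exact (Quotient.out_eq c).symm.trans (h3.trans (Quotient.out_eq c'))

/-- Every element of `H(Af)` is `γ z κ`. -/
private theorem c_cov (Q : Matrix (Fin N) (Fin N) ℚ) (e : Fin N → ℚ) (K : Subgroup (Gp Q Af)) (h : Gp Q Af)
    (hh : h ∈ Hp Q e Af) : ∃ c : ClH Q e K, ∃ γ ∈ Hp Q e ℚ, ∃ κ ∈ K, κ ∈ Hp Q e Af ∧ h = jG Q Af γ * zz Q e K c * κ := by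
  have h6 : (clsSetoid (jH Q e Af) (KH Q e K)).r (Quotient.out (Quotient.mk _ ⟨h, hh⟩ : ClH Q e K)) ⟨h, hh⟩ :=
    Quotient.exact (Quotient.out_eq (Quotient.mk _ ⟨h, hh⟩ : ClH Q e K))
  obtain ⟨γ, k, hk, hgk⟩ := h6
  exact ⟨Quotient.mk _ ⟨h, hh⟩, γ.1, γ.2, k.1, hk, k.2, congrArg Subtype.val hgk⟩

private theorem all0 (Q : Matrix (Fin N) (Fin N) ℚ) (R : Type) [CommRing R] [Algebra ℚ R] (g : Gp Q R) :
    g ∈ Hp Q (0 : Fin N → ℚ) R := by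
  change g.1.1 *ᵥ ve 0 R = ve 0 R
  have h : ve (0 : Fin N → ℚ) R = 0 := by
    funext i
    exact map_zero _
  rw [h, Matrix.mulVec_zero]

private theorem det_ne (Q : Matrix (Fin N) (Fin N) ℚ) (hQ : PQ Q) : Q.det ≠ 0 := by
  intro h0
  obtain ⟨v, hv, hQv⟩ := Matrix.exists_mulVec_eq_zero_iff.2 h0
  have h1 : (fun i => (v i : ℝ)) ≠ 0 := by
    intro h2
    apply hv
    funext i
    have h3 := congrFun h2 i
    have h4 : (v i : ℝ) = 0 := h3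
    exact_mod_cast h4
  have h2 := hQ.2 _ h1
  have h3 : Q.map (algebraMap ℚ ℝ) *ᵥ (fun i => (v i : ℝ)) = 0 := by
    funext i
    have h4 := congrFun hQv i
    have h5 : ∑ j, Q i j * v j = 0 := h4
    change ∑ j, ((Q i j : ℚ) : ℝ) * ((v j : ℚ) : ℝ) = 0
    exact_mod_cast h5
  rw [h3, dotProduct_zero] at h2
  exact lt_irrefl _ h2

private theorem st_pos {Γ Gf : Type} [Group Γ] [Group Gf] (Γ1 : Subgroup Γ) (jf : Γ →* Gf) (K : Subgroup Gf) (g : Gf)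
    (hfin : (tr jf K g g).Finite) : 0 < st Γ1 jf K g := by
  have h1 : Finite {γ : Γ // γ ∈ Γ1 ∧ γ ∈ tr jf K g g} := (hfin.subset fun γ hγ => hγ.2 : Set.Finite {γ | γ ∈ Γ1 ∧ γ ∈ tr jf K g g}).to_subtype
  have h2 : Nonempty {γ : Γ // γ ∈ Γ1 ∧ γ ∈ tr jf K g g} := by
    refine ⟨⟨1, Γ1.one_mem, ?_⟩⟩
    change g⁻¹ * (jf 1 * g) ∈ K
    rw [map_one, one_mul, inv_mul_cancel]
    exact K.one_mem
  exact Nat.card_pos

private theorem eig_abs (hHk1 : C_Hk1) (hHkS : C_HkS) (hEig : C_Eig) {Γ G Gf V P ιG ιH : Type} [Group Γ] [Group G]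
    [TopologicalSpace G] [Group Gf] [NormedAddCommGroup V] [InnerProductSpace ℂ V] [FiniteDimensional ℂ V]
    [Fintype ιG] [Fintype ιH] (ja : Γ →* G) (jf : Γ →* Gf) (K : Subgroup Gf) (ρ : URep G V)
    (hfin : ∀ g g' : Gf, (tr jf K g g').Finite) (z : ιG → Gf) (hz1 : ∀ g, ∃ i, ∃ γ, ∃ k ∈ K, g = jf γ * z i * k)
    (hz2 : ∀ i j γ, γ ∈ tr jf K (z i) (z j) → i = j) (S : P → Set Gf) (hS1 : ∀ p, (cs K (S p)).Finite)
    (hS2 : ∀ p, KS K (S p)) (hS3 : ∀ p, ∀ y ∈ S p, y⁻¹ ∈ S p)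
    (hS4 : ∀ p q, p ≠ q → ∀ y ∈ S p, ∀ y' ∈ S q, y * y' = y' * y) (zH : ιH → Gf) (w : ιH → ℝ) (F : ιH → V)
    (PP : Finset P)
    (hind : ∀ α : P → ℂ, (∀ f ∈ MV ja jf K ρ,
      ∑ i, (w i : ℂ) * inner ℂ (∑ p ∈ PP, α p • Hk K (cs K (S p)) f (zH i)) (F i) = 0) → ∀ p ∈ PP, α p = 0) :
    ∃ (f : Fin PP.card → Gf → V) (lam : Fin PP.card → P → ℝ), (∀ j, f j ∈ MV ja jf K ρ) ∧
      (∀ j p g, Hk K (cs K (S p)) (f j) g = (lam j p : ℂ) • f j g) ∧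
      (∀ j, ∑ i, (w i : ℂ) * inner ℂ (f j (zH i)) (F i) ≠ 0) ∧ ∀ i j, i ≠ j → lam i ≠ lam j := by
  have hinv : ∀ f ∈ MV ja jf K ρ, ∀ g, ∀ k ∈ K, f (g * k) = f g := by
    intro f hf g k hk
    have := hf 1 g k hk
    rw [map_one, one_mul, map_one, map_one] at this
    exact this
  -- finite dimension
  let ev0 : MV ja jf K ρ →ₗ[ℂ] (ιG → V) :=
    { toFun := fun f i => f.1 (z i), map_add' := fun _ _ => rfl, map_smul' := fun _ _ => rfl }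
  have hev : ∀ f : MV ja jf K ρ, (∀ i, f.1 (z i) = 0) → f = 0 := by
    intro f h0
    refine Subtype.ext (funext fun g => ?_)
    obtain ⟨i, γ, k, hk, hg⟩ := hz1 g
    rw [hg, f.2 γ (z i) k hk, h0 i, map_zero]
    rfl
  have hfd : FiniteDimensional ℂ (MV ja jf K ρ) := by
    refine Module.Finite.of_injective ev0 ?_
    rw [injective_iff_map_eq_zero]
    intro f h0
    exact hev f fun i => congrFun h0 i
  have hst : ∀ i, 0 < st (⊤ : Subgroup Γ) jf K (z i) := fun i => st_pos _ _ _ _ (hfin _ _)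
  let u : ιG → ℝ := fun i => ((st (⊤ : Subgroup Γ) jf K (z i) : ℕ) : ℝ)⁻¹
  have hu : ∀ i, 0 < u i := fun i => inv_pos.2 (by exact_mod_cast hst i)
  let B : MV ja jf K ρ →ₗ⋆[ℂ] MV ja jf K ρ →ₗ[ℂ] ℂ :=
    LinearMap.mk₂'ₛₗ (starRingEnd ℂ) (RingHom.id ℂ) (fun f f' => ∑ i, (u i : ℂ) * inner ℂ (f.1 (z i)) (f'.1 (z i)))
      (fun f f' g => by
        rw [← Finset.sum_add_distrib]
        refine Finset.sum_congr rfl fun i _ => ?_
        change (u i : ℂ) * inner ℂ (f.1 (z i) + f'.1 (z i)) (g.1 (z i)) = _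
        rw [inner_add_left, mul_add])
      (fun c f g => by
        rw [smul_eq_mul, Finset.mul_sum]
        refine Finset.sum_congr rfl fun i _ => ?_
        change (u i : ℂ) * inner ℂ (c • f.1 (z i)) (g.1 (z i)) = _
        rw [inner_smul_left]
        ring)
      (fun f g g' => by
        rw [← Finset.sum_add_distrib]
        refine Finset.sum_congr rfl fun i _ => ?_
        change (u i : ℂ) * inner ℂ (f.1 (z i)) (g.1 (z i) + g'.1 (z i)) = _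
        rw [inner_add_right, mul_add])
      (fun c f g => by
        rw [RingHom.id_apply, smul_eq_mul, Finset.mul_sum]
        refine Finset.sum_congr rfl fun i _ => ?_
        change (u i : ℂ) * inner ℂ (f.1 (z i)) (c • g.1 (z i)) = _
        rw [inner_smul_right]
        ring)
  have hB : ∀ f f', B f f' = ∑ i, (u i : ℂ) * inner ℂ (f.1 (z i)) (f'.1 (z i)) := fun _ _ => rfl
  let T : P → Module.End ℂ (MV ja jf K ρ) := fun p =>
    { toFun := fun f => ⟨Hk K (cs K (S p)) f.1, (hHk1 Gf K).2 Γ G V ja jf ρ (S p) (hS1 p) (hS2 p) f.1 f.2⟩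
      map_add' := fun f f' => Subtype.ext
        (((hHk1 Gf K).1 V (S p) f.1 (hS1 p) (hS2 p) (hinv f.1 f.2)).2.2.1 f'.1 1).1
      map_smul' := fun c f => Subtype.ext
        (((hHk1 Gf K).1 V (S p) f.1 (hS1 p) (hS2 p) (hinv f.1 f.2)).2.2.1 f.1 c).2 }
  have hT : ∀ p (f : MV ja jf K ρ), (T p f).1 = Hk K (cs K (S p)) f.1 := fun _ _ => rfl
  let L : MV ja jf K ρ →ₗ⋆[ℂ] ℂ :=
    { toFun := fun f => ∑ i, (w i : ℂ) * inner ℂ (f.1 (zH i)) (F i)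
      map_add' := fun f f' => by
        rw [← Finset.sum_add_distrib]
        refine Finset.sum_congr rfl fun i _ => ?_
        change (w i : ℂ) * inner ℂ (f.1 (zH i) + f'.1 (zH i)) (F i) = _
        rw [inner_add_left, mul_add]
      map_smul' := fun c f => by
        rw [smul_eq_mul, Finset.mul_sum]
        refine Finset.sum_congr rfl fun i _ => ?_
        change (w i : ℂ) * inner ℂ (c • f.1 (zH i)) (F i) = _
        rw [inner_smul_left]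
        ring }
  have hL : ∀ f, L f = ∑ i, (w i : ℂ) * inner ℂ (f.1 (zH i)) (F i) := fun _ => rfl
  obtain ⟨x, lam, hx1, hx2, hx3⟩ := hEig (MV ja jf K ρ) P B T L PP
    (fun f f' => by
      rw [hB, hB, map_sum]
      refine Finset.sum_congr rfl fun i _ => ?_
      rw [map_mul, Complex.conj_ofReal, inner_conj_symm])
    (fun f hf => by
      rw [hB, Complex.re_sum]
      have h1 : ∃ i, f.1 (z i) ≠ 0 := by
        by_contra hcon
        push Not at hcon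
        exact hf (hev f hcon)
      obtain ⟨i0, hi0⟩ := h1
      have h2 : ∀ i, ((u i : ℂ) * inner ℂ (f.1 (z i)) (f.1 (z i))).re = u i * ‖f.1 (z i)‖ ^ 2 := by
        intro i
        rw [inner_self_eq_norm_sq_to_K, Complex.re_ofReal_mul]
        norm_cast
      refine Finset.sum_pos' (fun i _ => ?_) ⟨i0, Finset.mem_univ _, ?_⟩
      · rw [h2]
        exact mul_nonneg (hu i).le (sq_nonneg _)
      · rw [h2]
        exact mul_pos (hu i0) (pow_pos (norm_pos_iff.2 hi0) 2))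
    (fun p f f' => by
      rw [hB, hB, hT, hT]
      have h1 := hHkS Γ G Gf V ιG ja jf K ρ z (S p) hfin hz1 hz2 (hS1 p) (hS2 p) (hS3 p) f.1 f.2 f'.1 f'.2
      have h2 : ∀ i, (u i : ℂ) = ((st (⊤ : Subgroup Γ) jf K (z i) : ℕ) : ℂ)⁻¹ := by
        intro i
        change ((((st (⊤ : Subgroup Γ) jf K (z i) : ℕ) : ℝ)⁻¹ : ℝ) : ℂ) = _
        push_cast
        rfl
      simp only [h2]
      exact h1)
    (fun p q => by
      by_cases hpq : p = q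
      · rw [hpq]
      · refine LinearMap.ext fun f => Subtype.ext ?_
        change Hk K (cs K (S p)) (Hk K (cs K (S q)) f.1) = Hk K (cs K (S q)) (Hk K (cs K (S p)) f.1)
        exact ((hHk1 Gf K).1 V (S p) f.1 (hS1 p) (hS2 p) (hinv f.1 f.2)).2.1 (S q) (hS1 q) (hS2 q) (hS4 p q hpq))
    (fun α hα => by
      refine hind α fun f hf => ?_
      have h1 := hα ⟨f, hf⟩
      rw [hL] at h1
      have h2 : ∀ i, (∑ p ∈ PP, α p • T p ⟨f, hf⟩).1 (zH i) = ∑ p ∈ PP, α p • Hk K (cs K (S p)) f (zH i) := by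
        intro i
        rw [Submodule.coe_sum, Finset.sum_apply]
        rfl
      simp only [h2] at h1
      exact h1)
  refine ⟨fun j => (x j).1, lam, fun j => (x j).2, fun j p g => ?_, fun j => ?_, hx3⟩
  · have h1 := congrArg (fun f : MV ja jf K ρ => f.1 g) (hx1 j p)
    exact h1
  · have h1 := hx2 j
    rw [hL] at h1
    exact h1

/-- Primes above `p0`. -/
private abbrev PrT (p0 : ℕ) : Type := {p : Nat.Primes // p0 < (p : ℕ)}

/-- The primes above `p0` which are at most `X`. -/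
private theorem PX_fin (p0 X : ℕ) : {p : PrT p0 | ((p.1 : Nat.Primes) : ℕ) ≤ X}.Finite := by
  have h1 : Set.Finite (Set.Iic X) := Set.finite_Iic X
  have h2 : Function.Injective (fun p : PrT p0 => ((p.1 : Nat.Primes) : ℕ)) := by
    intro p q h
    exact Subtype.ext (Subtype.ext h)
  exact Set.Finite.preimage (h2.injOn) h1

private def PX (p0 X : ℕ) : Finset (PrT p0) := (PX_fin p0 X).toFinset

private theorem PX_mem {p0 X : ℕ} (p : PrT p0) : p ∈ PX p0 X ↔ ((p.1 : Nat.Primes) : ℕ) ≤ X := by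
  rw [PX, Set.Finite.mem_toFinset]
  rfl

private theorem PX_card (p0 X : ℕ) : (PX p0 X).card ≤ X ∧
    ((Finset.range (X + 1)).filter fun p => p.Prime ∧ p0 < p).card ≤ (PX p0 X).card := by
  have h2 : Function.Injective (fun p : PrT p0 => ((p.1 : Nat.Primes) : ℕ)) := by
    intro p q h
    exact Subtype.ext (Subtype.ext h)
  constructor
  · have h3 : (PX p0 X).image (fun p : PrT p0 => ((p.1 : Nat.Primes) : ℕ)) ⊆ Finset.Icc 1 X := by
      intro x hx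
      rw [Finset.mem_image] at hx
      obtain ⟨p, hp, rfl⟩ := hx
      rw [Finset.mem_Icc]
      exact ⟨p.1.2.one_lt.le, (PX_mem p).1 hp⟩
    have h4 := Finset.card_le_card h3
    rw [Finset.card_image_of_injective _ h2, Nat.card_Icc] at h4
    simpa using h4
  · have h3 : ((Finset.range (X + 1)).filter fun p => p.Prime ∧ p0 < p) ⊆
        (PX p0 X).image (fun p : PrT p0 => ((p.1 : Nat.Primes) : ℕ)) := by
      intro x hx
      rw [Finset.mem_filter, Finset.mem_range] at hx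
      rw [Finset.mem_image]
      exact ⟨⟨⟨x, hx.2.1⟩, hx.2.2⟩, (PX_mem _).2 (by change x ≤ X; omega), rfl⟩
    exact (Finset.card_le_card h3).trans Finset.card_image_le

/-- The Petersson product of two forms on `H`. -/
def Pet (Q : Matrix (Fin N) (Fin N) ℚ) (e : Fin N → ℚ) (K : Subgroup (Gp Q Af)) (φ φ' : Hp Q e ℝ → Hp Q e Af → ℂ) : ℂ :=
  ∑ᶠ c : ClH Q e K, ((st (⊤ : Subgroup (Hp Q e ℚ)) (jH Q e Af) (KH Q e K) (Quotient.out c) : ℂ))⁻¹ *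
    @integral (Hp Q e ℝ) ℂ _ _ (borel _) (muH Q e)
      (fun x => (starRingEnd ℂ) (φ x (Quotient.out c)) * φ' x (Quotient.out c))

/-- There are `r` Hecke eigenforms with non-zero period with `φ'`. -/
def Prt {V : Type} [NormedAddCommGroup V] [InnerProductSpace ℂ V] (Q : Matrix (Fin N) (Fin N) ℚ) (e : Fin N → ℚ)
    (K : Subgroup (Gp Q Af)) (p0 : ℕ) (ρ : URep (Gp Q ℝ) V) (φ' : Hp Q e ℝ → Hp Q e Af → ℂ) (r : ℕ) : Prop :=
  ∃ (φ : Fin r → Gp Q ℝ → Gp Q Af → ℂ) (lam : Fin r → Nat.Primes → ℝ),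
      (∀ j, φ j ∈ AG Q K ρ) ∧ (∀ j, ∀ p : Nat.Primes, p0 < (p : ℕ) → Tp Q K p (φ j) = (lam j p : ℂ) • φ j) ∧
      (∀ i j, i ≠ j → ∃ p : Nat.Primes, p0 < (p : ℕ) ∧ lam i p ≠ lam j p) ∧ ∀ j, Per Q e K (φ j) φ' ≠ 0

private theorem st_eq (Q : Matrix (Fin N) (Fin N) ℚ) (e : Fin N → ℚ) (K : Subgroup (Gp Q Af)) (c : ClH Q e K) :
    st (Hp Q e ℚ) (jG Q Af) K (zz Q e K c) = st (⊤ : Subgroup (Hp Q e ℚ)) (jH Q e Af) (KH Q e K) (Quotient.out c) := by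
  unfold st
  refine Nat.card_congr
    { toFun := fun γ => ⟨⟨γ.1, γ.2.1⟩, Subgroup.mem_top _, γ.2.2⟩
      invFun := fun γ => ⟨γ.1.1, γ.1.2, γ.2.2⟩
      left_inv := fun γ => rfl
      right_inv := fun γ => rfl }

private theorem G_cont {H W : Type} [Group H] [TopologicalSpace H] [NormedAddCommGroup W]
    [InnerProductSpace ℂ W] (σ : URep H W) {F : H → ℂ} (hF : F ∈ coef σ) : Continuous F := by
  unfold coef at hF
  induction hF using Submodule.span_induction with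
  | mem x hx =>
    obtain ⟨u, v, rfl⟩ := hx
    exact continuous_const.inner (σ.cont v)
  | zero => exact continuous_const
  | add x y _ _ hx hy => exact hx.add hy
  | smul c x _ hx => exact continuous_const.mul hx

/-- A continuous function orthogonal to itself vanishes. -/
private theorem G_van {H : Type} [TopologicalSpace H] [CompactSpace H] [MeasurableSpace H]
    [BorelSpace H] (μ : Measure H) [IsProbabilityMeasure μ] [μ.IsOpenPosMeasure] {F : H → ℂ}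
    (hF : Continuous F) (h0 : ∫ x, (starRingEnd ℂ) (F x) * F x ∂μ = 0) (x : H) : F x = 0 := by
  by_contra hx
  have h1 : Continuous fun x => ‖F x‖ ^ 2 := hF.norm.pow 2
  have h2 := h1.integral_pos_of_hasCompactSupport_nonneg_nonzero (μ := μ) (x := x)
    (HasCompactSupport.of_compactSpace _) (fun x => by positivity) (by positivity)
  have h3 : ∫ x, (starRingEnd ℂ) (F x) * F x ∂μ = ((∫ x, ‖F x‖ ^ 2 ∂μ : ℝ) : ℂ) := by
    rw [← integral_complex_ofReal]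
    refine integral_congr_ae (Filter.Eventually.of_forall fun x => ?_)
    change (starRingEnd ℂ) (F x) * F x = ((‖F x‖ ^ 2 : ℝ) : ℂ)
    rw [Complex.conj_mul']
    push_cast
    rfl
  rw [h0] at h3
  have h4 : ∫ x, ‖F x‖ ^ 2 ∂μ = 0 := by exact_mod_cast h3.symm
  exact h2.ne' h4

/-- The core: an orthogonal system without partners, for a given `X`. -/
private theorem core3 (hHk1 : C_Hk1) (hHkS : C_HkS) (hEig : C_Eig) (hBF3 : C_BF3) (hLT3 : C_LT3) (hOS : C_OS)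
    (Q : Matrix (Fin N) (Fin N) ℚ) (e : Fin N → ℚ) (K : Subgroup (Gp Q Af))
    (cH : CompactSpace (Hp Q e ℝ)) (hfin : ∀ g g' : Gp Q Af, (tr (jG Q Af) K g g').Finite)
    (hfH : Finite (ClH Q e K)) (hfG : Finite (ClH Q (0 : Fin N → ℚ) K)) (p0 X n1 n2 : ℕ) (β : ℝ)
    (hS1 : ∀ p : PrT p0, (Cp Q K p.1).Finite) (hS2 : ∀ p : PrT p0, KS K (Nb Q p.1))
    (hS3 : ∀ p : PrT p0, ∀ y ∈ Nb Q p.1, y⁻¹ ∈ Nb Q p.1)
    (hS4 : ∀ p q : PrT p0, p ≠ q → ∀ y ∈ Nb Q p.1, ∀ z ∈ Nb Q q.1, y * z = z * y)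
    (hS5 : ∀ p : PrT p0, ∃ y ∈ Nb Q p.1, y ∈ Dp Q e p.1)
    (hA1 : ∀ p : PrT p0, ∀ h ∈ Hp Q e Af, ∀ g, ∀ k ∈ K, h * g * k ∈ Dp Q e p.1 ↔ g ∈ Dp Q e p.1)
    (hA2 : ∀ p q : PrT p0, p ≠ q → ∀ y ∈ Nb Q q.1, y ∉ Dp Q e p.1)
    (hA3 : ∀ p : PrT p0, ∀ y ∈ Nb Q p.1, ∀ y' ∈ Nb Q p.1, y ∈ Dp Q e p.1 → ∀ h ∈ Hp Q e Af, ∀ k ∈ K,
      h * y = y' * k → h ∈ K)
    (hcard : ∑ p : {p // p ∈ PX p0 X}, (Cp Q K p.1.1).ncard ≤ n2)
    {V W : Type} [NormedAddCommGroup V] [InnerProductSpace ℂ V] [FiniteDimensional ℂ V]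
    [NormedAddCommGroup W] [InnerProductSpace ℂ W] [FiniteDimensional ℂ W]
    (ρ : URep (Gp Q ℝ) V) (σ : URep (Hp Q e ℝ) W) (l : V →ₗ[ℂ] W →ₗ[ℂ] ℂ) (hσ : σ.Irr) (hl : l ≠ 0)
    (hinv : ∀ (x : Hp Q e ℝ) (v : V) (w : W), l (ρ.act x v) (σ.act x w) = l v w) (Γ1 : Subgroup (Gp Q ℚ))
    (g0 : Hp Q e ℚ ≤ Γ1)
    (g1 : ∀ γ ∈ Γ1, ∃ γ0 ∈ Hp Q e ℚ, (∀ v, ρ.act (jG Q ℝ γ) v = ρ.act (jG Q ℝ γ0) v) ∧
      ∀ g, (jG Q Af γ0 * g)⁻¹ * (jG Q Af γ * g) ∈ K)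
    (hn1 : ∀ p p' : PrT p0, p ∈ PX p0 X → p' ∈ PX p0 X → ∀ y ∈ Nb Q p.1, ∀ y' ∈ Nb Q p'.1, ∀ c c' : ClH Q e K,
      (tr (jG Q Af) K (zz Q e K c * y) (zz Q e K c' * y')).ncard ≤ n1)
    (hPh : ∀ P : V →ₗ[ℂ] V, Prj P → (∀ x ∈ Hp Q e ℝ, ∀ v, P (ρ.act x v) = ρ.act x (P v)) →
      rk P = Module.finrank ℂ W → ∀ p p' : PrT p0, p ∈ PX p0 X → p' ∈ PX p0 X → ∀ y ∈ Nb Q p.1, ∀ y' ∈ Nb Q p'.1,
      ∀ c c' : ClH Q e K, ∀ γ ∈ tr (jG Q Af) K (zz Q e K c * y) (zz Q e K c' * y'), γ ∉ Γ1 →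
        Ph ρ P (jG Q ℝ γ) ≤ β)
    (s : ℕ) (ψ : Fin s → Hp Q e ℝ → Hp Q e Af → ℂ) (hψ : ∀ j, ψ j ∈ AH Q e K σ) (hψ0 : ∀ j, ψ j ≠ 0)
    (hort : ∀ i j, i ≠ j → Pet Q e K (ψ i) (ψ j) = 0) (hbad : ∀ j, ¬ Prt Q e K p0 ρ (ψ j) (PX p0 X).card) :
    ∃ M : ℕ, M ≤ (Nat.card (ClH Q e K) * n2) ^ 2 * n1 ∧ (s : ℝ) ≤ (M : ℝ) ^ 2 * (Module.finrank ℂ W * β) ∧
      (0 < s → 1 ≤ (M : ℝ) ^ 2 * β) := by
  classical
  let _ : MeasurableSpace (Hp Q e ℝ) := borel _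
  have _ : BorelSpace (Hp Q e ℝ) := ⟨rfl⟩
  have _ := m_prob Q e
  have _ := m_left Q e
  have _ := m_pos Q e
  let _ : Fintype (ClH Q e K) := Fintype.ofFinite _
  let _ : Fintype (ClH Q (0 : Fin N → ℚ) K) := Fintype.ofFinite _
  obtain ⟨P, a, hP, hPc, hrk, hFF⟩ := hBF3 (Gp Q ℚ) (Gp Q ℝ) (Gp Q Af) V W (jG Q ℝ) (Hp Q e ℚ) (Hp Q e ℝ)
    (Hp Q e Af) (jH Q e ℝ) (jH Q e Af) (KH Q e K) (muH Q e) ρ σ l (fun _ => rfl) hσ hl hinv
  let F : Fin s → Fin (Module.finrank ℂ W) → Gp Q Af → V :=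
    fun j k g => if h : g ∈ Hp Q e Af then FF (muH Q e) ρ (ψ j) (a k) ⟨g, h⟩ else 0
  have hFv : ∀ j k g (h : g ∈ Hp Q e Af), F j k g = FF (muH Q e) ρ (ψ j) (a k) ⟨g, h⟩ := fun j k g h => dif_pos h
  have hjH : ∀ γ ∈ Hp Q e ℚ, jG Q Af γ ∈ Hp Q e Af := fun γ hγ => (jH Q e Af ⟨γ, hγ⟩).2
  have hFeq : ∀ j k, ∀ γ ∈ Hp Q e ℚ, ∀ h ∈ Hp Q e Af, ∀ κ ∈ K, κ ∈ Hp Q e Af →
      F j k (jG Q Af γ * h * κ) = ρ.act (jG Q ℝ γ) (F j k h) := by
    intro j k γ hγ h hh κ hκ hκ'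
    have h1 : jG Q Af γ * h * κ ∈ Hp Q e Af := (Hp Q e Af).mul_mem ((Hp Q e Af).mul_mem (hjH γ hγ) hh) hκ'
    rw [hFv _ _ _ h1, hFv _ _ _ hh]
    exact (hFF (ψ j) (hψ j)).2.2.1 k ⟨γ, hγ⟩ ⟨h, hh⟩ ⟨κ, hκ'⟩ hκ
  have hPF : ∀ j k, ∀ h ∈ Hp Q e Af, P (F j k h) = F j k h := by
    intro j k h hh
    rw [hFv _ _ _ hh]
    exact (hFF (ψ j) (hψ j)).2.1 k ⟨h, hh⟩
  have hzz : ∀ c, zz Q e K c ∈ Hp Q e Af := fun c => (Quotient.out c : Hp Q e Af).2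
  let P0 : Type := {p // p ∈ PX p0 X}
  have hPT : PT (jG Q ℝ) (jG Q Af) K (Hp Q e ℚ) Γ1 (Hp Q e Af) ρ (fun p : P0 => Nb Q p.1.1)
      (fun p : P0 => Dp Q e p.1.1) (zz Q e K) :=
    { fin := hfin
      jH := hjH
      le := g0
      g1 := g1
      a1 := fun p => hA1 p.1
      a2 := fun p q hpq => hA2 p.1 q.1 (fun h => hpq (Subtype.ext h))
      a3 := fun p => hA3 p.1
      s1 := fun p => hS1 p.1
      s2 := fun p => hS2 p.1
      zH := hzz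
      zi := fun i j γ hγ h => c_eq Q e K i j γ hγ h }
  obtain ⟨κ, hκ, I, I', g, hκ1, hκ2, hκ3⟩ := hLT3 (Gp Q ℚ) (Gp Q ℝ) (Gp Q Af) V P0 (ClH Q e K) (jG Q ℝ) (jG Q Af) K
    (Hp Q e ℚ) Γ1 (Hp Q e Af) ρ (fun p : P0 => Nb Q p.1.1) (fun p : P0 => Dp Q e p.1.1) (zz Q e K) n1 n2 hPT
    (fun p => hS5 p.1) hcard
    (fun p p' y hy y' hy' i i' => by
      refine le_trans (Set.ncard_le_ncard (fun γ hγ => hγ.1) (hfin _ _)) ?_
      exact hn1 p.1 p'.1 p.2 p'.2 y hy y' hy' i i')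
  let w : ClH Q e K → ℝ := wt (jG Q Af) K (Hp Q e ℚ) (zz Q e K)
  have hwv : ∀ c, (w c : ℂ) = ((st (⊤ : Subgroup (Hp Q e ℚ)) (jH Q e Af) (KH Q e K) (Quotient.out c) : ℕ) : ℂ)⁻¹ := by
    intro c
    change ((((st (Hp Q e ℚ) (jG Q Af) K (zz Q e K c) : ℕ) : ℝ)⁻¹ : ℝ) : ℂ) = _
    rw [st_eq]
    push_cast
    rfl
  have hw : ∀ c, 0 < w c ∧ w c ≤ 1 := by
    intro c
    have h1 : 0 < st (Hp Q e ℚ) (jG Q Af) K (zz Q e K c) := st_pos _ _ _ _ (hfin _ _)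
    have h2 : (1 : ℝ) ≤ (st (Hp Q e ℚ) (jG Q Af) K (zz Q e K c) : ℕ) := by exact_mod_cast h1
    exact ⟨inv_pos.2 (by linarith), inv_le_one_of_one_le₀ h2⟩
  -- no member has small bad terms
  have hlarge : ∀ j k, ∑ i, w i * ‖F j k (zz Q e K i)‖ ^ 2 ≤ ∑ t, w (I t) * w (I' t) *
      ‖inner ℂ (ρ.act (jG Q ℝ (g t)) (F j k (zz Q e K (I t)))) (F j k (zz Q e K (I' t)))‖ := by
    intro j k
    by_contra hcon
    push Not at hcon
    apply hbad j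
    have hlt := hκ3 (F j k) (hFeq j k) hcon
    obtain ⟨f, lam, hf1, hf2, hf3, hf4⟩ := eig_abs hHk1 hHkS hEig (jG Q ℝ) (jG Q Af) K ρ hfin
      (zz Q (0 : Fin N → ℚ) K)
      (fun g => by
        obtain ⟨c, γ, _, κ, hκ, _, hc⟩ := c_cov Q (0 : Fin N → ℚ) K g (all0 Q Af g)
        exact ⟨c, γ, κ, hκ, hc⟩)
      (fun i j γ hγ => c_eq Q (0 : Fin N → ℚ) K i j γ (all0 Q ℚ γ) hγ)
      (fun p : PrT p0 => Nb Q p.1) hS1 hS2 hS3 hS4 (zz Q e K) w (fun c => F j k (zz Q e K c)) (PX p0 X)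
      (fun α hα p hp => by
        refine hlt (fun q : P0 => α q.1) (fun f hf => ?_) ⟨p, hp⟩
        have h1 := hα f hf
        have h2 : ∀ i, (∑ q : P0, α q.1 • Hk K (cs K (Nb Q q.1.1)) f (zz Q e K i)) =
            ∑ q ∈ PX p0 X, α q • Hk K (cs K (Nb Q q.1)) f (zz Q e K i) := fun i =>
          Finset.sum_coe_sort (PX p0 X) (fun q => α q • Hk K (cs K (Nb Q q.1)) f (zz Q e K i))
        simp only [h2]
        exact h1)
    refine ⟨fun j x g => inner ℂ (f j g) (ρ.act x (a k)), fun j p => if h : p0 < (p : ℕ) then lam j ⟨p, h⟩ else 0,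
      fun j => ⟨?_, ?_⟩, ?_, ?_, ?_⟩
    · intro γ x g' k' hk
      change inner ℂ (f j (jG Q Af γ * g' * k')) (ρ.act (jG Q ℝ γ * x) (a k)) = inner ℂ (f j g') (ρ.act x (a k))
      have h1 : ρ.act (jG Q ℝ γ * x) (a k) = ρ.act (jG Q ℝ γ) (ρ.act x (a k)) := by
        rw [map_mul]
        rfl
      rw [hf1 j γ g' k' hk, h1, LinearIsometryEquiv.inner_map_map]
    · intro g'
      exact Submodule.subset_span ⟨f j g', a k, rfl⟩
    · intro j p hp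
      funext x g'
      have h1 := hf2 j ⟨p, hp⟩ g'
      let _ : Fintype (cs K (Nb Q p)) := (hS1 ⟨p, hp⟩).fintype
      have h2 : Hk K (cs K (Nb Q p)) (f j) g' = ∑ c : cs K (Nb Q p), f j (g' * Quotient.out c.1) :=
        finsum_eq_sum_of_fintype _
      have h3 : Tp Q K p (fun x g => inner ℂ (f j g) (ρ.act x (a k))) x g' =
          Hk K (cs K (Nb Q p)) (fun g => inner ℂ (f j g) (ρ.act x (a k))) g' := rfl
      have h4 : Hk K (cs K (Nb Q p)) (fun g => inner ℂ (f j g) (ρ.act x (a k))) g' =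
          ∑ c : cs K (Nb Q p), inner ℂ (f j (g' * Quotient.out c.1)) (ρ.act x (a k)) := finsum_eq_sum_of_fintype _
      rw [h3, h4, ← sum_inner, ← h2, h1, inner_smul_left, Complex.conj_ofReal]
      change _ = ((if h : p0 < (p : ℕ) then lam j ⟨p, h⟩ else 0 : ℝ) : ℂ) • inner ℂ (f j g') (ρ.act x (a k))
      rw [dif_pos hp]
      rfl
    · intro i j hij
      have h1 := hf4 i j hij
      obtain ⟨p, hp⟩ := Function.ne_iff.1 h1
      refine ⟨p.1, p.2, ?_⟩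
      change (if h : p0 < ((p.1 : Nat.Primes) : ℕ) then lam i ⟨p.1, h⟩ else 0) ≠
        (if h : p0 < ((p.1 : Nat.Primes) : ℕ) then lam j ⟨p.1, h⟩ else 0)
      rw [dif_pos p.2, dif_pos p.2]
      exact hp
    · intro j'
      have h11 : Per Q e K (fun x g => inner ℂ (f j' g) (ρ.act x (a k))) (ψ j) =
          ∑ c : ClH Q e K, ((st (⊤ : Subgroup (Hp Q e ℚ)) (jH Q e Af) (KH Q e K) (Quotient.out c) : ℂ))⁻¹ *
              @integral (Hp Q e ℝ) ℂ _ _ (borel _) (muH Q e)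
                (fun x => inner ℂ (f j' (Quotient.out c).1) (ρ.act x.1 (a k)) * ψ j x (Quotient.out c)) :=
        finsum_eq_sum_of_fintype _
      rw [h11]
      have h12 := hf3 j'
      refine fun h13 => h12 ?_
      rw [← h13]
      refine Finset.sum_congr rfl fun c _ => ?_
      rw [(hFF (ψ j) (hψ j)).1 k (Quotient.out c) (f j' (Quotient.out c).1), hFv _ _ _ (hzz c), hwv]
      rfl
  have hiso : ∀ i j (c : ClH Q e K), ∑ k, inner ℂ (F i k (zz Q e K c)) (F j k (zz Q e K c)) =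
      (Module.finrank ℂ W : ℂ)⁻¹ * ∫ x, (starRingEnd ℂ) (ψ i x (Quotient.out c)) * ψ j x (Quotient.out c) ∂(muH Q e) := by
    intro i j c
    rw [← (hFF (ψ i) (hψ i)).2.2.2 (ψ j) (hψ j) (Quotient.out c)]
    refine Finset.sum_congr rfl fun k _ => ?_
    rw [hFv _ _ _ (hzz c), hFv _ _ _ (hzz c)]
    rfl
  have hfin := hOS V (ClH Q e K) κ I I' (fun t => pgp ρ P (jG Q ℝ (g t))) w β s (Module.finrank ℂ W)
    (fun j k c => F j k (zz Q e K c)) hw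
    (fun t => by
      obtain ⟨h1, p, p', y, hy, y', hy', h2⟩ := hκ2 t
      exact hPh P hP hPc hrk p.1 p'.1 p.2 p'.2 y hy y' hy' (I t) (I' t) (g t) h2 h1)
    (fun j => by
      by_contra hcon
      push Not at hcon
      apply hψ0 j
      have hd : (Module.finrank ℂ W : ℂ)⁻¹ ≠ 0 := by
        have _ : Nontrivial W := hσ.1
        exact inv_ne_zero (by exact_mod_cast (Module.finrank_pos (R := ℂ) (M := W)).ne')
      have h1 : ∀ (c : ClH Q e K) x, ψ j x (Quotient.out c) = 0 := by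
        intro c x
        refine G_van (muH Q e) (G_cont σ ((hψ j).2 (Quotient.out c))) ?_ x
        have h2 := hiso j j c
        have h3 : ∑ k, inner ℂ (F j k (zz Q e K c)) (F j k (zz Q e K c)) = 0 := by
          refine Finset.sum_eq_zero fun k _ => ?_
          rw [hcon k c, inner_zero_left]
        rw [h3] at h2
        exact (mul_eq_zero.1 h2.symm).resolve_left hd
      funext x h
      have h6 : (clsSetoid (jH Q e Af) (KH Q e K)).r (Quotient.out (Quotient.mk _ h : ClH Q e K)) h :=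
        Quotient.exact (Quotient.out_eq (Quotient.mk _ h : ClH Q e K))
      obtain ⟨γ, k, hk, hgk⟩ := h6
      have h7 := (hψ j).1 γ ((jH Q e ℝ γ)⁻¹ * x) (Quotient.out (Quotient.mk _ h : ClH Q e K)) k hk
      rw [mul_inv_cancel_left, ← hgk] at h7
      exact h7.trans (h1 _ _))
    (fun i j hij => by
      rw [Finset.sum_comm]
      have h1 : ∀ c : ClH Q e K, ∑ k, (w c : ℂ) * inner ℂ (F i k (zz Q e K c)) (F j k (zz Q e K c)) =
          (Module.finrank ℂ W : ℂ)⁻¹ * (((st (⊤ : Subgroup (Hp Q e ℚ)) (jH Q e Af) (KH Q e K) (Quotient.out c) : ℕ) : ℂ)⁻¹ *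
            ∫ x, (starRingEnd ℂ) (ψ i x (Quotient.out c)) * ψ j x (Quotient.out c) ∂(muH Q e)) := by
        intro c
        rw [← Finset.mul_sum, hiso, hwv]
        ring
      rw [Finset.sum_congr rfl fun c _ => h1 c, ← Finset.mul_sum]
      have h2 : Pet Q e K (ψ i) (ψ j) = ∑ c : ClH Q e K,
          (((st (⊤ : Subgroup (Hp Q e ℚ)) (jH Q e Af) (KH Q e K) (Quotient.out c) : ℕ) : ℂ)⁻¹ *
            ∫ x, (starRingEnd ℂ) (ψ i x (Quotient.out c)) * ψ j x (Quotient.out c) ∂(muH Q e)) :=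
        finsum_eq_sum_of_fintype _
      rw [← h2, hort i j hij, mul_zero])
    (fun j k => by
      refine (hlarge j k).trans (le_of_eq ?_)
      refine Finset.sum_congr rfl fun t _ => ?_
      have h1 : inner ℂ (pgp ρ P (jG Q ℝ (g t)) (F j k (zz Q e K (I t)))) (F j k (zz Q e K (I' t))) =
          inner ℂ (ρ.act (jG Q ℝ (g t)) (F j k (zz Q e K (I t)))) (F j k (zz Q e K (I' t))) := by
        change inner ℂ (P (ρ.act (jG Q ℝ (g t)) (P (F j k (zz Q e K (I t)))))) (F j k (zz Q e K (I' t))) = _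
        rw [hP.adj, hPF j k _ (hzz _), hPF j k _ (hzz _)]
      rw [h1])
  exact ⟨Fintype.card κ, by rw [Nat.card_eq_fintype_card]; exact hκ1, hfin.1, hfin.2⟩

/-- The stabilizer of the line of `e`. -/
private def Lin2 (Q : Matrix (Fin N) (Fin N) ℚ) (e : Fin N → ℚ) : Subgroup (Gp Q ℚ) where
  carrier := {γ | γ.1.1 *ᵥ ve e ℚ = ve e ℚ ∨ γ.1.1 *ᵥ ve e ℚ = -ve e ℚ}
  mul_mem' := by
    intro a b ha hb
    change (a.1.1 * b.1.1) *ᵥ ve e ℚ = ve e ℚ ∨ (a.1.1 * b.1.1) *ᵥ ve e ℚ = -ve e ℚ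
    rw [← Matrix.mulVec_mulVec]
    rcases ha with ha | ha <;> rcases hb with hb | hb
    · left; rw [hb, ha]
    · right; rw [hb, Matrix.mulVec_neg, ha]
    · right; rw [hb, ha]
    · left; rw [hb, Matrix.mulVec_neg, ha, neg_neg]
  one_mem' := Or.inl (Matrix.one_mulVec _)
  inv_mem' := by
    intro a ha
    have e1 : (a⁻¹).1.1 * a.1.1 = 1 := congrArg (fun z : Gp Q ℚ => z.1.1) (inv_mul_cancel a)
    change (a⁻¹).1.1 *ᵥ ve e ℚ = ve e ℚ ∨ (a⁻¹).1.1 *ᵥ ve e ℚ = -ve e ℚ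
    have h1 : (a⁻¹).1.1 *ᵥ (a.1.1 *ᵥ ve e ℚ) = ve e ℚ := by rw [Matrix.mulVec_mulVec, e1, Matrix.one_mulVec]
    rcases ha with ha | ha
    · left
      rw [ha] at h1
      exact h1
    · right
      rw [ha, Matrix.mulVec_neg] at h1
      exact neg_eq_iff_eq_neg.1 h1

private theorem Af_nt : Nontrivial Af := by
  refine ⟨0, 1, fun h => ?_⟩
  let v : HeightOneSpectrum ℤ := ⟨Ideal.span {(2 : ℤ)}, (Ideal.span_singleton_prime two_ne_zero).2 Int.prime_two, by simp⟩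
  have h1 : (0 : Af) v = (1 : Af) v := by rw [h]
  exact zero_ne_one (α := v.adicCompletion ℚ) h1

private theorem zeta2 (Q : Matrix (Fin N) (Fin N) ℚ) (z : Gp Q Af) (hz : z.1.1 = -1) : ∃ ζ : Gp Q ℚ, ζ.1.1 = -1 := by
  have h1 : ((-1 : ℚ)) ^ N = 1 := by
    have h2 : z.1.1.det = 1 := z.1.2
    rw [hz, Matrix.det_neg, Matrix.det_one, mul_one, Fintype.card_fin] at h2
    have h3 : algebraMap ℚ Af ((-1 : ℚ) ^ N) = algebraMap ℚ Af 1 := by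
      rw [map_pow, map_neg, map_one]
      exact h2
    have _ := Af_nt
    exact (algebraMap ℚ Af).injective h3
  refine ⟨⟨⟨-1, ?_⟩, ?_⟩, rfl⟩
  · rw [Matrix.det_neg, Matrix.det_one, mul_one, Fintype.card_fin]
    exact h1
  · change (-1 : Matrix (Fin N) (Fin N) ℚ)ᵀ * Q.map (algebraMap ℚ ℚ) * (-1) = _
    rw [Matrix.transpose_neg, Matrix.transpose_one]
    simp

/-- The two cases for `Γ1`. -/
private theorem cases (hNoN : C_NoN) (Q : Matrix (Fin N) (Fin N) ℚ) (e : Fin N → ℚ) (K : Subgroup (Gp Q Af)) (hN : 3 ≤ N)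
    (hQs : Q.IsSymm) (hQd : Q.det ≠ 0) (p0 : ℕ) (hgd : ∀ p : Nat.Primes, p0 < (p : ℕ) → Gd Q e K p)
    {V : Type} [NormedAddCommGroup V] [InnerProductSpace ℂ V] (ρ : URep (Gp Q ℝ) V)
    (hor : (∀ k ∈ K, k.1.1 *ᵥ ve e Af ≠ -ve e Af) ∨
      ((∃ k ∈ K, k.1.1 = -1) ∧ ∀ z : Gp Q ℝ, z.1.1 = -1 → ρ.act z = 1)) :
    ∃ Γ1 : Subgroup (Gp Q ℚ), Hp Q e ℚ ≤ Γ1 ∧
      (∀ γ ∈ Γ1, ∃ γ0 ∈ Hp Q e ℚ, (∀ v, ρ.act (jG Q ℝ γ) v = ρ.act (jG Q ℝ γ0) v) ∧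
        ∀ g, (jG Q Af γ0 * g)⁻¹ * (jG Q Af γ * g) ∈ K) ∧
      ∀ p p' : Nat.Primes, p0 < (p : ℕ) → p0 < (p' : ℕ) → ∀ h ∈ Hp Q e Af, ∀ h' ∈ Hp Q e Af, ∀ y ∈ Loc Q p,
        ∀ y' ∈ Loc Q p', ∀ γ ∈ tr (jG Q Af) K (h * y) (h' * y'), γ ∉ Γ1 →
          γ.1.1 *ᵥ ve e ℚ ≠ ve e ℚ ∧ γ.1.1 *ᵥ ve e ℚ ≠ -ve e ℚ := by
  rcases hor with hA | ⟨⟨z, hzK, hz⟩, hρz⟩
  · refine ⟨Hp Q e ℚ, le_refl _, fun γ hγ => ⟨γ, hγ, fun _ => rfl, fun g => ?_⟩, ?_⟩
    · rw [inv_mul_cancel]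
      exact K.one_mem
    · intro p p' hp hp' h hh h' hh' y hy y' hy' γ hγ hγ1
      exact ⟨hγ1, hNoN N Q e K p p' hN hQs hQd (hgd p hp) (hgd p' hp') hA h hh h' hh' y hy y' hy' γ hγ⟩
  · obtain ⟨ζ, hζ⟩ := zeta2 Q z hz
    have hζA : jG Q Af ζ = z := by
      refine Subtype.ext (Subtype.ext ?_)
      rw [hz]
      change ζ.1.1.map (algebraMap ℚ Af) = -1
      rw [hζ]
      refine Matrix.ext fun i j => ?_
      rw [Matrix.map_apply, Matrix.neg_apply, Matrix.neg_apply, map_neg]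
      congr 1
      rw [Matrix.one_apply, Matrix.one_apply]
      split_ifs
      · exact map_one _
      · exact map_zero _
    have hζR : (jG Q ℝ ζ).1.1 = -1 := by
      change ζ.1.1.map (algebraMap ℚ ℝ) = -1
      rw [hζ]
      refine Matrix.ext fun i j => ?_
      rw [Matrix.map_apply, Matrix.neg_apply, Matrix.neg_apply, map_neg]
      congr 1
      rw [Matrix.one_apply, Matrix.one_apply]
      split_ifs
      · exact map_one _
      · exact map_zero _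
    have hzc : ∀ g : Gp Q Af, z * g = g * z := by
      intro g
      refine Subtype.ext (Subtype.ext ?_)
      change z.1.1 * g.1.1 = g.1.1 * z.1.1
      rw [hz, neg_one_mul, mul_neg_one]
    refine ⟨Lin2 Q e, fun γ hγ => Or.inl hγ, fun γ hγ => ?_, ?_⟩
    · rcases hγ with hγ | hγ
      · refine ⟨γ, hγ, fun _ => rfl, fun g => ?_⟩
        rw [inv_mul_cancel]
        exact K.one_mem
      · refine ⟨ζ * γ, ?_, fun v => ?_, fun g => ?_⟩
        · change (ζ.1.1 * γ.1.1) *ᵥ ve e ℚ = ve e ℚ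
          rw [hζ, neg_one_mul, Matrix.neg_mulVec, hγ, neg_neg]
        · rw [map_mul, map_mul, hρz _ hζR, one_mul]
        · rw [map_mul, hζA, hzc]
          have h1 : (jG Q Af γ * z * g)⁻¹ * (jG Q Af γ * g) = z⁻¹ := by
            rw [mul_assoc, hzc]
            group
          rw [h1]
          exact K.inv_mem hzK
    · intro p p' hp hp' h hh h' hh' y hy y' hy' γ hγ hγ1
      exact ⟨fun hx => hγ1 (Or.inl hx), fun hx => hγ1 (Or.inr hx)⟩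

private theorem rot_inv3 {G : Type} [Group G] [TopologicalSpace G] {M : ℕ} {e' : EE M} (R : Rot G M e') (g : G) :
    inner ℝ (R.τ g⁻¹ e') e' = inner ℝ (R.τ g e') e' := by
  have h5 : R.τ g * R.τ g⁻¹ = 1 := by rw [← map_mul, mul_inv_cancel, map_one]
  have h6 : R.τ g (R.τ g⁻¹ e') = e' := by
    have h7 : (R.τ g * R.τ g⁻¹) e' = (1 : EE M ≃ₗᵢ[ℝ] EE M) e' := by rw [h5]
    exact h7
  calc inner ℝ (R.τ g⁻¹ e') e' = inner ℝ (R.τ g (R.τ g⁻¹ e')) (R.τ g e') := (LinearIsometryEquiv.inner_map_map _ _ _).symm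
    _ = inner ℝ e' (R.τ g e') := by rw [h6]
    _ = inner ℝ (R.τ g e') e' := real_inner_comm _ _

/-- **GPO.** -/
def C_GPO : Prop :=
  ∀ (N : ℕ) (Q : Matrix (Fin N) (Fin N) ℚ) (e : Fin N → ℚ) (K : Subgroup (Gp Q Af)), 3 ≤ N → PQ Q → e ≠ 0 →
    IsOpen (K : Set (Gp Q Af)) → IsCompact (K : Set (Gp Q Af)) →
    ∃ (p0 X0 : ℕ) (C : ℝ), 0 < C ∧
      ∀ (V W : Type) [NormedAddCommGroup V] [InnerProductSpace ℂ V] [FiniteDimensional ℂ V]
        [NormedAddCommGroup W] [InnerProductSpace ℂ W] [FiniteDimensional ℂ W]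
        (ρ : URep (Gp Q ℝ) V) (σ : URep (Hp Q e ℝ) W) (l : V →ₗ[ℂ] W →ₗ[ℂ] ℂ), ρ.Irr → σ.Irr → l ≠ 0 →
        (∀ (x : Hp Q e ℝ) (v : V) (w : W), l (ρ.act x v) (σ.act x w) = l v w) →
        ((∀ k ∈ K, k.1.1 *ᵥ ve e Af ≠ -ve e Af) ∨
          ((∃ k ∈ K, k.1.1 = -1) ∧ ∀ z : Gp Q ℝ, z.1.1 = -1 → ρ.act z = 1)) →
        ∀ X : ℕ, X0 ≤ X → ∀ (s : ℕ) (ψ : Fin s → Hp Q e ℝ → Hp Q e Af → ℂ), (∀ j, ψ j ∈ AH Q e K σ) →
          (∀ j, ψ j ≠ 0) → (∀ i j, i ≠ j → Pet Q e K (ψ i) (ψ j) = 0) →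
          (∀ j, ¬ ∃ r : ℕ, (X : ℝ) ^ (1 / 2 : ℝ) ≤ r ∧ Prt Q e K p0 ρ (ψ j) r) →
            (s : ℝ) ≤ 2 * Module.finrank ℂ W * ⌊C * (X : ℝ) ^ (12 * N ^ 2 + 2 * N + 8) * ((Module.finrank ℂ W : ℝ) *
              ((Module.finrank ℂ W : ℝ) / Module.finrank ℂ V) ^ (1 / (2 * N + 4 : ℝ)))⌋₊

/-- **Assembly.** -/
theorem tGPO : C_Hk1 → C_HkS → C_Eig → C_BF3 → C_LT3 → C_OS → C_Loc2 → C_GRb → C_Gdx → C_NbI → C_NbK → C_NbF →
    C_NbE → C_NoN → C_NbH → C_DpI → C_Cnt → C_Pr → C_Num2 → C_GR1 → C_GR3 → C_CN4 → C_GPO := by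
  intro hHk1 hHkS hEig hBF3 hLT3 hOS hLoc2 hGRb hGdx hNbI hNbK hNbF hNbE hNoN hNbH hDpI hCnt hPr hNum hGR1 hGR3 hCN4
    N Q e K hN hQ he hKo hKc
  have hQd := det_ne Q hQ
  have hQs := hQ.1
  have hfH : Finite (ClH Q e K) := hCN4 N Q e K hQ hKo
  have hfG : Finite (ClH Q (0 : Fin N → ℚ) K) := hCN4 N Q 0 K hQ hKo
  obtain ⟨cG, cH, -⟩ := hGR1 N Q e hQ
  obtain ⟨e', R, hR1, hR2, hR3⟩ := hGRb N Q e hQ he
  obtain ⟨p0, hgd⟩ := hGdx N Q e K hQ he hKo hKc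
  obtain ⟨X0, hX0⟩ := hPr p0
  obtain ⟨C2, hC2, hloc⟩ := hLoc2 N hN
  have hTf : (Set.range (zz Q e K)).Finite := Set.finite_range _
  obtain ⟨C1, hC1, hcnt⟩ := hCnt N Q e K (Set.range (zz Q e K)) hQ he hKc hTf
  obtain ⟨C, hC, hnum⟩ := hNum N (Nat.card (ClH Q e K)) C1 C2 hC2
  refine ⟨p0, max X0 1, C, hC, ?_⟩
  intro V W _ _ _ _ _ _ ρ σ l hρ hσ hl hinv hor X hX s ψ hψ hψ0 hort hbad
  have hXX0 : X0 ≤ X := le_trans (le_max_left _ _) hX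
  have hX1 : 1 ≤ X := le_trans (le_max_right _ _) hX
  have _ : Nontrivial W := hσ.1
  have _ : Nontrivial V := hρ.1
  have hd1 : 1 ≤ Module.finrank ℂ W := Module.finrank_pos
  have hD1 : 1 ≤ Module.finrank ℂ V := Module.finrank_pos
  obtain ⟨Γ1, g0, g1, g2⟩ := cases hNoN Q e K hN hQs hQd p0 hgd ρ hor
  have hI : ∀ p : PrT p0, ∀ y ∈ Nb Q p.1, y⁻¹ ∈ Nb Q p.1 := fun p => (hNbI N Q e K p.1 hQs hQd (hgd p.1 p.2)).2
  have hXr : (0 : ℝ) ≤ X := Nat.cast_nonneg X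
  obtain ⟨M, hM, hM1, hM2⟩ := core3 hHk1 hHkS hEig hBF3 hLT3 hOS Q e K cH (hGR3 N Q K hQ hKc) hfH hfG p0 X
    ((C1 * X ^ 2) ^ (N * N)) (X * (X ^ 2) ^ (N * N))
    (C2 * (((C1 : ℝ) * (X : ℝ) ^ 2) ^ (N + 2) * ((Module.finrank ℂ W : ℝ) *
      ((Module.finrank ℂ W : ℝ) / Module.finrank ℂ V) ^ (1 / (2 * N + 4 : ℝ)))))
    (fun p => (hNbF N Q e K p.1 (hgd p.1 p.2) (hI p)).1)
    (fun p => hNbK N Q e K p.1 (hgd p.1 p.2)) hI
    (fun p q hpq y hy z hz => (hDpI N Q e K p.1 (hgd p.1 p.2)).2.2 q.1 (fun h => hpq (Subtype.ext h)) y hy.1 z hz.1)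
    (fun p => hNbE N Q e K p.1 hN hQs hQd (hgd p.1 p.2))
    (fun p => (hDpI N Q e K p.1 (hgd p.1 p.2)).1)
    (fun p q hpq y hy => (hDpI N Q e K p.1 (hgd p.1 p.2)).2.1 q.1 (fun h => hpq (Subtype.ext h)) y hy.1)
    (fun p => hNbH N Q e K p.1 hQs hQd (hgd p.1 p.2))
    (by
      have k1 : ∀ p : {p // p ∈ PX p0 X}, (Cp Q K p.1.1).ncard ≤ (X ^ 2) ^ (N * N) := by
        intro p
        refine (hNbF N Q e K p.1.1 (hgd p.1.1 p.1.2) (hI p.1)).2.trans ?_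
        exact Nat.pow_le_pow_left (Nat.pow_le_pow_left ((PX_mem p.1).1 p.2) 2) _
      calc ∑ p : {p // p ∈ PX p0 X}, (Cp Q K p.1.1).ncard ≤ ∑ _p : {p // p ∈ PX p0 X}, (X ^ 2) ^ (N * N) :=
            Finset.sum_le_sum fun p _ => k1 p
        _ = (PX p0 X).card * (X ^ 2) ^ (N * N) := by
            rw [Finset.sum_const, Finset.card_univ, Fintype.card_coe, smul_eq_mul]
        _ ≤ X * (X ^ 2) ^ (N * N) := Nat.mul_le_mul_right _ (PX_card p0 X).1)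
    ρ σ l hσ hl hinv Γ1 g0 g1
    (fun p p' hp hp' y hy y' hy' c c' => by
      refine (hcnt p.1 p'.1 (hgd p.1 p.2) y hy (hI p y hy) y' hy' _ ⟨c, rfl⟩ _ ⟨c', rfl⟩).1.trans ?_
      refine Nat.pow_le_pow_left (Nat.mul_le_mul_left _ ?_) _
      calc ((p.1 : Nat.Primes) : ℕ) * ((p'.1 : Nat.Primes) : ℕ) ≤ X * X :=
            Nat.mul_le_mul ((PX_mem p).1 hp) ((PX_mem p').1 hp')
        _ = X ^ 2 := (sq X).symm)
    (fun P hP hPc hrk p p' hp hp' y hy y' hy' c c' γ hγ hγ1 => by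
      have k2 := g2 p.1 p'.1 p.2 p'.2 _ (Quotient.out c : Hp Q e Af).2 _ (Quotient.out c' : Hp Q e Af).2 y hy.1 y' hy'.1
        γ hγ hγ1
      have k3 := (hcnt p.1 p'.1 (hgd p.1 p.2) y hy (hI p y hy) y' hy' _ ⟨c, rfl⟩ _ ⟨c', rfl⟩).2 γ hγ k2.1 k2.2 _ rfl
      have k4 := hloc (Gp Q ℝ) e' R (jG Q ℝ γ) _ rfl
      rw [hR3] at k4
      have k5 := k4 k3.1 V ρ P hρ hP (fun h hh v => hPc h ((hR1 h).1 hh) v)
      rw [hrk] at k5
      refine k5.trans ?_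
      refine mul_le_mul_of_nonneg_left ?_ hC2.le
      refine mul_le_mul_of_nonneg_right ?_ (by positivity)
      refine pow_le_pow_left₀ (inv_nonneg.2 (by linarith [k3.1])) (k3.2.trans ?_) _
      refine mul_le_mul_of_nonneg_left ?_ (Nat.cast_nonneg _)
      have k6 : (((p.1 : Nat.Primes) : ℕ) : ℝ) ≤ X := by exact_mod_cast (PX_mem p).1 hp
      have k7 : (((p'.1 : Nat.Primes) : ℕ) : ℝ) ≤ X := by exact_mod_cast (PX_mem p').1 hp'
      rw [sq]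
      exact mul_le_mul k6 k7 (Nat.cast_nonneg _) hXr)
    s ψ hψ hψ0 hort
    (fun j hj => hbad j ⟨_, (hX0 X hXX0).trans (by exact_mod_cast (PX_card p0 X).2), hj⟩)
  exact hnum _ _ X s hd1 hD1 hX1 M hM hM1 hM2

end Pool.Agent.GP
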