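import Pool.Agent.Lib.GP.Stm3

/-!
# Gross-Prasad periods on definite orthogonal groups: orthonormal bases and Hecke operators (author helper25)
-/

set_option autoImplicit false

open Matrix MeasureTheory

noncomputable section

namespace Pool.Agent.GP

variable {N : ℕ}

instance tgG (Q : Matrix (Fin N) (Fin N) ℚ) : IsTopologicalGroup (SO Q ℝ) :=
  (inferInstance : IsTopologicalGroup (Gp Q ℝ))

/-- `G(ℝ)` is closed in the matrices, so locally compact. -/
instance lcG0 (Q : Matrix (Fin N) (Fin N) ℚ) : LocallyCompactSpace (Gp Q ℝ) := by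
  have _ : LocallyCompactSpace (Matrix (Fin N) (Fin N) ℝ) := inferInstanceAs (LocallyCompactSpace (Fin N → Fin N → ℝ))
  have h1 : Topology.IsClosedEmbedding (Subtype.val : SpecialLinearGroup (Fin N) ℝ → Matrix (Fin N) (Fin N) ℝ) := by
    refine IsClosed.isClosedEmbedding_subtypeVal ?_
    exact isClosed_eq (continuous_id.matrix_det) continuous_const
  have c1 : Continuous fun g : SpecialLinearGroup (Fin N) ℝ => g.1 := h1.continuous
  have h2 : Topology.IsClosedEmbedding (Subtype.val : Gp Q ℝ → SpecialLinearGroup (Fin N) ℝ) := by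
    refine IsClosed.isClosedEmbedding_subtypeVal ?_
    exact isClosed_eq ((c1.matrix_transpose.matrix_mul continuous_const).matrix_mul c1) continuous_const
  exact (h1.comp h2).locallyCompactSpace

instance lcG (Q : Matrix (Fin N) (Fin N) ℚ) : LocallyCompactSpace (SO Q ℝ) := lcG0 Q

/-- **The Hecke operator** of a set `Y` of elements of `B`, on functions of `x` and `g ∈ B`, right invariant under `L`: `(T φ)(x, g) = ∑ φ(x, g c)`, the sum over the cosets `c = y L` of the elements `y` of `Y`. -/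
def HO {H B : Type} [Group B] (L : Subgroup B) (Y : Set B) (φ : H → B → ℂ) : H → B → ℂ :=
  fun x g => ∑ᶠ c : {c : B ⧸ L // ∃ y ∈ Y, c = QuotientGroup.mk y}, φ x (g * Quotient.out c.1)

/-- `dim Hom_H(ρ ⊗ σ, ℂ) = 1`: up to a scalar there is exactly one nonzero `H`-invariant bilinear form on the representations `ρ` and `σ`. -/
def Pairing1 {G H : Type} [Group G] [TopologicalSpace G] [Group H] [TopologicalSpace H] {n m : ℕ} (ρ : MRep G n)
    (σ : MRep H m) (i : H →* G) : Prop :=
  ∃ L : Matrix (Fin n) (Fin m) ℂ, L ≠ 0 ∧ (∀ x, (ρ.hom (i x))ᵀ * L * σ.hom x = L) ∧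
    ∀ L' : Matrix (Fin n) (Fin m) ℂ, (∀ x, (ρ.hom (i x))ᵀ * L' * σ.hom x = L') → ∃ c : ℂ, L' = c • L

variable {Q : Matrix (Fin N) (Fin N) ℚ} {n : ℕ}

/-- The `φ_j` are an orthonormal basis of the automorphic forms on `G` of weight `ρ` and level `K`, for the measure on `G(ℝ) × G(AQ)` which gives `G(ℝ) × K` the mass one. -/
def ONB (K : Subgroup (SO Q AQ)) (ρ : MRep (SO Q ℝ) n) {r : ℕ} (φ : Fin r → SO Q ℝ → SO Q AQ → ℂ) : Prop :=
  (∀ f, AutG K ρ f ↔ f ∈ Submodule.span ℂ (Set.range φ)) ∧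
    ∀ i j, Ip (qG Q AQ) K (φ i) (φ j) = if i = j then 1 else 0

/-- The elements of `Y` in `H(AQ)`. -/
def rY (e : Fin N → ℚ) (Y : Set (SO Q AQ)) : Set (HH Q e AQ) := {h | iH Q e AQ h ∈ Y}

end Pool.Agent.GP
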