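import Pool.Agent.Lib.GP.Spec5
import Pool.Agent.Lib.GP.Stm4
import Pool.Agent.Lib.GP.Asm3

/-!
# Theorem MOM: assembly (author helper25)
-/

set_option autoImplicit false

open IsDedekindDomain Matrix MeasureTheory

noncomputable section

namespace Pool.Agent.GP

variable {N : ℕ}

/-- The representative of a class, as an element of `G(Af)`. -/
private def zz (Q : Matrix (Fin N) (Fin N) ℚ) (e : Fin N → ℚ) (K : Subgroup (Gp Q Af)) (c : ClH Q e K) : Gp Q Af :=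
  (Quotient.out c : Hp Q e Af).1

private theorem m_prob (Q : Matrix (Fin N) (Fin N) ℚ) (e : Fin N → ℚ) [CompactSpace (Hp Q e ℝ)] :
    @IsProbabilityMeasure (Hp Q e ℝ) (borel _) (muH Q e) := by
  let _ : MeasurableSpace (Hp Q e ℝ) := borel _
  have _ : BorelSpace (Hp Q e ℝ) := ⟨rfl⟩
  refine ⟨?_⟩
  change ((Measure.haar (Set.univ : Set (Hp Q e ℝ)))⁻¹) * (Measure.haar (Set.univ : Set (Hp Q e ℝ))) = 1
  exact ENNReal.inv_mul_cancel (isOpen_univ.measure_ne_zero _ Set.univ_nonempty) (isCompact_univ.measure_ne_top)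

private theorem m_left (Q : Matrix (Fin N) (Fin N) ℚ) (e : Fin N → ℚ) :
    @Measure.IsMulLeftInvariant (Hp Q e ℝ) (borel _) _ (muH Q e) := by
  let _ : MeasurableSpace (Hp Q e ℝ) := borel _
  have _ : BorelSpace (Hp Q e ℝ) := ⟨rfl⟩
  change Measure.IsMulLeftInvariant (((Measure.haar (Set.univ : Set (Hp Q e ℝ)))⁻¹) • (Measure.haar : Measure (Hp Q e ℝ)))
  infer_instance

private theorem m_pos (Q : Matrix (Fin N) (Fin N) ℚ) (e : Fin N → ℚ) [CompactSpace (Hp Q e ℝ)] :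
    @Measure.IsOpenPosMeasure (Hp Q e ℝ) _ (borel _) (muH Q e) := by
  let _ : MeasurableSpace (Hp Q e ℝ) := borel _
  have _ : BorelSpace (Hp Q e ℝ) := ⟨rfl⟩
  change Measure.IsOpenPosMeasure (((Measure.haar (Set.univ : Set (Hp Q e ℝ)))⁻¹) • (Measure.haar : Measure (Hp Q e ℝ)))
  refine ⟨fun U hU hne h0 => ?_⟩
  have h1 : ((Measure.haar (Set.univ : Set (Hp Q e ℝ)))⁻¹) * (Measure.haar U) = 0 := h0
  rcases mul_eq_zero.1 h1 with h | h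
  · exact isCompact_univ.measure_ne_top (ENNReal.inv_eq_zero.1 h)
  · exact hU.measure_ne_zero _ hne h

private theorem c_eq (Q : Matrix (Fin N) (Fin N) ℚ) (e : Fin N → ℚ) (K : Subgroup (Gp Q Af)) (c c' : ClH Q e K)
    (γ : Gp Q ℚ) (hγ : γ ∈ Hp Q e ℚ) (h : γ ∈ tr (jG Q Af) K (zz Q e K c) (zz Q e K c')) : c = c' := by
  have h1 : (zz Q e K c')⁻¹ * (jG Q Af γ * zz Q e K c) ∈ K := h
  have h2 : (clsSetoid (jH Q e Af) (KH Q e K)).r (Quotient.out c) (Quotient.out c') := by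
    refine ⟨⟨γ, hγ⟩, (jH Q e Af ⟨γ, hγ⟩ * Quotient.out c)⁻¹ * Quotient.out c', ?_, ?_⟩
    · have h3 := K.inv_mem h1
      change ((((jH Q e Af ⟨γ, hγ⟩ * Quotient.out c)⁻¹ * Quotient.out c' : Hp Q e Af)) : Gp Q Af) ∈ K
      have h4 : ((((jH Q e Af ⟨γ, hγ⟩ * Quotient.out c)⁻¹ * Quotient.out c' : Hp Q e Af)) : Gp Q Af) =
          ((zz Q e K c')⁻¹ * (jG Q Af γ * zz Q e K c))⁻¹ := by
        have h5 : ∀ x y z : Gp Q Af, (x * y)⁻¹ * z = (z⁻¹ * (x * y))⁻¹ := by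
          intro x y z
          group
        exact h5 _ _ _
      rw [h4]
      exact h3
    · rw [mul_inv_cancel_left]
  have h3 : (Quotient.mk _ (Quotient.out c) : ClH Q e K) = Quotient.mk _ (Quotient.out c') := Quotient.sound h2
  exact (Quotient.out_eq c).symm.trans (h3.trans (Quotient.out_eq c'))

/-- Every element of `H(Af)` is `γ z κ`. -/
private theorem c_cov (Q : Matrix (Fin N) (Fin N) ℚ) (e : Fin N → ℚ) (K : Subgroup (Gp Q Af)) (h : Gp Q Af)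
    (hh : h ∈ Hp Q e Af) : ∃ c : ClH Q e K, ∃ γ ∈ Hp Q e ℚ, ∃ κ ∈ K, κ ∈ Hp Q e Af ∧ h = jG Q Af γ * zz Q e K c * κ := by
  have h6 : (clsSetoid (jH Q e Af) (KH Q e K)).r (Quotient.out (Quotient.mk _ ⟨h, hh⟩ : ClH Q e K)) ⟨h, hh⟩ :=
    Quotient.exact (Quotient.out_eq (Quotient.mk _ ⟨h, hh⟩ : ClH Q e K))
  obtain ⟨γ, k, hk, hgk⟩ := h6
  exact ⟨Quotient.mk _ ⟨h, hh⟩, γ.1, γ.2, k.1, hk, k.2, congrArg Subtype.val hgk⟩

private theorem all0 (Q : Matrix (Fin N) (Fin N) ℚ) (R : Type) [CommRing R] [Algebra ℚ R] (g : Gp Q R) :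
    g ∈ Hp Q (0 : Fin N → ℚ) R := by
  change g.1.1 *ᵥ ve 0 R = ve 0 R
  have h : ve (0 : Fin N → ℚ) R = 0 := by
    funext i
    exact map_zero _
  rw [h, Matrix.mulVec_zero]

private theorem det_ne (Q : Matrix (Fin N) (Fin N) ℚ) (hQ : PQ Q) : Q.det ≠ 0 := by
  intro h0
  obtain ⟨v, hv, hQv⟩ := Matrix.exists_mulVec_eq_zero_iff.2 h0
  have h1 : (fun i => (v i : ℝ)) ≠ 0 := by
    intro h2
    apply hv
    funext i
    have h3 := congrFun h2 i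
    have h4 : (v i : ℝ) = 0 := h3
    exact_mod_cast h4
  have h2 := hQ.2 _ h1
  have h3 : Q.map (algebraMap ℚ ℝ) *ᵥ (fun i => (v i : ℝ)) = 0 := by
    funext i
    have h4 := congrFun hQv i
    have h5 : ∑ j, Q i j * v j = 0 := h4
    change ∑ j, ((Q i j : ℚ) : ℝ) * ((v j : ℚ) : ℝ) = 0
    exact_mod_cast h5
  rw [h3, dotProduct_zero] at h2
  exact lt_irrefl _ h2

private theorem st_pos {Γ Gf : Type} [Group Γ] [Group Gf] (Γ1 : Subgroup Γ) (jf : Γ →* Gf) (K : Subgroup Gf) (g : Gf)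
    (hfin : (tr jf K g g).Finite) : 0 < st Γ1 jf K g := by
  have h1 : Finite {γ : Γ // γ ∈ Γ1 ∧ γ ∈ tr jf K g g} := (hfin.subset fun γ hγ => hγ.2 : Set.Finite {γ | γ ∈ Γ1 ∧ γ ∈ tr jf K g g}).to_subtype
  have h2 : Nonempty {γ : Γ // γ ∈ Γ1 ∧ γ ∈ tr jf K g g} := by
    refine ⟨⟨1, Γ1.one_mem, ?_⟩⟩
    change g⁻¹ * (jf 1 * g) ∈ K
    rw [map_one, one_mul, inv_mul_cancel]
    exact K.one_mem
  exact Nat.card_pos

/-- The Hecke operator of `𝒴` on the forms of `G`. -/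
def TY (Q : Matrix (Fin N) (Fin N) ℚ) (K : Subgroup (Gp Q Af)) (𝒴 : Set (Gp Q Af)) (φ : Gp Q ℝ → Gp Q Af → ℂ) :
    Gp Q ℝ → Gp Q Af → ℂ := fun x => Hk K (cs K 𝒴) (φ x)

/-- The Hecke operator of `𝒴 ∩ H(Af)` on the forms of `H`. -/
def TYH (Q : Matrix (Fin N) (Fin N) ℚ) (e : Fin N → ℚ) (K : Subgroup (Gp Q Af)) (𝒴 : Set (Gp Q Af))
    (ψ : Hp Q e ℝ → Hp Q e Af → ℂ) : Hp Q e ℝ → Hp Q e Af → ℂ :=
  fun x => Hk (KH Q e K) (cs (KH Q e K) (resY (Hp Q e Af) 𝒴)) (ψ x)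

private theorem st_eq4 (Q : Matrix (Fin N) (Fin N) ℚ) (e : Fin N → ℚ) (K : Subgroup (Gp Q Af)) (c : ClH Q e K) :
    st (Hp Q e ℚ) (jG Q Af) K (zz Q e K c) = st (⊤ : Subgroup (Hp Q e ℚ)) (jH Q e Af) (KH Q e K) (Quotient.out c) := by
  unfold st
  refine Nat.card_congr
    { toFun := fun γ => ⟨⟨γ.1, γ.2.1⟩, Subgroup.mem_top _, γ.2.2⟩
      invFun := fun γ => ⟨γ.1.1, γ.1.2, γ.2.2⟩
      left_inv := fun γ => rfl
      right_inv := fun γ => rfl }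

private theorem od_st {Γ A : Type} [Group Γ] [Group A] (jf : Γ →* A) (K : Subgroup A) (g : A) :
    od jf K g = st (⊤ : Subgroup Γ) jf K g := by
  unfold od st
  refine Nat.card_congr (Equiv.subtypeEquivRight fun γ => ?_)
  constructor
  · intro h
    exact ⟨Subgroup.mem_top _, h⟩
  · intro h
    exact h.2

private theorem coef_cont {H W : Type} [Group H] [TopologicalSpace H] [NormedAddCommGroup W]
    [InnerProductSpace ℂ W] (σ : URep H W) {F : H → ℂ} (hF : F ∈ coef σ) : Continuous F := by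
  unfold coef at hF
  induction hF using Submodule.span_induction with
  | mem x hx =>
    obtain ⟨u, v, rfl⟩ := hx
    exact continuous_const.inner (σ.cont v)
  | zero => exact continuous_const
  | add x y _ _ hx hy => exact hx.add hy
  | smul c x _ hx => exact continuous_const.mul hx

private theorem int_sum {X ι : Type} [TopologicalSpace X] [CompactSpace X] [MeasurableSpace X] [BorelSpace X]
    (μ : Measure X) [IsProbabilityMeasure μ] [Fintype ι] (f : ι → X → ℂ) (hf : ∀ i, Continuous (f i)) :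
    ∫ x, ∑ i, f i x ∂μ = ∑ i, ∫ x, f i x ∂μ :=
  integral_finsetSum _ fun i _ => (hf i).integrable_of_hasCompactSupport (HasCompactSupport.of_compactSpace _)

private theorem hm_prob {G : Type} [Group G] [TopologicalSpace G] [IsTopologicalGroup G] [CompactSpace G]
    [LocallyCompactSpace G] : @IsProbabilityMeasure G (borel G) (hm G) := by
  let _ : MeasurableSpace G := borel G
  have _ : BorelSpace G := ⟨rfl⟩
  refine ⟨?_⟩
  change ((Measure.haar (Set.univ : Set G))⁻¹) * (Measure.haar (Set.univ : Set G)) = 1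
  exact ENNReal.inv_mul_cancel (isOpen_univ.measure_ne_zero _ Set.univ_nonempty) (isCompact_univ.measure_ne_top)

private theorem hm_left {G : Type} [Group G] [TopologicalSpace G] [IsTopologicalGroup G]
    [LocallyCompactSpace G] : @Measure.IsMulLeftInvariant G (borel G) _ (hm G) := by
  let _ : MeasurableSpace G := borel G
  have _ : BorelSpace G := ⟨rfl⟩
  change Measure.IsMulLeftInvariant (((Measure.haar (Set.univ : Set G))⁻¹) • (Measure.haar : Measure G))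
  infer_instance

/-- The class set of `G`. -/
private theorem clsG_fin (Q : Matrix (Fin N) (Fin N) ℚ) (K : Subgroup (Gp Q Af)) (h : Finite (ClH Q (0 : Fin N → ℚ) K)) :
    Finite (Cls (jG Q Af) K) := by
  let f : Cls (jG Q Af) K → ClH Q (0 : Fin N → ℚ) K := fun c => Quotient.mk _ ⟨Quotient.out c, all0 Q Af _⟩
  refine Finite.of_injective f ?_
  intro c c' hcc
  have h1 : (clsSetoid (jH Q 0 Af) (KH Q 0 K)).r ⟨Quotient.out c, all0 Q Af _⟩ ⟨Quotient.out c', all0 Q Af _⟩ :=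
    Quotient.exact hcc
  obtain ⟨γ, k, hk, hg⟩ := h1
  have h2 : (clsSetoid (jG Q Af) K).r (Quotient.out c) (Quotient.out c') := ⟨γ.1, k.1, hk, congrArg Subtype.val hg⟩
  have h3 : (Quotient.mk _ (Quotient.out c) : Cls (jG Q Af) K) = Quotient.mk _ (Quotient.out c') := Quotient.sound h2
  exact (Quotient.out_eq c).symm.trans (h3.trans (Quotient.out_eq c'))

private theorem core4 (hBG : C_BG) (hBF4 : C_BF4) (hRz : C_Rz) (hLM : C_LM) (hTH : C_TH) (hOS2 : C_OS2)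
    (Q : Matrix (Fin N) (Fin N) ℚ) (e : Fin N → ℚ) (K : Subgroup (Gp Q Af)) (cG : CompactSpace (Gp Q ℝ))
    (cH : CompactSpace (Hp Q e ℝ)) (hfin : ∀ g g' : Gp Q Af, (tr (jG Q Af) K g g').Finite)
    (hfH : Finite (ClH Q e K)) (hfG : Finite (Cls (jG Q Af) K)) (𝒴 : Set (Gp Q Af))
    (hY1 : ∀ y ∈ 𝒴, ∀ k ∈ K, y * k ∈ 𝒴 ∧ k * y ∈ 𝒴) (hY2 : (cs K 𝒴).Finite)
    (hY3 : (cs (KH Q e K) (resY (Hp Q e Af) 𝒴)).Finite) (n1 : ℕ)
    (hn1 : ∀ c c' : ClH Q e K, ∀ y ∈ 𝒴, (tr (jG Q Af) K (zz Q e K c) (zz Q e K c' * y)).ncard ≤ n1)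
    {V W : Type} [NormedAddCommGroup V] [InnerProductSpace ℂ V] [FiniteDimensional ℂ V]
    [NormedAddCommGroup W] [InnerProductSpace ℂ W] [FiniteDimensional ℂ W]
    (ρ : URep (Gp Q ℝ) V) (σ : URep (Hp Q e ℝ) W) (l : V →ₗ[ℂ] W →ₗ[ℂ] ℂ) (hρ : ρ.Irr) (hσ : σ.Irr) (hl : l ≠ 0)
    (hinv : ∀ (x : Hp Q e ℝ) (v : V) (w : W), l (ρ.act x v) (σ.act x w) = l v w)
    (huniq : ∀ l' : V →ₗ[ℂ] W →ₗ[ℂ] ℂ, (∀ (x : Hp Q e ℝ) v w, l' (ρ.act x v) (σ.act x w) = l' v w) → ∃ c : ℂ, l' = c • l)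
    (β : ℝ) (hβ : 0 ≤ β)
    (hPh : ∀ P : V →ₗ[ℂ] V, Prj P → (∀ x ∈ Hp Q e ℝ, ∀ v, P (ρ.act x v) = ρ.act x (P v)) →
      rk P = Module.finrank ℂ W → ∀ c c' : ClH Q e K, ∀ y ∈ 𝒴,
        ∀ γ ∈ tr (jG Q Af) K (zz Q e K c) (zz Q e K c' * y), γ ∉ Hp Q e ℚ → Ph ρ P (jG Q ℝ γ) ≤ β)
    (r : ℕ) (φ : Fin r → Gp Q ℝ → Gp Q Af → ℂ) (hφ : ∀ j, φ j ∈ AG Q K ρ)
    (hspan : ∀ f ∈ AG Q K ρ, f ∈ Submodule.span ℂ (Set.range φ))
    (hon : ∀ i j, Ip (jG Q Af) K (φ i) (φ j) = if i = j then 1 else 0)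
    (s : ℕ) (ψ : Fin s → Hp Q e ℝ → Hp Q e Af → ℂ) (hψ : ∀ j, ψ j ∈ AH Q e K σ)
    (hψon : ∀ i j, Pet Q e K (ψ i) (ψ j) = if i = j then 1 else 0) :
    ∑ i, ‖∑ j, Per Q e K (TY Q K 𝒴 (φ j)) (ψ i) * (starRingEnd ℂ) (Per Q e K (φ j) (ψ i)) -
      ((Module.finrank ℂ V : ℂ) / Module.finrank ℂ W) * Pet Q e K (TYH Q e K 𝒴 (ψ i)) (ψ i)‖ ^ 2 ≤
      ((Module.finrank ℂ V : ℝ) / Module.finrank ℂ W) ^ 2 *
        (((Nat.card (ClH Q e K) ^ 2 * (cs K 𝒴).ncard * n1 : ℕ) : ℝ) ^ 2 * ((min s (Module.finrank ℂ W) : ℕ) * β)) := by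
  classical
  let _ : MeasurableSpace (Hp Q e ℝ) := borel _
  have _ : BorelSpace (Hp Q e ℝ) := ⟨rfl⟩
  let _ : MeasurableSpace (Gp Q ℝ) := borel _
  have _ : BorelSpace (Gp Q ℝ) := ⟨rfl⟩
  have _ := m_prob Q e
  have _ := m_left Q e
  have _ := m_pos Q e
  have _ : IsProbabilityMeasure (hm (Gp Q ℝ)) := hm_prob
  have _ : Measure.IsMulLeftInvariant (hm (Gp Q ℝ)) := hm_left
  let _ : Fintype (ClH Q e K) := Fintype.ofFinite _
  let _ : Fintype (Cls (jG Q Af) K) := Fintype.ofFinite _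
  let _ : Fintype (cs K 𝒴) := hY2.fintype
  let _ : Fintype (cs (KH Q e K) (resY (Hp Q e Af) 𝒴)) := hY3.fintype
  have hWn : Nontrivial W := hσ.1
  have hVn : Nontrivial V := hρ.1
  set D : ℕ := Module.finrank ℂ V with hD
  set d : ℕ := Module.finrank ℂ W with hd
  have hD0 : 0 < D := Module.finrank_pos
  have hd0 : 0 < d := Module.finrank_pos
  obtain ⟨P, a, hP, hPc, hrk, hFF⟩ := hBF4 (Gp Q ℚ) (Gp Q ℝ) (Gp Q Af) V W (jG Q ℝ) (Hp Q e ℚ) (Hp Q e ℝ)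
    (Hp Q e Af) (jH Q e ℝ) (jH Q e Af) (KH Q e K) (muH Q e) ρ σ l (fun _ => rfl) hσ hl hinv huniq
  let F : Fin s → Fin d → Gp Q Af → V :=
    fun j k g => if h : g ∈ Hp Q e Af then FF (muH Q e) ρ (ψ j) (a k) ⟨g, h⟩ else 0
  have hFv : ∀ j k g (h : g ∈ Hp Q e Af), F j k g = FF (muH Q e) ρ (ψ j) (a k) ⟨g, h⟩ := fun j k g h => dif_pos h
  have hjH : ∀ γ ∈ Hp Q e ℚ, jG Q Af γ ∈ Hp Q e Af := fun γ hγ => (jH Q e Af ⟨γ, hγ⟩).2
  have hFeq : ∀ j k, ∀ γ ∈ Hp Q e ℚ, ∀ h ∈ Hp Q e Af, ∀ κ ∈ K, κ ∈ Hp Q e Af →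
      F j k (jG Q Af γ * h * κ) = ρ.act (jG Q ℝ γ) (F j k h) := by
    intro j k γ hγ h hh κ hκ hκ'
    have h1 : jG Q Af γ * h * κ ∈ Hp Q e Af := (Hp Q e Af).mul_mem ((Hp Q e Af).mul_mem (hjH γ hγ) hh) hκ'
    rw [hFv _ _ _ h1, hFv _ _ _ hh]
    exact (hFF (ψ j) (hψ j)).2.2.1 k ⟨γ, hγ⟩ ⟨h, hh⟩ ⟨κ, hκ'⟩ hκ
  have hPF : ∀ j k, ∀ h ∈ Hp Q e Af, P (F j k h) = F j k h := by
    intro j k h hh
    rw [hFv _ _ _ hh]
    exact (hFF (ψ j) (hψ j)).2.1 k ⟨h, hh⟩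
  have hzz : ∀ c, zz Q e K c ∈ Hp Q e Af := fun c => (Quotient.out c : Hp Q e Af).2
  have hout : ∀ c : ClH Q e K, (⟨zz Q e K c, hzz c⟩ : Hp Q e Af) = Quotient.out c := fun c => rfl
  let w : ClH Q e K → ℝ := wt (jG Q Af) K (Hp Q e ℚ) (zz Q e K)
  have hwv : ∀ c, (w c : ℂ) = ((st (⊤ : Subgroup (Hp Q e ℚ)) (jH Q e Af) (KH Q e K) (Quotient.out c) : ℕ) : ℂ)⁻¹ := by
    intro c
    change ((((st (Hp Q e ℚ) (jG Q Af) K (zz Q e K c) : ℕ) : ℝ)⁻¹ : ℝ) : ℂ) = _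
    rw [st_eq4]
    push_cast
    rfl
  have hw : ∀ c, 0 < w c ∧ w c ≤ 1 := by
    intro c
    have h1 : 0 < st (Hp Q e ℚ) (jG Q Af) K (zz Q e K c) := st_pos _ _ _ _ (hfin _ _)
    have h2 : (1 : ℝ) ≤ (st (Hp Q e ℚ) (jG Q Af) K (zz Q e K c) : ℕ) := by exact_mod_cast h1
    exact ⟨inv_pos.2 (by linarith), inv_le_one_of_one_le₀ h2⟩
  obtain ⟨κ, hκ, I, I', g, hκ1, hκ2, hκ3⟩ := hLM (Gp Q ℚ) (Gp Q ℝ) (Gp Q Af) V (ClH Q e K) (jG Q ℝ) (jG Q Af) K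
    (Hp Q e ℚ) (Hp Q e Af) ρ (zz Q e K) 𝒴 hfin hjH hzz (fun i j γ hγ h => c_eq Q e K i j γ hγ h)
    (fun h hh => c_cov Q e K h hh) hY2 (fun y hy k hk => (hY1 y hy k hk).1) n1 (fun i i' y hy => hn1 i i' y hy)
  -- periods as sums
  have hPer : ∀ (θ : Gp Q ℝ → Gp Q Af → ℂ) (ψ' : Hp Q e ℝ → Hp Q e Af → ℂ), Per Q e K θ ψ' =
      ∑ c : ClH Q e K, (w c : ℂ) * ∫ x : Hp Q e ℝ, θ x.1 (zz Q e K c) * ψ' x (Quotient.out c) ∂(muH Q e) := by
    intro θ ψ'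
    have h11 : Per Q e K θ ψ' =
        ∑ c : ClH Q e K, ((st (⊤ : Subgroup (Hp Q e ℚ)) (jH Q e Af) (KH Q e K) (Quotient.out c) : ℂ))⁻¹ *
          ∫ x : Hp Q e ℝ, θ x.1 (zz Q e K c) * ψ' x (Quotient.out c) ∂(muH Q e) := finsum_eq_sum_of_fintype _
    rw [h11]
    refine Finset.sum_congr rfl fun c _ => ?_
    rw [hwv]
  have hPet : ∀ (θ ψ' : Hp Q e ℝ → Hp Q e Af → ℂ), Pet Q e K θ ψ' =
      ∑ c : ClH Q e K, (w c : ℂ) * ∫ x : Hp Q e ℝ, (starRingEnd ℂ) (θ x (Quotient.out c)) * ψ' x (Quotient.out c) ∂(muH Q e) := by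
    intro θ ψ'
    have h11 : Pet Q e K θ ψ' =
        ∑ c : ClH Q e K, ((st (⊤ : Subgroup (Hp Q e ℚ)) (jH Q e Af) (KH Q e K) (Quotient.out c) : ℂ))⁻¹ *
          ∫ x : Hp Q e ℝ, (starRingEnd ℂ) (θ x (Quotient.out c)) * ψ' x (Quotient.out c) ∂(muH Q e) :=
      finsum_eq_sum_of_fintype _
    rw [h11]
    refine Finset.sum_congr rfl fun c _ => ?_
    rw [hwv]
  have hIp : ∀ (θ θ' : Gp Q ℝ → Gp Q Af → ℂ), Ip (jG Q Af) K θ θ' =
      ∑ m : Cls (jG Q Af) K, ((st (⊤ : Subgroup (Gp Q ℚ)) (jG Q Af) K (Quotient.out m) : ℕ) : ℂ)⁻¹ *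
        ∫ x : Gp Q ℝ, (starRingEnd ℂ) (θ x (Quotient.out m)) * θ' x (Quotient.out m) ∂(hm (Gp Q ℝ)) := by
    intro θ θ'
    have h11 : Ip (jG Q Af) K θ θ' =
        ∑ m : Cls (jG Q Af) K, ((od (jG Q Af) K (Quotient.out m) : ℕ) : ℂ)⁻¹ *
        ∫ x : Gp Q ℝ, (starRingEnd ℂ) (θ x (Quotient.out m)) * θ' x (Quotient.out m) ∂(hm (Gp Q ℝ)) :=
      finsum_eq_sum_of_fintype _
    rw [h11]
    refine Finset.sum_congr rfl fun m _ => ?_
    rw [od_st]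
  have hφc : ∀ j (g' : Gp Q Af), Continuous fun x => φ j x g' := fun j g' => coef_cont ρ ((hφ j).2 g')
  have hψc : ∀ j (h : Hp Q e Af), Continuous fun x => ψ j x h := fun j h => coef_cont σ ((hψ j).2 h)
  have hval : Continuous (Subtype.val : Hp Q e ℝ → Gp Q ℝ) := continuous_subtype_val
  -- the covering by the classes of G
  have hy1 : ∀ g' : Gp Q Af, ∃ m : Cls (jG Q Af) K, ∃ γ, ∃ k ∈ K, g' = jG Q Af γ * Quotient.out m * k := by
    intro g'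
    obtain ⟨γ, k, hk, hg⟩ := (Quotient.exact (Quotient.out_eq (Quotient.mk _ g' : Cls (jG Q Af) K)) :
      (clsSetoid (jG Q Af) K).r (Quotient.out (Quotient.mk _ g' : Cls (jG Q Af) K)) g')
    exact ⟨_, γ, k, hk, hg⟩
  have hy2 : ∀ (m m' : Cls (jG Q Af) K) (γ : Gp Q ℚ), γ ∈ tr (jG Q Af) K (Quotient.out m) (Quotient.out m') → m = m' := by
    intro m m' γ hγ
    have h1 : (Quotient.out m')⁻¹ * (jG Q Af γ * Quotient.out m) ∈ K := hγ
    have h2 : (clsSetoid (jG Q Af) K).r (Quotient.out m) (Quotient.out m') := by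
      refine ⟨γ, ((Quotient.out m')⁻¹ * (jG Q Af γ * Quotient.out m))⁻¹, K.inv_mem h1, ?_⟩
      group
    have h3 : (Quotient.mk _ (Quotient.out m) : Cls (jG Q Af) K) = Quotient.mk _ (Quotient.out m') := Quotient.sound h2
    exact (Quotient.out_eq m).symm.trans (h3.trans (Quotient.out_eq m'))
  -- the moment for one form
  have key : ∀ j0 : Fin s, ∑ j, Per Q e K (TY Q K 𝒴 (φ j)) (ψ j0) * (starRingEnd ℂ) (Per Q e K (φ j) (ψ j0)) =
      ((D : ℂ) / d) * Pet Q e K (TYH Q e K 𝒴 (ψ j0)) (ψ j0) + (D : ℂ) * ∑ k, ∑ t,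
        ((w (I t) * w (I' t) : ℝ) : ℂ) * inner ℂ (ρ.act (jG Q ℝ (g t)) (F j0 k (zz Q e K (I t)))) (F j0 k (zz Q e K (I' t))) := by
    intro j0
    let fk : Fin d → Gp Q Af → V := fun k g' =>
      ∑ i, (w i : ℂ) • RP (jG Q ℝ) (jG Q Af) K ρ (zz Q e K i) (F j0 k (zz Q e K i)) g'
    let Ξ : Gp Q ℝ → Gp Q Af → ℂ := fun x g' => (D : ℂ) * ∑ k, inner ℂ (fk k g') (ρ.act x (a k))
    obtain ⟨hΞ1, hΞ2⟩ := hRz (Gp Q ℚ) (Gp Q ℝ) (Gp Q Af) V (Cls (jG Q Af) K) (ClH Q e K) (hm (Gp Q ℝ)) (jG Q ℝ) (jG Q Af) K ρ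
      (fun m => Quotient.out m) hρ hfin hy1 hy2 (zz Q e K) w d a (fun k i => F j0 k (zz Q e K i)) Ξ (fun _ _ => rfl)
    -- Riesz
    have hRiesz : ∀ j, Per Q e K (φ j) (ψ j0) = Ip (jG Q Af) K Ξ (φ j) := by
      intro j
      obtain ⟨f, hf1, hf2⟩ := hBG (Gp Q ℚ) (Gp Q ℝ) (Gp Q Af) V (hm (Gp Q ℝ)) (jG Q ℝ) (jG Q Af) K ρ hρ (φ j) (hφ j)
      have e1 : Per Q e K (φ j) (ψ j0) = ∑ l', ∑ k, inner ℂ (a k) (stdOrthonormalBasis ℂ V l') *
          ∑ i, (w i : ℂ) * inner ℂ (f l' (zz Q e K i)) (F j0 k (zz Q e K i)) := by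
        rw [hPer]
        have e2 : ∀ c : ClH Q e K, ∫ x : Hp Q e ℝ, φ j x.1 (zz Q e K c) * ψ j0 x (Quotient.out c) ∂(muH Q e) =
            ∑ l', ∑ k, inner ℂ (a k) (stdOrthonormalBasis ℂ V l') * inner ℂ (f l' (zz Q e K c)) (F j0 k (zz Q e K c)) := by
          intro c
          have e3 : ∀ x : Hp Q e ℝ, φ j x.1 (zz Q e K c) * ψ j0 x (Quotient.out c) =
              ∑ l', inner ℂ (f l' (zz Q e K c)) (ρ.act x.1 (stdOrthonormalBasis ℂ V l')) * ψ j0 x (Quotient.out c) := by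
            intro x
            rw [hf2, Finset.sum_mul]
          simp_rw [e3]
          have hc1 : ∀ l', Continuous fun x : Hp Q e ℝ =>
              inner ℂ (f l' (zz Q e K c)) (ρ.act x.1 (stdOrthonormalBasis ℂ V l')) * ψ j0 x (Quotient.out c) :=
            fun l' => (continuous_const.inner ((ρ.cont _).comp hval)).mul (hψc j0 _)
          rw [int_sum _ _ hc1]
          refine Finset.sum_congr rfl fun l' _ => ?_
          rw [(hFF (ψ j0) (hψ j0)).2.2.2.1 _ _ (Quotient.out c)]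
          refine Finset.sum_congr rfl fun k _ => ?_
          rw [hFv _ _ _ (hzz c)]
          rfl
        simp_rw [e2, Finset.mul_sum]
        rw [Finset.sum_comm]
        refine Finset.sum_congr rfl fun l' _ => ?_
        rw [Finset.sum_comm]
        refine Finset.sum_congr rfl fun k _ => Finset.sum_congr rfl fun i _ => ?_
        ring
      rw [e1, hIp]
      have e4 : ∀ m : Cls (jG Q Af) K, ∫ x : Gp Q ℝ, (starRingEnd ℂ) (Ξ x (Quotient.out m)) * φ j x (Quotient.out m) ∂(hm (Gp Q ℝ)) =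
          ∑ l', ∫ x : Gp Q ℝ, (starRingEnd ℂ) (Ξ x (Quotient.out m)) *
            inner ℂ (f l' (Quotient.out m)) (ρ.act x (stdOrthonormalBasis ℂ V l')) ∂(hm (Gp Q ℝ)) := by
        intro m
        have e5 : ∀ x : Gp Q ℝ, (starRingEnd ℂ) (Ξ x (Quotient.out m)) * φ j x (Quotient.out m) =
            ∑ l', (starRingEnd ℂ) (Ξ x (Quotient.out m)) *
              inner ℂ (f l' (Quotient.out m)) (ρ.act x (stdOrthonormalBasis ℂ V l')) := by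
          intro x
          rw [hf2, Finset.mul_sum]
        simp_rw [e5]
        have hc1 : ∀ l', Continuous fun x : Gp Q ℝ => (starRingEnd ℂ) (Ξ x (Quotient.out m)) *
            inner ℂ (f l' (Quotient.out m)) (ρ.act x (stdOrthonormalBasis ℂ V l')) :=
          fun l' => (Complex.continuous_conj.comp (coef_cont ρ (hΞ1.2 _))).mul (continuous_const.inner (ρ.cont _))
        exact int_sum _ _ hc1
      simp_rw [e4, Finset.mul_sum]
      rw [Finset.sum_comm (γ := Cls (jG Q Af) K)]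
      refine Finset.sum_congr rfl fun l' _ => ?_
      have h5 := hΞ2 (f l') (hf1 l') (stdOrthonormalBasis ℂ V l')
      simp_rw [Finset.mul_sum] at h5
      exact h5.symm
    -- expansion of Ξ
    obtain ⟨c, hc⟩ := (Submodule.mem_span_range_iff_exists_fun ℂ).1 (hspan Ξ hΞ1)
    have hΞc : ∀ x g', Ξ x g' = ∑ j, c j * φ j x g' := by
      intro x g'
      rw [← hc, Finset.sum_apply, Finset.sum_apply]
      rfl
    have hcj : ∀ j, (starRingEnd ℂ) (Per Q e K (φ j) (ψ j0)) = c j := by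
      intro j
      rw [hRiesz]
      have e1 : Ip (jG Q Af) K Ξ (φ j) = ∑ i, (starRingEnd ℂ) (c i) * Ip (jG Q Af) K (φ i) (φ j) := by
        simp_rw [hIp, Finset.mul_sum]
        rw [Finset.sum_comm]
        refine Finset.sum_congr rfl fun m _ => ?_
        have e2 : ∀ x : Gp Q ℝ, (starRingEnd ℂ) (Ξ x (Quotient.out m)) * φ j x (Quotient.out m) =
            ∑ i, (starRingEnd ℂ) (c i) * ((starRingEnd ℂ) (φ i x (Quotient.out m)) * φ j x (Quotient.out m)) := by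
          intro x
          rw [hΞc, map_sum, Finset.sum_mul]
          refine Finset.sum_congr rfl fun i _ => ?_
          rw [map_mul]
          ring
        simp_rw [e2]
        have hc1 : ∀ i, Continuous fun x : Gp Q ℝ => (starRingEnd ℂ) (c i) *
            ((starRingEnd ℂ) (φ i x (Quotient.out m)) * φ j x (Quotient.out m)) :=
          fun i => continuous_const.mul ((Complex.continuous_conj.comp (hφc i _)).mul (hφc j _))
        rw [int_sum _ _ hc1, Finset.mul_sum]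
        refine Finset.sum_congr rfl fun i _ => ?_
        rw [integral_const_mul]
        ring
      rw [e1]
      simp_rw [hon]
      simp
    have hTc : ∀ j (g' : Gp Q Af), Continuous fun x => TY Q K 𝒴 (φ j) x g' := by
      intro j g'
      have e1 : (fun x => TY Q K 𝒴 (φ j) x g') = fun x => ∑ c' : cs K 𝒴, φ j x (g' * Quotient.out c'.1) := by
        funext x
        exact finsum_eq_sum_of_fintype _
      rw [e1]
      exact continuous_finsetSum _ fun c' _ => hφc j _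
    have hTΞ : ∀ x g', TY Q K 𝒴 Ξ x g' = ∑ j, c j * TY Q K 𝒴 (φ j) x g' := by
      intro x g'
      have e1 : TY Q K 𝒴 Ξ x g' = ∑ c' : cs K 𝒴, Ξ x (g' * Quotient.out c'.1) := finsum_eq_sum_of_fintype _
      have e2 : ∀ j, TY Q K 𝒴 (φ j) x g' = ∑ c' : cs K 𝒴, φ j x (g' * Quotient.out c'.1) :=
        fun j => finsum_eq_sum_of_fintype _
      rw [e1]
      simp_rw [e2, hΞc, Finset.mul_sum]
      rw [Finset.sum_comm]
    have hstep3 : ∑ j, Per Q e K (TY Q K 𝒴 (φ j)) (ψ j0) * (starRingEnd ℂ) (Per Q e K (φ j) (ψ j0)) =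
        Per Q e K (TY Q K 𝒴 Ξ) (ψ j0) := by
      simp_rw [hcj, hPer, Finset.sum_mul]
      rw [Finset.sum_comm]
      refine Finset.sum_congr rfl fun c0 _ => ?_
      have e1 : ∀ x : Hp Q e ℝ, TY Q K 𝒴 Ξ x.1 (zz Q e K c0) * ψ j0 x (Quotient.out c0) =
          ∑ j, c j * (TY Q K 𝒴 (φ j) x.1 (zz Q e K c0) * ψ j0 x (Quotient.out c0)) := by
        intro x
        rw [hTΞ, Finset.sum_mul]
        refine Finset.sum_congr rfl fun j _ => ?_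
        ring
      simp_rw [e1]
      have hc1 : ∀ j, Continuous fun x : Hp Q e ℝ =>
          c j * (TY Q K 𝒴 (φ j) x.1 (zz Q e K c0) * ψ j0 x (Quotient.out c0)) :=
        fun j => continuous_const.mul (((hTc j _).comp hval).mul (hψc j0 _))
      rw [int_sum _ _ hc1, Finset.mul_sum]
      refine Finset.sum_congr rfl fun j _ => ?_
      rw [integral_const_mul]
      ring
    rw [hstep3, hPer]
    -- the Hecke operator on Ξ
    have hTΞ2 : ∀ x g', TY Q K 𝒴 Ξ x g' = (D : ℂ) * ∑ k, inner ℂ (Hk K (cs K 𝒴) (fk k) g') (ρ.act x (a k)) := by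
      intro x g'
      have e1 : TY Q K 𝒴 Ξ x g' = ∑ c' : cs K 𝒴, Ξ x (g' * Quotient.out c'.1) := finsum_eq_sum_of_fintype _
      have e2 : ∀ k, Hk K (cs K 𝒴) (fk k) g' = ∑ c' : cs K 𝒴, fk k (g' * Quotient.out c'.1) :=
        fun k => finsum_eq_sum_of_fintype _
      rw [e1]
      simp_rw [e2, sum_inner]
      rw [Finset.sum_comm, Finset.mul_sum]
    have hint : ∀ c0 : ClH Q e K, ∫ x : Hp Q e ℝ, TY Q K 𝒴 Ξ x.1 (zz Q e K c0) * ψ j0 x (Quotient.out c0) ∂(muH Q e) =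
        (D : ℂ) * ∑ k, inner ℂ (Hk K (cs K 𝒴) (fk k) (zz Q e K c0)) (F j0 k (zz Q e K c0)) := by
      intro c0
      have e1 : ∀ x : Hp Q e ℝ, TY Q K 𝒴 Ξ x.1 (zz Q e K c0) * ψ j0 x (Quotient.out c0) =
          ∑ k, (D : ℂ) * (inner ℂ (Hk K (cs K 𝒴) (fk k) (zz Q e K c0)) (ρ.act x.1 (a k)) * ψ j0 x (Quotient.out c0)) := by
        intro x
        rw [hTΞ2, Finset.mul_sum, Finset.sum_mul]
        refine Finset.sum_congr rfl fun k _ => ?_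
        ring
      simp_rw [e1]
      have hc1 : ∀ k, Continuous fun x : Hp Q e ℝ =>
          (D : ℂ) * (inner ℂ (Hk K (cs K 𝒴) (fk k) (zz Q e K c0)) (ρ.act x.1 (a k)) * ψ j0 x (Quotient.out c0)) :=
        fun k => continuous_const.mul ((continuous_const.inner ((ρ.cont _).comp hval)).mul (hψc j0 _))
      rw [int_sum _ _ hc1, Finset.mul_sum]
      refine Finset.sum_congr rfl fun k _ => ?_
      rw [integral_const_mul, (hFF (ψ j0) (hψ j0)).1 k (Quotient.out c0), hFv _ _ _ (hzz c0)]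
      rfl
    simp_rw [hint]
    have hsw : ∑ c0 : ClH Q e K, (w c0 : ℂ) * ((D : ℂ) * ∑ k, inner ℂ (Hk K (cs K 𝒴) (fk k) (zz Q e K c0)) (F j0 k (zz Q e K c0))) =
        (D : ℂ) * ∑ k, ∑ c0 : ClH Q e K, (w c0 : ℂ) * inner ℂ (Hk K (cs K 𝒴) (fk k) (zz Q e K c0)) (F j0 k (zz Q e K c0)) := by
      rw [Finset.sum_comm, Finset.mul_sum]
      refine Finset.sum_congr rfl fun c0 _ => ?_
      rw [Finset.mul_sum, Finset.mul_sum, Finset.mul_sum]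
      refine Finset.sum_congr rfl fun k _ => ?_
      ring
    rw [hsw]
    have hlm := fun k => hκ3 (F j0 k) (hFeq j0 k)
    have hlm' : ∀ k, ∑ c0 : ClH Q e K, (w c0 : ℂ) * inner ℂ (Hk K (cs K 𝒴) (fk k) (zz Q e K c0)) (F j0 k (zz Q e K c0)) =
        ∑ i, (w i : ℂ) * inner ℂ (FF (muH Q e) ρ (TYH Q e K 𝒴 (ψ j0)) (a k) (Quotient.out i)) (F j0 k (zz Q e K i)) +
        ∑ t, ((w (I t) * w (I' t) : ℝ) : ℂ) * inner ℂ (ρ.act (jG Q ℝ (g t)) (F j0 k (zz Q e K (I t)))) (F j0 k (zz Q e K (I' t))) := by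
      intro k
      refine (hlm k).trans ?_
      congr 1
      refine Finset.sum_congr rfl fun i _ => ?_
      congr 2
      have e1 := (hTH (Gp Q ℚ) (Gp Q ℝ) (Gp Q Af) V W (Hp Q e ℚ) (Hp Q e ℝ) (Hp Q e Af) (jH Q e ℝ) (jH Q e Af) (KH Q e K)
        (muH Q e) ρ σ (resY (Hp Q e Af) 𝒴) hY3 (fun k' hk' y hy => ⟨k' * y, (hY1 y.1 hy k'.1 hk').2, 1, one_mem _, by rw [mul_one]⟩)
        (ψ j0) (hψ j0)).2 (a k) (Quotient.out i)
      refine Eq.trans ?_ e1.symm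
      refine finsum_congr fun c' => ?_
      rw [hFv _ _ _ ((Hp Q e Af).mul_mem (hzz i) (Quotient.out c'.1 : Hp Q e Af).2)]
      rfl
    simp_rw [hlm', Finset.sum_add_distrib, mul_add]
    congr 1
    rw [hPet]
    have hmem := (hTH (Gp Q ℚ) (Gp Q ℝ) (Gp Q Af) V W (Hp Q e ℚ) (Hp Q e ℝ) (Hp Q e Af) (jH Q e ℝ) (jH Q e Af) (KH Q e K)
        (muH Q e) ρ σ (resY (Hp Q e Af) 𝒴) hY3 (fun k' hk' y hy => ⟨k' * y, (hY1 y.1 hy k'.1 hk').2, 1, one_mem _, by rw [mul_one]⟩)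
        (ψ j0) (hψ j0)).1
    rw [Finset.sum_comm, Finset.mul_sum, Finset.mul_sum]
    refine Finset.sum_congr rfl fun i _ => ?_
    have e2 := (hFF _ hmem).2.2.2.2 (ψ j0) (hψ j0) (Quotient.out i)
    have e3 : ∑ k, (w i : ℂ) * inner ℂ (FF (muH Q e) ρ (TYH Q e K 𝒴 (ψ j0)) (a k) (Quotient.out i)) (F j0 k (zz Q e K i)) =
        (w i : ℂ) * ((d : ℂ)⁻¹ * ∫ x : Hp Q e ℝ, (starRingEnd ℂ) (TYH Q e K 𝒴 (ψ j0) x (Quotient.out i)) *
          ψ j0 x (Quotient.out i) ∂(muH Q e)) := by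
      rw [← Finset.mul_sum]
      congr 1
      refine Eq.trans ?_ e2
      refine Finset.sum_congr rfl fun k _ => ?_
      rw [hFv _ _ _ (hzz i)]
      rfl
    rw [e3, div_eq_mul_inv]
    ring
  -- the bad terms
  have hdR : (0 : ℝ) < d := by exact_mod_cast hd0
  have hsq : ((Real.sqrt d : ℝ) : ℂ) * ((Real.sqrt d : ℝ) : ℂ) = (d : ℂ) := by
    rw [← Complex.ofReal_mul, Real.mul_self_sqrt hdR.le]
    norm_cast
  have hfinal := hOS2 V (ClH Q e K) κ I I' (fun t => pgp ρ P (jG Q ℝ (g t))) w β s d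
    (fun j k c => ((Real.sqrt d : ℝ) : ℂ) • F j k (zz Q e K c)) hw
    (fun t => by
      obtain ⟨h1, y, hy, h2⟩ := hκ2 t
      exact hPh P hP hPc hrk (I t) (I' t) y hy (g t) h2 h1)
    (fun i j => by
      rw [← hψon i j, hPet, Finset.sum_comm]
      refine Finset.sum_congr rfl fun c _ => ?_
      have e2 := (hFF (ψ i) (hψ i)).2.2.2.2 (ψ j) (hψ j) (Quotient.out c)
      have e3 : ∀ k, (w c : ℂ) * inner ℂ (((Real.sqrt d : ℝ) : ℂ) • F i k (zz Q e K c)) (((Real.sqrt d : ℝ) : ℂ) • F j k (zz Q e K c)) =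
          (w c : ℂ) * (d : ℂ) * inner ℂ (FF (muH Q e) ρ (ψ i) (a k) (Quotient.out c)) (FF (muH Q e) ρ (ψ j) (a k) (Quotient.out c)) := by
        intro k
        rw [inner_smul_left, inner_smul_right, Complex.conj_ofReal, hFv _ _ _ (hzz c), hFv _ _ _ (hzz c), ← hsq, hout]
        ring
      simp_rw [e3]
      rw [← Finset.mul_sum, e2, ← hd]
      have hdC : (d : ℂ) ≠ 0 := by exact_mod_cast hd0.ne'
      field_simp)
  have hterm : ∀ i, ‖∑ j, Per Q e K (TY Q K 𝒴 (φ j)) (ψ i) * (starRingEnd ℂ) (Per Q e K (φ j) (ψ i)) -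
      ((D : ℂ) / d) * Pet Q e K (TYH Q e K 𝒴 (ψ i)) (ψ i)‖ ^ 2 = ((D : ℝ) / d) ^ 2 *
      ‖∑ k, ∑ t, ((w (I t) * w (I' t) : ℝ) : ℂ) * inner ℂ (pgp ρ P (jG Q ℝ (g t)) (((Real.sqrt d : ℝ) : ℂ) • F i k (zz Q e K (I t))))
        (((Real.sqrt d : ℝ) : ℂ) • F i k (zz Q e K (I' t)))‖ ^ 2 := by
    intro i
    have e1 : ∑ k, ∑ t, ((w (I t) * w (I' t) : ℝ) : ℂ) * inner ℂ (pgp ρ P (jG Q ℝ (g t)) (((Real.sqrt d : ℝ) : ℂ) • F i k (zz Q e K (I t))))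
        (((Real.sqrt d : ℝ) : ℂ) • F i k (zz Q e K (I' t))) = (d : ℂ) * ∑ k, ∑ t,
        ((w (I t) * w (I' t) : ℝ) : ℂ) * inner ℂ (ρ.act (jG Q ℝ (g t)) (F i k (zz Q e K (I t)))) (F i k (zz Q e K (I' t))) := by
      rw [Finset.mul_sum]
      refine Finset.sum_congr rfl fun k _ => ?_
      rw [Finset.mul_sum]
      refine Finset.sum_congr rfl fun t _ => ?_
      have e2 : inner ℂ (pgp ρ P (jG Q ℝ (g t)) (F i k (zz Q e K (I t)))) (F i k (zz Q e K (I' t))) =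
          inner ℂ (ρ.act (jG Q ℝ (g t)) (F i k (zz Q e K (I t)))) (F i k (zz Q e K (I' t))) := by
        change inner ℂ (P (ρ.act (jG Q ℝ (g t)) (P (F i k (zz Q e K (I t)))))) (F i k (zz Q e K (I' t))) = _
        rw [hP.adj, hPF i k _ (hzz _), hPF i k _ (hzz _)]
      rw [map_smul, inner_smul_left, inner_smul_right, Complex.conj_ofReal, e2, ← hsq]
      ring
    rw [key i, add_sub_cancel_left, e1, norm_mul, norm_mul, Complex.norm_natCast, Complex.norm_natCast, mul_pow, mul_pow, div_pow]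
    field_simp
  rw [Finset.sum_congr rfl fun i _ => hterm i, ← Finset.mul_sum]
  refine mul_le_mul_of_nonneg_left (hfinal.trans ?_) (sq_nonneg _)
  refine mul_le_mul_of_nonneg_right ?_ (mul_nonneg (Nat.cast_nonneg _) hβ)
  refine pow_le_pow_left₀ (Nat.cast_nonneg _) ?_ 2
  rw [Nat.card_eq_fintype_card]
  exact_mod_cast hκ1

private theorem cosets_fin (Q : Matrix (Fin N) (Fin N) ℚ) (K : Subgroup (Gp Q Af)) (hK : IsOpen (K : Set (Gp Q Af)))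
    (𝒴 : Set (Gp Q Af)) (hY : IsCompact 𝒴) : (cs K 𝒴).Finite := by
  obtain ⟨b, hb1, hb2, hb3⟩ := hY.elim_finite_subcover_image (b := 𝒴) (c := fun y => {g : Gp Q Af | y⁻¹ * g ∈ K})
    (fun y _ => hK.preimage (continuous_const.mul continuous_id)) (fun y hy => by
      rw [Set.mem_iUnion₂]
      refine ⟨y, hy, ?_⟩
      change y⁻¹ * y ∈ K
      rw [inv_mul_cancel]
      exact K.one_mem)
  refine (hb2.image (fun y : Gp Q Af => (y : Gp Q Af ⧸ K))).subset ?_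
  rintro c ⟨y, hy, rfl⟩
  have h1 := hb3 hy
  rw [Set.mem_iUnion₂] at h1
  obtain ⟨y0, hy0, h2⟩ := h1
  exact ⟨y0, hy0, QuotientGroup.eq.2 h2⟩

private theorem cosetsH_fin (Q : Matrix (Fin N) (Fin N) ℚ) (e : Fin N → ℚ) (K : Subgroup (Gp Q Af)) (𝒴 : Set (Gp Q Af))
    (h : (cs K 𝒴).Finite) : (cs (KH Q e K) (resY (Hp Q e Af) 𝒴)).Finite := by
  refine Set.Finite.of_injOn (f := fun c : Hp Q e Af ⧸ KH Q e K => (((Quotient.out c : Hp Q e Af) : Gp Q Af) : Gp Q Af ⧸ K)) ?_ ?_ h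
  · rintro c ⟨y, hy, rfl⟩
    have h1 : (Quotient.out (y : Hp Q e Af ⧸ KH Q e K))⁻¹ * y ∈ KH Q e K :=
      QuotientGroup.eq.1 (QuotientGroup.out_eq' (y : Hp Q e Af ⧸ KH Q e K))
    refine ⟨y.1, hy, ?_⟩
    exact QuotientGroup.eq.2 h1
  · intro c _ c' _ hcc
    have h1 : ((Quotient.out c : Hp Q e Af) : Gp Q Af)⁻¹ * ((Quotient.out c' : Hp Q e Af) : Gp Q Af) ∈ K := QuotientGroup.eq.1 hcc
    have h2 : (Quotient.out c : Hp Q e Af)⁻¹ * (Quotient.out c' : Hp Q e Af) ∈ KH Q e K := h1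
    calc c = (Quotient.out c : Hp Q e Af) := (QuotientGroup.out_eq' c).symm
      _ = (Quotient.out c' : Hp Q e Af) := QuotientGroup.eq.2 h2
      _ = c' := QuotientGroup.out_eq' c'

private theorem tr_out {Γ A : Type} [Group Γ] [Group A] (jf : Γ →* A) (K : Subgroup A) (g g' y : A) :
    tr jf K g (g' * y) = tr jf K g (g' * Quotient.out (y : A ⧸ K)) := by
  have h1 : (Quotient.out (y : A ⧸ K))⁻¹ * y ∈ K := QuotientGroup.eq.1 (QuotientGroup.out_eq' (y : A ⧸ K))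
  ext γ
  change (g' * y)⁻¹ * (jf γ * g) ∈ K ↔ (g' * Quotient.out (y : A ⧸ K))⁻¹ * (jf γ * g) ∈ K
  have h2 : (g' * Quotient.out (y : A ⧸ K))⁻¹ * (jf γ * g) = ((Quotient.out (y : A ⧸ K))⁻¹ * y) * ((g' * y)⁻¹ * (jf γ * g)) := by
    group
  rw [h2]
  exact (K.mul_mem_cancel_left h1).symm

private theorem sum3 {A B C : Type} [Fintype A] [Fintype B] [Fintype C] (f : A → B → C → ℕ) (a : A) (b : B) (c : C) :
    f a b c ≤ ∑ a, ∑ b, ∑ c, f a b c := by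
  have h1 : f a b c ≤ ∑ c, f a b c := Finset.single_le_sum (f := fun c => f a b c) (fun _ _ => Nat.zero_le _) (Finset.mem_univ c)
  have h2 : ∑ c, f a b c ≤ ∑ b, ∑ c, f a b c :=
    Finset.single_le_sum (f := fun b => ∑ c, f a b c) (fun _ _ => Nat.zero_le _) (Finset.mem_univ b)
  have h3 : ∑ b, ∑ c, f a b c ≤ ∑ a, ∑ b, ∑ c, f a b c :=
    Finset.single_le_sum (f := fun a => ∑ b, ∑ c, f a b c) (fun _ _ => Nat.zero_le _) (Finset.mem_univ a)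
  exact (h1.trans h2).trans h3

/-- **MOM.** -/
def C_MOM : Prop :=
  ∀ (N : ℕ) (Q : Matrix (Fin N) (Fin N) ℚ) (e : Fin N → ℚ) (K : Subgroup (Gp Q Af)) (𝒴 : Set (Gp Q Af)), 3 ≤ N → PQ Q →
    e ≠ 0 → IsOpen (K : Set (Gp Q Af)) → IsCompact (K : Set (Gp Q Af)) → IsCompact 𝒴 →
    (∀ y ∈ 𝒴, ∀ k ∈ K, y * k ∈ 𝒴 ∧ k * y ∈ 𝒴) → (∀ y ∈ 𝒴, y.1.1 *ᵥ ve e Af ≠ -ve e Af) →
    ∃ C : ℝ, 0 < C ∧ ∀ (V W : Type) [NormedAddCommGroup V] [InnerProductSpace ℂ V] [FiniteDimensional ℂ V]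
      [NormedAddCommGroup W] [InnerProductSpace ℂ W] [FiniteDimensional ℂ W]
      (ρ : URep (Gp Q ℝ) V) (σ : URep (Hp Q e ℝ) W) (l : V →ₗ[ℂ] W →ₗ[ℂ] ℂ), ρ.Irr → σ.Irr → l ≠ 0 →
      (∀ (x : Hp Q e ℝ) (v : V) (w : W), l (ρ.act x v) (σ.act x w) = l v w) →
      (∀ l' : V →ₗ[ℂ] W →ₗ[ℂ] ℂ, (∀ (x : Hp Q e ℝ) v w, l' (ρ.act x v) (σ.act x w) = l' v w) → ∃ c : ℂ, l' = c • l) →
      ∀ (r : ℕ) (φ : Fin r → Gp Q ℝ → Gp Q Af → ℂ), (∀ j, φ j ∈ AG Q K ρ) →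
        (∀ f ∈ AG Q K ρ, f ∈ Submodule.span ℂ (Set.range φ)) →
        (∀ i j, Ip (jG Q Af) K (φ i) (φ j) = if i = j then 1 else 0) →
        ∀ (s : ℕ) (ψ : Fin s → Hp Q e ℝ → Hp Q e Af → ℂ), (∀ j, ψ j ∈ AH Q e K σ) →
          (∀ i j, Pet Q e K (ψ i) (ψ j) = if i = j then 1 else 0) →
          ∑ i, ‖∑ j, Per Q e K (TY Q K 𝒴 (φ j)) (ψ i) * (starRingEnd ℂ) (Per Q e K (φ j) (ψ i)) -
            ((Module.finrank ℂ V : ℂ) / Module.finrank ℂ W) * Pet Q e K (TYH Q e K 𝒴 (ψ i)) (ψ i)‖ ^ 2 ≤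
            C * ((Module.finrank ℂ V : ℝ) / Module.finrank ℂ W) ^ 2 * ((min s (Module.finrank ℂ W) : ℕ) *
              ((Module.finrank ℂ W : ℝ) * ((Module.finrank ℂ W : ℝ) / Module.finrank ℂ V) ^ (1 / (2 * N + 4 : ℝ))))

/-- **Assembly.** -/
theorem tMOM : C_BG → C_BF4 → C_Rz → C_LM → C_TH → C_OS2 → C_Loc → C_GRb → C_GR1 → C_GR3 → C_CN4 → C_MOM := by
  intro hBG hBF4 hRz hLM hTH hOS2 hLoc hGRb hGR1 hGR3 hCN4 N Q e K 𝒴 hN hQ he hKo hKc hYc hY1 hYe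
  classical
  have hfH : Finite (ClH Q e K) := hCN4 N Q e K hQ hKo
  have hfG : Finite (Cls (jG Q Af) K) := clsG_fin Q K (hCN4 N Q 0 K hQ hKo)
  obtain ⟨cG, cH, -⟩ := hGR1 N Q e hQ
  obtain ⟨e', R, hR1, hR2, -⟩ := hGRb N Q e hQ he
  have hfin := hGR3 N Q K hQ hKc
  have hY2 := cosets_fin Q K hKo 𝒴 hYc
  have hY3 := cosetsH_fin Q e K 𝒴 hY2
  let _ : Fintype (ClH Q e K) := Fintype.ofFinite _
  -- the bad elements
  let ℬ : Set (Gp Q ℚ) := ⋃ c : ClH Q e K, ⋃ c' : ClH Q e K, ⋃ q ∈ cs K 𝒴,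
    {γ | γ ∈ tr (jG Q Af) K (zz Q e K c) (zz Q e K c' * Quotient.out q) ∧ γ ∉ Hp Q e ℚ}
  have hBfin : ℬ.Finite := by
    refine Set.finite_iUnion fun c => Set.finite_iUnion fun c' => Set.Finite.biUnion hY2 fun q _ => ?_
    exact (hfin _ _).subset fun γ hγ => hγ.1
  have hBmem : ∀ c c' : ClH Q e K, ∀ y ∈ 𝒴, ∀ γ ∈ tr (jG Q Af) K (zz Q e K c) (zz Q e K c' * y), γ ∉ Hp Q e ℚ → γ ∈ ℬ := by
    intro c c' y hy γ hγ hγ1
    rw [tr_out] at hγ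
    refine Set.mem_iUnion.2 ⟨c, Set.mem_iUnion.2 ⟨c', Set.mem_iUnion₂.2 ⟨_, ⟨y, hy, rfl⟩, hγ, hγ1⟩⟩⟩
  have hQR : ∀ γ : Gp Q ℚ, (jG Q ℝ γ).1.1 *ᵥ ve e ℝ = fun i => ((γ.1.1 *ᵥ ve e ℚ) i : ℝ) := fun γ => jG_ve Q e ℝ γ
  have hBne : ∀ γ ∈ ℬ, R.τ (jG Q ℝ γ) e' ≠ e' ∧ R.τ (jG Q ℝ γ) e' ≠ -e' := by
    intro γ hγ
    obtain ⟨c, hγ⟩ := Set.mem_iUnion.1 hγ
    obtain ⟨c', hγ⟩ := Set.mem_iUnion.1 hγ
    obtain ⟨q, hq, hγ1, hγ2⟩ := Set.mem_iUnion₂.1 hγ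
    constructor
    · intro h1
      apply hγ2
      have h2 : (jG Q ℝ γ).1.1 *ᵥ ve e ℝ = ve e ℝ := (hR1 _).1 h1
      rw [hQR] at h2
      change γ.1.1 *ᵥ ve e ℚ = ve e ℚ
      funext i
      have h3 : ((γ.1.1 *ᵥ ve e ℚ) i : ℝ) = ((e i : ℚ) : ℝ) := congrFun h2 i
      exact_mod_cast h3
    · intro h1
      have h2 : (jG Q ℝ γ).1.1 *ᵥ ve e ℝ = -ve e ℝ := (hR2 _).1 h1
      rw [hQR] at h2
      have h3 : γ.1.1 *ᵥ ve e ℚ = -ve e ℚ := by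
        funext i
        have h4 : ((γ.1.1 *ᵥ ve e ℚ) i : ℝ) = -((e i : ℚ) : ℝ) := congrFun h2 i
        change (γ.1.1 *ᵥ ve e ℚ) i = -(e i)
        exact_mod_cast h4
      have h5 : (jG Q Af γ).1.1 *ᵥ ve e Af = -ve e Af := by
        rw [jG_ve, h3]
        funext i
        exact map_neg _ _
      obtain ⟨y, hy, rfl⟩ := hq
      -- the element of the double coset
      have hk : (zz Q e K c' * Quotient.out (y : Gp Q Af ⧸ K))⁻¹ * (jG Q Af γ * zz Q e K c) ∈ K := hγ1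
      have h6 : (Quotient.out (y : Gp Q Af ⧸ K))⁻¹ * y ∈ K := QuotientGroup.eq.1 (QuotientGroup.out_eq' (y : Gp Q Af ⧸ K))
      have h7 : Quotient.out (y : Gp Q Af ⧸ K) ∈ 𝒴 := by
        have h8 := (hY1 y hy _ (K.inv_mem h6)).1
        have h9 : y * ((Quotient.out (y : Gp Q Af ⧸ K))⁻¹ * y)⁻¹ = Quotient.out (y : Gp Q Af ⧸ K) := by group
        rwa [h9] at h8
      have h10 : (zz Q e K c')⁻¹ * jG Q Af γ * zz Q e K c ∈ 𝒴 := by
        have h11 := (hY1 _ h7 _ hk).1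
        have h12 : Quotient.out (y : Gp Q Af ⧸ K) * ((zz Q e K c' * Quotient.out (y : Gp Q Af ⧸ K))⁻¹ * (jG Q Af γ * zz Q e K c)) =
            (zz Q e K c')⁻¹ * jG Q Af γ * zz Q e K c := by group
        rwa [h12] at h11
      refine hYe _ h10 ?_
      have hc1 : (zz Q e K c).1.1 *ᵥ ve e Af = ve e Af := (Quotient.out c : Hp Q e Af).2
      have hc2 : ((zz Q e K c')⁻¹).1.1 *ᵥ ve e Af = ve e Af := ((Quotient.out c' : Hp Q e Af)⁻¹).2
      change (((zz Q e K c')⁻¹).1.1 * (jG Q Af γ).1.1 * (zz Q e K c).1.1) *ᵥ ve e Af = -ve e Af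
      rw [← Matrix.mulVec_mulVec, hc1, ← Matrix.mulVec_mulVec, h5, Matrix.mulVec_neg, hc2]
  have hC : ∀ γ : ℬ, ∃ C : ℝ, 0 < C ∧
      ∀ (V : Type) [NormedAddCommGroup V] [InnerProductSpace ℂ V] [FiniteDimensional ℂ V] (ρ : URep (Gp Q ℝ) V)
        (P : V →ₗ[ℂ] V), ρ.Irr → Prj P → (∀ h : Gp Q ℝ, R.τ h e' = e' → ∀ v, P (ρ.act h v) = ρ.act h (P v)) →
          Ph ρ P (jG Q ℝ γ.1) ≤ C * (rk P * ((rk P : ℝ) / Module.finrank ℂ V) ^ (1 / (2 * N + 4 : ℝ))) :=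
    fun γ => hLoc N (Gp Q ℝ) e' R hN (jG Q ℝ γ.1) (hBne γ.1 γ.2).1 (hBne γ.1 γ.2).2
  choose Cf hCf1 hCf2 using hC
  let _ : Fintype ℬ := hBfin.fintype
  let Ct : ℝ := ∑ γ : ℬ, Cf γ
  have hCt : 0 ≤ Ct := Finset.sum_nonneg fun γ _ => (hCf1 γ).le
  let _ : Fintype (cs K 𝒴) := hY2.fintype
  let n1 : ℕ := ∑ c : ClH Q e K, ∑ c' : ClH Q e K, ∑ q : cs K 𝒴,
    (tr (jG Q Af) K (zz Q e K c) (zz Q e K c' * Quotient.out q.1)).ncard
  have hn1 : ∀ c c' : ClH Q e K, ∀ y ∈ 𝒴, (tr (jG Q Af) K (zz Q e K c) (zz Q e K c' * y)).ncard ≤ n1 := by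
    intro c c' y hy
    rw [tr_out]
    exact sum3 (fun c c' (q : cs K 𝒴) => (tr (jG Q Af) K (zz Q e K c) (zz Q e K c' * Quotient.out q.1)).ncard) c c'
      ⟨_, ⟨y, hy, rfl⟩⟩
  set M : ℝ := ((Nat.card (ClH Q e K) ^ 2 * (cs K 𝒴).ncard * n1 : ℕ) : ℝ) with hM
  refine ⟨M ^ 2 * Ct + 1, by positivity, ?_⟩
  intro V W _ _ _ _ _ _ ρ σ l hρ hσ hl hinv huniq r φ hφ hspan hon s ψ hψ hψon
  have h1 := core4 hBG hBF4 hRz hLM hTH hOS2 Q e K cG cH hfin hfH hfG 𝒴 hY1 hY2 hY3 n1 hn1 ρ σ l hρ hσ hl hinv huniq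
    (Ct * ((Module.finrank ℂ W : ℝ) * ((Module.finrank ℂ W : ℝ) / Module.finrank ℂ V) ^ (1 / (2 * N + 4 : ℝ))))
    (by positivity)
    (fun P hP hPc hrk c c' y hy γ hγ hγ1 => by
      have hmem := hBmem c c' y hy γ hγ hγ1
      have k5 := hCf2 ⟨γ, hmem⟩ V ρ P hρ hP (fun h hh v => hPc h ((hR1 h).1 hh) v)
      rw [hrk] at k5
      refine k5.trans ?_
      refine mul_le_mul_of_nonneg_right ?_ (by positivity)
      exact Finset.single_le_sum (f := Cf) (fun γ _ => (hCf1 γ).le) (Finset.mem_univ _))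
    r φ hφ hspan hon s ψ hψ hψon
  refine h1.trans ?_
  rw [← hM]
  have hX : (0 : ℝ) ≤ ((Module.finrank ℂ V : ℝ) / Module.finrank ℂ W) ^ 2 * ((min s (Module.finrank ℂ W) : ℕ) *
      ((Module.finrank ℂ W : ℝ) * ((Module.finrank ℂ W : ℝ) / Module.finrank ℂ V) ^ (1 / (2 * N + 4 : ℝ)))) := by positivity
  nlinarith [hX]

end Pool.Agent.GP
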