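import Pool.Agent.Lib.GP.Asm4

/-!
# Theorem STA (the exact first moment in the stable range): assembly (author helper25)
-/

set_option autoImplicit false

open IsDedekindDomain Matrix MeasureTheory

noncomputable section

namespace Pool.Agent.GP

variable {N : ℕ}

/-- The representative of a class, as an element of `G(Af)`. -/
private def zz (Q : Matrix (Fin N) (Fin N) ℚ) (e : Fin N → ℚ) (K : Subgroup (Gp Q Af)) (c : ClH Q e K) : Gp Q Af :=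
  (Quotient.out c : Hp Q e Af).1

private theorem m_prob (Q : Matrix (Fin N) (Fin N) ℚ) (e : Fin N → ℚ) [CompactSpace (Hp Q e ℝ)] :
    @IsProbabilityMeasure (Hp Q e ℝ) (borel _) (muH Q e) := by
  let _ : MeasurableSpace (Hp Q e ℝ) := borel _
  have _ : BorelSpace (Hp Q e ℝ) := ⟨rfl⟩
  refine ⟨?_⟩
  change ((Measure.haar (Set.univ : Set (Hp Q e ℝ)))⁻¹) * (Measure.haar (Set.univ : Set (Hp Q e ℝ))) = 1
  exact ENNReal.inv_mul_cancel (isOpen_univ.measure_ne_zero _ Set.univ_nonempty) (isCompact_univ.measure_ne_top)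

private theorem m_left (Q : Matrix (Fin N) (Fin N) ℚ) (e : Fin N → ℚ) :
    @Measure.IsMulLeftInvariant (Hp Q e ℝ) (borel _) _ (muH Q e) := by
  let _ : MeasurableSpace (Hp Q e ℝ) := borel _
  have _ : BorelSpace (Hp Q e ℝ) := ⟨rfl⟩
  change Measure.IsMulLeftInvariant (((Measure.haar (Set.univ : Set (Hp Q e ℝ)))⁻¹) • (Measure.haar : Measure (Hp Q e ℝ)))
  infer_instance

private theorem m_pos (Q : Matrix (Fin N) (Fin N) ℚ) (e : Fin N → ℚ) [CompactSpace (Hp Q e ℝ)] :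
    @Measure.IsOpenPosMeasure (Hp Q e ℝ) _ (borel _) (muH Q e) := by
  let _ : MeasurableSpace (Hp Q e ℝ) := borel _
  have _ : BorelSpace (Hp Q e ℝ) := ⟨rfl⟩
  change Measure.IsOpenPosMeasure (((Measure.haar (Set.univ : Set (Hp Q e ℝ)))⁻¹) • (Measure.haar : Measure (Hp Q e ℝ)))
  refine ⟨fun U hU hne h0 => ?_⟩
  have h1 : ((Measure.haar (Set.univ : Set (Hp Q e ℝ)))⁻¹) * (Measure.haar U) = 0 := h0
  rcases mul_eq_zero.1 h1 with h | h
  · exact isCompact_univ.measure_ne_top (ENNReal.inv_eq_zero.1 h)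
  · exact hU.measure_ne_zero _ hne h

private theorem c_eq (Q : Matrix (Fin N) (Fin N) ℚ) (e : Fin N → ℚ) (K : Subgroup (Gp Q Af)) (c c' : ClH Q e K)
    (γ : Gp Q ℚ) (hγ : γ ∈ Hp Q e ℚ) (h : γ ∈ tr (jG Q Af) K (zz Q e K c) (zz Q e K c')) : c = c' := by
  have h1 : (zz Q e K c')⁻¹ * (jG Q Af γ * zz Q e K c) ∈ K := h
  have h2 : (clsSetoid (jH Q e Af) (KH Q e K)).r (Quotient.out c) (Quotient.out c') := by
    refine ⟨⟨γ, hγ⟩, (jH Q e Af ⟨γ, hγ⟩ * Quotient.out c)⁻¹ * Quotient.out c', ?_, ?_⟩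
    · have h3 := K.inv_mem h1
      change ((((jH Q e Af ⟨γ, hγ⟩ * Quotient.out c)⁻¹ * Quotient.out c' : Hp Q e Af)) : Gp Q Af) ∈ K
      have h4 : ((((jH Q e Af ⟨γ, hγ⟩ * Quotient.out c)⁻¹ * Quotient.out c' : Hp Q e Af)) : Gp Q Af) =
          ((zz Q e K c')⁻¹ * (jG Q Af γ * zz Q e K c))⁻¹ := by
        have h5 : ∀ x y z : Gp Q Af, (x * y)⁻¹ * z = (z⁻¹ * (x * y))⁻¹ := by
          intro x y z
          group
        exact h5 _ _ _
      rw [h4]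
      exact h3
    · rw [mul_inv_cancel_left]
  have h3 : (Quotient.mk _ (Quotient.out c) : ClH Q e K) = Quotient.mk _ (Quotient.out c') := Quotient.sound h2
  exact (Quotient.out_eq c).symm.trans (h3.trans (Quotient.out_eq c'))

/-- Every element of `H(Af)` is `γ z κ`. -/
private theorem c_cov (Q : Matrix (Fin N) (Fin N) ℚ) (e : Fin N → ℚ) (K : Subgroup (Gp Q Af)) (h : Gp Q Af)
    (hh : h ∈ Hp Q e Af) : ∃ c : ClH Q e K, ∃ γ ∈ Hp Q e ℚ, ∃ κ ∈ K, κ ∈ Hp Q e Af ∧ h = jG Q Af γ * zz Q e K c * κ := by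
  have h6 : (clsSetoid (jH Q e Af) (KH Q e K)).r (Quotient.out (Quotient.mk _ ⟨h, hh⟩ : ClH Q e K)) ⟨h, hh⟩ :=
    Quotient.exact (Quotient.out_eq (Quotient.mk _ ⟨h, hh⟩ : ClH Q e K))
  obtain ⟨γ, k, hk, hgk⟩ := h6
  exact ⟨Quotient.mk _ ⟨h, hh⟩, γ.1, γ.2, k.1, hk, k.2, congrArg Subtype.val hgk⟩

private theorem all0 (Q : Matrix (Fin N) (Fin N) ℚ) (R : Type) [CommRing R] [Algebra ℚ R] (g : Gp Q R) :
    g ∈ Hp Q (0 : Fin N → ℚ) R := by
  change g.1.1 *ᵥ ve 0 R = ve 0 R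
  have h : ve (0 : Fin N → ℚ) R = 0 := by
    funext i
    exact map_zero _
  rw [h, Matrix.mulVec_zero]

private theorem det_ne (Q : Matrix (Fin N) (Fin N) ℚ) (hQ : PQ Q) : Q.det ≠ 0 := by
  intro h0
  obtain ⟨v, hv, hQv⟩ := Matrix.exists_mulVec_eq_zero_iff.2 h0
  have h1 : (fun i => (v i : ℝ)) ≠ 0 := by
    intro h2
    apply hv
    funext i
    have h3 := congrFun h2 i
    have h4 : (v i : ℝ) = 0 := h3
    exact_mod_cast h4
  have h2 := hQ.2 _ h1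
  have h3 : Q.map (algebraMap ℚ ℝ) *ᵥ (fun i => (v i : ℝ)) = 0 := by
    funext i
    have h4 := congrFun hQv i
    have h5 : ∑ j, Q i j * v j = 0 := h4
    change ∑ j, ((Q i j : ℚ) : ℝ) * ((v j : ℚ) : ℝ) = 0
    exact_mod_cast h5
  rw [h3, dotProduct_zero] at h2
  exact lt_irrefl _ h2

private theorem st_pos {Γ Gf : Type} [Group Γ] [Group Gf] (Γ1 : Subgroup Γ) (jf : Γ →* Gf) (K : Subgroup Gf) (g : Gf)
    (hfin : (tr jf K g g).Finite) : 0 < st Γ1 jf K g := by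
  have h1 : Finite {γ : Γ // γ ∈ Γ1 ∧ γ ∈ tr jf K g g} := (hfin.subset fun γ hγ => hγ.2 : Set.Finite {γ | γ ∈ Γ1 ∧ γ ∈ tr jf K g g}).to_subtype
  have h2 : Nonempty {γ : Γ // γ ∈ Γ1 ∧ γ ∈ tr jf K g g} := by
    refine ⟨⟨1, Γ1.one_mem, ?_⟩⟩
    change g⁻¹ * (jf 1 * g) ∈ K
    rw [map_one, one_mul, inv_mul_cancel]
    exact K.one_mem
  exact Nat.card_pos

private theorem st_eq4 (Q : Matrix (Fin N) (Fin N) ℚ) (e : Fin N → ℚ) (K : Subgroup (Gp Q Af)) (c : ClH Q e K) :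
    st (Hp Q e ℚ) (jG Q Af) K (zz Q e K c) = st (⊤ : Subgroup (Hp Q e ℚ)) (jH Q e Af) (KH Q e K) (Quotient.out c) := by
  unfold st
  refine Nat.card_congr
    { toFun := fun γ => ⟨⟨γ.1, γ.2.1⟩, Subgroup.mem_top _, γ.2.2⟩
      invFun := fun γ => ⟨γ.1.1, γ.1.2, γ.2.2⟩
      left_inv := fun γ => rfl
      right_inv := fun γ => rfl }

private theorem od_st {Γ A : Type} [Group Γ] [Group A] (jf : Γ →* A) (K : Subgroup A) (g : A) :
    od jf K g = st (⊤ : Subgroup Γ) jf K g := by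
  unfold od st
  refine Nat.card_congr (Equiv.subtypeEquivRight fun γ => ?_)
  constructor
  · intro h
    exact ⟨Subgroup.mem_top _, h⟩
  · intro h
    exact h.2

private theorem coef_cont {H W : Type} [Group H] [TopologicalSpace H] [NormedAddCommGroup W]
    [InnerProductSpace ℂ W] (σ : URep H W) {F : H → ℂ} (hF : F ∈ coef σ) : Continuous F := by
  unfold coef at hF
  induction hF using Submodule.span_induction with
  | mem x hx =>
    obtain ⟨u, v, rfl⟩ := hx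
    exact continuous_const.inner (σ.cont v)
  | zero => exact continuous_const
  | add x y _ _ hx hy => exact hx.add hy
  | smul c x _ hx => exact continuous_const.mul hx

private theorem int_sum {X ι : Type} [TopologicalSpace X] [CompactSpace X] [MeasurableSpace X] [BorelSpace X]
    (μ : Measure X) [IsProbabilityMeasure μ] [Fintype ι] (f : ι → X → ℂ) (hf : ∀ i, Continuous (f i)) :
    ∫ x, ∑ i, f i x ∂μ = ∑ i, ∫ x, f i x ∂μ :=
  integral_finsetSum _ fun i _ => (hf i).integrable_of_hasCompactSupport (HasCompactSupport.of_compactSpace _)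

private theorem hm_prob {G : Type} [Group G] [TopologicalSpace G] [IsTopologicalGroup G] [CompactSpace G]
    [LocallyCompactSpace G] : @IsProbabilityMeasure G (borel G) (hm G) := by
  let _ : MeasurableSpace G := borel G
  have _ : BorelSpace G := ⟨rfl⟩
  refine ⟨?_⟩
  change ((Measure.haar (Set.univ : Set G))⁻¹) * (Measure.haar (Set.univ : Set G)) = 1
  exact ENNReal.inv_mul_cancel (isOpen_univ.measure_ne_zero _ Set.univ_nonempty) (isCompact_univ.measure_ne_top)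

private theorem hm_left {G : Type} [Group G] [TopologicalSpace G] [IsTopologicalGroup G]
    [LocallyCompactSpace G] : @Measure.IsMulLeftInvariant G (borel G) _ (hm G) := by
  let _ : MeasurableSpace G := borel G
  have _ : BorelSpace G := ⟨rfl⟩
  change Measure.IsMulLeftInvariant (((Measure.haar (Set.univ : Set G))⁻¹) • (Measure.haar : Measure G))
  infer_instance

/-- The class set of `G`. -/
private theorem clsG_fin (Q : Matrix (Fin N) (Fin N) ℚ) (K : Subgroup (Gp Q Af)) (h : Finite (ClH Q (0 : Fin N → ℚ) K)) :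
    Finite (Cls (jG Q Af) K) := by
  let f : Cls (jG Q Af) K → ClH Q (0 : Fin N → ℚ) K := fun c => Quotient.mk _ ⟨Quotient.out c, all0 Q Af _⟩
  refine Finite.of_injective f ?_
  intro c c' hcc
  have h1 : (clsSetoid (jH Q 0 Af) (KH Q 0 K)).r ⟨Quotient.out c, all0 Q Af _⟩ ⟨Quotient.out c', all0 Q Af _⟩ :=
    Quotient.exact hcc
  obtain ⟨γ, k, hk, hg⟩ := h1
  have h2 : (clsSetoid (jG Q Af) K).r (Quotient.out c) (Quotient.out c') := ⟨γ.1, k.1, hk, congrArg Subtype.val hg⟩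
  have h3 : (Quotient.mk _ (Quotient.out c) : Cls (jG Q Af) K) = Quotient.mk _ (Quotient.out c') := Quotient.sound h2
  exact (Quotient.out_eq c).symm.trans (h3.trans (Quotient.out_eq c'))

private theorem core5 (hBG : C_BG) (hBF4 : C_BF4) (hRz : C_Rz) (hLM : C_LM) (hTH : C_TH)
    (Q : Matrix (Fin N) (Fin N) ℚ) (e : Fin N → ℚ) (K : Subgroup (Gp Q Af)) (cG : CompactSpace (Gp Q ℝ))
    (cH : CompactSpace (Hp Q e ℝ)) (hfin : ∀ g g' : Gp Q Af, (tr (jG Q Af) K g g').Finite)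
    (hfH : Finite (ClH Q e K)) (hfG : Finite (Cls (jG Q Af) K)) (𝒴 : Set (Gp Q Af))
    (hY1 : ∀ y ∈ 𝒴, ∀ k ∈ K, y * k ∈ 𝒴 ∧ k * y ∈ 𝒴) (hY2 : (cs K 𝒴).Finite)
    (hY3 : (cs (KH Q e K) (resY (Hp Q e Af) 𝒴)).Finite) (n1 : ℕ)
    (hn1 : ∀ c c' : ClH Q e K, ∀ y ∈ 𝒴, (tr (jG Q Af) K (zz Q e K c) (zz Q e K c' * y)).ncard ≤ n1)
    {V W : Type} [NormedAddCommGroup V] [InnerProductSpace ℂ V] [FiniteDimensional ℂ V]
    [NormedAddCommGroup W] [InnerProductSpace ℂ W] [FiniteDimensional ℂ W]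
    (ρ : URep (Gp Q ℝ) V) (σ : URep (Hp Q e ℝ) W) (l : V →ₗ[ℂ] W →ₗ[ℂ] ℂ) (hρ : ρ.Irr) (hσ : σ.Irr) (hl : l ≠ 0)
    (hinv : ∀ (x : Hp Q e ℝ) (v : V) (w : W), l (ρ.act x v) (σ.act x w) = l v w)
    (huniq : ∀ l' : V →ₗ[ℂ] W →ₗ[ℂ] ℂ, (∀ (x : Hp Q e ℝ) v w, l' (ρ.act x v) (σ.act x w) = l' v w) → ∃ c : ℂ, l' = c • l)
    (hst : ∀ c c' : ClH Q e K, ∀ y ∈ 𝒴, ∀ γ ∈ tr (jG Q Af) K (zz Q e K c) (zz Q e K c' * y), γ ∈ Hp Q e ℚ)
    (r : ℕ) (φ : Fin r → Gp Q ℝ → Gp Q Af → ℂ) (hφ : ∀ j, φ j ∈ AG Q K ρ)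
    (hspan : ∀ f ∈ AG Q K ρ, f ∈ Submodule.span ℂ (Set.range φ))
    (hon : ∀ i j, Ip (jG Q Af) K (φ i) (φ j) = if i = j then 1 else 0)
    (s : ℕ) (ψ : Fin s → Hp Q e ℝ → Hp Q e Af → ℂ) (hψ : ∀ j, ψ j ∈ AH Q e K σ)
    (j1 : Fin s) :
    ∑ j, Per Q e K (TY Q K 𝒴 (φ j)) (ψ j1) * (starRingEnd ℂ) (Per Q e K (φ j) (ψ j1)) =
      ((Module.finrank ℂ V : ℂ) / Module.finrank ℂ W) * Pet Q e K (TYH Q e K 𝒴 (ψ j1)) (ψ j1) := by
  classical
  let _ : MeasurableSpace (Hp Q e ℝ) := borel _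
  have _ : BorelSpace (Hp Q e ℝ) := ⟨rfl⟩
  let _ : MeasurableSpace (Gp Q ℝ) := borel _
  have _ : BorelSpace (Gp Q ℝ) := ⟨rfl⟩
  have _ := m_prob Q e
  have _ := m_left Q e
  have _ := m_pos Q e
  have _ : IsProbabilityMeasure (hm (Gp Q ℝ)) := hm_prob
  have _ : Measure.IsMulLeftInvariant (hm (Gp Q ℝ)) := hm_left
  let _ : Fintype (ClH Q e K) := Fintype.ofFinite _
  let _ : Fintype (Cls (jG Q Af) K) := Fintype.ofFinite _
  let _ : Fintype (cs K 𝒴) := hY2.fintype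
  let _ : Fintype (cs (KH Q e K) (resY (Hp Q e Af) 𝒴)) := hY3.fintype
  have hWn : Nontrivial W := hσ.1
  have hVn : Nontrivial V := hρ.1
  set D : ℕ := Module.finrank ℂ V with hD
  set d : ℕ := Module.finrank ℂ W with hd
  have hD0 : 0 < D := Module.finrank_pos
  have hd0 : 0 < d := Module.finrank_pos
  obtain ⟨P, a, hP, hPc, hrk, hFF⟩ := hBF4 (Gp Q ℚ) (Gp Q ℝ) (Gp Q Af) V W (jG Q ℝ) (Hp Q e ℚ) (Hp Q e ℝ)
    (Hp Q e Af) (jH Q e ℝ) (jH Q e Af) (KH Q e K) (muH Q e) ρ σ l (fun _ => rfl) hσ hl hinv huniq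
  let F : Fin s → Fin d → Gp Q Af → V :=
    fun j k g => if h : g ∈ Hp Q e Af then FF (muH Q e) ρ (ψ j) (a k) ⟨g, h⟩ else 0
  have hFv : ∀ j k g (h : g ∈ Hp Q e Af), F j k g = FF (muH Q e) ρ (ψ j) (a k) ⟨g, h⟩ := fun j k g h => dif_pos h
  have hjH : ∀ γ ∈ Hp Q e ℚ, jG Q Af γ ∈ Hp Q e Af := fun γ hγ => (jH Q e Af ⟨γ, hγ⟩).2
  have hFeq : ∀ j k, ∀ γ ∈ Hp Q e ℚ, ∀ h ∈ Hp Q e Af, ∀ κ ∈ K, κ ∈ Hp Q e Af →
      F j k (jG Q Af γ * h * κ) = ρ.act (jG Q ℝ γ) (F j k h) := by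
    intro j k γ hγ h hh κ hκ hκ'
    have h1 : jG Q Af γ * h * κ ∈ Hp Q e Af := (Hp Q e Af).mul_mem ((Hp Q e Af).mul_mem (hjH γ hγ) hh) hκ'
    rw [hFv _ _ _ h1, hFv _ _ _ hh]
    exact (hFF (ψ j) (hψ j)).2.2.1 k ⟨γ, hγ⟩ ⟨h, hh⟩ ⟨κ, hκ'⟩ hκ
  have hPF : ∀ j k, ∀ h ∈ Hp Q e Af, P (F j k h) = F j k h := by
    intro j k h hh
    rw [hFv _ _ _ hh]
    exact (hFF (ψ j) (hψ j)).2.1 k ⟨h, hh⟩
  have hzz : ∀ c, zz Q e K c ∈ Hp Q e Af := fun c => (Quotient.out c : Hp Q e Af).2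
  have hout : ∀ c : ClH Q e K, (⟨zz Q e K c, hzz c⟩ : Hp Q e Af) = Quotient.out c := fun c => rfl
  let w : ClH Q e K → ℝ := wt (jG Q Af) K (Hp Q e ℚ) (zz Q e K)
  have hwv : ∀ c, (w c : ℂ) = ((st (⊤ : Subgroup (Hp Q e ℚ)) (jH Q e Af) (KH Q e K) (Quotient.out c) : ℕ) : ℂ)⁻¹ := by
    intro c
    change ((((st (Hp Q e ℚ) (jG Q Af) K (zz Q e K c) : ℕ) : ℝ)⁻¹ : ℝ) : ℂ) = _
    rw [st_eq4]
    push_cast
    rfl
  have hw : ∀ c, 0 < w c ∧ w c ≤ 1 := by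
    intro c
    have h1 : 0 < st (Hp Q e ℚ) (jG Q Af) K (zz Q e K c) := st_pos _ _ _ _ (hfin _ _)
    have h2 : (1 : ℝ) ≤ (st (Hp Q e ℚ) (jG Q Af) K (zz Q e K c) : ℕ) := by exact_mod_cast h1
    exact ⟨inv_pos.2 (by linarith), inv_le_one_of_one_le₀ h2⟩
  obtain ⟨κ, hκ, I, I', g, hκ1, hκ2, hκ3⟩ := hLM (Gp Q ℚ) (Gp Q ℝ) (Gp Q Af) V (ClH Q e K) (jG Q ℝ) (jG Q Af) K
    (Hp Q e ℚ) (Hp Q e Af) ρ (zz Q e K) 𝒴 hfin hjH hzz (fun i j γ hγ h => c_eq Q e K i j γ hγ h)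
    (fun h hh => c_cov Q e K h hh) hY2 (fun y hy k hk => (hY1 y hy k hk).1) n1 (fun i i' y hy => hn1 i i' y hy)
  -- periods as sums
  have hPer : ∀ (θ : Gp Q ℝ → Gp Q Af → ℂ) (ψ' : Hp Q e ℝ → Hp Q e Af → ℂ), Per Q e K θ ψ' =
      ∑ c : ClH Q e K, (w c : ℂ) * ∫ x : Hp Q e ℝ, θ x.1 (zz Q e K c) * ψ' x (Quotient.out c) ∂(muH Q e) := by
    intro θ ψ'
    have h11 : Per Q e K θ ψ' =
        ∑ c : ClH Q e K, ((st (⊤ : Subgroup (Hp Q e ℚ)) (jH Q e Af) (KH Q e K) (Quotient.out c) : ℂ))⁻¹ *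
          ∫ x : Hp Q e ℝ, θ x.1 (zz Q e K c) * ψ' x (Quotient.out c) ∂(muH Q e) := finsum_eq_sum_of_fintype _
    rw [h11]
    refine Finset.sum_congr rfl fun c _ => ?_
    rw [hwv]
  have hPet : ∀ (θ ψ' : Hp Q e ℝ → Hp Q e Af → ℂ), Pet Q e K θ ψ' =
      ∑ c : ClH Q e K, (w c : ℂ) * ∫ x : Hp Q e ℝ, (starRingEnd ℂ) (θ x (Quotient.out c)) * ψ' x (Quotient.out c) ∂(muH Q e) := by
    intro θ ψ'
    have h11 : Pet Q e K θ ψ' =
        ∑ c : ClH Q e K, ((st (⊤ : Subgroup (Hp Q e ℚ)) (jH Q e Af) (KH Q e K) (Quotient.out c) : ℂ))⁻¹ *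
          ∫ x : Hp Q e ℝ, (starRingEnd ℂ) (θ x (Quotient.out c)) * ψ' x (Quotient.out c) ∂(muH Q e) :=
      finsum_eq_sum_of_fintype _
    rw [h11]
    refine Finset.sum_congr rfl fun c _ => ?_
    rw [hwv]
  have hIp : ∀ (θ θ' : Gp Q ℝ → Gp Q Af → ℂ), Ip (jG Q Af) K θ θ' =
      ∑ m : Cls (jG Q Af) K, ((st (⊤ : Subgroup (Gp Q ℚ)) (jG Q Af) K (Quotient.out m) : ℕ) : ℂ)⁻¹ *
        ∫ x : Gp Q ℝ, (starRingEnd ℂ) (θ x (Quotient.out m)) * θ' x (Quotient.out m) ∂(hm (Gp Q ℝ)) := by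
    intro θ θ'
    have h11 : Ip (jG Q Af) K θ θ' =
        ∑ m : Cls (jG Q Af) K, ((od (jG Q Af) K (Quotient.out m) : ℕ) : ℂ)⁻¹ *
        ∫ x : Gp Q ℝ, (starRingEnd ℂ) (θ x (Quotient.out m)) * θ' x (Quotient.out m) ∂(hm (Gp Q ℝ)) :=
      finsum_eq_sum_of_fintype _
    rw [h11]
    refine Finset.sum_congr rfl fun m _ => ?_
    rw [od_st]
  have hφc : ∀ j (g' : Gp Q Af), Continuous fun x => φ j x g' := fun j g' => coef_cont ρ ((hφ j).2 g')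
  have hψc : ∀ j (h : Hp Q e Af), Continuous fun x => ψ j x h := fun j h => coef_cont σ ((hψ j).2 h)
  have hval : Continuous (Subtype.val : Hp Q e ℝ → Gp Q ℝ) := continuous_subtype_val
  -- the covering by the classes of G
  have hy1 : ∀ g' : Gp Q Af, ∃ m : Cls (jG Q Af) K, ∃ γ, ∃ k ∈ K, g' = jG Q Af γ * Quotient.out m * k := by
    intro g'
    obtain ⟨γ, k, hk, hg⟩ := (Quotient.exact (Quotient.out_eq (Quotient.mk _ g' : Cls (jG Q Af) K)) :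
      (clsSetoid (jG Q Af) K).r (Quotient.out (Quotient.mk _ g' : Cls (jG Q Af) K)) g')
    exact ⟨_, γ, k, hk, hg⟩
  have hy2 : ∀ (m m' : Cls (jG Q Af) K) (γ : Gp Q ℚ), γ ∈ tr (jG Q Af) K (Quotient.out m) (Quotient.out m') → m = m' := by
    intro m m' γ hγ
    have h1 : (Quotient.out m')⁻¹ * (jG Q Af γ * Quotient.out m) ∈ K := hγ
    have h2 : (clsSetoid (jG Q Af) K).r (Quotient.out m) (Quotient.out m') := by
      refine ⟨γ, ((Quotient.out m')⁻¹ * (jG Q Af γ * Quotient.out m))⁻¹, K.inv_mem h1, ?_⟩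
      group
    have h3 : (Quotient.mk _ (Quotient.out m) : Cls (jG Q Af) K) = Quotient.mk _ (Quotient.out m') := Quotient.sound h2
    exact (Quotient.out_eq m).symm.trans (h3.trans (Quotient.out_eq m'))
  -- the moment for one form
  have key : ∀ j0 : Fin s, ∑ j, Per Q e K (TY Q K 𝒴 (φ j)) (ψ j0) * (starRingEnd ℂ) (Per Q e K (φ j) (ψ j0)) =
      ((D : ℂ) / d) * Pet Q e K (TYH Q e K 𝒴 (ψ j0)) (ψ j0) + (D : ℂ) * ∑ k, ∑ t,
        ((w (I t) * w (I' t) : ℝ) : ℂ) * inner ℂ (ρ.act (jG Q ℝ (g t)) (F j0 k (zz Q e K (I t)))) (F j0 k (zz Q e K (I' t))) := by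
    intro j0
    let fk : Fin d → Gp Q Af → V := fun k g' =>
      ∑ i, (w i : ℂ) • RP (jG Q ℝ) (jG Q Af) K ρ (zz Q e K i) (F j0 k (zz Q e K i)) g'
    let Ξ : Gp Q ℝ → Gp Q Af → ℂ := fun x g' => (D : ℂ) * ∑ k, inner ℂ (fk k g') (ρ.act x (a k))
    obtain ⟨hΞ1, hΞ2⟩ := hRz (Gp Q ℚ) (Gp Q ℝ) (Gp Q Af) V (Cls (jG Q Af) K) (ClH Q e K) (hm (Gp Q ℝ)) (jG Q ℝ) (jG Q Af) K ρ
      (fun m => Quotient.out m) hρ hfin hy1 hy2 (zz Q e K) w d a (fun k i => F j0 k (zz Q e K i)) Ξ (fun _ _ => rfl)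
    -- Riesz
    have hRiesz : ∀ j, Per Q e K (φ j) (ψ j0) = Ip (jG Q Af) K Ξ (φ j) := by
      intro j
      obtain ⟨f, hf1, hf2⟩ := hBG (Gp Q ℚ) (Gp Q ℝ) (Gp Q Af) V (hm (Gp Q ℝ)) (jG Q ℝ) (jG Q Af) K ρ hρ (φ j) (hφ j)
      have e1 : Per Q e K (φ j) (ψ j0) = ∑ l', ∑ k, inner ℂ (a k) (stdOrthonormalBasis ℂ V l') *
          ∑ i, (w i : ℂ) * inner ℂ (f l' (zz Q e K i)) (F j0 k (zz Q e K i)) := by
        rw [hPer]
        have e2 : ∀ c : ClH Q e K, ∫ x : Hp Q e ℝ, φ j x.1 (zz Q e K c) * ψ j0 x (Quotient.out c) ∂(muH Q e) =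
            ∑ l', ∑ k, inner ℂ (a k) (stdOrthonormalBasis ℂ V l') * inner ℂ (f l' (zz Q e K c)) (F j0 k (zz Q e K c)) := by
          intro c
          have e3 : ∀ x : Hp Q e ℝ, φ j x.1 (zz Q e K c) * ψ j0 x (Quotient.out c) =
              ∑ l', inner ℂ (f l' (zz Q e K c)) (ρ.act x.1 (stdOrthonormalBasis ℂ V l')) * ψ j0 x (Quotient.out c) := by
            intro x
            rw [hf2, Finset.sum_mul]
          simp_rw [e3]
          have hc1 : ∀ l', Continuous fun x : Hp Q e ℝ =>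
              inner ℂ (f l' (zz Q e K c)) (ρ.act x.1 (stdOrthonormalBasis ℂ V l')) * ψ j0 x (Quotient.out c) :=
            fun l' => (continuous_const.inner ((ρ.cont _).comp hval)).mul (hψc j0 _)
          rw [int_sum _ _ hc1]
          refine Finset.sum_congr rfl fun l' _ => ?_
          rw [(hFF (ψ j0) (hψ j0)).2.2.2.1 _ _ (Quotient.out c)]
          refine Finset.sum_congr rfl fun k _ => ?_
          rw [hFv _ _ _ (hzz c)]
          rfl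
        simp_rw [e2, Finset.mul_sum]
        rw [Finset.sum_comm]
        refine Finset.sum_congr rfl fun l' _ => ?_
        rw [Finset.sum_comm]
        refine Finset.sum_congr rfl fun k _ => Finset.sum_congr rfl fun i _ => ?_
        ring
      rw [e1, hIp]
      have e4 : ∀ m : Cls (jG Q Af) K, ∫ x : Gp Q ℝ, (starRingEnd ℂ) (Ξ x (Quotient.out m)) * φ j x (Quotient.out m) ∂(hm (Gp Q ℝ)) =
          ∑ l', ∫ x : Gp Q ℝ, (starRingEnd ℂ) (Ξ x (Quotient.out m)) *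
            inner ℂ (f l' (Quotient.out m)) (ρ.act x (stdOrthonormalBasis ℂ V l')) ∂(hm (Gp Q ℝ)) := by
        intro m
        have e5 : ∀ x : Gp Q ℝ, (starRingEnd ℂ) (Ξ x (Quotient.out m)) * φ j x (Quotient.out m) =
            ∑ l', (starRingEnd ℂ) (Ξ x (Quotient.out m)) *
              inner ℂ (f l' (Quotient.out m)) (ρ.act x (stdOrthonormalBasis ℂ V l')) := by
          intro x
          rw [hf2, Finset.mul_sum]
        simp_rw [e5]
        have hc1 : ∀ l', Continuous fun x : Gp Q ℝ => (starRingEnd ℂ) (Ξ x (Quotient.out m)) *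
            inner ℂ (f l' (Quotient.out m)) (ρ.act x (stdOrthonormalBasis ℂ V l')) :=
          fun l' => (Complex.continuous_conj.comp (coef_cont ρ (hΞ1.2 _))).mul (continuous_const.inner (ρ.cont _))
        exact int_sum _ _ hc1
      simp_rw [e4, Finset.mul_sum]
      rw [Finset.sum_comm (γ := Cls (jG Q Af) K)]
      refine Finset.sum_congr rfl fun l' _ => ?_
      have h5 := hΞ2 (f l') (hf1 l') (stdOrthonormalBasis ℂ V l')
      simp_rw [Finset.mul_sum] at h5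
      exact h5.symm
    -- expansion of Ξ
    obtain ⟨c, hc⟩ := (Submodule.mem_span_range_iff_exists_fun ℂ).1 (hspan Ξ hΞ1)
    have hΞc : ∀ x g', Ξ x g' = ∑ j, c j * φ j x g' := by
      intro x g'
      rw [← hc, Finset.sum_apply, Finset.sum_apply]
      rfl
    have hcj : ∀ j, (starRingEnd ℂ) (Per Q e K (φ j) (ψ j0)) = c j := by
      intro j
      rw [hRiesz]
      have e1 : Ip (jG Q Af) K Ξ (φ j) = ∑ i, (starRingEnd ℂ) (c i) * Ip (jG Q Af) K (φ i) (φ j) := by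
        simp_rw [hIp, Finset.mul_sum]
        rw [Finset.sum_comm]
        refine Finset.sum_congr rfl fun m _ => ?_
        have e2 : ∀ x : Gp Q ℝ, (starRingEnd ℂ) (Ξ x (Quotient.out m)) * φ j x (Quotient.out m) =
            ∑ i, (starRingEnd ℂ) (c i) * ((starRingEnd ℂ) (φ i x (Quotient.out m)) * φ j x (Quotient.out m)) := by
          intro x
          rw [hΞc, map_sum, Finset.sum_mul]
          refine Finset.sum_congr rfl fun i _ => ?_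
          rw [map_mul]
          ring
        simp_rw [e2]
        have hc1 : ∀ i, Continuous fun x : Gp Q ℝ => (starRingEnd ℂ) (c i) *
            ((starRingEnd ℂ) (φ i x (Quotient.out m)) * φ j x (Quotient.out m)) :=
          fun i => continuous_const.mul ((Complex.continuous_conj.comp (hφc i _)).mul (hφc j _))
        rw [int_sum _ _ hc1, Finset.mul_sum]
        refine Finset.sum_congr rfl fun i _ => ?_
        rw [integral_const_mul]
        ring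
      rw [e1]
      simp_rw [hon]
      simp
    have hTc : ∀ j (g' : Gp Q Af), Continuous fun x => TY Q K 𝒴 (φ j) x g' := by
      intro j g'
      have e1 : (fun x => TY Q K 𝒴 (φ j) x g') = fun x => ∑ c' : cs K 𝒴, φ j x (g' * Quotient.out c'.1) := by
        funext x
        exact finsum_eq_sum_of_fintype _
      rw [e1]
      exact continuous_finsetSum _ fun c' _ => hφc j _
    have hTΞ : ∀ x g', TY Q K 𝒴 Ξ x g' = ∑ j, c j * TY Q K 𝒴 (φ j) x g' := by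
      intro x g'
      have e1 : TY Q K 𝒴 Ξ x g' = ∑ c' : cs K 𝒴, Ξ x (g' * Quotient.out c'.1) := finsum_eq_sum_of_fintype _
      have e2 : ∀ j, TY Q K 𝒴 (φ j) x g' = ∑ c' : cs K 𝒴, φ j x (g' * Quotient.out c'.1) :=
        fun j => finsum_eq_sum_of_fintype _
      rw [e1]
      simp_rw [e2, hΞc, Finset.mul_sum]
      rw [Finset.sum_comm]
    have hstep3 : ∑ j, Per Q e K (TY Q K 𝒴 (φ j)) (ψ j0) * (starRingEnd ℂ) (Per Q e K (φ j) (ψ j0)) =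
        Per Q e K (TY Q K 𝒴 Ξ) (ψ j0) := by
      simp_rw [hcj, hPer, Finset.sum_mul]
      rw [Finset.sum_comm]
      refine Finset.sum_congr rfl fun c0 _ => ?_
      have e1 : ∀ x : Hp Q e ℝ, TY Q K 𝒴 Ξ x.1 (zz Q e K c0) * ψ j0 x (Quotient.out c0) =
          ∑ j, c j * (TY Q K 𝒴 (φ j) x.1 (zz Q e K c0) * ψ j0 x (Quotient.out c0)) := by
        intro x
        rw [hTΞ, Finset.sum_mul]
        refine Finset.sum_congr rfl fun j _ => ?_
        ring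
      simp_rw [e1]
      have hc1 : ∀ j, Continuous fun x : Hp Q e ℝ =>
          c j * (TY Q K 𝒴 (φ j) x.1 (zz Q e K c0) * ψ j0 x (Quotient.out c0)) :=
        fun j => continuous_const.mul (((hTc j _).comp hval).mul (hψc j0 _))
      rw [int_sum _ _ hc1, Finset.mul_sum]
      refine Finset.sum_congr rfl fun j _ => ?_
      rw [integral_const_mul]
      ring
    rw [hstep3, hPer]
    -- the Hecke operator on Ξ
    have hTΞ2 : ∀ x g', TY Q K 𝒴 Ξ x g' = (D : ℂ) * ∑ k, inner ℂ (Hk K (cs K 𝒴) (fk k) g') (ρ.act x (a k)) := by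
      intro x g'
      have e1 : TY Q K 𝒴 Ξ x g' = ∑ c' : cs K 𝒴, Ξ x (g' * Quotient.out c'.1) := finsum_eq_sum_of_fintype _
      have e2 : ∀ k, Hk K (cs K 𝒴) (fk k) g' = ∑ c' : cs K 𝒴, fk k (g' * Quotient.out c'.1) :=
        fun k => finsum_eq_sum_of_fintype _
      rw [e1]
      simp_rw [e2, sum_inner]
      rw [Finset.sum_comm, Finset.mul_sum]
    have hint : ∀ c0 : ClH Q e K, ∫ x : Hp Q e ℝ, TY Q K 𝒴 Ξ x.1 (zz Q e K c0) * ψ j0 x (Quotient.out c0) ∂(muH Q e) =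
        (D : ℂ) * ∑ k, inner ℂ (Hk K (cs K 𝒴) (fk k) (zz Q e K c0)) (F j0 k (zz Q e K c0)) := by
      intro c0
      have e1 : ∀ x : Hp Q e ℝ, TY Q K 𝒴 Ξ x.1 (zz Q e K c0) * ψ j0 x (Quotient.out c0) =
          ∑ k, (D : ℂ) * (inner ℂ (Hk K (cs K 𝒴) (fk k) (zz Q e K c0)) (ρ.act x.1 (a k)) * ψ j0 x (Quotient.out c0)) := by
        intro x
        rw [hTΞ2, Finset.mul_sum, Finset.sum_mul]
        refine Finset.sum_congr rfl fun k _ => ?_
        ring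
      simp_rw [e1]
      have hc1 : ∀ k, Continuous fun x : Hp Q e ℝ =>
          (D : ℂ) * (inner ℂ (Hk K (cs K 𝒴) (fk k) (zz Q e K c0)) (ρ.act x.1 (a k)) * ψ j0 x (Quotient.out c0)) :=
        fun k => continuous_const.mul ((continuous_const.inner ((ρ.cont _).comp hval)).mul (hψc j0 _))
      rw [int_sum _ _ hc1, Finset.mul_sum]
      refine Finset.sum_congr rfl fun k _ => ?_
      rw [integral_const_mul, (hFF (ψ j0) (hψ j0)).1 k (Quotient.out c0), hFv _ _ _ (hzz c0)]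
      rfl
    simp_rw [hint]
    have hsw : ∑ c0 : ClH Q e K, (w c0 : ℂ) * ((D : ℂ) * ∑ k, inner ℂ (Hk K (cs K 𝒴) (fk k) (zz Q e K c0)) (F j0 k (zz Q e K c0))) =
        (D : ℂ) * ∑ k, ∑ c0 : ClH Q e K, (w c0 : ℂ) * inner ℂ (Hk K (cs K 𝒴) (fk k) (zz Q e K c0)) (F j0 k (zz Q e K c0)) := by
      rw [Finset.sum_comm, Finset.mul_sum]
      refine Finset.sum_congr rfl fun c0 _ => ?_
      rw [Finset.mul_sum, Finset.mul_sum, Finset.mul_sum]
      refine Finset.sum_congr rfl fun k _ => ?_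
      ring
    rw [hsw]
    have hlm := fun k => hκ3 (F j0 k) (hFeq j0 k)
    have hlm' : ∀ k, ∑ c0 : ClH Q e K, (w c0 : ℂ) * inner ℂ (Hk K (cs K 𝒴) (fk k) (zz Q e K c0)) (F j0 k (zz Q e K c0)) =
        ∑ i, (w i : ℂ) * inner ℂ (FF (muH Q e) ρ (TYH Q e K 𝒴 (ψ j0)) (a k) (Quotient.out i)) (F j0 k (zz Q e K i)) +
        ∑ t, ((w (I t) * w (I' t) : ℝ) : ℂ) * inner ℂ (ρ.act (jG Q ℝ (g t)) (F j0 k (zz Q e K (I t)))) (F j0 k (zz Q e K (I' t))) := by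
      intro k
      refine (hlm k).trans ?_
      congr 1
      refine Finset.sum_congr rfl fun i _ => ?_
      congr 2
      have e1 := (hTH (Gp Q ℚ) (Gp Q ℝ) (Gp Q Af) V W (Hp Q e ℚ) (Hp Q e ℝ) (Hp Q e Af) (jH Q e ℝ) (jH Q e Af) (KH Q e K)
        (muH Q e) ρ σ (resY (Hp Q e Af) 𝒴) hY3 (fun k' hk' y hy => ⟨k' * y, (hY1 y.1 hy k'.1 hk').2, 1, one_mem _, by rw [mul_one]⟩)
        (ψ j0) (hψ j0)).2 (a k) (Quotient.out i)
      refine Eq.trans ?_ e1.symm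
      refine finsum_congr fun c' => ?_
      rw [hFv _ _ _ ((Hp Q e Af).mul_mem (hzz i) (Quotient.out c'.1 : Hp Q e Af).2)]
      rfl
    simp_rw [hlm', Finset.sum_add_distrib, mul_add]
    congr 1
    rw [hPet]
    have hmem := (hTH (Gp Q ℚ) (Gp Q ℝ) (Gp Q Af) V W (Hp Q e ℚ) (Hp Q e ℝ) (Hp Q e Af) (jH Q e ℝ) (jH Q e Af) (KH Q e K)
        (muH Q e) ρ σ (resY (Hp Q e Af) 𝒴) hY3 (fun k' hk' y hy => ⟨k' * y, (hY1 y.1 hy k'.1 hk').2, 1, one_mem _, by rw [mul_one]⟩)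
        (ψ j0) (hψ j0)).1
    rw [Finset.sum_comm, Finset.mul_sum, Finset.mul_sum]
    refine Finset.sum_congr rfl fun i _ => ?_
    have e2 := (hFF _ hmem).2.2.2.2 (ψ j0) (hψ j0) (Quotient.out i)
    have e3 : ∑ k, (w i : ℂ) * inner ℂ (FF (muH Q e) ρ (TYH Q e K 𝒴 (ψ j0)) (a k) (Quotient.out i)) (F j0 k (zz Q e K i)) =
        (w i : ℂ) * ((d : ℂ)⁻¹ * ∫ x : Hp Q e ℝ, (starRingEnd ℂ) (TYH Q e K 𝒴 (ψ j0) x (Quotient.out i)) *
          ψ j0 x (Quotient.out i) ∂(muH Q e)) := by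
      rw [← Finset.mul_sum]
      congr 1
      refine Eq.trans ?_ e2
      refine Finset.sum_congr rfl fun k _ => ?_
      rw [hFv _ _ _ (hzz i)]
      rfl
    rw [e3, div_eq_mul_inv]
    ring
  have hemp : IsEmpty κ := ⟨fun t => by
    obtain ⟨h1, y, hy, h2⟩ := hκ2 t
    exact h1 (hst _ _ y hy _ h2)⟩
  rw [key j1]
  have h0 : ∀ k : Fin d, ∑ t, ((w (I t) * w (I' t) : ℝ) : ℂ) * inner ℂ (ρ.act (jG Q ℝ (g t)) (F j1 k (zz Q e K (I t))))
      (F j1 k (zz Q e K (I' t))) = 0 := fun k => Finset.sum_of_isEmpty _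
  rw [Finset.sum_congr rfl fun k _ => h0 k, Finset.sum_const_zero, mul_zero, add_zero]

private theorem cosets_fin (Q : Matrix (Fin N) (Fin N) ℚ) (K : Subgroup (Gp Q Af)) (hK : IsOpen (K : Set (Gp Q Af)))
    (𝒴 : Set (Gp Q Af)) (hY : IsCompact 𝒴) : (cs K 𝒴).Finite := by
  obtain ⟨b, hb1, hb2, hb3⟩ := hY.elim_finite_subcover_image (b := 𝒴) (c := fun y => {g : Gp Q Af | y⁻¹ * g ∈ K})
    (fun y _ => hK.preimage (continuous_const.mul continuous_id)) (fun y hy => by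
      rw [Set.mem_iUnion₂]
      refine ⟨y, hy, ?_⟩
      change y⁻¹ * y ∈ K
      rw [inv_mul_cancel]
      exact K.one_mem)
  refine (hb2.image (fun y : Gp Q Af => (y : Gp Q Af ⧸ K))).subset ?_
  rintro c ⟨y, hy, rfl⟩
  have h1 := hb3 hy
  rw [Set.mem_iUnion₂] at h1
  obtain ⟨y0, hy0, h2⟩ := h1
  exact ⟨y0, hy0, QuotientGroup.eq.2 h2⟩

private theorem cosetsH_fin (Q : Matrix (Fin N) (Fin N) ℚ) (e : Fin N → ℚ) (K : Subgroup (Gp Q Af)) (𝒴 : Set (Gp Q Af))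
    (h : (cs K 𝒴).Finite) : (cs (KH Q e K) (resY (Hp Q e Af) 𝒴)).Finite := by
  refine Set.Finite.of_injOn (f := fun c : Hp Q e Af ⧸ KH Q e K => (((Quotient.out c : Hp Q e Af) : Gp Q Af) : Gp Q Af ⧸ K)) ?_ ?_ h
  · rintro c ⟨y, hy, rfl⟩
    have h1 : (Quotient.out (y : Hp Q e Af ⧸ KH Q e K))⁻¹ * y ∈ KH Q e K :=
      QuotientGroup.eq.1 (QuotientGroup.out_eq' (y : Hp Q e Af ⧸ KH Q e K))
    refine ⟨y.1, hy, ?_⟩
    exact QuotientGroup.eq.2 h1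
  · intro c _ c' _ hcc
    have h1 : ((Quotient.out c : Hp Q e Af) : Gp Q Af)⁻¹ * ((Quotient.out c' : Hp Q e Af) : Gp Q Af) ∈ K := QuotientGroup.eq.1 hcc
    have h2 : (Quotient.out c : Hp Q e Af)⁻¹ * (Quotient.out c' : Hp Q e Af) ∈ KH Q e K := h1
    calc c = (Quotient.out c : Hp Q e Af) := (QuotientGroup.out_eq' c).symm
      _ = (Quotient.out c' : Hp Q e Af) := QuotientGroup.eq.2 h2
      _ = c' := QuotientGroup.out_eq' c'

private theorem tr_out {Γ A : Type} [Group Γ] [Group A] (jf : Γ →* A) (K : Subgroup A) (g g' y : A) :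
    tr jf K g (g' * y) = tr jf K g (g' * Quotient.out (y : A ⧸ K)) := by
  have h1 : (Quotient.out (y : A ⧸ K))⁻¹ * y ∈ K := QuotientGroup.eq.1 (QuotientGroup.out_eq' (y : A ⧸ K))
  ext γ
  change (g' * y)⁻¹ * (jf γ * g) ∈ K ↔ (g' * Quotient.out (y : A ⧸ K))⁻¹ * (jf γ * g) ∈ K
  have h2 : (g' * Quotient.out (y : A ⧸ K))⁻¹ * (jf γ * g) = ((Quotient.out (y : A ⧸ K))⁻¹ * y) * ((g' * y)⁻¹ * (jf γ * g)) := by
    group
  rw [h2]
  exact (K.mul_mem_cancel_left h1).symm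

private theorem sum3 {A B C : Type} [Fintype A] [Fintype B] [Fintype C] (f : A → B → C → ℕ) (a : A) (b : B) (c : C) :
    f a b c ≤ ∑ a, ∑ b, ∑ c, f a b c := by
  have h1 : f a b c ≤ ∑ c, f a b c := Finset.single_le_sum (f := fun c => f a b c) (fun _ _ => Nat.zero_le _) (Finset.mem_univ c)
  have h2 : ∑ c, f a b c ≤ ∑ b, ∑ c, f a b c :=
    Finset.single_le_sum (f := fun b => ∑ c, f a b c) (fun _ _ => Nat.zero_le _) (Finset.mem_univ b)
  have h3 : ∑ b, ∑ c, f a b c ≤ ∑ a, ∑ b, ∑ c, f a b c :=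
    Finset.single_le_sum (f := fun a => ∑ b, ∑ c, f a b c) (fun _ _ => Nat.zero_le _) (Finset.mem_univ a)
  exact (h1.trans h2).trans h3

private theorem pol {X : Type} [AddCommGroup X] [Module ℂ X] (S B : X → X → ℂ)
    (hS1 : ∀ x y z (c : ℂ), S (x + c • y) z = S x z + c * S y z)
    (hS2 : ∀ x y z (c : ℂ), S x (y + c • z) = S x y + (starRingEnd ℂ) c * S x z)
    (hB1 : ∀ x y z (c : ℂ), B (x + c • y) z = B x z + c * B y z)
    (hB2 : ∀ x y z (c : ℂ), B x (y + c • z) = B x y + (starRingEnd ℂ) c * B x z)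
    (h : ∀ x, S x x = B x x) (x y : X) : S x y = B x y := by
  have h1 := h (x + (1 : ℂ) • y)
  have h2 := h (x + Complex.I • y)
  rw [hS1, hS2, hS2, hB1, hB2, hB2, h x, h y] at h1 h2
  simp only [map_one, Complex.conj_I] at h1 h2
  have e1 : S x y + S y x = B x y + B y x := by linear_combination h1
  have e2 : Complex.I * (S x y - S y x) = Complex.I * (B x y - B y x) := by linear_combination -h2
  have e3 : S x y - S y x = B x y - B y x := mul_left_cancel₀ Complex.I_ne_zero e2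
  linear_combination (e1 + e3) / 2

private theorem int_lin {X : Type} [TopologicalSpace X] [CompactSpace X] [MeasurableSpace X] [BorelSpace X]
    (μ : Measure X) [IsProbabilityMeasure μ] (f g : X → ℂ) (hf : Continuous f) (hg : Continuous g) (c : ℂ) :
    ∫ x, (f x + c * g x) ∂μ = ∫ x, f x ∂μ + c * ∫ x, g x ∂μ := by
  have h2 : Continuous fun x => c * g x := continuous_const.mul hg
  rw [integral_add (hf.integrable_of_hasCompactSupport (HasCompactSupport.of_compactSpace _))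
    (h2.integrable_of_hasCompactSupport (HasCompactSupport.of_compactSpace _)), integral_const_mul]

/-- Linearity of the period. -/
private theorem per_lin (Q : Matrix (Fin N) (Fin N) ℚ) (e : Fin N → ℚ) (K : Subgroup (Gp Q Af)) [Finite (ClH Q e K)]
    [CompactSpace (Hp Q e ℝ)] (θ : Gp Q ℝ → Gp Q Af → ℂ) (hθ : ∀ g, Continuous fun x => θ x g)
    (ψ ψ' : Hp Q e ℝ → Hp Q e Af → ℂ) (hψ : ∀ h, Continuous fun x => ψ x h) (hψ' : ∀ h, Continuous fun x => ψ' x h)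
    (c : ℂ) : Per Q e K θ (ψ + c • ψ') = Per Q e K θ ψ + c * Per Q e K θ ψ' := by
  let _ : MeasurableSpace (Hp Q e ℝ) := borel _
  have _ : BorelSpace (Hp Q e ℝ) := ⟨rfl⟩
  have _ := m_prob Q e
  let _ : Fintype (ClH Q e K) := Fintype.ofFinite _
  have hval : Continuous (Subtype.val : Hp Q e ℝ → Gp Q ℝ) := continuous_subtype_val
  have hP : ∀ ψ' : Hp Q e ℝ → Hp Q e Af → ℂ, Per Q e K θ ψ' =
      ∑ c : ClH Q e K, ((st (⊤ : Subgroup (Hp Q e ℚ)) (jH Q e Af) (KH Q e K) (Quotient.out c) : ℂ))⁻¹ *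
        ∫ x : Hp Q e ℝ, θ x.1 (Quotient.out c).1 * ψ' x (Quotient.out c) ∂(muH Q e) := fun ψ' => finsum_eq_sum_of_fintype _
  rw [hP, hP, hP, Finset.mul_sum, ← Finset.sum_add_distrib]
  refine Finset.sum_congr rfl fun i _ => ?_
  have h1 : ∀ x : Hp Q e ℝ, θ x.1 (Quotient.out i).1 * (ψ + c • ψ') x (Quotient.out i) =
      θ x.1 (Quotient.out i).1 * ψ x (Quotient.out i) + c * (θ x.1 (Quotient.out i).1 * ψ' x (Quotient.out i)) := by
    intro x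
    change θ x.1 (Quotient.out i).1 * (ψ x (Quotient.out i) + c * ψ' x (Quotient.out i)) = _
    ring
  simp_rw [h1]
  have c1 : Continuous fun x : Hp Q e ℝ => θ x.1 (Quotient.out i).1 * ψ x (Quotient.out i) :=
    ((hθ _).comp hval).mul (hψ _)
  have c2 : Continuous fun x : Hp Q e ℝ => θ x.1 (Quotient.out i).1 * ψ' x (Quotient.out i) :=
    ((hθ _).comp hval).mul (hψ' _)
  have h2 := int_lin (muH Q e) _ _ c1 c2 c
  have h3 : ∀ a u x y : ℂ, a * (x + u * y) = a * x + u * (a * y) := by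
    intros
    ring
  exact (congrArg _ h2).trans (h3 _ _ _ _)

private theorem pet_lin (Q : Matrix (Fin N) (Fin N) ℚ) (e : Fin N → ℚ) (K : Subgroup (Gp Q Af)) [Finite (ClH Q e K)]
    [CompactSpace (Hp Q e ℝ)] (θ ψ ψ' : Hp Q e ℝ → Hp Q e Af → ℂ) (hθ : ∀ h, Continuous fun x => θ x h)
    (hψ : ∀ h, Continuous fun x => ψ x h) (hψ' : ∀ h, Continuous fun x => ψ' x h) (c : ℂ) :
    Pet Q e K θ (ψ + c • ψ') = Pet Q e K θ ψ + c * Pet Q e K θ ψ' ∧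
    Pet Q e K (ψ + c • ψ') θ = Pet Q e K ψ θ + (starRingEnd ℂ) c * Pet Q e K ψ' θ := by
  let _ : MeasurableSpace (Hp Q e ℝ) := borel _
  have _ : BorelSpace (Hp Q e ℝ) := ⟨rfl⟩
  have _ := m_prob Q e
  let _ : Fintype (ClH Q e K) := Fintype.ofFinite _
  have hP : ∀ θ ψ' : Hp Q e ℝ → Hp Q e Af → ℂ, Pet Q e K θ ψ' =
      ∑ c : ClH Q e K, ((st (⊤ : Subgroup (Hp Q e ℚ)) (jH Q e Af) (KH Q e K) (Quotient.out c) : ℂ))⁻¹ *
        ∫ x : Hp Q e ℝ, (starRingEnd ℂ) (θ x (Quotient.out c)) * ψ' x (Quotient.out c) ∂(muH Q e) :=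
    fun θ ψ' => finsum_eq_sum_of_fintype _
  constructor
  · rw [hP, hP, hP, Finset.mul_sum, ← Finset.sum_add_distrib]
    refine Finset.sum_congr rfl fun i _ => ?_
    have h1 : ∀ x : Hp Q e ℝ, (starRingEnd ℂ) (θ x (Quotient.out i)) * (ψ + c • ψ') x (Quotient.out i) =
        (starRingEnd ℂ) (θ x (Quotient.out i)) * ψ x (Quotient.out i) +
          c * ((starRingEnd ℂ) (θ x (Quotient.out i)) * ψ' x (Quotient.out i)) := by
      intro x
      change (starRingEnd ℂ) (θ x (Quotient.out i)) * (ψ x (Quotient.out i) + c * ψ' x (Quotient.out i)) = _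
      ring
    simp_rw [h1]
    have c1 : Continuous fun x : Hp Q e ℝ => (starRingEnd ℂ) (θ x (Quotient.out i)) * ψ x (Quotient.out i) :=
      (Complex.continuous_conj.comp (hθ _)).mul (hψ _)
    have c2 : Continuous fun x : Hp Q e ℝ => (starRingEnd ℂ) (θ x (Quotient.out i)) * ψ' x (Quotient.out i) :=
      (Complex.continuous_conj.comp (hθ _)).mul (hψ' _)
    have h2 := int_lin (muH Q e) _ _ c1 c2 c
    have h3 : ∀ a u x y : ℂ, a * (x + u * y) = a * x + u * (a * y) := by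
      intros
      ring
    exact (congrArg _ h2).trans (h3 _ _ _ _)
  · rw [hP, hP, hP, Finset.mul_sum, ← Finset.sum_add_distrib]
    refine Finset.sum_congr rfl fun i _ => ?_
    have h1 : ∀ x : Hp Q e ℝ, (starRingEnd ℂ) ((ψ + c • ψ') x (Quotient.out i)) * θ x (Quotient.out i) =
        (starRingEnd ℂ) (ψ x (Quotient.out i)) * θ x (Quotient.out i) +
          (starRingEnd ℂ) c * ((starRingEnd ℂ) (ψ' x (Quotient.out i)) * θ x (Quotient.out i)) := by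
      intro x
      change (starRingEnd ℂ) (ψ x (Quotient.out i) + c * ψ' x (Quotient.out i)) * θ x (Quotient.out i) = _
      rw [map_add, map_mul]
      ring
    simp_rw [h1]
    have c1 : Continuous fun x : Hp Q e ℝ => (starRingEnd ℂ) (ψ x (Quotient.out i)) * θ x (Quotient.out i) :=
      (Complex.continuous_conj.comp (hψ _)).mul (hθ _)
    have c2 : Continuous fun x : Hp Q e ℝ => (starRingEnd ℂ) (ψ' x (Quotient.out i)) * θ x (Quotient.out i) :=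
      (Complex.continuous_conj.comp (hψ' _)).mul (hθ _)
    have h2 := int_lin (muH Q e) _ _ c1 c2 ((starRingEnd ℂ) c)
    have h3 : ∀ a u x y : ℂ, a * (x + u * y) = a * x + u * (a * y) := by
      intros
      ring
    exact (congrArg _ h2).trans (h3 _ _ _ _)

private theorem tyh_lin (Q : Matrix (Fin N) (Fin N) ℚ) (e : Fin N → ℚ) (K : Subgroup (Gp Q Af)) (𝒴 : Set (Gp Q Af))
    (h : (cs (KH Q e K) (resY (Hp Q e Af) 𝒴)).Finite) (ψ ψ' : Hp Q e ℝ → Hp Q e Af → ℂ) (c : ℂ) :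
    TYH Q e K 𝒴 (ψ + c • ψ') = TYH Q e K 𝒴 ψ + c • TYH Q e K 𝒴 ψ' := by
  let _ : Fintype (cs (KH Q e K) (resY (Hp Q e Af) 𝒴)) := h.fintype
  have hT : ∀ ψ : Hp Q e ℝ → Hp Q e Af → ℂ, ∀ x g, TYH Q e K 𝒴 ψ x g =
      ∑ c' : cs (KH Q e K) (resY (Hp Q e Af) 𝒴), ψ x (g * Quotient.out c'.1) := fun ψ x g => finsum_eq_sum_of_fintype _
  funext x g
  change TYH Q e K 𝒴 (ψ + c • ψ') x g = TYH Q e K 𝒴 ψ x g + c * TYH Q e K 𝒴 ψ' x g
  rw [hT, hT, hT, Finset.mul_sum, ← Finset.sum_add_distrib]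
  rfl

/-- The stable range: no rational element outside `H` is in `H(Af) 𝒴 H(Af)`. -/
def Sta (Q : Matrix (Fin N) (Fin N) ℚ) (e : Fin N → ℚ) (𝒴 : Set (Gp Q Af)) : Prop :=
  ∀ γ : Gp Q ℚ, ∀ h ∈ Hp Q e Af, ∀ h' ∈ Hp Q e Af, ∀ y ∈ 𝒴, jG Q Af γ = h * y * h' → γ ∈ Hp Q e ℚ

/-- **STA.** -/
def C_STA : Prop :=
  ∀ (N : ℕ) (Q : Matrix (Fin N) (Fin N) ℚ) (e : Fin N → ℚ) (K : Subgroup (Gp Q Af)) (𝒴 : Set (Gp Q Af)), PQ Q →
    IsOpen (K : Set (Gp Q Af)) → IsCompact (K : Set (Gp Q Af)) → IsCompact 𝒴 →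
    (∀ y ∈ 𝒴, ∀ k ∈ K, y * k ∈ 𝒴 ∧ k * y ∈ 𝒴) → Sta Q e 𝒴 →
    ∀ (V W : Type) [NormedAddCommGroup V] [InnerProductSpace ℂ V] [FiniteDimensional ℂ V]
      [NormedAddCommGroup W] [InnerProductSpace ℂ W] [FiniteDimensional ℂ W]
      (ρ : URep (Gp Q ℝ) V) (σ : URep (Hp Q e ℝ) W) (l : V →ₗ[ℂ] W →ₗ[ℂ] ℂ), ρ.Irr → σ.Irr → l ≠ 0 →
      (∀ (x : Hp Q e ℝ) (v : V) (w : W), l (ρ.act x v) (σ.act x w) = l v w) →
      (∀ l' : V →ₗ[ℂ] W →ₗ[ℂ] ℂ, (∀ (x : Hp Q e ℝ) v w, l' (ρ.act x v) (σ.act x w) = l' v w) → ∃ c : ℂ, l' = c • l) →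
      ∀ (r : ℕ) (φ : Fin r → Gp Q ℝ → Gp Q Af → ℂ), (∀ j, φ j ∈ AG Q K ρ) →
        (∀ f ∈ AG Q K ρ, f ∈ Submodule.span ℂ (Set.range φ)) →
        (∀ i j, Ip (jG Q Af) K (φ i) (φ j) = if i = j then 1 else 0) →
        ∀ ψ ∈ AH Q e K σ, ∀ ψ' ∈ AH Q e K σ,
          ∑ j, Per Q e K (TY Q K 𝒴 (φ j)) ψ * (starRingEnd ℂ) (Per Q e K (φ j) ψ') =
            ((Module.finrank ℂ V : ℂ) / Module.finrank ℂ W) * Pet Q e K (TYH Q e K 𝒴 ψ') ψ

/-- **Assembly.** -/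
theorem tSTA : C_BG → C_BF4 → C_Rz → C_LM → C_TH → C_GR1 → C_GR3 → C_CN4 → C_STA := by
  intro hBG hBF4 hRz hLM hTH hGR1 hGR3 hCN4 N Q e K 𝒴 hQ hKo hKc hYc hY1 hSt V W _ _ _ _ _ _ ρ σ l hρ hσ hl hinv huniq
    r φ hφ hspan hon
  classical
  have hfH : Finite (ClH Q e K) := hCN4 N Q e K hQ hKo
  have hfG : Finite (Cls (jG Q Af) K) := clsG_fin Q K (hCN4 N Q 0 K hQ hKo)
  obtain ⟨cG, cH, -⟩ := hGR1 N Q e hQ
  have hfin := hGR3 N Q K hQ hKc
  have hY2 := cosets_fin Q K hKo 𝒴 hYc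
  have hY3 := cosetsH_fin Q e K 𝒴 hY2
  let _ : Fintype (ClH Q e K) := Fintype.ofFinite _
  let _ : Fintype (cs K 𝒴) := hY2.fintype
  let n1 : ℕ := ∑ c : ClH Q e K, ∑ c' : ClH Q e K, ∑ q : cs K 𝒴,
    (tr (jG Q Af) K (zz Q e K c) (zz Q e K c' * Quotient.out q.1)).ncard
  have hn1 : ∀ c c' : ClH Q e K, ∀ y ∈ 𝒴, (tr (jG Q Af) K (zz Q e K c) (zz Q e K c' * y)).ncard ≤ n1 := by
    intro c c' y hy
    rw [tr_out]
    exact sum3 (fun c c' (q : cs K 𝒴) => (tr (jG Q Af) K (zz Q e K c) (zz Q e K c' * Quotient.out q.1)).ncard) c c'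
      ⟨_, ⟨y, hy, rfl⟩⟩
  have hst : ∀ c c' : ClH Q e K, ∀ y ∈ 𝒴, ∀ γ ∈ tr (jG Q Af) K (zz Q e K c) (zz Q e K c' * y), γ ∈ Hp Q e ℚ := by
    intro c c' y hy γ hγ
    have hk : (zz Q e K c' * y)⁻¹ * (jG Q Af γ * zz Q e K c) ∈ K := hγ
    refine hSt γ (zz Q e K c') (Quotient.out c' : Hp Q e Af).2 (zz Q e K c)⁻¹ ((Quotient.out c : Hp Q e Af)⁻¹).2
      (y * ((zz Q e K c' * y)⁻¹ * (jG Q Af γ * zz Q e K c))) (hY1 y hy _ hk).1 ?_
    group
  have hdiag : ∀ ψ ∈ AH Q e K σ, ∑ j, Per Q e K (TY Q K 𝒴 (φ j)) ψ * (starRingEnd ℂ) (Per Q e K (φ j) ψ) =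
      ((Module.finrank ℂ V : ℂ) / Module.finrank ℂ W) * Pet Q e K (TYH Q e K 𝒴 ψ) ψ := by
    intro ψ hψ
    exact core5 hBG hBF4 hRz hLM hTH Q e K cG cH hfin hfH hfG 𝒴 hY1 hY2 hY3 n1 hn1 ρ σ l hρ hσ hl hinv huniq hst
      r φ hφ hspan hon 1 (fun _ => ψ) (fun _ => hψ) 0
  have hφc : ∀ j (g' : Gp Q Af), Continuous fun x => φ j x g' := fun j g' => coef_cont ρ ((hφ j).2 g')
  have hTc : ∀ j (g' : Gp Q Af), Continuous fun x => TY Q K 𝒴 (φ j) x g' := by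
    intro j g'
    have e1 : (fun x => TY Q K 𝒴 (φ j) x g') = fun x => ∑ c' : cs K 𝒴, φ j x (g' * Quotient.out c'.1) := by
      funext x
      exact finsum_eq_sum_of_fintype _
    rw [e1]
    exact continuous_finsetSum _ fun c' _ => hφc j _
  have hψc : ∀ ψ ∈ AH Q e K σ, ∀ h : Hp Q e Af, Continuous fun x => ψ x h := fun ψ hψ h => coef_cont σ (hψ.2 h)
  let _ : Fintype (cs (KH Q e K) (resY (Hp Q e Af) 𝒴)) := hY3.fintype
  have hTYc : ∀ ψ ∈ AH Q e K σ, ∀ h : Hp Q e Af, Continuous fun x => TYH Q e K 𝒴 ψ x h := by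
    intro ψ hψ h
    have e1 : (fun x => TYH Q e K 𝒴 ψ x h) =
        fun x => ∑ c' : cs (KH Q e K) (resY (Hp Q e Af) 𝒴), ψ x (h * Quotient.out c'.1) := by
      funext x
      exact finsum_eq_sum_of_fintype _
    rw [e1]
    exact continuous_finsetSum _ fun c' _ => hψc ψ hψ _
  intro ψ hψ ψ' hψ'
  refine pol (X := AH Q e K σ)
    (fun a b => ∑ j, Per Q e K (TY Q K 𝒴 (φ j)) a.1 * (starRingEnd ℂ) (Per Q e K (φ j) b.1))
    (fun a b => ((Module.finrank ℂ V : ℂ) / Module.finrank ℂ W) * Pet Q e K (TYH Q e K 𝒴 b.1) a.1)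
    ?_ ?_ ?_ ?_ (fun a => hdiag a.1 a.2) ⟨ψ, hψ⟩ ⟨ψ', hψ'⟩
  · intro x y z c
    change ∑ j, Per Q e K (TY Q K 𝒴 (φ j)) (x.1 + c • y.1) * (starRingEnd ℂ) (Per Q e K (φ j) z.1) = _
    rw [Finset.mul_sum, ← Finset.sum_add_distrib]
    refine Finset.sum_congr rfl fun j _ => ?_
    rw [per_lin Q e K _ (hTc j) _ _ (hψc _ x.2) (hψc _ y.2)]
    ring
  · intro x y z c
    change ∑ j, Per Q e K (TY Q K 𝒴 (φ j)) x.1 * (starRingEnd ℂ) (Per Q e K (φ j) (y.1 + c • z.1)) = _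
    rw [Finset.mul_sum, ← Finset.sum_add_distrib]
    refine Finset.sum_congr rfl fun j _ => ?_
    rw [per_lin Q e K _ (hφc j) _ _ (hψc _ y.2) (hψc _ z.2), map_add, map_mul]
    ring
  · intro x y z c
    change ((Module.finrank ℂ V : ℂ) / Module.finrank ℂ W) * Pet Q e K (TYH Q e K 𝒴 z.1) (x.1 + c • y.1) = _
    rw [(pet_lin Q e K _ _ _ (hTYc _ z.2) (hψc _ x.2) (hψc _ y.2) c).1]
    ring
  · intro x y z c
    change ((Module.finrank ℂ V : ℂ) / Module.finrank ℂ W) * Pet Q e K (TYH Q e K 𝒴 (y.1 + c • z.1)) x.1 = _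
    rw [tyh_lin Q e K 𝒴 hY3, (pet_lin Q e K _ _ _ (hψc _ x.2) (hTYc _ y.2) (hTYc _ z.2) c).2]
    ring

end Pool.Agent.GP
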