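import Pool.Agent.Lib.GP.Spec2

/-!
# Theorem GPE, module NbI: the identity and inverses of neighbours (helper67)
-/

set_option autoImplicit false

open IsDedekindDomain Matrix MeasureTheory

noncomputable section

namespace Pool.Agent.GP

variable {N : ℕ}

/-- A rational number with denominator prime to `p` is integral at `vp p`. -/
theorem NbI_rat {p : Nat.Primes} {q : ℚ} (h : ¬ (p : ℕ) ∣ q.den) :
    algebraMap ℚ ((vp p).adicCompletion ℚ) q ∈ (vp p).adicCompletionIntegers ℚ := by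
  rw [HeightOneSpectrum.mem_adicCompletionIntegers]
  refine (HeightOneSpectrum.valuedAdicCompletion_eq_valuation' (vp p) q).le.trans ?_
  rw [Rat.valuation_le_one_iff_den]
  intro h1
  apply h
  have h2 : ((q.den : ℕ) : ℤ) ∈ Ideal.span {((p : ℕ) : ℤ)} := h1
  rw [Ideal.mem_span_singleton] at h2
  exact_mod_cast h2

/-- The inverse of an adelic isometry. -/
theorem NbI_inv {Q : Matrix (Fin N) (Fin N) ℚ} (hQ : Q.det ≠ 0) (y : Gp Q Af) :
    (y⁻¹).1.1 = (Q⁻¹).map (algebraMap ℚ Af) * (y.1.1)ᵀ * Q.map (algebraMap ℚ Af) := by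
  have h1 : y.1.1ᵀ * Q.map (algebraMap ℚ Af) * y.1.1 = Q.map (algebraMap ℚ Af) := y.2
  have h2 : y.1.1 * (y⁻¹).1.1 = 1 := congrArg (fun z : Gp Q Af => z.1.1) (mul_inv_cancel y)
  have h3 : (Q⁻¹).map (algebraMap ℚ Af) * Q.map (algebraMap ℚ Af) = 1 := by
    rw [← Matrix.map_mul, Matrix.nonsing_inv_mul _ (isUnit_iff_ne_zero.2 hQ)]
    exact Matrix.map_one _ (map_zero _) (map_one _)
  calc (y⁻¹).1.1 = ((Q⁻¹).map (algebraMap ℚ Af) * Q.map (algebraMap ℚ Af)) * (y⁻¹).1.1 := by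
        rw [h3, Matrix.one_mul]
    _ = (Q⁻¹).map (algebraMap ℚ Af) * (y.1.1ᵀ * Q.map (algebraMap ℚ Af) * y.1.1) * (y⁻¹).1.1 := by
        rw [h1]
    _ = (Q⁻¹).map (algebraMap ℚ Af) * (y.1.1)ᵀ * Q.map (algebraMap ℚ Af) * (y.1.1 * (y⁻¹).1.1) := by
        simp only [Matrix.mul_assoc]
    _ = _ := by rw [h2, Matrix.mul_one]

theorem NbI_loc {Q : Matrix (Fin N) (Fin N) ℚ} {p : Nat.Primes} {y : Gp Q Af} (hy : y ∈ Loc Q p)
    {v : HeightOneSpectrum ℤ} (hv : v ≠ vp p) (i j : Fin N) :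
    (y.1.1 i j) v = (1 : Matrix (Fin N) (Fin N) (v.adicCompletion ℚ)) i j := by
  have h := hy v hv
  have h1 := congrArg (fun z : SpecialLinearGroup (Fin N) (v.adicCompletion ℚ) => z.1 i j) h
  exact h1

private theorem one_mem_int (v : HeightOneSpectrum ℤ) (i j : Fin N) :
    (1 : Matrix (Fin N) (Fin N) (v.adicCompletion ℚ)) i j ∈ v.adicCompletionIntegers ℚ := by
  rw [Matrix.one_apply]
  split
  · exact one_mem _
  · exact zero_mem _

theorem tNbI : S_NbI := by
  intro hMn N Q e K p hs hQ hG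
  constructor
  · refine ⟨one_mem _, fun i j => ?_, fun i j k l => ?_⟩
    · refine mul_mem (natCast_mem _ _) ?_
      change (1 : Matrix (Fin N) (Fin N) Af) i j ∈ Zh
      rw [Matrix.one_apply]
      split
      · exact one_mem _
      · exact zero_mem _
    · have h : ∀ i j : Fin N, (1 : Matrix (Fin N) (Fin N) Af) i j ∈ Zh := by
        intro i j
        rw [Matrix.one_apply]
        split
        · exact one_mem _
        · exact zero_mem _
      exact mul_mem (natCast_mem _ _) (sub_mem (mul_mem (h i j) (h k l)) (mul_mem (h i l) (h k j)))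
  · intro y hy
    obtain ⟨hy1, hy2, hy3⟩ := hy
    have hy' : y⁻¹ ∈ Loc Q p := inv_mem hy1
    have key := hMn N ((vp p).adicCompletion ℚ) ((vp p).adicCompletionIntegers ℚ).toSubring
      ((p : ℕ) : (vp p).adicCompletion ℚ) ((Q⁻¹).map (algebraMap ℚ ((vp p).adicCompletion ℚ)))
      ((y.1.1.map (ev (vp p)))ᵀ) (Q.map (algebraMap ℚ ((vp p).adicCompletion ℚ)))
      (fun i j => NbI_rat (hG.q2 i j)) (fun i j => NbI_rat (hG.q1 i j))
      (fun i j => hy2 j i (vp p)) (fun i j k l => by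
        have h := hy3 j i l k (vp p)
        have e1 : ((p : ℕ) : (vp p).adicCompletion ℚ) *
            (((y.1.1.map (ev (vp p)))ᵀ) i j * ((y.1.1.map (ev (vp p)))ᵀ) k l -
              ((y.1.1.map (ev (vp p)))ᵀ) i l * ((y.1.1.map (ev (vp p)))ᵀ) k j) =
            (((p : ℕ) : Af) * (y.1.1 j i * y.1.1 l k - y.1.1 j k * y.1.1 l i)) (vp p) := by
          change ((p : ℕ) : (vp p).adicCompletion ℚ) *
            ((y.1.1 j i) (vp p) * (y.1.1 l k) (vp p) - (y.1.1 l i) (vp p) * (y.1.1 j k) (vp p)) =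
            ((p : ℕ) : (vp p).adicCompletion ℚ) *
            ((y.1.1 j i) (vp p) * (y.1.1 l k) (vp p) - (y.1.1 j k) (vp p) * (y.1.1 l i) (vp p))
          ring
        rw [e1]
        exact h)
    have e2 : (Q⁻¹).map (algebraMap ℚ ((vp p).adicCompletion ℚ)) * ((y.1.1.map (ev (vp p)))ᵀ) *
        Q.map (algebraMap ℚ ((vp p).adicCompletion ℚ)) = (y⁻¹).1.1.map (ev (vp p)) := by
      rw [NbI_inv hQ y, Matrix.map_mul, Matrix.map_mul]
      rfl
    rw [e2] at key
    refine ⟨hy', fun i j v => ?_, fun i j k l v => ?_⟩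
    · by_cases hv : v = vp p
      · subst hv
        exact key.1 i j
      · change ((p : ℕ) : v.adicCompletion ℚ) * ((y⁻¹).1.1 i j) v ∈ v.adicCompletionIntegers ℚ
        rw [NbI_loc hy' hv]
        exact mul_mem (natCast_mem _ _) (one_mem_int v i j)
    · by_cases hv : v = vp p
      · subst hv
        exact key.2 i j k l
      · change ((p : ℕ) : v.adicCompletion ℚ) * (((y⁻¹).1.1 i j) v * ((y⁻¹).1.1 k l) v -
          ((y⁻¹).1.1 i l) v * ((y⁻¹).1.1 k j) v) ∈ v.adicCompletionIntegers ℚ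
        rw [NbI_loc hy' hv, NbI_loc hy' hv, NbI_loc hy' hv, NbI_loc hy' hv]
        exact mul_mem (natCast_mem _ _) (sub_mem (mul_mem (one_mem_int v i j) (one_mem_int v k l))
          (mul_mem (one_mem_int v i l) (one_mem_int v k j)))

end Pool.Agent.GP
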