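import Pool.Agent.Lib.GP.StaN
import Pool.Agent.Lib.GP.NbI

/-!
# The stable range for levels `k e ≡ e mod M` (author helper25)
-/

set_option autoImplicit false

open IsDedekindDomain Matrix MeasureTheory

noncomputable section

namespace Pool.Agent.GP

variable {N : ℕ}

/-- The adeles which are integral at `v`. -/
private def Rv (v : HeightOneSpectrum ℤ) : Subring Af := ((v.adicCompletionIntegers ℚ).toSubring).comap (ev v)

private theorem Rv_mem (v : HeightOneSpectrum ℤ) (a : Af) : a ∈ Rv v ↔ a v ∈ v.adicCompletionIntegers ℚ := Iff.rfl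

private theorem Zh_iff (a : Af) : a ∈ Zh ↔ ∀ v, a ∈ Rv v := Iff.rfl

private theorem mv_mem {R : Type} [CommRing R] (S : Subring R) {A : Matrix (Fin N) (Fin N) R} {x : Fin N → R}
    (hA : ∀ i j, A i j ∈ S) (hx : ∀ i, x i ∈ S) (i : Fin N) : (A *ᵥ x) i ∈ S := by
  change ∑ j, A i j * x j ∈ S
  exact S.sum_mem fun j _ => S.mul_mem (hA i j) (hx j)

private theorem bq_mem {R : Type} [CommRing R] [Algebra ℚ R] (S : Subring R) {Q : Matrix (Fin N) (Fin N) ℚ}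
    (hQ : ∀ i j, algebraMap ℚ R (Q i j) ∈ S) {x y : Fin N → R} (hx : ∀ i, x i ∈ S) (hy : ∀ i, y i ∈ S) : bq Q x y ∈ S := by
  change ∑ i, x i * (Q.map (algebraMap ℚ R) *ᵥ y) i ∈ S
  exact S.sum_mem fun i _ => S.mul_mem (hx i) (mv_mem S hQ hy i)

private theorem ev_mv (v : HeightOneSpectrum ℤ) (A : Matrix (Fin N) (Fin N) Af) {x x' : Fin N → Af}
    (h : ∀ i, ev v (x i) = ev v (x' i)) (i : Fin N) : ev v ((A *ᵥ x) i) = ev v ((A *ᵥ x') i) := by
  change ev v (∑ j, A i j * x j) = ev v (∑ j, A i j * x' j)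
  rw [map_sum, map_sum]
  refine Finset.sum_congr rfl fun j _ => ?_
  rw [map_mul, map_mul, h]

private theorem ev_g (v : HeightOneSpectrum ℤ) {Q : Matrix (Fin N) (Fin N) ℚ} (g : Gp Q Af) (hg : evG Q v g = 1)
    (x : Fin N → Af) (i : Fin N) : ev v ((g.1.1 *ᵥ x) i) = ev v (x i) := by
  change ev v (∑ j, g.1.1 i j * x j) = _
  rw [map_sum]
  have h1 : ∀ j, ev v (g.1.1 i j * x j) = (1 : Matrix (Fin N) (Fin N) (v.adicCompletion ℚ)) i j * ev v (x j) := by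
    intro j
    rw [map_mul]
    congr 1
    exact congrArg (fun z : SpecialLinearGroup (Fin N) (v.adicCompletion ℚ) => z.1 i j) hg
  rw [Finset.sum_congr rfl fun j _ => h1 j]
  have h2 := congrFun (Matrix.one_mulVec (fun j => ev v (x j))) i
  exact h2

private theorem ev_bq (v : HeightOneSpectrum ℤ) (Q : Matrix (Fin N) (Fin N) ℚ) (a : Fin N → Af) {x x' : Fin N → Af}
    (h : ∀ i, ev v (x i) = ev v (x' i)) : ev v (bq Q a x) = ev v (bq Q a x') := by
  change ev v (∑ j, a j * (Q.map (algebraMap ℚ Af) *ᵥ x) j) = ev v (∑ j, a j * (Q.map (algebraMap ℚ Af) *ᵥ x') j)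
  rw [map_sum, map_sum]
  refine Finset.sum_congr rfl fun j _ => ?_
  rw [map_mul, map_mul, ev_mv v _ h]

private theorem bq_sym {R : Type} [CommRing R] [Algebra ℚ R] (Q : Matrix (Fin N) (Fin N) ℚ) (hQ : Q.IsSymm)
    (x y : Fin N → R) : bq Q y x = bq Q x y := by
  unfold bq
  rw [dotProduct_mulVec, ← mulVec_transpose, dotProduct_comm]
  have e : (Q.map (algebraMap ℚ R))ᵀ = Q.map (algebraMap ℚ R) := by
    have e0 : (Q.map (algebraMap ℚ R))ᵀ = Qᵀ.map (algebraMap ℚ R) := rfl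
    rw [e0, hQ]
  rw [e]

private theorem bq_addr {R : Type} [CommRing R] [Algebra ℚ R] (Q : Matrix (Fin N) (Fin N) ℚ) (x y z : Fin N → R) :
    bq Q x (y + z) = bq Q x y + bq Q x z := by
  unfold bq
  rw [mulVec_add, dotProduct_add]

private theorem bq_smulr {R : Type} [CommRing R] [Algebra ℚ R] (Q : Matrix (Fin N) (Fin N) ℚ) (x y : Fin N → R) (c : R) :
    bq Q x (c • y) = c * bq Q x y := by
  unfold bq
  rw [mulVec_smul, dotProduct_smul, smul_eq_mul]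

private theorem bq_inv' {R : Type} [CommRing R] [Algebra ℚ R] (Q : Matrix (Fin N) (Fin N) ℚ) (g : Gp Q R) (x y : Fin N → R) :
    bq Q (g.1.1 *ᵥ x) (g.1.1 *ᵥ y) = bq Q x y := by
  have h : g.1.1ᵀ * Q.map (algebraMap ℚ R) * g.1.1 = Q.map (algebraMap ℚ R) := g.2
  have h1 : g.1.1ᵀ *ᵥ (Q.map (algebraMap ℚ R) *ᵥ (g.1.1 *ᵥ y)) = Q.map (algebraMap ℚ R) *ᵥ y := by
    rw [mulVec_mulVec, mulVec_mulVec, h]
  unfold bq
  rw [← vecMul_transpose, ← dotProduct_mulVec, h1]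

/-- `2 (⟨e, k e⟩ - ⟨e, e⟩) = - M² ⟨z, z⟩` if `k e = e + M z`. -/
theorem lev_sq (Q : Matrix (Fin N) (Fin N) ℚ) (hQ : Q.IsSymm) (e : Fin N → ℚ) (k : Gp Q Af) (M : ℕ) (z : Fin N → Af)
    (h : k.1.1 *ᵥ ve e Af = ve e Af + (M : Af) • z) :
    2 * (bq Q (ve e Af) (k.1.1 *ᵥ ve e Af) - bq Q (ve e Af) (ve e Af)) = -((M : Af) ^ 2 * bq Q z z) := by
  have h1 := bq_inv' Q k (ve e Af) (ve e Af)
  have h2 : bq Q (ve e Af + (M : Af) • z) (ve e Af + (M : Af) • z) =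
      bq Q (ve e Af) (ve e Af) + 2 * ((M : Af) * bq Q (ve e Af) z) + (M : Af) ^ 2 * bq Q z z := by
    rw [bq_addr, bq_smulr, bq_sym Q hQ (ve e Af) (ve e Af + (M : Af) • z), bq_sym Q hQ z (ve e Af + (M : Af) • z),
      bq_addr, bq_smulr, bq_addr, bq_smulr, bq_sym Q hQ (ve e Af) z]
    ring
  rw [h, h2] at h1
  rw [h, bq_addr, bq_smulr]
  linear_combination h1

/-- **The stable range** for neighbours. -/
theorem lev_sta (hAD2 : C_AD2) (hNbI : C_NbI) (Q : Matrix (Fin N) (Fin N) ℚ) (e : Fin N → ℚ) (hQ : PQ Q)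
    (hQd : Q.det ≠ 0) (hQi : ∀ i j, algebraMap ℚ Af (Q i j) ∈ Zh) (hei : ∀ i, ve e Af i ∈ Zh) (K : Subgroup (Gp Q Af))
    (M : ℕ) (hM : 0 < M)
    (hKe : ∀ k ∈ K, ∃ z : Fin N → Af, (∀ i, z i ∈ Zh) ∧ k.1.1 *ᵥ ve e Af = ve e Af + (M : Af) • z)
    (p p' : Nat.Primes) (hp : Gd Q e K p) (hp' : Gd Q e K p') (hpM : ¬ (p : ℕ) ∣ M) (hpM' : ¬ (p' : ℕ) ∣ M)
    (hlt : 4 * ((p : ℕ) * (p' : ℕ) : ℕ) * bq Q e e < (M : ℚ) ^ 2) (y : Gp Q Af) (hy : y ∈ Nb Q p) (y' : Gp Q Af)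
    (hy' : y' ∈ Nb Q p') (h : Gp Q Af) (hh : h ∈ Hp Q e Af) (h' : Gp Q Af) (hh' : h' ∈ Hp Q e Af) (γ : Gp Q ℚ)
    (hγ : γ ∈ tr (jG Q Af) K (h * y) (h' * y')) : γ ∈ Hp Q e ℚ := by
  have hk : (h' * y')⁻¹ * (jG Q Af γ * (h * y)) ∈ K := hγ
  set k := (h' * y')⁻¹ * (jG Q Af γ * (h * y)) with hkd
  have hyi := (hNbI N Q e K p hQ.1 hQd hp).2 y hy
  have hMq : (M : ℚ) ≠ 0 := by exact_mod_cast hM.ne'
  obtain ⟨z, hz, hkz⟩ := hKe k hk
  have hsq := lev_sq Q hQ.1 e k M z hkz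
  have hS := sta_num hAD2 Q e hQ {y' * k * y⁻¹} (2 * ((p : ℕ) * (p' : ℕ))) (M ^ 2)
    (by have := p.2.pos; have := p'.2.pos; positivity)
    (by
      push_cast
      push_cast at hlt
      linarith)
    (by
      intro Y hY
      rw [Set.mem_singleton_iff] at hY
      subst hY
      set D := bq Q (ve e Af) ((y' * k * y⁻¹).1.1 *ᵥ ve e Af) - bq Q (ve e Af) (ve e Af) with hD
      have hMA : algebraMap ℚ Af ((M : ℚ) ^ 2)⁻¹ * ((M : Af) ^ 2) = 1 := by
        rw [← map_natCast (algebraMap ℚ Af) M, ← map_pow, ← map_mul, inv_mul_cancel₀ (pow_ne_zero 2 hMq), map_one]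
      refine ⟨algebraMap ℚ Af ((M : ℚ) ^ 2)⁻¹ * (((2 * ((p : ℕ) * (p' : ℕ)) : ℕ) : Af) * D), ?_, ?_⟩
      · rw [Zh_iff]
        intro v
        -- integrality at the places of p and p'
        have hbad : (v = vp p ∨ v = vp p') →
            algebraMap ℚ Af ((M : ℚ) ^ 2)⁻¹ * (((2 * ((p : ℕ) * (p' : ℕ)) : ℕ) : Af) * D) ∈ Rv v := by
          intro hv
          have hkv : ∀ i j, k.1.1 i j ∈ Rv v := by
            rcases hv with rfl | rfl
            · exact hp.k1 k hk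
            · exact hp'.k1 k hk
          have hMv : algebraMap ℚ Af ((M : ℚ) ^ 2)⁻¹ ∈ Rv v := by
            have key : ∀ q : Nat.Primes, ¬ (q : ℕ) ∣ M → algebraMap ℚ Af ((M : ℚ) ^ 2)⁻¹ ∈ Rv (vp q) := by
              intro q hq
              have h1 : ¬ (q : ℕ) ∣ (((M : ℚ) ^ 2)⁻¹).den := by
                have h2 : (((M : ℚ) ^ 2)⁻¹).den = M ^ 2 := by
                  have h3 : ((M : ℚ) ^ 2) = ((M ^ 2 : ℕ) : ℚ) := by push_cast; rfl
                  rw [h3]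
                  exact Rat.inv_natCast_den_of_pos (pow_pos hM 2)
                rw [h2]
                intro h4
                exact hq (q.2.dvd_of_dvd_pow h4)
              exact NbI_rat h1
            rcases hv with rfl | rfl
            · exact key p hpM
            · exact key p' hpM'
          refine (Rv v).mul_mem hMv ?_
          have h1 : ((2 * ((p : ℕ) * (p' : ℕ)) : ℕ) : Af) * D = 2 *
              (bq Q (ve e Af) ((((p' : ℕ) : Af) • y'.1.1) *ᵥ (k.1.1 *ᵥ ((((p : ℕ) : Af) • (y⁻¹).1.1) *ᵥ ve e Af))) -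
              ((p : ℕ) : Af) * ((p' : ℕ) : Af) * bq Q (ve e Af) (ve e Af)) := by
            have h2 : (y' * k * y⁻¹).1.1 *ᵥ ve e Af = y'.1.1 *ᵥ (k.1.1 *ᵥ ((y⁻¹).1.1 *ᵥ ve e Af)) := by
              change (y'.1.1 * k.1.1 * (y⁻¹).1.1) *ᵥ ve e Af = _
              rw [← mulVec_mulVec, ← mulVec_mulVec]
            rw [hD, h2, smul_mulVec, smul_mulVec, mulVec_smul, mulVec_smul, bq_smulr, bq_smulr]
            push_cast
            ring
          rw [h1]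
          have hev : ∀ i, ve e Af i ∈ Rv v := fun i => (Zh_iff _).1 (hei i) v
          have hQv : ∀ i j, algebraMap ℚ Af (Q i j) ∈ Rv v := fun i j => (Zh_iff _).1 (hQi i j) v
          refine (Rv v).mul_mem (by exact_mod_cast natCast_mem (Rv v) 2) ((Rv v).sub_mem ?_ ?_)
          · refine bq_mem _ hQv hev (mv_mem _ (fun i j => ?_) (mv_mem _ hkv (mv_mem _ (fun i j => ?_) hev)))
            · exact (Zh_iff _).1 (hy'.2.1 i j) v
            · exact (Zh_iff _).1 (hyi.2.1 i j) v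
          · exact (Rv v).mul_mem ((Rv v).mul_mem (natCast_mem _ _) (natCast_mem _ _)) (bq_mem _ hQv hev hev)
        by_cases hv1 : v = vp p
        · exact hbad (Or.inl hv1)
        by_cases hv2 : v = vp p'
        · exact hbad (Or.inr hv2)
        -- the other places
        have h1 : ev v D = ev v (bq Q (ve e Af) (k.1.1 *ᵥ ve e Af) - bq Q (ve e Af) (ve e Af)) := by
          rw [hD, map_sub, map_sub]
          congr 1
          refine ev_bq v Q _ fun i => ?_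
          have h2 : (y' * k * y⁻¹).1.1 *ᵥ ve e Af = y'.1.1 *ᵥ (k.1.1 *ᵥ ((y⁻¹).1.1 *ᵥ ve e Af)) := by
            change (y'.1.1 * k.1.1 * (y⁻¹).1.1) *ᵥ ve e Af = _
            rw [← mulVec_mulVec, ← mulVec_mulVec]
          rw [h2, ev_g v y' (hy'.1 v hv2)]
          refine ev_mv v _ (fun j => ?_) i
          exact ev_g v y⁻¹ (hyi.1 v hv1) _ j
        rw [Rv_mem]
        change ev v (algebraMap ℚ Af ((M : ℚ) ^ 2)⁻¹ * (((2 * ((p : ℕ) * (p' : ℕ)) : ℕ) : Af) * D)) ∈ _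
        have h3 : ev v (algebraMap ℚ Af ((M : ℚ) ^ 2)⁻¹ * (((2 * ((p : ℕ) * (p' : ℕ)) : ℕ) : Af) * D)) =
            ev v (-(((p : ℕ) : Af) * ((p' : ℕ) : Af) * bq Q z z)) := by
          have h4 : -(((p : ℕ) : Af) * ((p' : ℕ) : Af) * bq Q z z) = algebraMap ℚ Af ((M : ℚ) ^ 2)⁻¹ *
              (((2 * ((p : ℕ) * (p' : ℕ)) : ℕ) : Af) * (bq Q (ve e Af) (k.1.1 *ᵥ ve e Af) - bq Q (ve e Af) (ve e Af))) := by
            push_cast
            linear_combination (((p : ℕ) : Af) * ((p' : ℕ) : Af) * bq Q z z) * hMA -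
              algebraMap ℚ Af ((M : ℚ) ^ 2)⁻¹ * ((p : ℕ) : Af) * ((p' : ℕ) : Af) * hsq
          rw [h4, map_mul, map_mul, h1, ← map_mul, ← map_mul]
        rw [h3]
        have hQv : ∀ i j, algebraMap ℚ Af (Q i j) ∈ Rv v := fun i j => (Zh_iff _).1 (hQi i j) v
        have hzv : ∀ i, z i ∈ Rv v := fun i => (Zh_iff _).1 (hz i) v
        exact (Rv v).neg_mem ((Rv v).mul_mem ((Rv v).mul_mem (natCast_mem _ _) (natCast_mem _ _)) (bq_mem _ hQv hzv hzv))
      · have h5 : ((M ^ 2 : ℕ) : Af) = (M : Af) ^ 2 := by push_cast; rfl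
        rw [h5]
        linear_combination -(((2 * ((p : ℕ) * (p' : ℕ)) : ℕ) : Af) * D) * hMA)
  refine hS γ h' hh' h⁻¹ ((Hp Q e Af).inv_mem hh) _ (Set.mem_singleton _) ?_
  rw [hkd]
  group

end Pool.Agent.GP
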