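import Pool.Agent.Lib.GP.Spec

/-!
# Theorem GP, module Av: averaging over a circle
-/

set_option autoImplicit false

open IsDedekindDomain Matrix MeasureTheory
open scoped Real

noncomputable section

namespace Pool.Agent.GP

/-- The lemma on Hilbert spaces. -/
private theorem Av_hilb {H : Type} [NormedAddCommGroup H] [InnerProductSpace ℂ H] [CompleteSpace H] (p : H)
    (q : ℝ → H) (hq : Continuous q) (c : ℝ) (k : ℝ → ℝ) (hkp : ∀ α, k (α + 2 * π) = k α)
    (h1 : ∀ α, inner ℂ p (q α) = (c : ℂ)) (h2 : ∀ α β, inner ℂ (q α) (q β) = ((k (β - α) : ℝ) : ℂ)) :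
    c ^ 2 ≤ ‖p‖ ^ 2 * ((2 * π)⁻¹ * ∫ α in (0 : ℝ)..(2 * π), k α) := by
  obtain ⟨y, hy⟩ : ∃ y : H, y = ∫ α in (0 : ℝ)..(2 * π), q α := ⟨_, rfl⟩
  obtain ⟨K, hK⟩ : ∃ K : ℝ, K = ∫ α in (0 : ℝ)..(2 * π), k α := ⟨_, rfl⟩
  have hint : IntervalIntegrable q volume 0 (2 * π) := hq.intervalIntegrable _ _
  have hin : ∀ x : H, inner ℂ x y = ∫ α in (0 : ℝ)..(2 * π), inner ℂ x (q α) := by
    intro x
    rw [hy]
    exact ((innerSL ℂ x).intervalIntegral_comp_comm hint).symm
  have hpy : inner ℂ p y = ((2 * π * c : ℝ) : ℂ) := by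
    rw [hin]
    simp only [h1]
    rw [intervalIntegral.integral_const, sub_zero, Complex.real_smul]
    push_cast
    ring
  have hqy : ∀ α, inner ℂ (q α) y = (K : ℂ) := by
    intro α
    rw [hin]
    simp only [h2]
    rw [intervalIntegral.integral_ofReal, intervalIntegral.integral_comp_sub_right k α, hK]
    congr 1
    have hper : Function.Periodic k (2 * π) := hkp
    have h3 := hper.intervalIntegral_add_eq (0 - α) 0
    rw [zero_add] at h3
    rw [← h3]
    congr 1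
    ring
  have hyy : inner ℂ y y = ((2 * π * K : ℝ) : ℂ) := by
    rw [hin]
    have h3 : ∀ α, inner ℂ y (q α) = (K : ℂ) := by
      intro α
      rw [← inner_conj_symm, hqy α, Complex.conj_ofReal]
    simp only [h3]
    rw [intervalIntegral.integral_const, sub_zero, Complex.real_smul]
    push_cast
    ring
  have hny : ‖y‖ ^ 2 = 2 * π * K := by
    rw [inner_self_eq_norm_sq_to_K] at hyy
    have h3 : ((‖y‖ ^ 2 : ℝ) : ℂ) = ((2 * π * K : ℝ) : ℂ) := by
      rw [← hyy]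
      push_cast
      rfl
    exact_mod_cast h3
  have hcs := norm_inner_le_norm (𝕜 := ℂ) p y
  rw [hpy, Complex.norm_real, Real.norm_eq_abs] at hcs
  have h4 : (2 * π * c) ^ 2 ≤ ‖p‖ ^ 2 * (2 * π * K) := by
    rw [← hny, ← mul_pow, ← sq_abs (2 * π * c)]
    exact pow_le_pow_left₀ (abs_nonneg _) hcs 2
  rw [← hK]
  have hpi : 0 < 2 * π := by positivity
  have h5 : c ^ 2 = (2 * π * c) ^ 2 / (2 * π) ^ 2 := by
    rw [mul_pow (2 * π) c, mul_div_cancel_left₀ _ (pow_ne_zero 2 hpi.ne')]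
  have h6 : ‖p‖ ^ 2 * ((2 * π)⁻¹ * K) = ‖p‖ ^ 2 * (2 * π * K) / (2 * π) ^ 2 := by
    field_simp
  rw [h5, h6]
  exact div_le_div_of_nonneg_right h4 (by positivity)

section

variable {G V : Type} [Group G] [TopologicalSpace G] [NormedAddCommGroup V] [InnerProductSpace ℂ V]

/-- The linear map of `ρ(x)`. -/
private def Rx (ρ : URep G V) (x : G) : Module.End ℂ V := (ρ.act x).toLinearEquiv.toLinearMap

private theorem Rx_apply (ρ : URep G V) (x : G) (v : V) : Rx ρ x v = ρ.act x v := rfl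

private theorem Rx_mul (ρ : URep G V) (x y : G) : Rx ρ (x * y) = Rx ρ x * Rx ρ y := by
  ext v
  rw [Module.End.mul_apply, Rx_apply, Rx_apply, Rx_apply, map_mul]
  rfl

private theorem Rx_one (ρ : URep G V) : Rx ρ 1 = 1 := by
  ext v
  rw [Rx_apply, map_one]
  rfl

private theorem Rx_adj (ρ : URep G V) (x : G) (u v : V) : inner ℂ (Rx ρ x u) v = inner ℂ u (Rx ρ x⁻¹ v) := by
  have h1 : v = ρ.act x (Rx ρ x⁻¹ v) := by
    have h2 := congrArg (fun T : Module.End ℂ V => T v) (Rx_mul ρ x x⁻¹)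
    rw [mul_inv_cancel, Rx_one] at h2
    exact h2
  conv_lhs => rw [h1]
  rw [Rx_apply]
  exact (ρ.act x).inner_map_map _ _

variable [FiniteDimensional ℂ V]

private theorem Ph_trace (ρ : URep G V) {P : V →ₗ[ℂ] V} (hP : Prj P) (x : G) :
    ((Ph ρ P x : ℝ) : ℂ) = LinearMap.trace ℂ V ((P : Module.End ℂ V) * (Rx ρ x * (P * Rx ρ x⁻¹))) := by
  have hPP : (P : Module.End ℂ V) * P = P := LinearMap.ext hP.idem
  have h1 : ((Ph ρ P x : ℝ) : ℂ) = LinearMap.trace ℂ V ((P : Module.End ℂ V) * (Rx ρ x⁻¹ * (P * (Rx ρ x * P)))) := by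
    rw [LinearMap.trace_eq_sum_inner _ (stdOrthonormalBasis ℂ V)]
    unfold Ph hs2
    push_cast
    refine Finset.sum_congr rfl fun i _ => ?_
    have h2 : pgp ρ P x (stdOrthonormalBasis ℂ V i) = P (Rx ρ x (P (stdOrthonormalBasis ℂ V i))) := rfl
    have h4 := inner_self_eq_norm_sq_to_K (𝕜 := ℂ) (P (Rx ρ x (P (stdOrthonormalBasis ℂ V i))))
    rw [h2]
    refine Eq.trans h4.symm ?_
    rw [hP.adj, hP.idem, Rx_adj, hP.adj]
    rfl
  have h3 : (P : Module.End ℂ V) * (Rx ρ x⁻¹ * (P * (Rx ρ x * P))) =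
      (P * (Rx ρ x⁻¹ * (P * Rx ρ x))) * P := by
    simp only [mul_assoc]
  rw [h1, h3, LinearMap.trace_mul_comm, ← mul_assoc, hPP, ← mul_assoc, LinearMap.trace_mul_comm]
  simp only [mul_assoc]

end

theorem tAv : S_Av := by
  intro hHS G V _ _ _ _ _ _ ρ P hP c hc hcom g k hk hkp hPh
  obtain ⟨-, -, s3, -, s5⟩ := hHS V
  have hrk := (s5 P hP).1
  obtain ⟨b, hb⟩ : ∃ b : OrthonormalBasis (Fin (Module.finrank ℂ V)) ℂ V, b = stdOrthonormalBasis ℂ V := ⟨_, rfl⟩
  have hcomp : CompleteSpace V := FiniteDimensional.complete ℂ V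
  obtain ⟨vec, hvec⟩ : ∃ vec : (V →ₗ[ℂ] V) → PiLp 2 (fun _ : Fin (Module.finrank ℂ V) => V),
      ∀ A i, vec A i = A (b i) := ⟨fun A => WithLp.toLp 2 fun i => A (b i), fun _ _ => rfl⟩
  obtain ⟨Q, hQ⟩ : ∃ Q : ℝ → Module.End ℂ V, ∀ α, Q α = Rx ρ (c α * g) * (P * Rx ρ (c α * g)⁻¹) :=
    ⟨_, fun _ => rfl⟩
  have hPP : (P : Module.End ℂ V) * P = P := LinearMap.ext hP.idem
  -- the projectors are selfadjoint
  have hQadj : ∀ α u v, inner ℂ (Q α u) v = inner ℂ u (Q α v) := by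
    intro α u v
    rw [hQ, Module.End.mul_apply, Module.End.mul_apply, Module.End.mul_apply, Module.End.mul_apply,
      Rx_adj, hP.adj, Rx_adj, inv_inv]
  have hinner : ∀ A B C : V →ₗ[ℂ] V, (∀ u v, inner ℂ (A u) v = inner ℂ u (C v)) →
      inner ℂ (vec A) (vec B) = LinearMap.trace ℂ V ((C : Module.End ℂ V) * B) := by
    intro A B C h
    rw [LinearMap.trace_eq_sum_inner _ b, PiLp.inner_apply]
    refine Finset.sum_congr rfl fun i _ => ?_
    rw [hvec, hvec, h]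
    rfl
  have hnorm : ‖vec P‖ ^ 2 = rk P := by
    rw [PiLp.norm_sq_eq_of_L2, ← hrk]
    unfold hs2
    refine Finset.sum_congr rfl fun i _ => ?_
    rw [hvec, hb]
  have hcont : Continuous fun α => vec (Q α) := by
    have h0 : (fun α => vec (Q α)) = fun α => WithLp.toLp 2 fun i => Q α (b i) := by
      funext α
      ext i
      rw [hvec]
    rw [h0]
    refine (PiLp.continuous_toLp 2 _).comp (continuous_pi fun i => ?_)
    have hF : Continuous fun α => P (Rx ρ (c α * g)⁻¹ (b i)) :=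
      (LinearMap.continuous_of_finiteDimensional P).comp
        ((ρ.cont (b i)).comp ((hc.mul continuous_const).inv))
    have h2 : (fun α => Q α (b i)) = fun α => ∑ j, inner ℂ (b j) (P (Rx ρ (c α * g)⁻¹ (b i))) •
        ρ.act (c α * g) (b j) := by
      funext α
      rw [hQ, Module.End.mul_apply, Module.End.mul_apply]
      conv_lhs => rw [← b.sum_repr' (P (Rx ρ (c α * g)⁻¹ (b i)))]
      rw [map_sum]
      refine Finset.sum_congr rfl fun j _ => ?_
      rw [map_smul]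
      rfl
    rw [h2]
    refine continuous_finsetSum _ fun j _ => ?_
    exact (continuous_const.inner hF).smul ((ρ.cont (b j)).comp (hc.mul continuous_const))
  have hmain := Av_hilb (vec P) (fun α => vec (Q α)) hcont (Ph ρ P g) k hkp (fun α => by
    have h1 := Ph_trace ρ hP (c α * g)
    have h2 : Ph ρ P (c α * g) = Ph ρ P g := by
      have h3 : pgp ρ P (c α * g) = (ρ.act (c α)).toLinearEquiv.toLinearMap ∘ₗ pgp ρ P g := by
        ext v
        change P (ρ.act (c α * g) (P v)) = ρ.act (c α) (P (ρ.act g (P v)))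
        rw [map_mul, ← hcom]
        rfl
      unfold Ph
      rw [h3]
      exact (s3 (pgp ρ P g) (ρ.act (c α))).2
    rw [h2] at h1
    rw [hinner P (Q α) P hP.adj, h1, hQ]) (fun α β => by
    have h1 := Ph_trace ρ hP (g⁻¹ * (c α)⁻¹ * c β * g)
    rw [hPh α β] at h1
    rw [hinner (Q α) (Q β) (Q α) (hQadj α), h1, hQ, hQ]
    have e1 : Rx ρ (g⁻¹ * (c α)⁻¹ * c β * g) = Rx ρ (c α * g)⁻¹ * Rx ρ (c β * g) := by
      rw [← Rx_mul]
      congr 1
      group
    have e2 : Rx ρ (g⁻¹ * (c α)⁻¹ * c β * g)⁻¹ = Rx ρ (c β * g)⁻¹ * Rx ρ (c α * g) := by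
      rw [← Rx_mul]
      congr 1
      group
    rw [e1, e2]
    have e3 : (P : Module.End ℂ V) * (Rx ρ (c α * g)⁻¹ * Rx ρ (c β * g) *
        (P * (Rx ρ (c β * g)⁻¹ * Rx ρ (c α * g)))) =
        (P * (Rx ρ (c α * g)⁻¹ * (Rx ρ (c β * g) * (P * Rx ρ (c β * g)⁻¹)))) * Rx ρ (c α * g) := by
      simp only [mul_assoc]
    rw [e3]
    refine Eq.trans ?_ (LinearMap.trace_mul_comm ℂ _ _).symm
    simp only [mul_assoc])
  rw [hnorm] at hmain
  exact hmain

end Pool.Agent.GP
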