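import Pool.Agent.Lib.GP.Spec

/-!
# Theorem GP, module BF: from scalar automorphic forms of `H` to vectors of `V` (author helper62)
-/

set_option autoImplicit false

open IsDedekindDomain Matrix MeasureTheory
open scoped Real

noncomputable section

namespace Pool.Agent.GP

private theorem BF_cont {H W : Type} [Group H] [TopologicalSpace H] [NormedAddCommGroup W]
    [InnerProductSpace ℂ W] (σ : URep H W) {F : H → ℂ} (hF : F ∈ coef σ) : Continuous F := by
  unfold coef at hF
  induction hF using Submodule.span_induction with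
  | mem x hx =>
    obtain ⟨u, v, rfl⟩ := hx
    exact continuous_const.inner (σ.cont v)
  | zero => exact continuous_const
  | add x y _ _ hx hy => exact hx.add hy
  | smul c x _ hx => exact continuous_const.mul hx

private theorem BF_int {H E : Type} [TopologicalSpace H] [CompactSpace H] [MeasurableSpace H]
    [BorelSpace H] (μ : Measure H) [IsProbabilityMeasure μ] [NormedAddCommGroup E] {f : H → E}
    (hf : Continuous f) : Integrable f μ :=
  hf.integrable_of_hasCompactSupport (HasCompactSupport.of_compactSpace f)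

/-- A continuous function orthogonal to itself vanishes. -/
private theorem BF_van {H : Type} [TopologicalSpace H] [CompactSpace H] [MeasurableSpace H]
    [BorelSpace H] (μ : Measure H) [IsProbabilityMeasure μ] [μ.IsOpenPosMeasure] {F : H → ℂ}
    (hF : Continuous F) (h0 : ∫ x, (starRingEnd ℂ) (F x) * F x ∂μ = 0) (x : H) : F x = 0 := by
  by_contra hx
  have h1 : Continuous fun x => ‖F x‖ ^ 2 := hF.norm.pow 2
  have h2 := h1.integral_pos_of_hasCompactSupport_nonneg_nonzero (μ := μ) (x := x)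
    (HasCompactSupport.of_compactSpace _) (fun x => by positivity) (by positivity)
  have h3 : ∫ x, (starRingEnd ℂ) (F x) * F x ∂μ = ((∫ x, ‖F x‖ ^ 2 ∂μ : ℝ) : ℂ) := by
    rw [← integral_complex_ofReal]
    refine integral_congr_ae (Filter.Eventually.of_forall fun x => ?_)
    change (starRingEnd ℂ) (F x) * F x = ((‖F x‖ ^ 2 : ℝ) : ℂ)
    rw [Complex.conj_mul']
    push_cast
    rfl
  rw [h0] at h3
  have h4 : ∫ x, ‖F x‖ ^ 2 ∂μ = 0 := by exact_mod_cast h3.symm
  exact h2.ne' h4

theorem tBF : S_BF := by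
  intro hJw Γ G Gf V W ι _ _ _ _ _ _ _ _ _ _ _ ja jf K ΓH H Hf jaH jfH KH' _ _ _ μ _ _ _ ρ σ h y l
    ha hf hK hirr hl heq
  obtain ⟨P, a, hP, hPc, hrk, hPa, hcof⟩ := hJw G V W H ρ σ l hirr hl heq
  have hcomp : CompleteSpace V := FiniteDimensional.complete ℂ V
  have hρc : ∀ v, Continuous fun x : H => ρ.act (x : G) v := fun v =>
    (ρ.cont v).comp continuous_subtype_val
  have hφc : ∀ (φ' : AF jaH jfH KH' σ) (g : Hf), Continuous fun x => φ'.1 x g := fun φ' g =>
    BF_cont σ (φ'.2.2 g)
  have hc : ∀ (φ' : AF jaH jfH KH' σ) (g : Hf) (v : V),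
      Continuous (fun x : H => φ'.1 x g • ρ.act (x : G) v) := fun φ' g v => (hφc φ' g).smul (hρc v)
  have hI : ∀ (φ' : AF jaH jfH KH' σ) (g : Hf) (v : V),
      Integrable (fun x : H => φ'.1 x g • ρ.act (x : G) v) μ := fun φ' g v => BF_int μ (hc φ' g v)
  let Θ : AF jaH jfH KH' σ →ₗ[ℂ] (Fin (Module.finrank ℂ W) → ι → V) :=
    { toFun := fun φ' k i => ∫ x : H, φ'.1 x (h i) • ρ.act (x : G) (a k) ∂μ
      map_add' := by
        intro φ ψ
        funext k i
        change ∫ x : H, (φ.1 x (h i) + ψ.1 x (h i)) • ρ.act (x : G) (a k) ∂μ = _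
        simp_rw [add_smul]
        exact integral_add (hI φ (h i) (a k)) (hI ψ (h i) (a k))
      map_smul' := by
        intro c φ
        funext k i
        change ∫ x : H, (c * φ.1 x (h i)) • ρ.act (x : G) (a k) ∂μ = c • ∫ x : H, _ ∂μ
        simp_rw [mul_smul]
        exact integral_smul c _ }
  have hΘ : ∀ φ' k i, Θ φ' k i = ∫ x : H, φ'.1 x (h i) • ρ.act (x : G) (a k) ∂μ := fun _ _ _ => rfl
  refine ⟨P, hP, hPc, hrk, Θ, ?_, ?_, ?_, ?_⟩
  · intro φ' k i
    rw [hΘ]
    have h1 := (LinearMap.toContinuousLinearMap P).integral_comp_comm (hI φ' (h i) (a k))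
    refine Eq.trans h1.symm ?_
    refine integral_congr_ae (Filter.Eventually.of_forall fun x => ?_)
    change P (φ'.1 x (h i) • ρ.act (x : G) (a k)) = φ'.1 x (h i) • ρ.act (x : G) (a k)
    rw [map_smul, hPc x.1 x.2, hPa]
  · intro φ' k i γ hγ htr
    have hkK : (y i)⁻¹ * (((h i)⁻¹ * jfH ⟨γ, hγ⟩ * h i : Hf) : Gf) * y i ∈ K := by
      have h1 : ((h i : Gf) * y i)⁻¹ * (jf γ * ((h i : Gf) * y i)) ∈ K := htr
      have h2 : (y i)⁻¹ * (((h i)⁻¹ * jfH ⟨γ, hγ⟩ * h i : Hf) : Gf) * y i =
          ((h i : Gf) * y i)⁻¹ * (jf γ * ((h i : Gf) * y i)) := by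
        push_cast
        rw [hf]
        group
      rw [h2]
      exact h1
    have hk := hK i _ hkK
    have h3 : ∀ x : H, φ'.1 (jaH ⟨γ, hγ⟩ * x) (h i) = φ'.1 x (h i) := by
      intro x
      have h4 := φ'.2.1 ⟨γ, hγ⟩ x (h i) _ (KH'.inv_mem hk)
      have h5 : jfH ⟨γ, hγ⟩ * h i * ((h i)⁻¹ * jfH ⟨γ, hγ⟩ * h i)⁻¹ = h i := by group
      rw [h5] at h4
      exact h4
    rw [hΘ]
    have h6 := (ρ.act (ja γ)).toContinuousLinearEquiv.integral_comp_comm
      (fun x : H => φ'.1 x (h i) • ρ.act (x : G) (a k)) (μ := μ)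
    refine Eq.trans h6.symm ?_
    rw [← integral_mul_left_eq_self (fun x : H => φ'.1 x (h i) • ρ.act (x : G) (a k)) (jaH ⟨γ, hγ⟩)]
    refine integral_congr_ae (Filter.Eventually.of_forall fun x => ?_)
    change ρ.act (ja γ) (φ'.1 x (h i) • ρ.act (x : G) (a k)) =
      φ'.1 (jaH ⟨γ, hγ⟩ * x) (h i) • ρ.act ((jaH ⟨γ, hγ⟩ * x : H) : G) (a k)
    rw [h3, map_smul, Subgroup.coe_mul, ha, map_mul]
    rfl
  · intro f hfm k
    refine ⟨fun x g => inner ℂ (f g) (ρ.act x (a k)), ⟨?_, ?_⟩, ?_⟩
    · intro γ x g k' hk'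
      change inner ℂ (f (jf γ * g * k')) (ρ.act (ja γ * x) (a k)) = inner ℂ (f g) (ρ.act x (a k))
      rw [hfm γ g k' hk', map_mul]
      exact (ρ.act (ja γ)).inner_map_map _ _
    · intro g
      exact Submodule.subset_span ⟨f g, a k, rfl⟩
    · intro φ' i
      rw [hΘ, ← integral_inner (hI φ' (h i) (a k))]
      refine integral_congr_ae (Filter.Eventually.of_forall fun x => ?_)
      change inner ℂ (f ((h i : Gf) * y i)) (ρ.act (x : G) (a k)) * φ'.1 x (h i) =
        inner ℂ (f ((h i : Gf) * y i)) (φ'.1 x (h i) • ρ.act (x : G) (a k))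
      rw [inner_smul_right, mul_comm]
  · intro ι1 hcov φ' hz
    have key : ∀ i ∈ ι1, ∀ x : H, φ'.1 x (h i) = 0 := by
      intro i hi x
      refine BF_van μ (hφc φ' (h i)) ?_ x
      have hgen : ∀ F' ∈ coef σ, ∫ x, (starRingEnd ℂ) (F' x) * φ'.1 x (h i) ∂μ = 0 := by
        intro F' hF'
        unfold coef at hF'
        induction hF' using Submodule.span_induction with
        | mem F hF =>
          obtain ⟨u, w, rfl⟩ := hF
          obtain ⟨b, c, -, hbc⟩ := hcof u w
          have e1 : ∀ x : H, (starRingEnd ℂ) (inner ℂ u (σ.act x w)) * φ'.1 x (h i) =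
              ∑ k, c k * inner ℂ b (φ'.1 x (h i) • ρ.act (x : G) (a k)) := by
            intro x
            rw [hbc x, Finset.sum_mul]
            refine Finset.sum_congr rfl fun k _ => ?_
            rw [inner_smul_right]
            ring
          simp_rw [e1]
          rw [integral_finsetSum]
          · refine Finset.sum_eq_zero fun k _ => ?_
            rw [integral_const_mul, integral_inner (hI φ' (h i) (a k)), ← hΘ, hz k i hi, inner_zero_right,
              mul_zero]
          · intro k _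
            exact ((hI φ' (h i) (a k)).const_inner b).const_mul (c k)
        | zero =>
          simp
        | add F F1 hF hF1 h1 h2 =>
          have c1 : Continuous fun x => (starRingEnd ℂ) (F x) * φ'.1 x (h i) :=
            (Complex.continuous_conj.comp (BF_cont σ hF)).mul (hφc φ' (h i))
          have c2 : Continuous fun x => (starRingEnd ℂ) (F1 x) * φ'.1 x (h i) :=
            (Complex.continuous_conj.comp (BF_cont σ hF1)).mul (hφc φ' (h i))
          simp_rw [Pi.add_apply, map_add, add_mul]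
          rw [integral_add (BF_int μ c1) (BF_int μ c2), h1, h2, add_zero]
        | smul c F hF h1 =>
          simp_rw [Pi.smul_apply, smul_eq_mul, map_mul, mul_assoc]
          rw [integral_const_mul, h1, mul_zero]
      exact hgen _ (φ'.2.2 (h i))
    refine Subtype.ext ?_
    funext x g
    obtain ⟨i, hi, γ, k, hk, rfl⟩ := hcov g
    have h1 := φ'.2.1 γ ((jaH γ)⁻¹ * x) (h i) k hk
    rw [mul_inv_cancel_left] at h1
    change φ'.1 x (jfH γ * h i * k) = 0
    rw [h1]
    exact key i hi _

end Pool.Agent.GP
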