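import Pool.Agent.Lib.GP.Spec2

/-!
# Theorem GP, module BF2: from scalar automorphic forms of `H` to functions with values in `V`
-/

set_option autoImplicit false

open IsDedekindDomain Matrix MeasureTheory

noncomputable section

namespace Pool.Agent.GP

private theorem BF2_cont {H W : Type} [Group H] [TopologicalSpace H] [NormedAddCommGroup W]
    [InnerProductSpace ℂ W] (σ : URep H W) {F : H → ℂ} (hF : F ∈ coef σ) : Continuous F := by
  unfold coef at hF
  induction hF using Submodule.span_induction with
  | mem x hx =>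
    obtain ⟨u, v, rfl⟩ := hx
    exact continuous_const.inner (σ.cont v)
  | zero => exact continuous_const
  | add x y _ _ hx hy => exact hx.add hy
  | smul c x _ hx => exact continuous_const.mul hx

private theorem BF2_int {H E : Type} [TopologicalSpace H] [CompactSpace H] [MeasurableSpace H]
    [BorelSpace H] (μ : Measure H) [IsProbabilityMeasure μ] [NormedAddCommGroup E] {f : H → E}
    (hf : Continuous f) : Integrable f μ :=
  hf.integrable_of_hasCompactSupport (HasCompactSupport.of_compactSpace f)

/-- A continuous function orthogonal to itself vanishes. -/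
private theorem BF2_van {H : Type} [TopologicalSpace H] [CompactSpace H] [MeasurableSpace H]
    [BorelSpace H] (μ : Measure H) [IsProbabilityMeasure μ] [μ.IsOpenPosMeasure] {F : H → ℂ}
    (hF : Continuous F) (h0 : ∫ x, (starRingEnd ℂ) (F x) * F x ∂μ = 0) (x : H) : F x = 0 := by
  by_contra hx
  have h1 : Continuous fun x => ‖F x‖ ^ 2 := hF.norm.pow 2
  have h2 := h1.integral_pos_of_hasCompactSupport_nonneg_nonzero (μ := μ) (x := x)
    (HasCompactSupport.of_compactSpace _) (fun x => by positivity) (by positivity)
  have h3 : ∫ x, (starRingEnd ℂ) (F x) * F x ∂μ = ((∫ x, ‖F x‖ ^ 2 ∂μ : ℝ) : ℂ) := by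
    rw [← integral_complex_ofReal]
    refine integral_congr_ae (Filter.Eventually.of_forall fun x => ?_)
    change (starRingEnd ℂ) (F x) * F x = ((‖F x‖ ^ 2 : ℝ) : ℂ)
    rw [Complex.conj_mul']
    push_cast
    rfl
  rw [h0] at h3
  have h4 : ∫ x, ‖F x‖ ^ 2 ∂μ = 0 := by exact_mod_cast h3.symm
  exact h2.ne' h4

theorem tBF2 : S_BF2 := by
  intro hJw Γ G Gf V W _ _ _ _ _ _ _ _ _ _ _ ja ΓH H Hf jaH jfH KH' _ _ _ μ _ _ _ ρ σ l
    ha hirr hl heq
  obtain ⟨P, a, hP, hPc, hrk, hPa, hcof⟩ := hJw G V W H ρ σ l hirr hl heq
  have hcomp : CompleteSpace V := FiniteDimensional.complete ℂ V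
  have hρc : ∀ v, Continuous fun x : H => ρ.act (x : G) v := fun v =>
    (ρ.cont v).comp continuous_subtype_val
  refine ⟨P, a, hP, hPc, hrk, hPa, ?_⟩
  intro φ' hφ'
  have hφc : ∀ g : Hf, Continuous fun x => φ' x g := fun g => BF2_cont σ (hφ'.2 g)
  have hc : ∀ (g : Hf) (v : V), Continuous (fun x : H => φ' x g • ρ.act (x : G) v) :=
    fun g v => (hφc g).smul (hρc v)
  have hI : ∀ (g : Hf) (v : V), Integrable (fun x : H => φ' x g • ρ.act (x : G) v) μ :=
    fun g v => BF2_int μ (hc g v)
  have hFF : ∀ k g, FF μ ρ φ' (a k) g = ∫ x : H, φ' x g • ρ.act (x : G) (a k) ∂μ :=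
    fun _ _ => rfl
  refine ⟨?_, ?_, ?_, ?_⟩
  · intro k g v
    rw [hFF, ← integral_inner (hI g (a k))]
    refine integral_congr_ae (Filter.Eventually.of_forall fun x => ?_)
    change inner ℂ v (ρ.act (x : G) (a k)) * φ' x g = inner ℂ v (φ' x g • ρ.act (x : G) (a k))
    rw [inner_smul_right, mul_comm]
  · intro k g
    rw [hFF]
    have h1 := (LinearMap.toContinuousLinearMap P).integral_comp_comm (hI g (a k))
    refine Eq.trans h1.symm ?_
    refine integral_congr_ae (Filter.Eventually.of_forall fun x => ?_)
    change P (φ' x g • ρ.act (x : G) (a k)) = φ' x g • ρ.act (x : G) (a k)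
    rw [map_smul, hPc x.1 x.2, hPa]
  · intro k γ g κ hκ
    have h3 : ∀ x : H, φ' (jaH γ * x) (jfH γ * g * κ) = φ' x g := fun x => hφ'.1 γ x g κ hκ
    rw [hFF, hFF]
    have h6 := (ρ.act (ja γ)).toContinuousLinearEquiv.integral_comp_comm
      (fun x : H => φ' x g • ρ.act (x : G) (a k)) (μ := μ)
    refine Eq.trans ?_ h6
    rw [← integral_mul_left_eq_self
      (fun x : H => φ' x (jfH γ * g * κ) • ρ.act (x : G) (a k)) (jaH γ)]
    refine integral_congr_ae (Filter.Eventually.of_forall fun x => ?_)
    change φ' (jaH γ * x) (jfH γ * g * κ) • ρ.act ((jaH γ * x : H) : G) (a k) =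
      ρ.act (ja γ) (φ' x g • ρ.act (x : G) (a k))
    rw [h3, map_smul, Subgroup.coe_mul, ha, map_mul]
    rfl
  · intro hne
    by_contra hz
    push Not at hz
    apply hne
    have key : ∀ (g : Hf) (x : H), φ' x g = 0 := by
      intro g x
      refine BF2_van μ (hφc g) ?_ x
      have hgen : ∀ F' ∈ coef σ, ∫ x, (starRingEnd ℂ) (F' x) * φ' x g ∂μ = 0 := by
        intro F' hF'
        unfold coef at hF'
        induction hF' using Submodule.span_induction with
        | mem F hF =>
          obtain ⟨u, w, rfl⟩ := hF
          obtain ⟨b, c, -, hbc⟩ := hcof u w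
          have e1 : ∀ x : H, (starRingEnd ℂ) (inner ℂ u (σ.act x w)) * φ' x g =
              ∑ k, c k * inner ℂ b (φ' x g • ρ.act (x : G) (a k)) := by
            intro x
            rw [hbc x, Finset.sum_mul]
            refine Finset.sum_congr rfl fun k _ => ?_
            rw [inner_smul_right]
            ring
          simp_rw [e1]
          rw [integral_finsetSum]
          · refine Finset.sum_eq_zero fun k _ => ?_
            rw [integral_const_mul, integral_inner (hI g (a k)), ← hFF, hz k g,
              inner_zero_right, mul_zero]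
          · intro k _
            exact ((hI g (a k)).const_inner b).const_mul (c k)
        | zero =>
          simp
        | add F F1 hF hF1 h1 h2 =>
          have c1 : Continuous fun x => (starRingEnd ℂ) (F x) * φ' x g :=
            (Complex.continuous_conj.comp (BF2_cont σ hF)).mul (hφc g)
          have c2 : Continuous fun x => (starRingEnd ℂ) (F1 x) * φ' x g :=
            (Complex.continuous_conj.comp (BF2_cont σ hF1)).mul (hφc g)
          simp_rw [Pi.add_apply, map_add, add_mul]
          rw [integral_add (BF2_int μ c1) (BF2_int μ c2), h1, h2, add_zero]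
        | smul c F hF h1 =>
          simp_rw [Pi.smul_apply, smul_eq_mul, map_mul, mul_assoc]
          rw [integral_const_mul, h1, mul_zero]
      exact hgen _ (hφ'.2 g)
    funext x g
    exact key g x

end Pool.Agent.GP
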