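import Pool.Agent.Lib.GP.Spec5

/-!
# Theorem MOM, module BF4: as BF3, with multiplicity one
-/

set_option autoImplicit false

open IsDedekindDomain Matrix MeasureTheory

noncomputable section

namespace Pool.Agent.GP

private theorem BF4_cont {H W : Type} [Group H] [TopologicalSpace H] [NormedAddCommGroup W]
    [InnerProductSpace ℂ W] (σ : URep H W) {F : H → ℂ} (hF : F ∈ coef σ) : Continuous F := by
  unfold coef at hF
  induction hF using Submodule.span_induction with
  | mem x hx =>
    obtain ⟨u, v, rfl⟩ := hx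
    exact continuous_const.inner (σ.cont v)
  | zero => exact continuous_const
  | add x y _ _ hx hy => exact hx.add hy
  | smul c x _ hx => exact continuous_const.mul hx

private theorem BF4_int {H E : Type} [TopologicalSpace H] [CompactSpace H] [MeasurableSpace H]
    [BorelSpace H] (μ : Measure H) [IsProbabilityMeasure μ] [NormedAddCommGroup E] {f : H → E}
    (hf : Continuous f) : Integrable f μ :=
  hf.integrable_of_hasCompactSupport (HasCompactSupport.of_compactSpace f)

/-- The linear functional `y ↦ ⟨J y, v⟩`. -/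
private def BF4_L {V W : Type} [NormedAddCommGroup V] [InnerProductSpace ℂ V] [NormedAddCommGroup W]
    [InnerProductSpace ℂ W] (J : W →ₗ⋆[ℂ] V) (v : V) : W →ₗ[ℂ] ℂ where
  toFun y := inner ℂ (J y) v
  map_add' x y := by rw [map_add, inner_add_left]
  map_smul' c y := by
    rw [LinearMap.map_smulₛₗ, inner_smul_left, RingHom.id_apply, smul_eq_mul]
    rw [Complex.conj_conj]

/-- The value on a matrix coefficient. -/
private theorem BF4_gen {G V W : Type} [Group G] [TopologicalSpace G] [IsTopologicalGroup G]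
    [NormedAddCommGroup V] [InnerProductSpace ℂ V] [FiniteDimensional ℂ V] [NormedAddCommGroup W]
    [InnerProductSpace ℂ W] [FiniteDimensional ℂ W] (H : Subgroup G) [CompactSpace H] [MeasurableSpace H]
    [BorelSpace H] (μ : Measure H) [IsProbabilityMeasure μ]
    (ρ : URep G V) (σ : URep H W) (J : W →ₗ⋆[ℂ] V) (hJ : ∀ (x : H) w, J (σ.act x w) = ρ.act x (J w))
    (hS : ∀ u w w' : W, ∫ x, inner ℂ (σ.act x w) u • σ.act x w' ∂μ =
      ((Module.finrank ℂ W : ℂ)⁻¹ * inner ℂ w w') • u) (u w w' : W) :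
    ∫ x : H, (inner ℂ u (σ.act x w) : ℂ) • ρ.act (x : G) (J w') ∂μ =
      J (((Module.finrank ℂ W : ℂ)⁻¹ * inner ℂ w w') • u) := by
  have hcomp : CompleteSpace V := FiniteDimensional.complete ℂ V
  have hcompW : CompleteSpace W := FiniteDimensional.complete ℂ W
  have hρc : ∀ v, Continuous fun x : H => ρ.act (x : G) v := fun v =>
    (ρ.cont v).comp continuous_subtype_val
  have hI : Integrable (fun x : H => (inner ℂ u (σ.act x w) : ℂ) • ρ.act (x : G) (J w')) μ :=
    BF4_int μ ((continuous_const.inner (σ.cont w)).smul (hρc _))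
  have hI2 : Integrable (fun x : H => (inner ℂ (σ.act x w) u : ℂ) • σ.act x w') μ :=
    BF4_int μ (((σ.cont w).inner continuous_const).smul (σ.cont w'))
  refine ext_inner_right ℂ fun v => ?_
  have h1 : inner ℂ (∫ x : H, (inner ℂ u (σ.act x w) : ℂ) • ρ.act (x : G) (J w') ∂μ) v =
      ∫ x : H, inner ℂ ((inner ℂ u (σ.act x w) : ℂ) • ρ.act (x : G) (J w')) v ∂μ := by
    rw [← inner_conj_symm, ← integral_inner hI, ← integral_conj]
    refine integral_congr_ae (Filter.Eventually.of_forall fun x => ?_)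
    change (starRingEnd ℂ) (inner ℂ v _) = inner ℂ _ v
    rw [inner_conj_symm]
  rw [h1]
  have h2 : ∀ x : H, inner ℂ ((inner ℂ u (σ.act x w) : ℂ) • ρ.act (x : G) (J w')) v =
      (BF4_L J v) ((inner ℂ (σ.act x w) u : ℂ) • σ.act x w') := by
    intro x
    change _ = inner ℂ (J ((inner ℂ (σ.act x w) u : ℂ) • σ.act x w')) v
    rw [LinearMap.map_smulₛₗ, hJ, inner_conj_symm]
  simp_rw [h2]
  have h3 := (LinearMap.toContinuousLinearMap (BF4_L J v)).integral_comp_comm hI2
  refine Eq.trans h3 ?_
  rw [hS]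
  rfl

/-- The isometry on the matrix coefficients. -/
private theorem BF4_main {G V W : Type} [Group G] [TopologicalSpace G] [IsTopologicalGroup G]
    [NormedAddCommGroup V] [InnerProductSpace ℂ V] [FiniteDimensional ℂ V] [NormedAddCommGroup W]
    [InnerProductSpace ℂ W] [FiniteDimensional ℂ W] (H : Subgroup G) [CompactSpace H] [MeasurableSpace H]
    [BorelSpace H] (μ : Measure H) [IsProbabilityMeasure μ]
    (ρ : URep G V) (σ : URep H W) (J : W →ₗ⋆[ℂ] V) (hJ : ∀ (x : H) w, J (σ.act x w) = ρ.act x (J w))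
    (hJi : ∀ w w', inner ℂ (J w) (J w') = inner ℂ w' w)
    (hS : ∀ u w w' : W, ∫ x, inner ℂ (σ.act x w) u • σ.act x w' ∂μ =
      ((Module.finrank ℂ W : ℂ)⁻¹ * inner ℂ w w') • u) (f f' : H → ℂ) (hf : f ∈ coef σ) (hf' : f' ∈ coef σ) :
    ∑ k, inner ℂ (∫ x : H, f x • ρ.act (x : G) (J (stdOrthonormalBasis ℂ W k)) ∂μ)
        (∫ x : H, f' x • ρ.act (x : G) (J (stdOrthonormalBasis ℂ W k)) ∂μ) =
      (Module.finrank ℂ W : ℂ)⁻¹ * ∫ x, (starRingEnd ℂ) (f x) * f' x ∂μ := by
  have hcomp : CompleteSpace V := FiniteDimensional.complete ℂ V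
  have hcompW : CompleteSpace W := FiniteDimensional.complete ℂ W
  have hρc : ∀ v, Continuous fun x : H => ρ.act (x : G) v := fun v =>
    (ρ.cont v).comp continuous_subtype_val
  have hI : ∀ (F : H → ℂ) (v : V), Continuous F → Integrable (fun x : H => F x • ρ.act (x : G) v) μ :=
    fun F v hF => BF4_int μ (hF.smul (hρc v))
  have hI2 : ∀ F F' : H → ℂ, Continuous F → Continuous F' →
      Integrable (fun x : H => (starRingEnd ℂ) (F x) * F' x) μ := fun F F' hF hF' =>
    BF4_int μ ((Complex.continuous_conj.comp hF).mul hF')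
  have hadd : ∀ (F F' : H → ℂ) (v : V), Continuous F → Continuous F' →
      ∫ x : H, (F + F') x • ρ.act (x : G) v ∂μ = ∫ x : H, F x • ρ.act (x : G) v ∂μ +
        ∫ x : H, F' x • ρ.act (x : G) v ∂μ := by
    intro F F' v hF hF'
    rw [← integral_add (hI F v hF) (hI F' v hF')]
    refine integral_congr_ae (Filter.Eventually.of_forall fun x => ?_)
    exact add_smul _ _ _
  have hsmul : ∀ (c : ℂ) (F : H → ℂ) (v : V),
      ∫ x : H, (c • F) x • ρ.act (x : G) v ∂μ = c • ∫ x : H, F x • ρ.act (x : G) v ∂μ := by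
    intro c F v
    rw [← integral_smul]
    refine integral_congr_ae (Filter.Eventually.of_forall fun x => ?_)
    exact mul_smul _ _ _
  have hzero : ∀ v : V, ∫ x : H, (0 : H → ℂ) x • ρ.act (x : G) v ∂μ = 0 := by
    intro v
    have : (fun x : H => (0 : H → ℂ) x • ρ.act (x : G) v) = fun _ => 0 := by
      funext x
      exact zero_smul _ _
    rw [this, integral_zero]
  -- two matrix coefficients
  have hgen : ∀ u w u' w' : W,
      ∑ k, inner ℂ (∫ x : H, (inner ℂ u (σ.act x w) : ℂ) • ρ.act (x : G) (J (stdOrthonormalBasis ℂ W k)) ∂μ)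
        (∫ x : H, (inner ℂ u' (σ.act x w') : ℂ) • ρ.act (x : G) (J (stdOrthonormalBasis ℂ W k)) ∂μ) =
      (Module.finrank ℂ W : ℂ)⁻¹ * ∫ x, (starRingEnd ℂ) (inner ℂ u (σ.act x w)) * inner ℂ u' (σ.act x w') ∂μ := by
    intro u w u' w'
    have e1 : ∀ k, inner ℂ (∫ x : H, (inner ℂ u (σ.act x w) : ℂ) • ρ.act (x : G) (J (stdOrthonormalBasis ℂ W k)) ∂μ)
        (∫ x : H, (inner ℂ u' (σ.act x w') : ℂ) • ρ.act (x : G) (J (stdOrthonormalBasis ℂ W k)) ∂μ) =
        ((Module.finrank ℂ W : ℂ)⁻¹ * (Module.finrank ℂ W : ℂ)⁻¹ * inner ℂ u' u) *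
          (inner ℂ w (stdOrthonormalBasis ℂ W k) * inner ℂ (stdOrthonormalBasis ℂ W k) w') := by
      intro k
      rw [BF4_gen H μ ρ σ J hJ hS, BF4_gen H μ ρ σ J hJ hS, hJi, inner_smul_left, inner_smul_right,
        map_mul, inner_conj_symm, map_inv₀, Complex.conj_natCast]
      ring
    rw [Finset.sum_congr rfl fun k _ => e1 k, ← Finset.mul_sum, OrthonormalBasis.sum_inner_mul_inner]
    have hI3 : Integrable (fun x : H => (inner ℂ (σ.act x w) u : ℂ) • σ.act x w') μ :=
      BF4_int μ (((σ.cont w).inner continuous_const).smul (σ.cont w'))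
    have e2 : ∫ x, (starRingEnd ℂ) (inner ℂ u (σ.act x w)) * inner ℂ u' (σ.act x w') ∂μ =
        ∫ x, inner ℂ u' ((inner ℂ (σ.act x w) u : ℂ) • σ.act x w') ∂μ := by
      refine integral_congr_ae (Filter.Eventually.of_forall fun x => ?_)
      change (starRingEnd ℂ) (inner ℂ u (σ.act x w)) * inner ℂ u' (σ.act x w') =
        inner ℂ u' ((inner ℂ (σ.act x w) u : ℂ) • σ.act x w')
      rw [inner_conj_symm, inner_smul_right]
    rw [e2, integral_inner hI3, hS, inner_smul_right]
    ring
  -- first argument a matrix coefficient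
  have hgen2 : ∀ u w : W, ∀ F' ∈ coef σ,
      ∑ k, inner ℂ (∫ x : H, (inner ℂ u (σ.act x w) : ℂ) • ρ.act (x : G) (J (stdOrthonormalBasis ℂ W k)) ∂μ)
        (∫ x : H, F' x • ρ.act (x : G) (J (stdOrthonormalBasis ℂ W k)) ∂μ) =
      (Module.finrank ℂ W : ℂ)⁻¹ * ∫ x, (starRingEnd ℂ) (inner ℂ u (σ.act x w)) * F' x ∂μ := by
    intro u w F' hF'
    have hc : Continuous fun x : H => (inner ℂ u (σ.act x w) : ℂ) := continuous_const.inner (σ.cont w)
    have hF'0 := hF'
    unfold coef at hF'
    induction hF' using Submodule.span_induction with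
    | mem F hF =>
      obtain ⟨u', w', rfl⟩ := hF
      exact hgen u w u' w'
    | zero =>
      simp_rw [hzero, inner_zero_right]
      simp
    | add F F1 hF hF1 h1 h2 =>
      have c1 : Continuous F := BF4_cont σ hF
      have c2 : Continuous F1 := BF4_cont σ hF1
      simp_rw [hadd F F1 _ c1 c2, inner_add_right]
      rw [Finset.sum_add_distrib, h1 hF, h2 hF1]
      simp_rw [Pi.add_apply, mul_add]
      rw [integral_add (hI2 _ _ hc c1) (hI2 _ _ hc c2), mul_add]
    | smul c F hF h1 =>
      simp_rw [hsmul, inner_smul_right]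
      rw [← Finset.mul_sum, h1 hF]
      have e : ∀ x : H, (starRingEnd ℂ) (inner ℂ u (σ.act x w)) * (c • F) x =
          c * ((starRingEnd ℂ) (inner ℂ u (σ.act x w)) * F x) := by
        intro x
        change _ * (c * F x) = _
        ring
      simp_rw [e]
      rw [integral_const_mul]
      ring
  have hcf' : Continuous f' := BF4_cont σ hf'
  have hf0 := hf
  unfold coef at hf
  induction hf using Submodule.span_induction with
  | mem F hF =>
    obtain ⟨u, w, rfl⟩ := hF
    exact hgen2 u w f' hf'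
  | zero =>
    simp_rw [hzero, inner_zero_left]
    simp
  | add F F1 hF hF1 h1 h2 =>
    have c1 : Continuous F := BF4_cont σ hF
    have c2 : Continuous F1 := BF4_cont σ hF1
    simp_rw [hadd F F1 _ c1 c2, inner_add_left]
    rw [Finset.sum_add_distrib, h1 hF, h2 hF1]
    simp_rw [Pi.add_apply, map_add, add_mul]
    rw [integral_add (hI2 _ _ c1 hcf') (hI2 _ _ c2 hcf'), mul_add]
  | smul c F hF h1 =>
    simp_rw [hsmul, inner_smul_left]
    rw [← Finset.mul_sum, h1 hF]
    have e : ∀ x : H, (starRingEnd ℂ) ((c • F) x) * f' x =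
        (starRingEnd ℂ) c * ((starRingEnd ℂ) (F x) * f' x) := by
      intro x
      change (starRingEnd ℂ) (c * F x) * f' x = _
      rw [map_mul]
      ring
    simp_rw [e]
    rw [integral_const_mul]
    ring

/-- A left invariant probability measure on a compact group is right invariant. -/
private theorem BF4_ri {H : Type} [Group H] [TopologicalSpace H] [IsTopologicalGroup H] [CompactSpace H]
    [MeasurableSpace H] [BorelSpace H] (μ : Measure H) [IsProbabilityMeasure μ] [μ.IsMulLeftInvariant]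
    [μ.IsOpenPosMeasure] (f : H → ℂ) (y : H) : ∫ x, f (x * y) ∂μ = ∫ x, f x ∂μ := by
  have hHaar : μ.IsHaarMeasure := { toIsOpenPosMeasure := inferInstance, lt_top_of_isCompact := fun K _ => measure_lt_top μ K, map_mul_left_eq_self := fun g => MeasureTheory.map_mul_left_eq_self μ g }
  have hmap : μ.map (fun x => x * y) = μ := by
    have hm : Measurable fun x : H => x * y := (continuous_mul_const y).measurable
    have hp : IsProbabilityMeasure (μ.map (fun x => x * y)) := Measure.isProbabilityMeasure_map hm.aemeasurable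
    have h1 := Measure.isMulInvariant_eq_smul_of_compactSpace (μ.map (fun x => x * y)) μ
    have h2 : (Measure.haarScalarFactor (μ.map (fun x => x * y)) μ) = 1 := by
      have h3 : (μ.map (fun x => x * y)) Set.univ =
          (Measure.haarScalarFactor (μ.map (fun x => x * y)) μ • μ) Set.univ := by rw [← h1]
      rw [measure_univ, Measure.smul_apply, measure_univ] at h3
      rw [ENNReal.smul_def, smul_eq_mul, mul_one] at h3
      exact_mod_cast h3.symm
    rw [h1, h2, one_smul]
  have h4 := (Homeomorph.mulRight y).toMeasurableEquiv.measurableEmbedding.integral_map (μ := μ) f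
  have h5 : μ.map (Homeomorph.mulRight y).toMeasurableEquiv = μ := hmap
  rw [h5] at h4
  exact h4.symm

/-- The integrals of the vectors orthogonal to the image of `J` vanish. -/
private theorem BF4_zero {G V W : Type} [Group G] [TopologicalSpace G] [IsTopologicalGroup G]
    [NormedAddCommGroup V] [InnerProductSpace ℂ V] [FiniteDimensional ℂ V] [NormedAddCommGroup W]
    [InnerProductSpace ℂ W] [FiniteDimensional ℂ W] (H : Subgroup G) [CompactSpace H] [MeasurableSpace H]
    [BorelSpace H] (μ : Measure H) [IsProbabilityMeasure μ] [μ.IsMulLeftInvariant] [μ.IsOpenPosMeasure]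
    (ρ : URep G V) (σ : URep H W) (l : V →ₗ[ℂ] W →ₗ[ℂ] ℂ) (hW : Nontrivial W)
    (hu : ∀ l' : V →ₗ[ℂ] W →ₗ[ℂ] ℂ, (∀ (x : H) v w, l' (ρ.act x v) (σ.act x w) = l' v w) → ∃ c : ℂ, l' = c • l)
    (J : W →ₗ⋆[ℂ] V) (hJ : ∀ (x : H) w, J (σ.act x w) = ρ.act x (J w))
    (hJi : ∀ w w', inner ℂ (J w) (J w') = inner ℂ w' w) (v : V) (hv : ∀ w, inner ℂ (J w) v = 0)
    (f : H → ℂ) (hf : f ∈ coef σ) : ∫ x : H, f x • ρ.act (x : G) v ∂μ = 0 := by
  have hcomp : CompleteSpace V := FiniteDimensional.complete ℂ V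
  have hρc : ∀ v, Continuous fun x : H => ρ.act (x : G) v := fun v =>
    (ρ.cont v).comp continuous_subtype_val
  -- the form of J
  let l2 : V →ₗ[ℂ] W →ₗ[ℂ] ℂ := LinearMap.mk₂ ℂ (fun v w => inner ℂ (J w) v)
    (fun _ _ _ => inner_add_right _ _ _) (fun c _ _ => by rw [inner_smul_right, smul_eq_mul])
    (fun _ _ _ => by rw [map_add, inner_add_left])
    (fun c _ _ => by rw [LinearMap.map_smulₛₗ, inner_smul_left, Complex.conj_conj, smul_eq_mul])
  have hl2 : ∀ v w, l2 v w = inner ℂ (J w) v := fun _ _ => rfl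
  obtain ⟨c2, hc2⟩ := hu l2 (fun x v w => by
    rw [hl2, hl2, hJ, LinearIsometryEquiv.inner_map_map])
  have hlv : ∀ w, l v w = 0 := by
    intro w
    have h1 : c2 * l v w = 0 := by
      have := hl2 v w
      rw [hc2, hv] at this
      exact this
    rcases mul_eq_zero.mp h1 with h | h
    · exfalso
      obtain ⟨w0, hw0⟩ := exists_ne (0 : W)
      have h2 := hl2 (J w0) w0
      rw [hc2, h, zero_smul, hJi] at h2
      exact hw0 (inner_self_eq_zero.mp h2.symm)
    · exact h
  unfold coef at hf
  induction hf using Submodule.span_induction with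
  | mem F hF =>
    obtain ⟨u0, w, rfl⟩ := hF
    refine ext_inner_left ℂ fun u => ?_
    have hI : ∀ v w, Integrable (fun x : H => (inner ℂ u0 (σ.act x w) : ℂ) * inner ℂ u (ρ.act (x : G) v)) μ :=
      fun v w => BF4_int μ ((continuous_const.inner (σ.cont w)).mul (continuous_const.inner (hρc v)))
    let l1 : V →ₗ[ℂ] W →ₗ[ℂ] ℂ := LinearMap.mk₂ ℂ
      (fun v w => ∫ x : H, (inner ℂ u0 (σ.act x w) : ℂ) * inner ℂ u (ρ.act (x : G) v) ∂μ)
      (fun v v' w => by
        rw [← integral_add (hI v w) (hI v' w)]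
        refine integral_congr_ae (Filter.Eventually.of_forall fun x => ?_)
        simp only [map_add, inner_add_right, mul_add])
      (fun c v w => by
        rw [smul_eq_mul, ← integral_const_mul]
        refine integral_congr_ae (Filter.Eventually.of_forall fun x => ?_)
        simp only [map_smul, inner_smul_right]
        ring)
      (fun v w w' => by
        rw [← integral_add (hI v w) (hI v w')]
        refine integral_congr_ae (Filter.Eventually.of_forall fun x => ?_)
        simp only [map_add, inner_add_right, add_mul])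
      (fun c v w => by
        rw [smul_eq_mul, ← integral_const_mul]
        refine integral_congr_ae (Filter.Eventually.of_forall fun x => ?_)
        simp only [map_smul, inner_smul_right]
        ring)
    have hl1 : ∀ v w, l1 v w = ∫ x : H, (inner ℂ u0 (σ.act x w) : ℂ) * inner ℂ u (ρ.act (x : G) v) ∂μ :=
      fun _ _ => rfl
    obtain ⟨c1, hc1⟩ := hu l1 (fun y v w => by
      rw [hl1, hl1, ← BF4_ri μ (fun x : H => (inner ℂ u0 (σ.act x w) : ℂ) * inner ℂ u (ρ.act (x : G) v)) y]
      refine integral_congr_ae (Filter.Eventually.of_forall fun x => ?_)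
      change _ = (inner ℂ u0 (σ.act (x * y) w) : ℂ) * inner ℂ u (ρ.act ((x * y : H) : G) v)
      rw [Subgroup.coe_mul, map_mul, map_mul]
      rfl)
    have h3 : l1 v w = 0 := by
      rw [hc1]
      change c1 * l v w = 0
      rw [hlv, mul_zero]
    rw [hl1] at h3
    have hI3 : Integrable (fun x : H => (inner ℂ u0 (σ.act x w) : ℂ) • ρ.act (x : G) v) μ :=
      BF4_int μ ((continuous_const.inner (σ.cont w)).smul (hρc v))
    change inner ℂ u (∫ x : H, (inner ℂ u0 (σ.act x w) : ℂ) • ρ.act (x : G) v ∂μ) = inner ℂ u 0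
    rw [inner_zero_right, ← integral_inner hI3, ← h3]
    refine integral_congr_ae (Filter.Eventually.of_forall fun x => ?_)
    simp only [inner_smul_right]
  | zero =>
    have : (fun x : H => (0 : H → ℂ) x • ρ.act (x : G) v) = fun _ => 0 := by
      funext x
      exact zero_smul _ _
    rw [this, integral_zero]
  | add F F1 hF hF1 h1 h2 =>
    have c1 : Continuous F := BF4_cont σ hF
    have c2 : Continuous F1 := BF4_cont σ hF1
    have e : ∫ x : H, (F + F1) x • ρ.act (x : G) v ∂μ = ∫ x : H, F x • ρ.act (x : G) v ∂μ +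
        ∫ x : H, F1 x • ρ.act (x : G) v ∂μ := by
      have i1 : Integrable (fun x : H => F x • ρ.act (x : G) v) μ := BF4_int μ (c1.smul (hρc v))
      have i2 : Integrable (fun x : H => F1 x • ρ.act (x : G) v) μ := BF4_int μ (c2.smul (hρc v))
      rw [← integral_add i1 i2]
      refine integral_congr_ae (Filter.Eventually.of_forall fun x => ?_)
      exact add_smul _ _ _
    rw [e, h1, h2, add_zero]
  | smul c F hF h1 =>
    have e : ∫ x : H, (c • F) x • ρ.act (x : G) v ∂μ = c • ∫ x : H, F x • ρ.act (x : G) v ∂μ := by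
      rw [← integral_smul]
      refine integral_congr_ae (Filter.Eventually.of_forall fun x => ?_)
      exact mul_smul _ _ _
    rw [e, h1, smul_zero]

theorem tBF4 : S_BF4 := by
  intro hJw hSch Γ G Gf V W _ _ _ _ _ _ _ _ _ _ _ ja ΓH H Hf jaH jfH KH' _ _ _ μ _ _ _ ρ σ l
    ha hirr hl heq huniq
  obtain ⟨P, J, hP, hPc, hrk, hPJ, hJ, hJi⟩ := hJw G V W H ρ σ l hirr hl heq
  have hS := hSch H W μ σ hirr
  have hcomp : CompleteSpace V := FiniteDimensional.complete ℂ V
  have hρc : ∀ v, Continuous fun x : H => ρ.act (x : G) v := fun v =>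
    (ρ.cont v).comp continuous_subtype_val
  let a : Fin (Module.finrank ℂ W) → V := fun k => J (stdOrthonormalBasis ℂ W k)
  have hPa : ∀ k, P (a k) = a k := fun k => hPJ _
  refine ⟨P, a, hP, hPc, hrk, ?_⟩
  intro φ' hφ'
  have hφc : ∀ g : Hf, Continuous fun x => φ' x g := fun g => BF4_cont σ (hφ'.2 g)
  have hc : ∀ (g : Hf) (v : V), Continuous (fun x : H => φ' x g • ρ.act (x : G) v) :=
    fun g v => (hφc g).smul (hρc v)
  have hI : ∀ (g : Hf) (v : V), Integrable (fun x : H => φ' x g • ρ.act (x : G) v) μ :=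
    fun g v => BF4_int μ (hc g v)
  have hFF : ∀ k g, FF μ ρ φ' (a k) g = ∫ x : H, φ' x g • ρ.act (x : G) (a k) ∂μ :=
    fun _ _ => rfl
  refine ⟨?_, ?_, ?_, ?_, ?_⟩
  · intro k g v
    rw [hFF, ← integral_inner (hI g (a k))]
    refine integral_congr_ae (Filter.Eventually.of_forall fun x => ?_)
    change inner ℂ v (ρ.act (x : G) (a k)) * φ' x g = inner ℂ v (φ' x g • ρ.act (x : G) (a k))
    rw [inner_smul_right, mul_comm]
  · intro k g
    rw [hFF]
    have h1 := (LinearMap.toContinuousLinearMap P).integral_comp_comm (hI g (a k))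
    refine Eq.trans h1.symm ?_
    refine integral_congr_ae (Filter.Eventually.of_forall fun x => ?_)
    change P (φ' x g • ρ.act (x : G) (a k)) = φ' x g • ρ.act (x : G) (a k)
    rw [map_smul, hPc x.1 x.2, hPa]
  · intro k γ g κ hκ
    have h3 : ∀ x : H, φ' (jaH γ * x) (jfH γ * g * κ) = φ' x g := fun x => hφ'.1 γ x g κ hκ
    rw [hFF, hFF]
    have h6 := (ρ.act (ja γ)).toContinuousLinearEquiv.integral_comp_comm
      (fun x : H => φ' x g • ρ.act (x : G) (a k)) (μ := μ)
    refine Eq.trans ?_ h6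
    rw [← integral_mul_left_eq_self
      (fun x : H => φ' x (jfH γ * g * κ) • ρ.act (x : G) (a k)) (jaH γ)]
    refine integral_congr_ae (Filter.Eventually.of_forall fun x => ?_)
    change φ' (jaH γ * x) (jfH γ * g * κ) • ρ.act ((jaH γ * x : H) : G) (a k) =
      ρ.act (ja γ) (φ' x g • ρ.act (x : G) (a k))
    rw [h3, map_smul, Subgroup.coe_mul, ha, map_mul]
    rfl
  · intro v u g
    have hao : ∀ j k, inner ℂ (a j) (a k) = (if j = k then 1 else 0 : ℂ) := by
      intro j k
      change inner ℂ (J _) (J _) = _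
      rw [hJi, OrthonormalBasis.inner_eq_ite]
      by_cases h : j = k
      · rw [if_pos h, if_pos h.symm]
      · rw [if_neg h, if_neg (Ne.symm h)]
    have hperp : ∀ j, inner ℂ (a j) (v - ∑ k, inner ℂ (a k) v • a k) = (0 : ℂ) := by
      intro j
      rw [inner_sub_right, inner_sum]
      simp_rw [inner_smul_right, hao]
      simp
    have hperp2 : ∀ w, inner ℂ (J w) (v - ∑ k, inner ℂ (a k) v • a k) = (0 : ℂ) := by
      intro w
      have hw : w = ∑ k, inner ℂ (stdOrthonormalBasis ℂ W k) w • stdOrthonormalBasis ℂ W k :=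
        ((stdOrthonormalBasis ℂ W).sum_repr' w).symm
      rw [hw, map_sum, sum_inner]
      refine Finset.sum_eq_zero fun k _ => ?_
      rw [LinearMap.map_smulₛₗ, inner_smul_left]
      have := hperp k
      change inner ℂ (J (stdOrthonormalBasis ℂ W k)) _ = (0 : ℂ) at this
      rw [this, mul_zero]
    have h0 := BF4_zero H μ ρ σ l hirr.1 huniq J hJ hJi _ hperp2 (fun x => φ' x g) (hφ'.2 g)
    have hsum : ∫ x : H, φ' x g • ρ.act (x : G) v ∂μ = ∑ k, inner ℂ (a k) v • FF μ ρ φ' (a k) g := by
      have e1 : ∀ x : H, φ' x g • ρ.act (x : G) (v - ∑ k, inner ℂ (a k) v • a k) =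
          φ' x g • ρ.act (x : G) v - ∑ k, inner ℂ (a k) v • (φ' x g • ρ.act (x : G) (a k)) := by
        intro x
        rw [map_sub, smul_sub, map_sum, Finset.smul_sum]
        congr 1
        refine Finset.sum_congr rfl fun k _ => ?_
        rw [map_smul, smul_comm]
      have iK : ∀ k, Integrable (fun x : H => inner ℂ (a k) v • (φ' x g • ρ.act (x : G) (a k))) μ :=
        fun k => (hI g (a k)).smul _
      have iS : Integrable (fun x : H => ∑ k, inner ℂ (a k) v • (φ' x g • ρ.act (x : G) (a k))) μ :=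
        integrable_finsetSum _ fun k _ => iK k
      simp_rw [e1] at h0
      rw [integral_sub (hI g v) iS, integral_finsetSum _ fun k _ => iK k, sub_eq_zero] at h0
      rw [h0]
      refine Finset.sum_congr rfl fun k _ => ?_
      rw [integral_smul, hFF]
    have h1 : ∫ x : H, inner ℂ u (ρ.act (x : G) v) * φ' x g ∂μ =
        inner ℂ u (∫ x : H, φ' x g • ρ.act (x : G) v ∂μ) := by
      rw [← integral_inner (hI g v)]
      refine integral_congr_ae (Filter.Eventually.of_forall fun x => ?_)
      change inner ℂ u (ρ.act (x : G) v) * φ' x g = inner ℂ u (φ' x g • ρ.act (x : G) v)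
      rw [inner_smul_right, mul_comm]
    rw [h1, hsum, inner_sum]
    refine Finset.sum_congr rfl fun k _ => ?_
    rw [inner_smul_right]
  · intro ψ hψ g
    exact BF4_main H μ ρ σ J hJ hJi hS (fun x => φ' x g) (fun x => ψ x g) (hφ'.2 g) (hψ.2 g)

end Pool.Agent.GP
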