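import Pool.Agent.Lib.GP.Spec5

/-!
# Theorem MOM, module BG: every automorphic form on `G` comes from vector valued forms
-/

set_option autoImplicit false

open IsDedekindDomain Matrix MeasureTheory

noncomputable section

namespace Pool.Agent.GP

private theorem BG_cont {H W : Type} [Group H] [TopologicalSpace H] [NormedAddCommGroup W]
    [InnerProductSpace ℂ W] (σ : URep H W) {F : H → ℂ} (hF : F ∈ coef σ) : Continuous F := by
  unfold coef at hF
  induction hF using Submodule.span_induction with
  | mem x hx =>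
    obtain ⟨u, v, rfl⟩ := hx
    exact continuous_const.inner (σ.cont v)
  | zero => exact continuous_const
  | add x y _ _ hx hy => exact hx.add hy
  | smul c x _ hx => exact continuous_const.mul hx

private theorem BG_int {H E : Type} [TopologicalSpace H] [CompactSpace H] [MeasurableSpace H]
    [BorelSpace H] (μ : Measure H) [IsProbabilityMeasure μ] [NormedAddCommGroup E] {f : H → E}
    (hf : Continuous f) : Integrable f μ :=
  hf.integrable_of_hasCompactSupport (HasCompactSupport.of_compactSpace f)

theorem tBG : S_BG := by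
  intro hSch Γ G Gf V _ _ _ _ _ _ _ _ _ _ _ μ _ _ ja jf K ρ hirr φ hφ
  obtain ⟨hnt, hsub⟩ := hirr
  have hD0 : (Module.finrank ℂ V : ℂ) ≠ 0 := by
    have : 0 < Module.finrank ℂ V := Module.finrank_pos
    exact_mod_cast this.ne'
  have hφc : ∀ g : Gf, Continuous fun x => φ x g := fun g => BG_cont ρ (hφ.2 g)
  have hconj : ∀ {F : G → ℂ}, Continuous F → Continuous fun x => (starRingEnd ℂ) (F x) :=
    fun hF => Complex.continuous_conj.comp hF
  have hI : ∀ {F : G → ℂ}, Continuous F → ∀ v : V,
      Integrable (fun x : G => (starRingEnd ℂ) (F x) • ρ.act x v) μ :=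
    fun hF v => BG_int μ ((hconj hF).smul (ρ.cont v))
  refine ⟨fun l g => (Module.finrank ℂ V : ℂ) •
    ∫ x, (starRingEnd ℂ) (φ x g) • ρ.act x (stdOrthonormalBasis ℂ V l) ∂μ, ?_, ?_⟩
  · intro l γ g κ hκ
    have h3 : ∀ x : G, φ (ja γ * x) (jf γ * g * κ) = φ x g := fun x => hφ.1 γ x g κ hκ
    change (Module.finrank ℂ V : ℂ) • ∫ x, (starRingEnd ℂ) (φ x (jf γ * g * κ)) •
        ρ.act x (stdOrthonormalBasis ℂ V l) ∂μ =
      ρ.act (ja γ) ((Module.finrank ℂ V : ℂ) •
        ∫ x, (starRingEnd ℂ) (φ x g) • ρ.act x (stdOrthonormalBasis ℂ V l) ∂μ)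
    rw [map_smul]
    congr 1
    have h6 := (ρ.act (ja γ)).toContinuousLinearEquiv.integral_comp_comm
      (fun x : G => (starRingEnd ℂ) (φ x g) • ρ.act x (stdOrthonormalBasis ℂ V l)) (μ := μ)
    refine Eq.trans ?_ h6
    rw [← integral_mul_left_eq_self
      (fun x : G => (starRingEnd ℂ) (φ x (jf γ * g * κ)) • ρ.act x (stdOrthonormalBasis ℂ V l)) (ja γ)]
    refine integral_congr_ae (Filter.Eventually.of_forall fun x => ?_)
    change (starRingEnd ℂ) (φ (ja γ * x) (jf γ * g * κ)) • ρ.act (ja γ * x) (stdOrthonormalBasis ℂ V l) =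
      ρ.act (ja γ) ((starRingEnd ℂ) (φ x g) • ρ.act x (stdOrthonormalBasis ℂ V l))
    rw [h3, map_smul, map_mul]
    rfl
  · intro x g
    have key : ∀ F ∈ coef ρ, F x = ∑ l, inner ℂ ((Module.finrank ℂ V : ℂ) •
        ∫ y, (starRingEnd ℂ) (F y) • ρ.act y (stdOrthonormalBasis ℂ V l) ∂μ)
          (ρ.act x (stdOrthonormalBasis ℂ V l)) := by
      intro F hF
      unfold coef at hF
      induction hF using Submodule.span_induction with
      | mem F hF =>
        obtain ⟨u, v, rfl⟩ := hF
        have h1 : ∀ l, (Module.finrank ℂ V : ℂ) •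
            ∫ y, (starRingEnd ℂ) (inner ℂ u (ρ.act y v)) • ρ.act y (stdOrthonormalBasis ℂ V l) ∂μ =
            inner ℂ v (stdOrthonormalBasis ℂ V l) • u := by
          intro l
          have h2 := hSch G V μ ρ ⟨hnt, hsub⟩ u v (stdOrthonormalBasis ℂ V l)
          have h3 : ∫ y, (starRingEnd ℂ) (inner ℂ u (ρ.act y v)) • ρ.act y (stdOrthonormalBasis ℂ V l) ∂μ =
              ∫ y, inner ℂ (ρ.act y v) u • ρ.act y (stdOrthonormalBasis ℂ V l) ∂μ := by
            refine integral_congr_ae (Filter.Eventually.of_forall fun y => ?_)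
            change (starRingEnd ℂ) (inner ℂ u (ρ.act y v)) • _ = inner ℂ (ρ.act y v) u • _
            rw [inner_conj_symm]
          rw [h3, h2, smul_smul, ← mul_assoc, mul_inv_cancel₀ hD0, one_mul]
        simp only [h1]
        have h4 : ρ.act x v = ∑ l, inner ℂ (stdOrthonormalBasis ℂ V l) v •
            ρ.act x (stdOrthonormalBasis ℂ V l) := by
          conv_lhs => rw [← (stdOrthonormalBasis ℂ V).sum_repr' v]
          rw [map_sum]
          refine Finset.sum_congr rfl fun l _ => ?_
          rw [map_smul]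
        rw [h4, inner_sum]
        refine Finset.sum_congr rfl fun l _ => ?_
        rw [inner_smul_left, inner_smul_right, inner_conj_symm]
      | zero => simp
      | add F F1 hF hF1 h1 h2 =>
        have e1 : ∀ l, ∫ y, (starRingEnd ℂ) ((F + F1) y) • ρ.act y (stdOrthonormalBasis ℂ V l) ∂μ =
            (∫ y, (starRingEnd ℂ) (F y) • ρ.act y (stdOrthonormalBasis ℂ V l) ∂μ) +
            ∫ y, (starRingEnd ℂ) (F1 y) • ρ.act y (stdOrthonormalBasis ℂ V l) ∂μ := by
          intro l
          rw [← integral_add (hI (BG_cont ρ hF) _) (hI (BG_cont ρ hF1) _)]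
          refine integral_congr_ae (Filter.Eventually.of_forall fun y => ?_)
          change (starRingEnd ℂ) (F y + F1 y) • _ = _
          rw [map_add, add_smul]
        simp only [e1, smul_add, inner_add_left, Finset.sum_add_distrib]
        rw [Pi.add_apply, ← h1, ← h2]
      | smul c F hF h1 =>
        have e1 : ∀ l, ∫ y, (starRingEnd ℂ) ((c • F) y) • ρ.act y (stdOrthonormalBasis ℂ V l) ∂μ =
            (starRingEnd ℂ) c • ∫ y, (starRingEnd ℂ) (F y) • ρ.act y (stdOrthonormalBasis ℂ V l) ∂μ := by
          intro l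
          rw [← integral_smul]
          refine integral_congr_ae (Filter.Eventually.of_forall fun y => ?_)
          change (starRingEnd ℂ) (c * F y) • _ = _
          rw [map_mul, mul_smul]
        simp only [e1]
        rw [Pi.smul_apply, smul_eq_mul, h1, Finset.mul_sum]
        refine Finset.sum_congr rfl fun l _ => ?_
        rw [smul_comm, inner_smul_left _ _ ((starRingEnd ℂ) c), Complex.conj_conj]
    exact key (fun x => φ x g) (hφ.2 g)

end Pool.Agent.GP
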