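import Pool.Agent.Lib.GP.SpecA

/-!
# Theorem GP: CN1, reduced forms (author helper86)
-/

set_option autoImplicit false

open IsDedekindDomain Matrix MeasureTheory

noncomputable section

namespace Pool.Agent.GP

theorem tCN1 : S_CN1 := by
  intro hRed hHer N
  induction N with
  | zero =>
    intro Δ
    exact ⟨0, fun S _ _ => ⟨1, 1, Matrix.one_mul 1, Matrix.one_mul 1, fun i => i.elim0⟩⟩
  | succ N ih =>
    intro Δ
    obtain ⟨c, hc, hH⟩ := hHer N
    obtain ⟨R', hR'⟩ := ih ((c * Δ) ^ N * Δ)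
    refine ⟨R' + (c * Δ) ^ 2 + c * Δ, fun S hS hdS => ?_⟩
    obtain ⟨a, T, ha, hmin, hT, hdT, hW⟩ := hRed N S hS
    obtain ⟨x, hx, hx0, hx1⟩ := hH S hS
    have hc' : (0 : ℤ) < c := by exact_mod_cast hc
    have haA : a ≤ c * Δ := by
      calc a ≤ a ^ (N + 1) := le_self_pow₀ (by linarith) (by omega)
        _ ≤ (x ⬝ᵥ (S *ᵥ x)) ^ (N + 1) := pow_le_pow_left₀ ha.le (hmin x hx) _
        _ ≤ c * S.det := hx1
        _ ≤ c * Δ := mul_le_mul_of_nonneg_left hdS hc'.le
    have hdet : T.det ≤ (((c * Δ) ^ N * Δ : ℕ) : ℤ) := by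
      rcases le_or_gt T.det 0 with h | h
      · exact le_trans h (by positivity)
      · have hΔ : (0 : ℤ) ≤ Δ := by positivity
        calc T.det ≤ a * T.det := le_mul_of_one_le_left h.le (by linarith)
          _ = a ^ N * S.det := hdT
          _ ≤ a ^ N * Δ := mul_le_mul_of_nonneg_left hdS (pow_nonneg ha.le _)
          _ ≤ (c * Δ) ^ N * Δ := mul_le_mul_of_nonneg_right (pow_le_pow_left₀ ha.le haA _) hΔ
          _ = (((c * Δ) ^ N * Δ : ℕ) : ℤ) := by push_cast; ring
    obtain ⟨W, W', w1, w2, w3⟩ := hR' T hT hdet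
    obtain ⟨U, U', u1, u2, h00, h0, hij⟩ := hW W W' w1 w2
    have hsym : ∀ i j, (Uᵀ * S * U) i j = (Uᵀ * S * U) j i := by
      intro i j
      have h1 : (Uᵀ * S * U)ᵀ = Uᵀ * S * U := by
        rw [Matrix.transpose_mul, Matrix.transpose_mul, Matrix.transpose_transpose, hS.1.eq,
          Matrix.mul_assoc]
      calc (Uᵀ * S * U) i j = (Uᵀ * S * U)ᵀ j i := rfl
        _ = (Uᵀ * S * U) j i := by rw [h1]
    refine ⟨U, U', u1, u2, ?_⟩
    generalize Uᵀ * S * U = M at *
    have hR0 : (0 : ℤ) ≤ R' := by positivity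
    have hA2 : a ^ 2 ≤ (c * Δ : ℤ) ^ 2 := pow_le_pow_left₀ ha.le haA 2
    have hA0 : (0 : ℤ) ≤ c * Δ := by positivity
    have ha2 : 0 ≤ a ^ 2 := sq_nonneg a
    have hb0 : ∀ i : Fin N, |M 0 i.succ| ≤ a := by
      intro i
      have h1 := h0 i
      have h2 := abs_nonneg (M 0 i.succ)
      linarith
    push_cast
    intro i j
    refine Fin.cases ?_ (fun i => ?_) i
    · refine Fin.cases ?_ (fun j => ?_) j
      · rw [h00, abs_of_pos ha]
        linarith
      · have h1 := hb0 j
        linarith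
    · refine Fin.cases ?_ (fun j => ?_) j
      · rw [hsym]
        have h1 := hb0 i
        linarith
      · have h1 := hij i j
        have h2 := w3 i j
        have h3 : |M 0 i.succ * M 0 j.succ| ≤ a ^ 2 := by
          rw [abs_mul, sq]
          exact mul_le_mul (hb0 i) (hb0 j) (abs_nonneg _) ha.le
        have h4 : |a * M i.succ j.succ| ≤ R' + a ^ 2 := by
          have h5 : a * M i.succ j.succ = (Wᵀ * T * W) i j + M 0 i.succ * M 0 j.succ := by linarith
          rw [h5]
          exact le_trans (abs_add_le _ _) (add_le_add h2 h3)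
        have h6 : |M i.succ j.succ| ≤ |a * M i.succ j.succ| := by
          rw [abs_mul, abs_of_pos ha]
          exact le_mul_of_one_le_left (abs_nonneg _) (by linarith)
        linarith

end Pool.Agent.GP
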