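import Pool.Agent.Lib.GP.SpecA

/-!
# Theorem GP, module CN2: the rational lattice of an adelic matrix
-/

set_option autoImplicit false

open IsDedekindDomain Matrix MeasureTheory

noncomputable section

namespace Pool.Agent.GP

section gen

variable {A : Type} [CommRing A] [Algebra ℚ A] {N : ℕ}

/-- the lattice of `g'` -/
private def CN2_L (Z : Subring A) (g' : Matrix (Fin N) (Fin N) A) : Submodule ℤ (Fin N → ℚ) where
  carrier := {x | ∀ i, (g' *ᵥ ve x A) i ∈ Z}
  add_mem' := by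
    intro x y hx hy i
    have e : ve (x + y) A = ve x A + ve y A := by
      funext j
      show algebraMap ℚ A (x j + y j) = algebraMap ℚ A (x j) + algebraMap ℚ A (y j)
      rw [map_add]
    rw [e, Matrix.mulVec_add]
    exact Z.add_mem (hx i) (hy i)
  zero_mem' := by
    intro i
    have e : ve (0 : Fin N → ℚ) A = 0 := by
      funext j
      show algebraMap ℚ A 0 = 0
      rw [map_zero]
    rw [e, Matrix.mulVec_zero]
    exact Z.zero_mem
  smul_mem' := by
    intro c x hx i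
    have e : ve (c • x) A = (c : A) • ve x A := by
      funext j
      show algebraMap ℚ A (c • x j) = (c : A) * algebraMap ℚ A (x j)
      rw [zsmul_eq_mul, map_mul, map_intCast]
    rw [e, Matrix.mulVec_smul]
    exact Z.mul_mem (intCast_mem Z c) (hx i)

private theorem CN2_common (Z : Subring A) (h : ∀ a : A, ∃ m : ℕ, 0 < m ∧ (m : A) * a ∈ Z)
    {κ : Type} [Fintype κ] (f : κ → A) : ∃ m : ℕ, 0 < m ∧ ∀ k, (m : A) * f k ∈ Z := by
  classical
  choose m hm hm' using fun k => h (f k)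
  refine ⟨∏ k, m k, Finset.prod_pos fun k _ => hm k, fun k => ?_⟩
  obtain ⟨c, hc⟩ := Finset.dvd_prod_of_mem m (Finset.mem_univ k)
  rw [hc, Nat.cast_mul, mul_comm ((m k : ℕ) : A), mul_assoc]
  exact Z.mul_mem (natCast_mem Z c) (hm' k)

private theorem CN2_lat (m : ℕ) (hm : 0 < m) (L : Submodule ℤ (Fin N → ℚ))
    (h1 : ∀ i : Fin N, (fun j => if j = i then (m : ℚ) else 0) ∈ L)
    (h2 : ∀ x ∈ L, ∀ i, ∃ z : ℤ, (m : ℚ) * x i = z) : L.IsLattice ℚ := by
  have hm0 : (m : ℚ) ≠ 0 := by exact_mod_cast hm.ne'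
  let f : (Fin N → ℤ) →ₗ[ℤ] (Fin N → ℚ) :=
    { toFun := fun w i => (m : ℚ)⁻¹ * (w i : ℚ)
      map_add' := by
        intro v w
        funext i
        simp only [Pi.add_apply, Int.cast_add, mul_add]
      map_smul' := by
        intro c v
        funext i
        simp only [Pi.smul_apply, smul_eq_mul, Int.cast_mul, RingHom.id_apply, zsmul_eq_mul]
        ring }
  refine ⟨?_, ?_⟩
  · have hr : L ≤ LinearMap.range f := by
      intro x hx
      choose w hw using h2 x hx
      refine ⟨w, ?_⟩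
      funext i
      show (m : ℚ)⁻¹ * (w i : ℚ) = x i
      rw [← hw i, ← mul_assoc, inv_mul_cancel₀ hm0, one_mul]
    have e : L = (L.comap f).map f := by
      rw [Submodule.map_comap_eq, inf_eq_right.2 hr]
    rw [e]
    exact Submodule.FG.map _ (IsNoetherian.noetherian _)
  · rw [eq_top_iff]
    intro v _
    have e : v = ∑ i, ((m : ℚ)⁻¹ * v i) • (fun j => if j = i then (m : ℚ) else 0 : Fin N → ℚ) := by
      funext j
      rw [Finset.sum_apply]
      simp only [Pi.smul_apply, smul_eq_mul, mul_ite, mul_zero, Finset.sum_ite_eq,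
        Finset.mem_univ, if_true]
      field_simp
    rw [e]
    exact Submodule.sum_mem _ fun i _ => Submodule.smul_mem _ _ (Submodule.subset_span (h1 i))

private theorem CN2_gen (Z : Subring A) (g g' : Matrix (Fin N) (Fin N) A) (h1 : g * g' = 1)
    (h2 : g' * g = 1) (ad1 : ∀ a : A, ∃ m : ℕ, 0 < m ∧ (m : A) * a ∈ Z)
    (ad2 : ∀ q : ℚ, algebraMap ℚ A q ∈ Z → ∃ z : ℤ, q = z)
    (ad3 : ∀ (a : A) (m : ℕ), 0 < m → ∃ (q : ℚ) (z : A), z ∈ Z ∧ a = algebraMap ℚ A q + m * z) :
    ∃ B B' : Matrix (Fin N) (Fin N) ℚ, B * B' = 1 ∧ B' * B = 1 ∧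
      (∀ i j, (g' * B.map (algebraMap ℚ A)) i j ∈ Z) ∧
      ∀ i j, (B'.map (algebraMap ℚ A) * g) i j ∈ Z := by
  classical
  obtain ⟨m1, hm1, hg1⟩ := CN2_common Z ad1 (fun p : Fin N × Fin N => g p.1 p.2)
  obtain ⟨m2, hm2, hg2⟩ := CN2_common Z ad1 (fun p : Fin N × Fin N => g' p.1 p.2)
  let m := m1 * m2
  have hm : 0 < m := Nat.mul_pos hm1 hm2
  have hmg : ∀ i j, (m : A) * g i j ∈ Z := by
    intro i j
    have e : (m : A) * g i j = (m2 : A) * ((m1 : A) * g i j) := by
      rw [← mul_assoc, ← Nat.cast_mul, mul_comm m2 m1]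
    rw [e]
    exact Z.mul_mem (natCast_mem Z m2) (hg1 (i, j))
  have hmg' : ∀ i j, (m : A) * g' i j ∈ Z := by
    intro i j
    have e : (m : A) * g' i j = (m1 : A) * ((m2 : A) * g' i j) := by
      rw [← mul_assoc, ← Nat.cast_mul]
    rw [e]
    exact Z.mul_mem (natCast_mem Z m1) (hg2 (i, j))
  let L := CN2_L Z g'
  have hL : ∀ x : Fin N → ℚ, x ∈ L ↔ ∀ i, (g' *ᵥ ve x A) i ∈ Z := fun x => Iff.rfl
  have hL1 : ∀ i : Fin N, (fun j => if j = i then (m : ℚ) else 0) ∈ L := by
    intro i k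
    have e : (g' *ᵥ ve (fun j => if j = i then (m : ℚ) else 0) A) k = (m : A) * g' k i := by
      show ∑ j, g' k j * algebraMap ℚ A (if j = i then (m : ℚ) else 0) = _
      rw [Finset.sum_eq_single i]
      · rw [if_pos rfl, map_natCast, mul_comm]
      · intro j _ hj
        rw [if_neg hj, map_zero, mul_zero]
      · intro hn
        exact absurd (Finset.mem_univ i) hn
    rw [e]
    exact hmg' k i
  have hL2 : ∀ x ∈ L, ∀ i, ∃ z : ℤ, (m : ℚ) * x i = z := by
    intro x hx i
    apply ad2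
    have e1 : g *ᵥ (g' *ᵥ ve x A) = ve x A := by
      rw [Matrix.mulVec_mulVec, h1, Matrix.one_mulVec]
    have e2 : algebraMap ℚ A ((m : ℚ) * x i) = ∑ j, ((m : A) * g i j) * (g' *ᵥ ve x A) j := by
      have e3 : algebraMap ℚ A (x i) = ∑ j, g i j * (g' *ᵥ ve x A) j := (congrFun e1 i).symm
      rw [map_mul, map_natCast, e3, Finset.mul_sum]
      exact Finset.sum_congr rfl fun j _ => (mul_assoc _ _ _).symm
    rw [e2]
    exact Z.sum_mem fun j _ => Z.mul_mem (hmg i j) (hx j)
  have hlat : L.IsLattice ℚ := CN2_lat m hm L hL1 hL2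
  have hfree : Module.Free ℤ L := Submodule.IsLattice.free ℚ L
  have hrank : Module.finrank ℤ L = Fintype.card (Fin N) :=
    Submodule.IsLattice.finrank_of_pi ℚ L
  have hcard : Fintype.card (Fin (Module.finrank ℤ L)) = Fintype.card (Fin N) := by
    rw [Fintype.card_fin, hrank]
  let b : Module.Basis (Fin N) ℤ L :=
    (Module.finBasis ℤ L).reindex (Fintype.equivOfCardEq hcard)
  let c : Module.Basis (Fin N) ℚ (Fin N → ℚ) := b.extendOfIsLattice ℚ
  have hc : ∀ k, c k = (b k).val := fun k => Module.Basis.extendOfIsLattice_apply ℚ b k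
  have hB1 : (Pi.basisFun ℚ (Fin N)).toMatrix c * c.toMatrix (Pi.basisFun ℚ (Fin N)) = 1 := by
    rw [Module.Basis.toMatrix_mul_toMatrix_flip]
  have hB2 : c.toMatrix (Pi.basisFun ℚ (Fin N)) * (Pi.basisFun ℚ (Fin N)).toMatrix c = 1 := by
    rw [Module.Basis.toMatrix_mul_toMatrix_flip]
  have hB : ∀ i j, (Pi.basisFun ℚ (Fin N)).toMatrix c i j = c j i := by
    intro i j
    rw [Module.Basis.toMatrix_apply, Pi.basisFun_repr]
  -- the coordinates of an element of the lattice
  have hint : ∀ y ∈ L, ∀ i, ∃ z : ℤ, (c.toMatrix (Pi.basisFun ℚ (Fin N)) *ᵥ y) i = z := by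
    intro y hy i
    refine ⟨b.repr ⟨y, hy⟩ i, ?_⟩
    have e1 : (Pi.basisFun ℚ (Fin N)).toMatrix c *ᵥ (fun k => ((b.repr ⟨y, hy⟩ k : ℤ) : ℚ)) = y := by
      have e2 := congrArg Subtype.val (b.sum_repr ⟨y, hy⟩)
      simp only [Submodule.coe_sum, Submodule.coe_smul] at e2
      refine Eq.trans ?_ e2
      funext k
      rw [Finset.sum_apply]
      show ∑ j, (Pi.basisFun ℚ (Fin N)).toMatrix c k j * ((b.repr ⟨y, hy⟩ j : ℤ) : ℚ) = _
      refine Finset.sum_congr rfl fun j _ => ?_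
      rw [hB, hc, Pi.smul_apply, zsmul_eq_mul, mul_comm]
    have e3 : c.toMatrix (Pi.basisFun ℚ (Fin N)) *ᵥ y = fun k => ((b.repr ⟨y, hy⟩ k : ℤ) : ℚ) := by
      conv_lhs => rw [← e1]
      rw [Matrix.mulVec_mulVec, hB2, Matrix.one_mulVec]
    rw [e3]
  refine ⟨(Pi.basisFun ℚ (Fin N)).toMatrix c, c.toMatrix (Pi.basisFun ℚ (Fin N)), hB1, hB2, ?_, ?_⟩
  · intro i j
    have hj : c j ∈ L := by
      rw [hc]
      exact (b j).2
    have e : (g' * ((Pi.basisFun ℚ (Fin N)).toMatrix c).map (algebraMap ℚ A)) i j =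
        (g' *ᵥ ve (c j) A) i := by
      rw [Matrix.mul_apply]
      show _ = ∑ k, g' i k * algebraMap ℚ A (c j k)
      refine Finset.sum_congr rfl fun k _ => ?_
      rw [Matrix.map_apply, hB]
    rw [e]
    exact (hL _).1 hj i
  · intro i j
    choose y z hz hyz using fun k => ad3 (g k j) m hm
    have hy : y ∈ L := by
      intro k
      have e1 : (g' *ᵥ ve y A) k = (1 : Matrix (Fin N) (Fin N) A) k j - ∑ l, ((m : A) * g' k l) * z l := by
        have e2 : (1 : Matrix (Fin N) (Fin N) A) k j = ∑ l, g' k l * g l j := by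
          rw [← h2, Matrix.mul_apply]
        rw [e2, ← Finset.sum_sub_distrib]
        show ∑ l, g' k l * algebraMap ℚ A (y l) = _
        refine Finset.sum_congr rfl fun l _ => ?_
        rw [hyz l]
        ring
      rw [e1]
      refine Z.sub_mem ?_ (Z.sum_mem fun l _ => Z.mul_mem (hmg' k l) (hz l))
      by_cases hkj : k = j
      · rw [hkj, Matrix.one_apply_eq]
        exact Z.one_mem
      · rw [Matrix.one_apply_ne hkj]
        exact Z.zero_mem
    have e3 : ((c.toMatrix (Pi.basisFun ℚ (Fin N))).map (algebraMap ℚ A) * g) i j =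
        algebraMap ℚ A ((c.toMatrix (Pi.basisFun ℚ (Fin N)) *ᵥ y) i) +
          ∑ l, algebraMap ℚ A ((c.toMatrix (Pi.basisFun ℚ (Fin N)) *ᵥ
            (fun k => if k = l then (m : ℚ) else 0)) i) * z l := by
      have e4 : ∀ l, (c.toMatrix (Pi.basisFun ℚ (Fin N)) *ᵥ
          (fun k => if k = l then (m : ℚ) else 0)) i = c.toMatrix (Pi.basisFun ℚ (Fin N)) i l * m := by
        intro l
        show ∑ k, c.toMatrix (Pi.basisFun ℚ (Fin N)) i k * (if k = l then (m : ℚ) else 0) = _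
        rw [Finset.sum_eq_single l]
        · rw [if_pos rfl]
        · intro k _ hk
          rw [if_neg hk, mul_zero]
        · intro hn
          exact absurd (Finset.mem_univ l) hn
      have e5 : algebraMap ℚ A ((c.toMatrix (Pi.basisFun ℚ (Fin N)) *ᵥ y) i) =
          ∑ l, algebraMap ℚ A (c.toMatrix (Pi.basisFun ℚ (Fin N)) i l) * algebraMap ℚ A (y l) := by
        show algebraMap ℚ A (∑ l, c.toMatrix (Pi.basisFun ℚ (Fin N)) i l * y l) = _
        rw [map_sum]
        exact Finset.sum_congr rfl fun l _ => map_mul _ _ _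
      rw [Matrix.mul_apply, e5, ← Finset.sum_add_distrib]
      refine Finset.sum_congr rfl fun l _ => ?_
      rw [e4, Matrix.map_apply, hyz l, map_mul, map_natCast]
      ring
    rw [e3]
    refine Z.add_mem ?_ (Z.sum_mem fun l _ => Z.mul_mem ?_ (hz l))
    · obtain ⟨w, hw⟩ := hint y hy i
      rw [hw, map_intCast]
      exact intCast_mem Z w
    · obtain ⟨w, hw⟩ := hint _ (hL1 l) i
      rw [hw, map_intCast]
      exact intCast_mem Z w

end gen

theorem tCN2 : S_CN2 := fun h1 h2 h3 _ g g' e1 e2 => CN2_gen Zh g g' e1 e2 h1 h2 h3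

end Pool.Agent.GP
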