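import Pool.Agent.Lib.GP.SpecA

/-!
# Theorem GP: the class number is finite (CN4)
-/

set_option autoImplicit false

open IsDedekindDomain Matrix MeasureTheory

noncomputable section

namespace Pool.Agent.GP

/-- Residues modulo `m` of integral adeles. -/
private theorem CN4_res (h2 : C_AD2) (h3 : C_AD3) (m : ℕ) (hm : 0 < m) (a : Af) (ha : a ∈ Zh) :
    ∃ (r : Fin m) (z : Af), z ∈ Zh ∧ a = ((r : ℕ) : Af) + (m : Af) * z := by
  obtain ⟨q, z, hz, hq⟩ := h3 a m hm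
  have hqz : algebraMap ℚ Af q ∈ Zh := by
    have e : algebraMap ℚ Af q = a - (m : Af) * z := by
      rw [hq]
      ring
    rw [e]
    exact Zh.sub_mem ha (Zh.mul_mem (natCast_mem Zh m) hz)
  obtain ⟨n, hn⟩ := h2 q hqz
  have hm' : (m : ℤ) ≠ 0 := by exact_mod_cast hm.ne'
  have hr0 : 0 ≤ n % m := Int.emod_nonneg n hm'
  have hr1 : n % m < m := Int.emod_lt_of_pos n (by exact_mod_cast hm)
  have hlt : (n % m).toNat < m := by omega
  refine ⟨⟨(n % m).toNat, hlt⟩, ((n / m : ℤ) : Af) + z, Zh.add_mem (intCast_mem Zh _) hz, ?_⟩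
  have e1 : (((n % m).toNat : ℕ) : Af) = ((n % m : ℤ) : Af) := by
    rw [← Int.cast_natCast, Int.toNat_of_nonneg hr0]
  have e2 : algebraMap ℚ Af q = ((n : ℤ) : Af) := by
    rw [hn, map_intCast]
  have e3 : ((n : ℤ) : Af) = ((n % m : ℤ) : Af) + (m : Af) * ((n / m : ℤ) : Af) := by
    have := Int.emod_add_mul_ediv n m
    conv_lhs => rw [← this]
    push_cast
    ring
  change a = (((n % m).toNat : ℕ) : Af) + _
  rw [hq, e2, e1, e3]
  ring

/-- **CN4.** The class number is finite. -/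
theorem tCN4 : S_CN4 := by
  intro hAD2 hAD3 hAD6 hFin hCN3 N Q e K hQ hK
  obtain ⟨m, hm, hmK⟩ := hAD6 N Q K hK
  obtain ⟨q, R, κ, hq, hCN⟩ := hCN3 N Q e hQ
  choose B B' S c h1 h2 h3 h4 h5 h6 h7 h8 h9 h10 using fun h : Hp Q e Af => hCN h.1 h.2
  choose r z hz hr using fun (h : Hp Q e Af) (i j : Fin N) =>
    CN4_res hAD2 hAD3 m hm _ (h3 h i j)
  have hq0 : (q : ℚ) ≠ 0 := by exact_mod_cast hq.ne'
  let F : Hp Q e Af → Matrix (Fin N) (Fin N) ℤ × (Fin N → ℤ) × (Fin N → Fin N → Fin m) × ℚ :=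
    fun h => (S h, c h, r h, (B h).det)
  -- the claim
  have claim : ∀ g₁ g₂ : Hp Q e Af, F g₁ = F g₂ →
      ∃ γ : Hp Q e ℚ, ∃ k ∈ KH Q e K, g₂ = jH Q e Af γ * g₁ * k := by
    intro g₁ g₂ hF
    have eS : S g₁ = S g₂ := congrArg (fun p => p.1) hF
    have ec : c g₁ = c g₂ := congrArg (fun p => p.2.1) hF
    have er : r g₁ = r g₂ := congrArg (fun p => p.2.2.1) hF
    have ed : (B g₁).det = (B g₂).det := congrArg (fun p => p.2.2.2) hF
    -- `δ`
    have eQ : (B g₁)ᵀ * Q * B g₁ = (B g₂)ᵀ * Q * B g₂ := by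
      have h := (h8 g₁).trans ((congrArg (fun M => M.map (Int.cast : ℤ → ℚ)) eS).trans
        (h8 g₂).symm)
      exact smul_right_injective _ hq0 h
    have ee : B' g₁ *ᵥ e = B' g₂ *ᵥ e := by
      have h := (h9 g₁).trans ((congrArg (fun M : Fin N → ℤ => fun i => ((M i : ℤ) : ℚ)) ec).trans
        (h9 g₂).symm)
      exact smul_right_injective _ hq0 h
    have hδQ : (B g₁ * B' g₂)ᵀ * Q * (B g₁ * B' g₂) = Q := by
      calc (B g₁ * B' g₂)ᵀ * Q * (B g₁ * B' g₂)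
          = (B' g₂)ᵀ * ((B g₁)ᵀ * Q * B g₁) * B' g₂ := by
            rw [Matrix.transpose_mul]
            simp only [Matrix.mul_assoc]
        _ = (B' g₂)ᵀ * ((B g₂)ᵀ * Q * B g₂) * B' g₂ := by rw [eQ]
        _ = (B g₂ * B' g₂)ᵀ * Q * (B g₂ * B' g₂) := by
            rw [Matrix.transpose_mul]
            simp only [Matrix.mul_assoc]
        _ = Q := by rw [h1 g₂, Matrix.transpose_one, Matrix.one_mul, Matrix.mul_one]
    have hδd : (B g₁ * B' g₂).det = 1 := by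
      rw [Matrix.det_mul, ed, ← Matrix.det_mul, h1 g₂, Matrix.det_one]
    have hδe : (B g₁ * B' g₂) *ᵥ e = e := by
      rw [← Matrix.mulVec_mulVec, ← ee, Matrix.mulVec_mulVec, h1 g₁, Matrix.one_mulVec]
    have eQQ : Q.map (algebraMap ℚ ℚ) = Q := by ext i j; rfl
    have eve : ve e ℚ = e := rfl
    let δ : Hp Q e ℚ := ⟨⟨⟨B g₁ * B' g₂, hδd⟩, by
      change (B g₁ * B' g₂)ᵀ * Q.map (algebraMap ℚ ℚ) * (B g₁ * B' g₂) = Q.map (algebraMap ℚ ℚ)
      rw [eQQ]
      exact hδQ⟩, by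
      change (B g₁ * B' g₂) *ᵥ ve e ℚ = ve e ℚ
      rw [eve]
      exact hδe⟩
    refine ⟨δ⁻¹, g₁⁻¹ * jH Q e Af δ * g₂, ?_, ?_⟩
    · change (g₁⁻¹ * jH Q e Af δ * g₂).1 ∈ K
      refine hmK _ ?_
      -- the matrices
      set A : Matrix (Fin N) (Fin N) Af := ((g₁.1)⁻¹).1.1 * (B g₁).map (algebraMap ℚ Af) with hA
      set A₂ : Matrix (Fin N) (Fin N) Af := ((g₂.1)⁻¹).1.1 * (B g₂).map (algebraMap ℚ Af) with hA₂
      set V : Matrix (Fin N) (Fin N) Af := (B' g₂).map (algebraMap ℚ Af) * g₂.1.1.1 with hV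
      have hk : (g₁⁻¹ * jH Q e Af δ * g₂).1.1.1 = A * V := by
        change ((g₁.1)⁻¹).1.1 * (B g₁ * B' g₂).map (algebraMap ℚ Af) * g₂.1.1.1 = A * V
        rw [Matrix.map_mul, hA, hV]
        simp only [Matrix.mul_assoc]
      have hone : A₂ * V = 1 := by
        have e1 : (B g₂).map (algebraMap ℚ Af) * (B' g₂).map (algebraMap ℚ Af) = 1 := by
          rw [← Matrix.map_mul, h1 g₂]
          exact Matrix.map_one _ (map_zero _) (map_one _)
        have e2 : ((g₂.1)⁻¹).1.1 * g₂.1.1.1 = 1 := by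
          have := congrArg (fun z : Gp Q Af => z.1.1) (inv_mul_cancel g₂.1)
          exact this
        calc A₂ * V = ((g₂.1)⁻¹).1.1 *
              ((B g₂).map (algebraMap ℚ Af) * (B' g₂).map (algebraMap ℚ Af)) * g₂.1.1.1 := by
              rw [hA₂, hV]
              simp only [Matrix.mul_assoc]
          _ = 1 := by rw [e1, Matrix.mul_one, e2]
      intro i j
      refine ⟨∑ l, (z g₁ i l - z g₂ i l) * V l j,
        Zh.sum_mem fun l _ => Zh.mul_mem (Zh.sub_mem (hz g₁ i l) (hz g₂ i l)) (h4 g₂ l j), ?_⟩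
      rw [hk]
      have e3 : (A * V) i j = (A₂ * V) i j + ∑ l, (A i l - A₂ i l) * V l j := by
        rw [Matrix.mul_apply, Matrix.mul_apply, ← Finset.sum_add_distrib]
        refine Finset.sum_congr rfl fun l _ => ?_
        ring
      rw [e3, hone, Finset.mul_sum]
      congr 1
      refine Finset.sum_congr rfl fun l _ => ?_
      have e4 : A i l = ((r g₁ i l : ℕ) : Af) + (m : Af) * z g₁ i l := hr g₁ i l
      have e5 : A₂ i l = ((r g₂ i l : ℕ) : Af) + (m : Af) * z g₂ i l := hr g₂ i l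
      rw [e4, e5, er]
      ring
    · rw [map_inv]
      group
  -- finiteness of the set of tuples
  let T : Set (Matrix (Fin N) (Fin N) ℤ × (Fin N → ℤ) × (Fin N → Fin N → Fin m) × ℚ) :=
    ⋃ S₀ ∈ {S₀ : Matrix (Fin N) (Fin N) ℤ | PD S₀ ∧ ∀ i j, |S₀ i j| ≤ R},
      {S₀} ×ˢ ({c₀ : Fin N → ℤ | c₀ ⬝ᵥ (S₀ *ᵥ c₀) ≤ κ} ×ˢ (Set.univ ×ˢ {(1 : ℚ), -1}))
  have hS : {S₀ : Matrix (Fin N) (Fin N) ℤ | PD S₀ ∧ ∀ i j, |S₀ i j| ≤ R}.Finite := by
    have hp : {f : Fin N → Fin N → ℤ | ∀ i, f i ∈ {g : Fin N → ℤ | ∀ j, g j ∈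
        Set.Icc (-(R : ℤ)) R}}.Finite :=
      Set.Finite.pi' fun _ => Set.Finite.pi' fun _ => Set.finite_Icc _ _
    refine hp.subset fun S₀ h => ?_
    intro i j
    exact abs_le.1 (h.2 i j)
  have hT : T.Finite := by
    refine hS.biUnion fun S₀ h => ?_
    exact (Set.finite_singleton S₀).prod ((hFin N S₀ κ h.1).prod
      (Set.finite_univ.prod ((Set.finite_singleton _).insert _)))
  have hFT : ∀ h : Hp Q e Af, F h ∈ T := by
    intro h
    refine Set.mem_biUnion (x := S h) ⟨h6 h, h7 h⟩ ?_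
    refine ⟨rfl, h10 h, Set.mem_univ _, ?_⟩
    exact h5 h
  have hTf : Finite T := hT.to_subtype
  refine Finite.of_injective (fun x : ClH Q e K => (⟨F (Quotient.out x), hFT _⟩ : T)) ?_
  intro x y hxy
  have hxy' : F (Quotient.out x) = F (Quotient.out y) := congrArg Subtype.val hxy
  have h := Quotient.sound (s := clsSetoid (jH Q e Af) (KH Q e K)) (claim _ _ hxy')
  rw [Quotient.out_eq, Quotient.out_eq] at h
  exact h

end Pool.Agent.GP
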