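import Pool.Agent.Lib.GP.Spec

/-!
# Cir: the circle through `g e` in the stabilizer of `e`
-/

set_option autoImplicit false

open IsDedekindDomain Matrix MeasureTheory
open scoped Real

noncomputable section

namespace Pool.Agent.GP

/-- a unit vector orthogonal to two given vectors -/
private theorem Cir_perp (N : ℕ) (hN : 3 ≤ N) (e v : EE N) :
    ∃ w : EE N, ‖w‖ = 1 ∧ inner ℝ w e = (0 : ℝ) ∧ inner ℝ w v = (0 : ℝ) := by
  classical
  let S : Submodule ℝ (EE N) := Submodule.span ℝ (({e, v} : Finset (EE N)) : Set (EE N))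
  have h1 : Module.finrank ℝ S ≤ 2 := (finrank_span_finset_le_card _).trans Finset.card_le_two
  have h2 := Submodule.finrank_add_finrank_orthogonal S
  have h3 : Module.finrank ℝ (EE N) = N := by simp
  have h4 : Sᗮ ≠ ⊥ := by
    intro h
    rw [h, finrank_bot] at h2
    omega
  obtain ⟨u, hu, hu0⟩ := Submodule.exists_mem_ne_zero_of_ne_bot h4
  have he : inner ℝ u e = (0 : ℝ) := by
    rw [real_inner_comm]
    exact hu e (Submodule.subset_span (by simp))
  have hv : inner ℝ u v = (0 : ℝ) := by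
    rw [real_inner_comm]
    exact hu v (Submodule.subset_span (by simp))
  refine ⟨‖u‖⁻¹ • u, ?_, ?_, ?_⟩
  · rw [norm_smul, norm_inv, norm_norm, inv_mul_cancel₀ (norm_ne_zero_iff.2 hu0)]
  · rw [real_inner_smul_left, he, mul_zero]
  · rw [real_inner_smul_left, hv, mul_zero]

theorem tCir : S_Cir := by
  intro N G _ _ e R hN g t ht htt
  have hs0 : 0 < 1 - t ^ 2 := by linarith
  obtain ⟨s, hs, hss⟩ : ∃ s : ℝ, 0 < s ∧ s ^ 2 = 1 - t ^ 2 :=
    ⟨√(1 - t ^ 2), Real.sqrt_pos.2 hs0, Real.sq_sqrt hs0.le⟩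
  have hee : inner ℝ e e = (1 : ℝ) := by rw [real_inner_self_eq_norm_sq, R.ne, one_pow]
  obtain ⟨x, hx⟩ : ∃ x, x = R.τ g e := ⟨_, rfl⟩
  have hxx : inner ℝ x x = (1 : ℝ) := by
    rw [hx, LinearIsometryEquiv.inner_map_map, hee]
  rw [← hx] at ht
  have hex : inner ℝ e x = t := by rw [real_inner_comm, ← ht]
  obtain ⟨v, hv⟩ : ∃ v, v = s⁻¹ • (x - t • e) := ⟨_, rfl⟩
  have hve : inner ℝ v e = (0 : ℝ) := by
    rw [hv, real_inner_smul_left, inner_sub_left, real_inner_smul_left, hee, ← ht]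
    ring
  have hvx : inner ℝ v x = s := by
    rw [hv, real_inner_smul_left, inner_sub_left, real_inner_smul_left, hxx, hex]
    have : 1 - t * t = s * s := by nlinarith
    rw [this, ← mul_assoc, inv_mul_cancel₀ hs.ne', one_mul]
  have hxv : inner ℝ x v = s := by rw [real_inner_comm, hvx]
  have hvv : inner ℝ v v = (1 : ℝ) := by
    have hev : inner ℝ e v = (0 : ℝ) := by rw [real_inner_comm, hve]
    calc inner ℝ v v = inner ℝ (s⁻¹ • (x - t • e)) v := by rw [← hv]
      _ = 1 := by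
        rw [real_inner_smul_left, inner_sub_left, real_inner_smul_left, hxv, hev, mul_zero, sub_zero,
          inv_mul_cancel₀ hs.ne']
  have hv1 : ‖v‖ = 1 := by
    have h := real_inner_self_eq_norm_sq v
    rw [hvv] at h
    have h2 := norm_nonneg v
    nlinarith
  obtain ⟨w, hw1, hwe, hwv⟩ := Cir_perp N hN e v
  have hww : inner ℝ w w = (1 : ℝ) := by rw [real_inner_self_eq_norm_sq, hw1, one_pow]
  have hvw : inner ℝ v w = (0 : ℝ) := by rw [real_inner_comm, hwv]
  have hxe : x = t • e + s • v := by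
    rw [hv, smul_smul, mul_inv_cancel₀ hs.ne', one_smul]
    abel
  have hwx : inner ℝ w x = (0 : ℝ) := by
    rw [hxe, inner_add_right, real_inner_smul_right, real_inner_smul_right, hwe, hwv]
    ring
  have hxw : inner ℝ x w = (0 : ℝ) := by rw [real_inner_comm, hwx]
  obtain ⟨c, hc, hrot⟩ := R.rot v w hv1 hw1 hvw
  have hce : ∀ α, R.τ (c α) e = e := by
    intro α
    rw [hrot, hve, hwe]
    simp
  have hcx : ∀ α, R.τ (c α) x = x + ((Real.cos α - 1) * s) • v + (Real.sin α * s) • w := by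
    intro α
    rw [hrot, hvx, hwx]
    simp
  refine ⟨c, hc, hce, ?_⟩
  intro α β
  have h1 : ∀ (y : G) (z : EE N), inner ℝ (R.τ y⁻¹ z) e = inner ℝ z (R.τ y e) := by
    intro y z
    have h2 : R.τ y (R.τ y⁻¹ z) = z := by
      have h3 : R.τ (y * y⁻¹) z = z := by rw [mul_inv_cancel, map_one]; rfl
      rw [map_mul] at h3
      exact h3
    conv_rhs => rw [← h2]
    rw [LinearIsometryEquiv.inner_map_map]
  have h4 : R.τ (g⁻¹ * (c α)⁻¹ * c β * g) e = R.τ (c α * g)⁻¹ (R.τ (c β) x) := by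
    have h5 : g⁻¹ * (c α)⁻¹ * c β * g = (c α * g)⁻¹ * (c β * g) := by
      group
    rw [h5, map_mul, map_mul R.τ (c β) g, hx]
    rfl
  have h6 : R.τ (c α * g) e = R.τ (c α) x := by
    rw [map_mul, hx]
    rfl
  rw [h4, h1, h6, hcx, hcx]
  simp only [inner_add_left, inner_add_right, real_inner_smul_left, real_inner_smul_right, hxx, hxv, hxw, hvx, hvv,
    hvw, hwx, hwv, hww]
  rw [Real.cos_sub]
  have e1 : 1 - t ^ 2 = s ^ 2 := hss.symm
  have e2 : t ^ 2 = 1 - s ^ 2 := by linarith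
  rw [e1, e2]
  ring

end Pool.Agent.GP
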