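import Pool.Agent.Lib.GP.Spec

set_option autoImplicit false

open IsDedekindDomain Matrix MeasureTheory
open scoped Real

noncomputable section

namespace Pool.Agent.GP

private theorem Cov_close {N : ℕ} (hN : 1 ≤ N) {G : Type} [Group G] [TopologicalSpace G] {e : EE N}
    (R : Rot G N e) {δ : ℝ} (hδ : 0 < δ) (x y : G)
    (h : ∀ i : Fin N, ⌊(R.τ x e) i / (δ / N)⌋ = ⌊(R.τ y e) i / (δ / N)⌋) :
    ‖R.τ (y⁻¹ * x) e - e‖ ≤ δ := by
  have hN' : (1 : ℝ) ≤ N := by exact_mod_cast hN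
  have hε : 0 < δ / N := by positivity
  have h1 : ‖R.τ (y⁻¹ * x) e - e‖ = ‖R.τ x e - R.τ y e‖ := by
    rw [← (R.τ y).norm_map (R.τ (y⁻¹ * x) e - e), map_sub]
    congr 2
    have h0 : R.τ x = R.τ y * R.τ (y⁻¹ * x) := by rw [← map_mul, mul_inv_cancel_left]
    rw [h0]
    rfl
  rw [h1]
  have h2 : ∀ i : Fin N, ‖(R.τ x e - R.τ y e) i‖ ≤ δ / N := by
    intro i
    have h3 := Int.abs_sub_lt_one_of_floor_eq_floor (h i)
    rw [← sub_div, abs_div, abs_of_pos hε, div_lt_one hε] at h3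
    rw [Real.norm_eq_abs]
    exact h3.le
  have h4 : ‖R.τ x e - R.τ y e‖ ^ 2 ≤ δ ^ 2 := by
    rw [EuclideanSpace.norm_sq_eq]
    calc ∑ i, ‖(R.τ x e - R.τ y e) i‖ ^ 2 ≤ ∑ _i : Fin N, (δ / N) ^ 2 :=
          Finset.sum_le_sum fun i _ => pow_le_pow_left₀ (norm_nonneg _) (h2 i) 2
      _ = δ ^ 2 / N := by
          rw [Finset.sum_const, Finset.card_univ, Fintype.card_fin, nsmul_eq_mul]
          field_simp
      _ ≤ δ ^ 2 := div_le_self (sq_nonneg _) hN'
  exact (pow_le_pow_iff_left₀ (norm_nonneg _) hδ.le two_ne_zero).1 h4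

theorem tCov : S_Cov := by
  intro N hN
  have hN' : (1 : ℝ) ≤ N := by exact_mod_cast hN
  refine ⟨((7 * N : ℝ) ^ N)⁻¹, by positivity, ?_⟩
  intro G _ _ _ _ _ e R μ _ _ δ hδ hδ1
  have hε : 0 < δ / N := by positivity
  set B : Set G := {x | ‖R.τ x e - e‖ ≤ δ} with hB
  set m : ℕ := ⌈(N : ℝ) / δ⌉₊ with hm
  have hm1 : (N : ℝ) / δ ≤ m := Nat.le_ceil _
  have hm2 : (m : ℝ) ≤ N / δ + 1 := (Nat.ceil_lt_add_one (by positivity)).le
  have hd1 : (1 : ℝ) ≤ N / δ := by
    rw [le_div_iff₀ hδ]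
    linarith
  set κ : G → Fin N → ℤ := fun x i => ⌊(R.τ x e) i / (δ / N)⌋ with hκ
  set S : Finset (Fin N → ℤ) := Fintype.piFinset fun _ => Finset.Icc (-(m : ℤ)) m with hS
  have hmem : ∀ x : G, κ x ∈ S := by
    intro x
    rw [hS, Fintype.mem_piFinset]
    intro i
    have h1 : ‖(R.τ x e) i‖ ≤ 1 := by
      have h2 := PiLp.norm_apply_le (R.τ x e) i
      rwa [(R.τ x).norm_map, R.ne] at h2
    rw [Real.norm_eq_abs, abs_le] at h1
    have h3 : (R.τ x e) i / (δ / N) = (R.τ x e) i * (N / δ) := by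
      field_simp
    have hp : (0 : ℝ) ≤ N / δ := by positivity
    rw [Finset.mem_Icc]
    constructor
    · change -(m : ℤ) ≤ ⌊(R.τ x e) i / (δ / N)⌋
      rw [Int.le_floor, h3]
      push_cast
      nlinarith [h1.1]
    · change ⌊(R.τ x e) i / (δ / N)⌋ ≤ (m : ℤ)
      rw [Int.floor_le_iff, h3]
      push_cast
      nlinarith [h1.2]
  have hle : ∀ k : Fin N → ℤ, μ {x | κ x = k} ≤ μ B := by
    intro k
    by_cases hne : ∃ y, κ y = k
    · obtain ⟨y, hy⟩ := hne
      have hsub : {x | κ x = k} ⊆ (fun x => y⁻¹ * x) ⁻¹' B := by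
        intro x hx
        have hx' : κ x = k := hx
        exact Cov_close hN R hδ x y fun i => congrFun (hx'.trans hy.symm) i
      exact (measure_mono hsub).trans (measure_preimage_mul μ y⁻¹ B).le
    · have h0 : {x | κ x = k} = (∅ : Set G) := by
        ext x
        constructor
        · intro h
          exact absurd ⟨x, h⟩ hne
        · intro h
          exact absurd h (Set.notMem_empty x)
      rw [h0, measure_empty]
      exact bot_le
  have hcov : (Set.univ : Set G) ⊆ ⋃ k ∈ S, {x | κ x = k} := by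
    intro x _
    rw [Set.mem_iUnion₂]
    exact ⟨κ x, hmem x, rfl⟩
  have h1 : (1 : ENNReal) ≤ (S.card : ENNReal) * μ B := by
    calc (1 : ENNReal) = μ Set.univ := measure_univ.symm
      _ ≤ μ (⋃ k ∈ S, {x | κ x = k}) := measure_mono hcov
      _ ≤ ∑ k ∈ S, μ {x | κ x = k} := measure_biUnion_finset_le S _
      _ ≤ ∑ _k ∈ S, μ B := Finset.sum_le_sum fun k _ => hle k
      _ = (S.card : ENNReal) * μ B := by rw [Finset.sum_const, nsmul_eq_mul]
  have h2 : (1 : ℝ) ≤ (S.card : ℝ) * μ.real B := by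
    have h3 := ENNReal.toReal_mono (ENNReal.mul_ne_top (ENNReal.natCast_ne_top _)
      (measure_ne_top μ B)) h1
    rw [ENNReal.toReal_mul, ENNReal.toReal_natCast, ENNReal.toReal_one] at h3
    exact h3
  have hcard : (S.card : ℝ) ≤ (7 * N / δ) ^ N := by
    have hc : S.card = (2 * m + 1) ^ N := by
      rw [hS, Fintype.card_piFinset]
      have : (Finset.Icc (-(m : ℤ)) m).card = 2 * m + 1 := by
        rw [Int.card_Icc]
        omega
      simp only [this, Finset.prod_const, Finset.card_univ, Fintype.card_fin]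
    rw [hc]
    push_cast
    apply pow_le_pow_left₀ (by positivity)
    have : 7 * (N : ℝ) / δ = 7 * (N / δ) := by ring
    rw [this]
    linarith
  have hB0 : 0 ≤ μ.real B := measureReal_nonneg
  have h5 : (1 : ℝ) ≤ (7 * N / δ) ^ N * μ.real B :=
    h2.trans (mul_le_mul_of_nonneg_right hcard hB0)
  have h6 : (7 * (N : ℝ) / δ) ^ N = (7 * N) ^ N / δ ^ N := by rw [div_pow]
  rw [h6] at h5
  have hpos : (0 : ℝ) < (7 * N) ^ N := by positivity
  have hdp : (0 : ℝ) < δ ^ N := by positivity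
  calc ((7 * N : ℝ) ^ N)⁻¹ * δ ^ N
      = ((7 * N : ℝ) ^ N)⁻¹ * δ ^ N * 1 := (mul_one _).symm
    _ ≤ ((7 * N : ℝ) ^ N)⁻¹ * δ ^ N * ((7 * N) ^ N / δ ^ N * μ.real B) :=
        mul_le_mul_of_nonneg_left h5 (by positivity)
    _ = μ.real B := by field_simp

end Pool.Agent.GP
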