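import Pool.Agent.Lib.GP.Spec

/-!
# Theorem GP, module Exp: the Poincare form of a vector and its product with the vector (helper58)
-/

set_option autoImplicit false

open IsDedekindDomain Matrix MeasureTheory
open scoped Real

noncomputable section

namespace Pool.Agent.GP

section

variable {Γ G Gf V ι : Type} [Group Γ] [Group G] [TopologicalSpace G] [Group Gf] [NormedAddCommGroup V]
  [InnerProductSpace ℂ V] [Fintype ι] {ja : Γ →* G} {jf : Γ →* Gf} {K : Subgroup Gf} {Γ1 : Subgroup Γ}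
  {h : ι → Gf} {ρ : URep G V} {P : V →ₗ[ℂ] V}

private theorem mem_tr (g g' : Gf) (γ : Γ) : γ ∈ tr jf K g g' ↔ g'⁻¹ * (jf γ * g) ∈ K := Iff.rfl

private theorem tr_shift (g g' : Gf) (γ δ : Γ) {k : Gf} (hk : k ∈ K) :
    γ ∈ tr jf K (jf δ * g * k) g' ↔ γ * δ ∈ tr jf K g g' := by
  rw [mem_tr, mem_tr, map_mul]
  have e : g'⁻¹ * (jf γ * (jf δ * g * k)) = g'⁻¹ * (jf γ * jf δ * g) * k := by group
  rw [e, K.mul_mem_cancel_right hk]

/-- the Poincare form -/
private def pf (hd : FD jf K Γ1 h) (ja : Γ →* G) (ρ : URep G V) (a : ι → V) (g : Gf) : V :=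
  ∑ j, (wt jf K Γ1 h j : ℂ) • ∑ γ ∈ (hd.fin g (h j)).toFinset, ρ.act (ja γ)⁻¹ (a j)

private theorem pf_mem (hd : FD jf K Γ1 h) (a : ι → V) : pf hd ja ρ a ∈ MV ja jf K ρ := by
  intro δ g k hk
  unfold pf
  rw [map_sum]
  refine Finset.sum_congr rfl fun j _ => ?_
  rw [map_smul, map_sum]
  refine congrArg _ ?_
  refine Finset.sum_nbij' (fun γ => γ * δ) (fun γ => γ * δ⁻¹) ?_ ?_ ?_ ?_ ?_
  · intro γ hγ
    rw [Set.Finite.mem_toFinset] at hγ ⊢
    exact (tr_shift g (h j) γ δ hk).1 hγ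
  · intro γ hγ
    rw [Set.Finite.mem_toFinset] at hγ ⊢
    refine (tr_shift g (h j) (γ * δ⁻¹) δ hk).2 ?_
    rwa [inv_mul_cancel_right]
  · intro γ _
    exact mul_inv_cancel_right γ δ
  · intro γ _
    exact inv_mul_cancel_right γ δ
  · intro γ _
    have e : (ja γ)⁻¹ = ja δ * (ja (γ * δ))⁻¹ := by
      rw [map_mul, _root_.mul_inv_rev, mul_inv_cancel_left]
    rw [e, map_mul]
    rfl

open Classical in
private theorem card_st (hd : FD jf K Γ1 h) (i : ι) :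
    (((hd.fin (h i) (h i)).toFinset.filter fun γ => γ ∈ Γ1).card) = st Γ1 jf K (h i) := by
  unfold st
  rw [← Nat.card_eq_finsetCard]
  refine Nat.card_congr (Equiv.subtypeEquivRight fun γ => ?_)
  rw [Finset.mem_filter, Set.Finite.mem_toFinset, and_comm]

private theorem st_ne (hd : FD jf K Γ1 h) (i : ι) : st Γ1 jf K (h i) ≠ 0 := by
  classical
  rw [← card_st hd i]
  refine (Finset.card_pos.2 ⟨1, ?_⟩).ne'
  rw [Finset.mem_filter, Set.Finite.mem_toFinset, mem_tr, map_one, one_mul, inv_mul_cancel]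
  exact ⟨K.one_mem, Γ1.one_mem⟩

end

theorem tExp : S_Exp := by
  classical
  intro Γ G Gf V ι _ _ _ _ _ _ _ ja jf K Γ1 h ρ P hd hP a ha
  refine ⟨pf hd ja ρ a, pf_mem hd a, ?_⟩
  -- the expansion
  have e1 : ∀ i, inner ℂ (pf hd ja ρ a (h i)) (a i) =
      ∑ j, (wt jf K Γ1 h j : ℂ) * ∑ γ ∈ (hd.fin (h i) (h j)).toFinset, inner ℂ (ρ.act (ja γ)⁻¹ (a j)) (a i) := by
    intro i
    unfold pf
    rw [sum_inner]
    refine Finset.sum_congr rfl fun j _ => ?_
    rw [inner_smul_left, sum_inner, Complex.conj_ofReal]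
  -- the good part
  have e2 : ∀ i, ∑ j, (wt jf K Γ1 h j : ℂ) * ∑ γ ∈ (hd.fin (h i) (h j)).toFinset.filter (fun γ => γ ∈ Γ1),
      inner ℂ (ρ.act (ja γ)⁻¹ (a j)) (a i) = ((‖a i‖ ^ 2 : ℝ) : ℂ) := by
    intro i
    rw [Finset.sum_eq_single i]
    · have e3 : ∀ γ ∈ (hd.fin (h i) (h i)).toFinset.filter (fun γ => γ ∈ Γ1),
          inner ℂ (ρ.act (ja γ)⁻¹ (a i)) (a i) = ((‖a i‖ ^ 2 : ℝ) : ℂ) := by
        intro γ hγ
        rw [Finset.mem_filter, Set.Finite.mem_toFinset] at hγ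
        have e4 : ρ.act (ja γ) (a i) = a i := (ha i).2 γ hγ.2 hγ.1
        have e5 : ρ.act (ja γ)⁻¹ (a i) = a i := by
          conv_lhs => rw [← e4]
          rw [map_inv]
          exact (ρ.act (ja γ)).symm_apply_apply (a i)
        rw [e5, inner_self_eq_norm_sq_to_K]
        push_cast
        rfl
      rw [Finset.sum_congr rfl e3, Finset.sum_const, card_st hd i, nsmul_eq_mul]
      unfold wt
      have h0 : ((st Γ1 jf K (h i) : ℕ) : ℂ) ≠ 0 := Nat.cast_ne_zero.2 (st_ne hd i)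
      push_cast
      rw [← mul_assoc, inv_mul_cancel₀ h0, one_mul]
    · intro j _ hj
      have e3 : (hd.fin (h i) (h j)).toFinset.filter (fun γ => γ ∈ Γ1) = ∅ := by
        rw [Finset.filter_eq_empty_iff]
        intro γ hγ hγ1
        rw [Set.Finite.mem_toFinset] at hγ
        exact hj (hd.ineq i j γ hγ1 hγ).symm
      rw [e3, Finset.sum_empty, mul_zero]
    · intro hi
      exact absurd (Finset.mem_univ i) hi
  -- the bad part
  have e6 : ∀ i j, ∀ γ ∈ bad hd i j, inner ℂ (ρ.act (ja γ)⁻¹ (a j)) (a i) =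
      inner ℂ (pgp ρ P (ja γ)⁻¹ (a j)) (a i) := by
    intro i j γ _
    have e7 : pgp ρ P (ja γ)⁻¹ (a j) = P (ρ.act (ja γ)⁻¹ (P (a j))) := rfl
    rw [e7, hP.adj, (ha j).1, (ha i).1]
  have e8 : ∀ i, inner ℂ (pf hd ja ρ a (h i)) (a i) = ((‖a i‖ ^ 2 : ℝ) : ℂ) +
      ∑ j, (wt jf K Γ1 h j : ℂ) * ∑ γ ∈ bad hd i j, inner ℂ (pgp ρ P (ja γ)⁻¹ (a j)) (a i) := by
    intro i
    rw [e1 i, ← e2 i, ← Finset.sum_add_distrib]
    refine Finset.sum_congr rfl fun j _ => ?_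
    rw [← mul_add, ← Finset.sum_congr rfl (e6 i j)]
    refine congrArg _ ?_
    exact (Finset.sum_filter_add_sum_filter_not _ (fun γ => γ ∈ Γ1) _).symm
  rw [Finset.sum_congr rfl fun i _ => congrArg (fun z => (wt jf K Γ1 h i : ℂ) * z) (e8 i)]
  simp only [mul_add, Finset.sum_add_distrib]
  refine congrArg₂ _ ?_ ?_
  · push_cast
    rfl
  · refine Finset.sum_congr rfl fun i _ => ?_
    rw [Finset.mul_sum]
    refine Finset.sum_congr rfl fun j _ => ?_
    rw [← mul_assoc, Finset.mul_sum]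
    refine Finset.sum_congr rfl fun γ _ => ?_
    push_cast
    rfl

end Pool.Agent.GP
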