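import Pool.Agent.Lib.GP.SpecA

/-!
# Theorem GP, module FinV: finitely many vectors of bounded length (helper95)
-/

set_option autoImplicit false

open IsDedekindDomain Matrix MeasureTheory

noncomputable section

namespace Pool.Agent.GP

private theorem coer {N : ℕ} (A : Matrix (Fin N) (Fin N) ℝ)
    (hA : ∀ x : Fin N → ℝ, x ≠ 0 → 0 < x ⬝ᵥ (A *ᵥ x)) :
    ∃ l : ℝ, 0 < l ∧ ∀ (x : Fin N → ℝ) (i : Fin N), l * |x i| ^ 2 ≤ x ⬝ᵥ (A *ᵥ x) := by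
  have hc : Continuous fun x : Fin N → ℝ => x ⬝ᵥ (A *ᵥ x) :=
    continuous_id.dotProduct (continuous_const.matrix_mulVec continuous_id)
  rcases (Metric.sphere (0 : Fin N → ℝ) 1).eq_empty_or_nonempty with h | h
  · refine ⟨1, one_pos, fun x i => ?_⟩
    exfalso
    have h1 : (Pi.single i 1 : Fin N → ℝ) ∈ Metric.sphere (0 : Fin N → ℝ) 1 := by
      rw [mem_sphere_zero_iff_norm, Pi.norm_single, norm_one]
    rw [h] at h1
    exact h1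
  · obtain ⟨x0, hx0, hmin⟩ := (isCompact_sphere (0 : Fin N → ℝ) 1).exists_isMinOn h hc.continuousOn
    have hx0' : x0 ≠ 0 := by
      rintro rfl
      rw [mem_sphere_zero_iff_norm, norm_zero] at hx0
      exact one_ne_zero hx0.symm
    refine ⟨_, hA x0 hx0', fun x i => ?_⟩
    rcases eq_or_ne x 0 with rfl | hx
    · simp
    have hn : 0 < ‖x‖ := norm_pos_iff.2 hx
    have h1 : ‖x‖⁻¹ • x ∈ Metric.sphere (0 : Fin N → ℝ) 1 := by
      rw [mem_sphere_zero_iff_norm, norm_smul, norm_inv, norm_norm, inv_mul_cancel₀ hn.ne']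
    have h2 : x0 ⬝ᵥ (A *ᵥ x0) ≤ (‖x‖⁻¹ • x) ⬝ᵥ (A *ᵥ (‖x‖⁻¹ • x)) := hmin h1
    have h3 : (‖x‖⁻¹ • x) ⬝ᵥ (A *ᵥ (‖x‖⁻¹ • x)) * ‖x‖ ^ 2 = x ⬝ᵥ (A *ᵥ x) := by
      rw [Matrix.mulVec_smul, dotProduct_smul, smul_dotProduct, smul_eq_mul, smul_eq_mul]
      field_simp
    have h4 : x0 ⬝ᵥ (A *ᵥ x0) * ‖x‖ ^ 2 ≤ x ⬝ᵥ (A *ᵥ x) := by
      rw [← h3]
      exact mul_le_mul_of_nonneg_right h2 (by positivity)
    refine le_trans (mul_le_mul_of_nonneg_left ?_ (hA x0 hx0').le) h4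
    exact pow_le_pow_left₀ (abs_nonneg _) (norm_le_pi_norm x i) 2

private theorem form_two {R : Type} [CommRing R] {N : ℕ} (T : Matrix (Fin N) (Fin N) R) (x y : Fin N → R) :
    x ⬝ᵥ (T *ᵥ y) = ∑ i, ∑ j, x i * T i j * y j := by
  simp only [dotProduct, Matrix.mulVec, Finset.mul_sum]
  exact Finset.sum_congr rfl fun i _ => Finset.sum_congr rfl fun j _ => by ring

private theorem cast_form {N : ℕ} (S : Matrix (Fin N) (Fin N) ℤ) (x : Fin N → ℤ) :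
    (((x ⬝ᵥ (S *ᵥ x) : ℤ)) : ℝ) = (fun i => (x i : ℝ)) ⬝ᵥ (S.map (Int.cast : ℤ → ℝ) *ᵥ fun i => (x i : ℝ)) := by
  rw [form_two, form_two]
  push_cast
  simp only [Matrix.map_apply]

theorem tFinV : S_FinV := by
  intro N S κ hS
  obtain ⟨l, hl, hb⟩ := coer (S.map (Int.cast : ℤ → ℝ)) hS.2
  have key : ∀ c : Fin N → ℤ, c ⬝ᵥ (S *ᵥ c) ≤ κ → ∀ i, |c i| ≤ ⌈(κ : ℝ) / l⌉ := by
    intro c hc i
    have h1 := hb (fun i => (c i : ℝ)) i
    rw [← cast_form] at h1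
    have h2 : (((c ⬝ᵥ (S *ᵥ c) : ℤ)) : ℝ) ≤ κ := by exact_mod_cast hc
    have h3 : |c i| ≤ |c i| ^ 2 := by
      rcases (abs_nonneg (c i)).eq_or_lt with h | h
      · rw [← h]; norm_num
      · nlinarith
    have h4 : ((|c i| : ℤ) : ℝ) ≤ (|c i| : ℤ) ^ 2 := by exact_mod_cast h3
    have h5 : ((|c i| : ℤ) : ℝ) = |(c i : ℝ)| := Int.cast_abs
    rw [h5] at h4
    have h6 : |(c i : ℝ)| ^ 2 ≤ κ / l := by
      rw [le_div_iff₀ hl, mul_comm]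
      exact h1.trans h2
    have h7 : ((|c i| : ℤ) : ℝ) ≤ ⌈(κ : ℝ) / l⌉ := by
      rw [h5]
      exact (h4.trans h6).trans (Int.le_ceil _)
    exact_mod_cast h7
  refine (Set.finite_Icc (fun _ : Fin N => -⌈(κ : ℝ) / l⌉) (fun _ => ⌈(κ : ℝ) / l⌉)).subset ?_
  intro c hc
  exact ⟨fun i => (abs_le.1 (key c hc i)).1, fun i => (abs_le.1 (key c hc i)).2⟩

end Pool.Agent.GP
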