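import Pool.Agent.Lib.GP.SpecA

/-!
# Theorem GP, module GR1: compactness of the real groups (helper95)
-/

set_option autoImplicit false

open IsDedekindDomain Matrix MeasureTheory

noncomputable section

namespace Pool.Agent.GP

private theorem coer {N : ℕ} (A : Matrix (Fin N) (Fin N) ℝ)
    (hA : ∀ x : Fin N → ℝ, x ≠ 0 → 0 < x ⬝ᵥ (A *ᵥ x)) :
    ∃ l : ℝ, 0 < l ∧ ∀ (x : Fin N → ℝ) (i : Fin N), l * |x i| ^ 2 ≤ x ⬝ᵥ (A *ᵥ x) := by
  have hc : Continuous fun x : Fin N → ℝ => x ⬝ᵥ (A *ᵥ x) :=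
    continuous_id.dotProduct (continuous_const.matrix_mulVec continuous_id)
  rcases (Metric.sphere (0 : Fin N → ℝ) 1).eq_empty_or_nonempty with h | h
  · refine ⟨1, one_pos, fun x i => ?_⟩
    exfalso
    have h1 : (Pi.single i 1 : Fin N → ℝ) ∈ Metric.sphere (0 : Fin N → ℝ) 1 := by
      rw [mem_sphere_zero_iff_norm, Pi.norm_single, norm_one]
    rw [h] at h1
    exact h1
  · obtain ⟨x0, hx0, hmin⟩ := (isCompact_sphere (0 : Fin N → ℝ) 1).exists_isMinOn h hc.continuousOn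
    have hx0' : x0 ≠ 0 := by
      rintro rfl
      rw [mem_sphere_zero_iff_norm, norm_zero] at hx0
      exact one_ne_zero hx0.symm
    refine ⟨_, hA x0 hx0', fun x i => ?_⟩
    rcases eq_or_ne x 0 with rfl | hx
    · simp
    have hn : 0 < ‖x‖ := norm_pos_iff.2 hx
    have h1 : ‖x‖⁻¹ • x ∈ Metric.sphere (0 : Fin N → ℝ) 1 := by
      rw [mem_sphere_zero_iff_norm, norm_smul, norm_inv, norm_norm, inv_mul_cancel₀ hn.ne']
    have h2 : x0 ⬝ᵥ (A *ᵥ x0) ≤ (‖x‖⁻¹ • x) ⬝ᵥ (A *ᵥ (‖x‖⁻¹ • x)) := hmin h1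
    have h3 : (‖x‖⁻¹ • x) ⬝ᵥ (A *ᵥ (‖x‖⁻¹ • x)) * ‖x‖ ^ 2 = x ⬝ᵥ (A *ᵥ x) := by
      rw [Matrix.mulVec_smul, dotProduct_smul, smul_dotProduct, smul_eq_mul, smul_eq_mul]
      field_simp
    have h4 : x0 ⬝ᵥ (A *ᵥ x0) * ‖x‖ ^ 2 ≤ x ⬝ᵥ (A *ᵥ x) := by
      rw [← h3]
      exact mul_le_mul_of_nonneg_right h2 (by positivity)
    refine le_trans (mul_le_mul_of_nonneg_left ?_ (hA x0 hx0').le) h4
    exact pow_le_pow_left₀ (abs_nonneg _) (norm_le_pi_norm x i) 2

theorem tGR1 : S_GR1 := by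
  intro N Q e hQ
  obtain ⟨l, hl, hb⟩ := coer (Q.map (algebraMap ℚ ℝ)) hQ.2
  set A : Matrix (Fin N) (Fin N) ℝ := Q.map (algebraMap ℚ ℝ) with hA
  -- the bound
  have hcol : ∀ g : Gp Q ℝ, ∀ i j, l * |g.1.1 i j| ^ 2 ≤ A j j := by
    intro g i j
    have h1 := hb (fun p => g.1.1 p j) i
    have h2 : (fun p => g.1.1 p j) ⬝ᵥ (A *ᵥ fun p => g.1.1 p j) = (g.1.1ᵀ * A * g.1.1) j j := by
      rw [Matrix.mul_assoc, Matrix.mul_apply]
      simp only [dotProduct, Matrix.mulVec, Matrix.transpose_apply, Matrix.mul_apply]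
    have h3 : g.1.1ᵀ * A * g.1.1 = A := g.2
    rw [h2, h3] at h1
    exact h1
  have hbd : ∀ g : Gp Q ℝ, ∀ i j, |g.1.1 i j| ≤ 1 + (∑ p, |A p p|) / l := by
    intro g i j
    have h1 := hcol g i j
    have h2 : A j j ≤ ∑ p, |A p p| :=
      (le_abs_self _).trans (Finset.single_le_sum (f := fun p => |A p p|) (fun p _ => abs_nonneg _) (Finset.mem_univ j))
    have h3 : |g.1.1 i j| ^ 2 ≤ (∑ p, |A p p|) / l := by
      rw [le_div_iff₀ hl, mul_comm]
      exact h1.trans h2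
    nlinarith [sq_nonneg (|g.1.1 i j| - 1), abs_nonneg (g.1.1 i j)]
  set R : ℝ := 1 + (∑ p, |A p p|) / l with hR
  -- closed embeddings
  have h1 : Topology.IsClosedEmbedding (Subtype.val : SpecialLinearGroup (Fin N) ℝ → Matrix (Fin N) (Fin N) ℝ) := by
    refine IsClosed.isClosedEmbedding_subtypeVal ?_
    exact isClosed_eq (continuous_id.matrix_det) continuous_const
  have c1 : Continuous fun g : SpecialLinearGroup (Fin N) ℝ => g.1 := h1.continuous
  have h2 : Topology.IsClosedEmbedding (Subtype.val : Gp Q ℝ → SpecialLinearGroup (Fin N) ℝ) := by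
    refine IsClosed.isClosedEmbedding_subtypeVal ?_
    exact isClosed_eq ((c1.matrix_transpose.matrix_mul continuous_const).matrix_mul c1) continuous_const
  have h3 : Topology.IsClosedEmbedding (Subtype.val : Hp Q e ℝ → Gp Q ℝ) := by
    refine IsClosed.isClosedEmbedding_subtypeVal ?_
    exact isClosed_eq ((c1.comp h2.continuous).matrix_mulVec continuous_const) continuous_const
  have h12 : Topology.IsClosedEmbedding (fun g : Gp Q ℝ => (g.1.1 : Matrix (Fin N) (Fin N) ℝ)) := h1.comp h2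
  have hK : IsCompact {M : Fin N → Fin N → ℝ | ∀ i j, |M i j| ≤ R} := by
    have h : IsCompact (Set.pi Set.univ fun _ : Fin N => Set.pi Set.univ fun _ : Fin N => Set.Icc (-R) R) :=
      isCompact_univ_pi fun _ => isCompact_univ_pi fun _ => isCompact_Icc
    refine h.of_isClosed_subset ?_ ?_
    · rw [Set.ofPred_forall]
      refine isClosed_iInter fun i => ?_
      rw [Set.ofPred_forall]
      refine isClosed_iInter fun j => ?_
      exact isClosed_le ((continuous_apply_apply i j).abs) continuous_const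
    · intro M hM
      exact fun i _ j _ => ⟨(abs_le.1 (hM i j)).1, (abs_le.1 (hM i j)).2⟩
  have hG : CompactSpace (Gp Q ℝ) := by
    rw [← isCompact_univ_iff]
    have h4 := h12.isCompact_preimage (K := ({M : Matrix (Fin N) (Fin N) ℝ | ∀ i j, |M i j| ≤ R})) hK
    have h5 : (fun g : Gp Q ℝ => (g.1.1 : Matrix (Fin N) (Fin N) ℝ)) ⁻¹'
        {M : Matrix (Fin N) (Fin N) ℝ | ∀ i j, |M i j| ≤ R} = Set.univ := by
      ext g
      exact ⟨fun _ => trivial, fun _ => hbd g⟩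
    rw [← h5]
    exact h4
  exact ⟨hG, h3.compactSpace, R, hbd⟩

end Pool.Agent.GP
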