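import Pool.Agent.Lib.GP.SpecA

/-!
# Theorem GP, module GR3: the transporters are finite (helper95)
-/

set_option autoImplicit false

open IsDedekindDomain Matrix MeasureTheory

noncomputable section

namespace Pool.Agent.GP

theorem tGR3 : S_GR3 := by
  intro ad2 ad5 gr1 N Q K hQ hK g g'
  obtain ⟨_, _, R, hR⟩ := gr1 N Q 0 hQ
  -- the compact set `g' K g⁻¹`
  have hS : IsCompact ((fun x : Gp Q Af => g' * x * g⁻¹) '' (K : Set (Gp Q Af))) :=
    hK.image ((continuous_const.mul continuous_id).mul continuous_const)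
  obtain ⟨m, hm, hint⟩ := ad5 N Q _ hS
  have hz : ∀ γ : Gp Q ℚ, γ ∈ tr (jG Q Af) K g g' → ∀ i j, ∃ z : ℤ, (m : ℚ) * γ.1.1 i j = z ∧
      |z| ≤ ⌈(m : ℝ) * R⌉ := by
    intro γ hγ i j
    have h1 : jG Q Af γ ∈ (fun x : Gp Q Af => g' * x * g⁻¹) '' (K : Set (Gp Q Af)) := by
      refine ⟨g'⁻¹ * (jG Q Af γ * g), hγ, ?_⟩
      change g' * (g'⁻¹ * (jG Q Af γ * g)) * g⁻¹ = jG Q Af γ
      group
    have h2 := hint _ h1 i j
    have h3 : (m : Af) * (jG Q Af γ).1.1 i j = algebraMap ℚ Af ((m : ℚ) * γ.1.1 i j) := by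
      rw [map_mul, map_natCast]
      rfl
    rw [h3] at h2
    obtain ⟨z, hz⟩ := ad2 _ h2
    refine ⟨z, hz, ?_⟩
    have h4 := hR (jG Q ℝ γ) i j
    have h5 : (jG Q ℝ γ).1.1 i j = ((γ.1.1 i j : ℚ) : ℝ) := rfl
    rw [h5] at h4
    have h6 : ((|z| : ℤ) : ℝ) ≤ ⌈(m : ℝ) * R⌉ := by
      refine le_trans ?_ (Int.le_ceil _)
      have h7 : ((z : ℤ) : ℝ) = (m : ℝ) * ((γ.1.1 i j : ℚ) : ℝ) := by
        have := congrArg (fun q : ℚ => (q : ℝ)) hz
        push_cast at this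
        exact this.symm
      rw [Int.cast_abs, h7, abs_mul, Nat.abs_cast]
      exact mul_le_mul_of_nonneg_left h4 (Nat.cast_nonneg m)
    exact_mod_cast h6
  -- the injection
  classical
  have hfin := Set.finite_Icc (fun _ _ => -⌈(m : ℝ) * R⌉ : Fin N → Fin N → ℤ) (fun _ _ => ⌈(m : ℝ) * R⌉)
  choose! z hz using hz
  refine Set.Finite.of_injOn (f := fun γ : Gp Q ℚ => fun i j => z γ i j) ?_ ?_ hfin
  · intro γ hγ
    exact ⟨fun i j => (abs_le.1 (hz γ hγ i j).2).1, fun i j => (abs_le.1 (hz γ hγ i j).2).2⟩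
  · intro γ hγ γ' hγ' h
    have hm' : (m : ℚ) ≠ 0 := by exact_mod_cast hm.ne'
    refine Subtype.ext (Subtype.ext (Matrix.ext fun i j => ?_))
    have h1 : z γ i j = z γ' i j := congrFun (congrFun h i) j
    have h2 := (hz γ hγ i j).1
    have h3 := (hz γ' hγ' i j).1
    rw [h1, ← h3] at h2
    exact mul_left_cancel₀ hm' h2

end Pool.Agent.GP
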