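import Pool.Agent.Lib.GP.Spec

/-!
# Theorem GP, module HS: the Hilbert-Schmidt norm (author helper62)
-/

set_option autoImplicit false

open IsDedekindDomain Matrix MeasureTheory
open scoped Real

noncomputable section

namespace Pool.Agent.GP

variable {V : Type} [NormedAddCommGroup V] [InnerProductSpace ℂ V] [FiniteDimensional ℂ V]

omit [FiniteDimensional ℂ V] in
private theorem HS_par {ι κ : Type} [Fintype ι] [Fintype κ] (b : OrthonormalBasis ι ℂ V)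
    (c : OrthonormalBasis κ ℂ V) (A B : V →ₗ[ℂ] V) (h : ∀ u v, inner ℂ (A u) v = inner ℂ u (B v)) :
    ∑ i, ‖A (b i)‖ ^ 2 = ∑ j, ‖B (c j)‖ ^ 2 := by
  have e1 : ∀ i, ‖A (b i)‖ ^ 2 = ∑ j, ‖(inner ℂ (A (b i)) (c j) : ℂ)‖ ^ 2 := fun i =>
    (c.sum_sq_norm_inner_left (A (b i))).symm
  have e2 : ∀ j, ‖B (c j)‖ ^ 2 = ∑ i, ‖(inner ℂ (b i) (B (c j)) : ℂ)‖ ^ 2 := fun j =>
    (b.sum_sq_norm_inner_right (B (c j))).symm
  simp_rw [e1, e2]
  rw [Finset.sum_comm]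
  refine Finset.sum_congr rfl fun j _ => Finset.sum_congr rfl fun i _ => ?_
  rw [h]

private theorem HS_adj (A : V →ₗ[ℂ] V) (u v : V) :
    inner ℂ (A u) v = inner ℂ u (LinearMap.adjoint A v) := (LinearMap.adjoint_inner_right A u v).symm

private theorem HS_one (ι : Type) [Fintype ι] (b : OrthonormalBasis ι ℂ V) (A : V →ₗ[ℂ] V) :
    ∑ i, ‖A (b i)‖ ^ 2 = hs2 A := by
  rw [HS_par b (stdOrthonormalBasis ℂ V) A _ (HS_adj A)]
  exact (HS_par (stdOrthonormalBasis ℂ V) (stdOrthonormalBasis ℂ V) A _ (HS_adj A)).symm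

private theorem HS_two (A B : V →ₗ[ℂ] V) (h : ∀ u v, inner ℂ (A u) v = inner ℂ u (B v)) :
    hs2 A = hs2 B := HS_par _ _ A B h

omit [FiniteDimensional ℂ V] in
private theorem HS_sq {P : V →ₗ[ℂ] V} (hP : Prj P) (x : V) :
    (inner ℂ x (P x) : ℂ) = ((‖P x‖ ^ 2 : ℝ) : ℂ) := by
  have h1 : (inner ℂ (P x) (P x) : ℂ) = inner ℂ x (P x) := by rw [hP.adj, hP.idem]
  rw [← h1, inner_self_eq_norm_sq_to_K]
  push_cast
  rfl

omit [FiniteDimensional ℂ V] in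
private theorem HS_le {P : V →ₗ[ℂ] V} (hP : Prj P) (x : V) : ‖P x‖ ≤ ‖x‖ := by
  have h2 : ‖P x‖ ^ 2 = ‖(inner ℂ x (P x) : ℂ)‖ := by
    rw [HS_sq hP, Complex.norm_real, Real.norm_of_nonneg (by positivity)]
  have h3 := norm_inner_le_norm (𝕜 := ℂ) x (P x)
  rcases (norm_nonneg (P x)).eq_or_lt with h0 | h0
  · rw [← h0]
    exact norm_nonneg x
  · refine le_of_mul_le_mul_right ?_ h0
    calc ‖P x‖ * ‖P x‖ = ‖P x‖ ^ 2 := by ring
      _ ≤ ‖x‖ * ‖P x‖ := by rw [h2]; exact h3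

private theorem HS_PA {P : V →ₗ[ℂ] V} (hP : Prj P) (A : V →ₗ[ℂ] V) : hs2 (P ∘ₗ A) ≤ hs2 A := by
  unfold hs2
  refine Finset.sum_le_sum fun i _ => ?_
  rw [LinearMap.comp_apply]
  exact pow_le_pow_left₀ (norm_nonneg _) (HS_le hP _) 2

private theorem HS_AP {P : V →ₗ[ℂ] V} (hP : Prj P) (A : V →ₗ[ℂ] V) : hs2 (A ∘ₗ P) ≤ hs2 A := by
  have h1 : hs2 (A ∘ₗ P) = hs2 (P ∘ₗ LinearMap.adjoint A) := by
    refine HS_two _ _ fun u v => ?_
    rw [LinearMap.comp_apply, LinearMap.comp_apply, HS_adj, hP.adj]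
  have h2 : hs2 A = hs2 (LinearMap.adjoint A) := HS_two _ _ (HS_adj A)
  rw [h1, h2]
  exact HS_PA hP _

private theorem HS_rk {P : V →ₗ[ℂ] V} (hP : Prj P) : hs2 P = rk P := by
  have hid : IsIdempotentElem P := by
    refine LinearMap.ext fun v => ?_
    exact hP.idem v
  have h1 := (LinearMap.isProj_range_iff_isIdempotentElem P).2 hid
  have h2 : LinearMap.trace ℂ V P = (rk P : ℂ) := h1.trace
  rw [LinearMap.trace_eq_sum_inner P (stdOrthonormalBasis ℂ V)] at h2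
  simp_rw [HS_sq hP] at h2
  unfold hs2
  exact_mod_cast h2

private theorem HS_four (A : V →ₗ[ℂ] V) (v : V) : 0 ≤ hs2 A ∧ ‖A v‖ ^ 2 ≤ hs2 A * ‖v‖ ^ 2 := by
  set b := stdOrthonormalBasis ℂ V with hb
  have h0 : 0 ≤ hs2 A := Finset.sum_nonneg fun i _ => by positivity
  refine ⟨h0, ?_⟩
  have h1 : A v = ∑ i, (inner ℂ (b i) v : ℂ) • A (b i) := by
    conv_lhs => rw [← b.sum_repr' v]
    rw [map_sum]
    exact Finset.sum_congr rfl fun i _ => by rw [map_smul]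
  have h2 : ‖A v‖ ≤ ∑ i, ‖(inner ℂ (b i) v : ℂ)‖ * ‖A (b i)‖ := by
    rw [h1]
    refine (norm_sum_le _ _).trans (Finset.sum_le_sum fun i _ => ?_)
    rw [norm_smul]
  have h3 := Finset.sum_mul_sq_le_sq_mul_sq Finset.univ (fun i => ‖(inner ℂ (b i) v : ℂ)‖) (fun i => ‖A (b i)‖)
  rw [b.sum_sq_norm_inner_right] at h3
  calc ‖A v‖ ^ 2 ≤ (∑ i, ‖(inner ℂ (b i) v : ℂ)‖ * ‖A (b i)‖) ^ 2 := pow_le_pow_left₀ (norm_nonneg _) h2 2
    _ ≤ ‖v‖ ^ 2 * ∑ i, ‖A (b i)‖ ^ 2 := h3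
    _ = hs2 A * ‖v‖ ^ 2 := by rw [mul_comm]; rfl

theorem tHS : S_HS := by
  intro V _ _ _
  refine ⟨fun ι _ b A => HS_one ι b A, HS_two, fun A u => ⟨?_, ?_⟩, HS_four, fun P hP =>
    ⟨HS_rk hP, fun A => ⟨HS_PA hP A, HS_AP hP A⟩⟩⟩
  · rw [← HS_one _ ((stdOrthonormalBasis ℂ V).map u) A]
    unfold hs2
    refine Finset.sum_congr rfl fun i _ => ?_
    rw [OrthonormalBasis.map_apply]
    rfl
  · unfold hs2
    refine Finset.sum_congr rfl fun i _ => ?_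
    exact congrArg (fun x : ℝ => x ^ 2) (u.norm_map _)

end Pool.Agent.GP
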