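import Pool.Agent.Lib.GP.SpecA

/-!
# Theorem GP, module Her: Hermite's inequality
-/

set_option autoImplicit false

open IsDedekindDomain Matrix MeasureTheory

noncomputable section

namespace Pool.Agent.GP

private theorem Her_col {M : ℕ} (S U : Matrix (Fin M) (Fin M) ℤ) (i j : Fin M) :
    (Uᵀ * S * U) i j = (fun k => U k i) ⬝ᵥ (S *ᵥ fun k => U k j) := by
  rw [Matrix.mul_assoc]
  rfl

private theorem Her_ne {M : ℕ} {U U' : Matrix (Fin M) (Fin M) ℤ} (h : U' * U = 1) (i : Fin M) :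
    (fun k => U k i) ≠ 0 := by
  intro h0
  have h1 : (U' * U) i i = 0 := by
    rw [Matrix.mul_apply]
    refine Finset.sum_eq_zero fun k _ => ?_
    have h2 : U k i = 0 := congrFun h0 k
    rw [h2, mul_zero]
  rw [h, Matrix.one_apply_eq] at h1
  exact one_ne_zero h1

theorem tHer : S_Her := by
  intro hRed N
  induction N with
  | zero =>
    refine ⟨1, one_pos, fun S hS => ⟨fun _ => 1, ?_, ?_, ?_⟩⟩
    · intro h
      exact one_ne_zero (congrFun h 0)
    · have h1 := hS.2 (fun _ => 1) (fun h => one_ne_zero (congrFun h 0))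
      have h2 : ((fun _ => 1 : Fin 1 → ℤ) ⬝ᵥ (S *ᵥ fun _ => 1)) = S 0 0 := by
        simp [dotProduct, Matrix.mulVec]
      have h3 : ((fun _ => 1 : Fin 1 → ℝ) ⬝ᵥ (S.map (Int.cast : ℤ → ℝ) *ᵥ fun _ => 1)) =
          ((S 0 0 : ℤ) : ℝ) := by
        simp [dotProduct, Matrix.mulVec]
      rw [h2]
      rw [h3] at h1
      exact_mod_cast h1
    · have h2 : ((fun _ => 1 : Fin 1 → ℤ) ⬝ᵥ (S *ᵥ fun _ => 1)) = S 0 0 := by
        simp [dotProduct, Matrix.mulVec]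
      rw [h2, Matrix.det_fin_one]
      simp
  | succ N ih =>
    obtain ⟨c, hc, hH⟩ := ih
    refine ⟨4 ^ (N + 1) * c, by positivity, fun S hS => ?_⟩
    obtain ⟨a, T, ha, hmin, hT, hdet, hW⟩ := hRed (N + 1) S hS
    obtain ⟨a', T', ha', hmin', -, -, hW'⟩ := hRed N T hT
    obtain ⟨U, U', hU1, hU2, hU00, -, -⟩ := hW' 1 1 (mul_one 1) (mul_one 1)
    obtain ⟨y, hy0, hy1, hy2⟩ := hH T hT
    obtain ⟨V, V', hV1, hV2, hV00, hV0, hVij⟩ := hW U U' hU1 hU2
    have e1 := hVij 0 0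
    rw [hU00] at e1
    have e2 : a ≤ (Vᵀ * S * V) (Fin.succ 0) (Fin.succ 0) := by
      rw [Her_col]
      exact hmin _ (Her_ne hV2 _)
    have e3 := hV0 0
    have e4 : 4 * ((Vᵀ * S * V) 0 (Fin.succ 0) * (Vᵀ * S * V) 0 (Fin.succ 0)) ≤ a * a := by
      have h1 : (2 * |(Vᵀ * S * V) 0 (Fin.succ 0)|) * (2 * |(Vᵀ * S * V) 0 (Fin.succ 0)|) ≤ a * a :=
        mul_le_mul e3 e3 (by positivity) ha.le
      have h2 : |(Vᵀ * S * V) 0 (Fin.succ 0)| * |(Vᵀ * S * V) 0 (Fin.succ 0)| =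
          (Vᵀ * S * V) 0 (Fin.succ 0) * (Vᵀ * S * V) 0 (Fin.succ 0) := abs_mul_abs_self _
      nlinarith
    have e5 : 3 * (a * a) ≤ 4 * a' := by
      have := mul_le_mul_of_nonneg_left e2 ha.le
      linarith
    have e6 : a' ≤ y ⬝ᵥ (T *ᵥ y) := hmin' y hy0
    have hdT : T.det = a ^ N * S.det := by
      refine mul_left_cancel₀ ha.ne' ?_
      rw [hdet, pow_succ]
      ring
    have e7 : (a * a) ^ (N + 1) ≤ 4 ^ (N + 1) * (c * (a ^ N * S.det)) := by
      calc (a * a) ^ (N + 1) ≤ (3 * (a * a)) ^ (N + 1) :=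
            pow_le_pow_left₀ (by positivity) (by nlinarith [mul_pos ha ha]) _
        _ ≤ (4 * a') ^ (N + 1) := pow_le_pow_left₀ (by positivity) e5 _
        _ = 4 ^ (N + 1) * a' ^ (N + 1) := mul_pow _ _ _
        _ ≤ 4 ^ (N + 1) * (y ⬝ᵥ (T *ᵥ y)) ^ (N + 1) :=
            mul_le_mul_of_nonneg_left (pow_le_pow_left₀ ha'.le e6 _) (by positivity)
        _ ≤ 4 ^ (N + 1) * (c * T.det) := mul_le_mul_of_nonneg_left hy2 (by positivity)
        _ = 4 ^ (N + 1) * (c * (a ^ N * S.det)) := by rw [hdT]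
    have hval : (fun k => V k 0) ⬝ᵥ (S *ᵥ fun k => V k 0) = a := by
      rw [← Her_col, hV00]
    refine ⟨fun k => V k 0, Her_ne hV2 0, ?_, ?_⟩
    · rw [hval]
      exact ha
    · rw [hval]
      push_cast
      have h1 : a ^ N * a ^ (N + 1 + 1) ≤ a ^ N * (4 ^ (N + 1) * c * S.det) := by
        have h2 : a ^ N * a ^ (N + 1 + 1) = (a * a) ^ (N + 1) := by ring
        rw [h2]
        refine e7.trans (le_of_eq ?_)
        ring
      exact le_of_mul_le_mul_left h1 (pow_pos ha N)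

end Pool.Agent.GP
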