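import Pool.Agent.Lib.GP.Spec

/-!
# Theorem GP, module LA: a dimension bound from a quadratic identity
-/

set_option autoImplicit false

open IsDedekindDomain Matrix MeasureTheory
open scoped Real

noncomputable section

namespace Pool.Agent.GP

private theorem LA_key (hHS : C_HS) {V : Type} [NormedAddCommGroup V] [InnerProductSpace ℂ V]
    [FiniteDimensional ℂ V] {ι μ : Type} [Fintype ι] [Fintype μ] (B : μ → PiLp 2 fun _ : ι => V)
    (hB : Orthonormal ℂ B) (D : V →ₗ[ℂ] V) (q : ι) : ∑ k, ‖D (B k q)‖ ^ 2 ≤ hs2 D := by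
  classical
  -- Bessel for the component at `q`
  have bes : ∀ w : V, ∑ k, ‖inner ℂ w (B k q)‖ ^ 2 ≤ ‖w‖ ^ 2 := by
    intro w
    obtain ⟨w', hw'⟩ : ∃ w' : PiLp 2 fun _ : ι => V, w' = WithLp.toLp 2 (Pi.single q w) := ⟨_, rfl⟩
    have hq : w' q = w := by
      rw [hw']
      exact Pi.single_eq_same (M := fun _ : ι => V) q w
    have hne : ∀ i, i ≠ q → w' i = 0 := by
      intro i hi
      rw [hw']
      exact Pi.single_eq_of_ne (M := fun _ : ι => V) hi w
    have hin : ∀ x : PiLp 2 fun _ : ι => V, inner ℂ x w' = inner ℂ (x q) w := by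
      intro x
      rw [PiLp.inner_apply, Finset.sum_eq_single q]
      · rw [hq]
      · intro i _ hi
        rw [hne i hi, inner_zero_right]
      · intro h
        exact absurd (Finset.mem_univ q) h
    have hnorm : ‖w'‖ ^ 2 = ‖w‖ ^ 2 := by
      rw [PiLp.norm_sq_eq_of_L2, Finset.sum_eq_single q]
      · rw [hq]
      · intro i _ hi
        rw [hne i hi, norm_zero]
        norm_num
      · intro h
        exact absurd (Finset.mem_univ q) h
    have h1 := hB.sum_inner_products_le w' (s := Finset.univ)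
    rw [hnorm] at h1
    refine le_trans (le_of_eq (Finset.sum_congr rfl (fun k _ => ?_))) h1
    rw [hin, norm_inner_symm]
  have h1 : ∑ k, ‖D (B k q)‖ ^ 2 =
      ∑ i, ∑ k, ‖inner ℂ (LinearMap.adjoint D (stdOrthonormalBasis ℂ V i)) (B k q)‖ ^ 2 := by
    rw [Finset.sum_comm]
    refine Finset.sum_congr rfl (fun k _ => ?_)
    rw [← (stdOrthonormalBasis ℂ V).sum_sq_norm_inner_right (D (B k q))]
    refine Finset.sum_congr rfl (fun i _ => ?_)
    rw [LinearMap.adjoint_inner_left]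
  have h2 : hs2 (LinearMap.adjoint D) = hs2 D :=
    (hHS V).2.1 _ _ (fun u v => LinearMap.adjoint_inner_left D v u)
  rw [h1, ← h2]
  unfold hs2
  exact Finset.sum_le_sum (fun i _ => bes _)

/-- **LA.** -/
theorem tLA : S_LA := by
  intro hHS V _ _ _ ι κ _ _ A p q D c β hc hD hA
  classical
  obtain ⟨B, hB⟩ : ∃ B : Fin (Module.finrank ℂ A) → PiLp 2 fun _ : ι => V,
      B = fun k => ((stdOrthonormalBasis ℂ A k : A) : PiLp 2 fun _ : ι => V) := ⟨_, rfl⟩
  have hBA : ∀ k, B k ∈ A := by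
    intro k
    rw [hB]
    exact (stdOrthonormalBasis ℂ A k).2
  have hBo : Orthonormal ℂ B := by
    rw [hB]
    exact (stdOrthonormalBasis ℂ A).orthonormal.comp_linearIsometry A.subtypeₗᵢ
  have hβ : 0 ≤ (Fintype.card κ : ℝ) ^ 2 * β := by
    rcases isEmpty_or_nonempty κ with h | ⟨⟨t⟩⟩
    · rw [Fintype.card_eq_zero]
      simp
    · have h1 : 0 ≤ hs2 (D t) := ((hHS V).2.2.2.1 (D t) 0).1
      exact mul_nonneg (by positivity) (h1.trans (hD t))
  -- the estimate of one term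
  obtain ⟨S, hS⟩ : ∃ S : κ → ℂ, S = fun t => ∑ k, inner ℂ (D t (B k (q t))) (B k (p t)) := ⟨_, rfl⟩
  have hS1 : ∀ t, ‖S t‖ ^ 2 ≤ β * Module.finrank ℂ A := by
    intro t
    have h1 : ‖S t‖ ≤ ∑ k, ‖D t (B k (q t))‖ * ‖B k (p t)‖ := by
      rw [hS]
      exact (norm_sum_le _ _).trans (Finset.sum_le_sum (fun k _ => norm_inner_le_norm _ _))
    have h2 : (∑ k, ‖D t (B k (q t))‖ * ‖B k (p t)‖) ^ 2 ≤
        (∑ k, ‖D t (B k (q t))‖ ^ 2) * ∑ k, ‖B k (p t)‖ ^ 2 :=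
      Finset.sum_mul_sq_le_sq_mul_sq _ _ _
    have h3 : ∑ k, ‖B k (p t)‖ ^ 2 ≤ Module.finrank ℂ A := by
      have h4 : ∀ k ∈ (Finset.univ : Finset (Fin (Module.finrank ℂ A))), ‖B k (p t)‖ ^ 2 ≤ 1 := by
        intro k _
        have h5 : ‖B k (p t)‖ ≤ ‖B k‖ := PiLp.norm_apply_le (B k) (p t)
        rw [hBo.1 k] at h5
        exact pow_le_one₀ (norm_nonneg _) h5
      refine (Finset.sum_le_sum h4).trans (le_of_eq ?_)
      simp
    have h6 : ∑ k, ‖D t (B k (q t))‖ ^ 2 ≤ β := (LA_key hHS B hBo (D t) (q t)).trans (hD t)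
    calc ‖S t‖ ^ 2 ≤ (∑ k, ‖D t (B k (q t))‖ * ‖B k (p t)‖) ^ 2 :=
          pow_le_pow_left₀ (norm_nonneg _) h1 2
      _ ≤ (∑ k, ‖D t (B k (q t))‖ ^ 2) * ∑ k, ‖B k (p t)‖ ^ 2 := h2
      _ ≤ β * Module.finrank ℂ A := by
          refine mul_le_mul h6 h3 (Finset.sum_nonneg (fun k _ => by positivity)) ?_
          exact (Finset.sum_nonneg (fun k _ => by positivity)).trans h6
  -- the sum of the identities
  have hsum : ((Module.finrank ℂ A : ℝ) : ℂ) + ∑ t, (c t : ℂ) * S t = 0 := by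
    have h1 : ∑ k, (((‖B k‖ ^ 2 : ℝ) : ℂ) + ∑ t, (c t : ℂ) * inner ℂ (D t (B k (q t))) (B k (p t))) =
        0 := Finset.sum_eq_zero (fun k _ => hA (B k) (hBA k))
    rw [Finset.sum_add_distrib, Finset.sum_comm] at h1
    rw [← h1]
    congr 1
    · rw [Finset.sum_congr rfl (fun k _ => by rw [hBo.1 k])]
      simp
    · refine Finset.sum_congr rfl (fun t _ => ?_)
      rw [hS, Finset.mul_sum]
  obtain ⟨r, hr⟩ : ∃ r : ℝ, r = (Module.finrank ℂ A : ℝ) := ⟨_, rfl⟩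
  rw [← hr] at hsum hS1 ⊢
  have hr0 : 0 ≤ r := by
    rw [hr]
    positivity
  have h7 : r ≤ ∑ t, ‖S t‖ := by
    have h8 : (r : ℂ) = -∑ t, (c t : ℂ) * S t := eq_neg_of_add_eq_zero_left hsum
    have h9 : r = ‖(r : ℂ)‖ := by rw [Complex.norm_real, Real.norm_eq_abs, abs_of_nonneg hr0]
    rw [h9, h8, norm_neg]
    refine (norm_sum_le _ _).trans (Finset.sum_le_sum (fun t _ => ?_))
    rw [norm_mul, Complex.norm_real, Real.norm_eq_abs, abs_of_nonneg (hc t).1]
    exact mul_le_of_le_one_left (norm_nonneg _) (hc t).2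
  have h10 : r ^ 2 ≤ (Fintype.card κ : ℝ) ^ 2 * β * r := by
    have h11 : (∑ t, ‖S t‖) ^ 2 ≤ (Fintype.card κ : ℝ) * ∑ t, ‖S t‖ ^ 2 := by
      have := sq_sum_le_card_mul_sum_sq (s := (Finset.univ : Finset κ)) (f := fun t => ‖S t‖)
      rwa [Finset.card_univ] at this
    have h12 : ∑ t, ‖S t‖ ^ 2 ≤ (Fintype.card κ : ℝ) * (β * r) := by
      refine (Finset.sum_le_sum (fun t _ => hS1 t)).trans (le_of_eq ?_)
      rw [Finset.sum_const, Finset.card_univ, nsmul_eq_mul]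
    calc r ^ 2 ≤ (∑ t, ‖S t‖) ^ 2 := pow_le_pow_left₀ hr0 h7 2
      _ ≤ (Fintype.card κ : ℝ) * ∑ t, ‖S t‖ ^ 2 := h11
      _ ≤ (Fintype.card κ : ℝ) * ((Fintype.card κ : ℝ) * (β * r)) :=
          mul_le_mul_of_nonneg_left h12 (by positivity)
      _ = (Fintype.card κ : ℝ) ^ 2 * β * r := by ring
  rcases eq_or_lt_of_le hr0 with h | h
  · rw [← h]
    exact hβ
  · have h13 : r * r ≤ (Fintype.card κ : ℝ) ^ 2 * β * r := by
      rw [← sq]
      exact h10
    exact le_of_mul_le_mul_right h13 h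

end Pool.Agent.GP
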