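import Pool.Agent.Lib.GP.Spec

/-!
# Theorem GP, module Lo1: one-variable lower bound (helper95)
-/

set_option autoImplicit false

open IsDedekindDomain Matrix MeasureTheory
open scoped Real

noncomputable section

namespace Pool.Agent.GP

private theorem Lo1_polar (p q : ℝ) :
    ∃ m β : ℝ, 0 ≤ m ∧ m ^ 2 = p ^ 2 + q ^ 2 ∧ p = m * Real.cos β ∧ q = m * Real.sin β := by
  refine ⟨‖(⟨p, q⟩ : ℂ)‖, Complex.arg ⟨p, q⟩, norm_nonneg _, ?_, ?_, ?_⟩
  · rw [Complex.sq_norm, Complex.normSq_apply]
    ring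
  · exact (Complex.norm_mul_cos_arg ⟨p, q⟩).symm
  · exact (Complex.norm_mul_sin_arg ⟨p, q⟩).symm

theorem tLo1 : S_Lo1 := by
  intro ψ hψ hψ0 p q r hr hrp hpq
  obtain ⟨m, β, hm0, hm2, hp, hq⟩ := Lo1_polar p q
  have hm1 : m ≤ 1 := by nlinarith
  have hrm : r ≤ m := by
    have : r ^ 2 ≤ m ^ 2 := by rw [hm2]; nlinarith [sq_nonneg q]
    exact (pow_le_pow_iff_left₀ hr.le hm0 two_ne_zero).1 this
  have hc : Continuous fun x : ℝ => ψ (m * Real.cos x) := hψ.comp (continuous_const.mul Real.continuous_cos)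
  -- the right side
  have e1 : ∀ α : ℝ, ψ (Real.cos α * p - Real.sin α * q) = ψ (m * Real.cos (α + β)) := by
    intro α
    rw [hp, hq, Real.cos_add]
    congr 1
    ring
  have e2 : ∫ α in (0 : ℝ)..(2 * π), ψ (Real.cos α * p - Real.sin α * q) =
      ∫ x in (0 : ℝ)..(2 * π), ψ (m * Real.cos x) := by
    simp only [e1]
    rw [intervalIntegral.integral_comp_add_right (fun x => ψ (m * Real.cos x)) β]
    have hper : Function.Periodic (fun x : ℝ => ψ (m * Real.cos x)) (2 * π) := fun x => by
      simp only [Real.cos_add_two_pi]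
    have h1 := hper.intervalIntegral_add_eq β 0
    rw [zero_add] at h1
    rw [zero_add, add_comm (2 * π) β]
    exact h1
  rw [e2]
  have h3 : ∫ x in (0 : ℝ)..(2 * π), ψ (m * Real.cos x) =
      (∫ x in (0 : ℝ)..π, ψ (m * Real.cos x)) + ∫ x in π..(2 * π), ψ (m * Real.cos x) :=
    (intervalIntegral.integral_add_adjacent_intervals (hc.intervalIntegrable _ _)
      (hc.intervalIntegrable _ _)).symm
  have h4 : 0 ≤ ∫ x in π..(2 * π), ψ (m * Real.cos x) :=
    intervalIntegral.integral_nonneg (by linarith [Real.pi_pos]) fun x _ => hψ0 _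
  have h5 : ∫ x in (0 : ℝ)..π, ψ (m * Real.cos x) * (m * Real.sin x) ≤
      ∫ x in (0 : ℝ)..π, ψ (m * Real.cos x) := by
    refine intervalIntegral.integral_mono_on Real.pi_pos.le
      ((hc.mul (continuous_const.mul Real.continuous_sin)).intervalIntegrable _ _)
      (hc.intervalIntegrable _ _) fun x hx => ?_
    have h6 : 0 ≤ Real.sin x := Real.sin_nonneg_of_mem_Icc hx
    have h7 : m * Real.sin x ≤ 1 := by
      have := Real.sin_le_one x
      nlinarith
    exact mul_le_of_le_one_right (hψ0 _) h7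
  have h6 : ∫ x in (0 : ℝ)..π, ψ (m * Real.cos x) * (m * Real.sin x) = ∫ s in (-m)..m, ψ s := by
    have h7 := intervalIntegral.integral_comp_mul_deriv (a := 0) (b := π) (f := fun x => m * Real.cos x)
      (f' := fun x => m * (-Real.sin x)) (g := ψ)
      (fun x _ => (Real.hasDerivAt_cos x).const_mul m)
      ((continuous_const.mul Real.continuous_sin.neg).continuousOn) hψ
    simp only [Function.comp_def, Real.cos_zero, Real.cos_pi, mul_one, mul_neg] at h7
    rw [intervalIntegral.integral_neg, intervalIntegral.integral_symm (-m) m] at h7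
    exact neg_inj.1 h7
  have h7 : ∫ s in (-r)..r, ψ s ≤ ∫ s in (-m)..m, ψ s :=
    intervalIntegral.integral_mono_interval (by linarith) (by linarith) hrm
      (Filter.Eventually.of_forall fun x => hψ0 x) (hψ.intervalIntegrable _ _)
  linarith

end Pool.Agent.GP
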