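import Pool.Agent.Lib.GP.Spec

set_option autoImplicit false

open IsDedekindDomain Matrix MeasureTheory
open scoped Real

noncomputable section

namespace Pool.Agent.GP

private theorem Loc_mul {N : ℕ} {G : Type} [Group G] [TopologicalSpace G] {e : EE N} (R : Rot G N e)
    (a b : G) (v : EE N) : R.τ (a * b) v = R.τ a (R.τ b v) := by
  rw [map_mul]
  rfl

private theorem Loc_inv {N : ℕ} {G : Type} [Group G] [TopologicalSpace G] {e : EE N} (R : Rot G N e)
    (a : G) (v : EE N) : R.τ a⁻¹ (R.τ a v) = v := by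
  rw [← Loc_mul, inv_mul_cancel, map_one]
  rfl

/-- The stabilizer. -/
private def Loc_stab {N : ℕ} {G : Type} [Group G] [TopologicalSpace G] {e : EE N} (R : Rot G N e) :
    Subgroup G where
  carrier := {h | R.τ h e = e}
  mul_mem' := by
    intro a b ha hb
    have ha' : R.τ a e = e := ha
    have hb' : R.τ b e = e := hb
    show R.τ (a * b) e = e
    rw [Loc_mul, hb', ha']
  one_mem' := by
    show R.τ 1 e = e
    rw [map_one]
    rfl
  inv_mem' := by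
    intro a ha
    have ha' : R.τ a e = e := ha
    show R.τ a⁻¹ e = e
    have h := Loc_inv R a e
    rw [ha'] at h
    exact h

private theorem Loc_inner {N : ℕ} (a e : EE N) (ha : ‖a‖ = 1) (he : ‖e‖ = 1) :
    ‖a - e‖ ^ 2 = 2 - 2 * inner ℝ a e := by
  rw [@norm_sub_sq_real, ha, he]
  ring

private theorem Loc_cos {η : ℝ} (h0 : 0 < η) (h1 : η ≤ 1) :
    0 < Real.cos η ∧ Real.cos η ≤ 1 - 2 / 5 * η ^ 2 := by
  constructor
  · refine Real.cos_pos_of_mem_Ioo ⟨?_, ?_⟩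
    · have := Real.pi_pos
      linarith
    · have := Real.pi_gt_three
      linarith
  · have h2 := Real.cos_bound (x := η) (by rw [abs_of_pos h0]; exact h1)
    rw [abs_of_pos h0] at h2
    have h3 := (abs_le.1 h2).2
    have h4 : η ^ 4 ≤ η ^ 2 := pow_le_pow_of_le_one h0.le h1 (by norm_num)
    nlinarith

theorem tLoc : S_Loc := by
  intro hPhb hAv hMean hPsi hLow hUp1 hCov hCir
  intro N G _ _ _ _ e R hN g hg1 hg2
  letI : MeasurableSpace G := borel G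
  haveI : BorelSpace G := ⟨rfl⟩
  obtain ⟨μ, hμ⟩ : ∃ μ : Measure G, μ = Measure.haarMeasure (⊤ : TopologicalSpace.PositiveCompacts G) :=
    ⟨_, rfl⟩
  haveI : IsProbabilityMeasure μ := by
    refine ⟨?_⟩
    have h1 := Measure.haarMeasure_self (K₀ := (⊤ : TopologicalSpace.PositiveCompacts G))
    rw [TopologicalSpace.PositiveCompacts.coe_top] at h1
    rw [hμ]
    exact h1
  haveI : μ.IsMulLeftInvariant := by
    rw [hμ]
    infer_instance
  have hne : ‖e‖ = 1 := R.ne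
  have hnτ : ∀ x : G, ‖R.τ x e‖ = 1 := fun x => by rw [(R.τ x).norm_map, hne]
  obtain ⟨t, ht⟩ : ∃ t : ℝ, t = inner ℝ (R.τ g e) e := ⟨_, rfl⟩
  have ht1 : t ^ 2 < 1 := by
    have h1 : t ≠ 1 := by
      intro h
      rw [ht] at h
      have h2 := Loc_inner (R.τ g e) e (hnτ g) hne
      rw [h] at h2
      have h3 : ‖R.τ g e - e‖ = 0 := by
        have : ‖R.τ g e - e‖ ^ 2 = 0 := by linarith
        exact pow_eq_zero_iff (two_ne_zero) |>.1 this
      exact hg1 (sub_eq_zero.1 (norm_eq_zero.1 h3))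
    have h2 : t ≠ -1 := by
      intro h
      rw [ht] at h
      have h2 := Loc_inner (R.τ g e) (-e) (hnτ g) (by rw [norm_neg, hne])
      rw [inner_neg_right, h] at h2
      have h3 : ‖R.τ g e - -e‖ = 0 := by
        have : ‖R.τ g e - -e‖ ^ 2 = 0 := by linarith
        exact pow_eq_zero_iff (two_ne_zero) |>.1 this
      exact hg2 (sub_eq_zero.1 (norm_eq_zero.1 h3))
    have h3 : |t| ≤ 1 := by
      have := abs_real_inner_le_norm (R.τ g e) e
      rwa [hnτ, hne, one_mul, ← ht] at this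
    obtain ⟨h4, h5⟩ := abs_le.1 h3
    have h6 : t < 1 := lt_of_le_of_ne h5 h1
    have h7 : -1 < t := lt_of_le_of_ne h4 (Ne.symm h2)
    nlinarith
  obtain ⟨s, hs⟩ : ∃ s : ℝ, s = 1 - t ^ 2 := ⟨_, rfl⟩
  have hs0 : 0 < s := by rw [hs]; linarith
  have hs1 : s ≤ 1 := by
    rw [hs]
    have := sq_nonneg t
    linarith
  obtain ⟨c0, hc0, hcov⟩ := hCov N (by omega)
  obtain ⟨κ, hκ⟩ : ∃ κ : ℝ, κ = Real.sqrt (s / 2) := ⟨_, rfl⟩
  have hκ0 : 0 < κ := by
    rw [hκ]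
    exact Real.sqrt_pos.2 (by positivity)
  have hκ2 : κ ^ 2 = s / 2 := by
    rw [hκ]
    exact Real.sq_sqrt (by positivity)
  have hκ1 : κ ≤ 1 := by
    by_contra h
    rw [not_le] at h
    nlinarith
  obtain ⟨C1, hC1⟩ : ∃ C1 : ℝ, C1 = π / (s * (c0 * κ ^ N)) := ⟨_, rfl⟩
  have hC10 : 0 < C1 := by
    rw [hC1]
    have := Real.pi_pos
    positivity
  refine ⟨Real.sqrt (1 + C1), Real.sqrt_pos.2 (by positivity), ?_⟩
  intro V _ _ _ ρ P hirr hP hcomm
  obtain ⟨hb, hinv, -, hcont⟩ := hPhb G V ρ P (Loc_stab R) hP (fun h hh v => hcomm h hh v)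
  obtain ⟨d, hd⟩ : ∃ d : ℝ, d = (rk P : ℝ) := ⟨_, rfl⟩
  obtain ⟨D, hD⟩ : ∃ D : ℝ, D = (Module.finrank ℂ V : ℝ) := ⟨_, rfl⟩
  have hd0 : 0 ≤ d := by rw [hd]; exact Nat.cast_nonneg _
  have hDpos : 0 < D := by
    haveI := hirr.1
    rw [hD]
    exact_mod_cast Module.finrank_pos
  have hdD : d ≤ D := by
    rw [hd, hD]
    exact_mod_cast Submodule.finrank_le _
  rw [← hd, ← hD]
  have hph0 : 0 ≤ Ph ρ P g := (hb g).1
  rcases eq_or_lt_of_le hd0 with hz | hdpos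
  · -- `d = 0`
    have h1 : Ph ρ P g ≤ 0 := by
      have := (hb g).2
      rwa [← hd, ← hz] at this
    rw [← hz, zero_mul, mul_zero]
    exact h1
  obtain ⟨x, hx⟩ : ∃ x : ℝ, x = d / D := ⟨_, rfl⟩
  have hx0 : 0 < x := by rw [hx]; positivity
  have hx1 : x ≤ 1 := by
    rw [hx, div_le_one hDpos]
    exact hdD
  obtain ⟨y, hy⟩ : ∃ y : ℝ, y = x ^ (1 / (2 * N + 4 : ℝ)) := ⟨_, rfl⟩
  have hy0 : 0 < y := by
    rw [hy]
    exact Real.rpow_pos_of_pos hx0 _
  have hy1 : y ≤ 1 := by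
    rw [hy]
    exact Real.rpow_le_one hx0.le hx1 (by positivity)
  have hyx : y ^ (2 * N + 4) = x := by
    rw [hy, ← Real.rpow_natCast, ← Real.rpow_mul hx0.le]
    push_cast
    rw [one_div, inv_mul_cancel₀ (by positivity), Real.rpow_one]
  obtain ⟨η, hη⟩ : ∃ η : ℝ, η = y ^ 2 := ⟨_, rfl⟩
  have hη0 : 0 < η := by rw [hη]; positivity
  have hη1 : η ≤ 1 := by
    rw [hη]
    exact pow_le_one₀ hy0.le hy1
  have hηx : η ^ (N + 2) = x := by
    rw [hη, ← pow_mul, ← hyx]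
    congr 1
  -- `ψ`
  obtain ⟨ψ, hψc, hψr, hψ⟩ := hPsi N G e R hN (Ph ρ P) hcont
    (fun g h hh => ⟨(hinv g h hh).1, (hinv g h hh).2⟩)
  have hψb : ∀ s, 0 ≤ ψ s ∧ ψ s ≤ d := by
    intro s
    obtain ⟨y, hy⟩ := hψr s
    rw [hy, hd]
    exact hb y
  obtain ⟨c, hcc, hce, hcg⟩ := hCir N G e R hN g t ht ht1
  have hk : Continuous fun α : ℝ => ψ (t ^ 2 + s * Real.cos α) :=
    hψc.comp (continuous_const.add (continuous_const.mul Real.continuous_cos))
  have hav := hAv G V ρ P hP c hcc (fun α v => hcomm (c α) (hce α) v) g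
    (fun α => ψ (t ^ 2 + s * Real.cos α)) hk (fun α => by
      show ψ (t ^ 2 + s * Real.cos (α + 2 * π)) = ψ (t ^ 2 + s * Real.cos α)
      rw [Real.cos_add_two_pi]) (fun α β => by
      show Ph ρ P (g⁻¹ * (c α)⁻¹ * c β * g) = ψ (t ^ 2 + s * Real.cos (β - α))
      rw [hψ, hcg, hs])
  rw [← hd] at hav
  have hup := hUp1 ψ d hψc hψb t s η ht1 hs hη0 hη1
  obtain ⟨r, hr⟩ : ∃ r : ℝ, r = t ^ 2 + s * Real.cos η := ⟨_, rfl⟩
  rw [← hr] at hup
  obtain ⟨hcos0, hcos1⟩ := Loc_cos hη0 hη1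
  have hr0 : 0 < r := by
    rw [hr]
    have := sq_nonneg t
    positivity
  have hr1' : s * (2 / 5 * η ^ 2) ≤ 1 - r := by
    have h1 : 1 - r = s * (1 - Real.cos η) := by
      rw [hr, hs]
      ring
    rw [h1]
    exact mul_le_mul_of_nonneg_left (by linarith) hs0.le
  have hr1 : r < 1 := by
    have : 0 < s * (2 / 5 * η ^ 2) := by positivity
    linarith
  obtain ⟨I, hI⟩ : ∃ I : ℝ, I = ∫ s in (-r)..r, ψ s := ⟨_, rfl⟩
  have hlow := hLow N G e R μ (by omega) ψ hψc (fun s => (hψb s).1) r hr0 hr1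
  rw [← hI] at hlow hup
  have hI0 : 0 ≤ I := by
    rw [hI]
    exact intervalIntegral.integral_nonneg (by linarith) (fun s _ => (hψb s).1)
  have hint : ∫ x, ψ (inner ℝ (R.τ x e) e) ∂μ = d ^ 2 / D := by
    have h1 := hMean G V ρ P μ hirr hP
    rw [← hd, ← hD] at h1
    rw [← h1]
    refine integral_congr_ae (Filter.Eventually.of_forall (fun x => ?_))
    exact (hψ x).symm
  rw [hint] at hlow
  -- the caps
  obtain ⟨δ, hδ⟩ : ∃ δ : ℝ, δ = κ * η := ⟨_, rfl⟩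
  have hδ0 : 0 < δ := by rw [hδ]; positivity
  have hδ1 : δ ≤ 1 := by
    rw [hδ]
    exact mul_le_one₀ hκ1 hη0.le hη1
  have hcap := hcov G e R μ δ hδ0 hδ1
  have hsub : {x | ‖R.τ x e - e‖ ≤ δ} ⊆ {x | r ≤ inner ℝ (R.τ x e) e} := by
    intro x hx
    have hx' : ‖R.τ x e - e‖ ≤ δ := hx
    have h1 := Loc_inner (R.τ x e) e (hnτ x) hne
    have h2 : ‖R.τ x e - e‖ ^ 2 ≤ δ ^ 2 := pow_le_pow_left₀ (norm_nonneg _) hx' 2
    have h3 : δ ^ 2 = s / 2 * η ^ 2 := by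
      rw [hδ, mul_pow, hκ2]
    show r ≤ inner ℝ (R.τ x e) e
    have h4 : 0 ≤ s * η ^ 2 := by positivity
    nlinarith
  have hm : c0 * δ ^ N ≤ μ.real {x | r ≤ inner ℝ (R.τ x e) e} :=
    hcap.trans (measureReal_mono hsub)
  have hA : c0 * δ ^ N * I ≤ 2 * π * (d * x) := by
    calc c0 * δ ^ N * I ≤ μ.real {x | r ≤ inner ℝ (R.τ x e) e} * I :=
          mul_le_mul_of_nonneg_right hm hI0
      _ ≤ 2 * π * (d ^ 2 / D) := hlow
      _ = _ := by
          rw [hx]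
          ring
  have hπ := Real.pi_pos
  have hπ3 := Real.pi_gt_three
  -- `π / (s η) * I ≤ 2 π C1 d η`
  have hB : π / (s * η) * I ≤ 2 * π * (C1 * (d * η)) := by
    have h1 : I ≤ 2 * π * (d * x) / (c0 * δ ^ N) := by
      rw [le_div_iff₀ (by positivity)]
      linarith
    calc π / (s * η) * I ≤ π / (s * η) * (2 * π * (d * x) / (c0 * δ ^ N)) :=
          mul_le_mul_of_nonneg_left h1 (by positivity)
      _ = 2 * π * (C1 * (d * η)) := by
          rw [hC1, hδ, ← hηx, mul_pow, pow_succ, pow_succ]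
          field_simp
  have hfin : Ph ρ P g ^ 2 ≤ (Real.sqrt (1 + C1) * (d * y)) ^ 2 := by
    have h1 : Real.sqrt (1 + C1) ^ 2 = 1 + C1 := Real.sq_sqrt (by positivity)
    rw [mul_pow, h1, mul_pow, ← hη]
    refine hav.trans ?_
    have h2 : (2 * π)⁻¹ * (∫ α in (0 : ℝ)..(2 * π), ψ (t ^ 2 + s * Real.cos α)) ≤
        (2 * π)⁻¹ * (4 * η * d + 2 * π * (C1 * (d * η))) :=
      mul_le_mul_of_nonneg_left (hup.trans (by linarith)) (by positivity)
    have h3 : (2 * π)⁻¹ * (4 * η * d + 2 * π * (C1 * (d * η))) =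
        (2 / π) * (d * η) + C1 * (d * η) := by
      field_simp
      ring
    have h4 : 2 / π ≤ 1 := by
      rw [div_le_one hπ]
      linarith
    have h5 : (2 / π) * (d * η) ≤ 1 * (d * η) :=
      mul_le_mul_of_nonneg_right h4 (by positivity)
    calc d * ((2 * π)⁻¹ * (∫ α in (0 : ℝ)..(2 * π), ψ (t ^ 2 + s * Real.cos α))) ≤
          d * (1 * (d * η) + C1 * (d * η)) :=
          mul_le_mul_of_nonneg_left (by linarith) hd0
      _ = (1 + C1) * (d ^ 2 * η) := by ring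
  rw [← hx, ← hy]
  exact le_of_sq_le_sq hfin (by positivity)

end Pool.Agent.GP
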