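import Pool.Agent.Lib.GP.Spec

/-!
# Theorem GP: the module Low

The law of `⟨g e, e⟩` under the Haar measure has a density bounded below.
-/

set_option autoImplicit false

open IsDedekindDomain Matrix MeasureTheory
open scoped Real

noncomputable section

namespace Pool.Agent.GP

/-- In dimension at least two there is a unit vector orthogonal to a given vector. -/
private theorem Low_perp {N : ℕ} (hN : 2 ≤ N) (e : EE N) :
    ∃ w : EE N, ‖w‖ = 1 ∧ inner ℝ e w = (0 : ℝ) := by
  classical
  set S : Submodule ℝ (EE N) := Submodule.span ℝ (({e} : Finset (EE N)) : Set (EE N)) with hS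
  have h1 : Module.finrank ℝ S ≤ 1 := (finrank_span_finset_le_card _).trans (by simp)
  have h2 := Submodule.finrank_add_finrank_orthogonal S
  have h3 : Module.finrank ℝ (EE N) = N := finrank_euclideanSpace_fin
  have h5 : Sᗮ ≠ ⊥ := by
    intro h
    rw [h, finrank_bot] at h2
    omega
  obtain ⟨x, hx, hx0⟩ := Submodule.exists_mem_ne_zero_of_ne_bot h5
  have hn : ‖x‖ ≠ 0 := norm_ne_zero_iff.2 hx0
  have he : inner ℝ e x = (0 : ℝ) :=
    (Submodule.mem_orthogonal _ _).1 hx e (Submodule.subset_span (by simp))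
  refine ⟨‖x‖⁻¹ • x, ?_, ?_⟩
  · rw [norm_smul, norm_inv, norm_norm, inv_mul_cancel₀ hn]
  · rw [inner_smul_right, he, mul_zero]

/-- Bessel for two orthonormal vectors. -/
private theorem Low_bes {N : ℕ} (v e u : EE N) (hv : ‖v‖ = 1) (he : ‖e‖ = 1) (hu : ‖u‖ = 1)
    (heu : inner ℝ e u = (0 : ℝ)) : (inner ℝ v e : ℝ) ^ 2 + (inner ℝ v u : ℝ) ^ 2 ≤ 1 := by
  have h : 0 ≤ ‖v - ((inner ℝ v e : ℝ) • e + (inner ℝ v u : ℝ) • u)‖ ^ 2 := sq_nonneg _
  rw [← real_inner_self_eq_norm_sq] at h
  have hue : inner ℝ u e = (0 : ℝ) := by rw [real_inner_comm]; exact heu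
  have h1 : inner ℝ v v = (1 : ℝ) := by rw [real_inner_self_eq_norm_sq, hv]; norm_num
  have h2 : inner ℝ e e = (1 : ℝ) := by rw [real_inner_self_eq_norm_sq, he]; norm_num
  have h3 : inner ℝ u u = (1 : ℝ) := by rw [real_inner_self_eq_norm_sq, hu]; norm_num
  have h4 : inner ℝ e v = (inner ℝ v e : ℝ) := real_inner_comm _ _
  have h5 : inner ℝ u v = (inner ℝ v u : ℝ) := real_inner_comm _ _
  simp only [inner_sub_left, inner_sub_right, inner_add_left, inner_add_right, real_inner_smul_left,
    real_inner_smul_right, heu, hue, h1, h2, h3, h4, h5] at h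
  nlinarith

theorem tLow : S_Low := by
  intro hLo1 N G _ _ _ _ _ _ e R μ _ _ hN ψ hψ hψ0 r hr hr1
  obtain ⟨u, hu, heu⟩ := Low_perp hN e
  have hue : inner ℝ u e = (0 : ℝ) := by rw [real_inner_comm]; exact heu
  obtain ⟨c, hcc, hc⟩ := R.rot e u R.ne hu heu
  set p : G → ℝ := fun x => inner ℝ (R.τ x e) e with hp
  set q : G → ℝ := fun x => inner ℝ (R.τ x e) u with hq
  have hpc : Continuous p := (R.cont e).inner continuous_const
  have hqc : Continuous q := (R.cont e).inner continuous_const
  have hpq : ∀ x, p x ^ 2 + q x ^ 2 ≤ 1 := fun x =>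
    Low_bes (R.τ x e) e u (by rw [LinearIsometryEquiv.norm_map, R.ne]) R.ne hu heu
  have hrot : ∀ α x, p (c α * x) = Real.cos α * p x - Real.sin α * q x := by
    intro α x
    have e1 : R.τ (c α * x) e = R.τ (c α) (R.τ x e) := by
      rw [map_mul]
      rfl
    have h2 : inner ℝ e e = (1 : ℝ) := by rw [real_inner_self_eq_norm_sq, R.ne]; norm_num
    show inner ℝ (R.τ (c α * x) e) e = Real.cos α * inner ℝ (R.τ x e) e - Real.sin α * inner ℝ (R.τ x e) u
    rw [e1, hc, inner_add_left, inner_add_left, real_inner_smul_left, real_inner_smul_left, hue, h2,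
      real_inner_comm (R.τ x e) e, real_inner_comm (R.τ x e) u]
    ring
  -- the bound of the function on the interval
  obtain ⟨B, hB⟩ : ∃ B : ℝ, ∀ s ∈ Set.Icc (-1 : ℝ) 1, |ψ s| ≤ B := by
    obtain ⟨B, hB⟩ := (isCompact_Icc (a := (-1 : ℝ)) (b := 1)).exists_bound_of_continuousOn hψ.continuousOn
    exact ⟨B, fun s hs => hB s hs⟩
  have hpI : ∀ x, p x ∈ Set.Icc (-1 : ℝ) 1 := by
    intro x
    have := hpq x
    constructor <;> nlinarith [sq_nonneg (q x), sq_nonneg (p x)]
  -- the function of two variables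
  set F : ℝ → G → ℝ := fun α x => ψ (Real.cos α * p x - Real.sin α * q x) with hF
  have hF1 : ∀ α x, F α x = ψ (p (c α * x)) := fun α x => by rw [hrot]
  have hmeas : Measurable (Function.uncurry F) := by
    have h1 : Measurable fun z : ℝ × G => p z.2 := hpc.measurable.comp measurable_snd
    have h2 : Measurable fun z : ℝ × G => q z.2 := hqc.measurable.comp measurable_snd
    have h3 : Measurable fun z : ℝ × G => Real.cos z.1 := Real.measurable_cos.comp measurable_fst
    have h4 : Measurable fun z : ℝ × G => Real.sin z.1 := Real.measurable_sin.comp measurable_fst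
    have h5 : Measurable fun z : ℝ × G => Real.cos z.1 * p z.2 - Real.sin z.1 * q z.2 :=
      (h3.mul h1).sub (h4.mul h2)
    have h6 : Function.uncurry F = fun z : ℝ × G => ψ (Real.cos z.1 * p z.2 - Real.sin z.1 * q z.2) := by
      funext z
      rfl
    rw [h6]
    exact hψ.measurable.comp h5
  have hbd : ∀ z : ℝ × G, ‖Function.uncurry F z‖ ≤ B := by
    rintro ⟨α, x⟩
    show |F α x| ≤ B
    rw [hF1]
    exact hB _ (hpI _)
  have hint : Integrable (Function.uncurry F) ((volume.restrict (Set.Ioc 0 (2 * π))).prod μ) :=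
    Integrable.of_bound hmeas.aestronglyMeasurable B (Filter.Eventually.of_forall hbd)
  -- first evaluation
  have hA : ∀ α, ∫ x, F α x ∂μ = ∫ x, ψ (p x) ∂μ := by
    intro α
    simp only [hF1]
    exact integral_mul_left_eq_self (fun x => ψ (p x)) (c α)
  have h2π : (0 : ℝ) ≤ 2 * π := by positivity
  have hswap : ∫ x, (∫ α in (0 : ℝ)..(2 * π), F α x) ∂μ = 2 * π * ∫ x, ψ (p x) ∂μ := by
    have e1 : ∫ α in Set.Ioc 0 (2 * π), (∫ x, F α x ∂μ) = ∫ x, (∫ α in Set.Ioc 0 (2 * π), F α x) ∂μ :=
      integral_integral_swap hint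
    have e2 : ∀ x, ∫ α in (0 : ℝ)..(2 * π), F α x = ∫ α in Set.Ioc 0 (2 * π), F α x := fun x =>
      intervalIntegral.integral_of_le h2π
    simp only [e2]
    rw [← e1]
    simp only [hA]
    rw [setIntegral_const, Measure.real, Real.volume_Ioc, sub_zero, ENNReal.toReal_ofReal h2π, smul_eq_mul]
  have hint2 : Integrable (fun x => ∫ α in (0 : ℝ)..(2 * π), F α x) μ := by
    have h3 := hint.integral_prod_right
    refine h3.congr (Filter.Eventually.of_forall fun x => ?_)
    exact (intervalIntegral.integral_of_le h2π).symm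
  set A : Set G := {x | r ≤ inner ℝ (R.τ x e) e} with hAdef
  have hAm : MeasurableSet A := measurableSet_le measurable_const hpc.measurable
  rw [← hswap]
  have hconst : μ.real A * (∫ s in (-r)..r, ψ s) = ∫ x, A.indicator (fun _ => ∫ s in (-r)..r, ψ s) x ∂μ := by
    rw [integral_indicator hAm, setIntegral_const, smul_eq_mul]
  rw [hconst]
  refine integral_mono ((integrable_const _).indicator hAm) hint2 fun x => ?_
  by_cases hx : x ∈ A
  · rw [Set.indicator_of_mem hx]
    exact hLo1 ψ hψ hψ0 (p x) (q x) r hr hx (hpq x)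
  · rw [Set.indicator_of_notMem hx]
    exact intervalIntegral.integral_nonneg h2π fun α _ => hψ0 _

end Pool.Agent.GP
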