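import Pool.Agent.Lib.GP.Spec

/-!
# Theorem GP, module Mean: the mean value of `Ph` over the compact group (Schur)
-/

set_option autoImplicit false

open IsDedekindDomain Matrix MeasureTheory
open scoped Real

noncomputable section

namespace Pool.Agent.GP

private lemma Mean_joint {G V : Type} [Group G] [TopologicalSpace G] [NormedAddCommGroup V]
    [InnerProductSpace ℂ V] (ρ : URep G V) {X : Type} [TopologicalSpace X] {a : X → G} {w : X → V}
    (ha : Continuous a) (hw : Continuous w) : Continuous fun x => ρ.act (a x) (w x) := by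
  rw [continuous_iff_continuousAt]
  intro x0
  have h1 : Filter.Tendsto (fun x => ‖w x - w x0‖ + ‖ρ.act (a x) (w x0) - ρ.act (a x0) (w x0)‖)
      (nhds x0) (nhds 0) := by
    have h2 : Continuous fun x => ‖w x - w x0‖ + ‖ρ.act (a x) (w x0) - ρ.act (a x0) (w x0)‖ :=
      (hw.sub continuous_const).norm.add
        ((((ρ.cont (w x0)).comp ha).sub continuous_const).norm)
    have h3 := h2.tendsto x0
    simp only [sub_self, norm_zero, add_zero] at h3
    exact h3
  unfold ContinuousAt
  rw [tendsto_iff_norm_sub_tendsto_zero]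
  refine squeeze_zero (fun _ => norm_nonneg _) (fun x => ?_) h1
  have e : ρ.act (a x) (w x) - ρ.act (a x0) (w x0) =
      ρ.act (a x) (w x - w x0) + (ρ.act (a x) (w x0) - ρ.act (a x0) (w x0)) := by
    rw [map_sub]
    abel
  rw [e]
  refine (norm_add_le _ _).trans ?_
  rw [LinearIsometryEquiv.norm_map]

private lemma Mean_inner {G V : Type} [Group G] [TopologicalSpace G] [NormedAddCommGroup V]
    [InnerProductSpace ℂ V] (ρ : URep G V) (x : G) (u v : V) :
    inner ℂ u (ρ.act x v) = inner ℂ (ρ.act x⁻¹ u) v := by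
  have h1 : ρ.act x (ρ.act x⁻¹ u) = u := by
    have h2 := congrArg (fun y : V ≃ₗᵢ[ℂ] V => y u) (map_mul ρ.act x x⁻¹)
    rw [mul_inv_cancel, map_one] at h2
    exact h2.symm
  conv_lhs => rw [← h1]
  exact (ρ.act x).inner_map_map _ _

theorem tMean : S_Mean := by
  intro hs G V _ _ _ _ _ _ _ _ _ ρ P μ _ _ hirr hP
  obtain ⟨hs1, hs2', hs3, -, hs5⟩ := hs V
  obtain ⟨hnt, hsub⟩ := hirr
  have hPc : Continuous P := LinearMap.continuous_of_finiteDimensional P
  -- the integrand
  have hF : ∀ v : V, Continuous fun x : G => ρ.act x (P (ρ.act x⁻¹ v)) := fun v =>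
    Mean_joint ρ continuous_id (hPc.comp ((ρ.cont v).comp continuous_inv))
  have hFi : ∀ v : V, Integrable (fun x : G => ρ.act x (P (ρ.act x⁻¹ v))) μ := fun v =>
    (hF v).integrable_of_hasCompactSupport (HasCompactSupport.of_compactSpace _)
  -- the operator
  let T : V →ₗ[ℂ] V :=
    { toFun := fun v => ∫ x, ρ.act x (P (ρ.act x⁻¹ v)) ∂μ
      map_add' := by
        intro v w
        rw [← integral_add (hFi v) (hFi w)]
        simp only [map_add]
      map_smul' := by
        intro c v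
        rw [RingHom.id_apply, ← integral_smul]
        simp only [map_smul] }
  have hT : ∀ v, T v = ∫ x, ρ.act x (P (ρ.act x⁻¹ v)) ∂μ := fun _ => rfl
  have hmulact : ∀ (x y : G) (v : V), ρ.act (x * y) v = ρ.act x (ρ.act y v) := by
    intro x y v
    rw [map_mul]
    rfl
  have hTe : ∀ (y : G) (v : V), T (ρ.act y v) = ρ.act y (T v) := by
    intro y v
    rw [hT, hT]
    have h1 := integral_mul_left_eq_self (μ := μ) (fun x : G => ρ.act x (P (ρ.act x⁻¹ (ρ.act y v)))) y
    rw [← h1]
    have h2 : (fun x : G => ρ.act (y * x) (P (ρ.act (y * x)⁻¹ (ρ.act y v)))) =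
        fun x : G => ρ.act y (ρ.act x (P (ρ.act x⁻¹ v))) := by
      funext x
      rw [← hmulact (y * x)⁻¹ y v, _root_.mul_inv_rev, inv_mul_cancel_right, hmulact]
    rw [h2]
    exact (ρ.act y).toLinearIsometry.toContinuousLinearMap.integral_comp_comm (hFi v)
  -- Schur
  obtain ⟨c, hc⟩ := Module.End.exists_eigenvalue (K := ℂ) (V := V) T
  have hTc : ∀ v, T v = c • v := by
    have h1 := hsub (Module.End.eigenspace T c) (by
      intro g v hv
      rw [Module.End.mem_eigenspace_iff] at hv ⊢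
      rw [hTe, hv, map_smul])
    rcases h1 with h1 | h1
    · exact absurd h1 hc
    · intro v
      have h2 : v ∈ Module.End.eigenspace T c := by rw [h1]; trivial
      exact Module.End.mem_eigenspace_iff.1 h2
  -- projectors
  have hPP : ∀ a : V, inner ℂ a (P a) = ((‖P a‖ ^ 2 : ℝ) : ℂ) := by
    intro a
    conv_lhs => rw [← hP.idem a, ← hP.adj]
    rw [inner_self_eq_norm_sq_to_K]
    push_cast
    rfl
  let b := stdOrthonormalBasis ℂ V
  have hD : (∑ i, inner ℂ (b i) (T (b i)) : ℂ) = c * Module.finrank ℂ V := by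
    have h1 : ∀ i, inner ℂ (b i) (T (b i)) = c := by
      intro i
      rw [hTc, inner_smul_right, inner_self_eq_norm_sq_to_K, b.norm_eq_one]
      simp
    rw [Finset.sum_congr rfl fun i _ => h1 i, Finset.sum_const, Finset.card_univ, Fintype.card_fin,
      nsmul_eq_mul, mul_comm]
  have hint : ∀ u v : V, inner ℂ u (T v) = ∫ x, inner ℂ u (ρ.act x (P (ρ.act x⁻¹ v))) ∂μ := by
    intro u v
    rw [hT, integral_inner (hFi v)]
  have hii : ∀ u v : V, Integrable (fun x : G => inner ℂ u (ρ.act x (P (ρ.act x⁻¹ v)))) μ := by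
    intro u v
    exact (hFi v).const_inner u
  have hrk : (∑ i, inner ℂ (b i) (T (b i)) : ℂ) = (rk P : ℂ) := by
    rw [Finset.sum_congr rfl fun i _ => hint (b i) (b i), ← integral_finsetSum _ fun i _ => hii (b i) (b i)]
    have h1 : (fun x : G => ∑ i, inner ℂ (b i) (ρ.act x (P (ρ.act x⁻¹ (b i))))) =
        fun _ => (rk P : ℂ) := by
      funext x
      have h2 := (hs3 P (ρ.act x⁻¹)).1
      rw [(hs5 P hP).1] at h2
      rw [← hs1 _ b] at h2
      have h3 : ∀ i, inner ℂ (b i) (ρ.act x (P (ρ.act x⁻¹ (b i)))) =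
          ((‖P (ρ.act x⁻¹ (b i))‖ ^ 2 : ℝ) : ℂ) := by
        intro i
        rw [Mean_inner, hPP]
      rw [Finset.sum_congr rfl fun i _ => h3 i]
      have h4 := congrArg (fun r : ℝ => (r : ℂ)) h2
      push_cast at h4 ⊢
      exact h4
    rw [h1, integral_const]
    simp
  have hPh : ∀ x : G, ((Ph ρ P x : ℝ) : ℂ) = ∑ i, inner ℂ (P (b i)) (ρ.act x (P (ρ.act x⁻¹ (P (b i))))) := by
    intro x
    have h1 : Ph ρ P x = hs2 (pgp ρ P x⁻¹) := by
      refine hs2' _ _ fun u v => ?_
      change inner ℂ (P (ρ.act x (P u))) v = inner ℂ u (P (ρ.act x⁻¹ (P v)))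
      rw [hP.adj, ← hP.adj u, Mean_inner ρ x⁻¹, inv_inv]
    rw [h1, ← hs1 _ b]
    push_cast
    refine Finset.sum_congr rfl fun i _ => ?_
    rw [Mean_inner, hPP]
    push_cast
    rfl
  have hsumP : (∑ i, ((‖P (b i)‖ ^ 2 : ℝ) : ℂ)) = (rk P : ℂ) := by
    have h2 := (hs5 P hP).1
    rw [← hs1 _ b] at h2
    have h4 := congrArg (fun r : ℝ => (r : ℂ)) h2
    push_cast at h4 ⊢
    exact h4
  have hfin : ((∫ x, Ph ρ P x ∂μ : ℝ) : ℂ) = c * rk P := by
    rw [← integral_complex_ofReal]
    have h1 : (fun x : G => ((Ph ρ P x : ℝ) : ℂ)) =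
        fun x => ∑ i, inner ℂ (P (b i)) (ρ.act x (P (ρ.act x⁻¹ (P (b i))))) := funext hPh
    rw [h1, integral_finsetSum _ fun i _ => hii (P (b i)) (P (b i)),
      Finset.sum_congr rfl fun i _ => (hint (P (b i)) (P (b i))).symm, ← hsumP, Finset.mul_sum]
    refine Finset.sum_congr rfl fun i _ => ?_
    rw [hTc, inner_smul_right, inner_self_eq_norm_sq_to_K]
    push_cast
    rfl
  have hD0 : (Module.finrank ℂ V : ℂ) ≠ 0 := by
    have : 0 < Module.finrank ℂ V := Module.finrank_pos
    exact_mod_cast this.ne'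
  have hcv : c = rk P / Module.finrank ℂ V := by
    rw [eq_div_iff hD0, ← hD, hrk]
  rw [hcv] at hfin
  have hfin2 : ((∫ x, Ph ρ P x ∂μ : ℝ) : ℂ) = (((rk P : ℝ) ^ 2 / Module.finrank ℂ V : ℝ) : ℂ) := by
    rw [hfin]
    push_cast
    ring
  exact_mod_cast hfin2

end Pool.Agent.GP
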