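import Pool.Agent.Lib.GP.Spec

/-!
# Theorem GP: Null, the dimension of the null space (author helper86)
-/

set_option autoImplicit false

open IsDedekindDomain Matrix MeasureTheory
open scoped Real

noncomputable section

namespace Pool.Agent.GP

private lemma wt_pos {Γ Gf ι : Type} [Group Γ] [Group Gf] (jf : Γ →* Gf) (K : Subgroup Gf)
    (Γ1 : Subgroup Γ) (h : ι → Gf) (hd : FD jf K Γ1 h) (i : ι) :
    0 < wt jf K Γ1 h i ∧ wt jf K Γ1 h i ≤ 1 := by
  have h1 : Finite {γ : Γ // γ ∈ Γ1 ∧ γ ∈ tr jf K (h i) (h i)} :=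
    ((hd.fin (h i) (h i)).subset (fun γ hγ => hγ.2 : {γ | γ ∈ Γ1 ∧ γ ∈ tr jf K (h i) (h i)} ⊆
      tr jf K (h i) (h i))).to_subtype
  have h2 : Nonempty {γ : Γ // γ ∈ Γ1 ∧ γ ∈ tr jf K (h i) (h i)} := by
    refine ⟨1, Γ1.one_mem, ?_⟩
    change (h i)⁻¹ * (jf 1 * h i) ∈ K
    rw [map_one, one_mul, inv_mul_cancel]
    exact K.one_mem
  have h3 : 0 < st Γ1 jf K (h i) := Nat.card_pos
  have h4 : (1 : ℝ) ≤ (st Γ1 jf K (h i) : ℕ) := by exact_mod_cast h3
  exact ⟨inv_pos.2 (lt_of_lt_of_le one_pos h4), inv_le_one_of_one_le₀ h4⟩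

theorem tNull : S_Null := by
  intro hLA hExp Γ G Gf V ι _ _ _ _ _ _ _ _ ja jf K Γ1 h ρ P hd β hP hβ
  have hw := wt_pos jf K Γ1 h hd
  -- the square roots
  let s : ι → ℝ := fun i => √(wt jf K Γ1 h i)
  have hs0 : ∀ i, 0 < s i := fun i => Real.sqrt_pos.2 (hw i).1
  have hs1 : ∀ i, s i ≤ 1 := fun i => Real.sqrt_le_one.2 (hw i).2
  have hss : ∀ i, s i * s i = wt jf K Γ1 h i := fun i => Real.mul_self_sqrt (hw i).1.le
  -- the map
  let L : (ι → V) →ₗ[ℂ] PiLp 2 (fun _ : ι => V) :=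
    (WithLp.linearEquiv 2 ℂ (ι → V)).symm.toLinearMap ∘ₗ
      LinearMap.pi (fun i => ((s i : ℝ) : ℂ) • LinearMap.proj i)
  have hL : ∀ (a : ι → V) (i : ι), (L a) i = ((s i : ℝ) : ℂ) • a i := fun a i => rfl
  have hinj : Function.Injective L := by
    rw [injective_iff_map_eq_zero]
    intro a ha
    funext i
    have h1 : (L a) i = 0 := by rw [ha]; rfl
    rw [hL] at h1
    rcases smul_eq_zero.1 h1 with h2 | h2
    · exact absurd (Complex.ofReal_eq_zero.1 h2) (hs0 i).ne'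
    · exact h2
  have hfin : Module.finrank ℂ ((Nul ja jf K Γ1 h ρ P).map L) =
      Module.finrank ℂ (Nul ja jf K Γ1 h ρ P) :=
    ((Submodule.equivMapOfInjective L hinj (Nul ja jf K Γ1 h ρ P)).finrank_eq).symm
  -- the index type
  have key := hLA V ι (Σ i : ι, Σ j : ι, {γ // γ ∈ bad hd i j}) ((Nul ja jf K Γ1 h ρ P).map L)
    (fun t => t.1) (fun t => t.2.1) (fun t => pgp ρ P (ja t.2.2.1)⁻¹)
    (fun t => s t.1 * s t.2.1) β ?_ ?_ ?_
  · rw [hfin] at key
    have hc : Fintype.card (Σ i : ι, Σ j : ι, {γ // γ ∈ bad hd i j}) =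
        ∑ i, ∑ j, (bad hd i j).card := by
      simp only [Fintype.card_sigma, Fintype.card_coe]
    rw [hc] at key
    exact key
  · intro t
    exact ⟨mul_nonneg (hs0 _).le (hs0 _).le, mul_le_one₀ (hs1 _) (hs0 _).le (hs1 _)⟩
  · rintro ⟨i, j, γ, hγ⟩
    exact hβ i j γ hγ
  · rintro _ ⟨a, ha, rfl⟩
    obtain ⟨h1, h2⟩ := ha
    obtain ⟨f, hf, he⟩ := hExp Γ G Gf V ι ja jf K Γ1 h ρ P hd hP a h1
    rw [h2 f hf] at he
    rw [he]
    congr 1
    · congr 1
      rw [PiLp.norm_sq_eq_of_L2]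
      refine Finset.sum_congr rfl fun i _ => ?_
      rw [hL, norm_smul, Complex.norm_real, Real.norm_eq_abs, abs_of_pos (hs0 i), mul_pow, sq (s i),
        hss]
    · rw [Fintype.sum_sigma]
      refine Finset.sum_congr rfl fun i _ => ?_
      rw [Fintype.sum_sigma]
      refine Finset.sum_congr rfl fun j _ => ?_
      rw [← Finset.sum_coe_sort (bad hd i j)]
      refine Finset.sum_congr rfl fun γ _ => ?_
      rw [hL, hL, map_smul, inner_smul_left, inner_smul_right, Complex.conj_ofReal, ← hss i, ← hss j]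
      push_cast
      ring

end Pool.Agent.GP
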