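import Pool.Agent.Lib.GP.Spec

/-!
# Theorem GP, module Phb: properties of `Ph`
-/

set_option autoImplicit false

open IsDedekindDomain Matrix MeasureTheory
open scoped Real

noncomputable section

namespace Pool.Agent.GP

private theorem pgp_apply {G V : Type} [Group G] [TopologicalSpace G] [NormedAddCommGroup V]
    [InnerProductSpace ℂ V] (ρ : URep G V) (P : V →ₗ[ℂ] V) (g : G) (v : V) :
    pgp ρ P g v = P (ρ.act g (P v)) := rfl

private theorem act_inv_inner {G V : Type} [Group G] [TopologicalSpace G] [NormedAddCommGroup V]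
    [InnerProductSpace ℂ V] (ρ : URep G V) (g : G) (u v : V) :
    inner ℂ (ρ.act g⁻¹ u) v = inner ℂ u (ρ.act g v) := by
  have h1 : ρ.act g (ρ.act g⁻¹ u) = u := by
    have : (ρ.act g * ρ.act g⁻¹) u = u := by
      rw [← map_mul, mul_inv_cancel, map_one]; rfl
    exact this
  have h2 := (ρ.act g).inner_map_map (ρ.act g⁻¹ u) v
  rw [h1] at h2
  exact h2.symm

theorem tPhb : S_Phb := by
  intro hHS G V _ _ _ _ _ _ ρ P S hP hS
  obtain ⟨-, h2, h3, h4, h5⟩ := hHS V
  obtain ⟨h6, h7⟩ := h5 P hP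
  refine ⟨fun g => ⟨(h4 _ 0).1, ?_⟩, fun g h hh => ⟨?_, ?_⟩, fun g => ?_, ?_⟩
  · calc Ph ρ P g = hs2 (P ∘ₗ ((ρ.act g).toLinearEquiv.toLinearMap ∘ₗ P)) := rfl
      _ ≤ hs2 ((ρ.act g).toLinearEquiv.toLinearMap ∘ₗ P) := (h7 _).1
      _ = hs2 P := (h3 P (ρ.act g)).2
      _ = rk P := h6
  · have e : pgp ρ P (h * g) = (ρ.act h).toLinearEquiv.toLinearMap ∘ₗ pgp ρ P g := by
      ext v
      show P (ρ.act (h * g) (P v)) = ρ.act h (P (ρ.act g (P v)))
      rw [← hS h hh, map_mul]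
      rfl
    show hs2 _ = hs2 _
    rw [e]
    exact (h3 _ _).2
  · have e : pgp ρ P (g * h) = pgp ρ P g ∘ₗ (ρ.act h).toLinearEquiv.toLinearMap := by
      ext v
      show P (ρ.act (g * h) (P v)) = P (ρ.act g (P (ρ.act h v)))
      rw [hS h hh, map_mul]
      rfl
    show hs2 _ = hs2 _
    rw [e]
    exact (h3 _ _).1
  · refine h2 _ _ fun u v => ?_
    rw [pgp_apply, pgp_apply, hP.adj, act_inv_inner, hP.adj]
  · have e : Ph ρ P = fun g => ∑ i, ‖P (ρ.act g (P (stdOrthonormalBasis ℂ V i)))‖ ^ 2 := rfl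
    rw [e]
    refine continuous_finsetSum _ fun i _ => ?_
    exact ((P.continuous_of_finiteDimensional.comp (ρ.cont _)).norm).pow 2

end Pool.Agent.GP
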