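import Pool.Agent.Lib.GP.SpecA

/-!
# Theorem GP: Prm, a primitive vector is the first column of an invertible matrix (author helper86)
-/

set_option autoImplicit false

open IsDedekindDomain Matrix MeasureTheory

noncomputable section

namespace Pool.Agent.GP

theorem tPrm : S_Prm := by
  intro N v hv
  -- the functional
  obtain ⟨c, hc⟩ : ∃ c : Fin (N + 1) → ℤ, ∑ i, c i * v i = 1 := by
    have h1 : (Ideal.span (Set.range v)).IsPrincipal := IsPrincipalIdealRing.principal _
    obtain ⟨g, hg⟩ := h1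
    have h2 : ∀ i, ∃ w : ℤ, v i = g * w := by
      intro i
      have h3 : v i ∈ Ideal.span (Set.range v) := Ideal.subset_span ⟨i, rfl⟩
      rw [hg] at h3
      obtain ⟨w, hw⟩ := Submodule.mem_span_singleton.1 h3
      exact ⟨w, by rw [← hw, smul_eq_mul, mul_comm]⟩
    choose w hw using h2
    have h4 : IsUnit g := hv g w (funext fun i => by rw [Pi.smul_apply, smul_eq_mul, hw i])
    have h5 : (1 : ℤ) ∈ Ideal.span (Set.range v) := by
      have h6 : Ideal.span (Set.range v) = ⊤ := by
        rw [hg]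
        exact Ideal.span_singleton_eq_top.2 h4
      rw [h6]
      trivial
    exact Ideal.mem_span_range_iff_exists_fun.1 h5
  let φ : (Fin (N + 1) → ℤ) →ₗ[ℤ] ℤ := ∑ i, c i • LinearMap.proj i
  have hφ : ∀ x, φ x = ∑ i, c i * x i := by
    intro x
    simp only [φ, LinearMap.sum_apply, LinearMap.smul_apply, LinearMap.proj_apply, smul_eq_mul]
  have hφv : φ v = 1 := by rw [hφ, hc]
  obtain ⟨n, b⟩ := Submodule.basisOfPid (Pi.basisFun ℤ (Fin (N + 1))) (LinearMap.ker φ)
  have hli : ∀ (k : ℤ), ∀ x ∈ LinearMap.ker φ, k • v + x = 0 → k = 0 := by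
    intro k x hx h
    have h1 := congrArg φ h
    rw [map_add, map_smul, LinearMap.mem_ker.1 hx, hφv, map_zero] at h1
    simpa using h1
  have hsp : ∀ z : Fin (N + 1) → ℤ, ∃ k : ℤ, z + k • v ∈ LinearMap.ker φ := by
    intro z
    refine ⟨-φ z, ?_⟩
    rw [LinearMap.mem_ker, map_add, map_smul, hφv]
    simp
  let B0 := Module.Basis.mkFinCons v b hli hsp
  have hn : n = N := by
    have h1 := Module.finrank_eq_card_basis B0
    have h2 := Module.finrank_eq_card_basis (Pi.basisFun ℤ (Fin (N + 1)))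
    rw [h1] at h2
    simpa using h2
  subst hn
  refine ⟨(Pi.basisFun ℤ (Fin (n + 1))).toMatrix B0, B0.toMatrix (Pi.basisFun ℤ (Fin (n + 1))),
    Module.Basis.toMatrix_mul_toMatrix_flip _ _, Module.Basis.toMatrix_mul_toMatrix_flip _ _, fun i => ?_⟩
  have h1 : B0 0 = v := by
    simp only [B0, Module.Basis.coe_mkFinCons, Fin.cons_zero]
  rw [Module.Basis.toMatrix_apply, h1, Pi.basisFun_repr]

end Pool.Agent.GP
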