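import Pool.Agent.Lib.GP.Spec

/-!
# Theorem GP: the module Psi

A continuous function on `G` which is invariant on both sides under the stabilizer of the unit vector `e` is a continuous
function of `⟨g e, e⟩`.
-/

set_option autoImplicit false

open IsDedekindDomain Matrix MeasureTheory
open scoped Real

noncomputable section

namespace Pool.Agent.GP

/-- In dimension at least three there is a unit vector orthogonal to two given vectors. -/
private theorem Psi_perp {N : ℕ} (hN : 3 ≤ N) (e u : EE N) :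
    ∃ w : EE N, ‖w‖ = 1 ∧ inner ℝ e w = (0 : ℝ) ∧ inner ℝ u w = (0 : ℝ) := by
  classical
  set S : Submodule ℝ (EE N) := Submodule.span ℝ (({e, u} : Finset (EE N)) : Set (EE N)) with hS
  have h1 : Module.finrank ℝ S ≤ 2 := (finrank_span_finset_le_card _).trans Finset.card_le_two
  have h2 := Submodule.finrank_add_finrank_orthogonal S
  have h3 : Module.finrank ℝ (EE N) = N := finrank_euclideanSpace_fin
  have h5 : Sᗮ ≠ ⊥ := by
    intro h
    rw [h, finrank_bot] at h2
    omega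
  obtain ⟨x, hx, hx0⟩ := Submodule.exists_mem_ne_zero_of_ne_bot h5
  have hn : ‖x‖ ≠ 0 := norm_ne_zero_iff.2 hx0
  have he : inner ℝ e x = (0 : ℝ) :=
    (Submodule.mem_orthogonal _ _).1 hx e (Submodule.subset_span (by simp))
  have hu : inner ℝ u x = (0 : ℝ) :=
    (Submodule.mem_orthogonal _ _).1 hx u (Submodule.subset_span (by simp))
  refine ⟨‖x‖⁻¹ • x, ?_, ?_, ?_⟩
  · rw [norm_smul, norm_inv, norm_norm, inv_mul_cancel₀ hn]
  · rw [inner_smul_right, he, mul_zero]
  · rw [inner_smul_right, hu, mul_zero]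

/-- The component of a unit vector `b` orthogonal to the unit vector `u`. -/
private theorem Psi_dec {N : ℕ} (u b : EE N) (hu : ‖u‖ = 1) (hb : ‖b‖ = 1) (p : ℝ) (hp : p = inner ℝ b u) :
    ‖b - p • u‖ ^ 2 = 1 - p ^ 2 ∧ inner ℝ u (b - p • u) = (0 : ℝ) := by
  constructor
  · rw [@norm_sub_sq_real, norm_smul, inner_smul_right, hb, hu, ← hp, Real.norm_eq_abs, mul_one, sq_abs]
    ring
  · rw [inner_sub_right, inner_smul_right, real_inner_self_eq_norm_sq, hu, real_inner_comm, ← hp]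
    ring

private theorem Psi_sq_le {N : ℕ} (u b : EE N) (hu : ‖u‖ = 1) (hb : ‖b‖ = 1) (p : ℝ) (hp : p = inner ℝ b u) :
    |p| ≤ 1 := by
  have h := abs_real_inner_le_norm b u
  rw [hu, hb, ← hp] at h
  simpa using h

/-- The stabilizer of `e` moves `u` to `b` (unit vectors orthogonal to `e`). -/
private theorem Psi_move {N : ℕ} {G : Type} [Group G] [TopologicalSpace G] {e : EE N} (R : Rot G N e)
    (hN : 3 ≤ N) (u b : EE N) (hu : ‖u‖ = 1) (hb : ‖b‖ = 1) (hue : inner ℝ u e = (0 : ℝ))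
    (hbe : inner ℝ b e = (0 : ℝ)) : ∃ h : G, R.τ h e = e ∧ R.τ h u = b := by
  have key : ∀ (w : EE N) (α : ℝ), ‖w‖ = 1 → inner ℝ u w = (0 : ℝ) → inner ℝ w e = (0 : ℝ) →
      Real.cos α • u + Real.sin α • w = b → ∃ h : G, R.τ h e = e ∧ R.τ h u = b := by
    intro w α hw huw hwe hb'
    obtain ⟨c, -, hc⟩ := R.rot u w hu hw huw
    refine ⟨c α, ?_, ?_⟩
    · rw [hc, hue, hwe]
      simp
    · rw [hc, real_inner_self_eq_norm_sq, hu, real_inner_comm, huw, ← hb']
      module
  set p : ℝ := inner ℝ b u with hp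
  obtain ⟨d1, d2⟩ := Psi_dec u b hu hb p hp
  obtain ⟨pl, pu⟩ := abs_le.1 (Psi_sq_le u b hu hb p hp)
  by_cases h1 : p ^ 2 = 1
  · obtain ⟨w, hw, hew, huw⟩ := Psi_perp hN e u
    have h0 : b - p • u = 0 := by
      rw [h1, sub_self] at d1
      exact norm_eq_zero.1 (pow_eq_zero_iff (two_ne_zero)|>.1 d1)
    have h2 : p • u = b := (sub_eq_zero.1 h0).symm
    have hwe : inner ℝ w e = (0 : ℝ) := by rw [real_inner_comm]; exact hew
    rcases (show p = 1 ∨ p = -1 by
        have h3 : (p - 1) * (p + 1) = 0 := by linear_combination h1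
        rcases mul_eq_zero.1 h3 with h | h
        · exact Or.inl (by linarith)
        · exact Or.inr (by linarith)) with h | h
    · refine key w 0 hw huw hwe ?_
      rw [Real.cos_zero, Real.sin_zero, zero_smul, add_zero, ← h2, h]
    · refine key w π hw huw hwe ?_
      rw [Real.cos_pi, Real.sin_pi, zero_smul, add_zero, ← h2, h]
  · have hlt : 0 < 1 - p ^ 2 := by
      rcases lt_or_eq_of_le (show p ^ 2 ≤ 1 by nlinarith) with h | h
      · linarith
      · exact absurd h h1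
    have hs : 0 < √(1 - p ^ 2) := Real.sqrt_pos.2 hlt
    have hn : ‖b - p • u‖ = √(1 - p ^ 2) := by
      rw [← d1, Real.sqrt_sq (norm_nonneg _)]
    refine key ((√(1 - p ^ 2))⁻¹ • (b - p • u)) (Real.arccos p) ?_ ?_ ?_ ?_
    · rw [norm_smul, hn, norm_inv, Real.norm_eq_abs, abs_of_pos hs, inv_mul_cancel₀ hs.ne']
    · rw [inner_smul_right, d2, mul_zero]
    · rw [real_inner_smul_left, inner_sub_left, real_inner_smul_left, hbe, hue, mul_zero, sub_zero, mul_zero]
    · rw [Real.cos_arccos pl pu, Real.sin_arccos, smul_smul, mul_inv_cancel₀ hs.ne', one_smul]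
      abel

theorem tPsi : S_Psi := by
  intro N G _ _ _ e R hN f hf hinv
  obtain ⟨u, hu, heu, -⟩ := Psi_perp hN e e
  have hue : inner ℝ u e = (0 : ℝ) := by rw [real_inner_comm]; exact heu
  obtain ⟨c, hcc, hc⟩ := R.rot e u R.ne hu heu
  refine ⟨fun s => f (c (Real.arccos s)), hf.comp (hcc.comp Real.continuous_arccos), fun s => ⟨_, rfl⟩, ?_⟩
  intro x
  have hxe : ‖R.τ x e‖ = 1 := by rw [LinearIsometryEquiv.norm_map, R.ne]
  set s : ℝ := inner ℝ (R.τ x e) e with hs
  obtain ⟨d1, d2⟩ := Psi_dec e (R.τ x e) R.ne hxe s hs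
  obtain ⟨sl, su⟩ := abs_le.1 (Psi_sq_le e (R.τ x e) R.ne hxe s hs)
  have hy : R.τ (c (Real.arccos s)) e = s • e + √(1 - s ^ 2) • u := by
    rw [hc, real_inner_self_eq_norm_sq, R.ne, hue, Real.cos_arccos sl su, Real.sin_arccos]
    module
  obtain ⟨h, hhe, hhy⟩ : ∃ h : G, R.τ h e = e ∧ R.τ h (R.τ (c (Real.arccos s)) e) = R.τ x e := by
    by_cases h1 : s ^ 2 = 1
    · have h0 : R.τ x e - s • e = 0 := by
        rw [h1, sub_self] at d1
        exact norm_eq_zero.1 (pow_eq_zero_iff (two_ne_zero)|>.1 d1)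
      refine ⟨1, by rw [map_one]; rfl, ?_⟩
      rw [hy, h1, sub_self, Real.sqrt_zero, zero_smul, add_zero, map_one]
      exact (sub_eq_zero.1 h0).symm
    · have hlt : 0 < 1 - s ^ 2 := by
        rcases lt_or_eq_of_le (show s ^ 2 ≤ 1 by nlinarith) with h | h
        · linarith
        · exact absurd h h1
      have hsq : 0 < √(1 - s ^ 2) := Real.sqrt_pos.2 hlt
      have hn : ‖R.τ x e - s • e‖ = √(1 - s ^ 2) := by
        rw [← d1, Real.sqrt_sq (norm_nonneg _)]
      obtain ⟨h, h2, h3⟩ := Psi_move R hN u ((√(1 - s ^ 2))⁻¹ • (R.τ x e - s • e)) hu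
        (by rw [norm_smul, hn, norm_inv, Real.norm_eq_abs, abs_of_pos hsq, inv_mul_cancel₀ hsq.ne']) hue
        (by rw [real_inner_comm, inner_smul_right, d2, mul_zero])
      refine ⟨h, h2, ?_⟩
      rw [hy, map_add, map_smul, map_smul, h2, h3, smul_smul, mul_inv_cancel₀ hsq.ne', one_smul]
      abel
  have h3 : R.τ (x⁻¹ * (h * c (Real.arccos s))) e = e := by
    have e1 : R.τ (x⁻¹ * (h * c (Real.arccos s))) e = R.τ x⁻¹ (R.τ h (R.τ (c (Real.arccos s)) e)) := by
      rw [map_mul, map_mul]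
      rfl
    have e2 : R.τ x⁻¹ (R.τ x e) = R.τ (x⁻¹ * x) e := by
      rw [map_mul]
      rfl
    rw [e1, hhy, e2, inv_mul_cancel, map_one]
    rfl
  have h4 := (hinv x (x⁻¹ * (h * c (Real.arccos s))) h3).2
  have h5 := (hinv (c (Real.arccos s)) h hhe).1
  rw [mul_inv_cancel_left] at h4
  rw [← h4, h5]

end Pool.Agent.GP
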