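import Pool.Agent.Lib.GP.SpecA

/-!
# Theorem GP, module Red: one reduction step (helper95)
-/

set_option autoImplicit false

open IsDedekindDomain Matrix MeasureTheory

noncomputable section

namespace Pool.Agent.GP

private theorem bil_cons {R : Type} [CommRing R] {N : ℕ} (M : Matrix (Fin (N + 1)) (Fin (N + 1)) R)
    (hM : ∀ i : Fin N, M i.succ 0 = M 0 i.succ) (x0 y0 : R) (x y : Fin N → R) :
    (Fin.cons x0 x : Fin (N + 1) → R) ⬝ᵥ (M *ᵥ (Fin.cons y0 y : Fin (N + 1) → R)) =
      M 0 0 * x0 * y0 + x0 * (∑ j, M 0 j.succ * y j) + y0 * (∑ j, M 0 j.succ * x j) +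
        ∑ i, ∑ j, x i * M i.succ j.succ * y j := by
  have e1 : ∀ i : Fin N, x i * (M i.succ 0 * y0 + ∑ j, M i.succ j.succ * y j) =
      y0 * (M 0 i.succ * x i) + ∑ j, x i * M i.succ j.succ * y j := by
    intro i
    rw [hM i, mul_add, Finset.mul_sum]
    congr 1
    · ring
    · exact Finset.sum_congr rfl fun j _ => by ring
  simp only [dotProduct, Matrix.mulVec, Fin.sum_univ_succ, Fin.cons_zero, Fin.cons_succ, e1,
    Finset.sum_add_distrib, ← Finset.mul_sum]
  ring

private theorem tform {R : Type} [CommRing R] {N : ℕ} (a : R) (s : Fin N → R)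
    (S' : Matrix (Fin N) (Fin N) R) (x y : Fin N → R) :
    ∑ i, ∑ j, x i * (a * S' i j - s i * s j) * y j =
      a * (∑ i, ∑ j, x i * S' i j * y j) - (∑ i, s i * x i) * (∑ j, s j * y j) := by
  rw [Finset.mul_sum, Finset.sum_mul_sum, ← Finset.sum_sub_distrib]
  refine Finset.sum_congr rfl fun i _ => ?_
  rw [Finset.mul_sum, ← Finset.sum_sub_distrib]
  exact Finset.sum_congr rfl fun j _ => by ring

private theorem form_apply {R : Type} [CommRing R] {m k : ℕ} (U : Matrix (Fin m) (Fin k) R)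
    (S : Matrix (Fin m) (Fin m) R) (i j : Fin k) :
    (Uᵀ * S * U) i j = (fun p => U p i) ⬝ᵥ (S *ᵥ fun p => U p j) := by
  rw [Matrix.mul_assoc, Matrix.mul_apply]
  simp only [dotProduct, Matrix.mulVec, Matrix.transpose_apply, Matrix.mul_apply]

private theorem form_two {R : Type} [CommRing R] {N : ℕ} (T : Matrix (Fin N) (Fin N) R) (x y : Fin N → R) :
    x ⬝ᵥ (T *ᵥ y) = ∑ i, ∑ j, x i * T i j * y j := by
  simp only [dotProduct, Matrix.mulVec, Finset.mul_sum]
  exact Finset.sum_congr rfl fun i _ => Finset.sum_congr rfl fun j _ => by ring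

private theorem det_col {R : Type} [CommRing R] {N : ℕ} (M : Matrix (Fin (N + 1)) (Fin (N + 1)) R)
    (hM : ∀ i : Fin N, M i.succ 0 = 0) : M.det = M 0 0 * (M.submatrix Fin.succ Fin.succ).det := by
  rw [Matrix.det_succ_column_zero, Fin.sum_univ_succ]
  simp [hM]

private theorem cast_form {N : ℕ} (S : Matrix (Fin N) (Fin N) ℤ) (x : Fin N → ℤ) :
    (((x ⬝ᵥ (S *ᵥ x) : ℤ)) : ℝ) = (fun i => (x i : ℝ)) ⬝ᵥ (S.map (Int.cast : ℤ → ℝ) *ᵥ fun i => (x i : ℝ)) := by
  rw [form_two, form_two]
  push_cast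
  simp only [Matrix.map_apply]

private theorem form_conj {R : Type} [CommRing R] {N : ℕ} (U S : Matrix (Fin N) (Fin N) R) (x : Fin N → R) :
    x ⬝ᵥ ((Uᵀ * S * U) *ᵥ x) = (U *ᵥ x) ⬝ᵥ (S *ᵥ (U *ᵥ x)) := by
  rw [← Matrix.mulVec_mulVec, ← Matrix.mulVec_mulVec, Matrix.dotProduct_mulVec, Matrix.vecMul_transpose]

private theorem round {a : ℤ} (ha : 0 < a) (s : ℤ) : ∃ r : ℤ, 2 * |s + a * r| ≤ a := by
  refine ⟨-((2 * s + a) / (2 * a)), ?_⟩
  have h1 := Int.emod_add_mul_ediv (2 * s + a) (2 * a)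
  have h2 := Int.emod_nonneg (2 * s + a) (by omega : 2 * a ≠ 0)
  have h3 := Int.emod_lt_of_pos (2 * s + a) (by omega : 0 < 2 * a)
  set q := (2 * s + a) / (2 * a)
  set e := (2 * s + a) % (2 * a)
  have h4 : 2 * (s + a * -q) = e - a := by linear_combination (-1 : ℤ) * h1
  have h5 : 2 * |s + a * -q| = |e - a| := by
    rw [← h4, abs_mul]; norm_num
  rw [h5, abs_le]
  constructor <;> linarith

theorem tRed : S_Red := by
  intro prm N S hS
  obtain ⟨hsym, hpos⟩ := hS
  -- the form is positive on integral vectors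
  have hq : ∀ x : Fin (N + 1) → ℤ, x ≠ 0 → 0 < x ⬝ᵥ (S *ᵥ x) := by
    intro x hx
    have h := hpos (fun i => (x i : ℝ)) (fun h => hx (funext fun i => by
      have := congrFun h i
      simpa using this))
    rw [← cast_form] at h
    exact_mod_cast h
  -- the minimum
  obtain ⟨a, v, hv, hav, hmin⟩ : ∃ (a : ℤ) (v : Fin (N + 1) → ℤ), v ≠ 0 ∧ v ⬝ᵥ (S *ᵥ v) = a ∧
      ∀ x : Fin (N + 1) → ℤ, x ≠ 0 → a ≤ x ⬝ᵥ (S *ᵥ x) := by
    classical
    have hex : ∃ k : ℕ, ∃ x : Fin (N + 1) → ℤ, x ≠ 0 ∧ x ⬝ᵥ (S *ᵥ x) = k := by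
      refine ⟨((fun _ => 1 : Fin (N + 1) → ℤ) ⬝ᵥ (S *ᵥ fun _ => 1)).toNat, fun _ => 1, ?_, ?_⟩
      · intro h
        have := congrFun h 0
        simp at this
      · rw [Int.toNat_of_nonneg]
        exact (hq _ (fun h => by
          have := congrFun h 0
          simp at this)).le
    obtain ⟨v, hv, hv1⟩ := Nat.find_spec hex
    refine ⟨(Nat.find hex : ℕ), v, hv, hv1, fun x hx => ?_⟩
    have h0 := hq x hx
    obtain ⟨k, hk⟩ := Int.eq_ofNat_of_zero_le h0.le
    have h1 : Nat.find hex ≤ k := Nat.find_min' hex ⟨x, hx, hk⟩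
    rw [hk]
    exact_mod_cast h1
  have ha : 0 < a := hav ▸ hq v hv
  -- primitivity
  have hprim : ∀ (k : ℤ) (w : Fin (N + 1) → ℤ), v = k • w → IsUnit k := by
    intro k w hk
    have hw : w ≠ 0 := by
      rintro rfl
      rw [smul_zero] at hk
      exact hv hk
    have hk0 : k ≠ 0 := by
      rintro rfl
      rw [zero_smul] at hk
      exact hv hk
    have h1 : v ⬝ᵥ (S *ᵥ v) = k ^ 2 * (w ⬝ᵥ (S *ᵥ w)) := by
      rw [hk, Matrix.mulVec_smul, dotProduct_smul, smul_dotProduct]
      simp only [smul_eq_mul]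
      ring
    rw [hav] at h1
    have h2 := hmin w hw
    have h3 : 1 ≤ k ^ 2 := by
      have : 0 < k ^ 2 := by positivity
      omega
    have h4 : k ^ 2 = 1 := by nlinarith
    rw [Int.isUnit_iff]
    have h5 : (k - 1) * (k + 1) = 0 := by linear_combination h4
    rcases mul_eq_zero.1 h5 with h6 | h6
    · left; omega
    · right; omega
  obtain ⟨U0, U0', hU1, hU2, hUv⟩ := prm N v hprim
  set S0 : Matrix (Fin (N + 1)) (Fin (N + 1)) ℤ := U0ᵀ * S * U0 with hS0
  have hS0sym : S0ᵀ = S0 := by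
    rw [hS0, Matrix.transpose_mul, Matrix.transpose_mul, Matrix.transpose_transpose, hsym.eq,
      Matrix.mul_assoc]
  have hs : ∀ i : Fin N, S0 i.succ 0 = S0 0 i.succ := fun i => by
    conv_lhs => rw [← hS0sym, Matrix.transpose_apply]
  have h00 : S0 0 0 = a := by
    rw [hS0, form_apply]
    have : (fun p => U0 p 0) = v := funext hUv
    rw [this, hav]
  set T : Matrix (Fin N) (Fin N) ℤ := Matrix.of fun i j =>
    a * S0 i.succ j.succ - S0 0 i.succ * S0 0 j.succ with hT
  have hTa : ∀ i j, T i j = a * S0 i.succ j.succ - S0 0 i.succ * S0 0 j.succ := fun i j => rfl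
  refine ⟨a, T, ha, hmin, ⟨?_, ?_⟩, ?_, ?_⟩
  · -- symmetric
    refine Matrix.IsSymm.ext fun i j => ?_
    have h1 : S0 j.succ i.succ = S0 i.succ j.succ := by
      conv_lhs => rw [← hS0sym, Matrix.transpose_apply]
    rw [hTa, hTa, h1]
    ring
  · -- positive definite
    intro y hy
    have haR : (0 : ℝ) < a := by exact_mod_cast ha
    set S0r : Matrix (Fin (N + 1)) (Fin (N + 1)) ℝ := S0.map (Int.cast : ℤ → ℝ) with hS0r
    set sr : Fin N → ℝ := fun i => S0r 0 i.succ with hsr
    set X : Fin (N + 1) → ℝ := Fin.cons (-(∑ j, sr j * y j)) (fun i => (a : ℝ) * y i) with hX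
    have hX0 : X ≠ 0 := by
      intro h
      refine hy (funext fun i => ?_)
      have h1 := congrFun h i.succ
      rw [hX, Fin.cons_succ, Pi.zero_apply] at h1
      simpa [haR.ne'] using h1
    have e1 : X ⬝ᵥ (S0r *ᵥ X) = (a : ℝ) * (y ⬝ᵥ (T.map (Int.cast : ℤ → ℝ) *ᵥ y)) := by
      have h1 : ∀ i : Fin N, S0r i.succ 0 = S0r 0 i.succ := fun i => by
        rw [hS0r, Matrix.map_apply, Matrix.map_apply, hs i]
      have h2 : S0r 0 0 = (a : ℝ) := by rw [hS0r, Matrix.map_apply, h00]
      rw [hX, bil_cons S0r h1, form_two, h2]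
      have h3 : ∀ i j, (T.map (Int.cast : ℤ → ℝ)) i j =
          (a : ℝ) * (S0r.submatrix Fin.succ Fin.succ) i j - sr i * sr j := by
        intro i j
        rw [Matrix.map_apply, hTa]
        push_cast
        rfl
      simp only [h3]
      rw [tform (a : ℝ) sr]
      have h4 : ∑ j, S0r 0 j.succ * ((a : ℝ) * y j) = (a : ℝ) * ∑ j, sr j * y j := by
        rw [Finset.mul_sum]
        exact Finset.sum_congr rfl fun j _ => by rw [hsr]; ring
      have h5 : ∑ i, ∑ j, (a : ℝ) * y i * S0r i.succ j.succ * ((a : ℝ) * y j) =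
          (a : ℝ) ^ 2 * ∑ i, ∑ j, y i * (S0r.submatrix Fin.succ Fin.succ) i j * y j := by
        rw [Finset.mul_sum]
        refine Finset.sum_congr rfl fun i _ => ?_
        rw [Finset.mul_sum]
        refine Finset.sum_congr rfl fun j _ => ?_
        rw [Matrix.submatrix_apply]
        ring
      rw [h4, h5]
      ring
    have e2 : X ⬝ᵥ (S0r *ᵥ X) = ((U0.map (Int.cast : ℤ → ℝ)) *ᵥ X) ⬝ᵥ
        (S.map (Int.cast : ℤ → ℝ) *ᵥ ((U0.map (Int.cast : ℤ → ℝ)) *ᵥ X)) := by
      rw [← form_conj]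
      congr 2
      rw [hS0r, hS0]
      have k1 := (Matrix.map_mul (L := U0ᵀ * S) (M := U0) (f := Int.castRingHom ℝ))
      have k2 := (Matrix.map_mul (L := U0ᵀ) (M := S) (f := Int.castRingHom ℝ))
      rw [k2] at k1
      exact k1
    have hUX : (U0.map (Int.cast : ℤ → ℝ)) *ᵥ X ≠ 0 := by
      intro h
      refine hX0 ?_
      have h1 : (U0'.map (Int.cast : ℤ → ℝ)) * (U0.map (Int.cast : ℤ → ℝ)) = 1 := by
        have k1 := (Matrix.map_mul (L := U0') (M := U0) (f := Int.castRingHom ℝ))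
        rw [hU2, Matrix.map_one _ (map_zero _) (map_one _)] at k1
        exact k1.symm
      have h2 := congrArg (fun w => (U0'.map (Int.cast : ℤ → ℝ)) *ᵥ w) h
      simp only [Matrix.mulVec_mulVec, h1, Matrix.one_mulVec, Matrix.mulVec_zero] at h2
      exact h2
    have h3 := hpos _ hUX
    rw [← e2, e1] at h3
    exact (mul_pos_iff_of_pos_left haR).1 h3
  · -- determinant
    set E : Matrix (Fin (N + 1)) (Fin (N + 1)) ℤ := Matrix.of
      (Fin.cons (Fin.cons 1 (fun i => - S0 0 i.succ)) (fun i => Fin.cons 0 (fun j => if i = j then a else 0)))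
      with hE
    have hE0 : ∀ i : Fin N, E i.succ 0 = 0 := fun i => by simp [hE]
    have hEd : E.det = a ^ N := by
      rw [det_col E hE0]
      have h1 : E.submatrix Fin.succ Fin.succ = Matrix.diagonal (fun _ => a) := by
        ext i j
        simp [hE, Matrix.diagonal_apply]
      rw [h1, Matrix.det_diagonal]
      simp [hE]
    have hcol0 : (fun p => E p 0) = (Fin.cons 1 0 : Fin (N + 1) → ℤ) := by
      funext p
      refine Fin.cases ?_ (fun i => ?_) p
      · simp [hE]
      · simp [hE]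
    have hcol : ∀ j : Fin N, (fun p => E p j.succ) =
        (Fin.cons (- S0 0 j.succ) (fun i => if i = j then a else 0) : Fin (N + 1) → ℤ) := by
      intro j
      funext p
      refine Fin.cases ?_ (fun i => ?_) p
      · simp [hE]
      · simp [hE]
    have g00 : (Eᵀ * S0 * E) 0 0 = a := by
      rw [form_apply, hcol0, bil_cons S0 hs, h00]
      simp
    have g0 : ∀ i : Fin N, (Eᵀ * S0 * E) i.succ 0 = 0 := by
      intro i
      rw [form_apply, hcol0, hcol, bil_cons S0 hs, h00]
      simp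
      ring
    have gij : (Eᵀ * S0 * E).submatrix Fin.succ Fin.succ = a • T := by
      ext i j
      rw [Matrix.submatrix_apply, form_apply, hcol, hcol, bil_cons S0 hs, h00, Matrix.smul_apply, hTa]
      simp
      ring
    have h1 : (Eᵀ * S0 * E).det = a * (a ^ N * T.det) := by
      rw [det_col _ g0, g00, gij, Matrix.det_smul, Fintype.card_fin]
    have h2 : (Eᵀ * S0 * E).det = a ^ N * S0.det * a ^ N := by
      rw [Matrix.det_mul, Matrix.det_mul, Matrix.det_transpose, hEd]
    have h3 : S0.det = S.det := by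
      have k1 : U0.det * U0'.det = 1 := by rw [← Matrix.det_mul, hU1, Matrix.det_one]
      have k2 : U0.det ^ 2 = 1 := by
        have : IsUnit U0.det := IsUnit.of_mul_eq_one _ k1
        rcases Int.isUnit_iff.1 this with h | h <;> rw [h] <;> norm_num
      rw [hS0, Matrix.det_mul, Matrix.det_mul, Matrix.det_transpose]
      linear_combination S.det * k2
    have h4 : a ^ N * (a * T.det) = a ^ N * (a ^ N * S.det) := by
      rw [← h3]
      linear_combination h2 - h1
    exact mul_left_cancel₀ (pow_ne_zero N ha.ne') h4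
  · -- the reduction
    intro W W' hW1 hW2
    have hr : ∀ i : Fin N, ∃ r : ℤ, 2 * |(∑ k, S0 0 k.succ * W k i) + a * r| ≤ a := fun i => round ha _
    choose r hr using hr
    set U1 : Matrix (Fin (N + 1)) (Fin (N + 1)) ℤ := Matrix.of
      (Fin.cons (Fin.cons 1 r) (fun i => Fin.cons 0 (fun j => W i j))) with hU1d
    set U1' : Matrix (Fin (N + 1)) (Fin (N + 1)) ℤ := Matrix.of
      (Fin.cons (Fin.cons 1 (fun j => - ∑ k, r k * W' k j)) (fun i => Fin.cons 0 (fun j => W' i j))) with hU1d'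
    have hcol0 : (fun p => U1 p 0) = (Fin.cons 1 0 : Fin (N + 1) → ℤ) := by
      funext p
      refine Fin.cases ?_ (fun i => ?_) p
      · simp [hU1d]
      · simp [hU1d]
    have hcol : ∀ j : Fin N, (fun p => U1 p j.succ) =
        (Fin.cons (r j) (fun i => W i j) : Fin (N + 1) → ℤ) := by
      intro j
      funext p
      refine Fin.cases ?_ (fun i => ?_) p
      · simp [hU1d]
      · simp [hU1d]
    have hprod : U1 * U1' = 1 := by
      ext i j
      rw [Matrix.mul_apply, Fin.sum_univ_succ]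
      refine Fin.cases ?_ (fun i => ?_) i
      · refine Fin.cases ?_ (fun j => ?_) j
        · simp [hU1d, hU1d']
        · simp [hU1d, hU1d', (Fin.succ_ne_zero j).symm]
      · refine Fin.cases ?_ (fun j => ?_) j
        · simp [hU1d, hU1d', Matrix.one_apply]
        · have h1 := congrFun (congrFun hW1 i) j
          rw [Matrix.mul_apply] at h1
          simp [hU1d, hU1d', h1, Matrix.one_apply]
    have hprod' : U1' * U1 = 1 := by
      exact mul_eq_one_comm.1 hprod
    have hconj : (U0 * U1)ᵀ * S * (U0 * U1) = U1ᵀ * S0 * U1 := by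
      rw [hS0, Matrix.transpose_mul]
      simp only [Matrix.mul_assoc]
    refine ⟨U0 * U1, U1' * U0', ?_, ?_, ?_, ?_, ?_⟩
    · calc U0 * U1 * (U1' * U0') = U0 * (U1 * U1') * U0' := by simp only [Matrix.mul_assoc]
        _ = 1 := by rw [hprod, Matrix.mul_one, hU1]
    · calc U1' * U0' * (U0 * U1) = U1' * (U0' * U0) * U1 := by simp only [Matrix.mul_assoc]
        _ = 1 := by rw [hU2, Matrix.mul_one, hprod']
    · rw [hconj, form_apply, hcol0, bil_cons S0 hs, h00]
      simp
    · intro i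
      rw [hconj, form_apply, hcol0, hcol, bil_cons S0 hs, h00]
      have h1 := hr i
      simp
      rw [add_comm]
      exact h1
    · intro i j
      have k0 : ∀ l : Fin N, (U1ᵀ * S0 * U1) 0 l.succ = a * r l + ∑ k, S0 0 k.succ * W k l := by
        intro l
        rw [form_apply, hcol0, hcol, bil_cons S0 hs, h00]
        simp
      have k1 : (U1ᵀ * S0 * U1) i.succ j.succ = a * r i * r j + r i * (∑ k, S0 0 k.succ * W k j) +
          r j * (∑ k, S0 0 k.succ * W k i) + ∑ p, ∑ q, W p i * S0 p.succ q.succ * W q j := by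
        rw [form_apply, hcol, hcol, bil_cons S0 hs, h00]
      have k2 : (Wᵀ * T * W) i j = a * (∑ p, ∑ q, W p i * S0 p.succ q.succ * W q j) -
          (∑ k, S0 0 k.succ * W k i) * (∑ k, S0 0 k.succ * W k j) := by
        rw [form_apply, form_two]
        exact tform a (fun i => S0 0 i.succ) (S0.submatrix Fin.succ Fin.succ) (fun p => W p i) (fun p => W p j)
      rw [hconj, k0, k0, k1, k2]
      ring

end Pool.Agent.GP
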