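import Pool.Agent.Lib.GP.Spec

/-!
# Theorem GP: module Up1
-/

set_option autoImplicit false

open IsDedekindDomain Matrix MeasureTheory
open scoped Real

noncomputable section

namespace Pool.Agent.GP

private theorem Up1_sin {η α : ℝ} (h0 : 0 < η) (h1 : η ≤ α) (h2 : α ≤ π - η) :
    2 / π * η ≤ Real.sin α := by
  have hpi := Real.pi_pos
  have h3 : 0 < 2 / π := by positivity
  rcases le_total α (π / 2) with h | h
  · have h4 := Real.mul_le_sin (by linarith : 0 ≤ α) h
    have h5 := mul_le_mul_of_nonneg_left h1 h3.le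
    linarith
  · have h4 := Real.mul_le_sin (by linarith : 0 ≤ π - α) (by linarith)
    rw [Real.sin_pi_sub] at h4
    have h5 := mul_le_mul_of_nonneg_left (by linarith : η ≤ π - α) h3.le
    linarith

theorem tUp1 : S_Up1 := by
  intro ψ b hψ hb t s η ht hs hη hη1
  have hpi := Real.pi_pos
  have hpi3 := Real.pi_gt_three
  have hs0 : 0 < s := by rw [hs]; linarith
  have hcos : 0 < Real.cos η := Real.cos_pos_of_mem_Ioo ⟨by linarith, by linarith⟩
  let F : ℝ → ℝ := fun α => ψ (t ^ 2 + s * Real.cos α)
  have hF : Continuous F := by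
    change Continuous fun α => ψ (t ^ 2 + s * Real.cos α)
    exact hψ.comp (by fun_prop)
  have hF0 : ∀ α, 0 ≤ F α := fun α => (hb _).1
  have hFb : ∀ α, F α ≤ b := fun α => (hb _).2
  have hI : ∀ u v : ℝ, IntervalIntegrable F volume u v := fun u v => hF.intervalIntegrable u v
  -- the second half
  have h2 : ∫ α in (π : ℝ)..(2 * π), F α = ∫ α in (0 : ℝ)..π, F α := by
    have h3 : ∫ α in (0 : ℝ)..π, F (2 * π - α) = ∫ α in (2 * π - π)..(2 * π - 0), F α :=
      intervalIntegral.integral_comp_sub_left F (2 * π)
    have h4 : (2 * π - π : ℝ) = π := by ring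
    have h5 : (2 * π - 0 : ℝ) = 2 * π := by ring
    rw [h4, h5] at h3
    rw [← h3]
    apply intervalIntegral.integral_congr
    intro α _
    change ψ (t ^ 2 + s * Real.cos (2 * π - α)) = ψ (t ^ 2 + s * Real.cos α)
    rw [Real.cos_two_pi_sub]
  have h3 : ∫ α in (0 : ℝ)..(2 * π), F α = 2 * ∫ α in (0 : ℝ)..π, F α := by
    rw [← intervalIntegral.integral_add_adjacent_intervals (hI 0 π) (hI π (2 * π)), h2]
    ring
  have h4 : ∫ α in (0 : ℝ)..π, F α =
      (∫ α in (0 : ℝ)..η, F α) + (∫ α in η..(π - η), F α) + ∫ α in (π - η)..π, F α := by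
    rw [intervalIntegral.integral_add_adjacent_intervals (hI 0 η) (hI η (π - η)),
      intervalIntegral.integral_add_adjacent_intervals (hI 0 (π - η)) (hI (π - η) π)]
  have h5 : ∫ α in (0 : ℝ)..η, F α ≤ η * b := by
    have h6 := intervalIntegral.integral_mono_on hη.le (hI 0 η)
      (intervalIntegrable_const (c := b)) (fun x _ => hFb x)
    rw [intervalIntegral.integral_const, smul_eq_mul, sub_zero] at h6
    exact h6
  have h6 : ∫ α in (π - η)..π, F α ≤ η * b := by
    have h7 := intervalIntegral.integral_mono_on (by linarith : π - η ≤ π) (hI (π - η) π)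
      (intervalIntegrable_const (c := b)) (fun x _ => hFb x)
    rw [intervalIntegral.integral_const, smul_eq_mul] at h7
    have h8 : π - (π - η) = η := by ring
    rw [h8] at h7
    exact h7
  -- the middle
  have h7 : ∫ α in η..(π - η), F α * (s * Real.sin α) =
      ∫ x in (t ^ 2 - s * Real.cos η)..(t ^ 2 + s * Real.cos η), ψ x := by
    have h8 : ∫ α in η..(π - η), (ψ ∘ fun α => t ^ 2 + s * Real.cos α) α * (s * (-Real.sin α)) =
        ∫ x in (t ^ 2 + s * Real.cos η)..(t ^ 2 + s * Real.cos (π - η)), ψ x := by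
      apply intervalIntegral.integral_comp_mul_deriv
      · intro x _
        exact ((Real.hasDerivAt_cos x).const_mul s).const_add (t ^ 2)
      · apply Continuous.continuousOn
        fun_prop
      · exact hψ
    rw [Real.cos_pi_sub] at h8
    have h9 : t ^ 2 + s * -Real.cos η = t ^ 2 - s * Real.cos η := by ring
    rw [h9] at h8
    have h10 : ∫ α in η..(π - η), (ψ ∘ fun α => t ^ 2 + s * Real.cos α) α * (s * (-Real.sin α)) =
        -∫ α in η..(π - η), F α * (s * Real.sin α) := by
      rw [← intervalIntegral.integral_neg]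
      apply intervalIntegral.integral_congr
      intro α _
      change ψ (t ^ 2 + s * Real.cos α) * (s * (-Real.sin α)) =
        -(ψ (t ^ 2 + s * Real.cos α) * (s * Real.sin α))
      ring
    rw [h10, intervalIntegral.integral_symm (t ^ 2 - s * Real.cos η)] at h8
    exact neg_injective h8
  have h8 : ∫ α in η..(π - η), F α ≤
      ∫ α in η..(π - η), π / (2 * (s * η)) * (F α * (s * Real.sin α)) := by
    apply intervalIntegral.integral_mono_on (by linarith) (hI _ _)
    · apply Continuous.intervalIntegrable
      fun_prop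
    · intro α hα
      have h9 := Up1_sin hη hα.1 hα.2
      have h10 : π / (2 * (s * η)) * (F α * (s * Real.sin α)) =
          F α * (π / (2 * η) * Real.sin α) := by
        field_simp
      rw [h10]
      have h11 : 1 ≤ π / (2 * η) * Real.sin α := by
        have h12 : π / (2 * η) * (2 / π * η) = 1 := by field_simp
        rw [← h12]
        exact mul_le_mul_of_nonneg_left h9 (by positivity)
      have h12 := mul_le_mul_of_nonneg_left h11 (hF0 α)
      linarith
  rw [intervalIntegral.integral_const_mul, h7] at h8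
  have h9 : ∫ x in (t ^ 2 - s * Real.cos η)..(t ^ 2 + s * Real.cos η), ψ x ≤
      ∫ x in (-(t ^ 2 + s * Real.cos η))..(t ^ 2 + s * Real.cos η), ψ x := by
    apply intervalIntegral.integral_mono_interval
    · have := sq_nonneg t
      linarith
    · have := mul_pos hs0 hcos
      linarith
    · exact le_rfl
    · exact Filter.Eventually.of_forall fun x => (hb x).1
    · exact hψ.intervalIntegrable _ _
  have h10 : 0 ≤ π / (2 * (s * η)) := by positivity
  have h11 := mul_le_mul_of_nonneg_left h9 h10
  have h12 : π / (s * η) * ∫ x in (-(t ^ 2 + s * Real.cos η))..(t ^ 2 + s * Real.cos η), ψ x =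
      2 * (π / (2 * (s * η)) *
        ∫ x in (-(t ^ 2 + s * Real.cos η))..(t ^ 2 + s * Real.cos η), ψ x) := by
    field_simp
  change ∫ α in (0 : ℝ)..(2 * π), F α ≤ _
  rw [h3, h4, h12]
  linarith

end Pool.Agent.GP
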