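import Pool.Agent.Lib.GP.Asm
import Pool.Agent.Lib.GP.HS
import Pool.Agent.Lib.GP.Phb
import Pool.Agent.Lib.GP.Av
import Pool.Agent.Lib.GP.Mean
import Pool.Agent.Lib.GP.Psi
import Pool.Agent.Lib.GP.Lo1
import Pool.Agent.Lib.GP.Low
import Pool.Agent.Lib.GP.Up1
import Pool.Agent.Lib.GP.Cov
import Pool.Agent.Lib.GP.Cir
import Pool.Agent.Lib.GP.Loc
import Pool.Agent.Lib.GP.LA
import Pool.Agent.Lib.GP.Exp
import Pool.Agent.Lib.GP.Null
import Pool.Agent.Lib.GP.Jw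
import Pool.Agent.Lib.GP.BF
import Pool.Agent.Lib.GP.AD1
import Pool.Agent.Lib.GP.AD2
import Pool.Agent.Lib.GP.AD3
import Pool.Agent.Lib.GP.AD5
import Pool.Agent.Lib.GP.AD6
import Pool.Agent.Lib.GP.GR1
import Pool.Agent.Lib.GP.GR2
import Pool.Agent.Lib.GP.GR3
import Pool.Agent.Lib.GP.Prm
import Pool.Agent.Lib.GP.Red
import Pool.Agent.Lib.GP.Her
import Pool.Agent.Lib.GP.CN1
import Pool.Agent.Lib.GP.FinV
import Pool.Agent.Lib.GP.CN2
import Pool.Agent.Lib.GP.CN3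
import Pool.Agent.Lib.GP.CN4

/-!
# The basic theorem GP (helper25, team)
-/

set_option autoImplicit false

open IsDedekindDomain Matrix MeasureTheory

namespace Pool.Agent.GP

/-- **GP.** -/
theorem gpBase : C_GP := by
  have hHS := tHS
  have hPhb := tPhb hHS
  have hAD1 : C_AD1 := tAD1
  have hAD2 : C_AD2 := tAD2
  have hAD3 : C_AD3 := tAD3 hAD1
  have hAD5 : C_AD5 := tAD5 hAD1
  have hAD6 : C_AD6 := tAD6
  have hGR1 : C_GR1 := tGR1
  have hGR2 : C_GR2 := tGR2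
  have hGR3 : C_GR3 := tGR3 hAD2 hAD5 hGR1
  have hRed : C_Red := tRed tPrm
  have hHer : C_Her := tHer hRed
  have hCN1 : C_CN1 := tCN1 hRed hHer
  have hCN2 : C_CN2 := tCN2 hAD1 hAD2 hAD3
  have hCN3 : C_CN3 := tCN3 hAD2 hCN1 hCN2
  have hCN4 : C_CN4 := tCN4 hAD2 hAD3 hAD6 tFinV hCN3
  have hLoc : C_Loc := tLoc hPhb (tAv hHS) (tMean hHS) tPsi (tLow tLo1) tUp1 tCov tCir
  have hNull : C_Null := tNull (tLA hHS) tExp
  have hBF : C_BF := tBF tJw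
  exact tGP hLoc hNull hBF hGR1 hGR2 hGR3 hCN4

end Pool.Agent.GP
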