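import Pool.Agent.Lib.GP.SpecB

set_option autoImplicit false

open Matrix MeasureTheory

noncomputable section

namespace Pool.Agent.GP

private theorem Br_norm {n : ℕ} (A : Matrix (Fin n) (Fin n) ℂ) (h : Aᴴ * A = 1)
    (v : EuclideanSpace ℂ (Fin n)) : ‖(WithLp.toLp 2 (A *ᵥ v.ofLp) : EuclideanSpace ℂ (Fin n))‖ = ‖v‖ := by
  have h1 : inner ℂ (WithLp.toLp 2 (A *ᵥ v.ofLp) : EuclideanSpace ℂ (Fin n))
      (WithLp.toLp 2 (A *ᵥ v.ofLp)) = inner ℂ v v := by
    rw [EuclideanSpace.inner_eq_star_dotProduct, EuclideanSpace.inner_eq_star_dotProduct]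
    show (A *ᵥ v.ofLp) ⬝ᵥ star (A *ᵥ v.ofLp) = v.ofLp ⬝ᵥ star v.ofLp
    rw [star_mulVec, dotProduct_comm, ← dotProduct_mulVec, mulVec_mulVec, h, one_mulVec,
      dotProduct_comm]
  rw [@norm_eq_sqrt_re_inner ℂ, @norm_eq_sqrt_re_inner ℂ, h1]

private def Br_lie {n : ℕ} (A B : Matrix (Fin n) (Fin n) ℂ) (h : Aᴴ * A = 1) (hAB : A * B = 1)
    (hBA : B * A = 1) : EuclideanSpace ℂ (Fin n) ≃ₗᵢ[ℂ] EuclideanSpace ℂ (Fin n) where
  toFun v := WithLp.toLp 2 (A *ᵥ v.ofLp)
  map_add' v w := by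
    rw [WithLp.ofLp_add, mulVec_add, WithLp.toLp_add]
  map_smul' c v := by
    rw [WithLp.ofLp_smul, mulVec_smul, WithLp.toLp_smul]
    rfl
  invFun v := WithLp.toLp 2 (B *ᵥ v.ofLp)
  left_inv v := by
    show WithLp.toLp 2 (B *ᵥ (A *ᵥ v.ofLp)) = v
    rw [mulVec_mulVec, hBA, one_mulVec]
  right_inv v := by
    show WithLp.toLp 2 (A *ᵥ (B *ᵥ v.ofLp)) = v
    rw [mulVec_mulVec, hAB, one_mulVec]
  norm_map' v := Br_norm A h v

private def Br_rep {G : Type} [Group G] [TopologicalSpace G] {n : ℕ} (ρ : MRep G n) :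
    URep G (EuclideanSpace ℂ (Fin n)) where
  act :=
    { toFun := fun x => Br_lie (ρ.hom x) (ρ.hom x⁻¹) (ρ.unit x)
        (by rw [← map_mul, mul_inv_cancel, map_one]) (by rw [← map_mul, inv_mul_cancel, map_one])
      map_one' := by
        ext v : 1
        show WithLp.toLp 2 (ρ.hom 1 *ᵥ v.ofLp) = v
        rw [map_one, one_mulVec]
      map_mul' := by
        intro x y
        ext v : 1
        show WithLp.toLp 2 (ρ.hom (x * y) *ᵥ v.ofLp) =
          WithLp.toLp 2 (ρ.hom x *ᵥ (ρ.hom y *ᵥ v.ofLp))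
        rw [map_mul, mulVec_mulVec] }
  cont v := by
    show Continuous fun g => (WithLp.toLp 2 (ρ.hom g *ᵥ v.ofLp) : EuclideanSpace ℂ (Fin n))
    exact (PiLp.continuous_toLp 2 _).comp (ρ.cont.matrix_mulVec continuous_const)

private theorem Br_act {G : Type} [Group G] [TopologicalSpace G] {n : ℕ} (ρ : MRep G n) (x : G)
    (v : EuclideanSpace ℂ (Fin n)) : ((Br_rep ρ).act x v).ofLp = ρ.hom x *ᵥ v.ofLp := rfl

theorem tBr : S_Br := by
  constructor
  · intro G _ _ n ρ
    refine ⟨Br_rep ρ, fun x v => rfl, ⟨?_, ?_⟩, ?_⟩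
    · have h1 : Nonempty (Fin n) := ⟨⟨0, Nat.pos_of_ne_zero ρ.pos⟩⟩
      infer_instance
    · intro S hS
      rcases ρ.irr (S.comap (WithLp.linearEquiv 2 ℂ (Fin n → ℂ)).symm.toLinearMap)
        (fun x v hv => hS x (WithLp.toLp 2 v) hv) with h | h
      · left
        rw [Submodule.eq_bot_iff]
        intro v hv
        have h1 : v.ofLp ∈ S.comap (WithLp.linearEquiv 2 ℂ (Fin n → ℂ)).symm.toLinearMap := hv
        rw [h, Submodule.mem_bot] at h1
        have h2 : v = WithLp.toLp 2 v.ofLp := rfl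
        rw [h2, h1]
        rfl
      · right
        rw [Submodule.eq_top_iff']
        intro v
        have h1 : v.ofLp ∈ S.comap (WithLp.linearEquiv 2 ℂ (Fin n → ℂ)).symm.toLinearMap := by
          rw [h]
          exact Submodule.mem_top
        exact h1
    · unfold coef
      refine le_antisymm (Submodule.span_le.2 ?_) (Submodule.span_le.2 ?_)
      · rintro c ⟨u, v, rfl⟩
        have h1 : (fun x => inner ℂ u ((Br_rep ρ).act x v)) =
            ∑ i, ∑ j, (star (u.ofLp i) * v.ofLp j) • fun x => ρ.hom x i j := by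
          funext x
          rw [EuclideanSpace.inner_eq_star_dotProduct, Br_act]
          simp only [dotProduct, mulVec, Finset.sum_apply, Pi.smul_apply, smul_eq_mul,
            Finset.sum_mul, Pi.star_apply]
          refine Finset.sum_congr rfl (fun i _ => Finset.sum_congr rfl (fun j _ => ?_))
          ring
        rw [h1]
        refine Submodule.sum_mem _ (fun i _ => Submodule.sum_mem _ (fun j _ => ?_))
        exact Submodule.smul_mem _ _ (Submodule.subset_span ⟨i, j, rfl⟩)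
      · rintro c ⟨i, j, rfl⟩
        refine Submodule.subset_span ⟨EuclideanSpace.single i 1, EuclideanSpace.single j 1, ?_⟩
        funext x
        rw [EuclideanSpace.inner_single_left, map_one, one_mul]
        have h1 := congrFun (Br_act ρ x (EuclideanSpace.single j 1)) i
        refine Eq.trans ?_ h1.symm
        show ρ.hom x i j = (ρ.hom x *ᵥ Pi.single j 1) i
        rw [mulVec_single_one]
        rfl
  · intro n m L
    refine ⟨LinearMap.mk₂ ℂ (fun v w => v.ofLp ⬝ᵥ (L *ᵥ w.ofLp)) ?_ ?_ ?_ ?_, fun v w => rfl, ?_⟩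
    · intro v v' w
      rw [WithLp.ofLp_add, add_dotProduct]
    · intro c v w
      rw [WithLp.ofLp_smul, smul_dotProduct]
    · intro v w w'
      rw [WithLp.ofLp_add, mulVec_add, dotProduct_add]
    · intro c v w
      rw [WithLp.ofLp_smul, mulVec_smul, dotProduct_smul]
    · intro hL h
      apply hL
      ext i j
      have h1 := congrArg (fun l : EuclideanSpace ℂ (Fin n) →ₗ[ℂ] EuclideanSpace ℂ (Fin m) →ₗ[ℂ] ℂ =>
        l (EuclideanSpace.single i 1) (EuclideanSpace.single j 1)) h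
      simp only [LinearMap.mk₂_apply, LinearMap.zero_apply] at h1
      have h2 : (Pi.single i 1 : Fin n → ℂ) ⬝ᵥ (L *ᵥ Pi.single j 1) = 0 := h1
      rw [mulVec_single_one, single_one_dotProduct] at h2
      exact h2

end Pool.Agent.GP
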