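import Pool.Agent.Lib.GP.Stm2
import Pool.Agent.Lib.GP.Br

/-!
# From the light definitions to the definitions of the proof (author helper25)
-/

set_option autoImplicit false

open IsDedekindDomain Matrix MeasureTheory

noncomputable section

namespace Pool.Agent.GP

variable {N n m : ℕ} {Q : Matrix (Fin N) (Fin N) ℚ}

theorem qG_eq (R : Type) [CommRing R] [Algebra ℚ R] (γ : SO Q ℚ) : qG Q R γ = (jG Q R γ : Gp Q R) := rfl

theorem qH_eq (e : Fin N → ℚ) (R : Type) [CommRing R] [Algebra ℚ R] (γ : HH Q e ℚ) :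
    qH Q e R γ = (jH Q e R γ : Hp Q e R) := rfl

theorem lH_eq (K : Subgroup (SO Q AQ)) (e : Fin N → ℚ) : lH K e = (KH Q e K : Subgroup (Hp Q e Af)) := rfl

/-- forms on `G` -/
theorem autG_iff (K : Subgroup (SO Q AQ)) {V : Type} [NormedAddCommGroup V] [InnerProductSpace ℂ V]
    (ρ : MRep (SO Q ℝ) n) (u : URep (Gp Q ℝ) V)
    (hu : coef u = Submodule.span ℂ {c | ∃ i j, c = fun x => ρ.hom x i j}) (φ : SO Q ℝ → SO Q AQ → ℂ) :
    AutG K ρ φ ↔ φ ∈ AG Q K u := by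
  show _ ↔ ((∀ (γ : Gp Q ℚ) (x : Gp Q ℝ) (g : Gp Q Af), ∀ k ∈ (show Subgroup (Gp Q Af) from K), φ (jG Q ℝ γ * x) (jG Q Af γ * g * k) = φ x g) ∧
    ∀ g : Gp Q Af, (fun x => φ x g) ∈ coef u)
  rw [hu]
  rfl

/-- forms on `H` -/
theorem autH_iff (K : Subgroup (SO Q AQ)) {e : Fin N → ℚ} {W : Type} [NormedAddCommGroup W] [InnerProductSpace ℂ W]
    (σ : MRep (HH Q e ℝ) m) (u : URep (Hp Q e ℝ) W)
    (hu : coef u = Submodule.span ℂ {c | ∃ i j, c = fun x => σ.hom x i j}) (φ : HH Q e ℝ → HH Q e AQ → ℂ) :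
    AutH K σ φ ↔ φ ∈ AH Q e K u := by
  show _ ↔ ((∀ (γ : Hp Q e ℚ) (x : Hp Q e ℝ) (g : Hp Q e Af), ∀ k ∈ KH Q e K,
    φ (jH Q e ℝ γ * x) (jH Q e Af γ * g * k) = φ x g) ∧
    ∀ g : Hp Q e Af, (fun x => φ x g) ∈ coef u)
  rw [hu]
  rfl

theorem od_eq (K : Subgroup (SO Q AQ)) (e : Fin N → ℚ) (g : HH Q e AQ) :
    od (qH Q e AQ) (lH K e) g = st (⊤ : Subgroup (Hp Q e ℚ)) (jH Q e Af) (KH Q e K) g := by
  unfold od st
  refine Nat.card_congr (Equiv.subtypeEquivRight fun γ => ?_)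
  constructor
  · intro h
    exact ⟨Subgroup.mem_top _, h⟩
  · intro h
    exact h.2

/-- The periods agree. -/
theorem pd_eq (K : Subgroup (SO Q AQ)) {e : Fin N → ℚ} (φ : SO Q ℝ → SO Q AQ → ℂ) (φ' : HH Q e ℝ → HH Q e AQ → ℂ) :
    Pd K φ φ' = Per Q e K φ φ' := by
  unfold Pd Pg Per
  refine finsum_congr fun c => ?_
  rw [od_eq]
  rfl

theorem mv_iff (y : SO Q AQ) (v : HeightOneSpectrum ℤ) : mv v y = 1 ↔ evG Q v y = 1 := by
  constructor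
  · intro h
    exact Subtype.ext h
  · intro h
    exact congrArg Subtype.val h

theorem nei_eq (p : Nat.Primes) : (Nei Q p : Set (SO Q AQ)) = (Nb Q p : Set (Gp Q Af)) := by
  ext y
  constructor
  · rintro ⟨h1, h2, h3⟩
    exact ⟨fun v hv => (mv_iff y v).1 (h1 v hv), h2, h3⟩
  · rintro ⟨h1, h2, h3⟩
    exact ⟨fun v hv => (mv_iff y v).2 (h1 v hv), h2, h3⟩

theorem tk_eq (K : Subgroup (SO Q AQ)) (p : Nat.Primes) (φ : SO Q ℝ → SO Q AQ → ℂ) : TK K p φ = Tp Q K p φ := by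
  funext x g
  unfold TK Tp Hk Cp
  rw [nei_eq]
  rfl

end Pool.Agent.GP
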