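import Pool.Agent.Lib.GP.SpecA

/-!
# Theorem GP, module CN3: the reduced data of a class (helper20)
-/

set_option autoImplicit false

open IsDedekindDomain Matrix MeasureTheory

noncomputable section

namespace Pool.Agent.GP

/-- entries in a subring are kept by products -/
private theorem CN3_mul {A : Type} [CommRing A] (Z : Subring A) {N : ℕ}
    {X Y : Matrix (Fin N) (Fin N) A} (hX : ∀ i j, X i j ∈ Z) (hY : ∀ i j, Y i j ∈ Z) :
    ∀ i j, (X * Y) i j ∈ Z := fun i j => by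
  rw [Matrix.mul_apply]
  exact Z.sum_mem fun k _ => Z.mul_mem (hX i k) (hY k j)

private theorem CN3_det {A : Type} [CommRing A] (Z : Subring A) {N : ℕ}
    {X : Matrix (Fin N) (Fin N) A} (hX : ∀ i j, X i j ∈ Z) : X.det ∈ Z := by
  have e : X = (Matrix.of fun i j => (⟨X i j, hX i j⟩ : Z)).map Z.subtype := by
    ext i j
    rfl
  rw [e, ← RingHom.mapMatrix_apply, ← RingHom.map_det]
  exact Subtype.prop _

/-- integral matrices have entries in the subring -/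
private theorem CN3_int {A : Type} [CommRing A] [Algebra ℚ A] (Z : Subring A) {N : ℕ}
    (X : Matrix (Fin N) (Fin N) ℤ) :
    ∀ i j, ((X.map (Int.cast : ℤ → ℚ)).map (algebraMap ℚ A)) i j ∈ Z := fun i j => by
  rw [Matrix.map_apply, Matrix.map_apply, map_intCast]
  exact intCast_mem Z _

/-- positivity is kept -/
private theorem CN3_pd {N : ℕ} {Q : Matrix (Fin N) (Fin N) ℚ} (hQ : PQ Q) {q : ℕ} (hq : 0 < q)
    {B B' : Matrix (Fin N) (Fin N) ℚ} (h : B' * B = 1) {S : Matrix (Fin N) (Fin N) ℤ}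
    (hS : (q : ℚ) • (Bᵀ * Q * B) = S.map (Int.cast : ℤ → ℚ)) : PD S := by
  constructor
  · have e : (Sᵀ).map (Int.cast : ℤ → ℚ) = S.map (Int.cast : ℤ → ℚ) := by
      rw [Matrix.transpose_map, ← hS, Matrix.transpose_smul, Matrix.transpose_mul,
        Matrix.transpose_mul, Matrix.transpose_transpose, hQ.1.eq, Matrix.mul_assoc]
    have := Matrix.map_injective (f := (Int.cast : ℤ → ℚ)) Int.cast_injective e
    exact this
  · intro x hx
    have e : S.map (Int.cast : ℤ → ℝ) = (q : ℝ) • ((B.map (algebraMap ℚ ℝ))ᵀ *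
        Q.map (algebraMap ℚ ℝ) * B.map (algebraMap ℚ ℝ)) := by
      have e1 : S.map (Int.cast : ℤ → ℝ) = (S.map (Int.cast : ℤ → ℚ)).map (algebraMap ℚ ℝ) := by
        ext i j
        simp
      rw [e1, ← hS]
      have e2 : ((q : ℚ) • (Bᵀ * Q * B)).map (algebraMap ℚ ℝ) =
          (q : ℝ) • (Bᵀ * Q * B).map (algebraMap ℚ ℝ) := by
        ext i j
        rw [Matrix.map_apply, Matrix.smul_apply, Matrix.smul_apply, Matrix.map_apply,
          smul_eq_mul, smul_eq_mul, map_mul, map_natCast]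
      rw [e2, Matrix.map_mul, Matrix.map_mul, Matrix.transpose_map]
    rw [e, Matrix.smul_mulVec, dotProduct_smul, smul_eq_mul, ← Matrix.mulVec_mulVec,
      ← Matrix.mulVec_mulVec, Matrix.mulVec_transpose, dotProduct_comm,
      ← Matrix.dotProduct_mulVec, dotProduct_comm]
    refine mul_pos (by exact_mod_cast hq) (hQ.2 _ fun h0 => hx ?_)
    have h1 : (B'.map (algebraMap ℚ ℝ)) *ᵥ ((B.map (algebraMap ℚ ℝ)) *ᵥ x) = x := by
      rw [Matrix.mulVec_mulVec, ← Matrix.map_mul, h, Matrix.map_one _ (map_zero _) (map_one _),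
        Matrix.one_mulVec]
    rw [← h1, h0, Matrix.mulVec_zero]

/-- a common denominator -/
private theorem CN3_den (x : ℚ) {d : ℕ} (h : x.den ∣ d) : ∃ z : ℤ, (d : ℚ) * x = z := by
  obtain ⟨k, rfl⟩ := h
  refine ⟨k * x.num, ?_⟩
  have := Rat.den_mul_eq_num x
  push_cast
  rw [mul_comm (x.den : ℚ) (k : ℚ), mul_assoc, this]

private theorem CN3_unit {N : ℕ} {U U' : Matrix (Fin N) (Fin N) ℤ} (h : U * U' = 1) :
    U.det = 1 ∨ U.det = -1 := by
  have e := congrArg Matrix.det h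
  rw [Matrix.det_mul, Matrix.det_one] at e
  exact Int.eq_one_or_neg_one_of_mul_eq_one e

/-- the generic form -/
private theorem CN3_gen {A : Type} [CommRing A] [Algebra ℚ A] (Z : Subring A)
    (h2 : ∀ q : ℚ, algebraMap ℚ A q ∈ Z → ∃ z : ℤ, q = z) {N : ℕ}
    {Q : Matrix (Fin N) (Fin N) ℚ} {e : Fin N → ℚ} (hQ : PQ Q) {q : ℕ} (hq : 0 < q)
    {Qz : Matrix (Fin N) (Fin N) ℤ} (hQz : (q : ℚ) • Q = Qz.map (Int.cast : ℤ → ℚ))
    {ez : Fin N → ℤ} (hez : ∀ i, (q : ℚ) * e i = ez i) {g g' : Matrix (Fin N) (Fin N) A}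
    (hg : g * g' = 1) (hdet : g.det = 1)
    (hgQ : gᵀ * Q.map (algebraMap ℚ A) * g = Q.map (algebraMap ℚ A))
    (hge : g *ᵥ ve e A = ve e A) {B0 B0' : Matrix (Fin N) (Fin N) ℚ} (hB : B0 * B0' = 1)
    (hB' : B0' * B0 = 1) (hu : ∀ i j, (g' * B0.map (algebraMap ℚ A)) i j ∈ Z)
    (hu' : ∀ i j, (B0'.map (algebraMap ℚ A) * g) i j ∈ Z) (Δ R : ℕ) (κ : ℤ)
    (hΔ : (q : ℚ) ^ N * Q.det ≤ Δ) (hκ : (q : ℚ) ^ 3 * (e ⬝ᵥ (Q *ᵥ e)) ≤ κ)
    (hR : ∀ S : Matrix (Fin N) (Fin N) ℤ, PD S → S.det ≤ Δ →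
      ∃ U U' : Matrix (Fin N) (Fin N) ℤ, U * U' = 1 ∧ U' * U = 1 ∧
        ∀ i j, |(Uᵀ * S * U) i j| ≤ R) :
    ∃ (B B' : Matrix (Fin N) (Fin N) ℚ)
      (S : Matrix (Fin N) (Fin N) ℤ) (c : Fin N → ℤ), B * B' = 1 ∧ B' * B = 1 ∧
      (∀ i j, (g' * B.map (algebraMap ℚ A)) i j ∈ Z) ∧
      (∀ i j, (B'.map (algebraMap ℚ A) * g) i j ∈ Z) ∧ (B.det = 1 ∨ B.det = -1) ∧ PD S ∧
      (∀ i j, |S i j| ≤ R) ∧ ((q : ℚ) • (Bᵀ * Q * B) = S.map (Int.cast : ℤ → ℚ)) ∧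
      ((q : ℚ) • (B' *ᵥ e) = fun i => (c i : ℚ)) ∧ c ⬝ᵥ (S *ᵥ c) ≤ κ := by
  -- the determinant of `B0`
  have hB0 : B0.map (algebraMap ℚ A) = g * (g' * B0.map (algebraMap ℚ A)) := by
    rw [← Matrix.mul_assoc, hg, Matrix.one_mul]
  have d1 : ∃ z : ℤ, B0.det = z := by
    apply h2
    rw [RingHom.map_det, RingHom.mapMatrix_apply, hB0, Matrix.det_mul, hdet, one_mul]
    exact CN3_det Z hu
  have d2 : ∃ z : ℤ, B0'.det = z := by
    apply h2
    have := CN3_det Z hu'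
    rw [Matrix.det_mul, hdet, mul_one] at this
    rw [RingHom.map_det, RingHom.mapMatrix_apply]
    exact this
  have d3 : B0.det = 1 ∨ B0.det = -1 := by
    obtain ⟨z1, h1⟩ := d1
    obtain ⟨z2, h2'⟩ := d2
    have h3 : z1 * z2 = 1 := by
      have := congrArg Matrix.det hB
      rw [Matrix.det_mul, Matrix.det_one, h1, h2'] at this
      exact_mod_cast this
    rcases Int.eq_one_or_neg_one_of_mul_eq_one h3 with h | h
    · left; rw [h1, h]; simp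
    · right; rw [h1, h]; simp
  -- the form `S0`
  have s0 : ∀ i j, ∃ z : ℤ, ((q : ℚ) • (B0ᵀ * Q * B0)) i j = z := by
    intro i j
    apply h2
    have e1 : ((q : ℚ) • (B0ᵀ * Q * B0)).map (algebraMap ℚ A) =
        (g' * B0.map (algebraMap ℚ A))ᵀ * ((Qz.map (Int.cast : ℤ → ℚ)).map (algebraMap ℚ A)) *
          (g' * B0.map (algebraMap ℚ A)) := by
      have e2 : (q : ℚ) • (B0ᵀ * Q * B0) = B0ᵀ * ((q : ℚ) • Q) * B0 := by
        rw [Matrix.mul_smul, Matrix.smul_mul]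
      have e3 : ((q : ℚ) • Q).map (algebraMap ℚ A) = (q : A) • Q.map (algebraMap ℚ A) := by
        ext i j
        simp
      rw [e2, Matrix.map_mul, Matrix.map_mul, Matrix.transpose_map, ← hQz, e3]
      conv_lhs => rw [hB0]
      rw [Matrix.transpose_mul, Matrix.mul_smul, Matrix.smul_mul, Matrix.mul_smul,
        Matrix.smul_mul]
      congr 1
      conv_rhs => rw [← hgQ]
      simp only [Matrix.mul_assoc]
    have e4 := congrFun (congrFun e1 i) j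
    rw [Matrix.map_apply] at e4
    rw [e4]
    refine CN3_mul Z (CN3_mul Z (fun i j => ?_) (CN3_int Z Qz)) hu i j
    rw [Matrix.transpose_apply]
    exact hu j i
  choose S0' hS0' using s0
  obtain ⟨S0, hS0⟩ : ∃ S0 : Matrix (Fin N) (Fin N) ℤ,
      (q : ℚ) • (B0ᵀ * Q * B0) = S0.map (Int.cast : ℤ → ℚ) :=
    ⟨Matrix.of S0', by ext i j; rw [hS0' i j]; rfl⟩
  have hP0 : PD S0 := CN3_pd hQ hq hB' hS0
  have hdS : S0.det ≤ Δ := by
    have e1 : ((S0.det : ℤ) : ℚ) = (q : ℚ) ^ N * Q.det := by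
      have e2 : ((S0.det : ℤ) : ℚ) = (S0.map (Int.cast : ℤ → ℚ)).det := by
        have := RingHom.map_det (Int.castRingHom ℚ) S0
        rw [RingHom.mapMatrix_apply] at this
        exact this
      rw [e2, ← hS0, Matrix.det_smul, Fintype.card_fin, Matrix.det_mul, Matrix.det_mul,
        Matrix.det_transpose]
      rcases d3 with h | h <;> rw [h] <;> ring
    have : ((S0.det : ℤ) : ℚ) ≤ ((Δ : ℤ) : ℚ) := by
      rw [e1]
      exact_mod_cast hΔ
    exact_mod_cast this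
  obtain ⟨U, U', hU, hU', hUR⟩ := hR S0 hP0 hdS
  have cU : ∀ X Y : Matrix (Fin N) (Fin N) ℤ, (X * Y).map (Int.cast : ℤ → ℚ) =
      X.map (Int.cast : ℤ → ℚ) * Y.map (Int.cast : ℤ → ℚ) := fun X Y =>
    Matrix.map_mul (f := Int.castRingHom ℚ)
  have c1 : (1 : Matrix (Fin N) (Fin N) ℤ).map (Int.cast : ℤ → ℚ) = 1 :=
    Matrix.map_one _ Int.cast_zero Int.cast_one
  have hUq : U.map (Int.cast : ℤ → ℚ) * U'.map (Int.cast : ℤ → ℚ) = 1 := by rw [← cU, hU, c1]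
  have hUq' : U'.map (Int.cast : ℤ → ℚ) * U.map (Int.cast : ℤ → ℚ) = 1 := by rw [← cU, hU', c1]
  have hBB : B0 * U.map (Int.cast : ℤ → ℚ) * (U'.map (Int.cast : ℤ → ℚ) * B0') = 1 := by
    rw [Matrix.mul_assoc, ← Matrix.mul_assoc (U.map (Int.cast : ℤ → ℚ)), hUq, Matrix.one_mul, hB]
  have hBB' : U'.map (Int.cast : ℤ → ℚ) * B0' * (B0 * U.map (Int.cast : ℤ → ℚ)) = 1 := by
    rw [Matrix.mul_assoc, ← Matrix.mul_assoc B0', hB', Matrix.one_mul, hUq']
  have hSS : (q : ℚ) • ((B0 * U.map (Int.cast : ℤ → ℚ))ᵀ * Q * (B0 * U.map (Int.cast : ℤ → ℚ))) =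
      (Uᵀ * S0 * U).map (Int.cast : ℤ → ℚ) := by
    rw [cU, cU, ← hS0, Matrix.transpose_mul, Matrix.transpose_map]
    rw [Matrix.mul_smul, Matrix.smul_mul]
    simp only [Matrix.mul_assoc]
  have hw' : ∀ i j, ((U'.map (Int.cast : ℤ → ℚ) * B0').map (algebraMap ℚ A) * g) i j ∈ Z := by
    rw [Matrix.map_mul, Matrix.mul_assoc]
    exact CN3_mul Z (CN3_int Z U') hu'
  have hc : ∀ i, ∃ z : ℤ, (q : ℚ) * ((U'.map (Int.cast : ℤ → ℚ) * B0') *ᵥ e) i = z := by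
    intro i
    apply h2
    have e1 : algebraMap ℚ A ((q : ℚ) * ((U'.map (Int.cast : ℤ → ℚ) * B0') *ᵥ e) i) =
        ∑ j, ((U'.map (Int.cast : ℤ → ℚ) * B0').map (algebraMap ℚ A) * g) i j *
          algebraMap ℚ A (ez j : ℚ) := by
      have e2 : ∀ X : Matrix (Fin N) (Fin N) ℚ, algebraMap ℚ A ((X *ᵥ e) i) =
          ((X.map (algebraMap ℚ A)) *ᵥ ve e A) i := by
        intro X
        simp only [Matrix.mulVec, dotProduct, map_sum, map_mul, Matrix.map_apply, ve]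
      rw [map_mul, e2]
      conv_lhs => rw [← hge, Matrix.mulVec_mulVec]
      simp only [Matrix.mulVec, dotProduct, Finset.mul_sum]
      refine Finset.sum_congr rfl fun j _ => ?_
      rw [← hez j, map_mul]
      simp only [ve]
      ring
    rw [e1]
    refine Z.sum_mem fun j _ => Z.mul_mem (hw' i j) ?_
    rw [map_intCast]
    exact intCast_mem Z _
  choose c hc using hc
  have hcv : (q : ℚ) • ((U'.map (Int.cast : ℤ → ℚ) * B0') *ᵥ e) = fun i => (c i : ℚ) := by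
    funext i
    rw [Pi.smul_apply, smul_eq_mul, hc i]
  refine ⟨B0 * U.map (Int.cast : ℤ → ℚ), U'.map (Int.cast : ℤ → ℚ) * B0', Uᵀ * S0 * U, c, hBB,
    hBB', ?_, hw', ?_, CN3_pd hQ hq hBB' hSS, hUR, hSS, hcv, ?_⟩
  · rw [Matrix.map_mul, ← Matrix.mul_assoc]
    exact CN3_mul Z hu (CN3_int Z U)
  · rw [Matrix.det_mul]
    have e1 : (U.map (Int.cast : ℤ → ℚ)).det = 1 ∨ (U.map (Int.cast : ℤ → ℚ)).det = -1 := by
      have e2 : ((U.det : ℤ) : ℚ) = (U.map (Int.cast : ℤ → ℚ)).det := by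
        have := RingHom.map_det (Int.castRingHom ℚ) U
        rw [RingHom.mapMatrix_apply] at this
        exact this
      rw [← e2]
      rcases CN3_unit hU with h | h
      · left; rw [h]; simp
      · right; rw [h]; simp
    rcases d3 with h | h <;> rcases e1 with h' | h' <;> rw [h, h'] <;> simp
  · have e1 : ((c ⬝ᵥ ((Uᵀ * S0 * U) *ᵥ c) : ℤ) : ℚ) =
        (fun i => (c i : ℚ)) ⬝ᵥ ((Uᵀ * S0 * U).map (Int.cast : ℤ → ℚ) *ᵥ fun i => (c i : ℚ)) := by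
      simp only [dotProduct, Matrix.mulVec, Matrix.map_apply, Int.cast_sum, Int.cast_mul]
    have e2 : ((c ⬝ᵥ ((Uᵀ * S0 * U) *ᵥ c) : ℤ) : ℚ) = (q : ℚ) ^ 3 * (e ⬝ᵥ (Q *ᵥ e)) := by
      rw [e1, ← hSS, ← hcv, Matrix.smul_mulVec, Matrix.mulVec_smul, dotProduct_smul,
        dotProduct_smul, smul_dotProduct, smul_eq_mul, smul_eq_mul, smul_eq_mul]
      have e3 : ∀ B B' : Matrix (Fin N) (Fin N) ℚ, B * B' = 1 →
          (B' *ᵥ e) ⬝ᵥ ((Bᵀ * Q * B) *ᵥ (B' *ᵥ e)) = e ⬝ᵥ (Q *ᵥ e) := by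
        intro B B' h
        rw [← Matrix.mulVec_mulVec, Matrix.mulVec_mulVec e B B', h, Matrix.one_mulVec,
          ← Matrix.mulVec_mulVec, Matrix.mulVec_transpose, dotProduct_comm,
          ← Matrix.dotProduct_mulVec, Matrix.mulVec_mulVec, h, Matrix.one_mulVec,
          dotProduct_comm]
      rw [e3 _ _ hBB]
      ring
    have e4 : ((c ⬝ᵥ ((Uᵀ * S0 * U) *ᵥ c) : ℤ) : ℚ) ≤ (κ : ℚ) := by
      rw [e2]
      exact hκ
    exact_mod_cast e4

theorem tCN3 : S_CN3 := by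
  intro hA2 hC1 hC2 N Q e hQ
  let q : ℕ := (∏ i, ∏ j, (Q i j).den) * ∏ i, (e i).den
  have hq : 0 < q := Nat.mul_pos
    (Finset.prod_pos fun i _ => Finset.prod_pos fun j _ => (Q i j).den_pos)
    (Finset.prod_pos fun i _ => (e i).den_pos)
  have hq1 : ∀ i j, ∃ z : ℤ, (q : ℚ) * Q i j = z := fun i j =>
    CN3_den _ (dvd_mul_of_dvd_left ((Finset.dvd_prod_of_mem _ (Finset.mem_univ j)).trans
      (Finset.dvd_prod_of_mem (fun i => ∏ j, (Q i j).den) (Finset.mem_univ i))) _)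
  have hq2 : ∀ i, ∃ z : ℤ, (q : ℚ) * e i = z := fun i =>
    CN3_den _ (dvd_mul_of_dvd_right (Finset.dvd_prod_of_mem (fun i => (e i).den)
      (Finset.mem_univ i)) _)
  choose Qz hQz using hq1
  choose ez hez using hq2
  obtain ⟨R, hR⟩ := hC1 N ⌈(q : ℚ) ^ N * Q.det⌉₊
  refine ⟨q, R, ⌈(q : ℚ) ^ 3 * (e ⬝ᵥ (Q *ᵥ e))⌉, hq, fun g hge => ?_⟩
  have hg : g.1.1 * (g⁻¹).1.1 = 1 := congrArg (fun z : Gp Q Af => z.1.1) (mul_inv_cancel g)
  have hg' : (g⁻¹).1.1 * g.1.1 = 1 := congrArg (fun z : Gp Q Af => z.1.1) (inv_mul_cancel g)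
  obtain ⟨B0, B0', hB, hB', hu, hu'⟩ := hC2 N g.1.1 (g⁻¹).1.1 hg hg'
  exact CN3_gen Zh hA2 hQ hq (Qz := Matrix.of Qz) (by
      ext i j
      rw [Matrix.smul_apply, smul_eq_mul, hQz i j]
      rfl) hez hg g.1.2 g.2 hge hB hB' hu hu' _ R _ (Nat.le_ceil _) (Int.le_ceil _) hR

end Pool.Agent.GP
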