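import Pool.Agent.Lib.GP.Spec2

/-!
# Theorem GP, second part: the component at `p` of an adelic element
-/

set_option autoImplicit false

open IsDedekindDomain Matrix MeasureTheory

noncomputable section

namespace Pool.Agent.GP

open Classical in
/-- The idempotent adele with component one at `p`. -/
private def eps (p : Nat.Primes) : Af :=
  ⟨fun v => if v = vp p then 1 else 0, Filter.Eventually.of_forall (fun v => by
    by_cases h : v = vp p
    · simp only [h, if_true]
      exact one_mem _
    · simp only [h, if_false]
      exact zero_mem _)⟩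

open Classical in
private theorem ev_eps_same (p : Nat.Primes) : ev (vp p) (eps p) = 1 := by
  change (if vp p = vp p then (1 : (vp p).adicCompletion ℚ) else 0) = 1
  rw [if_pos rfl]

open Classical in
private theorem ev_eps_ne (p : Nat.Primes) (v : HeightOneSpectrum ℤ) (h : v ≠ vp p) : ev v (eps p) = 0 := by
  change (if v = vp p then (1 : v.adicCompletion ℚ) else 0) = 0
  rw [if_neg h]

private theorem ext_ev {x y : Af} (h : ∀ v, ev v x = ev v y) : x = y := by
  apply RestrictedProduct.ext
  exact h

private theorem ext_mat {N : ℕ} {x y : Matrix (Fin N) (Fin N) Af}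
    (h : ∀ v, x.map (ev v) = y.map (ev v)) : x = y := by
  funext i j
  exact ext_ev (fun v => congrFun (congrFun (h v) i) j)

theorem tCmp : S_Cmp := by
  intro N Q p g
  set A : Matrix (Fin N) (Fin N) Af := g.1.1 with hA
  set Y : Matrix (Fin N) (Fin N) Af := 1 + eps p • (A - 1) with hY
  have hYp : Y.map (ev (vp p)) = A.map (ev (vp p)) := by
    ext i j
    simp only [hY, Matrix.map_apply, Matrix.add_apply, Matrix.smul_apply, Matrix.sub_apply, smul_eq_mul,
      map_add, map_mul, map_sub, ev_eps_same, one_mul]
    rw [add_sub_cancel]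
  have hYn : ∀ v, v ≠ vp p → Y.map (ev v) = 1 := by
    intro v hv
    ext i j
    simp only [hY, Matrix.map_apply, Matrix.add_apply, Matrix.smul_apply, Matrix.sub_apply, smul_eq_mul,
      map_add, map_mul, map_sub, ev_eps_ne p v hv, zero_mul, add_zero]
    by_cases hij : i = j
    · subst hij; simp
    · simp [Matrix.one_apply_ne hij]
  have hdet : Y.det = 1 := by
    apply ext_ev
    intro v
    rw [RingHom.map_det, map_one]
    by_cases hv : v = vp p
    · subst hv
      have : (ev (vp p)).mapMatrix Y = A.map (ev (vp p)) := hYp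
      rw [this]
      have h2 := (RingHom.map_det (ev (vp p)) A).symm
      have h3 : (ev (vp p)).mapMatrix A = A.map (ev (vp p)) := rfl
      rw [h3] at h2
      rw [h2, hA, g.1.2, map_one]
    · have : (ev v).mapMatrix Y = 1 := hYn v hv
      rw [this, Matrix.det_one]
  have hg : Aᵀ * Q.map (algebraMap ℚ Af) * A = Q.map (algebraMap ℚ Af) := g.2
  have hq : Yᵀ * Q.map (algebraMap ℚ Af) * Y = Q.map (algebraMap ℚ Af) := by
    apply ext_mat
    intro v
    rw [Matrix.map_mul, Matrix.map_mul, Matrix.transpose_map]
    by_cases hv : v = vp p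
    · subst hv
      rw [hYp]
      have h2 := congrArg (fun M : Matrix (Fin N) (Fin N) Af => M.map (ev (vp p))) hg
      rw [Matrix.map_mul, Matrix.map_mul, Matrix.transpose_map] at h2
      exact h2
    · rw [hYn v hv]
      simp
  refine ⟨⟨⟨Y, hdet⟩, hq⟩, ?_, ?_⟩
  · intro v hv
    apply Subtype.ext
    change Y.map (ev v) = 1
    exact hYn v hv
  · apply Subtype.ext
    change Y.map (ev (vp p)) = A.map (ev (vp p))
    exact hYp

end Pool.Agent.GP
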