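import Pool.Agent.Lib.GP.Spec2

/-!
# Theorem GP: counting in the transporters (author helper21)
-/

set_option autoImplicit false

open IsDedekindDomain Matrix MeasureTheory

noncomputable section

namespace Pool.Agent.GP

variable {N : ℕ}

private theorem Cnt_mul {A B : Matrix (Fin N) (Fin N) Af} {a b : Af} (ha : ∀ i j, a * A i j ∈ Zh)
    (hb : ∀ i j, b * B i j ∈ Zh) : ∀ i j, a * b * (A * B) i j ∈ Zh := by
  intro i j
  rw [Matrix.mul_apply, Finset.mul_sum]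
  refine Subring.sum_mem _ (fun k _ => ?_)
  have h := Zh.mul_mem (ha i k) (hb k j)
  have e : a * b * (A i k * B k j) = (a * A i k) * (b * B k j) := by ring
  rw [e]
  exact h

/-- Integrality of the entries of the elements of the transporter. -/
private theorem Cnt_int (h2 : C_AD2) {Q : Matrix (Fin N) (Fin N) ℚ} {K : Subgroup (Gp Q Af)} {m0 m1 m2 : ℕ}
    (hm0 : ∀ g ∈ (K : Set (Gp Q Af)), ∀ i j, (m0 : Af) * g.1.1 i j ∈ Zh) {p p' : Nat.Primes}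
    {y y' c c' : Gp Q Af} (hy : y⁻¹ ∈ Nb Q p) (hy' : y' ∈ Nb Q p')
    (hc : ∀ i j, (m2 : Af) * (c⁻¹).1.1 i j ∈ Zh) (hc' : ∀ i j, (m1 : Af) * c'.1.1 i j ∈ Zh)
    {γ : Gp Q ℚ} (hγ : γ ∈ tr (jG Q Af) K (c * y) (c' * y')) (i j : Fin N) :
    ∃ z : ℤ, ((m0 * m1 * m2 * ((p : ℕ) * (p' : ℕ)) : ℕ) : ℚ) * γ.1.1 i j = z := by
  have hk : (c' * y')⁻¹ * (jG Q Af γ * (c * y)) ∈ K := hγ
  obtain ⟨k, hk1, hk2⟩ : ∃ k ∈ K, jG Q Af γ = c' * y' * k * y⁻¹ * c⁻¹ := ⟨_, hk, by group⟩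
  have e1 : (jG Q Af γ).1.1 = c'.1.1 * y'.1.1 * k.1.1 * (y⁻¹).1.1 * (c⁻¹).1.1 := by
    rw [hk2]
    rfl
  have h3 := Cnt_mul (Cnt_mul (Cnt_mul (Cnt_mul hc' hy'.2.1) (hm0 k hk1)) hy.2.1) hc i j
  rw [← e1] at h3
  refine h2 _ ?_
  have e2 : (jG Q Af γ).1.1 i j = algebraMap ℚ Af (γ.1.1 i j) := rfl
  rw [e2] at h3
  rw [map_mul, map_natCast]
  push_cast
  have e3 : ((m0 : Af) * m1 * m2 * (((p : ℕ) : Af) * ((p' : ℕ) : Af))) * algebraMap ℚ Af (γ.1.1 i j) =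
      (m1 : Af) * ((p' : ℕ) : Af) * (m0 : Af) * ((p : ℕ) : Af) * (m2 : Af) * algebraMap ℚ Af (γ.1.1 i j) := by
    ring
  rw [e3]
  exact h3

/-- Counting integral matrices. -/
private theorem Cnt_card {Q : Matrix (Fin N) (Fin N) ℚ} (S : Set (Gp Q ℚ)) (M R : ℕ) (hM : 0 < M) (hR : 0 < R)
    (h1 : ∀ γ ∈ S, ∀ i j, ∃ z : ℤ, (M : ℚ) * γ.1.1 i j = z)
    (h2 : ∀ γ ∈ S, ∀ i j, |γ.1.1 i j| ≤ (R : ℚ)) : S.ncard ≤ (3 * M * R) ^ (N * N) := by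
  classical
  let B : Finset (Fin N × Fin N → ℤ) := Fintype.piFinset (fun _ => Finset.Icc (-((M * R : ℕ) : ℤ)) ((M * R : ℕ) : ℤ))
  let F : Gp Q ℚ → (Fin N × Fin N → ℤ) := fun γ ij => ((M : ℚ) * γ.1.1 ij.1 ij.2).num
  have hF : ∀ γ ∈ S, ∀ i j, (F γ (i, j) : ℚ) = (M : ℚ) * γ.1.1 i j := by
    intro γ hγ i j
    obtain ⟨z, hz⟩ := h1 γ hγ i j
    change ((((M : ℚ) * γ.1.1 i j).num : ℤ) : ℚ) = (M : ℚ) * γ.1.1 i j
    rw [hz, Rat.num_intCast]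
  have hmem : ∀ γ ∈ S, F γ ∈ (B : Set (Fin N × Fin N → ℤ)) := by
    intro γ hγ
    rw [Finset.mem_coe, Fintype.mem_piFinset]
    rintro ⟨i, j⟩
    rw [Finset.mem_Icc, ← abs_le]
    have h3 : |(F γ (i, j) : ℚ)| ≤ ((M * R : ℕ) : ℚ) := by
      rw [hF γ hγ i j, abs_mul, Nat.abs_cast]
      push_cast
      exact mul_le_mul_of_nonneg_left (h2 γ hγ i j) (Nat.cast_nonneg _)
    exact_mod_cast h3
  have hinj : Set.InjOn F S := by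
    intro γ hγ γ' hγ' h
    apply Subtype.ext
    apply Subtype.ext
    ext i j
    have h3 := congrFun h (i, j)
    have h4 := hF γ hγ i j
    have h5 := hF γ' hγ' i j
    rw [h3, h5] at h4
    have hM' : (M : ℚ) ≠ 0 := by exact_mod_cast hM.ne'
    exact (mul_left_cancel₀ hM' h4).symm
  have h3 := Set.ncard_le_ncard_of_injOn F hmem hinj B.finite_toSet
  rw [Set.ncard_coe_finset] at h3
  refine h3.trans ?_
  rw [Fintype.card_piFinset, Finset.prod_const, Finset.card_univ, Fintype.card_prod, Fintype.card_fin, Int.card_Icc]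
  refine Nat.pow_le_pow_left ?_ _
  have h4 : ((M * R : ℕ) : ℤ) + 1 - -((M * R : ℕ) : ℤ) = ((2 * (M * R) + 1 : ℕ) : ℤ) := by push_cast; ring
  rw [h4, Int.toNat_natCast]
  have h5 : 0 < M * R := Nat.mul_pos hM hR
  nlinarith

/-- A common denominator. -/
private theorem Cnt_den {ι : Type} [Fintype ι] (b : ι → ℚ) : ∃ q : ℕ, 0 < q ∧ ∀ i, ∃ z : ℤ, (q : ℚ) * b i = z := by
  classical
  refine ⟨∏ i, (b i).den, Finset.prod_pos (fun i _ => (b i).pos), fun i => ?_⟩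
  obtain ⟨d, hd⟩ := Finset.dvd_prod_of_mem (fun i => (b i).den) (Finset.mem_univ i)
  refine ⟨d * (b i).num, ?_⟩
  rw [hd]
  push_cast
  have h := Rat.mul_den_eq_num (b i)
  linear_combination (d : ℚ) * h

private theorem Cnt_bq_sub {Q : Matrix (Fin N) (Fin N) ℚ} (hQ : Q.IsSymm) (x y : Fin N → ℝ) :
    bq Q (x - y) (x - y) = bq Q x x - 2 * bq Q x y + bq Q y y ∧
      bq Q (x + y) (x + y) = bq Q x x + 2 * bq Q x y + bq Q y y := by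
  have hs : bq Q y x = bq Q x y := by
    unfold bq
    rw [Matrix.dotProduct_mulVec, dotProduct_comm, ← Matrix.mulVec_transpose]
    congr 2
    rw [← Matrix.transpose_map, hQ.eq]
  constructor
  · unfold bq at hs ⊢
    rw [Matrix.mulVec_sub, dotProduct_sub, sub_dotProduct, sub_dotProduct, hs]
    ring
  · unfold bq at hs ⊢
    rw [Matrix.mulVec_add, dotProduct_add, add_dotProduct, add_dotProduct, hs]
    ring

private theorem Cnt_bq_g {Q : Matrix (Fin N) (Fin N) ℚ} (g : Gp Q ℝ) (x : Fin N → ℝ) :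
    bq Q (g.1.1 *ᵥ x) (g.1.1 *ᵥ x) = bq Q x x := by
  have h : g.1.1ᵀ * Q.map (algebraMap ℚ ℝ) * g.1.1 = Q.map (algebraMap ℚ ℝ) := g.2
  unfold bq
  rw [dotProduct_comm, Matrix.dotProduct_mulVec, ← Matrix.mulVec_transpose, dotProduct_comm]
  rw [Matrix.mulVec_mulVec, Matrix.mulVec_mulVec, h]

/-- The number `t`. -/
private theorem Cnt_t {Q : Matrix (Fin N) (Fin N) ℚ} (hQ : PQ Q) {e : Fin N → ℚ} (he : e ≠ 0) :
    ∃ q1 : ℕ, 0 < q1 ∧ ∀ (M : ℕ), 0 < M → ∀ γ : Gp Q ℚ, (∀ i j, ∃ z : ℤ, (M : ℚ) * γ.1.1 i j = z) →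
      γ.1.1 *ᵥ ve e ℚ ≠ ve e ℚ → γ.1.1 *ᵥ ve e ℚ ≠ -ve e ℚ →
      ∀ t : ℝ, t = bq Q ((jG Q ℝ γ).1.1 *ᵥ ve e ℝ) (ve e ℝ) / bq Q (ve e ℝ) (ve e ℝ) →
        t ^ 2 < 1 ∧ (1 - t ^ 2)⁻¹ ≤ (M : ℝ) * (q1 : ℝ) := by
  obtain ⟨q1, hq1, hb⟩ := Cnt_den (fun p : Fin N × Fin N => e p.2 * (Q *ᵥ e) p.1 / (e ⬝ᵥ (Q *ᵥ e)))
  refine ⟨q1, hq1, fun M hM γ hγ hn1 hn2 t ht => ?_⟩
  have heR : ve e ℝ ≠ 0 := by
    intro h
    apply he
    funext i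
    have h1 := congrFun h i
    change ((e i : ℚ) : ℝ) = 0 at h1
    exact_mod_cast h1
  set x : Fin N → ℝ := (jG Q ℝ γ).1.1 *ᵥ ve e ℝ with hx
  have hxi : ∀ i, x i = (((γ.1.1 *ᵥ e) i : ℚ) : ℝ) := by
    intro i
    have h1 := congrFun (jG_ve Q e ℝ γ) i
    exact h1
  have hs : 0 < bq Q (ve e ℝ) (ve e ℝ) := hQ.2 _ heR
  have hxx : bq Q x x = bq Q (ve e ℝ) (ve e ℝ) := Cnt_bq_g _ _
  obtain ⟨hb1, hb2⟩ := Cnt_bq_sub hQ.1 x (ve e ℝ)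
  have hp1 : 0 < bq Q (x - ve e ℝ) (x - ve e ℝ) := by
    refine hQ.2 _ (fun h => hn1 ?_)
    funext i
    have h1 := congrFun h i
    change x i - ((e i : ℚ) : ℝ) = 0 at h1
    rw [hxi, sub_eq_zero] at h1
    exact_mod_cast h1
  have hp2 : 0 < bq Q (x + ve e ℝ) (x + ve e ℝ) := by
    refine hQ.2 _ (fun h => hn2 ?_)
    funext i
    have h1 := congrFun h i
    change x i + ((e i : ℚ) : ℝ) = 0 at h1
    rw [hxi] at h1
    have h2 : (γ.1.1 *ᵥ e) i + e i = 0 := by exact_mod_cast h1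
    change (γ.1.1 *ᵥ e) i = -e i
    linarith
  have hts : t * bq Q (ve e ℝ) (ve e ℝ) = bq Q x (ve e ℝ) := by
    rw [ht]
    exact div_mul_cancel₀ _ hs.ne'
  have ht1 : t < 1 := by
    rw [hb1, hxx, ← hts] at hp1
    by_contra hc
    have hc := not_lt.1 hc
    nlinarith
  have ht2 : -1 < t := by
    rw [hb2, hxx, ← hts] at hp2
    by_contra hc
    have hc := not_lt.1 hc
    nlinarith
  have hta : |t| < 1 := abs_lt.2 ⟨ht2, ht1⟩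
  -- rationality
  have hQe : ∀ i, ((Q.map (algebraMap ℚ ℝ)) *ᵥ ve e ℝ) i = (((Q *ᵥ e) i : ℚ) : ℝ) := by
    intro i
    simp [Matrix.mulVec, dotProduct, ve]
  have hse : bq Q (ve e ℝ) (ve e ℝ) = ((e ⬝ᵥ (Q *ᵥ e) : ℚ) : ℝ) := by
    unfold bq
    simp only [dotProduct, hQe]
    push_cast
    rfl
  have hxe : bq Q x (ve e ℝ) = (((γ.1.1 *ᵥ e) ⬝ᵥ (Q *ᵥ e) : ℚ) : ℝ) := by
    unfold bq
    simp only [dotProduct, hQe, hxi]
    push_cast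
    rfl
  have hint : ∃ Z : ℤ, (M : ℝ) * (q1 : ℝ) * t = (Z : ℝ) := by
    have hsum : ((γ.1.1 *ᵥ e) ⬝ᵥ (Q *ᵥ e)) / (e ⬝ᵥ (Q *ᵥ e)) =
        ∑ i, ∑ l, γ.1.1 i l * (e l * (Q *ᵥ e) i / (e ⬝ᵥ (Q *ᵥ e))) := by
      rw [dotProduct, Finset.sum_div]
      refine Finset.sum_congr rfl (fun i _ => ?_)
      change (∑ l, γ.1.1 i l * e l) * (Q *ᵥ e) i / (e ⬝ᵥ (Q *ᵥ e)) = _
      rw [Finset.sum_mul, Finset.sum_div]
      exact Finset.sum_congr rfl (fun l _ => by ring)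
    choose z hz using hγ
    choose w hw using hb
    refine ⟨∑ i, ∑ l, z i l * w (i, l), ?_⟩
    have h1 : (M : ℚ) * (q1 : ℚ) * (((γ.1.1 *ᵥ e) ⬝ᵥ (Q *ᵥ e)) / (e ⬝ᵥ (Q *ᵥ e))) =
        ((∑ i, ∑ l, z i l * w (i, l) : ℤ) : ℚ) := by
      rw [hsum, Finset.mul_sum]
      push_cast
      refine Finset.sum_congr rfl (fun i _ => ?_)
      rw [Finset.mul_sum]
      refine Finset.sum_congr rfl (fun l _ => ?_)
      have h2 := hz i l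
      have h3 := hw (i, l)
      simp only at h3
      rw [← h2, ← h3]
      ring
    have h2 : t = ((((γ.1.1 *ᵥ e) ⬝ᵥ (Q *ᵥ e)) / (e ⬝ᵥ (Q *ᵥ e)) : ℚ) : ℝ) := by
      rw [ht, hse, hxe]
      push_cast
      rfl
    rw [h2]
    exact_mod_cast h1
  obtain ⟨Z, hZ⟩ := hint
  set W : ℝ := (M : ℝ) * (q1 : ℝ) with hW
  have hW0 : 0 < W := by
    have h1 : (0 : ℝ) < M := by exact_mod_cast hM
    have h2 : (0 : ℝ) < q1 := by exact_mod_cast hq1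
    exact mul_pos h1 h2
  have hZW : |Z| ≤ ((M * q1 : ℕ) : ℤ) - 1 := by
    have h1 : (|Z| : ℝ) < W := by
      rw [← hZ, abs_mul, abs_of_pos hW0]
      nlinarith
    have h2 : |Z| < ((M * q1 : ℕ) : ℤ) := by
      have h3 : ((|Z| : ℤ) : ℝ) < (((M * q1 : ℕ) : ℤ) : ℝ) := by
        push_cast
        exact h1
      exact_mod_cast h3
    omega
  have hZW' : W * |t| ≤ W - 1 := by
    have h1 : (|Z| : ℝ) ≤ W - 1 := by
      have h3 : ((|Z| : ℤ) : ℝ) ≤ ((((M * q1 : ℕ) : ℤ) - 1 : ℤ) : ℝ) := by exact_mod_cast hZW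
      push_cast at h3
      exact h3
    rw [← hZ, abs_mul, abs_of_pos hW0] at h1
    exact h1
  have hsq : t ^ 2 = |t| * |t| := by rw [← sq, sq_abs]
  have h0t := abs_nonneg t
  refine ⟨by rw [hsq]; nlinarith, ?_⟩
  refine inv_le_of_inv_le₀ hW0 ?_
  rw [inv_le_iff_one_le_mul₀ hW0, hsq]
  nlinarith

theorem tCnt : S_Cnt := by
  intro h1 h2 h5 hg N Q e K T hQ he hK hT
  obtain ⟨m0, hm0, hm0'⟩ := h5 N Q K hK
  obtain ⟨m1, hm1, hm1'⟩ := h5 N Q T hT.isCompact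
  obtain ⟨m2, hm2, hm2'⟩ := h5 N Q ((fun g => g⁻¹) '' T) (hT.image _).isCompact
  obtain ⟨-, -, R, hR⟩ := hg N Q e hQ
  obtain ⟨q1, hq1, ht⟩ := Cnt_t hQ he
  obtain ⟨R', hR'⟩ := exists_nat_gt (max R 0)
  have hR0 : 0 < R' := by
    have : (0 : ℝ) < R' := (le_max_right _ _).trans_lt hR'
    exact_mod_cast this
  have hRR : R ≤ (R' : ℝ) := ((le_max_left _ _).trans_lt hR').le
  have hm : 0 < m0 * m1 * m2 := Nat.mul_pos (Nat.mul_pos hm0 hm1) hm2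
  refine ⟨3 * (m0 * m1 * m2) * R' * q1, by positivity, fun p p' _ y hy hyi y' hy' c hc c' hc' => ?_⟩
  have hpp : 0 < (p : ℕ) * (p' : ℕ) := Nat.mul_pos p.2.pos p'.2.pos
  have hint : ∀ γ ∈ tr (jG Q Af) K (c * y) (c' * y'), ∀ i j, ∃ z : ℤ,
      ((m0 * m1 * m2 * ((p : ℕ) * (p' : ℕ)) : ℕ) : ℚ) * γ.1.1 i j = z := by
    intro γ hγ
    exact Cnt_int h2 hm0' hyi hy' (hm2' _ ⟨c, hc, rfl⟩) (hm1' c' hc') hγ
  refine ⟨?_, fun γ hγ hn1 hn2 t htt => ?_⟩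
  · have h3 := Cnt_card (tr (jG Q Af) K (c * y) (c' * y')) (m0 * m1 * m2 * ((p : ℕ) * (p' : ℕ))) R'
      (Nat.mul_pos hm hpp) hR0 hint (fun γ _ i j => ?_)
    · refine h3.trans (Nat.pow_le_pow_left ?_ _)
      have h4 : 3 * (m0 * m1 * m2 * ((p : ℕ) * (p' : ℕ))) * R' =
          3 * (m0 * m1 * m2) * R' * 1 * ((p : ℕ) * (p' : ℕ)) := by ring
      rw [h4]
      exact Nat.mul_le_mul_right _ (Nat.mul_le_mul_left _ hq1)
    · have h4 := hR (jG Q ℝ γ) i j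
      have h5 : (jG Q ℝ γ).1.1 i j = ((γ.1.1 i j : ℚ) : ℝ) := rfl
      rw [h5] at h4
      have h6 : ((|γ.1.1 i j| : ℚ) : ℝ) ≤ ((R' : ℚ) : ℝ) := by
        push_cast
        exact h4.trans hRR
      exact_mod_cast h6
  · obtain ⟨h3, h4⟩ := ht (m0 * m1 * m2 * ((p : ℕ) * (p' : ℕ))) (Nat.mul_pos hm hpp) γ (hint γ hγ) hn1 hn2 t htt
    refine ⟨h3, h4.trans ?_⟩
    have h5 : m0 * m1 * m2 * ((p : ℕ) * (p' : ℕ)) * q1 ≤
        3 * (m0 * m1 * m2) * R' * q1 * ((p : ℕ) * (p' : ℕ)) := by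
      have h6 : m0 * m1 * m2 * ((p : ℕ) * (p' : ℕ)) * q1 = (m0 * m1 * m2) * q1 * ((p : ℕ) * (p' : ℕ)) := by ring
      rw [h6]
      refine Nat.mul_le_mul_right _ (Nat.mul_le_mul_right _ ?_)
      nlinarith
    exact_mod_cast h5

end Pool.Agent.GP
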