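import Pool.Agent.Lib.GP.Spec2

/-!
# Theorem GP, second part, module DpI: invariance of the depth (helper71)
-/

set_option autoImplicit false

open IsDedekindDomain Matrix MeasureTheory

noncomputable section

namespace Pool.Agent.GP

private theorem DpI_mulVec {N : ℕ} (M : Matrix (Fin N) (Fin N) Af) (x : Fin N → Af) (i : Fin N)
    (v : HeightOneSpectrum ℤ) : ((M *ᵥ x) i) v = ∑ j, (M i j) v * (x j) v := by
  have h : ev v ((M *ᵥ x) i) = ∑ j, ev v (M i j) * ev v (x j) := by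
    rw [Matrix.mulVec, dotProduct, map_sum]
    simp only [map_mul]
  exact h

private theorem DpI_inj {p p' : Nat.Primes} (h : vp p = vp p') : p = p' := by
  have h1 : Ideal.span {((p : ℕ) : ℤ)} = Ideal.span {((p' : ℕ) : ℤ)} :=
    congrArg HeightOneSpectrum.asIdeal h
  rw [Ideal.span_singleton_eq_span_singleton, Int.associated_iff_natAbs, Int.natAbs_natCast,
    Int.natAbs_natCast] at h1
  exact Subtype.ext h1

private theorem DpI_rat (p : Nat.Primes) (q : ℚ) (hq : ¬ (p : ℕ) ∣ q.den) :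
    (algebraMap ℚ Af q) (vp p) ∈ (vp p).adicCompletionIntegers ℚ := by
  have hval : ∀ k : ℚ, Valued.v (algebraMap ℚ ((vp p).adicCompletion ℚ) k) = (vp p).valuation ℚ k :=
    fun k => HeightOneSpectrum.valuedAdicCompletion_eq_valuation' (vp p) k
  have hZ : ∀ c : ℤ, (vp p).valuation ℚ ((c : ℤ) : ℚ) = (vp p).intValuation c := fun c =>
    (vp p).valuation_of_algebraMap (K := ℚ) c
  change Valued.v (algebraMap ℚ ((vp p).adicCompletion ℚ) q) ≤ 1
  rw [hval]
  have h1 : (q.den : ℚ) * q = (q.num : ℚ) := by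
    rw [mul_comm]
    exact Rat.mul_den_eq_num q
  have h2 : (vp p).valuation ℚ (q.den : ℚ) = 1 := by
    have h3 := hZ (q.den : ℤ)
    have h4 : (((q.den : ℤ)) : ℚ) = (q.den : ℚ) := by norm_cast
    rw [h4] at h3
    rw [h3]
    refine le_antisymm ((vp p).intValuation_le_one _) (not_lt.1 fun hlt => hq ?_)
    rw [HeightOneSpectrum.intValuation_lt_one_iff_mem] at hlt
    have h5 : ((q.den : ℕ) : ℤ) ∈ Ideal.span {((p : ℕ) : ℤ)} := hlt
    rw [Ideal.mem_span_singleton] at h5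
    exact_mod_cast h5
  have h3 := congrArg ((vp p).valuation ℚ) h1
  rw [map_mul, h2, one_mul, hZ] at h3
  rw [h3]
  exact (vp p).intValuation_le_one _

/-- Integral vectors are stable under `K`. -/
private theorem DpI_aux {N : ℕ} {Q : Matrix (Fin N) (Fin N) ℚ} {e : Fin N → ℚ} {K : Subgroup (Gp Q Af)}
    {p : Nat.Primes} (hG : Gd Q e K p) {h : Gp Q Af} (hh : h ∈ Hp Q e Af) (g : Gp Q Af) {k : Gp Q Af}
    (hk : k ∈ K) (hg : g ∉ Dp Q e p) : h * g * k ∉ Dp Q e p := by
  rintro ⟨i, hi⟩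
  apply hi
  have hg' : ∀ j, (((g⁻¹).1.1 *ᵥ ve e Af) j) (vp p) ∈ (vp p).adicCompletionIntegers ℚ := by
    intro j
    by_contra hc
    exact hg ⟨j, hc⟩
  have hh' : (h⁻¹).1.1 *ᵥ ve e Af = ve e Af := (Hp Q e Af).inv_mem hh
  have e1 : ((h * g * k)⁻¹).1.1 = (k⁻¹).1.1 * (g⁻¹).1.1 * (h⁻¹).1.1 := by
    have : (h * g * k)⁻¹ = k⁻¹ * g⁻¹ * h⁻¹ := by group
    rw [this]
    rfl
  rw [e1, ← Matrix.mulVec_mulVec, hh', ← Matrix.mulVec_mulVec, DpI_mulVec]
  exact sum_mem fun j _ => mul_mem (hG.k1 _ (K.inv_mem hk) i j) (hg' j)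

private theorem DpI_one {N : ℕ} {Q : Matrix (Fin N) (Fin N) ℚ} {v : HeightOneSpectrum ℤ} {y : Gp Q Af}
    (hy : evG Q v y = 1) (i j : Fin N) : (y.1.1 i j) v = (1 : Matrix (Fin N) (Fin N) (v.adicCompletion ℚ)) i j :=
  congrArg (fun z : SpecialLinearGroup (Fin N) (v.adicCompletion ℚ) => z.1 i j) hy

private theorem DpI_ext {N : ℕ} {Q : Matrix (Fin N) (Fin N) ℚ} {y z : Gp Q Af}
    (h : ∀ v, evG Q v y = evG Q v z) : y = z := by
  apply Subtype.ext
  apply Subtype.ext
  funext i j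
  refine DFunLike.ext _ _ fun v => ?_
  exact congrArg (fun z : SpecialLinearGroup (Fin N) (v.adicCompletion ℚ) => z.1 i j) (h v)

/-- **DpI.** -/
theorem tDpI : S_DpI := by
  intro N Q e K p hG
  refine ⟨fun h hh g k hk => ?_, fun p' hp y hy => ?_, fun p' hp y hy z hz => ?_⟩
  · constructor
    · intro h1
      by_contra h2
      exact DpI_aux hG hh g hk h2 h1
    · intro h1
      by_contra h2
      refine DpI_aux hG ((Hp Q e Af).inv_mem hh) (h * g * k) (K.inv_mem hk) h2 ?_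
      have : h⁻¹ * (h * g * k) * k⁻¹ = g := by group
      rw [this]
      exact h1
  · rintro ⟨i, hi⟩
    apply hi
    have hne : vp p ≠ vp p' := fun hc => hp (DpI_inj hc)
    have h1 : evG Q (vp p) y⁻¹ = 1 := (Loc Q p').inv_mem hy (vp p) hne
    rw [DpI_mulVec]
    refine sum_mem fun j _ => mul_mem ?_ (DpI_rat p _ (hG.e1 j))
    rw [DpI_one h1, Matrix.one_apply]
    split_ifs
    · exact one_mem _
    · exact zero_mem _
  · apply DpI_ext
    intro v
    rw [map_mul, map_mul]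
    by_cases hv : v = vp p
    · have hne : v ≠ vp p' := fun hc => hp (DpI_inj (hv.symm.trans hc))
      rw [hz v hne, mul_one, one_mul]
    · rw [hy v hv, mul_one, one_mul]

end Pool.Agent.GP
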