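import Pool.Agent.Lib.GP.Spec2

/-!
# Theorem GP, second part, module Eig: independent functionals give many systems of eigenvalues
-/

set_option autoImplicit false

open IsDedekindDomain Matrix MeasureTheory

noncomputable section

namespace Pool.Agent.GP

/-- The inner product space given by a positive definite Hermitian form. -/
@[reducible] private def Eig_core {E : Type} [AddCommGroup E] [Module ℂ E] (B : E →ₗ⋆[ℂ] E →ₗ[ℂ] ℂ)
    (hB : ∀ x y, (starRingEnd ℂ) (B x y) = B y x) (hpos : ∀ x, x ≠ 0 → 0 < (B x x).re) :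
    InnerProductSpace.Core ℂ E where
  inner x y := B x y
  conj_inner_symm x y := hB y x
  re_inner_nonneg x := by
    by_cases hx : x = 0
    · subst hx
      simp
    · exact (hpos x hx).le
  add_left x y z := by simp
  smul_left x y r := by simp
  definite x hx := by
    by_contra h
    have h1 := hpos x h
    have h2 : B x x = 0 := hx
    rw [h2] at h1
    exact absurd h1 (by simp)

private lemma Eig_span {E P : Type} [AddCommGroup E] [Module ℂ E] [FiniteDimensional ℂ E]
    (B : E →ₗ⋆[ℂ] E →ₗ[ℂ] ℂ) (T : P → Module.End ℂ E)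
    (hB : ∀ x y, (starRingEnd ℂ) (B x y) = B y x) (hpos : ∀ x, x ≠ 0 → 0 < (B x x).re)
    (hsym : ∀ p x y, B (T p x) y = B x (T p y)) (hcomm : ∀ p q, T p * T q = T q * T p) :
    ⨆ χ : P → ℂ, ⨅ p, Module.End.eigenspace (T p) (χ p) = ⊤ := by
  let core := Eig_core B hB hpos
  let _ : NormedAddCommGroup E := core.toNormedAddCommGroup
  let _ : InnerProductSpace ℂ E := InnerProductSpace.ofCore core.toCore
  exact LinearMap.IsSymmetric.iSup_iInf_eq_top_of_commute (T := T)
    (fun p x y => hsym p x y) (fun p q _ => hcomm p q)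

private lemma Eig_real {E : Type} [AddCommGroup E] [Module ℂ E] (B : E →ₗ⋆[ℂ] E →ₗ[ℂ] ℂ)
    (hpos : ∀ x, x ≠ 0 → 0 < (B x x).re) (S : Module.End ℂ E)
    (hsym : ∀ x y, B (S x) y = B x (S y)) {x : E} (hx : x ≠ 0) {μ : ℂ} (h : S x = μ • x) :
    ((μ.re : ℝ) : ℂ) = μ := by
  have h1 := hsym x x
  rw [h, LinearMap.map_smulₛₗ, LinearMap.smul_apply, map_smul, smul_eq_mul, smul_eq_mul] at h1
  have h2 : B x x ≠ 0 := by
    intro h0
    have := hpos x hx
    rw [h0] at this
    exact absurd this (by simp)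
  exact Complex.conj_eq_iff_re.1 (mul_right_cancel₀ h2 h1)

theorem tEig : S_Eig := by
  intro E P _ _ _ B T L PP hB hpos hsym hcomm hind
  classical
  -- the systems of eigenvalues
  let Λ : Set (P → ℝ) := {lam | ∃ x, (∀ p, T p x = (lam p : ℂ) • x) ∧ L x ≠ 0}
  suffices hemb : Nonempty (Fin PP.card ↪ Λ) by
    obtain ⟨f⟩ := hemb
    have hx : ∀ j, ∃ x, (∀ p, T p x = ((f j).1 p : ℂ) • x) ∧ L x ≠ 0 := fun j => (f j).2
    choose x hx1 hx2 using hx
    exact ⟨x, fun j => (f j).1, hx1, hx2, fun i j hij h =>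
      hij (f.injective (Subtype.ext h))⟩
  by_cases hfin : Λ.Finite
  swap
  · have : Infinite Λ := (Set.not_finite.1 hfin).to_subtype
    exact ⟨(Fin.valEmbedding).trans (Infinite.natEmbedding Λ)⟩
  let _ : Fintype Λ := hfin.fintype
  refine Function.Embedding.nonempty_of_card_le ?_
  rw [Fintype.card_fin]
  by_contra hlt
  push Not at hlt
  -- the linear equations
  let M : (PP → ℂ) →ₗ[ℂ] (Λ → ℂ) :=
    { toFun := fun α lam => ∑ p : PP, α p * ((lam.1 p.1 : ℝ) : ℂ)
      map_add' := fun α β => by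
        funext lam
        simp only [Pi.add_apply, add_mul, Finset.sum_add_distrib]
      map_smul' := fun c α => by
        funext lam
        simp only [Pi.smul_apply, smul_eq_mul, RingHom.id_apply, Finset.mul_sum, mul_assoc] }
  have hker : LinearMap.ker M ≠ ⊥ := by
    refine LinearMap.ker_ne_bot_of_finrank_lt ?_
    rw [Module.finrank_fintype_fun_eq_card, Module.finrank_fintype_fun_eq_card,
      Fintype.card_coe]
    exact hlt
  obtain ⟨β, hβ, hβ0⟩ := Submodule.exists_mem_ne_zero_of_ne_bot hker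
  let α : P → ℂ := fun p => if h : p ∈ PP then β ⟨p, h⟩ else 0
  have hα : ∀ lam ∈ Λ, ∑ p ∈ PP, α p * ((lam p : ℝ) : ℂ) = 0 := by
    intro lam hlam
    have h1 := congrFun (LinearMap.mem_ker.1 hβ) ⟨lam, hlam⟩
    have h2 : ∑ p ∈ PP, α p * ((lam p : ℝ) : ℂ) = ∑ p : PP, β p * ((lam p.1 : ℝ) : ℂ) := by
      rw [← Finset.sum_coe_sort PP]
      refine Finset.sum_congr rfl fun p _ => ?_
      have : α p.1 = β p := dif_pos p.2
      rw [this]
    rw [h2]
    exact h1
  have hspan := Eig_span B T hB hpos hsym hcomm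
  have hzero : ∀ x, L (∑ p ∈ PP, α p • T p x) = 0 := by
    intro x
    have hx : x ∈ ⨆ χ : P → ℂ, ⨅ p, Module.End.eigenspace (T p) (χ p) := by
      rw [hspan]
      exact Submodule.mem_top
    refine Submodule.iSup_induction (fun χ : P → ℂ => ⨅ p, Module.End.eigenspace (T p) (χ p))
      (motive := fun x => L (∑ p ∈ PP, α p • T p x) = 0) hx ?_ ?_ ?_
    · intro χ y hy
      have hy' : ∀ p, T p y = χ p • y := fun p =>
        Module.End.mem_eigenspace_iff.1 ((Submodule.mem_iInf _).1 hy p)
      have h1 : ∑ p ∈ PP, α p • T p y = (∑ p ∈ PP, α p * χ p) • y := by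
        rw [Finset.sum_smul]
        refine Finset.sum_congr rfl fun p _ => ?_
        rw [hy', smul_smul]
      rw [h1, LinearMap.map_smulₛₗ]
      by_cases hL : L y = 0
      · rw [hL, smul_zero]
      · have hy0 : y ≠ 0 := fun h => hL (by rw [h, map_zero])
        have hre : ∀ p, ((χ p).re : ℂ) = χ p := fun p =>
          Eig_real B hpos (T p) (hsym p) hy0 (hy' p)
        have h2 := hα (fun p => (χ p).re) ⟨y, fun p => by rw [hre p]; exact hy' p, hL⟩
        simp only [hre] at h2
        rw [h2, map_zero, zero_smul]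
    · simp
    · intro y z hy hz
      simp only [map_add, smul_add, Finset.sum_add_distrib]
      rw [hy, hz, add_zero]
  refine hβ0 ?_
  funext p
  have h1 := hind α hzero p.1 p.2
  have h2 : α p.1 = β p := dif_pos p.2
  rw [← h2, h1]
  rfl

end Pool.Agent.GP
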