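import Pool.Agent.Lib.GP.Spec2

set_option autoImplicit false

open IsDedekindDomain Matrix MeasureTheory

noncomputable section

namespace Pool.Agent.GP

private lemma Gdx_valZ (v : HeightOneSpectrum ℤ) (c : ℤ) :
    Valued.v (c : v.adicCompletion ℚ) = v.intValuation c := by
  have h1 : (c : v.adicCompletion ℚ) = algebraMap ℚ (v.adicCompletion ℚ) (c : ℚ) :=
    (map_intCast _ _).symm
  have h2 : Valued.v (algebraMap ℚ (v.adicCompletion ℚ) (c : ℚ)) = v.valuation ℚ (c : ℚ) :=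
    HeightOneSpectrum.valuedAdicCompletion_eq_valuation' v (c : ℚ)
  rw [h1, h2]
  exact v.valuation_of_algebraMap (K := ℚ) c

/-- A natural number prime to `p` is a unit at `p`. -/
private lemma Gdx_unit (p : Nat.Primes) {m : ℕ} (hm : ¬ (p : ℕ) ∣ m) :
    Valued.v ((m : ℕ) : (vp p).adicCompletion ℚ) = 1 := by
  have h0 : ((m : ℕ) : (vp p).adicCompletion ℚ) = ((m : ℤ) : (vp p).adicCompletion ℚ) := by
    push_cast; rfl
  rw [h0, Gdx_valZ]
  refine le_antisymm ((vp p).intValuation_le_one _) (not_lt.1 fun h => hm ?_)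
  rw [HeightOneSpectrum.intValuation_lt_one_iff_dvd] at h
  have h1 : (m : ℤ) ∈ (vp p).asIdeal := by
    rw [← Ideal.span_singleton_le_iff_mem]
    exact Ideal.le_of_dvd h
  have h2 : (m : ℤ) ∈ Ideal.span {((p : ℕ) : ℤ)} := h1
  rw [Ideal.mem_span_singleton] at h2
  exact_mod_cast h2

private lemma Gdx_nd {p n s : ℕ} (h0 : 0 < n) (h1 : n ≤ s) (h2 : s < p) : ¬ p ∣ n :=
  Nat.not_dvd_of_pos_of_lt h0 (lt_of_le_of_lt h1 h2)

theorem tGdx : S_Gdx := by
  intro hA5 hA6 N Q e K hQ he hKo hKc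
  obtain ⟨m1, hm1, H1⟩ := hA5 N Q (K : Set (Gp Q Af)) hKc
  obtain ⟨m2, hm2, H2⟩ := hA6 N Q K hKo
  -- the norm of `e`
  have hn : (e ⬝ᵥ (Q *ᵥ e)) ≠ 0 := by
    intro h
    have h1 : (fun i => (e i : ℝ)) ≠ 0 := by
      intro h2
      apply he
      funext i
      have h3 := congrFun h2 i
      simpa using h3
    have h2 := hQ.2 _ h1
    have h3 : (fun i => (e i : ℝ)) ⬝ᵥ (Q.map (algebraMap ℚ ℝ) *ᵥ fun i => (e i : ℝ)) =
        ((e ⬝ᵥ (Q *ᵥ e) : ℚ) : ℝ) := by
      simp only [dotProduct, mulVec, Matrix.map_apply, eq_ratCast]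
      push_cast
      rfl
    rw [h3, h] at h2
    simp at h2
  set s1 : ℕ := ∑ i, ∑ j, (Q i j).den with hs1
  set s2 : ℕ := ∑ i, ∑ j, (Q⁻¹ i j).den with hs2
  set s3 : ℕ := ∑ i, (e i).den with hs3
  set s4 : ℕ := (e ⬝ᵥ (Q *ᵥ e)).num.natAbs with hs4
  have hl1 : ∀ i j, (Q i j).den ≤ s1 := fun i j =>
    (Finset.single_le_sum (f := fun j => (Q i j).den) (fun _ _ => Nat.zero_le _)
      (Finset.mem_univ j)).trans
      (Finset.single_le_sum (f := fun i => ∑ j, (Q i j).den) (fun _ _ => Nat.zero_le _)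
        (Finset.mem_univ i))
  have hl2 : ∀ i j, (Q⁻¹ i j).den ≤ s2 := fun i j =>
    (Finset.single_le_sum (f := fun j => (Q⁻¹ i j).den) (fun _ _ => Nat.zero_le _)
      (Finset.mem_univ j)).trans
      (Finset.single_le_sum (f := fun i => ∑ j, (Q⁻¹ i j).den) (fun _ _ => Nat.zero_le _)
        (Finset.mem_univ i))
  have hl3 : ∀ i, (e i).den ≤ s3 := fun i =>
    Finset.single_le_sum (f := fun i => (e i).den) (fun _ _ => Nat.zero_le _) (Finset.mem_univ i)
  refine ⟨2 + m1 + m2 + s1 + s2 + s3 + s4, fun p hp => ?_⟩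
  have hpm1 : ¬ (p : ℕ) ∣ m1 := Gdx_nd (s := m1) hm1 le_rfl (by omega)
  have hpm2 : ¬ (p : ℕ) ∣ m2 := Gdx_nd (s := m2) hm2 le_rfl (by omega)
  refine ⟨by omega, ?_, ?_, ?_, ?_, ?_, ?_⟩
  · intro k hk i j
    have h1 := H1 k hk i j (vp p)
    have h2 : ((m1 : Af) * k.1.1 i j) (vp p) = ((m1 : ℕ) : (vp p).adicCompletion ℚ) *
        (k.1.1 i j) (vp p) := by
      have h3 : ((m1 : Af) * k.1.1 i j) (vp p) = (ev (vp p)) ((m1 : Af) * k.1.1 i j) := rfl
      rw [h3, map_mul, map_natCast]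
      rfl
    rw [h2, HeightOneSpectrum.mem_adicCompletionIntegers, map_mul, Gdx_unit p hpm1, one_mul] at h1
    exact h1
  · intro y hy hyi
    refine H2 y fun i j => ?_
    refine ⟨(y.1.1 i j - (1 : Matrix (Fin N) (Fin N) Af) i j) * algebraMap ℚ Af (m2 : ℚ)⁻¹, ?_, ?_⟩
    · intro v
      have h0 : ((y.1.1 i j - (1 : Matrix (Fin N) (Fin N) Af) i j) * algebraMap ℚ Af (m2 : ℚ)⁻¹) v =
          (ev v (y.1.1 i j) - ev v ((1 : Matrix (Fin N) (Fin N) Af) i j)) *
            ev v (algebraMap ℚ Af (m2 : ℚ)⁻¹) := by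
        rw [← map_sub, ← map_mul]
        rfl
      have h1v : ev v ((1 : Matrix (Fin N) (Fin N) Af) i j) =
          (1 : Matrix (Fin N) (Fin N) (v.adicCompletion ℚ)) i j := by
        by_cases h : i = j
        · subst h; rw [Matrix.one_apply_eq, Matrix.one_apply_eq, map_one]
        · rw [Matrix.one_apply_ne h, Matrix.one_apply_ne h, map_zero]
      rw [h0, h1v]
      by_cases hv : v = vp p
      · subst hv
        have h2 : ev (vp p) (algebraMap ℚ Af (m2 : ℚ)⁻¹) =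
            (((m2 : ℕ) : (vp p).adicCompletion ℚ))⁻¹ := by
          have h3 : ev (vp p) (algebraMap ℚ Af (m2 : ℚ)⁻¹) =
              algebraMap ℚ ((vp p).adicCompletion ℚ) (m2 : ℚ)⁻¹ := rfl
          rw [h3, map_inv₀, map_natCast]
        rw [h2, HeightOneSpectrum.mem_adicCompletionIntegers, map_mul, map_inv₀,
          Gdx_unit p hpm2, inv_one, mul_one]
        refine le_trans (Valued.v.map_sub _ _) (max_le (hyi i j (vp p)) ?_)
        by_cases h : i = j
        · subst h; rw [Matrix.one_apply_eq, map_one]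
        · rw [Matrix.one_apply_ne h, map_zero]; exact zero_le
      · have h2 := hy v hv
        have h3 : (evG Q v y).1 i j = (1 : Matrix (Fin N) (Fin N) (v.adicCompletion ℚ)) i j := by
          rw [h2]; rfl
        have h4 : (evG Q v y).1 i j = ev v (y.1.1 i j) := rfl
        rw [← h4, h3, sub_self, zero_mul]
        exact Subring.zero_mem _
    · have hinv : (m2 : Af) * algebraMap ℚ Af (m2 : ℚ)⁻¹ = 1 := by
        have h1 : (m2 : Af) = algebraMap ℚ Af (m2 : ℚ) := (map_natCast _ _).symm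
        rw [h1, ← map_mul, mul_inv_cancel₀ (by exact_mod_cast hm2.ne'), map_one]
      linear_combination -(y.1.1 i j - (1 : Matrix (Fin N) (Fin N) Af) i j) * hinv
  · exact fun i j => Gdx_nd (Q i j).den_pos (hl1 i j) (by omega)
  · exact fun i j => Gdx_nd (Q⁻¹ i j).den_pos (hl2 i j) (by omega)
  · exact fun i => Gdx_nd (e i).den_pos (hl3 i) (by omega)
  · intro h
    have h1 : (p : ℕ) ∣ s4 := by
      have h2 := Int.natAbs_dvd_natAbs.2 h
      simpa using h2
    have h3 : 0 < s4 := by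
      rw [hs4, Int.natAbs_pos, Ne, Rat.num_eq_zero]
      exact hn
    exact Gdx_nd h3 le_rfl (show s4 < (p : ℕ) by omega) h1

end Pool.Agent.GP
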