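import Pool.Agent.Lib.GP.Spec2

/-!
# Theorem GP, second part: Hk1, elementary properties of the Hecke operators (author helper14)
-/

set_option autoImplicit false

open IsDedekindDomain Matrix MeasureTheory

noncomputable section

namespace Pool.Agent.GP

section hk1

variable {Gf : Type} [Group Gf] (K : Subgroup Gf)

private lemma hk1_out {E : Type} {f : Gf → E} (hf : ∀ g, ∀ k ∈ K, f (g * k) = f g) (g : Gf)
    (c : Gf ⧸ K) (y : Gf) (h : c = (y : Gf ⧸ K)) : f (g * Quotient.out c) = f (g * y) := by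
  subst h
  obtain ⟨k, hk⟩ := QuotientGroup.mk_out_eq_mul K y
  have h1 : Quotient.out (y : Gf ⧸ K) = y * k := hk
  rw [h1, ← mul_assoc, hf _ _ k.2]

private lemma hk1_smul_mem {𝒴 : Set Gf} (hS : KS K 𝒴) {k : Gf} (hk : k ∈ K) {c : Gf ⧸ K}
    (hc : c ∈ cs K 𝒴) : k • c ∈ cs K 𝒴 := by
  obtain ⟨y, hy, rfl⟩ := hc
  obtain ⟨y', hy', k', hk', he⟩ := hS k hk y hy
  refine ⟨y', hy', ?_⟩
  show ((k * y : Gf) : Gf ⧸ K) = _
  rw [he, QuotientGroup.eq]
  have : (y' * k')⁻¹ * y' = k'⁻¹ := by group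
  rw [this]
  exact K.inv_mem hk'

private def hk1Equiv {𝒴 : Set Gf} (hS : KS K 𝒴) {k : Gf} (hk : k ∈ K) : cs K 𝒴 ≃ cs K 𝒴 where
  toFun c := ⟨k • c.1, hk1_smul_mem K hS hk c.2⟩
  invFun c := ⟨k⁻¹ • c.1, hk1_smul_mem K hS (K.inv_mem hk) c.2⟩
  left_inv c := Subtype.ext (inv_smul_smul k c.1)
  right_inv c := Subtype.ext (smul_inv_smul k c.1)

private lemma hk1_inv {E : Type} [AddCommMonoid E] {𝒴 : Set Gf} {f : Gf → E} (hS : KS K 𝒴)
    (hf : ∀ g, ∀ k ∈ K, f (g * k) = f g) (g : Gf) {k : Gf} (hk : k ∈ K) :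
    Hk K (cs K 𝒴) f (g * k) = Hk K (cs K 𝒴) f g := by
  refine finsum_eq_of_bijective (hk1Equiv K hS hk) (hk1Equiv K hS hk).bijective fun c => ?_
  show f (g * k * Quotient.out c.1) = f (g * Quotient.out (k • c.1))
  have h1 : k • c.1 = ((k * Quotient.out c.1 : Gf) : Gf ⧸ K) := by
    conv_lhs => rw [← QuotientGroup.out_eq' c.1]
    rfl
  rw [hk1_out K hf g _ _ h1, mul_assoc]

private lemma hk1_sum {E : Type} [AddCommMonoid E] {𝒴 : Set Gf} [Fintype (cs K 𝒴)] (f : Gf → E)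
    (g : Gf) : Hk K (cs K 𝒴) f g = ∑ c : cs K 𝒴, f (g * Quotient.out c.1) :=
  finsum_eq_sum_of_fintype _

end hk1

theorem tHk1 : S_Hk1 := by
  intro Gf _ K
  refine ⟨fun E _ _ 𝒴 f hY hS hf => ⟨fun g k hk => hk1_inv K hS hf g hk, ?_, ?_, ?_⟩, ?_⟩
  · intro 𝒵 hZ hSZ hcom
    have _ := hY.fintype
    have _ := hZ.fintype
    have hy : ∀ c : cs K 𝒴, ∃ y ∈ 𝒴, c.1 = (y : Gf ⧸ K) := fun c => c.2
    have hz : ∀ c : cs K 𝒵, ∃ z ∈ 𝒵, c.1 = (z : Gf ⧸ K) := fun c => c.2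
    choose y hy1 hy2 using hy
    choose z hz1 hz2 using hz
    funext g
    have e1 : ∀ x : Gf, Hk K (cs K 𝒵) f x = ∑ d, f (x * z d) := fun x => by
      rw [hk1_sum]
      exact Finset.sum_congr rfl fun d _ => hk1_out K hf x _ _ (hz2 d)
    have e2 : ∀ x : Gf, Hk K (cs K 𝒴) f x = ∑ c, f (x * y c) := fun x => by
      rw [hk1_sum]
      exact Finset.sum_congr rfl fun c _ => hk1_out K hf x _ _ (hy2 c)
    rw [hk1_sum, hk1_sum]
    have e3 : ∀ c : cs K 𝒴, Hk K (cs K 𝒵) f (g * Quotient.out c.1) = ∑ d, f (g * y c * z d) := by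
      intro c
      rw [hk1_out K (fun g k hk => hk1_inv K hSZ hf g hk) g _ _ (hy2 c), e1]
    have e4 : ∀ d : cs K 𝒵, Hk K (cs K 𝒴) f (g * Quotient.out d.1) = ∑ c, f (g * z d * y c) := by
      intro d
      rw [hk1_out K (fun g k hk => hk1_inv K hS hf g hk) g _ _ (hz2 d), e2]
    rw [Finset.sum_congr rfl fun c _ => e3 c, Finset.sum_congr rfl fun d _ => e4 d,
      Finset.sum_comm]
    refine Finset.sum_congr rfl fun d _ => Finset.sum_congr rfl fun c _ => ?_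
    rw [mul_assoc, mul_assoc, hcom _ (hy1 c) _ (hz1 d)]
  · intro f' a
    have _ := hY.fintype
    constructor
    · funext g
      rw [Pi.add_apply, hk1_sum, hk1_sum, hk1_sum, ← Finset.sum_add_distrib]
      rfl
    · funext g
      rw [Pi.smul_apply, hk1_sum, hk1_sum, Finset.smul_sum]
      rfl
  · intro g c y h
    exact hk1_out K hf g c y h
  · intro Γ G V _ _ _ _ _ ja jf ρ 𝒴 hY hS f hf γ g k hk
    have _ := hY.fintype
    have hf' : ∀ (γ : Γ) (g : Gf), ∀ k ∈ K, f (jf γ * g * k) = ρ.act (ja γ) (f g) := hf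
    have hinv : ∀ g, ∀ k ∈ K, f (g * k) = f g := by
      intro g k hk
      have h1 := hf' 1 g k hk
      rw [map_one, map_one, map_one, one_mul] at h1
      exact h1
    rw [hk1_inv K hS hinv _ hk, hk1_sum, hk1_sum, map_sum]
    refine Finset.sum_congr rfl fun c _ => ?_
    rw [← hf' γ (g * Quotient.out c.1) 1 K.one_mem, mul_one, mul_assoc]

end Pool.Agent.GP
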