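import Pool.Agent.Lib.GP.Spec2

/-! # HkS: the Hecke operators are symmetric (helper61)

`Hk f (z i) = ∑_j w_j ∑_(γ ∈ A(i, j)) ρ(γ) f(z_j)` with `A(i, j) = {γ | (z i)⁻¹ γ z_j K ∈ 𝒴 K}` and
`A(i, j)⁻¹ = A(j, i)`.
-/

set_option autoImplicit false

open IsDedekindDomain Matrix MeasureTheory

noncomputable section

namespace Pool.Agent.GP

variable {Γ G Gf V ι : Type} [Group Γ] [Group G] [TopologicalSpace G] [Group Gf]
  [NormedAddCommGroup V] [InnerProductSpace ℂ V]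

private def HkSA (jf : Γ →* Gf) (K : Subgroup Gf) (z : ι → Gf) (S : Set (Gf ⧸ K)) (i j : ι) : Set Γ :=
  {γ | (((z i)⁻¹ * (jf γ * z j) : Gf) : Gf ⧸ K) ∈ S}

private theorem HkS_fib (jf : Γ →* Gf) (K : Subgroup Gf) (z : ι → Gf) (i j : ι) (c : Gf ⧸ K) (γ : Γ) :
    (((z i)⁻¹ * (jf γ * z j) : Gf) : Gf ⧸ K) = c ↔ γ ∈ tr jf K (z j) (z i * Quotient.out c) := by
  have h1 : ((Quotient.out c : Gf) : Gf ⧸ K) = c := QuotientGroup.out_eq' c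
  have h2 : (z i * Quotient.out c)⁻¹ * (jf γ * z j) = (Quotient.out c)⁻¹ * ((z i)⁻¹ * (jf γ * z j)) := by
    group
  show _ ↔ (z i * Quotient.out c)⁻¹ * (jf γ * z j) ∈ K
  rw [h2, ← QuotientGroup.eq, h1]
  exact ⟨fun h => h.symm, fun h => h.symm⟩

private theorem HkS_fin {jf : Γ →* Gf} {K : Subgroup Gf} (z : ι → Gf) {S : Set (Gf ⧸ K)}
    (hfin : ∀ g g' : Gf, (tr jf K g g').Finite) (hS : S.Finite) (i j : ι) : (HkSA jf K z S i j).Finite := by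
  refine (hS.biUnion fun c _ => hfin (z j) (z i * Quotient.out c)).subset ?_
  intro γ hγ
  exact Set.mem_iUnion₂.2 ⟨_, hγ, (HkS_fib jf K z i j _ γ).1 rfl⟩

private theorem HkS_one [Fintype ι] {jf : Γ →* Gf} {K : Subgroup Gf} {z : ι → Gf}
    (hfin : ∀ g g' : Gf, (tr jf K g g').Finite) (hcov : ∀ g, ∃ i, ∃ γ, ∃ k ∈ K, g = jf γ * z i * k)
    (huni : ∀ i j γ, γ ∈ tr jf K (z i) (z j) → i = j) (g : Gf) :
    ∑ j, (Nat.card (tr jf K (z j) g) : ℂ) * ((st (⊤ : Subgroup Γ) jf K (z j) : ℂ))⁻¹ = 1 := by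
  obtain ⟨j0, γ0, k0, hk0, hg⟩ := hcov g
  have hm : ∀ j γ, γ ∈ tr jf K (z j) g ↔ γ0⁻¹ * γ ∈ tr jf K (z j) (z j0) := by
    intro j γ
    show g⁻¹ * (jf γ * z j) ∈ K ↔ (z j0)⁻¹ * (jf (γ0⁻¹ * γ) * z j) ∈ K
    have h1 : g⁻¹ * (jf γ * z j) = k0⁻¹ * ((z j0)⁻¹ * (jf (γ0⁻¹ * γ) * z j)) := by
      rw [hg, map_mul, map_inv]
      group
    rw [h1]
    exact K.mul_mem_cancel_left (K.inv_mem hk0)
  have hcard : Nat.card (tr jf K (z j0) g) = st (⊤ : Subgroup Γ) jf K (z j0) := by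
    refine Nat.card_congr ⟨fun x => ⟨γ0⁻¹ * x.1, Subgroup.mem_top _, (hm j0 x.1).1 x.2⟩,
      fun y => ⟨γ0 * y.1, (hm j0 _).2 ?_⟩, fun x => ?_, fun y => ?_⟩
    · rw [inv_mul_cancel_left]
      exact y.2.2
    · exact Subtype.ext (mul_inv_cancel_left γ0 x.1)
    · exact Subtype.ext (inv_mul_cancel_left γ0 y.1)
  have hpos : (st (⊤ : Subgroup Γ) jf K (z j0) : ℂ) ≠ 0 := by
    rw [← hcard, Nat.cast_ne_zero]
    have : Finite (tr jf K (z j0) g) := (hfin (z j0) g).to_subtype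
    have : Nonempty (tr jf K (z j0) g) := by
      refine ⟨⟨γ0, (hm j0 γ0).2 ?_⟩⟩
      show (z j0)⁻¹ * (jf (γ0⁻¹ * γ0) * z j0) ∈ K
      rw [inv_mul_cancel, map_one, one_mul, inv_mul_cancel]
      exact K.one_mem
    exact Nat.card_pos.ne'
  rw [Finset.sum_eq_single j0]
  · rw [hcard, mul_inv_cancel₀ hpos]
  · intro j _ hj
    have he : IsEmpty (tr jf K (z j) g) := by
      refine ⟨fun x => hj ?_⟩
      exact huni j j0 _ ((hm j x.1).1 x.2)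
    rw [Nat.card_of_isEmpty, Nat.cast_zero, zero_mul]
  · intro h
    exact absurd (Finset.mem_univ j0) h

open Classical in
private theorem HkS_exp [Fintype ι] {ja : Γ →* G} {jf : Γ →* Gf} {K : Subgroup Gf} {ρ : URep G V} {z : ι → Gf}
    {S : Set (Gf ⧸ K)} (hfin : ∀ g g' : Gf, (tr jf K g g').Finite)
    (hcov : ∀ g, ∃ i, ∃ γ, ∃ k ∈ K, g = jf γ * z i * k) (huni : ∀ i j γ, γ ∈ tr jf K (z i) (z j) → i = j)
    (hS : S.Finite) {f : Gf → V} (hf : f ∈ MV ja jf K ρ) (i : ι) :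
    Hk K S f (z i) = ∑ j, ((st (⊤ : Subgroup Γ) jf K (z j) : ℂ))⁻¹ •
      ∑ γ ∈ (HkS_fin z hfin hS i j).toFinset, ρ.act (ja γ) (f (z j)) := by
  have hHk : Hk K S f (z i) = ∑ c ∈ hS.toFinset, f (z i * Quotient.out c) := by
    show ∑ᶠ c : S, f (z i * Quotient.out c.1) = _
    rw [finsum_set_coe_eq_finsum_mem (f := fun c : Gf ⧸ K => f (z i * Quotient.out c)) S,
      finsum_mem_eq_finite_toFinset_sum _ hS]
  have hj : ∀ j, ∑ γ ∈ (HkS_fin z hfin hS i j).toFinset, ρ.act (ja γ) (f (z j)) =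
      ∑ c ∈ hS.toFinset, (Nat.card (tr jf K (z j) (z i * Quotient.out c)) : ℂ) • f (z i * Quotient.out c) := by
    intro j
    rw [← Finset.sum_fiberwise_of_maps_to (s := (HkS_fin z hfin hS i j).toFinset) (t := hS.toFinset)
      (g := fun γ => (((z i)⁻¹ * (jf γ * z j) : Gf) : Gf ⧸ K))
      (fun γ hγ => hS.mem_toFinset.2 ((HkS_fin z hfin hS i j).mem_toFinset.1 hγ))]
    refine Finset.sum_congr rfl fun c hc => ?_
    have h1 : ∀ γ ∈ (HkS_fin z hfin hS i j).toFinset.filter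
        (fun γ => (((z i)⁻¹ * (jf γ * z j) : Gf) : Gf ⧸ K) = c),
        ρ.act (ja γ) (f (z j)) = f (z i * Quotient.out c) := by
      intro γ hγ
      have h2 := (Finset.mem_filter.1 hγ).2
      have h3 : (z i * Quotient.out c)⁻¹ * (jf γ * z j) ∈ K := (HkS_fib jf K z i j c γ).1 h2
      have h4 := hf γ (z j) ((z i * Quotient.out c)⁻¹ * (jf γ * z j))⁻¹ (K.inv_mem h3)
      rw [← h4]
      congr 1
      group
    rw [Finset.sum_congr rfl h1, Finset.sum_const, ← Nat.cast_smul_eq_nsmul ℂ]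
    congr 2
    rw [Nat.card_coe_set_eq, ← Set.ncard_coe_finset]
    congr 1
    ext γ
    rw [Finset.coe_filter, Set.mem_setOf_eq, (HkS_fin z hfin hS i j).mem_toFinset, ← HkS_fib]
    refine ⟨fun h => h.2, fun h => ⟨?_, h⟩⟩
    show (((z i)⁻¹ * (jf γ * z j) : Gf) : Gf ⧸ K) ∈ S
    rw [h]
    exact hS.mem_toFinset.1 hc
  simp only [hj, Finset.smul_sum]
  rw [Finset.sum_comm, hHk]
  refine Finset.sum_congr rfl fun c _ => ?_
  have h1 := HkS_one hfin hcov huni (z i * Quotient.out c)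
  simp only [smul_smul]
  rw [← Finset.sum_smul]
  have h2 : ∑ j, ((st (⊤ : Subgroup Γ) jf K (z j) : ℂ))⁻¹ *
      (Nat.card (tr jf K (z j) (z i * Quotient.out c)) : ℂ) = 1 := by
    rw [← h1]
    exact Finset.sum_congr rfl fun j _ => mul_comm _ _
  rw [h2, one_smul]

private theorem HkS_cs_inv {K : Subgroup Gf} {𝒴 : Set Gf} (hK : KS K 𝒴) (hi : ∀ y ∈ 𝒴, y⁻¹ ∈ 𝒴) {g : Gf}
    (hg : ((g : Gf) : Gf ⧸ K) ∈ cs K 𝒴) : ((g⁻¹ : Gf) : Gf ⧸ K) ∈ cs K 𝒴 := by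
  obtain ⟨y, hy, h⟩ := hg
  have h1 : g⁻¹ * y ∈ K := QuotientGroup.eq.1 h
  obtain ⟨y', hy', k', hk', h2⟩ := hK (g⁻¹ * y) h1 y⁻¹ (hi y hy)
  refine ⟨y', hy', ?_⟩
  have h3 : g⁻¹ = y' * k' := by
    rw [← h2]
    group
  rw [h3, QuotientGroup.eq]
  have h4 : (y' * k')⁻¹ * y' = k'⁻¹ := by group
  rw [h4]
  exact K.inv_mem hk'

private theorem HkS_inv {jf : Γ →* Gf} {K : Subgroup Gf} {z : ι → Gf} {𝒴 : Set Gf} (hK : KS K 𝒴)
    (hi : ∀ y ∈ 𝒴, y⁻¹ ∈ 𝒴) {i j : ι} {γ : Γ} (h : γ ∈ HkSA jf K z (cs K 𝒴) i j) :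
    γ⁻¹ ∈ HkSA jf K z (cs K 𝒴) j i := by
  show (((z j)⁻¹ * (jf γ⁻¹ * z i) : Gf) : Gf ⧸ K) ∈ cs K 𝒴
  have h1 := HkS_cs_inv hK hi h
  have h2 : ((z i)⁻¹ * (jf γ * z j))⁻¹ = (z j)⁻¹ * (jf γ⁻¹ * z i) := by
    rw [map_inv]
    group
  rw [h2] at h1
  exact h1

private theorem HkS_inner {ja : Γ →* G} (ρ : URep G V) (γ : Γ) (v w : V) :
    inner ℂ v (ρ.act (ja γ⁻¹) w) = inner ℂ (ρ.act (ja γ) v) w := by
  have h1 : ρ.act (ja γ) (ρ.act (ja γ⁻¹) w) = w := by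
    have h2 : ρ.act (ja γ) * ρ.act (ja γ⁻¹) = 1 := by
      rw [← map_mul, ← map_mul, mul_inv_cancel, map_one, map_one]
    exact congrArg (fun e : V ≃ₗᵢ[ℂ] V => e w) h2
  rw [← (ρ.act (ja γ)).inner_map_map v, h1]

/-- **HkS.** -/
theorem tHkS : S_HkS := by
  intro Γ G Gf V ι _ _ _ _ _ _ _ ja jf K ρ z 𝒴 hfin hcov huni hS hK hi f hf f' hf'
  have hL : ∀ i, inner ℂ (Hk K (cs K 𝒴) f (z i)) (f' (z i)) =
      ∑ j, ((st (⊤ : Subgroup Γ) jf K (z j) : ℂ))⁻¹ *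
        ∑ γ ∈ (HkS_fin z hfin hS i j).toFinset, inner ℂ (ρ.act (ja γ) (f (z j))) (f' (z i)) := by
    intro i
    rw [HkS_exp hfin hcov huni hS hf i, sum_inner]
    refine Finset.sum_congr rfl fun j _ => ?_
    rw [inner_smul_left, map_inv₀, map_natCast, sum_inner]
  have hR : ∀ i, inner ℂ (f (z i)) (Hk K (cs K 𝒴) f' (z i)) =
      ∑ j, ((st (⊤ : Subgroup Γ) jf K (z j) : ℂ))⁻¹ *
        ∑ γ ∈ (HkS_fin z hfin hS i j).toFinset, inner ℂ (f (z i)) (ρ.act (ja γ) (f' (z j))) := by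
    intro i
    rw [HkS_exp hfin hcov huni hS hf' i, inner_sum]
    refine Finset.sum_congr rfl fun j _ => ?_
    rw [inner_smul_right, inner_sum]
  simp only [hL, hR, Finset.mul_sum]
  rw [Finset.sum_comm]
  refine Finset.sum_congr rfl fun j _ => Finset.sum_congr rfl fun i _ => ?_
  refine Finset.sum_bij (fun γ _ => γ⁻¹) ?_ ?_ ?_ ?_
  · intro γ hγ
    exact (HkS_fin z hfin hS j i).mem_toFinset.2 (HkS_inv hK hi ((HkS_fin z hfin hS i j).mem_toFinset.1 hγ))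
  · intro γ _ γ' _ h
    exact inv_injective h
  · intro γ hγ
    refine ⟨γ⁻¹, ?_, inv_inv γ⟩
    exact (HkS_fin z hfin hS i j).mem_toFinset.2 (HkS_inv hK hi ((HkS_fin z hfin hS j i).mem_toFinset.1 hγ))
  · intro γ _
    rw [HkS_inner]
    ring

end Pool.Agent.GP
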