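import Pool.Agent.Lib.GP.Spec2

/-!
# Theorem GP: Ind, forms with prescribed values at the points `h y` (author helper16)
-/

set_option autoImplicit false

open IsDedekindDomain Matrix MeasureTheory

noncomputable section

namespace Pool.Agent.GP

private lemma Ind_act {Γ G Gf V : Type} [Group Γ] [Group G] [TopologicalSpace G] [Group Gf]
    [NormedAddCommGroup V] [InnerProductSpace ℂ V] {ja : Γ →* G} {jf : Γ →* Gf} {K : Subgroup Gf}
    {ρ : URep G V} {f : Gf → V} (hf : f ∈ MV ja jf K ρ) (γ : Γ) (g : Gf) (k : Gf) (hk : k ∈ K) :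
    f (jf γ * g * k) = ρ.act (ja γ) (f g) := hf γ g k hk

private lemma Ind_tr {Γ Gf : Type} [Group Γ] [Group Gf] {jf : Γ →* Gf} {K : Subgroup Gf} {g g' : Gf} {γ : Γ}
    (h : γ ∈ tr jf K g g') : g'⁻¹ * (jf γ * g) ∈ K := h

/-- The relation between the points. -/
private def Ind_setoid {Γ Gf X : Type} [Group Γ] [Group Gf] (jf : Γ →* Gf) (K : Subgroup Gf)
    (Γ1 : Subgroup Γ) (pt : X → Gf) : Setoid X where
  r x x' := ∃ γ ∈ Γ1, γ ∈ tr jf K (pt x) (pt x')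
  iseqv :=
    { refl := fun x => ⟨1, Γ1.one_mem, by
        change (pt x)⁻¹ * (jf 1 * pt x) ∈ K
        rw [map_one, one_mul, inv_mul_cancel]
        exact K.one_mem⟩
      symm := by
        rintro x x' ⟨γ, hγ, h⟩
        refine ⟨γ⁻¹, Γ1.inv_mem hγ, ?_⟩
        change (pt x)⁻¹ * (jf γ⁻¹ * pt x') ∈ K
        have h1 := K.inv_mem (Ind_tr h)
        have e : ((pt x')⁻¹ * (jf γ * pt x))⁻¹ = (pt x)⁻¹ * (jf γ⁻¹ * pt x') := by
          rw [map_inv]
          group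
        rwa [e] at h1
      trans := by
        rintro x x' x'' ⟨γ, hγ, h⟩ ⟨γ', hγ', h'⟩
        refine ⟨γ' * γ, Γ1.mul_mem hγ' hγ, ?_⟩
        change (pt x'')⁻¹ * (jf (γ' * γ) * pt x) ∈ K
        have h1 := K.mul_mem (Ind_tr h') (Ind_tr h)
        have e : (pt x'')⁻¹ * (jf γ' * pt x') * ((pt x')⁻¹ * (jf γ * pt x)) =
            (pt x'')⁻¹ * (jf (γ' * γ) * pt x) := by
          rw [map_mul]
          group
        rwa [e] at h1 }

theorem tInd : S_Ind := by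
  intro hInt Γ G Gf V P0 X _ _ _ _ _ _ _ _ ja jf K ΓH Γ1 Hf ρ P S A pt F β n1 hfin hP hPH hjH hle hex hA1 hA2
    hA3 hcov hpt hβ hn1 hPh hlt hF hPF p1
  classical
  let s : Setoid X := Ind_setoid jf K Γ1 pt
  let ι : Type := Quotient s
  have _ : Finite ι := Finite.of_surjective (Quotient.mk s) Quotient.mk_surjective
  let iF : Fintype ι := Fintype.ofFinite ι
  let h : ι → Gf := fun i => pt (Quotient.out i)
  have hd : FD jf K Γ1 h := by
    refine ⟨hfin, fun i j γ hγ hg => ?_⟩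
    have h1 : s.r (Quotient.out i) (Quotient.out j) := ⟨γ, hγ, hg⟩
    have h2 : Quotient.mk s (Quotient.out i) = Quotient.mk s (Quotient.out j) := Quotient.sound h1
    rwa [Quotient.out_eq, Quotient.out_eq] at h2
  -- invariance of A
  have hAl : ∀ p, ∀ g ∈ Hf, ∀ y, ∀ k ∈ K, (g * y * k ∈ A p ↔ y ∈ A p) := fun p g hg y k hk => hA1 p g hg y k hk
  have hAl1 : ∀ p, ∀ g ∈ Hf, ∀ y, (g * y ∈ A p ↔ y ∈ A p) := by
    intro p g hg y
    have := hA1 p g hg y 1 K.one_mem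
    rwa [mul_one] at this
  -- the decomposition of h i
  have hdec : ∀ i, h i ∈ A p1 → ∃ h' ∈ Hf, ∃ y' ∈ S p1, y' ∈ A p1 ∧ h i = h' * y' := by
    intro i hi
    obtain ⟨p, h', hh', y', hy', e⟩ := hpt (Quotient.out i)
    have e' : h i = h' * y' := e
    have hy : y' ∈ A p1 := by
      rw [e'] at hi
      exact (hAl1 p1 h' hh' y').1 hi
    have hp : p = p1 := by
      by_contra hne
      exact hA2 p1 p (Ne.symm hne) y' hy' hy
    subst hp
    exact ⟨h', hh', y', hy', hy, e'⟩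
  choose! dh hdh dy hdy hdyA hde using hdec
  -- the key property
  have star : ∀ γ ∈ ΓH, ∀ g ∈ Hf, ∀ g' ∈ Hf, ∀ k ∈ K, ∀ y ∈ S p1, ∀ y' ∈ S p1, y ∈ A p1 →
      g * y = jf γ * (g' * y') * k → F g = ρ.act (ja γ) (F g') := by
    intro γ hγ g hg g' hg' k hk y hy y' hy' hyA e
    have h1 : (jf γ * g')⁻¹ * g ∈ Hf := Hf.mul_mem (Hf.inv_mem (Hf.mul_mem (hjH γ hγ) hg')) hg
    have h2 : (jf γ * g')⁻¹ * g * y = y' * k := by
      rw [mul_assoc, e]
      group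
    have h3 := hA3 p1 y hy y' hy' hyA _ h1 k hk h2
    have h4 := hF γ hγ g' hg' _ h3 h1
    have e5 : jf γ * g' * ((jf γ * g')⁻¹ * g) = g := by group
    rwa [e5] at h4
  let a : ι → V := fun i => if h i ∈ A p1 then F (dh i) else 0
  have ha1 : ∀ i, h i ∈ A p1 → a i = F (dh i) := fun i hi => if_pos hi
  have ha0 : ∀ i, h i ∉ A p1 → a i = 0 := fun i hi => if_neg hi
  have haI : a ∈ Inv1 ja jf K Γ1 h ρ P := by
    intro i
    by_cases hi : h i ∈ A p1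
    · rw [ha1 i hi]
      refine ⟨hPF _ (hdh i hi), fun γ hγ hg => ?_⟩
      obtain ⟨γ0, hγ0, hact, hK0⟩ := hex γ hγ
      rw [hact]
      have k1 := Ind_tr hg
      have k2 := hK0 (h i)
      have k3 : ((jf γ0 * h i)⁻¹ * (jf γ * h i)) * ((h i)⁻¹ * (jf γ * h i))⁻¹ ∈ K :=
        K.mul_mem k2 (K.inv_mem k1)
      have e : dh i * dy i = jf γ0 * (dh i * dy i) *
          (((jf γ0 * h i)⁻¹ * (jf γ * h i)) * ((h i)⁻¹ * (jf γ * h i))⁻¹) := by
        rw [← hde i hi]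
        group
      exact (star γ0 hγ0 (dh i) (hdh i hi) (dh i) (hdh i hi) _ k3 (dy i) (hdy i hi) (dy i) (hdy i hi)
        (hdyA i hi) e).symm
    · rw [ha0 i hi]
      exact ⟨map_zero P, fun γ _ _ => map_zero _⟩
  -- the hypotheses of Int
  have hbad : ∀ i j, ∀ γ ∈ bad hd i j, γ ∈ tr jf K (h i) (h j) ∧ γ ∉ Γ1 := by
    intro i j γ hγ
    have h1 := Finset.mem_filter.1 hγ
    exact ⟨(Set.Finite.mem_toFinset _).1 h1.1, h1.2⟩
  have hβ' : ∀ i j, ∀ γ ∈ bad hd i j, Ph ρ P (ja γ)⁻¹ ≤ β := fun i j γ hγ =>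
    hPh _ _ γ (hbad i j γ hγ).1 (hbad i j γ hγ).2
  have hcard : ∀ i j, (bad hd i j).card ≤ n1 := by
    intro i j
    refine le_trans ?_ (hn1 (Quotient.out i) (Quotient.out j))
    rw [← Set.ncard_coe_finset]
    refine Set.ncard_le_ncard (fun γ hγ => hbad i j γ hγ) ?_
    exact (hfin _ _).subset fun γ hγ => hγ.1
  have hX : Fintype.card ι ≤ Fintype.card X :=
    Fintype.card_le_of_surjective (Quotient.mk s) Quotient.mk_surjective
  have hsum : (∑ i, ∑ j, (bad hd i j).card) ≤ Fintype.card X ^ 2 * n1 := by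
    calc (∑ i, ∑ j, (bad hd i j).card) ≤ ∑ i : ι, ∑ j : ι, n1 :=
          Finset.sum_le_sum fun i _ => Finset.sum_le_sum fun j _ => hcard i j
      _ = Fintype.card ι * (Fintype.card ι * n1) := by
          simp only [Finset.sum_const, Finset.card_univ, smul_eq_mul]
      _ ≤ Fintype.card X * (Fintype.card X * n1) := Nat.mul_le_mul hX (Nat.mul_le_mul_right _ hX)
      _ = Fintype.card X ^ 2 * n1 := by ring
  have hlt' : ((∑ i, ∑ j, (bad hd i j).card : ℕ) : ℝ) ^ 2 * β < 1 := by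
    refine lt_of_le_of_lt ?_ hlt
    have h1 : ((∑ i, ∑ j, (bad hd i j).card : ℕ) : ℝ) ≤ ((Fintype.card X ^ 2 * n1 : ℕ) : ℝ) := by
      exact_mod_cast hsum
    exact mul_le_mul_of_nonneg_right (pow_le_pow_left₀ (Nat.cast_nonneg _) h1 2) hβ
  have hinv : ∀ i, ∀ f ∈ MV ja jf K ρ, ∀ γ ∈ Γ1, γ ∈ tr jf K (h i) (h i) →
      ρ.act (ja γ) (P (f (h i))) = P (f (h i)) := by
    intro i f hf γ hγ hg
    obtain ⟨γ0, hγ0, hact, -⟩ := hex γ hγ
    have h1 : f (jf γ * h i * 1) = ρ.act (ja γ) (f (h i)) := Ind_act hf γ (h i) 1 K.one_mem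
    have h2 : f (jf 1 * h i * ((h i)⁻¹ * (jf γ * h i))) = ρ.act (ja 1) (f (h i)) :=
      Ind_act hf 1 (h i) _ (Ind_tr hg)
    have e : jf 1 * h i * ((h i)⁻¹ * (jf γ * h i)) = jf γ * h i * 1 := by
      rw [map_one]
      group
    have e1 : ρ.act (ja 1) (f (h i)) = f (h i) := by
      rw [map_one, map_one]
      rfl
    rw [e, h1, e1] at h2
    rw [hact, ← hPH γ0 hγ0, ← hact, h2]
  obtain ⟨f, hf, hfa⟩ := hInt Γ G Gf V ι ja jf K Γ1 h ρ P hd β hP hβ' hlt' hinv a haI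
  refine ⟨f, hf, fun p g hg y hy => ?_⟩
  obtain ⟨x, γ1, hγ1, k, hk, e⟩ := hcov p g hg y hy
  let i : ι := Quotient.mk s x
  have hr : s.r (Quotient.out i) x := Quotient.exact (s := s) (Quotient.out_eq i)
  obtain ⟨γ2, hγ2, hg2⟩ := hr
  have hk2 := Ind_tr hg2
  obtain ⟨γ0, hγ0, hact, hK0⟩ := hex γ2 hγ2
  have hk3 := hK0 (h i)
  have hk4 : ((jf γ0 * h i)⁻¹ * (jf γ2 * h i)) * ((pt x)⁻¹ * (jf γ2 * h i))⁻¹ * k ∈ K :=
    K.mul_mem (K.mul_mem hk3 (K.inv_mem hk2)) hk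
  have e2 : g * y = jf (γ1 * γ0) * h i *
      (((jf γ0 * h i)⁻¹ * (jf γ2 * h i)) * ((pt x)⁻¹ * (jf γ2 * h i))⁻¹ * k) := by
    rw [e, map_mul]
    group
  have hγ10 : γ1 * γ0 ∈ ΓH := ΓH.mul_mem hγ1 hγ0
  have hval : P (f (g * y)) = ρ.act (ja (γ1 * γ0)) (a i) := by
    rw [e2, Ind_act hf _ _ _ hk4, hPH _ hγ10, hfa i]
  have hmem : y ∈ A p1 ↔ h i ∈ A p1 := by
    rw [← hAl1 p1 g hg y, e2]
    exact hAl p1 _ (hjH _ hγ10) _ _ hk4
  constructor
  · rintro ⟨rfl, hyA⟩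
    have hi : h i ∈ A p := hmem.1 hyA
    rw [hval, ha1 i hi]
    refine (star _ hγ10 g hg (dh i) (hdh i hi) _ hk4 y hy (dy i) (hdy i hi) hyA ?_).symm
    rw [← hde i hi]
    exact e2
  · intro hne
    have hyA : y ∉ A p1 := by
      by_cases hp : p = p1
      · exact fun hh => hne ⟨hp, hh⟩
      · exact hA2 p1 p (Ne.symm hp) y hy
    have hi : h i ∉ A p1 := fun hh => hyA (hmem.2 hh)
    rw [hval, ha0 i hi, map_zero]

end Pool.Agent.GP
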