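import Pool.Agent.Lib.GP.Spec2

/-!
# Theorem GP: Int, interpolation (author helper53)
-/

set_option autoImplicit false

open IsDedekindDomain Matrix MeasureTheory

noncomputable section

namespace Pool.Agent.GP

private lemma Int_wt_pos {Γ Gf ι : Type} [Group Γ] [Group Gf] (jf : Γ →* Gf) (K : Subgroup Gf)
    (Γ1 : Subgroup Γ) (h : ι → Gf) (hd : FD jf K Γ1 h) (i : ι) :
    0 < wt jf K Γ1 h i := by
  have h1 : Finite {γ : Γ // γ ∈ Γ1 ∧ γ ∈ tr jf K (h i) (h i)} :=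
    ((hd.fin (h i) (h i)).subset (fun γ hγ => hγ.2 : {γ | γ ∈ Γ1 ∧ γ ∈ tr jf K (h i) (h i)} ⊆
      tr jf K (h i) (h i))).to_subtype
  have h2 : Nonempty {γ : Γ // γ ∈ Γ1 ∧ γ ∈ tr jf K (h i) (h i)} := by
    refine ⟨1, Γ1.one_mem, ?_⟩
    change (h i)⁻¹ * (jf 1 * h i) ∈ K
    rw [map_one, one_mul, inv_mul_cancel]
    exact K.one_mem
  have h3 : 0 < st Γ1 jf K (h i) := Nat.card_pos
  have h4 : (0 : ℝ) < (st Γ1 jf K (h i) : ℕ) := by exact_mod_cast h3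
  exact inv_pos.2 h4

theorem tInt : S_Int := by
  intro hNull Γ G Gf V ι _ _ _ _ _ _ _ _ ja jf K Γ1 h ρ P hd β hP hβ hlt hinv a ha
  have hw := Int_wt_pos jf K Γ1 h hd
  -- the null space is zero
  have hnul : Nul ja jf K Γ1 h ρ P = ⊥ := by
    have h1 := hNull Γ G Gf V ι ja jf K Γ1 h ρ P hd β hP hβ
    have h2 : (Module.finrank ℂ (Nul ja jf K Γ1 h ρ P) : ℝ) < 1 := lt_of_le_of_lt h1 hlt
    have h3 : Module.finrank ℂ (Nul ja jf K Γ1 h ρ P) < 1 := by exact_mod_cast h2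
    exact Submodule.finrank_eq_zero.1 (by omega)
  let s : ι → ℝ := fun i => Real.sqrt (wt jf K Γ1 h i)
  have hs0 : ∀ i, 0 < s i := fun i => Real.sqrt_pos.2 (hw i)
  have hss : ∀ i, s i * s i = wt jf K Γ1 h i := fun i => Real.mul_self_sqrt (hw i).le
  let L : (ι → V) →ₗ[ℂ] PiLp 2 (fun _ : ι => V) :=
    (WithLp.linearEquiv 2 ℂ (ι → V)).symm.toLinearMap ∘ₗ
      LinearMap.pi (fun i => ((s i : ℝ) : ℂ) • LinearMap.proj i)
  have hL : ∀ (a : ι → V) (i : ι), (L a) i = ((s i : ℝ) : ℂ) • a i := fun a i => rfl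
  -- the evaluation map
  let E : MV ja jf K ρ →ₗ[ℂ] (ι → V) :=
    LinearMap.pi (fun i => P ∘ₗ (LinearMap.proj (h i)) ∘ₗ (MV ja jf K ρ).subtype)
  have hE : ∀ (f : MV ja jf K ρ) (i : ι), E f i = P (f.1 (h i)) := fun f i => rfl
  have hEI : ∀ f : MV ja jf K ρ, E f ∈ Inv1 ja jf K Γ1 h ρ P := by
    intro f i
    refine ⟨by rw [hE, hP.idem], fun γ hγ hg => ?_⟩
    rw [hE]
    exact hinv i f.1 f.2 γ hγ hg
  let R : Submodule ℂ (PiLp 2 (fun _ : ι => V)) := (LinearMap.range E).map L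
  obtain ⟨r, hr, t, ht, hrt⟩ := Submodule.exists_add_mem_mem_orthogonal (K := R) (L a)
  obtain ⟨r', ⟨f, rfl⟩, hfr⟩ := hr
  have ht' : t = L (a - E f) := by
    rw [map_sub, hfr, hrt, add_sub_cancel_left]
  have hz : a - E f ∈ Nul ja jf K Γ1 h ρ P := by
    refine ⟨Submodule.sub_mem _ ha (hEI f), fun f' hf' => ?_⟩
    have h1 : inner ℂ (L (E ⟨f', hf'⟩)) t = 0 :=
      (Submodule.mem_orthogonal R t).1 ht _ ⟨E ⟨f', hf'⟩, ⟨⟨f', hf'⟩, rfl⟩, rfl⟩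
    rw [ht', PiLp.inner_apply] at h1
    rw [← h1]
    refine Finset.sum_congr rfl fun i _ => ?_
    have h2 : P ((a - E f) i) = (a - E f) i := by
      rw [Pi.sub_apply, map_sub, (ha i).1, (hEI f i).1]
    rw [hL, hL, inner_smul_left, inner_smul_right, Complex.conj_ofReal, ← mul_assoc, ← hss i, hE,
      hP.adj, h2]
    push_cast
    ring
  rw [hnul, Submodule.mem_bot] at hz
  refine ⟨f.1, f.2, fun i => ?_⟩
  have h3 : (a - E f) i = 0 := by rw [hz]; rfl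
  rw [Pi.sub_apply, sub_eq_zero] at h3
  rw [h3, hE]

end Pool.Agent.GP
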