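import Pool.Agent.Lib.GP.Spec2

/-!
# Theorem GP, second part: module LT (independence of the functionals)
-/

set_option autoImplicit false

open IsDedekindDomain Matrix MeasureTheory

noncomputable section

namespace Pool.Agent.GP

private theorem LT_inner_Hk {Gf V : Type} [Group Gf] [NormedAddCommGroup V] [InnerProductSpace ℂ V]
    (K : Subgroup Gf) (𝒞 : Set (Gf ⧸ K)) [Fintype 𝒞] (f : Gf → V) (g : Gf) (u : V) :
    inner ℂ (Hk K 𝒞 f g) u = ∑ c : 𝒞, inner ℂ (f (g * Quotient.out c.1)) u := by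
  unfold Hk
  rw [finsum_eq_sum_of_fintype, sum_inner]

theorem tLT : S_LT := by
  intro Γ G Gf V P0 ι _ _ _ _ _ _ _ _ _ ja jf K ΓH Hf ρ P S A F z w hP hz hw hcov hfin hex hA hF hPF hne hf α hα p1
  classical
  obtain ⟨f, hfM, hfp⟩ := hf p1
  -- right invariance
  have hK : ∀ g, ∀ k ∈ K, f (g * k) = f g := by
    intro g k hk
    have h := hfM 1 g k hk
    rw [map_one, one_mul, map_one, map_one] at h
    exact h
  have hval : ∀ (p : P0) (i : ι) (c : Gf ⧸ K), c ∈ cs K (S p) →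
      inner ℂ (f (z i * Quotient.out c)) (F (z i)) =
        if p = p1 ∧ Quotient.out c ∈ A p1 then inner ℂ (F (z i)) (F (z i)) else 0 := by
    rintro p i c ⟨y, hy, rfl⟩
    obtain ⟨k, hk⟩ := QuotientGroup.mk_out_eq_mul K y
    have e1 : Quotient.out (y : Gf ⧸ K) = y * (k : Gf) := hk
    rw [e1, ← mul_assoc, hK _ _ k.2, hA p1 y k k.2, ← hPF (z i) (hz i), ← hP.adj]
    split_ifs with h
    · rw [(hfp p (z i) (hz i) y hy).1 h, hPF (z i) (hz i)]
    · rw [(hfp p (z i) (hz i) y hy).2 h, inner_zero_left]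
  have : ∀ p, Fintype (cs K (S p)) := fun p => (hfin p).fintype
  have hT : ∀ (p : P0) (i : ι), inner ℂ (Hk K (cs K (S p)) f (z i)) (F (z i)) =
      if p = p1 then (((Finset.univ.filter fun c : cs K (S p1) => Quotient.out c.1 ∈ A p1).card : ℂ) *
        inner ℂ (F (z i)) (F (z i))) else 0 := by
    intro p i
    rw [LT_inner_Hk]
    by_cases hp : p = p1
    · subst hp
      rw [if_pos rfl, Finset.sum_congr rfl (fun c _ => hval p i c.1 c.2)]
      simp only [true_and]
      rw [← Finset.sum_filter, Finset.sum_const, nsmul_eq_mul]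
    · rw [if_neg hp]
      refine Finset.sum_eq_zero fun c _ => ?_
      rw [hval p i c.1 c.2, if_neg (fun h => hp h.1)]
  have h0 := hα f hfM
  have h1 : ∀ i, inner ℂ (∑ p, α p • Hk K (cs K (S p)) f (z i)) (F (z i)) =
      (starRingEnd ℂ) (α p1) * (((Finset.univ.filter fun c : cs K (S p1) => Quotient.out c.1 ∈ A p1).card : ℂ) *
        inner ℂ (F (z i)) (F (z i))) := by
    intro i
    rw [sum_inner, Finset.sum_eq_single p1]
    · rw [inner_smul_left, hT, if_pos rfl]
    · intro p _ hp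
      rw [inner_smul_left, hT, if_neg hp, mul_zero]
    · intro h
      exact absurd (Finset.mem_univ _) h
  have h2 : (starRingEnd ℂ) (α p1) * (((Finset.univ.filter fun c : cs K (S p1) => Quotient.out c.1 ∈ A p1).card : ℂ) *
      ((∑ i, w i * ‖F (z i)‖ ^ 2 : ℝ) : ℂ)) = 0 := by
    rw [← h0]
    push_cast
    rw [Finset.mul_sum, Finset.mul_sum]
    have e : ∀ i, ((∑ p, α p • Hk K (cs K (S p)) f) (z i)) = ∑ p, α p • Hk K (cs K (S p)) f (z i) := fun i => by
      simp [Finset.sum_apply]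
    refine Finset.sum_congr rfl fun i _ => ?_
    rw [h1 i, inner_self_eq_norm_sq_to_K]
    simp only [Complex.coe_algebraMap]
    ring
  have hn : 0 < (Finset.univ.filter fun c : cs K (S p1) => Quotient.out c.1 ∈ A p1).card := by
    obtain ⟨y, hy, hyA⟩ := hex p1
    refine Finset.card_pos.2 ⟨⟨(y : Gf ⧸ K), y, hy, rfl⟩, ?_⟩
    rw [Finset.mem_filter]
    refine ⟨Finset.mem_univ _, ?_⟩
    obtain ⟨k, hk⟩ := QuotientGroup.mk_out_eq_mul K y
    change Quotient.out (y : Gf ⧸ K) ∈ A p1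
    have e1 : Quotient.out (y : Gf ⧸ K) = y * (k : Gf) := hk
    rw [e1]
    exact (hA p1 y k k.2).2 hyA
  have hs : 0 < ∑ i, w i * ‖F (z i)‖ ^ 2 := by
    obtain ⟨h, hh, hFh⟩ := hne
    obtain ⟨i, γ, hγ, κ, hκ, hκH, e⟩ := hcov h hh
    refine Finset.sum_pos' (fun j _ => mul_nonneg (hw j).le (sq_nonneg _)) ⟨i, Finset.mem_univ i, ?_⟩
    refine mul_pos (hw i) (pow_pos (norm_pos_iff.2 fun h0 => hFh ?_) 2)
    rw [e, hF γ hγ (z i) (hz i) κ hκ hκH, h0, map_zero]
  rw [← mul_assoc] at h2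
  rcases mul_eq_zero.1 h2 with h3 | h3
  · rcases mul_eq_zero.1 h3 with h4 | h4
    · exact (map_eq_zero _).1 h4
    · exact absurd h4 (by exact_mod_cast hn.ne')
  · exact absurd h3 (by exact_mod_cast hs.ne')

end Pool.Agent.GP
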