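import Pool.Agent.Lib.GP.Spec2

/-!
# Theorem GPE, module Mn: integrality of `2 × 2` minors of products (helper28)
-/

set_option autoImplicit false

open IsDedekindDomain Matrix MeasureTheory

noncomputable section

namespace Pool.Agent.GP

private def MnP {N : ℕ} {R : Type} [CommRing R] (O : Subring R) (t : R) (Z : Matrix (Fin N) (Fin N) R) : Prop :=
  (∀ i j, t * Z i j ∈ O) ∧ ∀ i j k l, t * (Z i j * Z k l - Z i l * Z k j) ∈ O

private theorem Mn_left {N : ℕ} {R : Type} [CommRing R] {O : Subring R} {t : R}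
    {A Z : Matrix (Fin N) (Fin N) R} (hA : ∀ i j, A i j ∈ O) (h : MnP O t Z) : MnP O t (A * Z) := by
  refine ⟨fun i j => ?_, fun i j k l => ?_⟩
  · rw [Matrix.mul_apply, Finset.mul_sum]
    refine O.sum_mem fun a _ => ?_
    have e : t * (A i a * Z a j) = A i a * (t * Z a j) := by ring
    rw [e]
    exact O.mul_mem (hA i a) (h.1 a j)
  · have e : t * ((A * Z) i j * (A * Z) k l - (A * Z) i l * (A * Z) k j) =
        ∑ a, ∑ c, A i a * A k c * (t * (Z a j * Z c l - Z a l * Z c j)) := by
      rw [Matrix.mul_apply, Matrix.mul_apply, Matrix.mul_apply, Matrix.mul_apply,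
        Finset.sum_mul_sum, Finset.sum_mul_sum, ← Finset.sum_sub_distrib, Finset.mul_sum]
      refine Finset.sum_congr rfl fun a _ => ?_
      rw [← Finset.sum_sub_distrib, Finset.mul_sum]
      exact Finset.sum_congr rfl fun c _ => by ring
    rw [e]
    exact O.sum_mem fun a _ => O.sum_mem fun c _ =>
      O.mul_mem (O.mul_mem (hA i a) (hA k c)) (h.2 a j c l)

private theorem Mn_tr {N : ℕ} {R : Type} [CommRing R] {O : Subring R} {t : R}
    {Z : Matrix (Fin N) (Fin N) R} (h : MnP O t Z) : MnP O t Zᵀ := by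
  refine ⟨fun i j => h.1 j i, fun i j k l => ?_⟩
  have e : t * (Zᵀ i j * Zᵀ k l - Zᵀ i l * Zᵀ k j) = t * (Z j i * Z l k - Z j k * Z l i) := by
    simp only [Matrix.transpose_apply]
    ring
  rw [e]
  exact h.2 j i l k

theorem tMn : S_Mn := by
  intro N R _ O t A Y B hA hB h1 h2
  have h3 : MnP O t (A * Y) := Mn_left hA ⟨h1, h2⟩
  have h4 : MnP O t (Bᵀ * (A * Y)ᵀ) := Mn_left (fun i j => hB j i) (Mn_tr h3)
  have h5 := Mn_tr h4
  rw [← Matrix.transpose_mul, Matrix.transpose_transpose] at h5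
  exact h5

end Pool.Agent.GP
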