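import Pool.Agent.Lib.GP.Spec2

/-!
# Theorem GP, module NbE: a neighbour of depth one exists (helper27)
-/

set_option autoImplicit false

open IsDedekindDomain Matrix MeasureTheory

noncomputable section

namespace Pool.Agent.GP

/-- The embedding of the rationals in the completion. -/
private abbrev NbE_i (p : Nat.Primes) : ℚ →+* (vp p).adicCompletion ℚ :=
  algebraMap ℚ ((vp p).adicCompletion ℚ)

/-- The rationals integral at `p`. -/
private def NbE_S (p : Nat.Primes) : Subring ℚ :=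
  ((vp p).adicCompletionIntegers ℚ).toSubring.comap (NbE_i p)

private lemma NbE_mem (p : Nat.Primes) (q : ℚ) :
    q ∈ NbE_S p ↔ NbE_i p q ∈ (vp p).adicCompletionIntegers ℚ := Iff.rfl

private lemma NbE_den (p : Nat.Primes) (q : ℚ) : q ∈ NbE_S p ↔ ¬ (p : ℕ) ∣ q.den := by
  rw [NbE_mem, HeightOneSpectrum.mem_adicCompletionIntegers]
  have h' : Valued.v (NbE_i p q) = (vp p).valuation ℚ q :=
    HeightOneSpectrum.valuedAdicCompletion_eq_valuation' (vp p) q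
  rw [h', Rat.valuation_le_one_iff_den]
  rw [show (vp p).asIdeal = Ideal.span {((p : ℕ) : ℤ)} from rfl, Ideal.mem_span_singleton]
  exact not_congr Int.natCast_dvd_natCast

private lemma NbE_val (p : Nat.Primes) (q : ℚ) :
    q ∈ NbE_S p ↔ 0 ≤ padicValRat p q := by
  haveI : Fact (p : ℕ).Prime := ⟨p.2⟩
  rw [NbE_den]
  unfold padicValRat
  constructor
  · intro h
    rw [padicValNat.eq_zero_of_not_dvd h]
    simp
  · intro h hd
    have hn : ¬ (p : ℕ) ∣ q.num.natAbs := by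
      intro hn
      have := Nat.dvd_gcd hn hd
      rw [q.reduced.gcd_eq_one] at this
      exact p.2.one_lt.ne' (Nat.dvd_one.1 this)
    have h1 : padicValInt p q.num = 0 := padicValNat.eq_zero_of_not_dvd hn
    have h2 : 1 ≤ padicValNat p q.den := one_le_padicValNat_of_dvd q.den_nz hd
    rw [h1] at h
    generalize padicValNat (p : ℕ) q.den = t at h h2
    omega

theorem tNbE : S_NbE := by
  intro hVec hRf hCmp hMn N Q e K p hN hsym hdet hG
  haveI : Fact (p : ℕ).Prime := ⟨p.2⟩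
  have hp0 : ((p : ℕ) : ℚ) ≠ 0 := by exact_mod_cast p.2.ne_zero
  obtain ⟨u, m, hu, -, hquv, heu, heu0, hqu0, -, -, -⟩ :=
    hVec N Q e p p.2 hG.odd hN hsym hdet hG.q1 hG.q2 hG.e1 hG.e2
  have hqe0 : e ⬝ᵥ (Q *ᵥ e) ≠ 0 := by
    intro h
    apply hG.e2
    rw [h]
    simp
  obtain ⟨S, hSm, hSd, hSv⟩ : ∃ S : Subring ℚ,
      (∀ q, q ∈ S ↔ NbE_i p q ∈ (vp p).adicCompletionIntegers ℚ) ∧
      (∀ q, q ∈ S ↔ ¬ (p : ℕ) ∣ q.den) ∧ (∀ q, q ∈ S ↔ 0 ≤ padicValRat p q) :=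
    ⟨NbE_S p, NbE_mem p, NbE_den p, NbE_val p⟩
  have hQS : ∀ i j, Q i j ∈ S := fun i j => (hSd _).2 (hG.q1 i j)
  have heS : ∀ i, e i ∈ S := fun i => (hSd _).2 (hG.e1 i)
  have huS : ∀ i, u i ∈ S := fun i => (hSd _).2 (hu i)
  have hmv : ∀ (A : Matrix (Fin N) (Fin N) ℚ) (x : Fin N → ℚ), (∀ i j, A i j ∈ S) → (∀ i, x i ∈ S) →
      ∀ i, (A *ᵥ x) i ∈ S := by
    intro A x hA hx i
    have h1 : (A *ᵥ x) i = ∑ j, A i j * x j := rfl
    rw [h1]
    exact S.sum_mem fun j _ => S.mul_mem (hA i j) (hx j)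
  have hQe : ∀ i, (Q *ᵥ e) i ∈ S := hmv Q e hQS heS
  have hQu : ∀ i, (Q *ᵥ u) i ∈ S := hmv Q u hQS huS
  have h2v : padicValRat p (2 : ℚ) = 0 := by
    have : ((2 : ℕ) : ℚ) = 2 := by norm_num
    rw [← this, padicValRat.of_nat]
    have hnd : ¬ (p : ℕ) ∣ 2 := by
      intro h
      exact hG.odd ((Nat.prime_dvd_prime_iff_eq p.2 Nat.prime_two).1 h)
    rw [padicValNat.eq_zero_of_not_dvd hnd]
    rfl
  have hpv : padicValRat p ((p : ℕ) : ℚ) = 1 := padicValRat.self p.2.one_lt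
  -- the constant of the reflection at `e`
  have hqeS : e ⬝ᵥ (Q *ᵥ e) ∈ S := by
    rw [dotProduct]
    exact S.sum_mem fun i _ => S.mul_mem (heS i) (hQe i)
  have hqev : padicValRat p (e ⬝ᵥ (Q *ᵥ e)) = 0 := by
    have h1 : ¬ (p : ℕ) ∣ (e ⬝ᵥ (Q *ᵥ e)).den := (hSd _).1 hqeS
    unfold padicValRat
    rw [padicValNat.eq_zero_of_not_dvd h1]
    have h2 : padicValInt p (e ⬝ᵥ (Q *ᵥ e)).num = 0 := by
      apply padicValNat.eq_zero_of_not_dvd
      intro h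
      exact hG.e2 (Int.natCast_dvd.2 h)
    rw [h2]
    rfl
  have hce : 2 / (e ⬝ᵥ (Q *ᵥ e)) ∈ S := by
    rw [hSv, padicValRat.div two_ne_zero hqe0, h2v, hqev]
    simp
  have hrfe : ∀ i j, rf Q e i j ∈ S := by
    intro i j
    have h1 : rf Q e i j = (1 : Matrix (Fin N) (Fin N) ℚ) i j -
        2 / (e ⬝ᵥ (Q *ᵥ e)) * (e i * (Q *ᵥ e) j) := rfl
    rw [h1]
    refine S.sub_mem ?_ (S.mul_mem hce (S.mul_mem (heS i) (hQe j)))
    rw [Matrix.one_apply]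
    split_ifs
    · exact S.one_mem
    · exact S.zero_mem
  -- the constant of the reflection at `u`
  set c : ℚ := 2 / (u ⬝ᵥ (Q *ᵥ u)) with hc
  have hpc : ((p : ℕ) : ℚ) * c ∈ S := by
    rw [hSv, padicValRat.mul hp0 (div_ne_zero two_ne_zero hqu0),
      padicValRat.div two_ne_zero hqu0, h2v, hquv, hpv]
    norm_num
  have hpS : ((p : ℕ) : ℚ) ∈ S := natCast_mem S _
  have hrfu : ∀ i j, rf Q u i j = (1 : Matrix (Fin N) (Fin N) ℚ) i j - c * (u i * (Q *ᵥ u) j) :=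
    fun i j => rfl
  have hone : ∀ i j, (1 : Matrix (Fin N) (Fin N) ℚ) i j ∈ S := by
    intro i j
    rw [Matrix.one_apply]
    split_ifs
    · exact S.one_mem
    · exact S.zero_mem
  have hm1 : ∀ i j, ((p : ℕ) : ℚ) * rf Q u i j ∈ S := by
    intro i j
    have h1 : ((p : ℕ) : ℚ) * rf Q u i j = ((p : ℕ) : ℚ) * (1 : Matrix (Fin N) (Fin N) ℚ) i j -
        (((p : ℕ) : ℚ) * c) * (u i * (Q *ᵥ u) j) := by
      rw [hrfu]; ring
    rw [h1]
    exact S.sub_mem (S.mul_mem hpS (hone i j)) (S.mul_mem hpc (S.mul_mem (huS i) (hQu j)))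
  have hm2 : ∀ i j k l, ((p : ℕ) : ℚ) * (rf Q u i j * rf Q u k l - rf Q u i l * rf Q u k j) ∈ S := by
    intro i j k l
    have h1 : ((p : ℕ) : ℚ) * (rf Q u i j * rf Q u k l - rf Q u i l * rf Q u k j) =
        ((p : ℕ) : ℚ) * ((1 : Matrix (Fin N) (Fin N) ℚ) i j * (1 : Matrix (Fin N) (Fin N) ℚ) k l -
          (1 : Matrix (Fin N) (Fin N) ℚ) i l * (1 : Matrix (Fin N) (Fin N) ℚ) k j) -
        (((p : ℕ) : ℚ) * c) * ((1 : Matrix (Fin N) (Fin N) ℚ) i j * (u k * (Q *ᵥ u) l) +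
          (1 : Matrix (Fin N) (Fin N) ℚ) k l * (u i * (Q *ᵥ u) j) -
          (1 : Matrix (Fin N) (Fin N) ℚ) i l * (u k * (Q *ᵥ u) j) -
          (1 : Matrix (Fin N) (Fin N) ℚ) k j * (u i * (Q *ᵥ u) l)) := by
      simp only [hrfu]; ring
    rw [h1]
    refine S.sub_mem (S.mul_mem hpS (S.sub_mem (S.mul_mem (hone _ _) (hone _ _))
      (S.mul_mem (hone _ _) (hone _ _)))) (S.mul_mem hpc ?_)
    exact S.sub_mem (S.sub_mem (S.add_mem (S.mul_mem (hone _ _) (S.mul_mem (huS _) (hQu _)))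
      (S.mul_mem (hone _ _) (S.mul_mem (huS _) (hQu _))))
      (S.mul_mem (hone _ _) (S.mul_mem (huS _) (hQu _))))
      (S.mul_mem (hone _ _) (S.mul_mem (huS _) (hQu _)))
  obtain ⟨-, hrfuv, γ, hγ, hγi⟩ := hRf N Q u e hsym hqu0 hqe0
  obtain ⟨-, hrfev, -⟩ := hRf N Q e u hsym hqe0 hqu0
  have hee : rf Q e * rf Q e = 1 := (hRf N Q e u hsym hqe0 hqu0).1
  obtain ⟨hM1, hM2⟩ := hMn N ℚ S ((p : ℕ) : ℚ) 1 (rf Q u) (rf Q e) hone hrfe hm1 hm2
  rw [Matrix.one_mul, ← hγ] at hM1 hM2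
  obtain ⟨y, hyL, hyE⟩ := hCmp N Q p (jG Q Af γ)
  -- components
  have hcomp : ∀ i j, (y.1.1 i j) (vp p) = NbE_i p (γ.1.1 i j) := by
    intro i j
    have h1 := congrArg (fun z : SpecialLinearGroup (Fin N) ((vp p).adicCompletion ℚ) => z.1 i j) hyE
    exact h1
  have hcomi : ∀ i j, ((y⁻¹).1.1 i j) (vp p) = NbE_i p ((γ⁻¹).1.1 i j) := by
    intro i j
    have hyE' : evG Q (vp p) y⁻¹ = evG Q (vp p) (jG Q Af γ⁻¹) := by
      rw [map_inv, hyE, map_inv, map_inv]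
    have h1 := congrArg (fun z : SpecialLinearGroup (Fin N) ((vp p).adicCompletion ℚ) => z.1 i j) hyE'
    exact h1
  have hcomo : ∀ v : HeightOneSpectrum ℤ, v ≠ vp p → ∀ i j,
      (y.1.1 i j) v = (1 : Matrix (Fin N) (Fin N) (v.adicCompletion ℚ)) i j := by
    intro v hv i j
    have h1 := congrArg (fun z : SpecialLinearGroup (Fin N) (v.adicCompletion ℚ) => z.1 i j) (hyL v hv)
    exact h1
  have honev : ∀ (v : HeightOneSpectrum ℤ) (i j : Fin N),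
      (1 : Matrix (Fin N) (Fin N) (v.adicCompletion ℚ)) i j ∈ v.adicCompletionIntegers ℚ := by
    intro v i j
    rw [Matrix.one_apply]
    split_ifs
    · exact (v.adicCompletionIntegers ℚ).one_mem
    · exact (v.adicCompletionIntegers ℚ).zero_mem
  have hpAf : ∀ v : HeightOneSpectrum ℤ, (((p : ℕ) : Af)) v = ((p : ℕ) : v.adicCompletion ℚ) := by
    intro v
    exact map_natCast (ev v) _
  have hpv' : ∀ v : HeightOneSpectrum ℤ,
      ((p : ℕ) : v.adicCompletion ℚ) ∈ v.adicCompletionIntegers ℚ :=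
    fun v => natCast_mem (v.adicCompletionIntegers ℚ) _
  have hpi : NbE_i p ((p : ℕ) : ℚ) = ((p : ℕ) : (vp p).adicCompletion ℚ) := map_natCast _ _
  refine ⟨y, ⟨hyL, ?_, ?_⟩, ?_⟩
  · intro i j v
    change (((p : ℕ) : Af)) v * (y.1.1 i j) v ∈ v.adicCompletionIntegers ℚ
    rw [hpAf]
    by_cases hv : v = vp p
    · subst hv
      rw [hcomp, ← hpi, ← map_mul]
      exact (hSm _).1 (hM1 i j)
    · rw [hcomo v hv]
      exact (v.adicCompletionIntegers ℚ).mul_mem _ _ (hpv' v) (honev v i j)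
  · intro i j k l v
    change (((p : ℕ) : Af)) v * ((y.1.1 i j) v * (y.1.1 k l) v - (y.1.1 i l) v * (y.1.1 k j) v) ∈
      v.adicCompletionIntegers ℚ
    rw [hpAf]
    by_cases hv : v = vp p
    · subst hv
      rw [hcomp, hcomp, hcomp, hcomp, ← hpi, ← map_mul, ← map_mul, ← map_sub, ← map_mul]
      exact (hSm _).1 (hM2 i j k l)
    · rw [hcomo v hv, hcomo v hv, hcomo v hv, hcomo v hv]
      exact (v.adicCompletionIntegers ℚ).mul_mem _ _ (hpv' v)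
        ((v.adicCompletionIntegers ℚ).toSubring.sub_mem
          ((v.adicCompletionIntegers ℚ).mul_mem _ _ (honev v _ _) (honev v _ _))
          ((v.adicCompletionIntegers ℚ).mul_mem _ _ (honev v _ _) (honev v _ _)))
  · by_contra hcon
    have hall : ∀ i, (((y⁻¹).1.1 *ᵥ ve e Af) i) (vp p) ∈ (vp p).adicCompletionIntegers ℚ := by
      intro i
      by_contra h
      exact hcon ⟨i, h⟩
    have hz : ∀ i, ((γ⁻¹).1.1 *ᵥ e) i ∈ S := by
      intro i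
      rw [hSm]
      have h1 : (((y⁻¹).1.1 *ᵥ ve e Af) i) (vp p) = NbE_i p (((γ⁻¹).1.1 *ᵥ e) i) := by
        have h2 : (((y⁻¹).1.1 *ᵥ ve e Af) i) (vp p) =
            ev (vp p) (∑ j, (y⁻¹).1.1 i j * ve e Af j) := rfl
        rw [h2, map_sum]
        have h3 : ((γ⁻¹).1.1 *ᵥ e) i = ∑ j, (γ⁻¹).1.1 i j * e j := rfl
        rw [h3, map_sum]
        refine Finset.sum_congr rfl fun j _ => ?_
        rw [map_mul, map_mul]
        have h4 : ev (vp p) ((y⁻¹).1.1 i j) = NbE_i p ((γ⁻¹).1.1 i j) := hcomi i j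
        have h5 : ev (vp p) (ve e Af j) = NbE_i p (e j) := rfl
        rw [h4, h5]
      rw [← h1]
      exact hall i
    have hz2 : ∀ i, (rf Q e *ᵥ ((γ⁻¹).1.1 *ᵥ e)) i ∈ S := hmv _ _ hrfe hz
    have hz3 : rf Q e *ᵥ ((γ⁻¹).1.1 *ᵥ e) = e - (2 * (u ⬝ᵥ (Q *ᵥ e)) / (u ⬝ᵥ (Q *ᵥ u))) • u := by
      rw [hγi, Matrix.mulVec_mulVec, ← Matrix.mul_assoc, hee, Matrix.one_mul, hrfuv]
    rw [hz3] at hz2
    set k : ℚ := 2 * (u ⬝ᵥ (Q *ᵥ e)) / (u ⬝ᵥ (Q *ᵥ u)) with hk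
    have hku : ∀ i, k * u i ∈ S := by
      intro i
      have h1 := S.sub_mem (heS i) (hz2 i)
      have h2 : e i - (e - k • u) i = k * u i := by
        simp
      rwa [h2] at h1
    have hsw : u ⬝ᵥ (Q *ᵥ e) = e ⬝ᵥ (Q *ᵥ u) := by
      rw [dotProduct_mulVec, ← mulVec_transpose, hsym.eq, dotProduct_comm]
    have hkue : k * (u ⬝ᵥ (Q *ᵥ e)) ∈ S := by
      have h1 : k * (u ⬝ᵥ (Q *ᵥ e)) = ∑ i, (k * u i) * (Q *ᵥ e) i := by
        rw [dotProduct, Finset.mul_sum]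
        exact Finset.sum_congr rfl fun i _ => by ring
      rw [h1]
      exact S.sum_mem fun i _ => S.mul_mem (hku i) (hQe i)
    have h0 : u ⬝ᵥ (Q *ᵥ e) ≠ 0 := by rw [hsw]; exact heu0
    have hv0 : padicValRat p (u ⬝ᵥ (Q *ᵥ e)) = 0 := by rw [hsw]; exact heu
    rw [hSv, padicValRat.mul (div_ne_zero (mul_ne_zero two_ne_zero h0) hqu0) h0,
      padicValRat.div (mul_ne_zero two_ne_zero h0) hqu0, padicValRat.mul two_ne_zero h0,
      h2v, hv0, hquv] at hkue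
    norm_num at hkue

end Pool.Agent.GP
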