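import Pool.Agent.Lib.GP.Spec2

/-!
# Theorem GP, second part: finitely many neighbours (NbF)
-/

set_option autoImplicit false

open IsDedekindDomain Matrix MeasureTheory

noncomputable section

namespace Pool.Agent.GP

/-- Residues modulo `m` of integral adeles. -/
private theorem NbF_res (h2 : C_AD2) (h3 : C_AD3) (m : ℕ) (hm : 0 < m) (a : Af) (ha : a ∈ Zh) :
    ∃ (r : Fin m) (z : Af), z ∈ Zh ∧ a = ((r : ℕ) : Af) + (m : Af) * z := by
  obtain ⟨q, z, hz, hq⟩ := h3 a m hm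
  have hqz : algebraMap ℚ Af q ∈ Zh := by
    have e : algebraMap ℚ Af q = a - (m : Af) * z := by
      rw [hq]
      ring
    rw [e]
    exact Zh.sub_mem ha (Zh.mul_mem (natCast_mem Zh m) hz)
  obtain ⟨n, hn⟩ := h2 q hqz
  have hm' : (m : ℤ) ≠ 0 := by exact_mod_cast hm.ne'
  have hr0 : 0 ≤ n % m := Int.emod_nonneg n hm'
  have hr1 : n % m < m := Int.emod_lt_of_pos n (by exact_mod_cast hm)
  have hlt : (n % m).toNat < m := by omega
  refine ⟨⟨(n % m).toNat, hlt⟩, ((n / m : ℤ) : Af) + z, Zh.add_mem (intCast_mem Zh _) hz, ?_⟩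
  have e1 : (((n % m).toNat : ℕ) : Af) = ((n % m : ℤ) : Af) := by
    rw [← Int.cast_natCast, Int.toNat_of_nonneg hr0]
  have e2 : algebraMap ℚ Af q = ((n : ℤ) : Af) := by
    rw [hn, map_intCast]
  have e3 : ((n : ℤ) : Af) = ((n % m : ℤ) : Af) + (m : Af) * ((n / m : ℤ) : Af) := by
    have := Int.emod_add_mul_ediv n m
    conv_lhs => rw [← this]
    push_cast
    ring
  change a = (((n % m).toNat : ℕ) : Af) + _
  rw [hq, e2, e1, e3]
  ring

/-- **NbF.** Finitely many neighbours. -/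
theorem tNbF : S_NbF := by
  intro h2 h3 N Q e K p hG hinv
  have hp0 : (p : ℕ) ≠ 0 := p.2.ne_zero
  have hpos : 0 < (p : ℕ) ^ 2 := by positivity
  -- `p` is invertible in the adeles
  have hpinv : algebraMap ℚ Af (((p : ℕ) : ℚ)⁻¹) * (((p : ℕ) : ℕ) : Af) = 1 := by
    have hq : (((p : ℕ) : ℚ)) ≠ 0 := by exact_mod_cast hp0
    have e1 : (((p : ℕ) : ℕ) : Af) = algebraMap ℚ Af ((p : ℕ) : ℚ) := (map_natCast _ _).symm
    rw [e1, ← map_mul, inv_mul_cancel₀ hq, map_one]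
  -- residues
  have hres : ∀ y : Gp Q Af, y ∈ Nb Q p → ∀ i j : Fin N, ∃ (r : Fin ((p : ℕ) ^ 2)) (z : Af), z ∈ Zh ∧
      ((p : ℕ) : Af) * y.1.1 i j = ((r : ℕ) : Af) + (((p : ℕ) ^ 2 : ℕ) : Af) * z :=
    fun y hy i j => NbF_res h2 h3 ((p : ℕ) ^ 2) hpos _ (hy.2.1 i j)
  choose r z hz hr using hres
  -- the claim
  have claim : ∀ (y y' : Gp Q Af) (hy : y ∈ Nb Q p) (hy' : y' ∈ Nb Q p),
      (∀ i j, r y hy i j = r y' hy' i j) → y⁻¹ * y' ∈ K := by
    intro y y' hy hy' hrr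
    refine hG.k2 _ ((Loc Q p).mul_mem ((Loc Q p).inv_mem hy.1) hy'.1) ?_
    have hd : ∀ i j, y'.1.1 i j - y.1.1 i j = ((p : ℕ) : Af) * (z y' hy' i j - z y hy i j) := by
      intro i j
      have h1 := hr y hy i j
      have h2' := hr y' hy' i j
      rw [← hrr i j] at h2'
      have h3' : ((p : ℕ) : Af) * (y'.1.1 i j - y.1.1 i j) =
          ((p : ℕ) : Af) * (((p : ℕ) : Af) * (z y' hy' i j - z y hy i j)) := by
        rw [mul_sub, h1, h2']
        push_cast
        ring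
      have h4 := congrArg (fun t => algebraMap ℚ Af (((p : ℕ) : ℚ)⁻¹) * t) h3'
      simp only [← mul_assoc, hpinv, one_mul] at h4
      exact h4
    have hinvm := (hinv y hy).2.1
    have e1 : (y⁻¹).1.1 * y.1.1 = 1 := by
      have := congrArg (fun w : Gp Q Af => w.1.1) (inv_mul_cancel y)
      exact this
    intro i j
    have e2 : (y⁻¹ * y').1.1 = 1 + (y⁻¹).1.1 * (y'.1.1 - y.1.1) := by
      have e3 : (y⁻¹ * y').1.1 = (y⁻¹).1.1 * y'.1.1 := rfl
      rw [e3, Matrix.mul_sub, e1, add_sub_cancel]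
    rw [e2, Matrix.add_apply, Matrix.mul_apply]
    refine Zh.add_mem ?_ (Zh.sum_mem fun k _ => ?_)
    · rw [Matrix.one_apply]
      split_ifs
      · exact Zh.one_mem
      · exact Zh.zero_mem
    · have e4 : (y⁻¹).1.1 i k * (y'.1.1 - y.1.1) k j =
          (((p : ℕ) : Af) * (y⁻¹).1.1 i k) * (z y' hy' k j - z y hy k j) := by
        have e5 : (y'.1.1 - y.1.1) k j = y'.1.1 k j - y.1.1 k j := rfl
        rw [e5, hd k j]
        ring
      rw [e4]
      exact Zh.mul_mem (hinvm i k) (Zh.sub_mem (hz y' hy' k j) (hz y hy k j))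
  -- representatives
  have hrep : ∀ c : Cp Q K p, ∃ y : Gp Q Af, y ∈ Nb Q p ∧ c.1 = (y : Gp Q Af ⧸ K) := by
    rintro ⟨c, y, hy, hc⟩
    exact ⟨y, hy, hc⟩
  choose rep hrep1 hrep2 using hrep
  let F : Cp Q K p → (Fin N → Fin N → Fin ((p : ℕ) ^ 2)) := fun c i j => r (rep c) (hrep1 c) i j
  have hF : Function.Injective F := by
    intro c c' h
    have hK := claim (rep c) (rep c') (hrep1 c) (hrep1 c') fun i j => congrFun (congrFun h i) j
    apply Subtype.ext
    rw [hrep2 c, hrep2 c']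
    exact QuotientGroup.eq.2 hK
  have hfin : Finite (Cp Q K p) := Finite.of_injective F hF
  refine ⟨Set.toFinite _, ?_⟩
  have hcard := Nat.card_le_card_of_injective F hF
  rw [Nat.card_coe_set_eq] at hcard
  refine hcard.trans (le_of_eq ?_)
  rw [Nat.card_eq_fintype_card, Fintype.card_fun, Fintype.card_fun, Fintype.card_fin, Fintype.card_fin, ← pow_mul]

end Pool.Agent.GP
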