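import Pool.Agent.Lib.GP.Spec2

/-!
# Theorem GP, second part, module NbH: a neighbour of depth one determines the lattice of `H` (helper73)
-/

set_option autoImplicit false

open IsDedekindDomain Matrix MeasureTheory

noncomputable section

namespace Pool.Agent.GP

section local_part

variable {E : Type} [Field E] {N : ℕ} {O : Subring E}

private theorem NbH_dot {x y : Fin N → E} (hx : ∀ i, x i ∈ O) (hy : ∀ i, y i ∈ O) : x ⬝ᵥ y ∈ O :=
  O.sum_mem fun i _ => O.mul_mem (hx i) (hy i)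

private theorem NbH_mv {A : Matrix (Fin N) (Fin N) E} {x : Fin N → E} (hA : ∀ i j, A i j ∈ O)
    (hx : ∀ i, x i ∈ O) (i : Fin N) : (A *ᵥ x) i ∈ O := NbH_dot (hA i) hx

private theorem NbH_pmv {t : E} {A : Matrix (Fin N) (Fin N) E} {x : Fin N → E} (hA : ∀ i j, t * A i j ∈ O)
    (hx : ∀ i, x i ∈ O) (i : Fin N) : t * (A *ᵥ x) i ∈ O := by
  have e : t * (A *ᵥ x) i = ∑ j, t * A i j * x j := by
    rw [Matrix.mulVec, dotProduct, Finset.mul_sum]
    exact Finset.sum_congr rfl fun j _ => (mul_assoc _ _ _).symm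
  rw [e]
  exact O.sum_mem fun j _ => O.mul_mem (hA i j) (hx j)

/-- Integrality of `t ((A x)_i (A y)_k - (A x)_k (A y)_i)`. -/
private theorem NbH_min {t : E} {A : Matrix (Fin N) (Fin N) E} {x y : Fin N → E}
    (hA : ∀ i j k l, t * (A i j * A k l - A i l * A k j) ∈ O) (hx : ∀ i, x i ∈ O) (hy : ∀ i, y i ∈ O)
    (i k : Fin N) : t * ((A *ᵥ x) i * (A *ᵥ y) k - (A *ᵥ x) k * (A *ᵥ y) i) ∈ O := by
  have e : t * ((A *ᵥ x) i * (A *ᵥ y) k - (A *ᵥ x) k * (A *ᵥ y) i) =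
      ∑ j, ∑ l, t * (A i j * A k l - A i l * A k j) * (x j * y l) := by
    simp only [Matrix.mulVec, dotProduct, Finset.sum_mul_sum]
    rw [← Finset.sum_sub_distrib, Finset.mul_sum]
    refine Finset.sum_congr rfl fun j _ => ?_
    rw [← Finset.sum_sub_distrib, Finset.mul_sum]
    refine Finset.sum_congr rfl fun l _ => ?_
    ring
  rw [e]
  exact O.sum_mem fun j _ => O.sum_mem fun l _ => O.mul_mem (hA i j k l) (O.mul_mem (hx j) (hy l))

/-- If `c = (t b)⁻¹ (t a)` then `a' - c b'` is integral. -/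
private theorem NbH_div {t a b a' b' : E} (ht : t ≠ 0) (hb : b ≠ 0) (hb' : (t * b)⁻¹ ∈ O)
    (h : t * (a' * b - a * b') ∈ O) : a' - (t * b)⁻¹ * (t * a) * b' ∈ O := by
  have e : a' - (t * b)⁻¹ * (t * a) * b' = (t * b)⁻¹ * (t * (a' * b - a * b')) := by
    field_simp
  rw [e]
  exact O.mul_mem hb' h

/-- **The local statement.** -/
private theorem NbH_loc (t : E) (ht : t ≠ 0) (hval : ∀ x : E, x ∉ O → t * x ∈ O → (t * x)⁻¹ ∈ O)
    (Q Q' h y z Y : Matrix (Fin N) (Fin N) E) (e : Fin N → E) (hQO : ∀ i j, Q i j ∈ O)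
    (hQO' : ∀ i j, Q' i j ∈ O) (hQQ : Q' * Q = 1) (hyz : y * z = 1) (hY : Y = h * y)
    (hhQ : hᵀ * Q * h = Q) (hYQ : Yᵀ * Q * Y = Q) (he : h *ᵥ e = e) (heO : ∀ i, e i ∈ O)
    (A1 : ∀ i j, t * z i j ∈ O) (A2 : ∀ i j k l, t * (z i j * z k l - z i l * z k j) ∈ O)
    (B1 : ∀ i j, t * Y i j ∈ O) (B2 : ∀ i j k l, t * (Y i j * Y k l - Y i l * Y k j) ∈ O)
    (j0 : Fin N) (hj0 : (z *ᵥ e) j0 ∉ O) : ∀ i j, h i j ∈ O := by
  have hw0 : (z *ᵥ e) j0 ≠ 0 := fun h0 => hj0 (by rw [h0]; exact O.zero_mem)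
  have hwi : (t * (z *ᵥ e) j0)⁻¹ ∈ O := hval _ hj0 (NbH_pmv A1 heO j0)
  -- (i)
  have s1 : ∀ x : Fin N → E, (∀ i, x i ∈ O) → ∃ c ∈ O, ∀ i, (z *ᵥ (x - c • e)) i ∈ O := by
    intro x hx
    refine ⟨(t * (z *ᵥ e) j0)⁻¹ * (t * (z *ᵥ x) j0), O.mul_mem hwi (NbH_pmv A1 hx j0), fun i => ?_⟩
    rw [Matrix.mulVec_sub, Matrix.mulVec_smul, Pi.sub_apply, Pi.smul_apply, smul_eq_mul]
    exact NbH_div ht hw0 hwi (NbH_min A2 hx heO i j0)
  -- adjunction
  have hadj : ∀ (A : Matrix (Fin N) (Fin N) E), Aᵀ * Q * A = Q → ∀ x x' : Fin N → E,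
      (A *ᵥ x) ⬝ᵥ (Q *ᵥ (A *ᵥ x')) = x ⬝ᵥ (Q *ᵥ x') := by
    intro A hA x x'
    rw [← Matrix.vecMul_transpose, ← Matrix.dotProduct_mulVec, Matrix.mulVec_mulVec, Matrix.mulVec_mulVec, hA]
  have hYw : Y *ᵥ (z *ᵥ e) = e := by
    rw [hY, Matrix.mulVec_mulVec, Matrix.mul_assoc, hyz, Matrix.mul_one, he]
  -- (ii)
  have s2 : ∀ l : Fin N → E, (∀ i, l i ∈ O) → (Y *ᵥ l) ⬝ᵥ (Q *ᵥ e) ∈ O → ∀ i, (Y *ᵥ l) i ∈ O := by
    intro l hl hle
    by_contra hcon
    push Not at hcon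
    obtain ⟨i0, hi0⟩ := hcon
    have h0 : (Y *ᵥ l) i0 ≠ 0 := fun h0 => hi0 (by rw [h0]; exact O.zero_mem)
    have hi : (t * (Y *ᵥ l) i0)⁻¹ ∈ O := hval _ hi0 (NbH_pmv B1 hl i0)
    have k1 : ∀ l' : Fin N → E, (∀ i, l' i ∈ O) → l' ⬝ᵥ (Q *ᵥ (z *ᵥ e)) ∈ O := by
      intro l' hl'
      rw [← hadj Y hYQ l', hYw]
      obtain ⟨c, hc⟩ : ∃ c, c = (t * (Y *ᵥ l) i0)⁻¹ * (t * (Y *ᵥ l') i0) := ⟨_, rfl⟩
      have hcO : c ∈ O := by
        rw [hc]
        exact O.mul_mem hi (NbH_pmv B1 hl' i0)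
      have k2 : ∀ j, (Y *ᵥ l' - c • (Y *ᵥ l)) j ∈ O := by
        intro j
        rw [Pi.sub_apply, Pi.smul_apply, smul_eq_mul, hc]
        exact NbH_div ht h0 hi (NbH_min B2 hl' hl j i0)
      have e1 : (Y *ᵥ l') ⬝ᵥ (Q *ᵥ e) = (Y *ᵥ l' - c • (Y *ᵥ l)) ⬝ᵥ (Q *ᵥ e) + c * ((Y *ᵥ l) ⬝ᵥ (Q *ᵥ e)) := by
        rw [sub_dotProduct, smul_dotProduct, smul_eq_mul, sub_add_cancel]
      rw [e1]
      exact O.add_mem (NbH_dot k2 (NbH_mv hQO heO)) (O.mul_mem hcO hle)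
    have k3 : ∀ i, (Q *ᵥ (z *ᵥ e)) i ∈ O := by
      intro i
      have := k1 (Pi.single i 1) fun j => by
        rcases eq_or_ne j i with rfl | hji
        · rw [Pi.single_eq_same]; exact O.one_mem
        · rw [Pi.single_eq_of_ne hji]; exact O.zero_mem
      rwa [single_dotProduct, one_mul] at this
    have k4 : z *ᵥ e = Q' *ᵥ (Q *ᵥ (z *ᵥ e)) := by
      rw [Matrix.mulVec_mulVec, hQQ, Matrix.one_mulVec]
    refine hj0 ?_
    rw [k4]
    exact NbH_mv hQO' k3 j0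
  -- (iii)
  have s3 : ∀ x : Fin N → E, (∀ i, x i ∈ O) → ∀ i, (h *ᵥ x) i ∈ O := by
    intro x hx
    obtain ⟨c, hc, hcl⟩ := s1 x hx
    have e1 : Y *ᵥ (z *ᵥ (x - c • e)) = h *ᵥ (x - c • e) := by
      rw [hY, Matrix.mulVec_mulVec, Matrix.mul_assoc, hyz, Matrix.mul_one]
    have hx' : ∀ i, (x - c • e) i ∈ O := fun i => by
      rw [Pi.sub_apply, Pi.smul_apply, smul_eq_mul]
      exact O.sub_mem (hx i) (O.mul_mem hc (heO i))
    have e2 : (h *ᵥ (x - c • e)) ⬝ᵥ (Q *ᵥ e) = (x - c • e) ⬝ᵥ (Q *ᵥ e) := by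
      have := hadj h hhQ (x - c • e) e
      rwa [he] at this
    have e3 : ∀ i, (h *ᵥ (x - c • e)) i ∈ O := by
      intro i
      rw [← e1]
      refine s2 _ hcl ?_ i
      rw [e1, e2]
      exact NbH_dot hx' (NbH_mv hQO heO)
    intro i
    have e4 : (h *ᵥ x) i = (h *ᵥ (x - c • e)) i + c * e i := by
      rw [Matrix.mulVec_sub, Matrix.mulVec_smul, he, Pi.sub_apply, Pi.smul_apply, smul_eq_mul, sub_add_cancel]
    rw [e4]
    exact O.add_mem (e3 i) (O.mul_mem hc (heO i))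
  intro i j
  have := s3 (Pi.single j 1) (fun j' => by
    rcases eq_or_ne j' j with rfl | hji
    · rw [Pi.single_eq_same]; exact O.one_mem
    · rw [Pi.single_eq_of_ne hji]; exact O.zero_mem) i
  rwa [Matrix.mulVec_single_one] at this

end local_part

/-! ## The completion at `p` -/

private theorem NbH_vle {v : HeightOneSpectrum ℤ} {x : v.adicCompletion ℚ} :
    x ∈ (v.adicCompletionIntegers ℚ).toSubring ↔ Valued.v x ≤ 1 := by
  rw [← HeightOneSpectrum.mem_adicCompletionIntegers]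
  exact Iff.rfl

private theorem NbH_vint (p : Nat.Primes) (n : ℤ) :
    Valued.v ((n : ℤ) : (vp p).adicCompletion ℚ) = (vp p).intValuation n := by
  have h := HeightOneSpectrum.valuedAdicCompletion_eq_valuation (K := ℚ) (vp p) n
  rw [HeightOneSpectrum.valuation_of_algebraMap] at h
  rw [← h]
  congr 1
  simp

private theorem NbH_vp (p : Nat.Primes) :
    Valued.v (((p : ℕ) : (vp p).adicCompletion ℚ)) = WithZero.exp (-1 : ℤ) := by
  have h := NbH_vint p ((p : ℕ) : ℤ)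
  rw [Int.cast_natCast] at h
  rw [h]
  exact HeightOneSpectrum.intValuation_singleton _ (by exact_mod_cast p.2.ne_zero) rfl

/-- A rational number with denominator prime to `p` is integral at `p`. -/
private theorem NbH_rat (p : Nat.Primes) (q : ℚ) (hq : ¬ (p : ℕ) ∣ q.den) :
    (algebraMap ℚ ((vp p).adicCompletion ℚ) q) ∈ ((vp p).adicCompletionIntegers ℚ).toSubring := by
  rw [NbH_vle]
  have h1 : Valued.v ((q.den : ℤ) : (vp p).adicCompletion ℚ) = 1 := by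
    rw [NbH_vint, HeightOneSpectrum.intValuation_eq_one_iff]
    intro h
    have h2 : ((p : ℕ) : ℤ) ∣ (q.den : ℤ) := Ideal.mem_span_singleton.1 h
    exact hq (by exact_mod_cast h2)
  have h2 : Valued.v ((q.num : ℤ) : (vp p).adicCompletion ℚ) ≤ 1 := by
    rw [NbH_vint]
    exact HeightOneSpectrum.intValuation_le_one _ _
  have h3 : (algebraMap ℚ ((vp p).adicCompletion ℚ) q) * ((q.den : ℤ) : (vp p).adicCompletion ℚ) =
      ((q.num : ℤ) : (vp p).adicCompletion ℚ) := by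
    have e1 : q * (q.den : ℚ) = q.num := Rat.mul_den_eq_num q
    have e2 := congrArg (algebraMap ℚ ((vp p).adicCompletion ℚ)) e1
    rw [map_mul, map_natCast, map_intCast] at e2
    rw [Int.cast_natCast]
    exact e2
  rw [← h3, map_mul, h1, mul_one] at h2
  exact h2

private theorem NbH_val (p : Nat.Primes) (x : (vp p).adicCompletion ℚ)
    (hx : x ∉ ((vp p).adicCompletionIntegers ℚ).toSubring)
    (hpx : ((p : ℕ) : (vp p).adicCompletion ℚ) * x ∈ ((vp p).adicCompletionIntegers ℚ).toSubring) :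
    (((p : ℕ) : (vp p).adicCompletion ℚ) * x)⁻¹ ∈ ((vp p).adicCompletionIntegers ℚ).toSubring := by
  rw [NbH_vle] at hx hpx ⊢
  rw [map_mul, NbH_vp] at hpx
  rw [map_inv₀, map_mul, NbH_vp]
  rw [not_le] at hx
  have hx0 : Valued.v x ≠ 0 := (zero_lt_one.trans hx).ne'
  obtain ⟨n, hn⟩ : ∃ n : ℤ, Valued.v x = WithZero.exp n := ⟨_, (WithZero.exp_log hx0).symm⟩
  rw [hn] at hx hpx ⊢
  rw [← WithZero.exp_zero, WithZero.exp_lt_exp] at hx
  rw [← WithZero.exp_add, ← WithZero.exp_zero, WithZero.exp_le_exp] at hpx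
  rw [← WithZero.exp_add, ← WithZero.exp_neg, ← WithZero.exp_zero, WithZero.exp_le_exp]
  omega

/-! ## The adelic statement -/

variable {N : ℕ} {Q : Matrix (Fin N) (Fin N) ℚ}

/-- The component at `v` of an element of `G(Af)`. -/
private def NbH_m (v : HeightOneSpectrum ℤ) (g : Gp Q Af) : Matrix (Fin N) (Fin N) (v.adicCompletion ℚ) :=
  g.1.1.map (ev v)

private theorem NbH_m_mul (v : HeightOneSpectrum ℤ) (a b : Gp Q Af) :
    NbH_m v (a * b) = NbH_m v a * NbH_m v b := by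
  change (a.1.1 * b.1.1).map (ev v) = _
  rw [Matrix.map_mul]
  rfl

private theorem NbH_m_one (v : HeightOneSpectrum ℤ) : NbH_m v (1 : Gp Q Af) = 1 := by
  change (1 : Matrix (Fin N) (Fin N) Af).map (ev v) = _
  exact Matrix.map_one _ (map_zero _) (map_one _)

private theorem NbH_ev_alg (v : HeightOneSpectrum ℤ) (q : ℚ) :
    ev v (algebraMap ℚ Af q) = algebraMap ℚ (v.adicCompletion ℚ) q := rfl

private theorem NbH_m_form (v : HeightOneSpectrum ℤ) (g : Gp Q Af) :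
    (NbH_m v g)ᵀ * Q.map (algebraMap ℚ (v.adicCompletion ℚ)) * NbH_m v g =
      Q.map (algebraMap ℚ (v.adicCompletion ℚ)) := by
  have h : g.1.1ᵀ * Q.map (algebraMap ℚ Af) * g.1.1 = Q.map (algebraMap ℚ Af) := g.2
  have e : (Q.map (algebraMap ℚ Af)).map (ev v) = Q.map (algebraMap ℚ (v.adicCompletion ℚ)) := by
    exact Matrix.ext fun i j => NbH_ev_alg v _
  have h1 := congrArg (fun M : Matrix (Fin N) (Fin N) Af => M.map (ev v)) h
  simp only [Matrix.map_mul, e] at h1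
  exact h1

private theorem NbH_m_ve (v : HeightOneSpectrum ℤ) (g : Gp Q Af) (e : Fin N → ℚ) (i : Fin N) :
    ((g.1.1 *ᵥ ve e Af) i) v = (NbH_m v g *ᵥ ve e (v.adicCompletion ℚ)) i := by
  change ev v (∑ j, g.1.1 i j * algebraMap ℚ Af (e j)) =
    ∑ j, ev v (g.1.1 i j) * algebraMap ℚ (v.adicCompletion ℚ) (e j)
  rw [map_sum]
  refine Finset.sum_congr rfl fun j _ => ?_
  rw [map_mul, NbH_ev_alg]

theorem tNbH : S_NbH := by
  intro hMn _ hNbI N Q e K p hQs hQd hG y hy y' hy' hyD h hh k hk hyk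
  have ht0 : ((p : ℕ) : (vp p).adicCompletion ℚ) ≠ 0 := by
    intro h0
    have := NbH_vp p
    rw [h0, map_zero] at this
    exact WithZero.exp_ne_zero this.symm
  have hN1 : ∀ g ∈ Nb Q p, (∀ i j, ((p : ℕ) : (vp p).adicCompletion ℚ) * NbH_m (vp p) g i j ∈
      ((vp p).adicCompletionIntegers ℚ).toSubring) ∧ ∀ i j a b, ((p : ℕ) : (vp p).adicCompletion ℚ) *
      (NbH_m (vp p) g i j * NbH_m (vp p) g a b - NbH_m (vp p) g i b * NbH_m (vp p) g a j) ∈
      ((vp p).adicCompletionIntegers ℚ).toSubring := by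
    rintro g ⟨-, h1, h2⟩
    refine ⟨fun i j => ?_, fun i j a b => ?_⟩
    · have h3 : ev (vp p) (((p : ℕ) : Af) * g.1.1 i j) ∈ ((vp p).adicCompletionIntegers ℚ).toSubring :=
        h1 i j (vp p)
      rw [map_mul, map_natCast] at h3
      exact h3
    · have h3 : ev (vp p) (((p : ℕ) : Af) * (g.1.1 i j * g.1.1 a b - g.1.1 i b * g.1.1 a j)) ∈
          ((vp p).adicCompletionIntegers ℚ).toSubring := h2 i j a b (vp p)
      rw [map_mul, map_natCast, map_sub, map_mul, map_mul] at h3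
      exact h3
  have hk1 : ∀ g ∈ K, ∀ i j, NbH_m (vp p) g i j ∈ ((vp p).adicCompletionIntegers ℚ).toSubring :=
    fun g hg i j => hG.k1 g hg i j
  obtain ⟨A1, A2⟩ := hN1 y⁻¹ ((hNbI N Q e K p hQs hQd hG).2 y hy)
  obtain ⟨C1, C2⟩ := hN1 y' hy'
  obtain ⟨B1, B2⟩ := hMn N ((vp p).adicCompletion ℚ) ((vp p).adicCompletionIntegers ℚ).toSubring
    ((p : ℕ) : (vp p).adicCompletion ℚ) 1 (NbH_m (vp p) y') (NbH_m (vp p) k) (fun i j => by
      rcases eq_or_ne i j with rfl | hij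
      · rw [Matrix.one_apply_eq]; exact Subring.one_mem _
      · rw [Matrix.one_apply_ne hij]; exact Subring.zero_mem _) (hk1 k hk) C1 C2
  rw [Matrix.one_mul, ← NbH_m_mul] at B1 B2
  obtain ⟨j0, hj0⟩ := hyD
  rw [NbH_m_ve] at hj0
  have hint : ∀ i j, NbH_m (vp p) h i j ∈ ((vp p).adicCompletionIntegers ℚ).toSubring := by
    refine NbH_loc ((p : ℕ) : (vp p).adicCompletion ℚ) ht0 (NbH_val p)
      (Q.map (algebraMap ℚ ((vp p).adicCompletion ℚ))) (Q⁻¹.map (algebraMap ℚ ((vp p).adicCompletion ℚ)))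
      (NbH_m (vp p) h) (NbH_m (vp p) y) (NbH_m (vp p) y⁻¹) (NbH_m (vp p) (y' * k))
      (ve e ((vp p).adicCompletion ℚ)) (fun i j => NbH_rat p _ (hG.q1 i j)) (fun i j => NbH_rat p _ (hG.q2 i j))
      ?_ ?_ ?_ (NbH_m_form _ h) (NbH_m_form _ _) ?_ (fun i => NbH_rat p _ (hG.e1 i)) A1 A2 B1 B2 j0 hj0
    · rw [← Matrix.map_mul, Matrix.nonsing_inv_mul _ (isUnit_iff_ne_zero.2 hQd)]
      exact Matrix.map_one _ (map_zero _) (map_one _)
    · rw [← NbH_m_mul, mul_inv_cancel, NbH_m_one]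
    · rw [← hyk, NbH_m_mul]
    · have h1 : h.1.1 *ᵥ ve e Af = ve e Af := hh
      funext i
      rw [← NbH_m_ve, h1]
      rfl
  have hloc : k⁻¹ * h ∈ Loc Q p := by
    intro w hw
    have e1 : h = y' * k * y⁻¹ := by rw [← hyk, mul_inv_cancel_right]
    rw [e1, map_mul, map_mul, map_mul, map_inv, map_inv, hy.1 w hw, hy'.1 w hw]
    group
  have hmem : k⁻¹ * h ∈ K := by
    refine hG.k2 _ hloc fun i j w => ?_
    rcases eq_or_ne w (vp p) with rfl | hw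
    · have h1 : NbH_m (vp p) (k⁻¹ * h) i j ∈ ((vp p).adicCompletionIntegers ℚ).toSubring := by
        rw [NbH_m_mul]
        exact Subring.sum_mem _ fun a _ => Subring.mul_mem _ (hk1 _ (K.inv_mem hk) i a) (hint a j)
      exact h1
    · have h1 : evG Q w (k⁻¹ * h) = 1 := hloc w hw
      have h2 : ((k⁻¹ * h).1.1 i j) w = (1 : Matrix (Fin N) (Fin N) (w.adicCompletion ℚ)) i j :=
        congrArg (fun M : SpecialLinearGroup (Fin N) (w.adicCompletion ℚ) => M.1 i j) h1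
      rw [h2]
      rcases eq_or_ne i j with rfl | hij
      · rw [Matrix.one_apply_eq]; exact (w.adicCompletionIntegers ℚ).one_mem
      · rw [Matrix.one_apply_ne hij]; exact (w.adicCompletionIntegers ℚ).zero_mem
  have := K.mul_mem hk hmem
  rwa [mul_inv_cancel_left] at this

end Pool.Agent.GP
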