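import Pool.Agent.Lib.GP.Spec2

/-!
# Theorem GP, second part: `K`-stability of the neighbours
-/

set_option autoImplicit false

open IsDedekindDomain Matrix MeasureTheory

noncomputable section

namespace Pool.Agent.GP

private theorem NbK_one {N : ℕ} {v : HeightOneSpectrum ℤ} (i j : Fin N) :
    (1 : Matrix (Fin N) (Fin N) (v.adicCompletion ℚ)) i j ∈ v.adicCompletionIntegers ℚ := by
  by_cases h : i = j
  · subst h
    rw [Matrix.one_apply_eq]
    exact (v.adicCompletionIntegers ℚ).one_mem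
  · rw [Matrix.one_apply_ne h]
    exact (v.adicCompletionIntegers ℚ).zero_mem

private theorem NbK_evt {N : ℕ} (Q : Matrix (Fin N) (Fin N) ℚ) (v : HeightOneSpectrum ℤ)
    (g : Gp Q Af) (i j : Fin N) : ev v (g.1.1 i j) = (evG Q v g).1 i j := rfl

private theorem NbK_ext {N : ℕ} (Q : Matrix (Fin N) (Fin N) ℚ) (g h : Gp Q Af)
    (hgh : ∀ v : HeightOneSpectrum ℤ, evG Q v g = evG Q v h) : g = h := by
  apply Subtype.ext
  apply Matrix.SpecialLinearGroup.ext
  intro i j
  apply FiniteAdeleRing.ext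
  intro v
  have h1 := congrArg (fun m => m.1 i j) (hgh v)
  exact h1

theorem tNbK : S_NbK := by
  intro hMn hCmp N Q e K p hG k hk y hy
  obtain ⟨hyL, hy1, hy2⟩ := hy
  obtain ⟨kp, hkpL, hkp⟩ := hCmp N Q p k
  have hkpv : ∀ (v : HeightOneSpectrum ℤ) (i j : Fin N),
      (evG Q v kp).1 i j ∈ v.adicCompletionIntegers ℚ := by
    intro v i j
    by_cases hv : v = vp p
    · subst hv
      rw [hkp]
      exact hG.k1 k hk i j
    · rw [hkpL v hv]
      exact NbK_one i j
  have hkpZ : ∀ i j, kp.1.1 i j ∈ Zh := fun i j v => hkpv v i j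
  have hkpK : kp ∈ K := hG.k2 kp hkpL hkpZ
  have hcomm : y * (kp⁻¹ * k) = (kp⁻¹ * k) * y := by
    apply NbK_ext
    intro v
    have h1 : evG Q v (kp⁻¹ * k) = (evG Q v kp)⁻¹ * evG Q v k := by rw [map_mul, map_inv]
    rw [map_mul (evG Q v) y, map_mul (evG Q v) (kp⁻¹ * k), h1]
    by_cases hv : v = vp p
    · subst hv
      rw [hkp, inv_mul_cancel, mul_one, one_mul]
    · rw [hyL v hv, mul_one, one_mul]
  refine ⟨kp * y, ⟨(Loc Q p).mul_mem hkpL hyL, ?_, ?_⟩, kp⁻¹ * k, K.mul_mem (K.inv_mem hkpK) hk, ?_⟩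
  · intro i j v
    change ev v (((p : ℕ) : Af) * (kp * y).1.1 i j) ∈ v.adicCompletionIntegers ℚ
    have h1 := (hMn N (v.adicCompletion ℚ) (v.adicCompletionIntegers ℚ).toSubring
      ((p : ℕ) : v.adicCompletion ℚ) (evG Q v kp).1 (evG Q v y).1 1 (hkpv v)
      (fun i j => NbK_one i j) (fun i j => by
        have h2 := hy1 i j v
        change ev v (((p : ℕ) : Af) * y.1.1 i j) ∈ v.adicCompletionIntegers ℚ at h2
        rw [map_mul, map_natCast] at h2
        exact h2) (fun i j k l => by
        have h2 := hy2 i j k l v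
        change ev v (((p : ℕ) : Af) * (y.1.1 i j * y.1.1 k l - y.1.1 i l * y.1.1 k j)) ∈
          v.adicCompletionIntegers ℚ at h2
        rw [map_mul, map_natCast, map_sub, map_mul, map_mul] at h2
        exact h2)).1 i j
    rw [mul_one] at h1
    rw [map_mul, map_natCast, NbK_evt, map_mul]
    exact h1
  · intro i j k l v
    change ev v (((p : ℕ) : Af) * ((kp * y).1.1 i j * (kp * y).1.1 k l -
      (kp * y).1.1 i l * (kp * y).1.1 k j)) ∈ v.adicCompletionIntegers ℚ
    have h1 := (hMn N (v.adicCompletion ℚ) (v.adicCompletionIntegers ℚ).toSubring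
      ((p : ℕ) : v.adicCompletion ℚ) (evG Q v kp).1 (evG Q v y).1 1 (hkpv v)
      (fun i j => NbK_one i j) (fun i j => by
        have h2 := hy1 i j v
        change ev v (((p : ℕ) : Af) * y.1.1 i j) ∈ v.adicCompletionIntegers ℚ at h2
        rw [map_mul, map_natCast] at h2
        exact h2) (fun i j k l => by
        have h2 := hy2 i j k l v
        change ev v (((p : ℕ) : Af) * (y.1.1 i j * y.1.1 k l - y.1.1 i l * y.1.1 k j)) ∈
          v.adicCompletionIntegers ℚ at h2
        rw [map_mul, map_natCast, map_sub, map_mul, map_mul] at h2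
        exact h2)).2 i j k l
    rw [mul_one] at h1
    rw [map_mul, map_natCast, map_sub, map_mul, map_mul, NbK_evt, NbK_evt, NbK_evt, NbK_evt,
      map_mul]
    exact h1
  · rw [mul_assoc, hcomm, ← mul_assoc, ← mul_assoc, mul_inv_cancel, one_mul]

end Pool.Agent.GP
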