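import Pool.Agent.Lib.GP.Spec2

/-!
# Theorem GPE, module Rf: products of two reflections (helper28)
-/

set_option autoImplicit false

open IsDedekindDomain Matrix MeasureTheory

noncomputable section

namespace Pool.Agent.GP

private theorem Rf_def {N : ℕ} (Q : Matrix (Fin N) (Fin N) ℚ) (x : Fin N → ℚ) :
    rf Q x = 1 - (2 / (x ⬝ᵥ (Q *ᵥ x))) • vecMulVec x (Q *ᵥ x) := rfl

private theorem Rf_vm {N : ℕ} {Q : Matrix (Fin N) (Fin N) ℚ} (hQ : Q.IsSymm) (x : Fin N → ℚ) :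
    x ᵥ* Q = Q *ᵥ x := by
  have h := Matrix.vecMul_transpose Q x
  rw [hQ] at h
  exact h

private theorem Rf_dot {N : ℕ} {Q : Matrix (Fin N) (Fin N) ℚ} (hQ : Q.IsSymm) (x z : Fin N → ℚ) :
    (Q *ᵥ x) ⬝ᵥ z = x ⬝ᵥ (Q *ᵥ z) := by
  rw [Matrix.dotProduct_mulVec, Rf_vm hQ]

private theorem Rf_mulVec {N : ℕ} {Q : Matrix (Fin N) (Fin N) ℚ} (hQ : Q.IsSymm) (x z : Fin N → ℚ) :
    rf Q x *ᵥ z = z - (2 * (x ⬝ᵥ (Q *ᵥ z)) / (x ⬝ᵥ (Q *ᵥ x))) • x := by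
  rw [Rf_def, Matrix.sub_mulVec, Matrix.one_mulVec, Matrix.smul_mulVec, Matrix.vecMulVec_mulVec, Rf_dot hQ]
  funext i
  simp only [Pi.sub_apply, Pi.smul_apply, smul_eq_mul, MulOpposite.smul_eq_mul_unop, MulOpposite.unop_op]
  ring

private theorem Rf_sq {N : ℕ} {Q : Matrix (Fin N) (Fin N) ℚ} (hQ : Q.IsSymm) {x : Fin N → ℚ}
    (hx : x ⬝ᵥ (Q *ᵥ x) ≠ 0) : rf Q x * rf Q x = 1 := by
  apply Matrix.ext_of_mulVec_single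
  intro i
  rw [← Matrix.mulVec_mulVec, Rf_mulVec hQ, Rf_mulVec hQ, Matrix.mulVec_sub, Matrix.mulVec_smul, Matrix.one_mulVec,
    dotProduct_sub, dotProduct_smul]
  funext j
  simp only [Pi.sub_apply, Pi.smul_apply, smul_eq_mul]
  field_simp
  ring

private theorem Rf_det {N : ℕ} {Q : Matrix (Fin N) (Fin N) ℚ} (hQ : Q.IsSymm) {x : Fin N → ℚ}
    (hx : x ⬝ᵥ (Q *ᵥ x) ≠ 0) : (rf Q x).det = -1 := by
  have h := Matrix.det_one_add_replicateCol_mul_replicateRow (ι := Unit)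
    (-(2 / (x ⬝ᵥ (Q *ᵥ x))) • x) (Q *ᵥ x)
  rw [← Matrix.vecMulVec_eq, dotProduct_smul, Rf_dot hQ, smul_eq_mul] at h
  have e : rf Q x = 1 + vecMulVec (-(2 / (x ⬝ᵥ (Q *ᵥ x))) • x) (Q *ᵥ x) := by
    rw [Rf_def]
    ext i j
    simp only [Matrix.sub_apply, Matrix.add_apply, Matrix.smul_apply, vecMulVec_apply, Pi.smul_apply, smul_eq_mul]
    ring
  rw [e, h]
  field_simp
  norm_num

private theorem Rf_iso {N : ℕ} {Q : Matrix (Fin N) (Fin N) ℚ} (hQ : Q.IsSymm) {x : Fin N → ℚ}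
    (hx : x ⬝ᵥ (Q *ᵥ x) ≠ 0) : (rf Q x)ᵀ * Q * rf Q x = Q := by
  have e1 : (rf Q x)ᵀ * Q = Q * rf Q x := by
    rw [Rf_def, Matrix.transpose_sub, Matrix.transpose_one, Matrix.transpose_smul, Matrix.transpose_vecMulVec,
      Matrix.sub_mul, Matrix.mul_sub, Matrix.one_mul, Matrix.mul_one, Matrix.smul_mul, Matrix.mul_smul,
      Matrix.vecMulVec_mul, Matrix.mul_vecMulVec, Rf_vm hQ]
  rw [e1, Matrix.mul_assoc, Rf_sq hQ hx, Matrix.mul_one]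

private theorem Rf_map {N : ℕ} (Q : Matrix (Fin N) (Fin N) ℚ) : Q.map (algebraMap ℚ ℚ) = Q := by
  ext i j
  rfl

private theorem Rf_pair {N : ℕ} {Q : Matrix (Fin N) (Fin N) ℚ} (hQ : Q.IsSymm) {x y : Fin N → ℚ}
    (hx : x ⬝ᵥ (Q *ᵥ x) ≠ 0) (hy : y ⬝ᵥ (Q *ᵥ y) ≠ 0) : ∃ γ : Gp Q ℚ, γ.1.1 = rf Q x * rf Q y := by
  refine ⟨⟨⟨rf Q x * rf Q y, by rw [Matrix.det_mul, Rf_det hQ hx, Rf_det hQ hy]; norm_num⟩, ?_⟩, rfl⟩
  change (rf Q x * rf Q y)ᵀ * Q.map (algebraMap ℚ ℚ) * (rf Q x * rf Q y) = Q.map (algebraMap ℚ ℚ)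
  rw [Rf_map, Matrix.transpose_mul]
  calc (rf Q y)ᵀ * (rf Q x)ᵀ * Q * (rf Q x * rf Q y)
      = (rf Q y)ᵀ * ((rf Q x)ᵀ * Q * rf Q x) * rf Q y := by simp only [Matrix.mul_assoc]
    _ = Q := by rw [Rf_iso hQ hx, Rf_iso hQ hy]

theorem tRf : S_Rf := by
  intro N Q x y hQ hx hy
  refine ⟨Rf_sq hQ hx, Rf_mulVec hQ x, ?_⟩
  obtain ⟨γ, hγ⟩ := Rf_pair hQ hx hy
  obtain ⟨δ, hδ⟩ := Rf_pair hQ hy hx
  refine ⟨γ, hγ, ?_⟩
  have h : γ * δ = 1 := by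
    apply Subtype.ext
    apply Subtype.ext
    change γ.1.1 * δ.1.1 = 1
    rw [hγ, hδ]
    calc rf Q x * rf Q y * (rf Q y * rf Q x) = rf Q x * (rf Q y * rf Q y) * rf Q x := by
          simp only [Matrix.mul_assoc]
      _ = 1 := by rw [Rf_sq hQ hy, Matrix.mul_one, Rf_sq hQ hx]
  rw [inv_eq_of_mul_eq_one_right h, hδ]

end Pool.Agent.GP
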