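import Mathlib

/-!
# Theorem GP (Gross-Prasad periods on definite orthogonal groups): definitions (author helper25)

`V_(n+1) = ℚ^N` (`N = n + 1`) with the positive definite symmetric matrix `Q`, `V_n` the orthogonal complement of `e`.
`Gp Q R = SO(V_(n+1))(R)`, `Hp Q e R = SO(V_n)(R)`: the stabilizer of `e`. `Af` are the finite adeles of `ℚ`, `G(𝔸) = G(ℝ) × G(Af)`.
-/

set_option autoImplicit false

open IsDedekindDomain Matrix MeasureTheory

noncomputable section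

namespace Pool.Agent.GP

/-! ## Abstract automorphic forms -/

/-- A continuous unitary representation of `G` on `V`. -/
structure URep (G V : Type) [Group G] [TopologicalSpace G] [NormedAddCommGroup V] [InnerProductSpace ℂ V] where
  act : G →* (V ≃ₗᵢ[ℂ] V)
  cont : ∀ v : V, Continuous fun g => act g v

/-- The representation is irreducible. -/
def URep.Irr {G V : Type} [Group G] [TopologicalSpace G] [NormedAddCommGroup V] [InnerProductSpace ℂ V]
    (ρ : URep G V) : Prop :=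
  Nontrivial V ∧ ∀ S : Submodule ℂ V, (∀ (g : G), ∀ v ∈ S, ρ.act g v ∈ S) → S = ⊥ ∨ S = ⊤

/-- The functions of weight `ρ`: the span of the matrix coefficients. -/
def coef {G V : Type} [Group G] [TopologicalSpace G] [NormedAddCommGroup V] [InnerProductSpace ℂ V]
    (ρ : URep G V) : Submodule ℂ (G → ℂ) :=
  Submodule.span ℂ {c | ∃ u v : V, c = fun x => inner ℂ u (ρ.act x v)}

section abstract

variable {Γ G Gf : Type} [Group Γ] [Group G] [TopologicalSpace G] [Group Gf]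
  {V : Type} [NormedAddCommGroup V] [InnerProductSpace ℂ V]

/-- **Automorphic forms** on `Γ \ G × Gf / K` of weight `ρ`: `φ x g`, `x ∈ G` the archimedean and `g ∈ Gf` the finite component. -/
def AF (ja : Γ →* G) (jf : Γ →* Gf) (K : Subgroup Gf) (ρ : URep G V) : Submodule ℂ (G → Gf → ℂ) where
  carrier := {φ | (∀ (γ : Γ) (x : G) (g : Gf), ∀ k ∈ K, φ (ja γ * x) (jf γ * g * k) = φ x g) ∧
    ∀ g : Gf, (fun x => φ x g) ∈ coef ρ}
  add_mem' := by
    rintro φ ψ ⟨h1, h2⟩ ⟨h3, h4⟩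
    refine ⟨fun γ x g k hk => ?_, fun g => (coef ρ).add_mem (h2 g) (h4 g)⟩
    simp only [Pi.add_apply, h1 γ x g k hk, h3 γ x g k hk]
  zero_mem' := ⟨fun _ _ _ _ _ => rfl, fun _ => (coef ρ).zero_mem⟩
  smul_mem' := by
    rintro c φ ⟨h1, h2⟩
    refine ⟨fun γ x g k hk => ?_, fun g => (coef ρ).smul_mem c (h2 g)⟩
    simp only [Pi.smul_apply, h1 γ x g k hk]

/-- Vector valued forms: `f(γ g k) = ρ(γ) f(g)`. -/
def MV (ja : Γ →* G) (jf : Γ →* Gf) (K : Subgroup Gf) (ρ : URep G V) : Submodule ℂ (Gf → V) where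
  carrier := {f | ∀ (γ : Γ) (g : Gf), ∀ k ∈ K, f (jf γ * g * k) = ρ.act (ja γ) (f g)}
  add_mem' := by
    intro f f' h1 h2 γ g k hk
    simp only [Pi.add_apply, h1 γ g k hk, h2 γ g k hk, map_add]
  zero_mem' := fun γ g k hk => by simp only [Pi.zero_apply, map_zero]
  smul_mem' := by
    intro c f h1 γ g k hk
    simp only [Pi.smul_apply, h1 γ g k hk, map_smul]

/-- The equivalence relation with classes `Γ g K`. -/
def clsSetoid (jf : Γ →* Gf) (K : Subgroup Gf) : Setoid Gf where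
  r g g' := ∃ γ : Γ, ∃ k ∈ K, g' = jf γ * g * k
  iseqv :=
    { refl := fun g => ⟨1, 1, K.one_mem, by rw [map_one, one_mul, mul_one]⟩
      symm := by
        rintro g g' ⟨γ, k, hk, rfl⟩
        refine ⟨γ⁻¹, k⁻¹, K.inv_mem hk, ?_⟩
        rw [map_inv]
        group
      trans := by
        rintro g g' g'' ⟨γ, k, hk, rfl⟩ ⟨γ', k', hk', rfl⟩
        refine ⟨γ' * γ, k * k', K.mul_mem hk hk', ?_⟩
        rw [map_mul]
        group }

/-- The set of the double cosets `Γ \ Gf / K`. -/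
def Cls (jf : Γ →* Gf) (K : Subgroup Gf) : Type := Quotient (clsSetoid jf K)

/-- The transporter: the `γ` with `γ g K = g' K`. -/
def tr (jf : Γ →* Gf) (K : Subgroup Gf) (g g' : Gf) : Set Γ := {γ | g'⁻¹ * (jf γ * g) ∈ K}

/-- The number of elements of the stabilizer of `g K` in the subgroup `Γ1` of `Γ`. -/
def st (Γ1 : Subgroup Γ) (jf : Γ →* Gf) (K : Subgroup Gf) (g : Gf) : ℕ :=
  Nat.card {γ : Γ // γ ∈ Γ1 ∧ γ ∈ tr jf K g g}

end abstract

/-! ## The orthogonal groups -/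

/-- The ring of finite adeles of `ℚ`. -/
abbrev Af : Type := FiniteAdeleRing ℤ ℚ

variable {N : ℕ}

/-- The group `G(R)`: matrices `g` of determinant one with `gᵀ Q g = Q`. -/
def Gp (Q : Matrix (Fin N) (Fin N) ℚ) (R : Type) [CommRing R] [Algebra ℚ R] :
    Subgroup (SpecialLinearGroup (Fin N) R) where
  carrier := {g | g.1ᵀ * Q.map (algebraMap ℚ R) * g.1 = Q.map (algebraMap ℚ R)}
  mul_mem' := by
    intro a b ha hb
    change (a * b).1ᵀ * Q.map (algebraMap ℚ R) * (a * b).1 = _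
    have ha' : a.1ᵀ * Q.map (algebraMap ℚ R) * a.1 = Q.map (algebraMap ℚ R) := ha
    have hb' : b.1ᵀ * Q.map (algebraMap ℚ R) * b.1 = Q.map (algebraMap ℚ R) := hb
    have e : (a * b).1 = a.1 * b.1 := rfl
    rw [e, Matrix.transpose_mul]
    calc b.1ᵀ * a.1ᵀ * Q.map (algebraMap ℚ R) * (a.1 * b.1)
        = b.1ᵀ * (a.1ᵀ * Q.map (algebraMap ℚ R) * a.1) * b.1 := by simp only [Matrix.mul_assoc]
      _ = Q.map (algebraMap ℚ R) := by rw [ha', hb']
  one_mem' := by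
    change (1 : SpecialLinearGroup (Fin N) R).1ᵀ * Q.map (algebraMap ℚ R) * (1 : SpecialLinearGroup (Fin N) R).1 = _
    have e : (1 : SpecialLinearGroup (Fin N) R).1 = 1 := rfl
    rw [e, Matrix.transpose_one, Matrix.one_mul, Matrix.mul_one]
  inv_mem' := by
    intro a ha
    have ha' : a.1ᵀ * Q.map (algebraMap ℚ R) * a.1 = Q.map (algebraMap ℚ R) := ha
    have e : a.1 * (a⁻¹).1 = 1 := by
      have := congrArg Subtype.val (mul_inv_cancel a)
      exact this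
    change (a⁻¹).1ᵀ * Q.map (algebraMap ℚ R) * (a⁻¹).1 = _
    have e' : (a⁻¹).1ᵀ * a.1ᵀ = 1 := by rw [← Matrix.transpose_mul, e, Matrix.transpose_one]
    calc (a⁻¹).1ᵀ * Q.map (algebraMap ℚ R) * (a⁻¹).1
        = (a⁻¹).1ᵀ * (a.1ᵀ * Q.map (algebraMap ℚ R) * a.1) * (a⁻¹).1 := by rw [ha']
      _ = ((a⁻¹).1ᵀ * a.1ᵀ) * Q.map (algebraMap ℚ R) * (a.1 * (a⁻¹).1) := by simp only [Matrix.mul_assoc]
      _ = Q.map (algebraMap ℚ R) := by rw [e, e', Matrix.one_mul, Matrix.mul_one]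

/-- The vector `e` with coordinates in `R`. -/
def ve (e : Fin N → ℚ) (R : Type) [CommRing R] [Algebra ℚ R] : Fin N → R := fun i => algebraMap ℚ R (e i)

/-- The group `H(R) = SO(V_n)(R)`: the stabilizer of `e` in `G(R)`. -/
def Hp (Q : Matrix (Fin N) (Fin N) ℚ) (e : Fin N → ℚ) (R : Type) [CommRing R] [Algebra ℚ R] :
    Subgroup (Gp Q R) where
  carrier := {g | g.1.1 *ᵥ ve e R = ve e R}
  mul_mem' := by
    intro a b ha hb
    have ha' : a.1.1 *ᵥ ve e R = ve e R := ha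
    have hb' : b.1.1 *ᵥ ve e R = ve e R := hb
    change (a.1.1 * b.1.1) *ᵥ ve e R = ve e R
    rw [← Matrix.mulVec_mulVec, hb', ha']
  one_mem' := Matrix.one_mulVec _
  inv_mem' := by
    intro a ha
    have ha' : a.1.1 *ᵥ ve e R = ve e R := ha
    have e1 : (a⁻¹).1.1 * a.1.1 = 1 := by
      have := congrArg (fun z : Gp Q R => z.1.1) (inv_mul_cancel a)
      exact this
    change (a⁻¹).1.1 *ᵥ ve e R = ve e R
    conv_lhs => rw [← ha']
    rw [Matrix.mulVec_mulVec, e1, Matrix.one_mulVec]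

/-- The map `G(ℚ) → G(R)`. -/
def jG (Q : Matrix (Fin N) (Fin N) ℚ) (R : Type) [CommRing R] [Algebra ℚ R] : Gp Q ℚ →* Gp Q R where
  toFun γ := ⟨SpecialLinearGroup.map (algebraMap ℚ R) γ.1, by
    have h : γ.1.1ᵀ * Q.map (algebraMap ℚ ℚ) * γ.1.1 = Q.map (algebraMap ℚ ℚ) := γ.2
    have e : Q.map (algebraMap ℚ ℚ) = Q := by ext i j; rfl
    rw [e] at h
    change (γ.1.1.map (algebraMap ℚ R))ᵀ * Q.map (algebraMap ℚ R) * γ.1.1.map (algebraMap ℚ R) = _
    rw [← Matrix.transpose_map, ← Matrix.map_mul, ← Matrix.map_mul, h]⟩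
  map_one' := Subtype.ext (map_one _)
  map_mul' a b := Subtype.ext (map_mul _ _ _)

theorem jG_ve (Q : Matrix (Fin N) (Fin N) ℚ) (e : Fin N → ℚ) (R : Type) [CommRing R] [Algebra ℚ R]
    (γ : Gp Q ℚ) : (jG Q R γ).1.1 *ᵥ ve e R = fun i => algebraMap ℚ R ((γ.1.1 *ᵥ ve e ℚ) i) := by
  funext i
  change ∑ j, (algebraMap ℚ R (γ.1.1 i j)) * algebraMap ℚ R (e j) = algebraMap ℚ R (∑ j, γ.1.1 i j * e j)
  rw [map_sum]
  simp only [map_mul]

/-- The map `H(ℚ) → H(R)`. -/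
def jH (Q : Matrix (Fin N) (Fin N) ℚ) (e : Fin N → ℚ) (R : Type) [CommRing R] [Algebra ℚ R] :
    Hp Q e ℚ →* Hp Q e R where
  toFun γ := ⟨jG Q R γ.1, by
    have h : γ.1.1.1 *ᵥ ve e ℚ = ve e ℚ := γ.2
    change (jG Q R γ.1).1.1 *ᵥ ve e R = ve e R
    rw [jG_ve, h]
    rfl⟩
  map_one' := Subtype.ext (map_one _)
  map_mul' a b := Subtype.ext (map_mul _ _ _)

/-- `H(ℝ)` is closed in the matrices, so locally compact. -/
instance instLC (Q : Matrix (Fin N) (Fin N) ℚ) (e : Fin N → ℚ) : LocallyCompactSpace (Hp Q e ℝ) := by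
  have _ : LocallyCompactSpace (Matrix (Fin N) (Fin N) ℝ) := inferInstanceAs (LocallyCompactSpace (Fin N → Fin N → ℝ))
  have h1 : Topology.IsClosedEmbedding (Subtype.val : SpecialLinearGroup (Fin N) ℝ → Matrix (Fin N) (Fin N) ℝ) := by
    refine IsClosed.isClosedEmbedding_subtypeVal ?_
    exact isClosed_eq (continuous_id.matrix_det) continuous_const
  have c1 : Continuous fun g : SpecialLinearGroup (Fin N) ℝ => g.1 := h1.continuous
  have h2 : Topology.IsClosedEmbedding (Subtype.val : Gp Q ℝ → SpecialLinearGroup (Fin N) ℝ) := by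
    refine IsClosed.isClosedEmbedding_subtypeVal ?_
    exact isClosed_eq ((c1.matrix_transpose.matrix_mul continuous_const).matrix_mul c1) continuous_const
  have h3 : Topology.IsClosedEmbedding (Subtype.val : Hp Q e ℝ → Gp Q ℝ) := by
    refine IsClosed.isClosedEmbedding_subtypeVal ?_
    exact isClosed_eq ((c1.comp h2.continuous).matrix_mulVec continuous_const) continuous_const
  exact ((h1.comp h2).comp h3).locallyCompactSpace

/-- The ring of the integral adeles. -/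
def Zh : Subring Af where
  carrier := {a | ∀ v : HeightOneSpectrum ℤ, a v ∈ v.adicCompletionIntegers ℚ}
  mul_mem' := fun ha hb v => (v.adicCompletionIntegers ℚ).mul_mem _ _ (ha v) (hb v)
  one_mem' := fun v => (v.adicCompletionIntegers ℚ).one_mem
  add_mem' := fun ha hb v => (v.adicCompletionIntegers ℚ).add_mem _ _ (ha v) (hb v)
  zero_mem' := fun v => (v.adicCompletionIntegers ℚ).zero_mem
  neg_mem' := fun ha v => (v.adicCompletionIntegers ℚ).neg_mem _ (ha v)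

/-! ## Automorphic forms and the period -/

/-- The level of `H`: `K ∩ H(Af)`. -/
def KH (Q : Matrix (Fin N) (Fin N) ℚ) (e : Fin N → ℚ) (K : Subgroup (Gp Q Af)) : Subgroup (Hp Q e Af) :=
  K.comap (Hp Q e Af).subtype

/-- Automorphic forms on `G(ℚ) \ G(𝔸) / K` of weight `ρ`. -/
def AG {V : Type} [NormedAddCommGroup V] [InnerProductSpace ℂ V] (Q : Matrix (Fin N) (Fin N) ℚ)
    (K : Subgroup (Gp Q Af)) (ρ : URep (Gp Q ℝ) V) : Submodule ℂ (Gp Q ℝ → Gp Q Af → ℂ) :=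
  AF (jG Q ℝ) (jG Q Af) K ρ

/-- Automorphic forms on `H(ℚ) \ H(𝔸) / (K ∩ H(Af))` of weight `σ`. -/
def AH {W : Type} [NormedAddCommGroup W] [InnerProductSpace ℂ W] (Q : Matrix (Fin N) (Fin N) ℚ)
    (e : Fin N → ℚ) (K : Subgroup (Gp Q Af)) (σ : URep (Hp Q e ℝ) W) :
    Submodule ℂ (Hp Q e ℝ → Hp Q e Af → ℂ) :=
  AF (jH Q e ℝ) (jH Q e Af) (KH Q e K) σ

/-- The class set `H(ℚ) \ H(Af) / (K ∩ H(Af))`. -/
abbrev ClH (Q : Matrix (Fin N) (Fin N) ℚ) (e : Fin N → ℚ) (K : Subgroup (Gp Q Af)) : Type :=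
  Cls (jH Q e Af) (KH Q e K)

/-- The Haar measure of total mass one on the compact group `H(ℝ)`. -/
def muH (Q : Matrix (Fin N) (Fin N) ℚ) (e : Fin N → ℚ) :
    @Measure (Hp Q e ℝ) (borel _) :=
  letI : MeasurableSpace (Hp Q e ℝ) := borel _
  haveI : BorelSpace (Hp Q e ℝ) := ⟨rfl⟩
  ((Measure.haar (Set.univ : Set (Hp Q e ℝ)))⁻¹) • (Measure.haar : Measure (Hp Q e ℝ))

/-- **The period** `∫ φ(h) φ'(h) dh` over `H(ℚ) \ H(𝔸)`, for the measure on `H(𝔸)` which gives `H(ℝ) × (K ∩ H(Af))` the mass one: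
the sum over the double cosets `H(ℚ) c (K ∩ H(Af))` of `|Γ_c|⁻¹ ∫ φ(x, c) φ'(x, c) dx` over `H(ℝ)`,
`Γ_c` the finite group `H(ℚ) ∩ c K c⁻¹`. -/
def Per (Q : Matrix (Fin N) (Fin N) ℚ) (e : Fin N → ℚ)
    (K : Subgroup (Gp Q Af)) (φ : Gp Q ℝ → Gp Q Af → ℂ) (φ' : Hp Q e ℝ → Hp Q e Af → ℂ) : ℂ :=
  ∑ᶠ c : ClH Q e K, ((st (⊤ : Subgroup (Hp Q e ℚ)) (jH Q e Af) (KH Q e K) (Quotient.out c) : ℂ))⁻¹ *
    @integral (Hp Q e ℝ) ℂ _ _ (borel _) (muH Q e)
      (fun x => φ x.1 (Quotient.out c).1 * φ' x (Quotient.out c))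

end Pool.Agent.GP
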