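import Pool.Agent.Lib.GP.SpecA

/-!
# Theorem GP, second part (Hecke eigenforms): definitions (author helper25)

`Nb Q p`: the elements `y` of `G(ℚ_p)` (as adelic elements with trivial components outside `p`) such that `y ℤ_p^N` is `ℤ_p^N` or a `p`-neighbour of `ℤ_p^N` (elementary divisors `p⁻¹, 1, .., 1, p`).
`Tp Q K p` is the corresponding Hecke operator.
-/

set_option autoImplicit false

open IsDedekindDomain Matrix MeasureTheory

noncomputable section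

namespace Pool.Agent.GP

variable {N : ℕ}

/-- The place of the prime number `p`. -/
def vp (p : Nat.Primes) : HeightOneSpectrum ℤ where
  asIdeal := Ideal.span {((p : ℕ) : ℤ)}
  isPrime := (Ideal.span_singleton_prime (by exact_mod_cast p.2.ne_zero)).2 (Nat.prime_iff_prime_int.1 p.2)
  ne_bot := by
    rw [Ne, Ideal.span_singleton_eq_bot]
    exact_mod_cast p.2.ne_zero

/-- The component of an adele at `v`. -/
def ev (v : HeightOneSpectrum ℤ) : Af →+* v.adicCompletion ℚ where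
  toFun x := x v
  map_one' := rfl
  map_mul' _ _ := rfl
  map_zero' := rfl
  map_add' _ _ := rfl

/-- The component of an adelic matrix at `v`. -/
def evG (Q : Matrix (Fin N) (Fin N) ℚ) (v : HeightOneSpectrum ℤ) :
    Gp Q Af →* SpecialLinearGroup (Fin N) (v.adicCompletion ℚ) :=
  (SpecialLinearGroup.map (ev v)).comp (Gp Q Af).subtype

/-- The elements of `G(Af)` with trivial components outside `p`: `G(ℚ_p)`. -/
def Loc (Q : Matrix (Fin N) (Fin N) ℚ) (p : Nat.Primes) : Subgroup (Gp Q Af) where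
  carrier := {y | ∀ v : HeightOneSpectrum ℤ, v ≠ vp p → evG Q v y = 1}
  mul_mem' := by
    intro a b ha hb v hv
    rw [map_mul, ha v hv, hb v hv, one_mul]
  one_mem' := fun v _ => map_one _
  inv_mem' := by
    intro a ha v hv
    rw [map_inv, ha v hv, inv_one]

/-- The elements `y` of `G(ℚ_p)` such that `y ℤ_p^N` is `ℤ_p^N` or a `p`-neighbour of it: `p y` and `p` times the `2 × 2` minors of `y` are integral. -/
def Nb (Q : Matrix (Fin N) (Fin N) ℚ) (p : Nat.Primes) : Set (Gp Q Af) :=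
  {y | y ∈ Loc Q p ∧ (∀ i j, ((p : ℕ) : Af) * y.1.1 i j ∈ Zh) ∧
    ∀ i j k l, ((p : ℕ) : Af) * (y.1.1 i j * y.1.1 k l - y.1.1 i l * y.1.1 k j) ∈ Zh}

/-- The cosets `y K` with `y ∈ Nb Q p`. -/
def Cp (Q : Matrix (Fin N) (Fin N) ℚ) (K : Subgroup (Gp Q Af)) (p : Nat.Primes) : Set (Gp Q Af ⧸ K) :=
  {c | ∃ y ∈ Nb Q p, c = (y : Gp Q Af ⧸ K)}

/-- The Hecke operator of a set of cosets: `φ ↦ (g ↦ ∑ φ(g c))`, for functions of any kind. -/
def Hk {Gf E : Type} [Group Gf] [AddCommMonoid E] (K : Subgroup Gf) (𝒞 : Set (Gf ⧸ K)) (f : Gf → E) : Gf → E :=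
  fun g => ∑ᶠ c : 𝒞, f (g * Quotient.out c.1)

/-- **The Hecke operator** `Tp` on automorphic forms of level `K` on `G`: the sum over the `p`-neighbours (and `1`). -/
def Tp (Q : Matrix (Fin N) (Fin N) ℚ) (K : Subgroup (Gp Q Af)) (p : Nat.Primes) (φ : Gp Q ℝ → Gp Q Af → ℂ) :
    Gp Q ℝ → Gp Q Af → ℂ := fun x => Hk K (Cp Q K p) (φ x)

/-- The bilinear form of `Q`. -/
def bq {R : Type} [CommRing R] [Algebra ℚ R] (Q : Matrix (Fin N) (Fin N) ℚ) (x y : Fin N → R) : R :=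
  x ⬝ᵥ (Q.map (algebraMap ℚ R) *ᵥ y)

/-- Good primes for `Q`, `e`, `K`: `p` is odd, `K` is `G(ℤ_p)` times a group outside `p`, `Q` is unimodular at `p`, `e` is integral with unit norm at `p`. -/
structure Gd (Q : Matrix (Fin N) (Fin N) ℚ) (e : Fin N → ℚ) (K : Subgroup (Gp Q Af)) (p : Nat.Primes) : Prop where
  odd : (p : ℕ) ≠ 2
  k1 : ∀ k ∈ K, ∀ i j, (k.1.1 i j) (vp p) ∈ (vp p).adicCompletionIntegers ℚ
  k2 : ∀ y ∈ Loc Q p, (∀ i j, y.1.1 i j ∈ Zh) → y ∈ K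
  q1 : ∀ i j, ¬ (p : ℕ) ∣ (Q i j).den
  q2 : ∀ i j, ¬ (p : ℕ) ∣ (Q⁻¹ i j).den
  e1 : ∀ i, ¬ (p : ℕ) ∣ (e i).den
  e2 : ¬ ((p : ℕ) : ℤ) ∣ (e ⬝ᵥ (Q *ᵥ e)).num

/-- The vector `g⁻¹ e` is not integral at `p`. -/
def Dp (Q : Matrix (Fin N) (Fin N) ℚ) (e : Fin N → ℚ) (p : Nat.Primes) : Set (Gp Q Af) :=
  {g | ∃ i, (((g⁻¹).1.1 *ᵥ ve e Af) i) (vp p) ∉ (vp p).adicCompletionIntegers ℚ}

end Pool.Agent.GP
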