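import Pool.Agent.Lib.GP.Full
import Pool.Agent.Lib.GP.Bri

/-!
# GPE in the light form (author helper25)
-/

set_option autoImplicit false

open IsDedekindDomain Matrix MeasureTheory

noncomputable section

namespace Pool.Agent.GP

/-- The invariant matrix gives an invariant bilinear form. -/
theorem pair_inv {G H : Type} [Group G] [TopologicalSpace G] [Group H] [TopologicalSpace H] {n m : ℕ}
    (ρ : MRep G n) (σ : MRep H m) (i : H →* G) (L : Matrix (Fin n) (Fin m) ℂ)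
    (hL : ∀ x, (ρ.hom (i x))ᵀ * L * σ.hom x = L) (x : H) (v : Fin n → ℂ) (w : Fin m → ℂ) :
    (ρ.hom (i x) *ᵥ v) ⬝ᵥ (L *ᵥ (σ.hom x *ᵥ w)) = v ⬝ᵥ (L *ᵥ w) := by
  have h1 : (ρ.hom (i x) *ᵥ v) = v ᵥ* (ρ.hom (i x))ᵀ := (vecMul_transpose _ _).symm
  rw [h1, ← dotProduct_mulVec, mulVec_mulVec, mulVec_mulVec, hL x]

theorem gpLight (N : ℕ) (Q : Matrix (Fin N) (Fin N) ℚ) (e : Fin N → ℚ) (K : Subgroup (SO Q AQ)) (hN : 3 ≤ N)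
    (hQ : PQ Q) (he : e ≠ 0) (hK : CO K) :
    ∃ (p0 : ℕ) (C η : ℝ), 0 < C ∧ 0 < η ∧ ∀ (n m : ℕ) (ρ : MRep (SO Q ℝ) n) (σ : MRep (HH Q e ℝ) m),
      Pairing ρ σ (iH Q e ℝ) → Lev K e ρ → C * (m : ℝ) ^ (2 * N + 5) ≤ n →
        ∀ φ', AutH K σ φ' → φ' ≠ 0 → Partners K ρ p0 φ' (((n : ℝ) / (C * (m : ℝ) ^ (2 * N + 5))) ^ η) := by
  obtain ⟨p0, C, η, hC, hη, h⟩ := gpFull N Q e K hN hQ he hK.1 hK.2
  refine ⟨p0, C, η, hC, hη, ?_⟩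
  intro n m ρ σ hP hlev hbig φ' hφ' hne
  obtain ⟨u, hu1, hu2, hu3⟩ := tBr.1 (SO Q ℝ) n ρ
  obtain ⟨s, hs1, hs2, hs3⟩ := tBr.1 (HH Q e ℝ) m σ
  obtain ⟨L, hL, hLi⟩ := hP
  obtain ⟨l, hl1, hl2⟩ := tBr.2 n m L
  have fn : Module.finrank ℂ (EuclideanSpace ℂ (Fin n)) = n := by simp
  have fm : Module.finrank ℂ (EuclideanSpace ℂ (Fin m)) = m := by simp
  have hinv : ∀ (x : Hp Q e ℝ) (v : EuclideanSpace ℂ (Fin n)) (w : EuclideanSpace ℂ (Fin m)),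
      l (u.act x.1 v) (s.act x w) = l v w := by
    intro x v w
    rw [hl1, hl1]
    have e1 : (u.act x.1 v).ofLp = ρ.hom (iH Q e ℝ x) *ᵥ v.ofLp := hu1 x.1 v
    have e2 : (s.act x w).ofLp = σ.hom x *ᵥ w.ofLp := hs1 x w
    rw [e1, e2]
    exact pair_inv ρ σ (iH Q e ℝ) L hLi x _ _
  have hlev' : (∀ k ∈ (show Subgroup (Gp Q Af) from K), k.1.1 *ᵥ ve e Af ≠ -ve e Af) ∨
      ((∃ k ∈ (show Subgroup (Gp Q Af) from K), k.1.1 = -1) ∧ ∀ z : Gp Q ℝ, z.1.1 = -1 → u.act z = 1) := by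
    rcases hlev with h1 | ⟨h1, h2⟩
    · exact Or.inl h1
    · refine Or.inr ⟨h1, fun z hz => ?_⟩
      refine LinearIsometryEquiv.ext fun v => ?_
      have e1 : (u.act z v).ofLp = ρ.hom z *ᵥ v.ofLp := hu1 z v
      have e2 : ρ.hom z = 1 := h2 z hz
      rw [e2, one_mulVec] at e1
      exact (WithLp.ofLp_injective 2) e1
  have hb := h (EuclideanSpace ℂ (Fin n)) (EuclideanSpace ℂ (Fin m)) u s l hu2 hs2 (hl2 hL) hinv hlev'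
    (by rw [fn, fm]; exact hbig) φ' ((autH_iff K σ s hs3 φ').1 hφ') hne
  rw [fn, fm] at hb
  obtain ⟨r, φ, lam, h1, h2, h3, h4, h5⟩ := hb
  refine ⟨r, φ, lam, h1, fun j => ⟨(autG_iff K ρ u hu3 (φ j)).2 (h2 j), ?_, ?_, ?_⟩⟩
  · exact (pd_eq K (φ j) φ').trans_ne (h5 j)
  · intro p hp
    exact (tk_eq K p (φ j)).trans (h3 j p hp)
  · intro i hi
    obtain ⟨p, hp, hne⟩ := h4 i j hi
    exact ⟨p, hp, hne⟩

end Pool.Agent.GP
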