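import Pool.Agent.Lib.GP.Stm2

/-!
# Gross-Prasad periods on definite orthogonal groups: orthogonal forms on `H` (author helper25)
-/

set_option autoImplicit false

open Matrix MeasureTheory

noncomputable section

namespace Pool.Agent.GP

/-- **The inner product** `∫ conj φ(h) φ'(h) dh` of forms on `Γ \\ H × B / L`, for the same measure as in the period `Pg`: the sum over the double cosets `Γ c L` of `|Γ ∩ c L c⁻¹|⁻¹ ∫ conj φ(x, c) φ'(x, c) dx` over `H`. -/
def Ip {Γ H B : Type} [Group Γ] [Group H] [TopologicalSpace H] [IsTopologicalGroup H] [LocallyCompactSpace H] [Group B]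
    (jf : Γ →* B) (L : Subgroup B) (φ φ' : H → B → ℂ) : ℂ :=
  ∑ᶠ c : Cls jf L, (od jf L (Quotient.out c) : ℂ)⁻¹ *
    @integral H ℂ _ _ (borel H) (hm H) fun x => star (φ x (Quotient.out c)) * φ' x (Quotient.out c)

/-- The forms `φ`, `φ'` on `H` of level `K ∩ H(AQ)` are orthogonal. -/
def Ort {N : ℕ} {Q : Matrix (Fin N) (Fin N) ℚ} (K : Subgroup (SO Q AQ)) {e : Fin N → ℚ}
    (φ φ' : HH Q e ℝ → HH Q e AQ → ℂ) : Prop := Ip (qH Q e AQ) (lH K e) φ φ' = 0

end Pool.Agent.GP
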