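import Pool.Agent.Lib.GP.Bri
import Pool.Agent.Lib.GP.Stm3
import Pool.Agent.Lib.GP.Asm3

/-!
# The light form of GPO (author helper25)
-/

set_option autoImplicit false

open IsDedekindDomain Matrix MeasureTheory

noncomputable section

namespace Pool.Agent.GP

/-- The invariant matrix gives an invariant bilinear form. -/
private theorem pair_inv' {G H : Type} [Group G] [TopologicalSpace G] [Group H] [TopologicalSpace H] {n m : ℕ}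
    (ρ : MRep G n) (σ : MRep H m) (i : H →* G) (L : Matrix (Fin n) (Fin m) ℂ)
    (hL : ∀ x, (ρ.hom (i x))ᵀ * L * σ.hom x = L) (x : H) (v : Fin n → ℂ) (w : Fin m → ℂ) :
    (ρ.hom (i x) *ᵥ v) ⬝ᵥ (L *ᵥ (σ.hom x *ᵥ w)) = v ⬝ᵥ (L *ᵥ w) := by
  have h1 : (ρ.hom (i x) *ᵥ v) = v ᵥ* (ρ.hom (i x))ᵀ := (vecMul_transpose _ _).symm
  rw [h1, ← dotProduct_mulVec, mulVec_mulVec, mulVec_mulVec, hL x]

theorem ort_eq {N : ℕ} {Q : Matrix (Fin N) (Fin N) ℚ} (K : Subgroup (SO Q AQ)) {e : Fin N → ℚ}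
    (φ φ' : HH Q e ℝ → HH Q e AQ → ℂ) (h : Ort K φ φ') : Pet Q e K φ φ' = 0 := by
  have h1 : Ip (qH Q e AQ) (lH K e) φ φ' = Pet Q e K φ φ' := by
    unfold Ip Pet
    refine finsum_congr fun c => ?_
    rw [od_eq]
    rfl
  exact h1.symm.trans h

theorem gpOLight (hO : C_GPO) (N : ℕ) (Q : Matrix (Fin N) (Fin N) ℚ) (e : Fin N → ℚ) (K : Subgroup (SO Q AQ)) (hN : 3 ≤ N)
    (hQ : PQ Q) (he : e ≠ 0) (hK : CO K) :
    ∃ (p0 X0 : ℕ) (C : ℝ), 0 < C ∧ ∀ (n m : ℕ) (ρ : MRep (SO Q ℝ) n) (σ : MRep (HH Q e ℝ) m),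
      Pairing ρ σ (iH Q e ℝ) → Lev K e ρ → ∀ X : ℕ, X0 ≤ X → ∀ (s : ℕ) (ψ : Fin s → HH Q e ℝ → HH Q e AQ → ℂ),
        (∀ i, AutH K σ (ψ i) ∧ ψ i ≠ 0 ∧ ¬ Partners K ρ p0 (ψ i) √X) → (∀ i j, i ≠ j → Ort K (ψ i) (ψ j)) →
          (s : ℝ) ≤ 2 * m * ⌊C * X ^ (12 * N ^ 2 + 2 * N + 8) * (m * ((m : ℝ) / n) ^ (1 / (2 * N + 4 : ℝ)))⌋₊ := by
  obtain ⟨p0, X0, C, hC, h⟩ := hO N Q e K hN hQ he hK.1 hK.2
  refine ⟨p0, X0, C, hC, ?_⟩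
  intro n m ρ σ hP hlev X hX s ψ hψ hort
  obtain ⟨u, hu1, hu2, hu3⟩ := tBr.1 (SO Q ℝ) n ρ
  obtain ⟨t, hs1, hs2, hs3⟩ := tBr.1 (HH Q e ℝ) m σ
  obtain ⟨L, hL, hLi⟩ := hP
  obtain ⟨l, hl1, hl2⟩ := tBr.2 n m L
  have fn : Module.finrank ℂ (EuclideanSpace ℂ (Fin n)) = n := by simp
  have fm : Module.finrank ℂ (EuclideanSpace ℂ (Fin m)) = m := by simp
  have hinv : ∀ (x : Hp Q e ℝ) (v : EuclideanSpace ℂ (Fin n)) (w : EuclideanSpace ℂ (Fin m)),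
      l (u.act x.1 v) (t.act x w) = l v w := by
    intro x v w
    rw [hl1, hl1]
    have e1 : (u.act x.1 v).ofLp = ρ.hom (iH Q e ℝ x) *ᵥ v.ofLp := hu1 x.1 v
    have e2 : (t.act x w).ofLp = σ.hom x *ᵥ w.ofLp := hs1 x w
    rw [e1, e2]
    exact pair_inv' ρ σ (iH Q e ℝ) L hLi x _ _
  have hlev' : (∀ k ∈ (show Subgroup (Gp Q Af) from K), k.1.1 *ᵥ ve e Af ≠ -ve e Af) ∨
      ((∃ k ∈ (show Subgroup (Gp Q Af) from K), k.1.1 = -1) ∧ ∀ z : Gp Q ℝ, z.1.1 = -1 → u.act z = 1) := by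
    rcases hlev with h1 | ⟨h1, h2⟩
    · exact Or.inl h1
    · refine Or.inr ⟨h1, fun z hz => ?_⟩
      refine LinearIsometryEquiv.ext fun v => ?_
      have e1 : (u.act z v).ofLp = ρ.hom z *ᵥ v.ofLp := hu1 z v
      have e2 : ρ.hom z = 1 := h2 z hz
      rw [e2, one_mulVec] at e1
      exact (WithLp.ofLp_injective 2) e1
  have hb := h (EuclideanSpace ℂ (Fin n)) (EuclideanSpace ℂ (Fin m)) u t l hu2 hs2 (hl2 hL) hinv hlev' X hX s ψ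
    (fun j => (autH_iff K σ t hs3 (ψ j)).1 (hψ j).1) (fun j => (hψ j).2.1)
    (fun i j hij => ort_eq K (ψ i) (ψ j) (hort i j hij))
    (fun j hj => by
      obtain ⟨r, hr, φ, lam, h2, h3, h4, h5⟩ := hj
      refine (hψ j).2.2 ⟨r, φ, lam, by rw [Real.sqrt_eq_rpow]; exact hr,
        fun j' => ⟨(autG_iff K ρ u hu3 (φ j')).2 (h2 j'), ?_, ?_, ?_⟩⟩
      · exact (pd_eq K (φ j') (ψ j)).trans_ne (h5 j')
      · intro p hp
        exact (tk_eq K p (φ j')).trans (h3 j' p hp)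
      · intro i hi
        obtain ⟨p, hp, hne⟩ := h4 i j' hi
        exact ⟨p, hp, hne⟩)
  rw [fn, fm] at hb
  exact hb

end Pool.Agent.GP
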