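import Pool.Agent.Lib.GP.Spec5

set_option autoImplicit false

open IsDedekindDomain Matrix MeasureTheory

noncomputable section

namespace Pool.Agent.GP

section

variable {Γ Gf ι : Type} [Group Γ] [Group Gf]

private theorem GM_tr_iff (jf : Γ →* Gf) (K : Subgroup Gf) (g g' y y0 κ k0 : Gf) (γ0 γ : Γ)
    (h1 : g * y = jf γ0 * g' * κ) (hκ : κ ∈ K) (h2 : y0 = y * k0) (hk0 : k0 ∈ K) (u : Gf) :
    γ ∈ tr jf K u (g * y0) ↔ γ0⁻¹ * γ ∈ tr jf K u g' := by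
  unfold tr
  change (g * y0)⁻¹ * (jf γ * u) ∈ K ↔ g'⁻¹ * (jf (γ0⁻¹ * γ) * u) ∈ K
  have e : (g * y0)⁻¹ * (jf γ * u) = (κ * k0)⁻¹ * (g'⁻¹ * (jf (γ0⁻¹ * γ) * u)) := by
    rw [h2, ← mul_assoc g y k0, h1, map_mul, map_inv]
    group
  rw [e]
  exact Subgroup.mul_mem_cancel_left K (K.inv_mem (K.mul_mem hκ hk0))

private theorem GM_cosetS {G V : Type} [Group G] [TopologicalSpace G] [NormedAddCommGroup V]
    [InnerProductSpace ℂ V] [Fintype ι] (ja : Γ →* G) (jf : Γ →* Gf) (K : Subgroup Gf)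
    (ΓH : Subgroup Γ) (Hf : Subgroup Gf) (ρ : URep G V) (z : ι → Gf)
    (hfin : ∀ g g' : Gf, (tr jf K g g').Finite) (hΓH : ∀ γ ∈ ΓH, jf γ ∈ Hf) (hz : ∀ i, z i ∈ Hf)
    (hine : ∀ i j, ∀ γ ∈ ΓH, γ ∈ tr jf K (z i) (z j) → i = j)
    (hcov : ∀ h ∈ Hf, ∃ i, ∃ γ ∈ ΓH, ∃ κ ∈ K, κ ∈ Hf ∧ h = jf γ * z i * κ)
    (F : Gf → V)
    (hF : ∀ γ ∈ ΓH, ∀ h ∈ Hf, ∀ κ ∈ K, κ ∈ Hf → F (jf γ * h * κ) = ρ.act (ja γ) (F h))
    (i : ι) (h : Gf) (hh : h ∈ Hf) (y0 k0 : Gf) (hy0 : y0 = h * k0) (hk0 : k0 ∈ K) :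
    ∑ i', (wt jf K ΓH z i' : ℂ) •
      ∑ᶠ γ : {γ : Γ // γ ∈ ΓH ∧ γ ∈ tr jf K (z i') (z i * y0)}, ρ.act (ja γ.1) (F (z i')) =
        F (z i * h) := by
  classical
  obtain ⟨i0, γ0, hγ0, κ, hκ, hκH, e⟩ := hcov (z i * h) (Hf.mul_mem (hz i) hh)
  have hiff : ∀ (γ : Γ) (u : Gf), γ ∈ tr jf K u (z i * y0) ↔ γ0⁻¹ * γ ∈ tr jf K u (z i0) :=
    fun γ u => GM_tr_iff jf K (z i) (z i0) h y0 κ k0 γ0 γ e hκ hy0 hk0 u
  rw [Finset.sum_eq_single i0]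
  · have hterm : ∀ γ : {γ : Γ // γ ∈ ΓH ∧ γ ∈ tr jf K (z i0) (z i * y0)},
        ρ.act (ja γ.1) (F (z i0)) = F (z i * h) := by
      intro γ
      have h1 := hF γ.1 γ.2.1 (z i0) (hz i0) 1 K.one_mem Hf.one_mem
      rw [mul_one] at h1
      rw [← h1]
      have hm : (z i * y0)⁻¹ * (jf γ.1 * z i0) ∈ K := γ.2.2
      have hκ' : (z i * h)⁻¹ * (jf γ.1 * z i0) ∈ K := by
        have e2 : (z i * h)⁻¹ * (jf γ.1 * z i0) = k0 * ((z i * y0)⁻¹ * (jf γ.1 * z i0)) := by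
          have e3 : h = y0 * k0⁻¹ := by rw [hy0, mul_inv_cancel_right]
          rw [e3]
          group
        rw [e2]
        exact K.mul_mem hk0 hm
      have hκH' : (z i * h)⁻¹ * (jf γ.1 * z i0) ∈ Hf :=
        Hf.mul_mem (Hf.inv_mem (Hf.mul_mem (hz i) hh)) (Hf.mul_mem (hΓH _ γ.2.1) (hz i0))
      have h3 := hF 1 ΓH.one_mem (z i * h) (Hf.mul_mem (hz i) hh) _ hκ' hκH'
      rw [map_one, map_one, map_one, one_mul] at h3
      have e4 : z i * h * ((z i * h)⁻¹ * (jf γ.1 * z i0)) = jf γ.1 * z i0 := by group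
      rw [e4] at h3
      rw [h3]
      rfl
    have hcard : Nat.card {γ : Γ // γ ∈ ΓH ∧ γ ∈ tr jf K (z i0) (z i * y0)} =
        st ΓH jf K (z i0) := by
      unfold st
      refine Nat.card_congr ⟨fun γ => ⟨γ0⁻¹ * γ.1, ΓH.mul_mem (ΓH.inv_mem hγ0) γ.2.1,
        (hiff γ.1 (z i0)).1 γ.2.2⟩, fun γ => ⟨γ0 * γ.1, ΓH.mul_mem hγ0 γ.2.1, ?_⟩, ?_, ?_⟩
      · rw [hiff, inv_mul_cancel_left]
        exact γ.2.2
      · intro γ
        exact Subtype.ext (mul_inv_cancel_left γ0 γ.1)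
      · intro γ
        exact Subtype.ext (inv_mul_cancel_left γ0 γ.1)
    have hst : (st ΓH jf K (z i0) : ℕ) ≠ 0 := by
      unfold st
      have hfi : Finite {γ : Γ // γ ∈ ΓH ∧ γ ∈ tr jf K (z i0) (z i0)} :=
        ((hfin (z i0) (z i0)).subset (fun γ hγ => hγ.2 :
          {γ : Γ | γ ∈ ΓH ∧ γ ∈ tr jf K (z i0) (z i0)} ⊆ _)).to_subtype
      have hne : Nonempty {γ : Γ // γ ∈ ΓH ∧ γ ∈ tr jf K (z i0) (z i0)} := by
        refine ⟨⟨1, ΓH.one_mem, ?_⟩⟩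
        change (z i0)⁻¹ * (jf 1 * z i0) ∈ K
        rw [map_one, one_mul, inv_mul_cancel]
        exact K.one_mem
      exact Nat.card_pos.ne'
    have hfi2 : Finite {γ : Γ // γ ∈ ΓH ∧ γ ∈ tr jf K (z i0) (z i * y0)} :=
      ((hfin (z i0) (z i * y0)).subset (fun γ hγ => hγ.2 :
          {γ : Γ | γ ∈ ΓH ∧ γ ∈ tr jf K (z i0) (z i * y0)} ⊆ _)).to_subtype
    have hft : Fintype {γ : Γ // γ ∈ ΓH ∧ γ ∈ tr jf K (z i0) (z i * y0)} := Fintype.ofFinite _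
    rw [finsum_congr hterm, finsum_eq_sum_of_fintype, Finset.sum_const, Finset.card_univ,
      ← Nat.card_eq_fintype_card, hcard]
    have hst' : ((st ΓH jf K (z i0) : ℕ) : ℂ) ≠ 0 := Nat.cast_ne_zero.2 hst
    have hw : ((wt jf K ΓH z i0 : ℝ) : ℂ) = ((st ΓH jf K (z i0) : ℕ) : ℂ)⁻¹ := by
      unfold wt
      push_cast
      rfl
    rw [hw, ← Nat.cast_smul_eq_nsmul ℂ, smul_smul, inv_mul_cancel₀ hst', one_smul]
  · intro i' _ hi'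
    have hE : IsEmpty {γ : Γ // γ ∈ ΓH ∧ γ ∈ tr jf K (z i') (z i * y0)} := by
      refine ⟨fun γ => hi' ?_⟩
      exact hine i' i0 (γ0⁻¹ * γ.1) (ΓH.mul_mem (ΓH.inv_mem hγ0) γ.2.1) ((hiff γ.1 (z i')).1 γ.2.2)
    rw [finsum_of_isEmpty, smul_zero]
  · intro hn
    exact absurd (Finset.mem_univ i0) hn

end

theorem tGM : S_GM := by
  intro Γ G Gf V ι _ _ _ _ _ _ _ ja jf K ΓH Hf ρ z 𝒴 hfin hΓH hz hine hcov hcs hY F hF i
  classical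
  let i1 : Fintype (cs K 𝒴) := hcs.fintype
  have hsub : ∀ c' : cs (K.comap Hf.subtype) (resY Hf 𝒴), ((Quotient.out c'.1 : Hf) : Gf) ∈ 𝒴 := by
    intro c'
    obtain ⟨c', y, hy, rfl⟩ := c'
    obtain ⟨k, hk⟩ := QuotientGroup.mk_out_eq_mul (K.comap Hf.subtype) y
    change ((Quotient.out (y : Hf ⧸ K.comap Hf.subtype) : Hf) : Gf) ∈ 𝒴
    rw [hk]
    have h1 : (y : Gf) * ((k.1 : Hf) : Gf) ∈ 𝒴 := hY y hy _ k.2
    exact h1
  let Φ : cs (K.comap Hf.subtype) (resY Hf 𝒴) → cs K 𝒴 := fun c' =>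
    ⟨(((Quotient.out c'.1 : Hf) : Gf) : Gf ⧸ K), ⟨_, hsub c', rfl⟩⟩
  have hΦ : Function.Injective Φ := by
    intro c1 c2 h12
    have h1 : ((((Quotient.out c1.1 : Hf) : Gf) : Gf ⧸ K)) = (((Quotient.out c2.1 : Hf) : Gf) : Gf ⧸ K) :=
      congrArg Subtype.val h12
    have h2 := QuotientGroup.eq.1 h1
    have h3 : (Quotient.out c1.1)⁻¹ * Quotient.out c2.1 ∈ K.comap Hf.subtype := h2
    have h4 : ((Quotient.out c1.1 : Hf) : Hf ⧸ K.comap Hf.subtype) = ((Quotient.out c2.1 : Hf) : Hf ⧸ K.comap Hf.subtype) :=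
      QuotientGroup.eq.2 h3
    rw [QuotientGroup.out_eq', QuotientGroup.out_eq'] at h4
    exact Subtype.ext h4
  set S : cs K 𝒴 → V := fun c => ∑ i', (wt jf K ΓH z i' : ℂ) •
    ∑ᶠ γ : {γ : Γ // γ ∈ ΓH ∧ γ ∈ tr jf K (z i') (z i * Quotient.out c.1)}, ρ.act (ja γ.1) (F (z i'))
    with hS
  have hL : ∑ i', (wt jf K ΓH z i' : ℂ) • ∑ᶠ c : cs K 𝒴,
      ∑ᶠ γ : {γ : Γ // γ ∈ ΓH ∧ γ ∈ tr jf K (z i') (z i * Quotient.out c.1)},
        ρ.act (ja γ.1) (F (z i')) = ∑ᶠ c : cs K 𝒴, S c := by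
    rw [finsum_eq_sum_of_fintype, hS, Finset.sum_comm]
    refine Finset.sum_congr rfl fun i' _ => ?_
    rw [finsum_eq_sum_of_fintype, Finset.smul_sum]
  rw [hL]
  have hval : ∀ c', S (Φ c') = F (z i * ((Quotient.out c'.1 : Hf) : Gf)) := by
    intro c'
    obtain ⟨k, hk⟩ := QuotientGroup.mk_out_eq_mul K ((Quotient.out c'.1 : Hf) : Gf)
    exact GM_cosetS ja jf K ΓH Hf ρ z hfin hΓH hz hine hcov F hF i _ (Quotient.out c'.1 : Hf).2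
      (Quotient.out (Φ c').1) k.1 hk k.2
  have hzero : ∀ c, c ∉ Set.range Φ → S c = 0 := by
    intro c hc
    rw [hS]
    refine Finset.sum_eq_zero fun i' _ => ?_
    have hE : IsEmpty {γ : Γ // γ ∈ ΓH ∧ γ ∈ tr jf K (z i') (z i * Quotient.out c.1)} := by
      refine ⟨fun γ => hc ?_⟩
      have hm : (z i * Quotient.out c.1)⁻¹ * (jf γ.1 * z i') ∈ K := γ.2.2
      have hH : (z i)⁻¹ * (jf γ.1 * z i') ∈ Hf :=
        Hf.mul_mem (Hf.inv_mem (hz i)) (Hf.mul_mem (hΓH _ γ.2.1) (hz i'))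
      have hK : (Quotient.out c.1)⁻¹ * ((z i)⁻¹ * (jf γ.1 * z i')) ∈ K := by
        have e2 : (Quotient.out c.1)⁻¹ * ((z i)⁻¹ * (jf γ.1 * z i')) =
            (z i * Quotient.out c.1)⁻¹ * (jf γ.1 * z i') := by
          group
        rw [e2]
        exact hm
      have hY1 : Quotient.out c.1 ∈ 𝒴 := by
        obtain ⟨c, y, hy, rfl⟩ := c
        obtain ⟨k, hk⟩ := QuotientGroup.mk_out_eq_mul K y
        change Quotient.out (y : Gf ⧸ K) ∈ 𝒴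
        rw [hk]
        exact hY y hy k.1 k.2
      have hY2 : (z i)⁻¹ * (jf γ.1 * z i') ∈ 𝒴 := by
        have h1 := hY _ hY1 _ hK
        rwa [mul_inv_cancel_left] at h1
      let h : Hf := ⟨(z i)⁻¹ * (jf γ.1 * z i'), hH⟩
      refine ⟨⟨(h : Hf ⧸ K.comap Hf.subtype), ⟨h, hY2, rfl⟩⟩, ?_⟩
      refine Subtype.ext ?_
      change ((((Quotient.out (h : Hf ⧸ K.comap Hf.subtype) : Hf) : Gf) : Gf ⧸ K)) = c.1
      obtain ⟨k, hk⟩ := QuotientGroup.mk_out_eq_mul (K.comap Hf.subtype) h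
      have e5 : ((Quotient.out (h : Hf ⧸ K.comap Hf.subtype) : Hf) : Gf) = (h : Gf) * ((k.1 : Hf) : Gf) := by
        rw [hk]
        rfl
      have e6 : ((((Quotient.out (h : Hf ⧸ K.comap Hf.subtype) : Hf) : Gf) : Gf ⧸ K)) = ((h : Gf) : Gf ⧸ K) := by
        rw [e5]
        refine QuotientGroup.eq.2 ?_
        have h1 : ((h : Gf) * ((k.1 : Hf) : Gf))⁻¹ * (h : Gf) = (((k.1 : Hf) : Gf))⁻¹ := by group
        rw [h1]
        exact K.inv_mem k.2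
      rw [e6]
      have e7 : ((Quotient.out c.1 : Gf) : Gf ⧸ K) = c.1 := QuotientGroup.out_eq' c.1
      rw [← e7]
      exact (QuotientGroup.eq.2 hK).symm
    rw [finsum_of_isEmpty, smul_zero]
  have hsupp : Function.support S ⊆ Set.range Φ := by
    intro c hc
    by_contra hn
    exact hc (hzero c hn)
  have h1 : ∑ᶠ c : cs K 𝒴, S c = ∑ᶠ c ∈ Set.range Φ, S c := by
    rw [← finsum_mem_univ]
    exact (finsum_mem_inter_support_eq S Set.univ (Set.range Φ) (by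
      rw [Set.univ_inter, Set.inter_eq_self_of_subset_right hsupp]))
  rw [h1, finsum_mem_range hΦ]
  exact finsum_congr hval

end Pool.Agent.GP
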