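import Pool.Agent.Lib.GP.Spec5

set_option autoImplicit false

open IsDedekindDomain Matrix MeasureTheory

noncomputable section

namespace Pool.Agent.GP

private theorem LM_split {Γ V : Type} [Group Γ] [AddCommMonoid V] (ΓH : Subgroup Γ) (T : Set Γ)
    (hT : T.Finite) (h : Γ → V) :
    ∑ᶠ γ : T, h γ.1 = ∑ᶠ γ : {γ : Γ // γ ∈ ΓH ∧ γ ∈ T}, h γ.1 +
      ∑ᶠ γ : {γ : Γ // γ ∈ T ∧ γ ∉ ΓH}, h γ.1 := by
  have h1 : T ∩ (ΓH : Set Γ) = {γ : Γ | γ ∈ ΓH ∧ γ ∈ T} := by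
    ext γ
    exact and_comm
  have h2 : T \ (ΓH : Set Γ) = {γ : Γ | γ ∈ T ∧ γ ∉ ΓH} := rfl
  rw [finsum_set_coe_eq_finsum_mem (f := h) T, ← finsum_mem_inter_add_sdiff (ΓH : Set Γ) hT, h1, h2]
  congr 1
  · exact (finsum_set_coe_eq_finsum_mem (f := h) {γ : Γ | γ ∈ ΓH ∧ γ ∈ T}).symm
  · exact (finsum_set_coe_eq_finsum_mem (f := h) {γ : Γ | γ ∈ T ∧ γ ∉ ΓH}).symm

private theorem LM_out {Gf : Type} [Group Gf] (K : Subgroup Gf) (𝒴 : Set Gf)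
    (hY : ∀ y ∈ 𝒴, ∀ k ∈ K, y * k ∈ 𝒴) (c : cs K 𝒴) : Quotient.out c.1 ∈ 𝒴 := by
  obtain ⟨c, y, hy, rfl⟩ := c
  obtain ⟨k, hk⟩ := QuotientGroup.mk_out_eq_mul K y
  change Quotient.out (y : Gf ⧸ K) ∈ 𝒴
  rw [hk]
  exact hY y hy k.1 k.2

private abbrev LM_fib {Γ Gf ι : Type} [Group Γ] [Group Gf] (jf : Γ →* Gf) (K : Subgroup Gf)
    (ΓH : Subgroup Γ) (z : ι → Gf) (𝒴 : Set Gf) (q : ι × ι × cs K 𝒴) : Type :=
  {γ : Γ // γ ∈ tr jf K (z q.1) (z q.2.1 * Quotient.out q.2.2.1) ∧ γ ∉ ΓH}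

theorem tLM : S_LM := by
  intro hGM Γ G Gf V ι _ _ _ _ _ _ _ ja jf K ΓH Hf ρ z 𝒴 hfin hΓH hz hine hcov hcs hY n1 hn1
  classical
  let i1 : Fintype (cs K 𝒴) := hcs.fintype
  have i2 : ∀ q : ι × ι × cs K 𝒴, Finite (LM_fib jf K ΓH z 𝒴 q) := fun q =>
    ((hfin (z q.1) (z q.2.1 * Quotient.out q.2.2.1)).subset fun γ hγ => hγ.1).to_subtype
  let i3 : ∀ q : ι × ι × cs K 𝒴, Fintype (LM_fib jf K ΓH z 𝒴 q) := fun q => Fintype.ofFinite _
  refine ⟨(q : ι × ι × cs K 𝒴) × LM_fib jf K ΓH z 𝒴 q, inferInstance, fun t => t.1.1,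
    fun t => t.1.2.1, fun t => t.2.1, ?_, ?_, ?_⟩
  · rw [Fintype.card_sigma]
    have h1 : ∀ q ∈ (Finset.univ : Finset (ι × ι × cs K 𝒴)),
        Fintype.card (LM_fib jf K ΓH z 𝒴 q) ≤ n1 := by
      intro q _
      refine le_trans ?_ (hn1 q.1 q.2.1 (Quotient.out q.2.2.1) (LM_out K 𝒴 hY q.2.2))
      rw [← Nat.card_eq_fintype_card]
      exact Set.ncard_le_ncard (s := {γ : Γ | γ ∈ tr jf K (z q.1) (z q.2.1 * Quotient.out q.2.2.1) ∧
        γ ∉ ΓH}) (fun γ hγ => hγ.1) (hfin _ _)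
    refine (Finset.sum_le_sum h1).trans ?_
    rw [Finset.sum_const, Finset.card_univ, Fintype.card_prod, Fintype.card_prod, smul_eq_mul,
      Set.ncard_eq_toFinset_card', Set.toFinset_card]
    exact le_of_eq (by ring)
  · intro t
    exact ⟨t.2.2.2, Quotient.out t.1.2.2.1, LM_out K 𝒴 hY _, t.2.2.1⟩
  · intro F hF
    have hk : ∀ i, Hk K (cs K 𝒴)
        (fun g' => ∑ i', (wt jf K ΓH z i' : ℂ) • RP ja jf K ρ (z i') (F (z i')) g') (z i) =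
        (∑ᶠ c' : cs (K.comap Hf.subtype) (resY Hf 𝒴), F (z i * (Quotient.out c'.1 : Hf))) +
        ∑ c : cs K 𝒴, ∑ i', (wt jf K ΓH z i' : ℂ) •
          ∑ γ : LM_fib jf K ΓH z 𝒴 (i', i, c), ρ.act (ja γ.1) (F (z i')) := by
      intro i
      rw [← hGM Γ G Gf V ι ja jf K ΓH Hf ρ z 𝒴 hfin hΓH hz hine hcov hcs hY F hF i]
      unfold Hk RP
      rw [finsum_eq_sum_of_fintype]
      have h1 : ∀ (c : cs K 𝒴) (i' : ι),
          ∑ᶠ γ : tr jf K (z i') (z i * Quotient.out c.1), ρ.act (ja γ.1) (F (z i')) =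
          (∑ᶠ γ : {γ : Γ // γ ∈ ΓH ∧ γ ∈ tr jf K (z i') (z i * Quotient.out c.1)},
            ρ.act (ja γ.1) (F (z i'))) +
          ∑ γ : LM_fib jf K ΓH z 𝒴 (i', i, c), ρ.act (ja γ.1) (F (z i')) := by
        intro c i'
        rw [LM_split ΓH _ (hfin _ _) (fun γ => ρ.act (ja γ) (F (z i')))]
        congr 1
        exact finsum_eq_sum_of_fintype (α := LM_fib jf K ΓH z 𝒴 (i', i, c))
          (fun γ => ρ.act (ja γ.1) (F (z i')))
      simp only [h1, smul_add, Finset.sum_add_distrib]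
      congr 1
      rw [Finset.sum_comm]
      refine Finset.sum_congr rfl fun i' _ => ?_
      rw [← Finset.smul_sum, finsum_eq_sum_of_fintype]
    simp only [hk, inner_add_left, mul_add, Finset.sum_add_distrib]
    congr 1
    rw [Fintype.sum_sigma, Fintype.sum_prod_type]
    simp only [Fintype.sum_prod_type]
    rw [Finset.sum_comm]
    refine Finset.sum_congr rfl fun i _ => ?_
    rw [Finset.sum_comm, sum_inner, Finset.mul_sum]
    refine Finset.sum_congr rfl fun c _ => ?_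
    rw [sum_inner, Finset.mul_sum]
    refine Finset.sum_congr rfl fun i' _ => ?_
    rw [inner_smul_left, sum_inner, Complex.conj_ofReal, Finset.mul_sum, Finset.mul_sum]
    refine Finset.sum_congr rfl fun γ _ => ?_
    push_cast
    ring

end Pool.Agent.GP
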