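import Pool.Agent.Lib.GP.Spec5

/-!
# Theorem MOM, module OS2: the variance over an orthonormal system
-/

set_option autoImplicit false

open IsDedekindDomain Matrix MeasureTheory

noncomputable section

namespace Pool.Agent.GP

private theorem OS2_key (hHS : C_HS) {V : Type} [NormedAddCommGroup V] [InnerProductSpace ℂ V]
    [FiniteDimensional ℂ V] {ι μ : Type} [Fintype ι] [Fintype μ] (B : μ → PiLp 2 fun _ : ι => V)
    (hB : Orthonormal ℂ B) (D : V →ₗ[ℂ] V) (q : ι) : ∑ k, ‖D (B k q)‖ ^ 2 ≤ hs2 D := by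
  classical
  have bes : ∀ w : V, ∑ k, ‖inner ℂ w (B k q)‖ ^ 2 ≤ ‖w‖ ^ 2 := by
    intro w
    obtain ⟨w', hw'⟩ : ∃ w' : PiLp 2 fun _ : ι => V, w' = WithLp.toLp 2 (Pi.single q w) := ⟨_, rfl⟩
    have hq : w' q = w := by
      rw [hw']
      exact Pi.single_eq_same (M := fun _ : ι => V) q w
    have hne : ∀ i, i ≠ q → w' i = 0 := by
      intro i hi
      rw [hw']
      exact Pi.single_eq_of_ne (M := fun _ : ι => V) hi w
    have hin : ∀ x : PiLp 2 fun _ : ι => V, inner ℂ x w' = inner ℂ (x q) w := by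
      intro x
      rw [PiLp.inner_apply, Finset.sum_eq_single q]
      · rw [hq]
      · intro i _ hi
        rw [hne i hi, inner_zero_right]
      · intro h
        exact absurd (Finset.mem_univ q) h
    have hnorm : ‖w'‖ ^ 2 = ‖w‖ ^ 2 := by
      rw [PiLp.norm_sq_eq_of_L2, Finset.sum_eq_single q]
      · rw [hq]
      · intro i _ hi
        rw [hne i hi, norm_zero]
        norm_num
      · intro h
        exact absurd (Finset.mem_univ q) h
    have h1 := hB.sum_inner_products_le w' (s := Finset.univ)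
    rw [hnorm] at h1
    refine le_trans (le_of_eq (Finset.sum_congr rfl (fun k _ => ?_))) h1
    rw [hin, norm_inner_symm]
  have h1 : ∑ k, ‖D (B k q)‖ ^ 2 =
      ∑ i, ∑ k, ‖inner ℂ (LinearMap.adjoint D (stdOrthonormalBasis ℂ V i)) (B k q)‖ ^ 2 := by
    rw [Finset.sum_comm]
    refine Finset.sum_congr rfl (fun k _ => ?_)
    rw [← (stdOrthonormalBasis ℂ V).sum_sq_norm_inner_right (D (B k q))]
    refine Finset.sum_congr rfl (fun i _ => ?_)
    rw [LinearMap.adjoint_inner_left]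
  have h2 : hs2 (LinearMap.adjoint D) = hs2 D :=
    (hHS V).2.1 _ _ (fun u v => LinearMap.adjoint_inner_left D v u)
  rw [h1, ← h2]
  unfold hs2
  exact Finset.sum_le_sum (fun i _ => bes _)

/-- **OS2.** -/
theorem tOS2 : S_OS2 := by
  intro hHS V ι κ _ _ _ _ _ I I' D w β s d F h1 h2 h4
  classical
  -- the orthonormal system
  obtain ⟨x, hx⟩ : ∃ x : Fin s → PiLp 2 (fun _ : Fin d × ι => V),
      x = fun j => WithLp.toLp 2 (fun p => (√(w p.2) : ℂ) • F j p.1 p.2) := ⟨_, rfl⟩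
  have hxa : ∀ j (p : Fin d × ι), x j p = (√(w p.2) : ℂ) • F j p.1 p.2 := by
    intro j p
    rw [hx]
  have hxo : Orthonormal ℂ x := by
    rw [orthonormal_iff_ite]
    intro j j'
    rw [← h4 j j', PiLp.inner_apply, Fintype.sum_prod_type]
    refine Finset.sum_congr rfl (fun k _ => Finset.sum_congr rfl (fun i _ => ?_))
    rw [hxa, hxa, inner_smul_left, inner_smul_right, Complex.conj_ofReal, ← mul_assoc,
      ← Complex.ofReal_mul]
    change ((√(w i) * √(w i) : ℝ) : ℂ) * _ = _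
    rw [Real.mul_self_sqrt (h1 i).1.le]
  have hsum1 : ∀ j, ∑ k, ∑ i, ‖x j (k, i)‖ ^ 2 = 1 := by
    intro j
    have := PiLp.norm_sq_eq_of_L2 (fun _ : Fin d × ι => V) (x j)
    rw [hxo.1 j, Fintype.sum_prod_type] at this
    rw [← this]
    norm_num
  have hcol : ∀ j i, ∑ k, ‖x j (k, i)‖ ^ 2 ≤ 1 := by
    intro j i
    rw [← hsum1 j]
    refine Finset.sum_le_sum (fun k _ => ?_)
    exact Finset.single_le_sum (f := fun i => ‖x j (k, i)‖ ^ 2) (fun i _ => sq_nonneg _)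
      (Finset.mem_univ i)
  obtain ⟨A, hA⟩ : ∃ A : Fin s → κ → ℝ, A = fun j t => ∑ k, ‖D t (x j (k, I t))‖ ^ 2 := ⟨_, rfl⟩
  have hone : ∀ j, ‖∑ k, ∑ t, ((w (I t) * w (I' t) : ℝ) : ℂ) *
      inner ℂ (D t (F j k (I t))) (F j k (I' t))‖ ^ 2 ≤ (Fintype.card κ : ℝ) * ∑ t, A j t := by
    intro j
    obtain ⟨a, ha⟩ : ∃ a : κ → ℝ, a = fun t => ∑ k, ‖D t (x j (k, I t))‖ * ‖x j (k, I' t)‖ := ⟨_, rfl⟩
    have b1 : ‖∑ k, ∑ t, ((w (I t) * w (I' t) : ℝ) : ℂ) *
        inner ℂ (D t (F j k (I t))) (F j k (I' t))‖ ≤ ∑ t, a t := by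
      have b51 : ∑ t, a t = ∑ k, ∑ t, ‖D t (x j (k, I t))‖ * ‖x j (k, I' t)‖ := by
        rw [ha, Finset.sum_comm]
      rw [b51]
      refine (norm_sum_le _ _).trans (Finset.sum_le_sum (fun k _ => ?_))
      refine (norm_sum_le _ _).trans (Finset.sum_le_sum (fun t _ => ?_))
      refine le_trans ?_ (norm_inner_le_norm (𝕜 := ℂ) (D t (x j (k, I t))) (x j (k, I' t)))
      rw [hxa, hxa, map_smul, inner_smul_left, inner_smul_right, Complex.conj_ofReal, norm_mul, norm_mul, norm_mul,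
        Complex.norm_real, Complex.norm_real, Complex.norm_real, Real.norm_eq_abs, Real.norm_eq_abs, Real.norm_eq_abs,
        abs_of_nonneg (Real.sqrt_nonneg _), abs_of_nonneg (Real.sqrt_nonneg _),
        abs_of_nonneg (mul_nonneg (h1 _).1.le (h1 _).1.le), ← mul_assoc]
      refine mul_le_mul_of_nonneg_right ?_ (norm_nonneg _)
      have e : ∀ i, w i ≤ √(w i) := by
        intro i
        have := Real.mul_self_sqrt (h1 i).1.le
        have e2 : √(w i) ≤ 1 := Real.sqrt_le_one.2 (h1 i).2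
        nlinarith [Real.sqrt_nonneg (w i)]
      exact mul_le_mul (e _) (e _) (h1 _).1.le (Real.sqrt_nonneg _)
    have b6 : ∀ t, a t ^ 2 ≤ A j t := by
      intro t
      rw [ha, hA]
      have c1 : (∑ k, ‖D t (x j (k, I t))‖ * ‖x j (k, I' t)‖) ^ 2 ≤
          (∑ k, ‖D t (x j (k, I t))‖ ^ 2) * ∑ k, ‖x j (k, I' t)‖ ^ 2 := Finset.sum_mul_sq_le_sq_mul_sq _ _ _
      exact c1.trans (mul_le_of_le_one_right (Finset.sum_nonneg (fun k _ => sq_nonneg _)) (hcol j (I' t)))
    have b7 := sq_sum_le_card_mul_sum_sq (s := (Finset.univ : Finset κ)) (f := a)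
    rw [Finset.card_univ] at b7
    refine (pow_le_pow_left₀ (norm_nonneg _) b1 2).trans (b7.trans ?_)
    exact mul_le_mul_of_nonneg_left (Finset.sum_le_sum (fun t _ => b6 t)) (by positivity)
  have hbeta : ∀ _t : κ, 0 ≤ β := fun t => ((hHS V).2.2.2.1 (D t) 0).1.trans (h2 t)
  have hA1 : ∀ t, ∑ j, A j t ≤ s * β := by
    intro t
    have e1 : ∀ j, A j t ≤ β := by
      intro j
      rw [hA]
      change ∑ k, ‖D t (x j (k, I t))‖ ^ 2 ≤ β
      have e2 : ∀ k ∈ (Finset.univ : Finset (Fin d)), ‖D t (x j (k, I t))‖ ^ 2 ≤ β * ‖x j (k, I t)‖ ^ 2 := fun k _ =>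
        ((hHS V).2.2.2.1 (D t) _).2.trans (mul_le_mul_of_nonneg_right (h2 t) (sq_nonneg _))
      refine (Finset.sum_le_sum e2).trans ?_
      rw [← Finset.mul_sum]
      exact mul_le_of_le_one_right (hbeta t) (hcol j (I t))
    refine (Finset.sum_le_sum (fun j _ => e1 j)).trans (le_of_eq ?_)
    simp
  have hA2 : ∀ t, ∑ j, A j t ≤ d * β := by
    intro t
    rw [hA]
    change ∑ j, ∑ k, ‖D t (x j (k, I t))‖ ^ 2 ≤ _
    rw [Finset.sum_comm]
    refine (Finset.sum_le_sum (fun k _ => (OS2_key hHS x hxo (D t) (k, I t)).trans (h2 t))).trans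
      (le_of_eq ?_)
    simp
  have hA3 : ∀ t, ∑ j, A j t ≤ ((min s d : ℕ) : ℝ) * β := by
    intro t
    rcases le_total s d with h | h
    · rw [min_eq_left h]
      exact hA1 t
    · rw [min_eq_right h]
      exact hA2 t
  refine (Finset.sum_le_sum (fun j _ => hone j)).trans ?_
  rw [← Finset.mul_sum, Finset.sum_comm]
  calc (Fintype.card κ : ℝ) * ∑ t, ∑ j, A j t
      ≤ (Fintype.card κ : ℝ) * ∑ _t : κ, ((min s d : ℕ) : ℝ) * β :=
        mul_le_mul_of_nonneg_left (Finset.sum_le_sum (fun t _ => hA3 t)) (by positivity)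
    _ = (Fintype.card κ : ℝ) ^ 2 * (((min s d : ℕ) : ℝ) * β) := by
        rw [Finset.sum_const, Finset.card_univ, nsmul_eq_mul]
        ring

end Pool.Agent.GP
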