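import Pool.Agent.Lib.GP.Spec5

set_option autoImplicit false

open IsDedekindDomain Matrix MeasureTheory

noncomputable section

namespace Pool.Agent.GP

section

variable {Γ G Gf V : Type} [Group Γ] [Group G] [TopologicalSpace G] [Group Gf] [NormedAddCommGroup V]
  [InnerProductSpace ℂ V]

private theorem rp_mem_tr {jf : Γ →* Gf} {K : Subgroup Gf} {g g' : Gf} {γ : Γ} :
    γ ∈ tr jf K g g' ↔ g'⁻¹ * (jf γ * g) ∈ K := Iff.rfl

/-- Left translation of the transporter. -/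
private def rpEquiv (jf : Γ →* Gf) (K : Subgroup Gf) (g g' : Gf) (δ : Γ) (k : Gf) (hk : k ∈ K) :
    tr jf K g g' ≃ tr jf K g (jf δ * g' * k) where
  toFun γ := ⟨δ * γ.1, by
    have h : g'⁻¹ * (jf γ.1 * g) ∈ K := γ.2
    rw [rp_mem_tr, map_mul]
    have e : (jf δ * g' * k)⁻¹ * (jf δ * jf γ.1 * g) = k⁻¹ * (g'⁻¹ * (jf γ.1 * g)) := by group
    rw [e]
    exact K.mul_mem (K.inv_mem hk) h⟩
  invFun γ := ⟨δ⁻¹ * γ.1, by
    have h : (jf δ * g' * k)⁻¹ * (jf γ.1 * g) ∈ K := γ.2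
    rw [rp_mem_tr, map_mul, map_inv]
    have e : g'⁻¹ * ((jf δ)⁻¹ * jf γ.1 * g) = k * ((jf δ * g' * k)⁻¹ * (jf γ.1 * g)) := by group
    rw [e]
    exact K.mul_mem hk h⟩
  left_inv γ := Subtype.ext (by simp)
  right_inv γ := Subtype.ext (by simp)

/-- Right translation of the transporter. -/
private def rpEquiv2 (jf : Γ →* Gf) (K : Subgroup Gf) (g g' y : Gf) (δ : Γ) (k : Gf) (hk : k ∈ K)
    (hg : g = jf δ * y * k) : tr jf K g g' ≃ tr jf K y g' where
  toFun γ := ⟨γ.1 * δ, by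
    have h : g'⁻¹ * (jf γ.1 * g) ∈ K := γ.2
    rw [rp_mem_tr, map_mul]
    have hy : jf δ * y = g * k⁻¹ := by rw [hg]; group
    have e : g'⁻¹ * (jf γ.1 * jf δ * y) = g'⁻¹ * (jf γ.1 * g) * k⁻¹ := by
      rw [mul_assoc (jf γ.1), hy]
      group
    rw [e]
    exact K.mul_mem h (K.inv_mem hk)⟩
  invFun γ := ⟨γ.1 * δ⁻¹, by
    have h : g'⁻¹ * (jf γ.1 * y) ∈ K := γ.2
    rw [rp_mem_tr, map_mul, map_inv]
    have e : g'⁻¹ * (jf γ.1 * (jf δ)⁻¹ * g) = g'⁻¹ * (jf γ.1 * y) * k := by rw [hg]; group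
    rw [e]
    exact K.mul_mem h hk⟩
  left_inv γ := Subtype.ext (by simp)
  right_inv γ := Subtype.ext (by simp)

private theorem rp_mem (ja : Γ →* G) (jf : Γ →* Gf) (K : Subgroup Gf) (ρ : URep G V)
    (hf : ∀ g g' : Gf, (tr jf K g g').Finite) (g : Gf) (v : V) : RP ja jf K ρ g v ∈ MV ja jf K ρ := by
  intro δ g' k hk
  change (∑ᶠ γ : tr jf K g (jf δ * g' * k), ρ.act (ja γ.1) v) =
    ρ.act (ja δ) (∑ᶠ γ : tr jf K g g', ρ.act (ja γ.1) v)
  have _ : Finite (tr jf K g g') := (hf g g').to_subtype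
  have _ : Fintype (tr jf K g g') := Fintype.ofFinite _
  rw [← finsum_comp_equiv (rpEquiv jf K g g' δ k hk), finsum_eq_sum_of_fintype,
    finsum_eq_sum_of_fintype, map_sum]
  refine Finset.sum_congr rfl fun γ _ => ?_
  change ρ.act (ja (δ * γ.1)) v = _
  rw [map_mul, map_mul]
  rfl

private theorem rp_val (ja : Γ →* G) (jf : Γ →* Gf) (K : Subgroup Gf) (ρ : URep G V)
    (hf : ∀ g g' : Gf, (tr jf K g g').Finite) (g y : Gf) (v : V) (f : Gf → V) (hfm : f ∈ MV ja jf K ρ) :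
    inner ℂ (f y) (RP ja jf K ρ g v y) = (Nat.card (tr jf K g y) : ℂ) * inner ℂ (f g) v := by
  change inner ℂ (f y) (∑ᶠ γ : tr jf K g y, ρ.act (ja γ.1) v) = _
  have _ : Finite (tr jf K g y) := (hf g y).to_subtype
  have _ : Fintype (tr jf K g y) := Fintype.ofFinite _
  rw [finsum_eq_sum_of_fintype, inner_sum]
  have h : ∀ γ : tr jf K g y, inner ℂ (f y) (ρ.act (ja γ.1) v) = inner ℂ (f g) v := by
    intro γ
    have hk : y⁻¹ * (jf γ.1 * g) ∈ K := γ.2
    have e : y = jf γ.1 * g * (y⁻¹ * (jf γ.1 * g))⁻¹ := by group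
    have e2 : f y = ρ.act (ja γ.1) (f g) := by
      have h3 := hfm γ.1 g _ (K.inv_mem hk)
      rw [← e] at h3
      exact h3
    rw [e2, LinearIsometryEquiv.inner_map_map]
  rw [Finset.sum_congr rfl fun γ _ => h γ, Finset.sum_const, Finset.card_univ, nsmul_eq_mul,
    Nat.card_eq_fintype_card]

end

theorem tRp : S_Rp := by
  intro Γ G Gf V ι _ _ _ _ _ _ _ ja jf K ρ y hf hex hd g v
  refine ⟨rp_mem ja jf K ρ hf g v, fun f hfm => ?_⟩
  obtain ⟨i0, δ, k, hk, hg⟩ := hex g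
  rw [Finset.sum_eq_single i0]
  · rw [rp_val ja jf K ρ hf g (y i0) v f hfm, ← mul_assoc]
    have hc : Nat.card (tr jf K g (y i0)) = st (⊤ : Subgroup Γ) jf K (y i0) := by
      rw [Nat.card_congr (rpEquiv2 jf K g (y i0) (y i0) δ k hk hg)]
      exact Nat.card_congr (Equiv.subtypeEquivRight fun γ => by simp)
    have hpos : st (⊤ : Subgroup Γ) jf K (y i0) ≠ 0 := by
      rw [← hc]
      have _ : Finite (tr jf K g (y i0)) := (hf g (y i0)).to_subtype
      have _ : Nonempty (tr jf K g (y i0)) := by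
        refine ⟨(rpEquiv2 jf K g (y i0) (y i0) δ k hk hg).symm ⟨1, ?_⟩⟩
        rw [rp_mem_tr, map_one, one_mul, inv_mul_cancel]
        exact K.one_mem
      exact Nat.card_pos.ne'
    rw [hc, inv_mul_cancel₀ (Nat.cast_ne_zero.2 hpos), one_mul]
  · intro i _ hi
    rw [rp_val ja jf K ρ hf g (y i) v f hfm]
    have hc : Nat.card (tr jf K g (y i)) = 0 := by
      rw [Nat.card_congr (rpEquiv2 jf K g (y i) (y i0) δ k hk hg)]
      have _ : IsEmpty (tr jf K (y i0) (y i)) := ⟨fun γ => hi (hd i0 i γ.1 γ.2).symm⟩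
      exact Nat.card_of_isEmpty
    rw [hc, Nat.cast_zero, zero_mul, mul_zero]
  · intro h
    exact absurd (Finset.mem_univ i0) h

end Pool.Agent.GP
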