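import Pool.Agent.Lib.GP.Spec5

/-!
# Theorem MOM, module Rz: the Riesz vector of a period
-/

set_option autoImplicit false

open IsDedekindDomain Matrix MeasureTheory

noncomputable section

namespace Pool.Agent.GP

private theorem Rz_int {H E : Type} [TopologicalSpace H] [CompactSpace H] [MeasurableSpace H]
    [BorelSpace H] (μ : Measure H) [IsProbabilityMeasure μ] [NormedAddCommGroup E] {f : H → E}
    (hf : Continuous f) : Integrable f μ :=
  hf.integrable_of_hasCompactSupport (HasCompactSupport.of_compactSpace f)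

/-- The integral of the product of two matrix coefficients. -/
private theorem Rz_coef {G V : Type} [Group G] [TopologicalSpace G] [CompactSpace G] [MeasurableSpace G]
    [BorelSpace G] [NormedAddCommGroup V] [InnerProductSpace ℂ V] [FiniteDimensional ℂ V]
    (μ : Measure G) [IsProbabilityMeasure μ] (ρ : URep G V)
    (hS : ∀ u w w' : V, ∫ x, inner ℂ (ρ.act x w) u • ρ.act x w' ∂μ =
      ((Module.finrank ℂ V : ℂ)⁻¹ * inner ℂ w w') • u) (u a u' v : V) :
    ∫ x, (starRingEnd ℂ) (inner ℂ u (ρ.act x a)) * inner ℂ u' (ρ.act x v) ∂μ =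
      (Module.finrank ℂ V : ℂ)⁻¹ * inner ℂ a v * inner ℂ u' u := by
  have hcomp : CompleteSpace V := FiniteDimensional.complete ℂ V
  have hI3 : Integrable (fun x : G => (inner ℂ (ρ.act x a) u : ℂ) • ρ.act x v) μ :=
    Rz_int μ (((ρ.cont a).inner continuous_const).smul (ρ.cont v))
  have e2 : ∫ x, (starRingEnd ℂ) (inner ℂ u (ρ.act x a)) * inner ℂ u' (ρ.act x v) ∂μ =
      ∫ x, inner ℂ u' ((inner ℂ (ρ.act x a) u : ℂ) • ρ.act x v) ∂μ := by
    refine integral_congr_ae (Filter.Eventually.of_forall fun x => ?_)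
    change (starRingEnd ℂ) (inner ℂ u (ρ.act x a)) * inner ℂ u' (ρ.act x v) =
      inner ℂ u' ((inner ℂ (ρ.act x a) u : ℂ) • ρ.act x v)
    rw [inner_conj_symm, inner_smul_right]
  rw [e2, integral_inner hI3, hS, inner_smul_right]

theorem tRz : S_Rz := by
  intro hSch hRp Γ G Gf V ι ιH _ _ _ _ _ _ _ _ _ _ _ _ _ μ _ _ ja jf K ρ y hirr hfin hcov hdis z w d a F Ξ hΞ
  have hcomp : CompleteSpace V := FiniteDimensional.complete ℂ V
  have hV : Nontrivial V := hirr.1
  have hD : (Module.finrank ℂ V : ℂ) ≠ 0 := by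
    have h := Module.finrank_pos (R := ℂ) (M := V)
    exact_mod_cast h.ne'
  have hS := hSch G V μ ρ hirr
  -- the vector valued forms
  let fk : Fin d → Gf → V := fun k g => ∑ i, (w i : ℂ) • RP ja jf K ρ (z i) (F k i) g
  have hfkMV : ∀ k, fk k ∈ MV ja jf K ρ := by
    intro k
    have e : fk k = ∑ i, (w i : ℂ) • RP ja jf K ρ (z i) (F k i) := by
      funext g
      rw [Finset.sum_apply]
      rfl
    rw [e]
    refine Submodule.sum_mem _ fun i _ => Submodule.smul_mem _ _ ?_
    exact (hRp Γ G Gf V ι ja jf K ρ y hfin hcov hdis (z i) (F k i)).1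
  have hΞ' : ∀ x g, Ξ x g = (Module.finrank ℂ V : ℂ) * ∑ k, inner ℂ (fk k g) (ρ.act x (a k)) := hΞ
  refine ⟨⟨?_, ?_⟩, ?_⟩
  · intro γ x g κ hκ
    rw [hΞ', hΞ']
    congr 1
    refine Finset.sum_congr rfl fun k _ => ?_
    rw [hfkMV k γ g κ hκ, map_mul]
    exact LinearIsometryEquiv.inner_map_map (ρ.act (ja γ)) (fk k g) (ρ.act x (a k))
  · intro g
    have e : (fun x => Ξ x g) = (Module.finrank ℂ V : ℂ) • ∑ k, fun x => inner ℂ (fk k g) (ρ.act x (a k)) := by
      funext x
      rw [hΞ', Pi.smul_apply, Finset.sum_apply, smul_eq_mul]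
    rw [e]
    refine Submodule.smul_mem _ _ (Submodule.sum_mem _ fun k _ => ?_)
    exact Submodule.subset_span ⟨fk k g, a k, rfl⟩
  · intro f hf v
    -- the integral at one point
    have hint : ∀ g : Gf, ∫ x, (starRingEnd ℂ) (Ξ x g) * inner ℂ (f g) (ρ.act x v) ∂μ =
        ∑ k, inner ℂ (a k) v * inner ℂ (f g) (fk k g) := by
      intro g
      have e1 : ∀ x, (starRingEnd ℂ) (Ξ x g) * inner ℂ (f g) (ρ.act x v) =
          ∑ k, (Module.finrank ℂ V : ℂ) *
            ((starRingEnd ℂ) (inner ℂ (fk k g) (ρ.act x (a k))) * inner ℂ (f g) (ρ.act x v)) := by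
        intro x
        rw [hΞ', map_mul, Complex.conj_natCast, map_sum, Finset.mul_sum, Finset.sum_mul]
        refine Finset.sum_congr rfl fun k _ => ?_
        ring
      simp_rw [e1]
      rw [integral_finsetSum]
      · refine Finset.sum_congr rfl fun k _ => ?_
        rw [integral_const_mul, Rz_coef μ ρ hS]
        field_simp
      · intro k _
        refine Rz_int μ ?_
        exact continuous_const.mul ((Complex.continuous_conj.comp (continuous_const.inner (ρ.cont (a k)))).mul
          (continuous_const.inner (ρ.cont v)))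
    simp_rw [hint]
    -- the sum over the points
    have hre : ∀ k, ∑ m, ((st (⊤ : Subgroup Γ) jf K (y m) : ℕ) : ℂ)⁻¹ * inner ℂ (f (y m)) (fk k (y m)) =
        ∑ i, (w i : ℂ) * inner ℂ (f (z i)) (F k i) := by
      intro k
      have e2 : ∀ m, ((st (⊤ : Subgroup Γ) jf K (y m) : ℕ) : ℂ)⁻¹ * inner ℂ (f (y m)) (fk k (y m)) =
          ∑ i, (w i : ℂ) * (((st (⊤ : Subgroup Γ) jf K (y m) : ℕ) : ℂ)⁻¹ *
            inner ℂ (f (y m)) (RP ja jf K ρ (z i) (F k i) (y m))) := by
        intro m
        change _ * inner ℂ (f (y m)) (∑ i, (w i : ℂ) • RP ja jf K ρ (z i) (F k i) (y m)) = _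
        rw [inner_sum, Finset.mul_sum]
        refine Finset.sum_congr rfl fun i _ => ?_
        rw [inner_smul_right]
        ring
      rw [Finset.sum_congr rfl fun m _ => e2 m, Finset.sum_comm]
      refine Finset.sum_congr rfl fun i _ => ?_
      rw [← Finset.mul_sum, (hRp Γ G Gf V ι ja jf K ρ y hfin hcov hdis (z i) (F k i)).2 f hf]
    have e3 : ∀ m, ((st (⊤ : Subgroup Γ) jf K (y m) : ℕ) : ℂ)⁻¹ *
        ∑ k, inner ℂ (a k) v * inner ℂ (f (y m)) (fk k (y m)) =
        ∑ k, inner ℂ (a k) v * (((st (⊤ : Subgroup Γ) jf K (y m) : ℕ) : ℂ)⁻¹ *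
          inner ℂ (f (y m)) (fk k (y m))) := by
      intro m
      rw [Finset.mul_sum]
      refine Finset.sum_congr rfl fun k _ => ?_
      ring
    rw [Finset.sum_congr rfl fun m _ => e3 m, Finset.sum_comm]
    refine Finset.sum_congr rfl fun k _ => ?_
    rw [← Finset.mul_sum, hre]

end Pool.Agent.GP
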