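import Pool.Agent.Lib.GP.Spec5
import Pool.Agent.Lib.GP.Hk1

/-!
# Theorem MOM, module TH: the Hecke operator on the forms of `H` (author helper41)
-/

set_option autoImplicit false

open IsDedekindDomain Matrix MeasureTheory

noncomputable section

namespace Pool.Agent.GP

private theorem TH_cont {H W : Type} [Group H] [TopologicalSpace H] [NormedAddCommGroup W]
    [InnerProductSpace ℂ W] (σ : URep H W) {F : H → ℂ} (hF : F ∈ coef σ) : Continuous F := by
  unfold coef at hF
  induction hF using Submodule.span_induction with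
  | mem x hx =>
    obtain ⟨u, v, rfl⟩ := hx
    exact continuous_const.inner (σ.cont v)
  | zero => exact continuous_const
  | add x y _ _ hx hy => exact hx.add hy
  | smul c x _ hx => exact continuous_const.mul hx

theorem tTH : S_TH := by
  intro Γ G Gf V W _ _ _ _ _ _ _ _ _ ΓH H Hf jaH jfH KH' _ _ _ μ _ ρ σ 𝒵 hfin hKS ψ hψ
  have _ := hfin.fintype
  have hsum : ∀ (x : H) (h : Hf), Hk KH' (cs KH' 𝒵) (ψ x) h =
      ∑ c : cs KH' 𝒵, ψ x (h * Quotient.out c.1) := fun x h => finsum_eq_sum_of_fintype _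
  have hinv : ∀ (x : H) (h : Hf), ∀ k ∈ KH', ψ x (h * k) = ψ x h := by
    intro x h k hk
    have h1 := hψ.1 1 x h k hk
    rw [map_one, map_one, one_mul, one_mul] at h1
    exact h1
  have hγ : ∀ (γ : ΓH) (x : H) (h : Hf), ψ (jaH γ * x) (jfH γ * h) = ψ x h := by
    intro γ x h
    have h1 := hψ.1 γ x h 1 KH'.one_mem
    rw [mul_one] at h1
    exact h1
  have hcont : ∀ h : Hf, Continuous fun x => ψ x h := fun h => TH_cont σ (hψ.2 h)
  refine ⟨⟨?_, ?_⟩, ?_⟩
  · intro γ x h k hk
    have h1 := ((tHk1 Hf KH').1 ℂ 𝒵 (ψ (jaH γ * x)) hfin hKS (hinv (jaH γ * x))).1 (jfH γ * h) k hk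
    refine h1.trans ?_
    change _ = Hk KH' (cs KH' 𝒵) (ψ x) h
    rw [hsum, hsum]
    refine Finset.sum_congr rfl fun c _ => ?_
    rw [mul_assoc, hγ]
  · intro h
    have h1 : (fun x => Hk KH' (cs KH' 𝒵) (ψ x) h) =
        ∑ c : cs KH' 𝒵, fun x => ψ x (h * Quotient.out c.1) := by
      funext x
      rw [hsum, Finset.sum_apply]
    change (fun x => Hk KH' (cs KH' 𝒵) (ψ x) h) ∈ coef σ
    rw [h1]
    exact Submodule.sum_mem _ fun c _ => hψ.2 _
  · intro a h
    have hI : ∀ g : Hf, Integrable (fun x : H => ψ x g • ρ.act (x : G) a) μ := fun g =>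
      ((hcont g).smul ((ρ.cont a).comp continuous_subtype_val)).integrable_of_hasCompactSupport
        (HasCompactSupport.of_compactSpace _)
    rw [finsum_eq_sum_of_fintype]
    unfold FF
    rw [← integral_finsetSum _ fun c _ => hI _]
    refine integral_congr_ae (Filter.Eventually.of_forall fun x => ?_)
    change Hk KH' (cs KH' 𝒵) (ψ x) h • ρ.act (x : G) a =
      ∑ c : cs KH' 𝒵, ψ x (h * Quotient.out c.1) • ρ.act (x : G) a
    rw [hsum, Finset.sum_smul]

end Pool.Agent.GP
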