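import Pool.Agent.Lib.GP.FinO
import Pool.Agent.Lib.GP.Asm4
import Pool.Agent.Lib.GP.BG
import Pool.Agent.Lib.GP.Rp
import Pool.Agent.Lib.GP.BF4
import Pool.Agent.Lib.GP.Rz
import Pool.Agent.Lib.GP.GM
import Pool.Agent.Lib.GP.LM
import Pool.Agent.Lib.GP.OS2
import Pool.Agent.Lib.GP.TH

/-!
# The theorem MOM (author helper25)
-/

set_option autoImplicit false

open IsDedekindDomain Matrix MeasureTheory

noncomputable section

namespace Pool.Agent.GP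

/-- **MOM.** -/
theorem gpM : C_MOM := by
  have hHS := tHS
  have hPhb := tPhb hHS
  have hAD1 : C_AD1 := tAD1
  have hAD2 : C_AD2 := tAD2
  have hAD3 : C_AD3 := tAD3 hAD1
  have hAD5 : C_AD5 := tAD5 hAD1
  have hAD6 : C_AD6 := tAD6
  have hGR1 : C_GR1 := tGR1
  have hGR3 : C_GR3 := tGR3 hAD2 hAD5 hGR1
  have hRed : C_Red := tRed tPrm
  have hHer : C_Her := tHer hRed
  have hCN1 : C_CN1 := tCN1 hRed hHer
  have hCN2 : C_CN2 := tCN2 hAD1 hAD2 hAD3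
  have hCN3 : C_CN3 := tCN3 hAD2 hCN1 hCN2
  have hCN4 : C_CN4 := tCN4 hAD2 hAD3 hAD6 tFinV hCN3
  exact tMOM (tBG tSch) (tBF4 tJw2 tSch) (tRz tSch tRp) (tLM tGM) tTH (tOS2 hHS)
    (tLoc hPhb (tAv hHS) (tMean hHS) tPsi (tLow tLo1) tUp1 tCov tCir) tGRb hGR1 hGR3 hCN4

end Pool.Agent.GP
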