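import Pool.Agent.Lib.GP.Spec2

set_option autoImplicit false

open IsDedekindDomain Matrix MeasureTheory

noncomputable section

namespace Pool.Agent.GP

open scoped MatrixOrder ComplexOrder in
private theorem GRb_B {N : ℕ} (A : Matrix (Fin N) (Fin N) ℝ) (hs : A.IsSymm)
    (hp : ∀ x : Fin N → ℝ, x ≠ 0 → 0 < x ⬝ᵥ (A *ᵥ x)) :
    ∃ B B' : Matrix (Fin N) (Fin N) ℝ, Bᵀ * B = A ∧ B * B' = 1 ∧ B' * B = 1 := by
  have hh : A.IsHermitian := by
    unfold Matrix.IsHermitian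
    rw [Matrix.conjTranspose_eq_transpose_of_trivial]
    exact hs
  have hA : A.PosDef := by
    refine Matrix.PosDef.of_dotProduct_mulVec_pos hh (fun x hx => ?_)
    simpa using hp x hx
  obtain ⟨B, hB⟩ := CStarAlgebra.nonneg_iff_eq_star_mul_self.mp hA.posSemidef.nonneg
  rw [Matrix.star_eq_conjTranspose, Matrix.conjTranspose_eq_transpose_of_trivial] at hB
  have hu : IsUnit A.det := (Matrix.isUnit_iff_isUnit_det _).1 hA.isUnit
  have hdet : B.det ≠ 0 := by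
    intro h
    rw [hB, Matrix.det_mul, h, mul_zero] at hu
    exact not_isUnit_zero hu
  exact ⟨B, B⁻¹, hB.symm, Matrix.mul_nonsing_inv _ (isUnit_iff_ne_zero.2 hdet),
    Matrix.nonsing_inv_mul _ (isUnit_iff_ne_zero.2 hdet)⟩

private theorem GRb_inner {N : ℕ} (x y : EE N) : inner ℝ x y = x.ofLp ⬝ᵥ y.ofLp := by
  simp [PiLp.inner_apply, dotProduct, mul_comm]

private theorem GRb_nsq {N : ℕ} (x : EE N) : ‖x‖ ^ 2 = x.ofLp ⬝ᵥ x.ofLp := by
  rw [← real_inner_self_eq_norm_sq, GRb_inner]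

/-- The isometry of an orthogonal matrix. -/
private def GRb_iso {N : ℕ} (M : Matrix (Fin N) (Fin N) ℝ) (h : Mᵀ * M = 1) : EE N ≃ₗᵢ[ℝ] EE N where
  toFun x := WithLp.toLp 2 (M *ᵥ x.ofLp)
  invFun x := WithLp.toLp 2 (Mᵀ *ᵥ x.ofLp)
  map_add' x y := by
    apply WithLp.ofLp_injective
    simp [Matrix.mulVec_add]
  map_smul' c x := by
    apply WithLp.ofLp_injective
    simp [Matrix.mulVec_smul]
  left_inv x := by
    apply WithLp.ofLp_injective
    simp [Matrix.mulVec_mulVec, h]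
  right_inv x := by
    have h' : M * Mᵀ = 1 := mul_eq_one_comm.1 h
    apply WithLp.ofLp_injective
    simp [Matrix.mulVec_mulVec, h']
  norm_map' x := by
    change ‖(WithLp.toLp 2 (M *ᵥ x.ofLp) : EE N)‖ = ‖x‖
    rw [← sq_eq_sq₀ (norm_nonneg _) (norm_nonneg _), GRb_nsq, GRb_nsq]
    change (M *ᵥ x.ofLp) ⬝ᵥ (M *ᵥ x.ofLp) = _
    conv_lhs => rw [← Matrix.vecMul_transpose, ← Matrix.dotProduct_mulVec, Matrix.vecMul_transpose,
      Matrix.mulVec_mulVec, h, Matrix.one_mulVec]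

private theorem GRb_iso_apply {N : ℕ} (M : Matrix (Fin N) (Fin N) ℝ) (h : Mᵀ * M = 1) (x : EE N) :
    GRb_iso M h x = WithLp.toLp 2 (M *ᵥ x.ofLp) := rfl

/-- The rotation matrix. -/
private def GRb_R {N : ℕ} (a b : Fin N → ℝ) (α : ℝ) : Matrix (Fin N) (Fin N) ℝ :=
  1 + (Real.cos α - 1) • (vecMulVec a a + vecMulVec b b) + Real.sin α • (vecMulVec b a - vecMulVec a b)

private theorem GRb_R_zero {N : ℕ} (a b : Fin N → ℝ) : GRb_R a b 0 = 1 := by
  simp [GRb_R]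

private theorem GRb_R_tr {N : ℕ} (a b : Fin N → ℝ) (α : ℝ) : (GRb_R a b α)ᵀ = GRb_R a b (-α) := by
  simp only [GRb_R, Matrix.transpose_add, Matrix.transpose_one, Matrix.transpose_smul,
    Matrix.transpose_sub, Matrix.transpose_vecMulVec, Real.cos_neg, Real.sin_neg]
  module

private theorem GRb_R_add {N : ℕ} (a b : Fin N → ℝ) (haa : a ⬝ᵥ a = 1) (hbb : b ⬝ᵥ b = 1)
    (hab : a ⬝ᵥ b = 0) (α β : ℝ) : GRb_R a b α * GRb_R a b β = GRb_R a b (α + β) := by
  have hba : b ⬝ᵥ a = 0 := by rw [dotProduct_comm, hab]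
  simp only [GRb_R, mul_add, add_mul, mul_sub, sub_mul, Matrix.mul_one, Matrix.one_mul, smul_add,
    smul_sub, Matrix.smul_mul, Matrix.mul_smul, Matrix.vecMulVec_mul_vecMulVec, haa, hbb, hab, hba,
    one_smul, zero_smul, Matrix.vecMulVec_zero, smul_zero, Real.cos_add, Real.sin_add]
  module

private theorem GRb_R_orth {N : ℕ} (a b : Fin N → ℝ) (haa : a ⬝ᵥ a = 1) (hbb : b ⬝ᵥ b = 1)
    (hab : a ⬝ᵥ b = 0) (α : ℝ) : (GRb_R a b α)ᵀ * GRb_R a b α = 1 := by
  rw [GRb_R_tr, GRb_R_add a b haa hbb hab, neg_add_cancel, GRb_R_zero]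

private theorem GRb_R_det {N : ℕ} (a b : Fin N → ℝ) (haa : a ⬝ᵥ a = 1) (hbb : b ⬝ᵥ b = 1)
    (hab : a ⬝ᵥ b = 0) (α : ℝ) : (GRb_R a b α).det = 1 := by
  have h1 := congrArg Matrix.det (GRb_R_orth a b haa hbb hab (α / 2))
  rw [Matrix.det_mul, Matrix.det_transpose, Matrix.det_one] at h1
  have h2 := congrArg Matrix.det (GRb_R_add a b haa hbb hab (α / 2) (α / 2))
  rw [Matrix.det_mul, h1, add_halves] at h2
  exact h2.symm

private theorem GRb_R_cont {N : ℕ} (a b : Fin N → ℝ) : Continuous (GRb_R a b) := by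
  unfold GRb_R
  have h1 : Continuous fun α : ℝ => Real.cos α - 1 := Real.continuous_cos.sub continuous_const
  exact (continuous_const.add (h1.smul continuous_const)).add
    (Real.continuous_sin.smul continuous_const)

private theorem GRb_R_apply {N : ℕ} (a b x : EE N) (α : ℝ) :
    (WithLp.toLp 2 (GRb_R a.ofLp b.ofLp α *ᵥ x.ofLp) : EE N) =
      x + ((Real.cos α - 1) * inner ℝ a x - Real.sin α * inner ℝ b x) • a +
      ((Real.cos α - 1) * inner ℝ b x + Real.sin α * inner ℝ a x) • b := by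
  apply WithLp.ofLp_injective
  simp only [GRb_R, Matrix.add_mulVec, Matrix.one_mulVec, Matrix.smul_mulVec, Matrix.sub_mulVec,
    Matrix.vecMulVec_mulVec, op_smul_eq_smul, GRb_inner, WithLp.ofLp_add, WithLp.ofLp_smul]
  module

private theorem GRb_det {N : ℕ} (B B' : Matrix (Fin N) (Fin N) ℝ) (h : B' * B = 1)
    (M : Matrix (Fin N) (Fin N) ℝ) (hM : M.det = 1) : (B' * M * B).det = 1 := by
  rw [Matrix.det_mul, Matrix.det_mul, hM, mul_one, ← Matrix.det_mul, h, Matrix.det_one]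

theorem tGRb : S_GRb := by
  intro N Q e hQ he
  obtain ⟨hs, hpos⟩ := hQ
  have hsR : (Q.map (algebraMap ℚ ℝ)).IsSymm := by
    unfold Matrix.IsSymm
    rw [← Matrix.transpose_map]
    exact congrArg (fun M => M.map (algebraMap ℚ ℝ)) hs
  obtain ⟨B, B', hBQ, hBB', hB'B⟩ := GRb_B _ hsR hpos
  -- orthogonality of the conjugates
  have horth : ∀ g : Gp Q ℝ, (B * g.1.1 * B')ᵀ * (B * g.1.1 * B') = 1 := by
    intro g
    have hg : g.1.1ᵀ * Q.map (algebraMap ℚ ℝ) * g.1.1 = Q.map (algebraMap ℚ ℝ) := g.2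
    rw [Matrix.transpose_mul, Matrix.transpose_mul]
    calc B'ᵀ * (g.1.1ᵀ * Bᵀ) * (B * g.1.1 * B')
        = B'ᵀ * (g.1.1ᵀ * (Bᵀ * B) * g.1.1) * B' := by simp only [Matrix.mul_assoc]
      _ = B'ᵀ * (Bᵀ * B) * B' := by rw [hBQ, hg]
      _ = (B * B')ᵀ * (B * B') := by rw [Matrix.transpose_mul]; simp only [Matrix.mul_assoc]
      _ = 1 := by rw [hBB', Matrix.transpose_one, Matrix.one_mul]
  let τ : Gp Q ℝ →* (EE N ≃ₗᵢ[ℝ] EE N) :=
    { toFun := fun g => GRb_iso (B * g.1.1 * B') (horth g)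
      map_one' := by
        ext1 x
        rw [GRb_iso_apply]
        have : (1 : Gp Q ℝ).1.1 = 1 := rfl
        rw [this, Matrix.mul_one, hBB', Matrix.one_mulVec]
        rfl
      map_mul' := by
        intro g g'
        ext1 x
        change WithLp.toLp 2 ((B * (g.1.1 * g'.1.1) * B') *ᵥ x.ofLp) =
          WithLp.toLp 2 ((B * g.1.1 * B') *ᵥ ((B * g'.1.1 * B') *ᵥ x.ofLp))
        rw [Matrix.mulVec_mulVec]
        have e1 : B * g.1.1 * B' * (B * g'.1.1 * B') = B * (g.1.1 * g'.1.1) * B' := by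
          calc B * g.1.1 * B' * (B * g'.1.1 * B') = B * g.1.1 * (B' * B) * g'.1.1 * B' := by
                simp only [Matrix.mul_assoc]
            _ = _ := by rw [hB'B, Matrix.mul_one]; simp only [Matrix.mul_assoc]
        rw [e1] }
  have hτ : ∀ (g : Gp Q ℝ) (x : EE N), τ g x = WithLp.toLp 2 ((B * g.1.1 * B') *ᵥ x.ofLp) :=
    fun g x => rfl
  set v : Fin N → ℝ := ve e ℝ with hv
  have hv0 : v ≠ 0 := by
    intro h
    apply he
    funext i
    have := congrFun h i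
    simpa [hv, ve] using this
  set w : EE N := WithLp.toLp 2 (B *ᵥ v) with hw
  have hw0 : w ≠ 0 := by
    intro h
    apply hv0
    have h1 : B *ᵥ v = 0 := congrArg WithLp.ofLp h
    have h2 : B' *ᵥ (B *ᵥ v) = 0 := by rw [h1, Matrix.mulVec_zero]
    rwa [Matrix.mulVec_mulVec, hB'B, Matrix.one_mulVec] at h2
  have hnw : ‖w‖ ≠ 0 := norm_ne_zero_iff.2 hw0
  have hinj : ∀ x y : Fin N → ℝ, B *ᵥ x = B *ᵥ y → x = y := by
    intro x y h
    have := congrArg (fun z => B' *ᵥ z) h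
    simpa only [Matrix.mulVec_mulVec, hB'B, Matrix.one_mulVec] using this
  have hτw : ∀ g : Gp Q ℝ, τ g w = WithLp.toLp 2 (B *ᵥ (g.1.1 *ᵥ v)) := by
    intro g
    rw [hτ]
    change (WithLp.toLp 2 ((B * g.1.1 * B') *ᵥ (B *ᵥ v)) : EE N) = _
    rw [Matrix.mulVec_mulVec, Matrix.mul_assoc, hB'B, Matrix.mul_one, ← Matrix.mulVec_mulVec]
  have hcont : Continuous fun g : Gp Q ℝ => g.1.1 :=
    continuous_subtype_val.comp continuous_subtype_val
  refine ⟨‖w‖⁻¹ • w, ⟨τ, ?_, ?_, ?_⟩, ?_, ?_, ?_⟩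
  · rw [norm_smul, norm_inv, norm_norm, inv_mul_cancel₀ hnw]
  · intro x
    have h1 : Continuous fun g : Gp Q ℝ => (B * g.1.1 * B') *ᵥ x.ofLp :=
      (((continuous_const.matrix_mul hcont).matrix_mul continuous_const).matrix_mulVec
        continuous_const)
    exact (PiLp.continuous_toLp 2 _).comp h1
  · intro a b ha hb hab
    have haa : a.ofLp ⬝ᵥ a.ofLp = 1 := by rw [← GRb_nsq, ha, one_pow]
    have hbb : b.ofLp ⬝ᵥ b.ofLp = 1 := by rw [← GRb_nsq, hb, one_pow]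
    have hab' : a.ofLp ⬝ᵥ b.ofLp = 0 := by rw [← GRb_inner, hab]
    have hmem : ∀ α : ℝ, (⟨B' * GRb_R a.ofLp b.ofLp α * B,
        GRb_det B B' hB'B _ (GRb_R_det _ _ haa hbb hab' α)⟩ : SpecialLinearGroup (Fin N) ℝ) ∈
        Gp Q ℝ := by
      intro α
      change (B' * GRb_R a.ofLp b.ofLp α * B)ᵀ * Q.map (algebraMap ℚ ℝ) *
        (B' * GRb_R a.ofLp b.ofLp α * B) = Q.map (algebraMap ℚ ℝ)
      rw [← hBQ, Matrix.transpose_mul, Matrix.transpose_mul]
      calc Bᵀ * ((GRb_R a.ofLp b.ofLp α)ᵀ * B'ᵀ) * (Bᵀ * B) * (B' * GRb_R a.ofLp b.ofLp α * B)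
          = Bᵀ * ((GRb_R a.ofLp b.ofLp α)ᵀ * (B'ᵀ * Bᵀ) * (B * B') * GRb_R a.ofLp b.ofLp α) * B := by
            simp only [Matrix.mul_assoc]
        _ = Bᵀ * B := by
            rw [← Matrix.transpose_mul, hBB', Matrix.transpose_one, Matrix.mul_one, Matrix.mul_one,
              GRb_R_orth _ _ haa hbb hab', Matrix.mul_one]
    refine ⟨fun α => ⟨_, hmem α⟩, ?_, ?_⟩
    · refine Continuous.subtype_mk (Continuous.subtype_mk ?_ _) _
      exact ((continuous_const.matrix_mul (GRb_R_cont _ _)).matrix_mul continuous_const)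
    · intro α x
      rw [← GRb_R_apply, hτ]
      change (WithLp.toLp 2 ((B * (B' * GRb_R a.ofLp b.ofLp α * B) * B') *ᵥ x.ofLp) : EE N) = _
      have e1 : B * (B' * GRb_R a.ofLp b.ofLp α * B) * B' = GRb_R a.ofLp b.ofLp α := by
        calc B * (B' * GRb_R a.ofLp b.ofLp α * B) * B'
            = (B * B') * GRb_R a.ofLp b.ofLp α * (B * B') := by simp only [Matrix.mul_assoc]
          _ = _ := by rw [hBB', Matrix.one_mul, Matrix.mul_one]
      rw [e1]
  · intro g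
    change (τ g (‖w‖⁻¹ • w) = ‖w‖⁻¹ • w ↔ g.1.1 *ᵥ v = v)
    have hne : ‖w‖⁻¹ ≠ 0 := inv_ne_zero hnw
    rw [map_smul, smul_right_inj hne, hτw]
    constructor
    · intro h
      exact hinj _ _ (congrArg WithLp.ofLp h)
    · intro h
      rw [h]
  · intro g
    change (τ g (‖w‖⁻¹ • w) = -(‖w‖⁻¹ • w) ↔ g.1.1 *ᵥ v = -v)
    have hne : ‖w‖⁻¹ ≠ 0 := inv_ne_zero hnw
    rw [map_smul, ← smul_neg, smul_right_inj hne, hτw]
    constructor
    · intro h
      apply hinj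
      rw [Matrix.mulVec_neg]
      exact congrArg WithLp.ofLp h
    · intro h
      rw [h, Matrix.mulVec_neg]
      rfl
  · intro g
    have hBB : ∀ x y : Fin N → ℝ, (B *ᵥ x) ⬝ᵥ (B *ᵥ y) = bq Q x y := by
      intro x y
      unfold bq
      rw [← hBQ, ← Matrix.mulVec_mulVec, Matrix.dotProduct_mulVec x, Matrix.vecMul_transpose]
    have hww : ‖w‖ ^ 2 = bq Q v v := by
      rw [GRb_nsq]
      exact hBB v v
    change inner ℝ (τ g (‖w‖⁻¹ • w)) (‖w‖⁻¹ • w) = bq Q (g.1.1 *ᵥ v) v / bq Q v v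
    rw [map_smul, real_inner_smul_left, real_inner_smul_right, hτw, GRb_inner, ← hww]
    have h1 : (WithLp.toLp 2 (B *ᵥ (g.1.1 *ᵥ v)) : EE N).ofLp ⬝ᵥ w.ofLp = bq Q (g.1.1 *ᵥ v) v :=
      hBB _ _
    rw [h1]
    field_simp

end Pool.Agent.GP
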