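import Pool.Agent.Lib.GP.Spec4

set_option autoImplicit false

/-!
# GS: the good terms of the Poincare series of depth one
-/

open IsDedekindDomain Matrix MeasureTheory

noncomputable section

namespace Pool.Agent.GP

section aux

variable {Γ G Gf V P0 ι : Type} [Group Γ] [Group G] [TopologicalSpace G] [Group Gf] [NormedAddCommGroup V]
  [InnerProductSpace ℂ V] {ja : Γ →* G} {jf : Γ →* Gf} {K : Subgroup Gf} {ΓH Γ1 : Subgroup Γ}
  {Hf : Subgroup Gf} {ρ : URep G V} {S A : P0 → Set Gf} {z : ι → Gf}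

private theorem mem_tr {g g' : Gf} {γ : Γ} : γ ∈ tr jf K g g' ↔ g'⁻¹ * (jf γ * g) ∈ K := Iff.rfl

/-- Elements with the same action on `g K`. -/
private theorem tr_of {g g' : Gf} {γ γ0 : Γ} (h : (jf γ0 * g)⁻¹ * (jf γ * g) ∈ K) :
    γ ∈ tr jf K g g' ↔ γ0 ∈ tr jf K g g' := by
  rw [mem_tr, mem_tr]
  constructor
  · intro h1
    have h2 := K.mul_mem h1 (K.inv_mem h)
    have h3 : g'⁻¹ * (jf γ * g) * ((jf γ0 * g)⁻¹ * (jf γ * g))⁻¹ = g'⁻¹ * (jf γ0 * g) := by group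
    rwa [h3] at h2
  · intro h1
    have h2 := K.mul_mem h1 h
    have h3 : g'⁻¹ * (jf γ0 * g) * ((jf γ0 * g)⁻¹ * (jf γ * g)) = g'⁻¹ * (jf γ * g) := by group
    rwa [h3] at h2

private theorem out_eq (y : Gf) : ∃ k ∈ K, Quotient.out (y : Gf ⧸ K) = y * k := by
  have h : (y : Gf ⧸ K) = ((Quotient.out (y : Gf ⧸ K) : Gf) : Gf ⧸ K) := (Quotient.out_eq _).symm
  have h1 := QuotientGroup.eq.1 h
  exact ⟨_, h1, by group⟩

/-- A transporter of translates comes from an element of `ΓH`. -/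
private theorem key0 (hPT : PT ja jf K ΓH Γ1 Hf ρ S A z) {γ : Γ} (hγ : γ ∈ Γ1) {i i' : ι} {u u' : Gf}
    (h : γ ∈ tr jf K (z i' * u') (z i * u)) : ∃ γ0 ∈ ΓH, ∃ k ∈ K,
      (∀ v, ρ.act (ja γ) v = ρ.act (ja γ0) v) ∧ (∀ g, (jf γ0 * g)⁻¹ * (jf γ * g) ∈ K) ∧
      jf γ0 * (z i' * u') = z i * u * k := by
  obtain ⟨γ0, h0, h1, h2⟩ := hPT.g1 γ hγ
  have h3 := (tr_of (h2 (z i' * u'))).1 h
  exact ⟨γ0, h0, _, h3, h1, h2, by group⟩

private theorem mem_A (hPT : PT ja jf K ΓH Γ1 Hf ρ S A z) {p q : P0} {γ : Γ} (hγ : γ ∈ Γ1) {i i' : ι}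
    {u u' : Gf} (h : γ ∈ tr jf K (z i' * u') (z i * u)) (hu : u' ∈ A q) : u ∈ A q := by
  obtain ⟨γ0, h0, k, hk, -, -, h3⟩ := key0 hPT hγ h
  have hH : (z i)⁻¹ * (jf γ0 * z i') ∈ Hf :=
    Hf.mul_mem (Hf.inv_mem (hPT.zH i)) (Hf.mul_mem (hPT.jH γ0 h0) (hPT.zH i'))
  have h4 : (z i)⁻¹ * (jf γ0 * z i') * u' * k⁻¹ = u := by
    have h5 : (z i)⁻¹ * (jf γ0 * z i') * u' * k⁻¹ = (z i)⁻¹ * (jf γ0 * (z i' * u')) * k⁻¹ := by group
    rw [h5, h3]
    group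
  rw [← h4]
  exact (hPT.a1 q _ hH u' _ (K.inv_mem hk)).2 hu

private theorem key1 (hPT : PT ja jf K ΓH Γ1 Hf ρ S A z) {p : P0} {γ : Γ} (hγ : γ ∈ Γ1) {i i' : ι}
    {y y' k k' : Gf} (hy : y ∈ S p) (hy' : y' ∈ S p) (hA : y ∈ A p) (hk : k ∈ K) (hk' : k' ∈ K)
    (h : γ ∈ tr jf K (z i' * (y' * k')) (z i * (y * k))) :
    γ ∈ tr jf K (z i') (z i) ∧ i' = i := by
  obtain ⟨γ0, h0, κ, hκ, -, h2, h3⟩ := key0 hPT hγ h
  have hH : (jf γ0 * z i')⁻¹ * z i ∈ Hf :=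
    Hf.mul_mem (Hf.inv_mem (Hf.mul_mem (hPT.jH γ0 h0) (hPT.zH i'))) (hPT.zH i)
  have h4 : (jf γ0 * z i')⁻¹ * z i * y = y' * (k' * (k * κ)⁻¹) := by
    have h5 : (jf γ0 * z i')⁻¹ * z i * y = (jf γ0 * z i')⁻¹ * (z i * (y * k) * κ) * (k * κ)⁻¹ := by
      group
    rw [h5, ← h3]
    group
  have h6 := hPT.a3 p y hy y' hy' hA _ hH _
    (K.mul_mem hk' (K.inv_mem (K.mul_mem hk hκ))) h4
  have h7 : γ0 ∈ tr jf K (z i') (z i) := by
    rw [mem_tr]
    have h8 := K.inv_mem h6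
    have h9 : ((jf γ0 * z i')⁻¹ * z i)⁻¹ = (z i)⁻¹ * (jf γ0 * z i') := by group
    rwa [h9] at h8
  exact ⟨(tr_of (h2 (z i'))).2 h7, hPT.zi i' i γ0 h0 h7⟩

end aux

theorem tGS : S_GS := by
  intro Γ G Gf V P0 ι _ _ _ _ _ _ _ ja jf K ΓH Γ1 Hf ρ S A z hPT F hF p q c hc i
  obtain ⟨y, hy, hcy⟩ := hc
  obtain ⟨k, hk, hck⟩ := out_eq (K := K) y
  have hout : Quotient.out c = y * k := by rw [hcy]; exact hck
  have hAy : ∀ r, Quotient.out c ∈ A r ↔ y ∈ A r := by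
    intro r
    have := hPT.a1 r 1 Hf.one_mem y k hk
    rw [one_mul] at this
    rw [hout]
    exact this
  constructor
  · rintro ⟨rfl, hcA⟩
    have hyA : y ∈ A p := (hAy p).1 hcA
    -- the transporters
    have hkey : ∀ (i' : ι) (c' : cA K (S p) (A p)) (γ : Γ), γ ∈ Γ1 →
        γ ∈ tr jf K (z i' * Quotient.out c'.1) (z i * Quotient.out c) →
        γ ∈ tr jf K (z i') (z i) ∧ i' = i := by
      rintro i' ⟨c', ⟨y', hy', rfl⟩, hA'⟩ γ hγ h
      obtain ⟨k', hk', hck'⟩ := out_eq (K := K) y'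
      rw [hout] at h
      have h1 : Quotient.out ((⟨(y' : Gf ⧸ K), ⟨y', hy', rfl⟩, hA'⟩ : cA K (S p) (A p)).1) = y' * k' := hck'
      rw [h1] at h
      exact key1 hPT hγ hy hy' hyA hk hk' h
    have hfc : Finite (cA K (S p) (A p)) :=
      Set.Finite.to_subtype ((hPT.s1 p).subset fun x hx => hx.1)
    have hft : ∀ (g g' : Gf), Finite {γ : Γ // γ ∈ Γ1 ∧ γ ∈ tr jf K g g'} := fun g g' =>
      Set.Finite.to_subtype (s := {γ : Γ | γ ∈ Γ1 ∧ γ ∈ tr jf K g g'})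
        ((hPT.fin g g').subset fun x hx => hx.2)
    have hz : ∀ i' : ι, i' ≠ i → (wt jf K ΓH z i' : ℂ) • (∑ᶠ c' : cA K (S p) (A p),
        ∑ᶠ γ : {γ : Γ // γ ∈ Γ1 ∧ γ ∈ tr jf K (z i' * Quotient.out c'.1) (z i * Quotient.out c)},
          ρ.act (ja γ) (F (z i'))) = 0 := by
      intro i' hi'
      have h1 : ∀ c' : cA K (S p) (A p),
          (∑ᶠ γ : {γ : Γ // γ ∈ Γ1 ∧ γ ∈ tr jf K (z i' * Quotient.out c'.1) (z i * Quotient.out c)},
            ρ.act (ja γ) (F (z i'))) = 0 := by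
        intro c'
        have : IsEmpty {γ : Γ // γ ∈ Γ1 ∧
            γ ∈ tr jf K (z i' * Quotient.out c'.1) (z i * Quotient.out c)} :=
          ⟨fun γ => hi' (hkey i' c' γ.1 γ.2.1 γ.2.2).2⟩
        exact finsum_of_isEmpty _
      rw [finsum_congr h1, finsum_zero, smul_zero]
    rw [Finset.sum_eq_single i (fun i' _ hi' => hz i' hi') (fun h => absurd (Finset.mem_univ i) h)]
    -- all the terms are equal
    have hterm : ∀ γ ∈ Γ1, γ ∈ tr jf K (z i) (z i) → ρ.act (ja γ) (F (z i)) = F (z i) := by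
      intro γ hγ h
      obtain ⟨γ0, h0, h1, h2⟩ := hPT.g1 γ hγ
      have h3 : γ0 ∈ tr jf K (z i) (z i) := (tr_of (h2 (z i))).1 h
      rw [mem_tr] at h3
      have hH : (z i)⁻¹ * (jf γ0 * z i) ∈ Hf :=
        Hf.mul_mem (Hf.inv_mem (hPT.zH i)) (Hf.mul_mem (hPT.jH γ0 h0) (hPT.zH i))
      have h4 := hF γ0 h0 (z i) (hPT.zH i) 1 K.one_mem Hf.one_mem
      have h5 := hF 1 ΓH.one_mem (z i) (hPT.zH i) _ h3 hH
      rw [h1, ← h4]
      have h6 : jf γ0 * z i * 1 = jf 1 * z i * ((z i)⁻¹ * (jf γ0 * z i)) := by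
        rw [map_one]
        group
      rw [h6, h5, map_one, map_one]
      rfl
    have hinner : ∀ c' : cA K (S p) (A p),
        (∑ᶠ γ : {γ : Γ // γ ∈ Γ1 ∧ γ ∈ tr jf K (z i * Quotient.out c'.1) (z i * Quotient.out c)},
          ρ.act (ja γ) (F (z i))) =
        Nat.card {γ : Γ // γ ∈ Γ1 ∧ γ ∈ tr jf K (z i * Quotient.out c'.1) (z i * Quotient.out c)} •
          F (z i) := by
      intro c'
      have := hft (z i * Quotient.out c'.1) (z i * Quotient.out c)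
      have h1 : ∀ γ : {γ : Γ // γ ∈ Γ1 ∧ γ ∈ tr jf K (z i * Quotient.out c'.1) (z i * Quotient.out c)},
          ρ.act (ja γ) (F (z i)) = F (z i) := fun γ =>
        hterm γ.1 γ.2.1 (hkey i c' γ.1 γ.2.1 γ.2.2).1
      rw [finsum_congr h1]
      have := Fintype.ofFinite {γ : Γ // γ ∈ Γ1 ∧
        γ ∈ tr jf K (z i * Quotient.out c'.1) (z i * Quotient.out c)}
      rw [finsum_eq_sum_of_fintype, Finset.sum_const, Finset.card_univ, Nat.card_eq_fintype_card]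
    rw [finsum_congr hinner]
    have hF1 := Fintype.ofFinite (cA K (S p) (A p))
    rw [finsum_eq_sum_of_fintype, ← Finset.sum_smul]
    have hcard : ∑ c' : cA K (S p) (A p),
        Nat.card {γ : Γ // γ ∈ Γ1 ∧ γ ∈ tr jf K (z i * Quotient.out c'.1) (z i * Quotient.out c)} =
        st Γ1 jf K (z i) := by
      rw [← Nat.card_sigma]
      unfold st
      refine Nat.card_congr (Equiv.ofBijective
        (fun x : (Σ c' : cA K (S p) (A p), {γ : Γ // γ ∈ Γ1 ∧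
            γ ∈ tr jf K (z i * Quotient.out c'.1) (z i * Quotient.out c)}) =>
          (⟨x.2.1, x.2.2.1, (hkey i x.1 x.2.1 x.2.2.1 x.2.2.2).1⟩ :
            {γ : Γ // γ ∈ Γ1 ∧ γ ∈ tr jf K (z i) (z i)})) ⟨?_, ?_⟩)
      · rintro ⟨c1, γ1, h11, h12⟩ ⟨c2, γ2, h21, h22⟩ h
        have h3 : γ1 = γ2 := congrArg (fun w => w.1) h
        subst h3
        have h4 : c1 = c2 := by
          apply Subtype.ext
          rw [← Quotient.out_eq c1.1, ← Quotient.out_eq c2.1]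
          apply QuotientGroup.eq.2
          rw [mem_tr] at h12 h22
          have h5 := K.mul_mem (K.inv_mem h12) h22
          have h6 : ((z i * Quotient.out c)⁻¹ * (jf γ1 * (z i * Quotient.out c1.1)))⁻¹ *
              ((z i * Quotient.out c)⁻¹ * (jf γ1 * (z i * Quotient.out c2.1))) =
              (Quotient.out c1.1)⁻¹ * Quotient.out c2.1 := by group
          rwa [h6] at h5
        subst h4
        rfl
      · rintro ⟨γ, hγ, h⟩
        obtain ⟨γ0, h0, h1, h2⟩ := hPT.g1 γ hγ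
        have h3 : γ0 ∈ tr jf K (z i) (z i) := (tr_of (h2 (z i))).1 h
        rw [mem_tr] at h3
        have hH : (z i)⁻¹ * (jf γ0 * z i) ∈ Hf :=
          Hf.mul_mem (Hf.inv_mem (hPT.zH i)) (Hf.mul_mem (hPT.jH γ0 h0) (hPT.zH i))
        obtain ⟨y2, hy2, k2, hk2, h4⟩ := hPT.s2 p _ (K.inv_mem h3) y hy
        obtain ⟨k3, hk3, h5⟩ := out_eq (K := K) (((z i)⁻¹ * (jf γ0 * z i))⁻¹ * Quotient.out c)
        have h6 : ((((z i)⁻¹ * (jf γ0 * z i))⁻¹ * Quotient.out c : Gf) : Gf ⧸ K) = (y2 : Gf ⧸ K) := by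
          apply QuotientGroup.eq.2
          rw [hout, ← mul_assoc, h4]
          have h7 : (y2 * k2 * k)⁻¹ * y2 = (k2 * k)⁻¹ := by group
          rw [h7]
          exact K.inv_mem (K.mul_mem hk2 hk)
        have h8 : ((((z i)⁻¹ * (jf γ0 * z i))⁻¹ * Quotient.out c : Gf) : Gf ⧸ K) ∈
            cA K (S p) (A p) := by
          refine ⟨⟨y2, hy2, h6⟩, ?_⟩
          rw [h5]
          exact (hPT.a1 p _ (Hf.inv_mem hH) (Quotient.out c) k3 hk3).2 hcA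
        refine ⟨⟨⟨_, h8⟩, γ, hγ, ?_⟩, rfl⟩
        refine (tr_of (h2 _)).2 ?_
        rw [mem_tr]
        have h9 : Quotient.out ((⟨_, h8⟩ : cA K (S p) (A p)).1) =
            ((z i)⁻¹ * (jf γ0 * z i))⁻¹ * Quotient.out c * k3 := h5
        rw [h9]
        have h10 : (z i * Quotient.out c)⁻¹ * (jf γ0 * (z i *
            (((z i)⁻¹ * (jf γ0 * z i))⁻¹ * Quotient.out c * k3))) = k3 := by group
        rw [h10]
        exact hk3
    rw [hcard, ← Nat.cast_smul_eq_nsmul ℂ, smul_smul]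
    push_cast
    rfl
  · intro hn i' c' hc' γ hγ h
    apply hn
    have h1 : Quotient.out c ∈ A q := mem_A (p := p) hPT hγ h hc'.2
    have h2 : y ∈ A q := (hAy q).1 h1
    have h3 : p = q := by
      by_contra hne
      exact hPT.a2 q p (fun h => hne h.symm) y hy h2
    exact ⟨h3, by rw [h3]; exact h1⟩

end Pool.Agent.GP
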