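import Pool.Agent.Lib.GP.Spec4

/-!
# Theorem GPO, module Jw2: the dual of W in V, isometric (helper94, an edit of Jw by helper58)
-/

set_option autoImplicit false

open IsDedekindDomain Matrix MeasureTheory

noncomputable section

namespace Pool.Agent.GP

section

variable {G V W : Type} [Group G] [TopologicalSpace G] [NormedAddCommGroup V] [InnerProductSpace ℂ V]
  [FiniteDimensional ℂ V] [NormedAddCommGroup W] [InnerProductSpace ℂ W] [FiniteDimensional ℂ W]

/-- the vector which represents the functional `v ↦ l v w` -/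
private def jv (l : V →ₗ[ℂ] W →ₗ[ℂ] ℂ) (w : W) : V :=
  haveI : CompleteSpace V := FiniteDimensional.complete ℂ V
  (InnerProductSpace.toDual ℂ V).symm (LinearMap.toContinuousLinearMap (l.flip w))

omit [FiniteDimensional ℂ W] in
private theorem jv_inner (l : V →ₗ[ℂ] W →ₗ[ℂ] ℂ) (w : W) (v : V) : inner ℂ (jv l w) v = l v w := by
  have : CompleteSpace V := FiniteDimensional.complete ℂ V
  unfold jv
  rw [InnerProductSpace.toDual_symm_apply]
  rfl

private theorem jv_ext (l : V →ₗ[ℂ] W →ₗ[ℂ] ℂ) (w : W) (z : V) (h : ∀ v : V, inner ℂ z v = l v w) :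
    jv l w = z := by
  refine ext_inner_right ℂ fun v => ?_
  rw [jv_inner, h]

private theorem jv_add (l : V →ₗ[ℂ] W →ₗ[ℂ] ℂ) (w w' : W) : jv l (w + w') = jv l w + jv l w' := by
  refine jv_ext l _ _ fun v => ?_
  rw [inner_add_left, jv_inner, jv_inner, map_add]

private theorem jv_smul (l : V →ₗ[ℂ] W →ₗ[ℂ] ℂ) (c : ℂ) (w : W) :
    jv l (c • w) = (starRingEnd ℂ) c • jv l w := by
  refine jv_ext l _ _ fun v => ?_
  rw [inner_smul_left, jv_inner, map_smul, Complex.conj_conj, smul_eq_mul]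

private theorem jv_zero (l : V →ₗ[ℂ] W →ₗ[ℂ] ℂ) : jv l 0 = 0 := by
  refine jv_ext l _ _ fun v => ?_
  rw [inner_zero_left, map_zero]

private theorem jv_sum {ι : Type*} (l : V →ₗ[ℂ] W →ₗ[ℂ] ℂ) (s : Finset ι) (c : ι → ℂ) (w : ι → W) :
    jv l (∑ i ∈ s, c i • w i) = ∑ i ∈ s, (starRingEnd ℂ) (c i) • jv l (w i) := by
  classical
  induction s using Finset.induction_on with
  | empty => rw [Finset.sum_empty, Finset.sum_empty, jv_zero]
  | insert a s ha ih => rw [Finset.sum_insert ha, Finset.sum_insert ha, jv_add, jv_smul, ih]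

variable {H : Subgroup G} {ρ : URep G V} {σ : URep H W} {l : V →ₗ[ℂ] W →ₗ[ℂ] ℂ}

private theorem jv_act (hl : ∀ (x : H) v w, l (ρ.act x v) (σ.act x w) = l v w) (x : H) (w : W) :
    jv l (σ.act x w) = ρ.act x (jv l w) := by
  refine jv_ext l _ _ fun v => ?_
  have e : v = ρ.act x (ρ.act (x⁻¹ : H) v) := by
    have := congrArg (fun f : V ≃ₗᵢ[ℂ] V => f v) (map_mul ρ.act (x : G) ((x⁻¹ : H) : G))
    rw [← Subgroup.coe_mul, mul_inv_cancel, Subgroup.coe_one, map_one] at this
    exact this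
  rw [e, LinearIsometryEquiv.inner_map_map, jv_inner, hl]

/-- the kernel -/
private def kj (l : V →ₗ[ℂ] W →ₗ[ℂ] ℂ) : Submodule ℂ W where
  carrier := {w | jv l w = 0}
  add_mem' := by
    intro a b ha hb
    rw [Set.mem_ofPred_eq] at ha hb ⊢
    rw [jv_add, ha, hb, add_zero]
  zero_mem' := jv_zero l
  smul_mem' := by
    intro c a ha
    rw [Set.mem_ofPred_eq] at ha ⊢
    rw [jv_smul, ha, smul_zero]

private theorem jv_inj (hσ : σ.Irr) (h0 : l ≠ 0)
    (hl : ∀ (x : H) v w, l (ρ.act x v) (σ.act x w) = l v w) {w : W} (hw : jv l w = 0) : w = 0 := by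
  have h1 : kj l = ⊥ := by
    rcases hσ.2 (kj l) (fun g v hv => by
      have hv' : jv l v = 0 := hv
      change jv l (σ.act g v) = 0
      rw [jv_act hl, hv', map_zero]) with h | h
    · exact h
    · exfalso
      refine h0 (LinearMap.ext fun v => LinearMap.ext fun w' => ?_)
      have h2 : w' ∈ kj l := by
        rw [h]
        exact Submodule.mem_top
      have h3 : jv l w' = 0 := h2
      rw [← jv_inner, h3, inner_zero_left, LinearMap.zero_apply, LinearMap.zero_apply]
  have h4 : w ∈ kj l := hw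
  rw [h1] at h4
  exact (Submodule.mem_bot ℂ).1 h4

/-- the functional `w ↦ ⟨J w, J w'⟩` -/
private def fl (l : V →ₗ[ℂ] W →ₗ[ℂ] ℂ) (w' : W) : W →ₗ[ℂ] ℂ where
  toFun := fun w => inner ℂ (jv l w) (jv l w')
  map_add' := by
    intro a b
    rw [jv_add, inner_add_left]
  map_smul' := by
    intro c a
    rw [jv_smul, inner_smul_left, Complex.conj_conj, RingHom.id_apply, smul_eq_mul]

/-- the vector which represents the functional `fl` -/
private def av (l : V →ₗ[ℂ] W →ₗ[ℂ] ℂ) (w' : W) : W :=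
  haveI : CompleteSpace W := FiniteDimensional.complete ℂ W
  (InnerProductSpace.toDual ℂ W).symm (LinearMap.toContinuousLinearMap (fl l w'))

private theorem av_inner (l : V →ₗ[ℂ] W →ₗ[ℂ] ℂ) (w' w : W) :
    inner ℂ (av l w') w = inner ℂ (jv l w) (jv l w') := by
  have : CompleteSpace W := FiniteDimensional.complete ℂ W
  unfold av
  rw [InnerProductSpace.toDual_symm_apply]
  rfl

private theorem av_ext (l : V →ₗ[ℂ] W →ₗ[ℂ] ℂ) (w' z : W)
    (h : ∀ w : W, inner ℂ z w = inner ℂ (jv l w) (jv l w')) : av l w' = z := by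
  refine ext_inner_right ℂ fun v => ?_
  rw [av_inner, h]

/-- the operator `A = J* J` -/
private def aop (l : V →ₗ[ℂ] W →ₗ[ℂ] ℂ) : W →ₗ[ℂ] W where
  toFun := av l
  map_add' := by
    intro a b
    refine av_ext l _ _ fun w => ?_
    rw [inner_add_left, av_inner, av_inner, jv_add, inner_add_right]
  map_smul' := by
    intro c a
    refine av_ext l _ _ fun w => ?_
    rw [RingHom.id_apply, inner_smul_left, av_inner, jv_smul, inner_smul_right]

private theorem aop_act (hl : ∀ (x : H) v w, l (ρ.act x v) (σ.act x w) = l v w) (x : H) (w : W) :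
    aop l (σ.act x w) = σ.act x (aop l w) := by
  change av l (σ.act x w) = σ.act x (av l w)
  refine av_ext l _ _ fun v => ?_
  obtain ⟨v', rfl⟩ : ∃ v', v = σ.act x v' := by
    refine ⟨σ.act x⁻¹ v, ?_⟩
    have := congrArg (fun f : W ≃ₗᵢ[ℂ] W => f v) (map_mul σ.act x x⁻¹)
    rw [mul_inv_cancel, map_one] at this
    exact this
  have e1 : inner ℂ (σ.act x (av l w)) (σ.act x v') = inner ℂ (av l w) v' :=
    LinearIsometryEquiv.inner_map_map _ _ _
  rw [e1, av_inner, jv_act hl, jv_act hl, LinearIsometryEquiv.inner_map_map]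

private theorem aop_scalar (hσ : σ.Irr)
    (hl : ∀ (x : H) v w, l (ρ.act x v) (σ.act x w) = l v w) : ∃ κ : ℂ, ∀ w, aop l w = κ • w := by
  have : Nontrivial W := hσ.1
  obtain ⟨κ, hκ⟩ := Module.End.exists_eigenvalue (aop l : Module.End ℂ W)
  refine ⟨κ, ?_⟩
  rcases hσ.2 (Module.End.eigenspace (aop l) κ) (fun g v hv => by
    rw [Module.End.mem_eigenspace_iff] at hv ⊢
    rw [aop_act hl, hv, map_smul]) with h | h
  · exact absurd h hκ
  · intro w
    have h2 : w ∈ Module.End.eigenspace (aop l) κ := by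
      rw [h]
      exact Submodule.mem_top
    exact Module.End.mem_eigenspace_iff.1 h2

/-- `J` is a similarity -/
private theorem jv_sim (hσ : σ.Irr) (h0 : l ≠ 0)
    (hl : ∀ (x : H) v w, l (ρ.act x v) (σ.act x w) = l v w) :
    ∃ r : ℝ, 0 < r ∧ ∀ w w', inner ℂ (jv l w) (jv l w') = (r : ℂ) * inner ℂ w' w := by
  obtain ⟨κ, hκ⟩ := aop_scalar hσ hl
  have h1 : ∀ w w', inner ℂ (jv l w) (jv l w') = (starRingEnd ℂ) κ * inner ℂ w' w := by
    intro w w'
    have h2 : av l w' = κ • w' := hκ w'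
    rw [← av_inner, h2, inner_smul_left]
  have : Nontrivial W := hσ.1
  obtain ⟨w0, hw0⟩ := exists_ne (0 : W)
  have hn : 0 < ‖w0‖ := norm_pos_iff.2 hw0
  have hj : jv l w0 ≠ 0 := fun h => hw0 (jv_inj hσ h0 hl h)
  have hm : 0 < ‖jv l w0‖ := norm_pos_iff.2 hj
  have h3 := h1 w0 w0
  rw [inner_self_eq_norm_sq_to_K, inner_self_eq_norm_sq_to_K] at h3
  have hn' : ((‖w0‖ : ℝ) : ℂ) ^ 2 ≠ 0 := pow_ne_zero 2 (Complex.ofReal_ne_zero.2 hn.ne')
  refine ⟨‖jv l w0‖ ^ 2 / ‖w0‖ ^ 2, by positivity, fun w w' => ?_⟩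
  have h4 : (starRingEnd ℂ) κ = ((‖jv l w0‖ ^ 2 / ‖w0‖ ^ 2 : ℝ) : ℂ) := by
    rw [Complex.ofReal_div, Complex.ofReal_pow, Complex.ofReal_pow, eq_div_iff hn']
    exact h3.symm
  rw [h1, h4]

end

theorem tJw2 : S_Jw2 := by
  intro G V W _ _ _ _ _ _ _ _ H ρ σ l hσ h0 hl
  classical
  have cV : CompleteSpace V := FiniteDimensional.complete ℂ V
  set bw := Module.finBasis ℂ W with hbw
  set a : Fin (Module.finrank ℂ W) → V := fun k => jv l (bw k) with ha
  have hJ : ∀ w : W, jv l w = ∑ k, (starRingEnd ℂ) (bw.repr w k) • a k := by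
    intro w
    conv_lhs => rw [← bw.sum_repr w]
    rw [jv_sum]
  have hli : LinearIndependent ℂ a := by
    rw [Fintype.linearIndependent_iff]
    intro g hg
    have h1 : jv l (∑ k, (starRingEnd ℂ) (g k) • bw k) = 0 := by
      rw [jv_sum, ← hg]
      refine Finset.sum_congr rfl fun k _ => ?_
      rw [Complex.conj_conj]
    have h2 := jv_inj hσ h0 hl h1
    have h3 := Fintype.linearIndependent_iff.1 bw.linearIndependent _ h2
    intro i
    have h4 := h3 i
    rwa [map_eq_zero] at h4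
  set U : Submodule ℂ V := Submodule.span ℂ (Set.range a) with hU
  have haU : ∀ k, a k ∈ U := fun k => Submodule.subset_span ⟨k, rfl⟩
  have hJU : ∀ w : W, jv l w ∈ U := by
    intro w
    rw [hJ]
    exact Submodule.sum_mem _ fun k _ => Submodule.smul_mem _ _ (haU k)
  have hst : ∀ x ∈ H, ∀ v ∈ U, ρ.act x v ∈ U := by
    intro x hx v hv
    refine Submodule.span_induction (p := fun v _ => ρ.act x v ∈ U) ?_ ?_ ?_ ?_ hv
    · rintro _ ⟨k, rfl⟩
      have := hJU (σ.act ⟨x, hx⟩ (bw k))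
      rw [jv_act hl] at this
      exact this
    · rw [map_zero]
      exact U.zero_mem
    · intro v w _ _ h1 h2
      rw [map_add]
      exact U.add_mem h1 h2
    · intro c v _ h1
      rw [map_smul]
      exact U.smul_mem c h1
  have hinv : ∀ (x : G) (v w : V), inner ℂ v (ρ.act x w) = inner ℂ (ρ.act x⁻¹ v) w := by
    intro x v w
    have e : v = ρ.act x (ρ.act x⁻¹ v) := by
      have := congrArg (fun f : V ≃ₗᵢ[ℂ] V => f v) (map_mul ρ.act x x⁻¹)
      rw [mul_inv_cancel, map_one] at this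
      exact this
    conv_lhs => rw [e]
    rw [LinearIsometryEquiv.inner_map_map]
  have hst' : ∀ x ∈ H, ∀ v ∈ Uᗮ, ρ.act x v ∈ Uᗮ := by
    intro x hx v hv
    rw [Submodule.mem_orthogonal] at hv ⊢
    intro u hu
    rw [hinv]
    exact hv _ (hst _ (H.inv_mem hx) u hu)
  have hPa : ∀ v ∈ U, U.starProjection v = v := fun v hv => Submodule.starProjection_eq_self_iff.2 hv
  obtain ⟨r, hr, hsim⟩ := jv_sim hσ h0 hl
  have hs : 0 < Real.sqrt r := Real.sqrt_pos.2 hr
  let J : W →ₗ⋆[ℂ] V :=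
    { toFun := fun w => (((Real.sqrt r)⁻¹ : ℝ) : ℂ) • jv l w
      map_add' := by
        intro w w'
        rw [jv_add, smul_add]
      map_smul' := by
        intro c w
        rw [jv_smul, smul_comm] }
  have hJd : ∀ w, J w = (((Real.sqrt r)⁻¹ : ℝ) : ℂ) • jv l w := fun w => rfl
  refine ⟨U.starProjection.toLinearMap, J, ?_, ?_, ?_, ?_, ?_, ?_⟩
  · refine ⟨?_, ?_⟩
    · intro v
      exact hPa _ (Submodule.starProjection_apply_mem U v)
    · intro u v
      exact Submodule.inner_starProjection_left_eq_right U u v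
  · intro x hx v
    change U.starProjection (ρ.act x v) = ρ.act x (U.starProjection v)
    refine Submodule.eq_starProjection_of_mem_orthogonal
      (hst x hx _ (Submodule.starProjection_apply_mem U v)) ?_
    rw [← map_sub]
    exact hst' x hx _ (Submodule.sub_starProjection_mem_orthogonal v)
  · have e : LinearMap.range U.starProjection.toLinearMap = U := Submodule.range_starProjection U
    unfold rk
    rw [e, hU, finrank_span_eq_card hli, Fintype.card_fin]
  · intro w
    rw [hJd]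
    exact hPa _ (Submodule.smul_mem _ _ (hJU w))
  · intro x w
    rw [hJd, hJd, jv_act hl, map_smul]
  · intro w w'
    rw [hJd, hJd, inner_smul_left, inner_smul_right, hsim, Complex.conj_ofReal, ← mul_assoc, ← mul_assoc,
      ← Complex.ofReal_mul, ← Complex.ofReal_mul]
    have e : (Real.sqrt r)⁻¹ * (Real.sqrt r)⁻¹ * r = 1 := by
      rw [← mul_inv, Real.mul_self_sqrt hr.le, inv_mul_cancel₀ hr.ne']
    rw [e, Complex.ofReal_one, one_mul]

end Pool.Agent.GP
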