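import Pool.Agent.Lib.GP.Spec4

/-!
# Theorem GPO: module LT3 (independence of the Hecke functionals of `F`, if the bad terms are small)
-/

set_option autoImplicit false

open IsDedekindDomain Matrix MeasureTheory

noncomputable section

namespace Pool.Agent.GP

section LT3aux

variable {Γ G Gf V : Type} [Group Γ] [Group G] [TopologicalSpace G] [Group Gf] [NormedAddCommGroup V]
  [InnerProductSpace ℂ V]

private theorem LT3_tr (jf : Γ →* Gf) (K : Subgroup Gf) (g g' k k' : Gf) (hk : k ∈ K) (hk' : k' ∈ K) :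
    tr jf K (g * k) (g' * k') = tr jf K g g' := by
  ext γ
  change (g' * k')⁻¹ * (jf γ * (g * k)) ∈ K ↔ g'⁻¹ * (jf γ * g) ∈ K
  have e : (g' * k')⁻¹ * (jf γ * (g * k)) = k'⁻¹ * (g'⁻¹ * (jf γ * g)) * k := by group
  rw [e, K.mul_mem_cancel_right hk, K.mul_mem_cancel_left (K.inv_mem hk')]

private theorem LT3_out (K : Subgroup Gf) (S : Set Gf) (c : Gf ⧸ K) (hc : c ∈ cs K S) :
    ∃ y ∈ S, ∃ k ∈ K, Quotient.out c = y * k := by
  obtain ⟨y, hy, rfl⟩ := hc
  obtain ⟨k, hk⟩ := QuotientGroup.mk_out_eq_mul K y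
  exact ⟨y, hy, k, k.2, hk⟩

/-- The Poincare series. -/
private def LT3_R (ja : Γ →* G) (jf : Γ →* Gf) (K : Subgroup Gf) (ρ : URep G V) (u : Gf) (v : V) (g : Gf) : V :=
  ∑ᶠ γ : {γ : Γ // γ ∈ tr jf K u g}, ρ.act (ja γ) v

private theorem LT3_R_mem (ja : Γ →* G) (jf : Γ →* Gf) (K : Subgroup Gf) (ρ : URep G V)
    (hfin : ∀ g g' : Gf, (tr jf K g g').Finite) (u : Gf) (v : V) :
    LT3_R ja jf K ρ u v ∈ MV ja jf K ρ := by
  intro δ g k hk
  unfold LT3_R
  have htr : ∀ γ : Γ, γ ∈ tr jf K u g ↔ δ * γ ∈ tr jf K u (jf δ * g * k) := by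
    intro γ
    change g⁻¹ * (jf γ * u) ∈ K ↔ (jf δ * g * k)⁻¹ * (jf (δ * γ) * u) ∈ K
    have e : (jf δ * g * k)⁻¹ * (jf (δ * γ) * u) = k⁻¹ * (g⁻¹ * (jf γ * u)) := by
      rw [map_mul]
      group
    rw [e, K.mul_mem_cancel_left (K.inv_mem hk)]
  let e : {γ : Γ // γ ∈ tr jf K u g} ≃ {γ : Γ // γ ∈ tr jf K u (jf δ * g * k)} :=
    (Equiv.mulLeft δ).subtypeEquiv htr
  have hF1 : Fintype {γ : Γ // γ ∈ tr jf K u g} := (hfin u g).fintype
  have hF2 : Fintype {γ : Γ // γ ∈ tr jf K u (jf δ * g * k)} := (hfin u _).fintype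
  rw [← finsum_comp_equiv e, finsum_eq_sum_of_fintype, finsum_eq_sum_of_fintype, map_sum]
  refine Finset.sum_congr rfl fun γ _ => ?_
  change ρ.act (ja (δ * γ.1)) v = ρ.act (ja δ) (ρ.act (ja γ.1) v)
  rw [map_mul, map_mul]
  rfl

omit [InnerProductSpace ℂ V] in
private theorem LT3_split (h : Γ → V) (s : Set Γ) (hs : s.Finite) (Γ1 : Subgroup Γ) :
    (∑ᶠ γ : {γ : Γ // γ ∈ s}, h γ) = (∑ᶠ γ : {γ : Γ // γ ∈ Γ1 ∧ γ ∈ s}, h γ) +
      ∑ᶠ γ : {γ : Γ // γ ∈ s ∧ γ ∉ Γ1}, h γ := by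
  have h1 : (∑ᶠ γ : {γ : Γ // γ ∈ s}, h γ) = ∑ᶠ γ ∈ s, h γ := finsum_set_coe_eq_finsum_mem s
  have h2 : (∑ᶠ γ : {γ : Γ // γ ∈ Γ1 ∧ γ ∈ s}, h γ) = ∑ᶠ γ ∈ {γ : Γ | γ ∈ Γ1 ∧ γ ∈ s}, h γ :=
    finsum_set_coe_eq_finsum_mem {γ : Γ | γ ∈ Γ1 ∧ γ ∈ s}
  have h3 : (∑ᶠ γ : {γ : Γ // γ ∈ s ∧ γ ∉ Γ1}, h γ) = ∑ᶠ γ ∈ {γ : Γ | γ ∈ s ∧ γ ∉ Γ1}, h γ :=
    finsum_set_coe_eq_finsum_mem {γ : Γ | γ ∈ s ∧ γ ∉ Γ1}
  rw [h1, h2, h3, ← finsum_mem_inter_add_sdiff (Γ1 : Set Γ) hs]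
  have e1 : s ∩ (Γ1 : Set Γ) = {γ : Γ | γ ∈ Γ1 ∧ γ ∈ s} := by
    ext γ
    exact and_comm
  have e2 : s \ (Γ1 : Set Γ) = {γ : Γ | γ ∈ s ∧ γ ∉ Γ1} := rfl
  rw [e1, e2]

end LT3aux

/-- The final inequality. -/
private theorem LT3_end {P0 : Type} [Fintype P0] [DecidableEq P0] (α S B : P0 → ℂ) (q : P0) (hq : ∀ p, ‖α p‖ ≤ ‖α q‖)
    (mq m b : ℝ) (hS : ∀ p, S p = (if p = q then (mq : ℂ) else 0) + B p)
    (h0 : ∑ p, (starRingEnd ℂ) (α p) * S p = 0) (hB : ∑ p, ‖B p‖ ≤ b) (hb : b < m) (hm0 : 0 ≤ m) (hm : m ≤ mq) :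
    α q = 0 := by
  by_contra hne
  have hpos : 0 < ‖α q‖ := norm_pos_iff.2 hne
  have h1 : (starRingEnd ℂ) (α q) * (mq : ℂ) = -∑ p, (starRingEnd ℂ) (α p) * B p := by
    have h2 : ∑ p, (starRingEnd ℂ) (α p) * S p = (starRingEnd ℂ) (α q) * (mq : ℂ) + ∑ p, (starRingEnd ℂ) (α p) * B p := by
      simp_rw [hS, mul_add, Finset.sum_add_distrib]
      congr 1
      rw [Finset.sum_eq_single q]
      · rw [if_pos rfl]
      · intro p _ hp
        rw [if_neg hp, mul_zero]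
      · intro h
        exact absurd (Finset.mem_univ _) h
    rw [h0] at h2
    exact eq_neg_of_add_eq_zero_left h2.symm
  have h3 : ‖α q‖ * mq = ‖∑ p, (starRingEnd ℂ) (α p) * B p‖ := by
    have h2 := congrArg norm h1
    rw [norm_neg, norm_mul, RCLike.norm_conj, Complex.norm_real, Real.norm_of_nonneg (hm0.trans hm)] at h2
    exact h2
  have h4 : ‖∑ p, (starRingEnd ℂ) (α p) * B p‖ ≤ ‖α q‖ * b := by
    refine (norm_sum_le _ _).trans ?_
    have h5 : ∀ p ∈ Finset.univ, ‖(starRingEnd ℂ) (α p) * B p‖ ≤ ‖α q‖ * ‖B p‖ := by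
      intro p _
      rw [norm_mul, RCLike.norm_conj]
      exact mul_le_mul_of_nonneg_right (hq p) (norm_nonneg _)
    refine (Finset.sum_le_sum h5).trans ?_
    rw [← Finset.mul_sum]
    exact mul_le_mul_of_nonneg_left hB hpos.le
  rw [← h3] at h4
  have h6 : mq ≤ b := le_of_mul_le_mul_left h4 hpos
  linarith

private theorem LT3_sub {X : Type} (s t : Set X) [Fintype s] [Fintype t] (h : s ⊆ t) (g : X → ℝ) (hg : ∀ x, 0 ≤ g x) :
    ∑ x : s, g x.1 ≤ ∑ x : t, g x.1 := by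
  classical
  have e1 : ∑ x : s, g x.1 = ∑ x ∈ s.toFinset, g x :=
    (Finset.sum_subtype s.toFinset (fun x => Set.mem_toFinset) g).symm
  have e2 : ∑ x : t, g x.1 = ∑ x ∈ t.toFinset, g x :=
    (Finset.sum_subtype t.toFinset (fun x => Set.mem_toFinset) g).symm
  rw [e1, e2]
  refine Finset.sum_le_sum_of_subset_of_nonneg (fun x hx => ?_) fun x _ _ => hg x
  rw [Set.mem_toFinset] at hx ⊢
  exact h hx

private theorem LT3_inst {X : Type} (i1 i2 : Fintype X) (g : X → ℝ) :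
    @Finset.sum X ℝ _ (@Finset.univ X i1) g = @Finset.sum X ℝ _ (@Finset.univ X i2) g := by
  rw [Subsingleton.elim i1 i2]

theorem tLT3 : S_LT3 := by
  intro hGS Γ G Gf V P0 ι _ _ _ _ _ _ _ _ ja jf K ΓH Γ1 Hf ρ S A z n1 n2 hPT hex hn2 hn1
  classical
  have hfin := hPT.fin
  have iC : ∀ p, Fintype (cs K (S p)) := fun p => (hPT.s1 p).fintype
  let T : Type := Σ p, cs K (S p)
  have iF : ∀ (i' i : ι) (c' c : Gf ⧸ K), Fintype {γ : Γ // γ ∈ tr jf K (z i' * Quotient.out c')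
      (z i * Quotient.out c) ∧ γ ∉ Γ1} := fun i' i c' c =>
    ((hfin (z i' * Quotient.out c') (z i * Quotient.out c)).subset fun γ hγ => hγ.1 : Set.Finite
      {γ : Γ | γ ∈ tr jf K (z i' * Quotient.out c') (z i * Quotient.out c) ∧ γ ∉ Γ1}).fintype
  let Fib : (ι × ι) × (T × T) → Type := fun a => {γ : Γ // γ ∈ tr jf K (z a.1.1 * Quotient.out a.2.1.2.1)
      (z a.1.2 * Quotient.out a.2.2.2.1) ∧ γ ∉ Γ1}
  have iFib : ∀ a, Fintype (Fib a) := fun a => iF _ _ _ _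
  refine ⟨Σ a, Fib a, inferInstance, fun t => t.1.1.1, fun t => t.1.1.2, fun t => t.2.1, ?_, ?_, ?_⟩
  · -- the number of the bad terms
    have h1 : ∀ a, Fintype.card (Fib a) ≤ n1 := by
      rintro ⟨⟨i', i⟩, ⟨p', c', hc'⟩, ⟨p, c, hc⟩⟩
      obtain ⟨y', hy', k', hk', e'⟩ := LT3_out K (S p') c' hc'
      obtain ⟨y, hy, k, hk, e⟩ := LT3_out K (S p) c hc
      have h2 := hn1 p' p y' hy' y hy i' i
      rw [← LT3_tr jf K (z i' * y') (z i * y) k' k hk' hk, mul_assoc, mul_assoc, ← e', ← e] at h2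
      rw [← Nat.card_eq_fintype_card]
      exact h2
    have h3 : Fintype.card T ≤ n2 := by
      rw [Fintype.card_sigma]
      refine le_trans (le_of_eq (Finset.sum_congr rfl fun p _ => ?_)) hn2
      rw [← Nat.card_eq_fintype_card]
      rfl
    rw [Fintype.card_sigma]
    refine (Finset.sum_le_sum fun a _ => h1 a).trans ?_
    rw [Finset.sum_const, Finset.card_univ, smul_eq_mul, Fintype.card_prod, Fintype.card_prod, Fintype.card_prod]
    refine Nat.mul_le_mul_right _ ?_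
    calc Fintype.card ι * Fintype.card ι * (Fintype.card T * Fintype.card T)
        = (Fintype.card ι * Fintype.card T) ^ 2 := by ring
      _ ≤ (Fintype.card ι * n2) ^ 2 := Nat.pow_le_pow_left (Nat.mul_le_mul_left _ h3) 2
  · rintro ⟨⟨⟨i', i⟩, ⟨p', c', hc'⟩, ⟨p, c, hc⟩⟩, γ, hγ, hγ1⟩
    obtain ⟨y', hy', k', hk', e'⟩ := LT3_out K (S p') c' hc'
    obtain ⟨y, hy, k, hk, e⟩ := LT3_out K (S p) c hc
    refine ⟨hγ1, p', p, y', hy', y, hy, ?_⟩
    have h2 : γ ∈ tr jf K (z i' * Quotient.out c') (z i * Quotient.out c) := hγ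
    rw [e', e, ← mul_assoc, ← mul_assoc, LT3_tr jf K _ _ k' k hk' hk] at h2
    exact h2
  · intro F hF hlt α hα
    set w : ι → ℝ := fun i => wt jf K ΓH z i with hw
    -- the stabilizers
    have hst : ∀ (Γ2 : Subgroup Γ) (i : ι), 1 ≤ st Γ2 jf K (z i) := by
      intro Γ2 i
      have hfi : Finite {γ : Γ // γ ∈ Γ2 ∧ γ ∈ tr jf K (z i) (z i)} :=
        ((hfin (z i) (z i)).subset fun γ hγ => hγ.2 : Set.Finite {γ : Γ | γ ∈ Γ2 ∧ γ ∈ tr jf K (z i) (z i)})
      have hne : Nonempty {γ : Γ // γ ∈ Γ2 ∧ γ ∈ tr jf K (z i) (z i)} := by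
        refine ⟨⟨1, Γ2.one_mem, ?_⟩⟩
        change (z i)⁻¹ * (jf 1 * z i) ∈ K
        rw [map_one, one_mul, inv_mul_cancel]
        exact K.one_mem
      exact Nat.card_pos
    have hst1 : ∀ i, st ΓH jf K (z i) ≤ st Γ1 jf K (z i) := by
      intro i
      have hfi : Finite {γ : Γ // γ ∈ Γ1 ∧ γ ∈ tr jf K (z i) (z i)} :=
        ((hfin (z i) (z i)).subset fun γ hγ => hγ.2 : Set.Finite {γ : Γ | γ ∈ Γ1 ∧ γ ∈ tr jf K (z i) (z i)})
      exact Nat.card_le_card_of_injective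
        (fun γ : {γ : Γ // γ ∈ ΓH ∧ γ ∈ tr jf K (z i) (z i)} =>
          (⟨γ.1, hPT.le γ.2.1, γ.2.2⟩ : {γ : Γ // γ ∈ Γ1 ∧ γ ∈ tr jf K (z i) (z i)}))
        fun a b hab => Subtype.ext
          (congrArg (fun γ : {γ : Γ // γ ∈ Γ1 ∧ γ ∈ tr jf K (z i) (z i)} => γ.1) hab)
    have hw0 : ∀ i, 0 < w i := by
      intro i
      refine inv_pos.2 ?_
      exact_mod_cast hst ΓH i
    have hw1 : ∀ i, 1 ≤ w i * st Γ1 jf K (z i) := by
      intro i
      have h1 : (0 : ℝ) < (st ΓH jf K (z i) : ℝ) := by exact_mod_cast hst ΓH i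
      have h2 : (st ΓH jf K (z i) : ℝ) ≤ (st Γ1 jf K (z i) : ℝ) := by exact_mod_cast hst1 i
      change 1 ≤ ((st ΓH jf K (z i) : ℕ) : ℝ)⁻¹ * _
      rw [inv_mul_eq_div, le_div_iff₀ h1, one_mul]
      exact h2
    intro p0
    obtain ⟨q, hq⟩ := @Finite.exists_max P0 ℝ _ ⟨p0⟩ _ (fun p => ‖α p‖)
    suffices hα0 : α q = 0 by
      have h1 := hq p0
      rw [hα0, norm_zero] at h1
      exact norm_le_zero_iff.1 h1
    -- the Poincare series
    have iA : Fintype (cA K (S q) (A q)) := ((hPT.s1 q).subset fun c hc => hc.1 : (cA K (S q) (A q)).Finite).fintype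
    let f : Gf → V := ∑ i', (w i' : ℂ) • ∑ c' : cA K (S q) (A q),
      LT3_R ja jf K ρ (z i' * Quotient.out c'.1) (F (z i'))
    have hf : f ∈ MV ja jf K ρ := by
      refine Submodule.sum_mem _ fun i' _ => Submodule.smul_mem _ _ (Submodule.sum_mem _ fun c' _ => ?_)
      exact LT3_R_mem ja jf K ρ hfin _ _
    let G1 : ι → Gf ⧸ K → V := fun i c => ∑ i', (w i' : ℂ) • ∑ᶠ c' : cA K (S q) (A q),
      ∑ᶠ γ : {γ : Γ // γ ∈ Γ1 ∧ γ ∈ tr jf K (z i' * Quotient.out c'.1) (z i * Quotient.out c)}, ρ.act (ja γ) (F (z i'))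
    let G2 : ι → Gf ⧸ K → V := fun i c => ∑ i', (w i' : ℂ) • ∑ c' : cA K (S q) (A q),
      ∑ γ : {γ : Γ // γ ∈ tr jf K (z i' * Quotient.out c'.1) (z i * Quotient.out c) ∧ γ ∉ Γ1}, ρ.act (ja γ) (F (z i'))
    have hf12 : ∀ i c, f (z i * Quotient.out c) = G1 i c + G2 i c := by
      intro i c
      change f (z i * Quotient.out c) = (∑ i', _) + ∑ i', _
      rw [← Finset.sum_add_distrib]
      have e1 : f (z i * Quotient.out c) = ∑ i', (w i' : ℂ) • ∑ c' : cA K (S q) (A q),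
          LT3_R ja jf K ρ (z i' * Quotient.out c'.1) (F (z i')) (z i * Quotient.out c) := by
        simp only [f, Finset.sum_apply, Pi.smul_apply]
      rw [e1]
      refine Finset.sum_congr rfl fun i' _ => ?_
      rw [← smul_add, finsum_eq_sum_of_fintype, ← Finset.sum_add_distrib]
      congr 1
      refine Finset.sum_congr rfl fun c' _ => ?_
      rw [← finsum_eq_sum_of_fintype]
      exact LT3_split (fun γ => ρ.act (ja γ) (F (z i'))) _ (hfin _ _) Γ1
    -- the good part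
    have hg : ∀ p i c, c ∈ cs K (S p) → inner ℂ (G1 i c) (F (z i)) =
        if p = q ∧ Quotient.out c ∈ A p then ((w i * st Γ1 jf K (z i) * ‖F (z i)‖ ^ 2 : ℝ) : ℂ) else 0 := by
      intro p i c hc
      have h := hGS Γ G Gf V P0 ι ja jf K ΓH Γ1 Hf ρ S A z hPT F hF p q c hc i
      split_ifs with hpq
      · have h1 := h.1 hpq
        change G1 i c = _ at h1
        rw [h1, inner_smul_left, inner_self_eq_norm_sq_to_K]
        rw [Complex.conj_ofReal]
        push_cast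
        rfl
      · have h2 := h.2 hpq
        have h3 : G1 i c = 0 := by
          refine Finset.sum_eq_zero fun i' _ => ?_
          rw [finsum_eq_sum_of_fintype, Finset.sum_eq_zero, smul_zero]
          intro c' _
          have : IsEmpty {γ : Γ // γ ∈ Γ1 ∧ γ ∈ tr jf K (z i' * Quotient.out c'.1) (z i * Quotient.out c)} :=
            ⟨fun γ => h2 i' c'.1 c'.2 γ.1 γ.2.1 γ.2.2⟩
          exact finsum_of_isEmpty _
        rw [h3, inner_zero_left]
    let nq : ℕ := (Finset.univ.filter fun c : cs K (S q) => Quotient.out c.1 ∈ A q).card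
    have hnq : 1 ≤ nq := by
      obtain ⟨y, hy, hyA⟩ := hex q
      refine Finset.card_pos.2 ⟨⟨(y : Gf ⧸ K), y, hy, rfl⟩, ?_⟩
      rw [Finset.mem_filter]
      refine ⟨Finset.mem_univ _, ?_⟩
      obtain ⟨k, hk⟩ := QuotientGroup.mk_out_eq_mul K y
      have e1 : Quotient.out (y : Gf ⧸ K) = 1 * y * (k : Gf) := by rw [one_mul]; exact hk
      change Quotient.out (y : Gf ⧸ K) ∈ A q
      rw [e1]
      exact (hPT.a1 q 1 Hf.one_mem y k k.2).2 hyA
    let r : ι → ℝ := fun i => w i * st Γ1 jf K (z i) * ‖F (z i)‖ ^ 2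
    have hr : ∀ i, ‖F (z i)‖ ^ 2 ≤ r i := fun i => le_mul_of_one_le_left (sq_nonneg _) (hw1 i)
    let Mq : ℝ := ∑ i, w i * (nq * r i)
    let B : P0 → ℂ := fun p => ∑ i, (w i : ℂ) * ∑ c : cs K (S p), inner ℂ (G2 i c.1) (F (z i))
    let Sp : P0 → ℂ := fun p => ∑ i, (w i : ℂ) * inner ℂ (Hk K (cs K (S p)) f (z i)) (F (z i))
    have hg2 : ∀ p i, ∑ c : cs K (S p), inner ℂ (G1 i c.1) (F (z i)) =
        if p = q then ((nq * r i : ℝ) : ℂ) else 0 := by
      intro p i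
      rw [Finset.sum_congr rfl (fun c _ => hg p i c.1 c.2)]
      by_cases hp : p = q
      · subst hp
        rw [if_pos rfl]
        simp only [true_and]
        rw [← Finset.sum_filter, Finset.sum_const, nsmul_eq_mul]
        have e : ((nq * r i : ℝ) : ℂ) = ((nq : ℝ) : ℂ) * ((r i : ℝ) : ℂ) := Complex.ofReal_mul _ _
        rw [Complex.ofReal_natCast] at e
        exact e.symm
      · rw [if_neg hp]
        exact Finset.sum_eq_zero fun c _ => if_neg fun h => hp h.1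
    have hS : ∀ p, Sp p = (if p = q then (Mq : ℂ) else 0) + B p := by
      intro p
      have h1 : ∀ i, inner ℂ (Hk K (cs K (S p)) f (z i)) (F (z i)) =
          (if p = q then ((nq * r i : ℝ) : ℂ) else 0) + ∑ c : cs K (S p), inner ℂ (G2 i c.1) (F (z i)) := by
        intro i
        rw [← hg2 p i, ← Finset.sum_add_distrib]
        unfold Hk
        rw [finsum_eq_sum_of_fintype, sum_inner]
        refine Finset.sum_congr rfl fun c _ => ?_
        rw [hf12, inner_add_left]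
      change ∑ i, _ = _ + ∑ i, _
      simp_rw [h1, mul_add, Finset.sum_add_distrib]
      congr 1
      split_ifs
      · simp only [Mq, Complex.ofReal_sum, Complex.ofReal_mul]
      · simp
    have h0 : ∑ p, (starRingEnd ℂ) (α p) * Sp p = 0 := by
      rw [← hα f hf]
      change ∑ p, (starRingEnd ℂ) (α p) * ∑ i, _ = _
      simp_rw [Finset.mul_sum]
      rw [Finset.sum_comm]
      refine Finset.sum_congr rfl fun i _ => ?_
      rw [sum_inner, Finset.mul_sum]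
      refine Finset.sum_congr rfl fun p _ => ?_
      rw [inner_smul_left]
      ring
    -- the bad part
    let E : ι → ι → Gf ⧸ K → Gf ⧸ K → ℝ := fun i' i c' c =>
      ∑ γ : {γ : Γ // γ ∈ tr jf K (z i' * Quotient.out c') (z i * Quotient.out c) ∧ γ ∉ Γ1},
        w i' * w i * ‖inner ℂ (ρ.act (ja γ.1) (F (z i'))) (F (z i))‖
    have hE0 : ∀ i' i c' c, 0 ≤ E i' i c' c := fun i' i c' c =>
      Finset.sum_nonneg fun γ _ => mul_nonneg (mul_nonneg (hw0 _).le (hw0 _).le) (norm_nonneg _)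
    have hBp : ∀ p, ‖B p‖ ≤ ∑ i, ∑ c : cs K (S p), ∑ i', ∑ c' : cs K (S q), E i' i c'.1 c.1 := by
      intro p
      refine (norm_sum_le _ _).trans (Finset.sum_le_sum fun i _ => ?_)
      rw [Finset.mul_sum]
      refine (norm_sum_le _ _).trans (Finset.sum_le_sum fun c _ => ?_)
      rw [norm_mul, Complex.norm_real, Real.norm_of_nonneg (hw0 i).le]
      change w i * ‖inner ℂ (∑ i', (w i' : ℂ) • ∑ c' : cA K (S q) (A q), _) (F (z i))‖ ≤ _
      rw [sum_inner]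
      refine (mul_le_mul_of_nonneg_left (norm_sum_le _ _) (hw0 i).le).trans ?_
      rw [Finset.mul_sum]
      refine Finset.sum_le_sum fun i' _ => ?_
      have h1 : ∑ c' : cA K (S q) (A q), E i' i c'.1 c.1 ≤ ∑ c' : cs K (S q), E i' i c'.1 c.1 := by
        exact LT3_sub (cA K (S q) (A q)) (cs K (S q)) (fun x hx => hx.1) (fun c' => E i' i c' c.1) fun x => hE0 _ _ _ _
      refine le_trans ?_ h1
      rw [inner_smul_left, norm_mul, RCLike.norm_conj, Complex.norm_real, Real.norm_of_nonneg (hw0 i').le,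
        sum_inner]
      refine (mul_le_mul_of_nonneg_left (mul_le_mul_of_nonneg_left (norm_sum_le _ _) (hw0 i').le) (hw0 i).le).trans ?_
      rw [Finset.mul_sum, Finset.mul_sum]
      refine Finset.sum_le_sum fun c' _ => ?_
      rw [sum_inner]
      refine (mul_le_mul_of_nonneg_left (mul_le_mul_of_nonneg_left (norm_sum_le _ _) (hw0 i').le) (hw0 i).le).trans ?_
      rw [Finset.mul_sum, Finset.mul_sum]
      refine Finset.sum_le_sum fun γ _ => le_of_eq ?_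
      ring
    have hB : ∑ p, ‖B p‖ ≤ ∑ t : (Σ a, Fib a), wt jf K ΓH z t.1.1.1 * wt jf K ΓH z t.1.1.2 *
        ‖inner ℂ (ρ.act (ja t.2.1) (F (z t.1.1.1))) (F (z t.1.1.2))‖ := by
      refine (Finset.sum_le_sum fun p _ => hBp p).trans ?_
      have e1 : (∑ t : (Σ a, Fib a), wt jf K ΓH z t.1.1.1 * wt jf K ΓH z t.1.1.2 *
          ‖inner ℂ (ρ.act (ja t.2.1) (F (z t.1.1.1))) (F (z t.1.1.2))‖) =
          ∑ i', ∑ i, ∑ y : T, ∑ x : T, E i' i y.2.1 x.2.1 := by
        rw [Fintype.sum_sigma, Fintype.sum_prod_type, Fintype.sum_prod_type]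
        refine Finset.sum_congr rfl fun i' _ => Finset.sum_congr rfl fun i _ => ?_
        rw [Fintype.sum_prod_type]
        refine Finset.sum_congr rfl fun y _ => Finset.sum_congr rfl fun x _ => ?_
        exact LT3_inst _ _ _
      have e2 : (∑ p, ∑ i, ∑ c : cs K (S p), ∑ i', ∑ c' : cs K (S q), E i' i c'.1 c.1) =
          ∑ i', ∑ i, ∑ c' : cs K (S q), ∑ x : T, E i' i c'.1 x.2.1 := by
        rw [Finset.sum_comm]
        rw [Finset.sum_comm (s := (Finset.univ : Finset ι)) (t := (Finset.univ : Finset ι))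
          (f := fun i' i => ∑ c' : cs K (S q), ∑ x : T, E i' i c'.1 x.2.1)]
        refine Finset.sum_congr rfl fun i _ => ?_
        have e3 : (∑ p, ∑ c : cs K (S p), ∑ i', ∑ c' : cs K (S q), E i' i c'.1 c.1) =
            ∑ x : T, ∑ i', ∑ c' : cs K (S q), E i' i c'.1 x.2.1 := by
          rw [Fintype.sum_sigma]
        rw [e3, Finset.sum_comm]
        refine Finset.sum_congr rfl fun i' _ => ?_
        rw [Finset.sum_comm]
      rw [e1, e2]
      refine Finset.sum_le_sum fun i' _ => Finset.sum_le_sum fun i _ => ?_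
      rw [Fintype.sum_sigma]
      exact Finset.single_le_sum (f := fun q' => ∑ c' : cs K (S q'), ∑ x : T, E i' i c'.1 x.2.1)
        (fun q' _ => Finset.sum_nonneg fun c' _ => Finset.sum_nonneg fun x _ => hE0 _ _ _ _) (Finset.mem_univ q)
    refine LT3_end α Sp B q hq Mq _ _ hS h0 hB hlt (Finset.sum_nonneg fun i _ =>
      mul_nonneg (hw0 i).le (sq_nonneg _)) (Finset.sum_le_sum fun i _ => ?_)
    refine mul_le_mul_of_nonneg_left ?_ (hw0 i).le
    refine (hr i).trans (le_mul_of_one_le_left ((sq_nonneg _).trans (hr i)) ?_)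
    exact_mod_cast hnq

end Pool.Agent.GP
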