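import Pool.Agent.Lib.GP.Spec2

/-!
# Theorem GPE, module Neg: a local element with `κ e = -e` (helper28)
-/

set_option autoImplicit false

open IsDedekindDomain Matrix MeasureTheory

noncomputable section

namespace Pool.Agent.GP

/-- The rational numbers which are integral at `p`. -/
private abbrev Neg_R (p : Nat.Primes) : Subring ℚ := ((vp p).valuation ℚ).integer

private theorem Neg_den {p : Nat.Primes} {r : ℚ} (h : ¬ (p : ℕ) ∣ r.den) : r ∈ Neg_R p := by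
  change (vp p).valuation ℚ r ≤ 1
  rw [Rat.valuation_le_one_iff_den]
  intro h1
  have h2 : ((r.den : ℕ) : ℤ) ∈ Ideal.span {((p : ℕ) : ℤ)} := h1
  rw [Ideal.mem_span_singleton] at h2
  exact h (by exact_mod_cast h2)

private theorem Neg_inv {p : Nat.Primes} {r : ℚ} (h : ¬ ((p : ℕ) : ℤ) ∣ r.num) :
    r ≠ 0 ∧ r⁻¹ ∈ Neg_R p := by
  have hr : r ≠ 0 := by
    rintro rfl
    exact h (by rw [Rat.num_zero]; exact dvd_zero _)
  refine ⟨hr, ?_⟩
  change (vp p).valuation ℚ r⁻¹ ≤ 1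
  have h1 : (vp p).valuation ℚ (r.num : ℚ) = 1 := by
    have h2 : (r.num : ℚ) = algebraMap ℤ ℚ r.num := rfl
    rw [h2, HeightOneSpectrum.valuation_eq_one_iff_notMem]
    intro h3
    have h4 : r.num ∈ Ideal.span {((p : ℕ) : ℤ)} := h3
    rw [Ideal.mem_span_singleton] at h4
    exact h h4
  have h2 : r⁻¹ * (r.num : ℚ) = (r.den : ℤ) := by
    have h3 := Rat.num_div_den r
    have h4 : (r.den : ℚ) ≠ 0 := by exact_mod_cast r.den_ne_zero
    rw [div_eq_iff h4] at h3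
    rw [h3]
    push_cast
    field_simp
  have h3 : (vp p).valuation ℚ ((r.den : ℤ) : ℚ) ≤ 1 := by
    have h4 : (((r.den : ℤ)) : ℚ) = algebraMap ℤ ℚ (r.den : ℤ) := rfl
    rw [h4]
    exact HeightOneSpectrum.valuation_le_one _ _
  rw [← h2, map_mul, h1, mul_one] at h3
  exact h3

private theorem Neg_num {p : ℕ} (hp : p.Prime) {r : ℚ} (hr : r ≠ 0) (h : padicValRat p r = 0) :
    ¬ (p : ℤ) ∣ r.num := by
  have : Fact p.Prime := ⟨hp⟩
  intro h1
  have h2 : ¬ p ∣ r.den := by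
    intro h3
    have h4 : p ∣ r.num.natAbs := Int.natCast_dvd.1 h1
    have h5 := Nat.dvd_gcd h4 h3
    rw [r.reduced] at h5
    exact hp.one_lt.ne' (Nat.dvd_one.1 h5)
  rw [padicValRat_def, padicValNat.eq_zero_of_not_dvd h2] at h
  have h6 : 1 ≤ padicValNat p r.num.natAbs :=
    one_le_padicValNat_of_dvd (Int.natAbs_ne_zero.2 (Rat.num_ne_zero.2 hr)) (Int.natCast_dvd.1 h1)
  unfold padicValInt at h
  omega

private theorem Neg_dot {N : ℕ} {p : Nat.Primes} {x y : Fin N → ℚ} (hx : ∀ i, x i ∈ Neg_R p)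
    (hy : ∀ i, y i ∈ Neg_R p) : x ⬝ᵥ y ∈ Neg_R p :=
  Subring.sum_mem _ fun i _ => Subring.mul_mem _ (hx i) (hy i)

private theorem Neg_rf {N : ℕ} {p : Nat.Primes} {Q : Matrix (Fin N) (Fin N) ℚ} {x : Fin N → ℚ}
    (hQ : ∀ i j, Q i j ∈ Neg_R p) (hx : ∀ i, x i ∈ Neg_R p) (hq : (x ⬝ᵥ (Q *ᵥ x))⁻¹ ∈ Neg_R p) :
    ∀ i j, rf Q x i j ∈ Neg_R p := by
  intro i j
  have h1 : (Q *ᵥ x) j ∈ Neg_R p := Neg_dot (fun l => hQ j l) hx
  have e : rf Q x i j = (1 : Matrix (Fin N) (Fin N) ℚ) i j -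
      2 * (x ⬝ᵥ (Q *ᵥ x))⁻¹ * (x i * (Q *ᵥ x) j) := by
    unfold rf
    rw [Matrix.sub_apply, Matrix.smul_apply, Matrix.of_apply, smul_eq_mul, div_eq_mul_inv]
  rw [e]
  refine Subring.sub_mem _ ?_ (Subring.mul_mem _ (Subring.mul_mem _ (ofNat_mem _ 2) hq)
    (Subring.mul_mem _ (hx i) h1))
  rw [Matrix.one_apply]
  split_ifs
  · exact Subring.one_mem _
  · exact Subring.zero_mem _

/-- An integral rational number in the completion. -/
private theorem Neg_ad {p : Nat.Primes} {r : ℚ} (h : r ∈ Neg_R p) :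
    (algebraMap ℚ Af r) (vp p) ∈ (vp p).adicCompletionIntegers ℚ := by
  rw [HeightOneSpectrum.mem_adicCompletionIntegers]
  exact (HeightOneSpectrum.valuedAdicCompletion_eq_valuation' (vp p) r).le.trans h

theorem tNeg : S_Neg := by
  intro hVec hRf hCmp N Q e K p hN hQ hdet hG
  obtain ⟨u, m, -, hm, -, -, -, -, h1, h2, h3⟩ := hVec N Q e p p.2 hG.odd hN hQ hdet hG.q1 hG.q2 hG.e1 hG.e2
  have hQi : ∀ i j, Q i j ∈ Neg_R p := fun i j => Neg_den (hG.q1 i j)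
  have hei : ∀ i, e i ∈ Neg_R p := fun i => Neg_den (hG.e1 i)
  have hmi : ∀ i, m i ∈ Neg_R p := fun i => Neg_den (hm i)
  obtain ⟨he0, hei2⟩ := Neg_inv hG.e2
  obtain ⟨-, hmi2⟩ := Neg_inv (Neg_num p.2 h2 h3)
  have hme : m ⬝ᵥ (Q *ᵥ e) = 0 := by
    rw [← h1, Matrix.dotProduct_mulVec, dotProduct_comm]
    have h := Matrix.vecMul_transpose Q m
    rw [hQ] at h
    rw [h]
  obtain ⟨-, r1, -⟩ := hRf N Q e e hQ he0 he0
  obtain ⟨-, r2, -⟩ := hRf N Q m m hQ h2 h2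
  obtain ⟨-, -, γ, hγ, -⟩ := hRf N Q e m hQ he0 h2
  have hγe : γ.1.1 *ᵥ e = -e := by
    rw [hγ, ← Matrix.mulVec_mulVec, r2, hme, mul_zero, zero_div, zero_smul, sub_zero, r1]
    funext i
    simp only [Pi.sub_apply, Pi.smul_apply, smul_eq_mul, Pi.neg_apply]
    field_simp
    ring
  have hγi : ∀ i j, γ.1.1 i j ∈ Neg_R p := by
    intro i j
    rw [hγ, Matrix.mul_apply]
    exact Subring.sum_mem _ fun l _ => Subring.mul_mem _ (Neg_rf hQi hei hei2 i l) (Neg_rf hQi hmi hmi2 l j)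
  obtain ⟨κ, hκ, hκp⟩ := hCmp N Q p (jG Q Af γ)
  have hent : ∀ i j, (κ.1.1 i j) (vp p) = (algebraMap ℚ Af (γ.1.1 i j)) (vp p) := by
    intro i j
    exact congrFun (congrFun (congrArg Subtype.val hκp) i) j
  refine ⟨κ, hG.k2 κ hκ ?_, hκ, ?_⟩
  · intro i j v
    by_cases hv : v = vp p
    · subst hv
      rw [hent]
      exact Neg_ad (hγi i j)
    · have h4 : (κ.1.1 i j) v = (1 : Matrix (Fin N) (Fin N) (v.adicCompletion ℚ)) i j :=
        congrFun (congrFun (congrArg Subtype.val (hκ v hv)) i) j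
      rw [h4, Matrix.one_apply]
      split_ifs
      · exact (v.adicCompletionIntegers ℚ).one_mem
      · exact (v.adicCompletionIntegers ℚ).zero_mem
  · intro i
    have e1 : ∀ (g : Gp Q Af), ((g.1.1 *ᵥ ve e Af) i) (vp p) =
        ∑ j, (g.1.1 i j) (vp p) * (ve e Af j) (vp p) := by
      intro g
      exact (map_sum (ev (vp p)) _ _).trans (Finset.sum_congr rfl fun j _ => map_mul (ev (vp p)) _ _)
    have e2 : ((κ.1.1 *ᵥ ve e Af) i) (vp p) = (((jG Q Af γ).1.1 *ᵥ ve e Af) i) (vp p) := by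
      rw [e1, e1]
      exact Finset.sum_congr rfl fun j _ => by rw [hent]; rfl
    rw [e2, jG_ve]
    have e3 : ve e ℚ = e := rfl
    rw [e3, hγe]
    change (ev (vp p)) (algebraMap ℚ Af (-e i)) = (ev (vp p)) (-algebraMap ℚ Af (e i))
    rw [map_neg (algebraMap ℚ Af)]

end Pool.Agent.GP
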