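import Pool.Agent.Lib.GP.Spec2

/-!
# Theorem GP, second part: no `γ` with `γ e = -e` in the transporters
-/

set_option autoImplicit false

open IsDedekindDomain Matrix MeasureTheory

noncomputable section

namespace Pool.Agent.GP

private def V (v : HeightOneSpectrum ℤ) {N : ℕ} (x : Fin N → Af) : Fin N → v.adicCompletion ℚ :=
  fun j => ev v (x j)

private theorem V_mul {N : ℕ} {Q : Matrix (Fin N) (Fin N) ℚ} (v : HeightOneSpectrum ℤ)
    (g : Gp Q Af) (x : Fin N → Af) : V v (g.1.1 *ᵥ x) = (evG Q v g).1 *ᵥ V v x := by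
  funext i
  change ev v (∑ j, g.1.1 i j * x j) = ∑ j, ev v (g.1.1 i j) * ev v (x j)
  rw [map_sum]
  exact Finset.sum_congr rfl fun j _ => map_mul _ _ _

private theorem V_ext {N : ℕ} {x y : Fin N → Af} (h : ∀ v, V v x = V v y) : x = y := by
  funext i
  apply RestrictedProduct.ext
  intro v
  exact congrFun (h v) i

private theorem kp_mem {N : ℕ} {Q : Matrix (Fin N) (Fin N) ℚ} {e : Fin N → ℚ}
    {K : Subgroup (Gp Q Af)} {p : Nat.Primes} (hG : Gd Q e K p) {k y : Gp Q Af} (hk : k ∈ K)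
    (hy : y ∈ Loc Q p) (h : evG Q (vp p) y = evG Q (vp p) k) : y ∈ K := by
  refine hG.k2 y hy ?_
  intro i j v
  by_cases hv : v = vp p
  · subst hv
    have h1 := congrArg (fun z : SpecialLinearGroup (Fin N) ((vp p).adicCompletion ℚ) => z.1 i j) h
    have h2 : (y.1.1 i j) (vp p) = (k.1.1 i j) (vp p) := h1
    rw [h2]
    exact hG.k1 k hk i j
  · have h1 := congrArg (fun z : SpecialLinearGroup (Fin N) (v.adicCompletion ℚ) => z.1 i j)
      (hy v hv)
    have h2 : (y.1.1 i j) v = (1 : Matrix (Fin N) (Fin N) (v.adicCompletion ℚ)) i j := h1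
    rw [h2, Matrix.one_apply]
    split_ifs
    · exact one_mem _
    · exact zero_mem _

private theorem w_e {N : ℕ} {Q : Matrix (Fin N) (Fin N) ℚ} {e : Fin N → ℚ} {h h' : Gp Q Af}
    (hh : h ∈ Hp Q e Af) (hh' : h' ∈ Hp Q e Af) {γ : Gp Q ℚ} (hγ : γ.1.1 *ᵥ ve e ℚ = -ve e ℚ) :
    (h'⁻¹ * (jG Q Af γ * h)).1.1 *ᵥ ve e Af = -ve e Af := by
  have h1 : (h'⁻¹).1.1 *ᵥ ve e Af = ve e Af := (Hp Q e Af).inv_mem hh'
  have h2 : h.1.1 *ᵥ ve e Af = ve e Af := hh
  have h3 : (jG Q Af γ).1.1 *ᵥ ve e Af = -ve e Af := by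
    rw [jG_ve, hγ]
    funext i
    change algebraMap ℚ Af (-(algebraMap ℚ ℚ (e i))) = -(algebraMap ℚ Af (e i))
    rw [map_neg]
    rfl
  change ((h'⁻¹).1.1 * ((jG Q Af γ).1.1 * h.1.1)) *ᵥ ve e Af = -ve e Af
  rw [← Matrix.mulVec_mulVec, ← Matrix.mulVec_mulVec, h2, h3, Matrix.mulVec_neg, h1]

theorem tNoN : S_NoN := by
  intro hNeg hCmp N Q e K p p' hN hQs hQd hG hG' hK h hh h' hh' y hy y' hy' γ hγ hne
  have hk : (h' * y')⁻¹ * (jG Q Af γ * (h * y)) ∈ K := hγ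
  set k : Gp Q Af := (h' * y')⁻¹ * (jG Q Af γ * (h * y)) with hkd
  -- the action of `k` outside
  have hA : ∀ v, v ≠ vp p → v ≠ vp p' → (evG Q v k).1 *ᵥ V v (ve e Af) = V v (-ve e Af) := by
    intro v hv hv'
    have h1 : evG Q v k = evG Q v (h'⁻¹ * (jG Q Af γ * h)) := by
      rw [hkd]
      simp only [map_mul, map_inv, hy v hv, hy' v hv', mul_one]
    rw [h1, ← V_mul, w_e hh hh' hne]
  obtain ⟨kp, hkp, hkpe⟩ := hCmp N Q p k
  obtain ⟨kq, hkq, hkqe⟩ := hCmp N Q p' k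
  have hkpK : kp ∈ K := kp_mem hG hk hkp hkpe
  have hkqK : kq ∈ K := kp_mem hG' hk hkq hkqe
  obtain ⟨κ, hκK, hκ, hκe⟩ := hNeg N Q e K p hN hQs hQd hG
  obtain ⟨κ', hκK', hκ', hκe'⟩ := hNeg N Q e K p' hN hQs hQd hG'
  have hκV : (evG Q (vp p) κ).1 *ᵥ V (vp p) (ve e Af) = V (vp p) (-ve e Af) := by
    rw [← V_mul]
    funext i
    exact hκe i
  have hκV' : (evG Q (vp p') κ').1 *ᵥ V (vp p') (ve e Af) = V (vp p') (-ve e Af) := by
    rw [← V_mul]
    funext i
    exact hκe' i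
  by_cases hpp : vp p = vp p'
  · refine hK (k * kp⁻¹ * κ) (K.mul_mem (K.mul_mem hk (K.inv_mem hkpK)) hκK) ?_
    apply V_ext
    intro v
    rw [V_mul]
    by_cases hv : v = vp p
    · subst hv
      have h1 : evG Q (vp p) (k * kp⁻¹ * κ) = evG Q (vp p) κ := by
        rw [map_mul, map_mul, map_inv, hkpe, mul_inv_cancel, one_mul]
      rw [h1, hκV]
    · have h1 : evG Q v (k * kp⁻¹ * κ) = evG Q v k := by
        rw [map_mul, map_mul, map_inv, hkp v hv, hκ v hv, inv_one, mul_one, mul_one]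
      rw [h1]
      exact hA v hv (hpp ▸ hv)
  · have hpp' : vp p' ≠ vp p := fun h1 => hpp h1.symm
    refine hK (k * kp⁻¹ * kq⁻¹ * κ * κ') (K.mul_mem (K.mul_mem (K.mul_mem (K.mul_mem hk
      (K.inv_mem hkpK)) (K.inv_mem hkqK)) hκK) hκK') ?_
    apply V_ext
    intro v
    rw [V_mul]
    by_cases hv : v = vp p
    · subst hv
      have h1 : evG Q (vp p) (k * kp⁻¹ * kq⁻¹ * κ * κ') = evG Q (vp p) κ := by
        rw [map_mul, map_mul, map_mul, map_mul, map_inv, map_inv, hkpe, hkq _ hpp, hκ' _ hpp,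
          mul_inv_cancel, inv_one, one_mul, one_mul, mul_one]
      rw [h1, hκV]
    · by_cases hv' : v = vp p'
      · subst hv'
        have h1 : evG Q (vp p') (k * kp⁻¹ * kq⁻¹ * κ * κ') = evG Q (vp p') κ' := by
          simp only [map_mul, map_inv, hkp _ hpp', hkqe, hκ _ hpp', inv_one, mul_one,
            mul_inv_cancel, one_mul]
        rw [h1, hκV']
      · have h1 : evG Q v (k * kp⁻¹ * kq⁻¹ * κ * κ') = evG Q v k := by
          rw [map_mul, map_mul, map_mul, map_mul, map_inv, map_inv, hkp v hv, hkq v hv', hκ v hv,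
            hκ' v hv', inv_one, mul_one, mul_one, mul_one, mul_one]
        rw [h1]
        exact hA v hv hv'

end Pool.Agent.GP
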