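import Pool.Agent.Lib.GP.Spec4

/-!
# Theorem GPO, module OS: the number of the members of an orthogonal system with large bad terms
-/

set_option autoImplicit false

open IsDedekindDomain Matrix MeasureTheory

noncomputable section

namespace Pool.Agent.GP

private theorem OS_key (hHS : C_HS) {V : Type} [NormedAddCommGroup V] [InnerProductSpace ℂ V]
    [FiniteDimensional ℂ V] {ι μ : Type} [Fintype ι] [Fintype μ] (B : μ → PiLp 2 fun _ : ι => V)
    (hB : Orthonormal ℂ B) (D : V →ₗ[ℂ] V) (q : ι) : ∑ k, ‖D (B k q)‖ ^ 2 ≤ hs2 D := by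
  classical
  have bes : ∀ w : V, ∑ k, ‖inner ℂ w (B k q)‖ ^ 2 ≤ ‖w‖ ^ 2 := by
    intro w
    obtain ⟨w', hw'⟩ : ∃ w' : PiLp 2 fun _ : ι => V, w' = WithLp.toLp 2 (Pi.single q w) := ⟨_, rfl⟩
    have hq : w' q = w := by
      rw [hw']
      exact Pi.single_eq_same (M := fun _ : ι => V) q w
    have hne : ∀ i, i ≠ q → w' i = 0 := by
      intro i hi
      rw [hw']
      exact Pi.single_eq_of_ne (M := fun _ : ι => V) hi w
    have hin : ∀ x : PiLp 2 fun _ : ι => V, inner ℂ x w' = inner ℂ (x q) w := by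
      intro x
      rw [PiLp.inner_apply, Finset.sum_eq_single q]
      · rw [hq]
      · intro i _ hi
        rw [hne i hi, inner_zero_right]
      · intro h
        exact absurd (Finset.mem_univ q) h
    have hnorm : ‖w'‖ ^ 2 = ‖w‖ ^ 2 := by
      rw [PiLp.norm_sq_eq_of_L2, Finset.sum_eq_single q]
      · rw [hq]
      · intro i _ hi
        rw [hne i hi, norm_zero]
        norm_num
      · intro h
        exact absurd (Finset.mem_univ q) h
    have h1 := hB.sum_inner_products_le w' (s := Finset.univ)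
    rw [hnorm] at h1
    refine le_trans (le_of_eq (Finset.sum_congr rfl (fun k _ => ?_))) h1
    rw [hin, norm_inner_symm]
  have h1 : ∑ k, ‖D (B k q)‖ ^ 2 =
      ∑ i, ∑ k, ‖inner ℂ (LinearMap.adjoint D (stdOrthonormalBasis ℂ V i)) (B k q)‖ ^ 2 := by
    rw [Finset.sum_comm]
    refine Finset.sum_congr rfl (fun k _ => ?_)
    rw [← (stdOrthonormalBasis ℂ V).sum_sq_norm_inner_right (D (B k q))]
    refine Finset.sum_congr rfl (fun i _ => ?_)
    rw [LinearMap.adjoint_inner_left]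
  have h2 : hs2 (LinearMap.adjoint D) = hs2 D :=
    (hHS V).2.1 _ _ (fun u v => LinearMap.adjoint_inner_left D v u)
  rw [h1, ← h2]
  unfold hs2
  exact Finset.sum_le_sum (fun i _ => bes _)

/-- The second claim for one member. -/
private theorem OS_two (hHS : C_HS) {V ι κ : Type} [NormedAddCommGroup V] [InnerProductSpace ℂ V]
    [FiniteDimensional ℂ V] [Fintype ι] [Fintype κ] (I I' : κ → ι) (D : κ → V →ₗ[ℂ] V) (w : ι → ℝ) (β : ℝ)
    (f : ι → V) (h1 : ∀ i, 0 < w i ∧ w i ≤ 1) (h2 : ∀ t, hs2 (D t) ≤ β) (h3 : ∃ i, f i ≠ 0)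
    (h5 : ∑ i, w i * ‖f i‖ ^ 2 ≤ ∑ t, w (I t) * w (I' t) * ‖inner ℂ (D t (f (I t))) (f (I' t))‖) :
    1 ≤ (Fintype.card κ : ℝ) ^ 2 * β := by
  obtain ⟨m, hm⟩ : ∃ m, m = ∑ i, w i * ‖f i‖ ^ 2 := ⟨_, rfl⟩
  have hterm : ∀ i, w i * ‖f i‖ ^ 2 ≤ m := by
    intro i
    rw [hm]
    exact Finset.single_le_sum (f := fun i => w i * ‖f i‖ ^ 2)
      (fun i _ => mul_nonneg (h1 i).1.le (sq_nonneg _)) (Finset.mem_univ i)
  have hm0 : 0 < m := by
    obtain ⟨i, hi⟩ := h3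
    refine lt_of_lt_of_le ?_ (hterm i)
    exact mul_pos (h1 i).1 (pow_pos (norm_pos_iff.2 hi) 2)
  have hT : ∀ t, (w (I t) * w (I' t) * ‖inner ℂ (D t (f (I t))) (f (I' t))‖) ^ 2 ≤ β * m ^ 2 := by
    intro t
    have hb0 : 0 ≤ hs2 (D t) := ((hHS V).2.2.2.1 (D t) 0).1
    have hb : 0 ≤ β := hb0.trans (h2 t)
    have a1 : ‖inner ℂ (D t (f (I t))) (f (I' t))‖ ^ 2 ≤ β * ‖f (I t)‖ ^ 2 * ‖f (I' t)‖ ^ 2 := by
      have a2 : ‖D t (f (I t))‖ ^ 2 ≤ β * ‖f (I t)‖ ^ 2 :=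
        ((hHS V).2.2.2.1 (D t) (f (I t))).2.trans (mul_le_mul_of_nonneg_right (h2 t) (sq_nonneg _))
      calc ‖inner ℂ (D t (f (I t))) (f (I' t))‖ ^ 2 ≤ (‖D t (f (I t))‖ * ‖f (I' t)‖) ^ 2 :=
            pow_le_pow_left₀ (norm_nonneg _) (norm_inner_le_norm _ _) 2
        _ = ‖D t (f (I t))‖ ^ 2 * ‖f (I' t)‖ ^ 2 := by ring
        _ ≤ β * ‖f (I t)‖ ^ 2 * ‖f (I' t)‖ ^ 2 := mul_le_mul_of_nonneg_right a2 (sq_nonneg _)
    obtain ⟨u, hu⟩ : ∃ u, u = w (I t) := ⟨_, rfl⟩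
    obtain ⟨u', hu'⟩ : ∃ u', u' = w (I' t) := ⟨_, rfl⟩
    have b1 : 0 < u ∧ u ≤ 1 := by rw [hu]; exact h1 _
    have b1' : 0 < u' ∧ u' ≤ 1 := by rw [hu']; exact h1 _
    have b2 : u * ‖f (I t)‖ ^ 2 ≤ m := by rw [hu]; exact hterm _
    have b2' : u' * ‖f (I' t)‖ ^ 2 ≤ m := by rw [hu']; exact hterm _
    rw [← hu, ← hu']
    have c1 : u ^ 2 ≤ u := by nlinarith [b1.1, b1.2]
    have c1' : u' ^ 2 ≤ u' := by nlinarith [b1'.1, b1'.2]
    calc (u * u' * ‖inner ℂ (D t (f (I t))) (f (I' t))‖) ^ 2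
        = u ^ 2 * u' ^ 2 * ‖inner ℂ (D t (f (I t))) (f (I' t))‖ ^ 2 := by ring
      _ ≤ u ^ 2 * u' ^ 2 * (β * ‖f (I t)‖ ^ 2 * ‖f (I' t)‖ ^ 2) :=
          mul_le_mul_of_nonneg_left a1 (by positivity)
      _ ≤ u * u' * (β * ‖f (I t)‖ ^ 2 * ‖f (I' t)‖ ^ 2) := by
          refine mul_le_mul_of_nonneg_right (mul_le_mul c1 c1' (sq_nonneg _) b1.1.le) ?_
          positivity
      _ = β * ((u * ‖f (I t)‖ ^ 2) * (u' * ‖f (I' t)‖ ^ 2)) := by ring
      _ ≤ β * (m * m) := by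
          refine mul_le_mul_of_nonneg_left (mul_le_mul b2 b2' ?_ hm0.le) hb
          exact mul_nonneg b1'.1.le (sq_nonneg _)
      _ = β * m ^ 2 := by ring
  have h6 : m ^ 2 ≤ (Fintype.card κ : ℝ) ^ 2 * β * m ^ 2 := by
    have h7 : m ≤ ∑ t, w (I t) * w (I' t) * ‖inner ℂ (D t (f (I t))) (f (I' t))‖ := by
      rw [hm]
      exact h5
    have h8 := sq_sum_le_card_mul_sum_sq (s := (Finset.univ : Finset κ))
      (f := fun t => w (I t) * w (I' t) * ‖inner ℂ (D t (f (I t))) (f (I' t))‖)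
    rw [Finset.card_univ] at h8
    have h9 : ∑ t, (w (I t) * w (I' t) * ‖inner ℂ (D t (f (I t))) (f (I' t))‖) ^ 2 ≤
        (Fintype.card κ : ℝ) * (β * m ^ 2) := by
      refine (Finset.sum_le_sum (fun t _ => hT t)).trans (le_of_eq ?_)
      rw [Finset.sum_const, Finset.card_univ, nsmul_eq_mul]
    calc m ^ 2 ≤ (∑ t, w (I t) * w (I' t) * ‖inner ℂ (D t (f (I t))) (f (I' t))‖) ^ 2 :=
          pow_le_pow_left₀ hm0.le h7 2
      _ ≤ (Fintype.card κ : ℝ) * ∑ t, (w (I t) * w (I' t) * ‖inner ℂ (D t (f (I t))) (f (I' t))‖) ^ 2 := h8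
      _ ≤ (Fintype.card κ : ℝ) * ((Fintype.card κ : ℝ) * (β * m ^ 2)) :=
          mul_le_mul_of_nonneg_left h9 (by positivity)
      _ = (Fintype.card κ : ℝ) ^ 2 * β * m ^ 2 := by ring
  have h7 : 0 < m ^ 2 := pow_pos hm0 2
  have h8 : 1 * m ^ 2 ≤ (Fintype.card κ : ℝ) ^ 2 * β * m ^ 2 := by
    rw [one_mul]
    exact h6
  exact le_of_mul_le_mul_right h8 h7

/-- **OS.** -/
theorem tOS : S_OS := by
  intro hHS V ι κ _ _ _ _ _ I I' D w β s d F h1 h2 h3 h4 h5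
  classical
  refine ⟨?_, ?_⟩
  swap
  · intro hs
    obtain ⟨k, i, hki⟩ := h3 ⟨0, hs⟩
    exact OS_two hHS I I' D w β (F ⟨0, hs⟩ k) h1 h2 ⟨i, hki⟩ (h5 ⟨0, hs⟩ k)
  -- the norms
  obtain ⟨N, hN⟩ : ∃ N : Fin s → ℝ, N = fun j => ∑ k, ∑ i, w i * ‖F j k i‖ ^ 2 := ⟨_, rfl⟩
  have hN0 : ∀ j, 0 < N j := by
    intro j
    rw [hN]
    obtain ⟨k, i, hki⟩ := h3 j
    have a0 : ∀ k i, 0 ≤ w i * ‖F j k i‖ ^ 2 := fun k i => mul_nonneg (h1 i).1.le (sq_nonneg _)
    have a1 : w i * ‖F j k i‖ ^ 2 ≤ ∑ i, w i * ‖F j k i‖ ^ 2 :=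
      Finset.single_le_sum (f := fun i => w i * ‖F j k i‖ ^ 2) (fun i _ => a0 k i) (Finset.mem_univ i)
    have a2 : ∑ i, w i * ‖F j k i‖ ^ 2 ≤ ∑ k, ∑ i, w i * ‖F j k i‖ ^ 2 :=
      Finset.single_le_sum (f := fun k => ∑ i, w i * ‖F j k i‖ ^ 2)
        (fun k _ => Finset.sum_nonneg (fun i _ => a0 k i)) (Finset.mem_univ k)
    have a3 : 0 < w i * ‖F j k i‖ ^ 2 := mul_pos (h1 i).1 (pow_pos (norm_pos_iff.2 hki) 2)
    exact lt_of_lt_of_le a3 (a1.trans a2)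
  -- the orthonormal system
  obtain ⟨c, hc⟩ : ∃ c : Fin s → ι → ℝ, c = fun j i => √(w i) / √(N j) := ⟨_, rfl⟩
  have hc0 : ∀ j i, 0 ≤ c j i := by
    intro j i
    rw [hc]
    positivity
  have hcc : ∀ j j' i, c j i * c j' i = w i / (√(N j) * √(N j')) := by
    intro j j' i
    rw [hc]
    change √(w i) / √(N j) * (√(w i) / √(N j')) = _
    rw [div_mul_div_comm, Real.mul_self_sqrt (h1 i).1.le]
  have hcs : ∀ j i, c j i ^ 2 = w i / N j := by
    intro j i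
    rw [sq, hcc, Real.mul_self_sqrt (hN0 j).le]
  obtain ⟨x, hx⟩ : ∃ x : Fin s → PiLp 2 (fun _ : Fin d × ι => V),
      x = fun j => WithLp.toLp 2 (fun p => (c j p.2 : ℂ) • F j p.1 p.2) := ⟨_, rfl⟩
  have hxa : ∀ j (p : Fin d × ι), x j p = (c j p.2 : ℂ) • F j p.1 p.2 := by
    intro j p
    rw [hx]
  have hxn : ∀ j (p : Fin d × ι), ‖x j p‖ ^ 2 = w p.2 / N j * ‖F j p.1 p.2‖ ^ 2 := by
    intro j p
    rw [hxa, norm_smul, Complex.norm_real, Real.norm_eq_abs, abs_of_nonneg (hc0 _ _), mul_pow, hcs]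
  have hxo : Orthonormal ℂ x := by
    constructor
    · intro j
      have a1 : ‖x j‖ ^ 2 = 1 := by
        rw [PiLp.norm_sq_eq_of_L2, Fintype.sum_prod_type]
        have a2 : ∑ k, ∑ i, ‖x j (k, i)‖ ^ 2 = (∑ k, ∑ i, w i * ‖F j k i‖ ^ 2) / N j := by
          rw [Finset.sum_div]
          refine Finset.sum_congr rfl (fun k _ => ?_)
          rw [Finset.sum_div]
          refine Finset.sum_congr rfl (fun i _ => ?_)
          rw [hxn]
          ring
        rw [a2]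
        have a3 : (∑ k, ∑ i, w i * ‖F j k i‖ ^ 2) = N j := by rw [hN]
        rw [a3]
        exact div_self (hN0 j).ne'
      exact (pow_eq_one_iff_of_nonneg (norm_nonneg _) two_ne_zero).1 a1
    · intro j j' hj
      change inner ℂ (x j) (x j') = 0
      rw [PiLp.inner_apply, Fintype.sum_prod_type]
      have a1 : ∑ k, ∑ i, inner ℂ (x j (k, i)) (x j' (k, i)) =
          ((1 / (√(N j) * √(N j')) : ℝ) : ℂ) * ∑ k, ∑ i, (w i : ℂ) * inner ℂ (F j k i) (F j' k i) := by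
        rw [Finset.mul_sum]
        refine Finset.sum_congr rfl (fun k _ => ?_)
        rw [Finset.mul_sum]
        refine Finset.sum_congr rfl (fun i _ => ?_)
        rw [hxa, hxa, inner_smul_left, inner_smul_right, Complex.conj_ofReal, ← mul_assoc, ← mul_assoc,
          ← Complex.ofReal_mul, ← Complex.ofReal_mul]
        congr 2
        change c j i * c j' i = _
        rw [hcc]
        ring
      rw [a1, h4 j j' hj, mul_zero]
  -- the inequality for one member of the system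
  obtain ⟨A, hA⟩ : ∃ A : Fin s → κ → ℝ, A = fun j t => ∑ k, ‖D t (x j (k, I t))‖ ^ 2 := ⟨_, rfl⟩
  have hone : ∀ j, (1 : ℝ) ≤ (Fintype.card κ : ℝ) * ∑ t, A j t := by
    intro j
    have b1 : ∀ k, ∑ i, ‖x j (k, i)‖ ^ 2 ≤ ∑ t, ‖D t (x j (k, I t))‖ * ‖x j (k, I' t)‖ := by
      intro k
      have b2 : ∑ i, ‖x j (k, i)‖ ^ 2 = (∑ i, w i * ‖F j k i‖ ^ 2) / N j := by
        rw [Finset.sum_div]
        refine Finset.sum_congr rfl (fun i _ => ?_)
        rw [hxn]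
        ring
      rw [b2]
      refine (div_le_div_of_nonneg_right (h5 j k) (hN0 j).le).trans ?_
      rw [Finset.sum_div]
      refine Finset.sum_le_sum (fun t _ => ?_)
      refine le_trans ?_ (norm_inner_le_norm (𝕜 := ℂ) (D t (x j (k, I t))) (x j (k, I' t)))
      rw [hxa, hxa, map_smul, inner_smul_left, inner_smul_right, Complex.conj_ofReal, norm_mul, norm_mul,
        Complex.norm_real, Complex.norm_real, Real.norm_eq_abs, Real.norm_eq_abs, abs_of_nonneg (hc0 _ _),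
        abs_of_nonneg (hc0 _ _)]
      change _ ≤ c j (I t) * (c j (I' t) * ‖inner ℂ (D t (F j k (I t))) (F j k (I' t))‖)
      have b3 : w (I t) * w (I' t) / N j ≤ c j (I t) * c j (I' t) := by
        rw [hc]
        have e1 : w (I t) ≤ √(w (I t)) := by
          have := Real.mul_self_sqrt (h1 (I t)).1.le
          have e2 : √(w (I t)) ≤ 1 := Real.sqrt_le_one.2 (h1 (I t)).2
          nlinarith [Real.sqrt_nonneg (w (I t))]
        have e1' : w (I' t) ≤ √(w (I' t)) := by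
          have := Real.mul_self_sqrt (h1 (I' t)).1.le
          have e2 : √(w (I' t)) ≤ 1 := Real.sqrt_le_one.2 (h1 (I' t)).2
          nlinarith [Real.sqrt_nonneg (w (I' t))]
        have e3 : √(w (I t)) / √(N j) * (√(w (I' t)) / √(N j)) = √(w (I t)) * √(w (I' t)) / N j := by
          rw [div_mul_div_comm, Real.mul_self_sqrt (hN0 j).le]
        change _ ≤ √(w (I t)) / √(N j) * (√(w (I' t)) / √(N j))
        rw [e3]
        exact div_le_div_of_nonneg_right (mul_le_mul e1 e1' (h1 _).1.le (Real.sqrt_nonneg _)) (hN0 j).le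
      calc w (I t) * w (I' t) * ‖inner ℂ (D t (F j k (I t))) (F j k (I' t))‖ / N j
          = (w (I t) * w (I' t) / N j) * ‖inner ℂ (D t (F j k (I t))) (F j k (I' t))‖ := by ring
        _ ≤ (c j (I t) * c j (I' t)) * ‖inner ℂ (D t (F j k (I t))) (F j k (I' t))‖ :=
            mul_le_mul_of_nonneg_right b3 (norm_nonneg _)
        _ = _ := by ring
    have b4 : (1 : ℝ) = ∑ k, ∑ i, ‖x j (k, i)‖ ^ 2 := by
      have := PiLp.norm_sq_eq_of_L2 (fun _ : Fin d × ι => V) (x j)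
      rw [hxo.1 j, Fintype.sum_prod_type] at this
      rw [← this]
      norm_num
    obtain ⟨a, ha⟩ : ∃ a : κ → ℝ, a = fun t => ∑ k, ‖D t (x j (k, I t))‖ * ‖x j (k, I' t)‖ := ⟨_, rfl⟩
    have b5 : (1 : ℝ) ≤ ∑ t, a t := by
      have b51 : ∑ t, a t = ∑ k, ∑ t, ‖D t (x j (k, I t))‖ * ‖x j (k, I' t)‖ := by
        rw [ha, Finset.sum_comm]
      rw [b51, b4]
      exact Finset.sum_le_sum (fun k _ => b1 k)
    have b6 : ∀ t, a t ^ 2 ≤ A j t := by
      intro t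
      rw [ha, hA]
      have c1 : (∑ k, ‖D t (x j (k, I t))‖ * ‖x j (k, I' t)‖) ^ 2 ≤
          (∑ k, ‖D t (x j (k, I t))‖ ^ 2) * ∑ k, ‖x j (k, I' t)‖ ^ 2 := Finset.sum_mul_sq_le_sq_mul_sq _ _ _
      have c2 : ∑ k, ‖x j (k, I' t)‖ ^ 2 ≤ 1 := by
        rw [b4]
        refine Finset.sum_le_sum (fun k _ => ?_)
        exact Finset.single_le_sum (f := fun i => ‖x j (k, i)‖ ^ 2) (fun i _ => sq_nonneg _)
          (Finset.mem_univ (I' t))
      exact c1.trans (mul_le_of_le_one_right (Finset.sum_nonneg (fun k _ => sq_nonneg _)) c2)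
    have b7 := sq_sum_le_card_mul_sum_sq (s := (Finset.univ : Finset κ)) (f := a)
    rw [Finset.card_univ] at b7
    have b8 : (1 : ℝ) ≤ (∑ t, a t) ^ 2 := one_le_pow₀ b5
    exact b8.trans (b7.trans (mul_le_mul_of_nonneg_left (Finset.sum_le_sum (fun t _ => b6 t)) (by positivity)))
  -- the sum over the system
  have hall : (s : ℝ) ≤ (Fintype.card κ : ℝ) * ∑ j, ∑ t, A j t := by
    have d1 : (s : ℝ) = ∑ _j : Fin s, (1 : ℝ) := by simp
    rw [d1, Finset.mul_sum]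
    exact Finset.sum_le_sum (fun j _ => hone j)
  refine hall.trans ?_
  have d2 : ∑ j, ∑ t, A j t ≤ (Fintype.card κ : ℝ) * (d * β) := by
    rw [Finset.sum_comm]
    have d3 : ∀ t ∈ (Finset.univ : Finset κ), ∑ j, A j t ≤ d * β := by
      intro t _
      rw [hA]
      change ∑ j, ∑ k, ‖D t (x j (k, I t))‖ ^ 2 ≤ _
      rw [Finset.sum_comm]
      refine (Finset.sum_le_sum (fun k _ => (OS_key hHS x hxo (D t) (k, I t)).trans (h2 t))).trans
        (le_of_eq ?_)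
      simp
    refine (Finset.sum_le_sum d3).trans (le_of_eq ?_)
    rw [Finset.sum_const, Finset.card_univ, nsmul_eq_mul]
  calc (Fintype.card κ : ℝ) * ∑ j, ∑ t, A j t ≤ (Fintype.card κ : ℝ) * ((Fintype.card κ : ℝ) * (d * β)) :=
        mul_le_mul_of_nonneg_left d2 (by positivity)
    _ = (Fintype.card κ : ℝ) ^ 2 * (d * β) := by ring

end Pool.Agent.GP
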