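import Pool.Agent.Lib.GP.Spec2

set_option autoImplicit false

open IsDedekindDomain Matrix MeasureTheory

noncomputable section

namespace Pool.Agent.GP

private theorem pr_card (p0 X : ℕ) :
    Nat.primeCounting X ≤
      ((Finset.range (X + 1)).filter fun p => p.Prime ∧ p0 < p).card + (p0 + 1) := by
  have h1 : Nat.primeCounting X = ((Finset.range (X + 1)).filter fun p => p.Prime).card := by
    rw [Nat.primeCounting, Nat.primeCounting', Nat.count_eq_card_filter_range]
  rw [h1]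
  have h2 : ((Finset.range (X + 1)).filter fun p => p.Prime) ⊆
      ((Finset.range (X + 1)).filter fun p => p.Prime ∧ p0 < p) ∪ Finset.range (p0 + 1) := by
    intro p hp
    rw [Finset.mem_filter] at hp
    rw [Finset.mem_union, Finset.mem_filter]
    by_cases h : p0 < p
    · exact Or.inl ⟨hp.1, hp.2, h⟩
    · exact Or.inr (Finset.mem_range.2 (by omega))
  refine (Finset.card_le_card h2).trans ((Finset.card_union_le _ _).trans ?_)
  rw [Finset.card_range]

theorem tPr : S_Pr := by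
  intro p0
  refine ⟨(12 * (p0 + 1) + 36) ^ 4, fun X hX => ?_⟩
  set c : ℝ := (p0 : ℝ) + 1 with hc
  have hc0 : 1 ≤ c := by rw [hc]; have : (0 : ℝ) ≤ p0 := Nat.cast_nonneg _; linarith
  have hXr : (12 * c + 36) ^ 4 ≤ (X : ℝ) := by
    have h : (((12 * (p0 + 1) + 36) ^ 4 : ℕ) : ℝ) ≤ (X : ℝ) := by exact_mod_cast hX
    push_cast at h
    exact h
  have hX1 : (1 : ℝ) ≤ X := by
    refine le_trans ?_ hXr
    exact one_le_pow₀ (by linarith)
  have hX0 : (0 : ℝ) ≤ X := by linarith
  set y : ℝ := (X : ℝ) ^ (1 / 4 : ℝ) with hy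
  have hy0 : 0 ≤ y := Real.rpow_nonneg hX0 _
  have hy4 : y ^ 4 = X := by
    rw [hy, ← Real.rpow_natCast, ← Real.rpow_mul hX0]
    norm_num
  have hy2 : (X : ℝ) ^ (1 / 2 : ℝ) = y ^ 2 := by
    rw [hy, ← Real.rpow_natCast, ← Real.rpow_mul hX0]
    norm_num
  have hyc : 12 * c + 36 ≤ y := by
    have h : (12 * c + 36) ^ 4 ≤ y ^ 4 := by rw [hy4]; exact hXr
    exact le_of_pow_le_pow_left₀ (by norm_num) hy0 h
  have hy1 : 1 ≤ y := by linarith
  -- the logarithms
  have hlog : Real.log X ≤ 4 * y := by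
    have h := Real.log_le_rpow_div hX0 (show (0 : ℝ) < 1 / 4 by norm_num)
    rw [← hy] at h
    linarith
  have hlog0 : 0 ≤ Real.log X := Real.log_nonneg hX1
  have hlog1 : Real.log (X + 1) ≤ 4 * y + 1 := by
    have h1 : Real.log (X + 1) ≤ Real.log (2 * X) := Real.log_le_log (by linarith) (by linarith)
    rw [Real.log_mul (by norm_num) (by linarith)] at h1
    have h2 := Real.log_two_lt_d9
    linarith
  have hpsi := Chebyshev.psi_ge X
  have hpi := Chebyshev.psi_le_primeCounting_mul_log X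
  have hl2 : (2 / 3 : ℝ) ≤ Real.log 2 := by
    have := Real.log_two_gt_d9
    linarith
  have h1 : (X : ℝ) * (2 / 3) - (4 * y + 1) ≤ Nat.primeCounting X * Real.log X := by
    have h2 : (X : ℝ) * (2 / 3) ≤ X * Real.log 2 := mul_le_mul_of_nonneg_left hl2 hX0
    linarith
  have h3 : (X : ℝ) * (2 / 3) - (4 * y + 1) ≤ Nat.primeCounting X * (4 * y) :=
    h1.trans (mul_le_mul_of_nonneg_left hlog (Nat.cast_nonneg _))
  have h4 : (y ^ 2 + c) * (4 * y) ≤ (X : ℝ) * (2 / 3) - (4 * y + 1) := by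
    rw [← hy4]
    have e1 : 4 * y ^ 3 ≤ (1 / 3) * y ^ 4 := by
      have : 12 ≤ y := by linarith
      nlinarith [pow_nonneg hy0 3]
    have e2 : (4 * c + 5) * y ≤ (1 / 3) * y ^ 4 := by
      have e3 : 12 * c + 36 ≤ y ^ 3 := hyc.trans (by nlinarith [mul_nonneg hy0 hy0])
      nlinarith
    nlinarith
  have h5 : y ^ 2 + c ≤ Nat.primeCounting X := by
    have h6 : (y ^ 2 + c) * (4 * y) ≤ Nat.primeCounting X * (4 * y) := h4.trans h3
    exact le_of_mul_le_mul_right h6 (by linarith)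
  have h7 : (Nat.primeCounting X : ℝ) ≤
      (((Finset.range (X + 1)).filter fun p => p.Prime ∧ p0 < p).card : ℝ) + ((p0 : ℝ) + 1) := by
    exact_mod_cast pr_card p0 X
  rw [hy2]
  linarith

end Pool.Agent.GP
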