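import Pool.Agent.Lib.GP.Spec4

/-!
# Theorem GPO, module Sch: Schur orthogonality
-/

set_option autoImplicit false

open IsDedekindDomain Matrix MeasureTheory

noncomputable section

namespace Pool.Agent.GP

theorem tSch : S_Sch := by
  intro G V _ _ _ _ _ _ _ _ _ μ _ _ σ hirr u w w'
  obtain ⟨hnt, hsub⟩ := hirr
  -- the integrand
  have hF : ∀ v : V, Continuous fun x : G => inner ℂ (σ.act x w) v • σ.act x w' := fun v =>
    ((σ.cont w).inner continuous_const).smul (σ.cont w')
  have hFi : ∀ v : V, Integrable (fun x : G => inner ℂ (σ.act x w) v • σ.act x w') μ := fun v =>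
    (hF v).integrable_of_hasCompactSupport (HasCompactSupport.of_compactSpace _)
  -- the operator
  let T : V →ₗ[ℂ] V :=
    { toFun := fun v => ∫ x, inner ℂ (σ.act x w) v • σ.act x w' ∂μ
      map_add' := by
        intro v v'
        rw [← integral_add (hFi v) (hFi v')]
        simp only [inner_add_right, add_smul]
      map_smul' := by
        intro c v
        rw [RingHom.id_apply, ← integral_smul]
        simp only [inner_smul_right, mul_smul] }
  have hT : ∀ v, T v = ∫ x, inner ℂ (σ.act x w) v • σ.act x w' ∂μ := fun _ => rfl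
  have hmulact : ∀ (x y : G) (v : V), σ.act (x * y) v = σ.act x (σ.act y v) := by
    intro x y v
    rw [map_mul]
    rfl
  have hTe : ∀ (y : G) (v : V), T (σ.act y v) = σ.act y (T v) := by
    intro y v
    rw [hT, hT]
    have h1 := integral_mul_left_eq_self (μ := μ)
      (fun x : G => inner ℂ (σ.act x w) (σ.act y v) • σ.act x w') y
    rw [← h1]
    have h2 : (fun x : G => inner ℂ (σ.act (y * x) w) (σ.act y v) • σ.act (y * x) w') =
        fun x : G => σ.act y (inner ℂ (σ.act x w) v • σ.act x w') := by
      funext x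
      rw [hmulact, hmulact, LinearIsometryEquiv.inner_map_map, map_smul]
    rw [h2]
    exact (σ.act y).toLinearIsometry.toContinuousLinearMap.integral_comp_comm (hFi v)
  -- Schur
  obtain ⟨c, hc⟩ := Module.End.exists_eigenvalue (K := ℂ) (V := V) T
  have hTc : ∀ v, T v = c • v := by
    have h1 := hsub (Module.End.eigenspace T c) (by
      intro g v hv
      rw [Module.End.mem_eigenspace_iff] at hv ⊢
      rw [hTe, hv, map_smul])
    rcases h1 with h1 | h1
    · exact absurd h1 hc
    · intro v
      have h2 : v ∈ Module.End.eigenspace T c := by rw [h1]; trivial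
      exact Module.End.mem_eigenspace_iff.1 h2
  let b := stdOrthonormalBasis ℂ V
  have hD : (∑ i, inner ℂ (b i) (T (b i)) : ℂ) = c * Module.finrank ℂ V := by
    have h1 : ∀ i, inner ℂ (b i) (T (b i)) = c := by
      intro i
      rw [hTc, inner_smul_right, inner_self_eq_norm_sq_to_K, b.norm_eq_one]
      simp
    rw [Finset.sum_congr rfl fun i _ => h1 i, Finset.sum_const, Finset.card_univ, Fintype.card_fin,
      nsmul_eq_mul, mul_comm]
  have hint : ∀ z v : V, inner ℂ z (T v) = ∫ x, inner ℂ (σ.act x w) v * inner ℂ z (σ.act x w') ∂μ := by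
    intro z v
    rw [hT, ← integral_inner (hFi v)]
    simp only [inner_smul_right]
  have hii : ∀ z v : V, Integrable (fun x : G => inner ℂ (σ.act x w) v * inner ℂ z (σ.act x w')) μ := by
    intro z v
    have h1 := (hFi v).const_inner z (𝕜 := ℂ)
    simp only [inner_smul_right] at h1
    exact h1
  have htr : (∑ i, inner ℂ (b i) (T (b i)) : ℂ) = inner ℂ w w' := by
    rw [Finset.sum_congr rfl fun i _ => hint (b i) (b i), ← integral_finsetSum _ fun i _ => hii (b i) (b i)]
    have h1 : (fun x : G => ∑ i, inner ℂ (σ.act x w) (b i) * inner ℂ (b i) (σ.act x w')) =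
        fun _ => inner ℂ w w' := by
      funext x
      rw [OrthonormalBasis.sum_inner_mul_inner, LinearIsometryEquiv.inner_map_map]
    rw [h1, integral_const]
    simp
  have hD0 : (Module.finrank ℂ V : ℂ) ≠ 0 := by
    have : 0 < Module.finrank ℂ V := Module.finrank_pos
    exact_mod_cast this.ne'
  have hcv : c = (Module.finrank ℂ V : ℂ)⁻¹ * inner ℂ w w' := by
    rw [← htr, hD, mul_comm c, inv_mul_cancel_left₀ hD0]
  rw [← hT, hTc, hcv]

end Pool.Agent.GP
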