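import Pool.Agent.Lib.GP.Spec2

/-!
# Theorem GP, second part: auxiliary vectors modulo `p` (Vec)
-/

set_option autoImplicit false

open IsDedekindDomain Matrix MeasureTheory

noncomputable section

namespace Pool.Agent.GP

/-- The vectors over the prime field. -/
private theorem Vec_fld (N p : ℕ) [Fact p.Prime] (hp2 : p ≠ 2) (hN : 3 ≤ N)
    (A : Matrix (Fin N) (Fin N) (ZMod p)) (hA : A.IsSymm) (hinj : ∀ x, A *ᵥ x = 0 → x = 0)
    (e : Fin N → ZMod p) (he : e ⬝ᵥ (A *ᵥ e) ≠ 0) :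
    ∃ f1 f2 : Fin N → ZMod p, e ⬝ᵥ (A *ᵥ f1) = 0 ∧ f1 ⬝ᵥ (A *ᵥ f1) ≠ 0 ∧ e ⬝ᵥ (A *ᵥ f2) = 0 ∧
      f1 ⬝ᵥ (A *ᵥ f2) = 0 ∧ f2 ⬝ᵥ (A *ᵥ f2) ≠ 0 := by
  let B : LinearMap.BilinForm (ZMod p) (Fin N → ZMod p) := Matrix.toBilin' A
  have hB : ∀ x y, B x y = x ⬝ᵥ (A *ᵥ y) := fun x y => Matrix.toBilin'_apply' A x y
  have hcomm : ∀ x y, B x y = B y x := by
    intro x y
    rw [hB, hB, Matrix.dotProduct_mulVec, ← Matrix.mulVec_transpose, hA.eq, dotProduct_comm]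
  have hsymm : B.IsSymm := ⟨fun x y => hcomm x y⟩
  have hzero : ∀ x, (∀ y, B y x = 0) → x = 0 := by
    intro x hx
    refine hinj x ?_
    funext i
    have h := hx (Pi.single i 1)
    rw [hB, single_one_dotProduct] at h
    exact h
  have hnd : B.Nondegenerate :=
    ⟨fun x hx => hzero x fun y => by rw [hcomm]; exact hx y, fun x hx => hzero x hx⟩
  have he' : B e e ≠ 0 := by rw [hB]; exact he
  let W : Submodule (ZMod p) (Fin N → ZMod p) := B.orthogonal (Submodule.span (ZMod p) {e})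
  have hWn : (B.restrict W).Nondegenerate :=
    LinearMap.BilinForm.restrict_nondegenerate_orthogonal_spanSingleton B hnd
      (fun x y h => by rw [hcomm]; exact h) he'
  have hdim : Module.finrank (ZMod p) W = N - 1 := by
    have h := Submodule.finrank_add_eq_of_isCompl
      (LinearMap.BilinForm.isCompl_span_singleton_orthogonal (B := B) he')
    have hene : e ≠ 0 := by
      rintro rfl
      exact he' (by simp)
    rw [finrank_span_singleton hene, Module.finrank_fin_fun] at h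
    change Module.finrank (ZMod p) (B.orthogonal (Submodule.span (ZMod p) {e})) = N - 1
    omega
  have h2 : (2 : ZMod p) ≠ 0 := by
    intro h
    have h3 : ((2 : ℕ) : ZMod p) = 0 := by exact_mod_cast h
    rw [ZMod.natCast_eq_zero_iff] at h3
    have := (Nat.prime_dvd_prime_iff_eq (Fact.out : p.Prime) Nat.prime_two).1 h3
    exact hp2 this
  have hinv : Invertible (2 : ZMod p) := invertibleOfNonzero h2
  obtain ⟨v, hv⟩ := LinearMap.BilinForm.exists_orthogonal_basis (B := B.restrict W)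
    ⟨fun x y => hcomm x y⟩
  have hne : ∀ i, B (v i : Fin N → ZMod p) (v i) ≠ 0 := fun i =>
    hv.not_isOrtho_basis_self_of_separatingLeft hWn.1 i
  have hlt0 : 0 < Module.finrank (ZMod p) W := by rw [hdim]; omega
  have hlt1 : 1 < Module.finrank (ZMod p) W := by rw [hdim]; omega
  have hW : ∀ w : W, B e w = 0 := fun w =>
    w.2 e (Submodule.mem_span_singleton_self e)
  have h01 : B (v ⟨0, hlt0⟩ : Fin N → ZMod p) (v ⟨1, hlt1⟩) = 0 := by
    have h : (⟨0, hlt0⟩ : Fin (Module.finrank (ZMod p) W)) ≠ ⟨1, hlt1⟩ := by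
      intro h
      have := congrArg Fin.val h
      simp at this
    exact hv h
  refine ⟨v ⟨0, hlt0⟩, v ⟨1, hlt1⟩, ?_, ?_, ?_, ?_, ?_⟩
  · rw [← hB]; exact hW _
  · rw [← hB]; exact hne _
  · rw [← hB]; exact hW _
  · rw [← hB]; exact h01
  · rw [← hB]; exact hne _

/-- A sum of two squares with coefficients. -/
private theorem Vec_two (p : ℕ) [Fact p.Prime] (hp2 : p ≠ 2) (a b c : ZMod p) (ha : a ≠ 0)
    (hb : b ≠ 0) : ∃ x y : ZMod p, x ^ 2 * a + y ^ 2 * b + c = 0 := by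
  have h1 : (Polynomial.C a * Polynomial.X ^ 2 : Polynomial (ZMod p)).degree = 2 := by
    rw [Polynomial.degree_C_mul_X_pow 2 ha]
    rfl
  have h2 : (Polynomial.C b * Polynomial.X ^ 2 + Polynomial.C c : Polynomial (ZMod p)).degree = 2 := by
    rw [Polynomial.degree_add_C, Polynomial.degree_C_mul_X_pow 2 hb]
    · rfl
    · rw [Polynomial.degree_C_mul_X_pow 2 hb]
      norm_num
  obtain ⟨x, y, h⟩ := FiniteField.exists_root_sum_quadratic h1 h2 (by
    rw [ZMod.card]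
    exact ((Fact.out : p.Prime).eq_two_or_odd).resolve_left hp2)
  refine ⟨x, y, ?_⟩
  simp only [Polynomial.eval_mul, Polynomial.eval_C, Polynomial.eval_pow, Polynomial.eval_X,
    Polynomial.eval_add] at h
  rw [← h]
  ring

/-- The vectors over the integers. -/
private theorem Vec_int (N p : ℕ) [Fact p.Prime] (hp2 : p ≠ 2) (hN : 3 ≤ N)
    (A A' : Matrix (Fin N) (Fin N) ℤ) (n : ℤ) (hn : ¬ (p : ℤ) ∣ n) (hA : A.IsSymm)
    (hAA : A' * A = n • (1 : Matrix (Fin N) (Fin N) ℤ)) (e : Fin N → ℤ)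
    (he : ¬ (p : ℤ) ∣ e ⬝ᵥ (A *ᵥ e)) :
    ∃ (u m : Fin N → ℤ) (a : ℤ), u ⬝ᵥ (A *ᵥ u) = p * a ∧ ¬ (p : ℤ) ∣ a ∧
      ¬ (p : ℤ) ∣ e ⬝ᵥ (A *ᵥ u) ∧ e ⬝ᵥ (A *ᵥ m) = 0 ∧ ¬ (p : ℤ) ∣ m ⬝ᵥ (A *ᵥ m) := by
  have hpr : Prime (p : ℤ) := Nat.prime_iff_prime_int.1 Fact.out
  -- the form over the integers
  have hcomm : ∀ x y : Fin N → ℤ, x ⬝ᵥ (A *ᵥ y) = y ⬝ᵥ (A *ᵥ x) := by
    intro x y
    rw [Matrix.dotProduct_mulVec, ← Matrix.mulVec_transpose, hA.eq, dotProduct_comm]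
  -- reduction
  let φ : ℤ →+* ZMod p := Int.castRingHom (ZMod p)
  let Ab : Matrix (Fin N) (Fin N) (ZMod p) := A.map φ
  have hred : ∀ x y : Fin N → ℤ,
      ((x ⬝ᵥ (A *ᵥ y) : ℤ) : ZMod p) = (fun i => φ (x i)) ⬝ᵥ (Ab *ᵥ fun i => φ (y i)) := by
    intro x y
    simp only [dotProduct, Matrix.mulVec, Ab, Matrix.map_apply]
    push_cast
    rfl
  have hdvd : ∀ z : ℤ, (z : ZMod p) = 0 ↔ (p : ℤ) ∣ z := fun z =>
    ZMod.intCast_zmod_eq_zero_iff_dvd z p
  have hAb : Ab.IsSymm := by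
    ext i j
    change φ (A j i) = φ (A i j)
    rw [hA.apply]
  have hinj : ∀ x : Fin N → ZMod p, Ab *ᵥ x = 0 → x = 0 := by
    intro x hx
    have h1 : (A'.map φ) * Ab = φ n • (1 : Matrix (Fin N) (Fin N) (ZMod p)) := by
      change A'.map φ * A.map φ = _
      rw [← Matrix.map_mul, hAA]
      ext i j
      rw [Matrix.map_apply, Matrix.smul_apply, Matrix.smul_apply, Matrix.one_apply,
        Matrix.one_apply]
      split_ifs <;> simp
    have h2 : φ n • x = 0 := by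
      have h3 : ((A'.map φ) * Ab) *ᵥ x = 0 := by
        rw [← Matrix.mulVec_mulVec, hx, Matrix.mulVec_zero]
      rw [h1, Matrix.smul_mulVec, Matrix.one_mulVec] at h3
      exact h3
    have h3 : φ n ≠ 0 := fun h => hn ((hdvd n).1 h)
    exact (smul_eq_zero.1 h2).resolve_left h3
  have he' : (fun i => φ (e i)) ⬝ᵥ (Ab *ᵥ fun i => φ (e i)) ≠ 0 := by
    rw [← hred]
    exact fun h => he ((hdvd _).1 h)
  obtain ⟨g1, g2, k1, k2, k3, k4, k5⟩ := Vec_fld N p hp2 hN Ab hAb hinj _ he'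
  choose f1 hf1 using fun i => ZMod.intCast_surjective (g1 i)
  choose f2 hf2 using fun i => ZMod.intCast_surjective (g2 i)
  have ef1 : (fun i => φ (f1 i)) = g1 := funext hf1
  have ef2 : (fun i => φ (f2 i)) = g2 := funext hf2
  obtain ⟨x, y, hxy⟩ := Vec_two p hp2 _ _ ((fun i => φ (e i)) ⬝ᵥ (Ab *ᵥ fun i => φ (e i))) k2 k5
  obtain ⟨s, hs⟩ := ZMod.intCast_surjective x
  obtain ⟨t, ht⟩ := ZMod.intCast_surjective y
  -- the values
  set qe : ℤ := e ⬝ᵥ (A *ᵥ e) with hqe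
  set q1 : ℤ := f1 ⬝ᵥ (A *ᵥ f1) with hq1
  set q2 : ℤ := f2 ⬝ᵥ (A *ᵥ f2) with hq2
  set b1 : ℤ := e ⬝ᵥ (A *ᵥ f1) with hb1
  set b2 : ℤ := e ⬝ᵥ (A *ᵥ f2) with hb2
  set b3 : ℤ := f1 ⬝ᵥ (A *ᵥ f2) with hb3
  have c1 : ((b1 : ℤ) : ZMod p) = 0 := by rw [hb1, hred, ef1]; exact k1
  have c2 : ((b2 : ℤ) : ZMod p) = 0 := by rw [hb2, hred, ef2]; exact k3
  have c3 : ((b3 : ℤ) : ZMod p) = 0 := by rw [hb3, hred, ef1, ef2]; exact k4
  have d1 : ((q1 : ℤ) : ZMod p) ≠ 0 := by rw [hq1, hred, ef1]; exact k2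
  have d0 : ((qe : ℤ) : ZMod p) ≠ 0 := by rw [hqe, hred]; exact he'
  have hxy' : (s : ZMod p) ^ 2 * q1 + (t : ZMod p) ^ 2 * q2 + qe = 0 := by
    rw [hq1, hq2, hqe, hred, hred, hred, ef1, ef2, hs, ht]
    exact hxy
  -- expansions
  have ex1 : ∀ r : ℤ, (r • e + s • f1 + t • f2) ⬝ᵥ (A *ᵥ (r • e + s • f1 + t • f2)) =
      r ^ 2 * qe + s ^ 2 * q1 + t ^ 2 * q2 + 2 * r * s * b1 + 2 * r * t * b2 + 2 * s * t * b3 := by
    intro r
    simp only [Matrix.mulVec_add, Matrix.mulVec_smul, dotProduct_add, add_dotProduct,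
      dotProduct_smul, smul_dotProduct, smul_eq_mul]
    rw [hcomm f1 e, hcomm f2 e, hcomm f2 f1]
    ring
  have ex2 : ∀ r : ℤ, e ⬝ᵥ (A *ᵥ (r • e + s • f1 + t • f2)) = r * qe + s * b1 + t * b2 := by
    intro r
    simp only [Matrix.mulVec_add, Matrix.mulVec_smul, dotProduct_add, dotProduct_smul,
      smul_eq_mul]
    rfl
  -- the vector `u`
  have hu0 : (p : ℤ) ∣ 1 ^ 2 * qe + s ^ 2 * q1 + t ^ 2 * q2 + 2 * 1 * s * b1 + 2 * 1 * t * b2 +
      2 * s * t * b3 := by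
    rw [← hdvd]
    push_cast
    rw [c1, c2, c3]
    linear_combination hxy'
  obtain ⟨a0, ha0⟩ := hu0
  have hub : ∀ r : ℤ, (r : ZMod p) = 1 → ¬ (p : ℤ) ∣ r * qe + s * b1 + t * b2 := by
    intro r hr h
    rw [← hdvd] at h
    push_cast at h
    rw [c1, c2, hr] at h
    exact d0 (by linear_combination h)
  have hp1 : ((1 + (p : ℤ) : ℤ) : ZMod p) = 1 := by
    push_cast
    simp
  have hmain : ∃ r a : ℤ, (r : ZMod p) = 1 ∧ r ^ 2 * qe + s ^ 2 * q1 + t ^ 2 * q2 +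
      2 * r * s * b1 + 2 * r * t * b2 + 2 * s * t * b3 = p * a ∧ ¬ (p : ℤ) ∣ a := by
    by_cases h : (p : ℤ) ∣ a0
    · refine ⟨1 + p, a0 + (2 * qe + p * qe + 2 * s * b1 + 2 * t * b2), hp1, ?_, ?_⟩
      · linear_combination ha0
      · intro h'
        have h3 : (p : ℤ) ∣ 2 * qe + p * qe + 2 * s * b1 + 2 * t * b2 := (dvd_add_right h).1 h'
        rw [← hdvd] at h3
        push_cast at h3
        rw [c1, c2] at h3
        have h4 : (2 : ZMod p) * qe = 0 := by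
          have h5 : ((p : ℕ) : ZMod p) = 0 := ZMod.natCast_self p
          rw [h5] at h3
          linear_combination h3
        have h2 : (2 : ZMod p) ≠ 0 := by
          intro h
          have h3 : ((2 : ℕ) : ZMod p) = 0 := by exact_mod_cast h
          rw [ZMod.natCast_eq_zero_iff] at h3
          have := (Nat.prime_dvd_prime_iff_eq (Fact.out : p.Prime) Nat.prime_two).1 h3
          exact hp2 this
        exact (mul_ne_zero h2 d0) h4
    · exact ⟨1, a0, by simp, ha0, h⟩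
  obtain ⟨r, a, hr, ha, hna⟩ := hmain
  refine ⟨r • e + s • f1 + t • f2, qe • f1 - b1 • e, a, ?_, hna, ?_, ?_, ?_⟩
  · rw [ex1, ha]
  · rw [ex2]
    exact hub r hr
  · simp only [Matrix.mulVec_sub, Matrix.mulVec_smul, dotProduct_sub, dotProduct_smul, smul_eq_mul]
    rw [← hqe, ← hb1]
    ring
  · have hm : (qe • f1 - b1 • e) ⬝ᵥ (A *ᵥ (qe • f1 - b1 • e)) = qe ^ 2 * q1 - b1 ^ 2 * qe := by
      simp only [Matrix.mulVec_sub, Matrix.mulVec_smul, dotProduct_sub, sub_dotProduct,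
        dotProduct_smul, smul_dotProduct, smul_eq_mul]
      rw [hcomm f1 e, ← hqe, ← hb1, ← hq1]
      ring
    rw [hm]
    intro h
    rw [← hdvd] at h
    push_cast at h
    rw [c1] at h
    have h1 : (qe : ZMod p) ^ 2 * q1 = 0 := by linear_combination h
    exact (mul_ne_zero (pow_ne_zero 2 d0) d1) h1

/-- Clearing denominators. -/
private theorem Vec_clear {ι : Type} [Fintype ι] (p : ℕ) (hp : p.Prime) (x : ι → ℚ)
    (hx : ∀ i, ¬ p ∣ (x i).den) : ∃ (c : ℕ) (z : ι → ℤ), 0 < c ∧ ¬ p ∣ c ∧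
      ∀ i, (z i : ℚ) = c * x i := by
  classical
  refine ⟨∏ i, (x i).den, fun i => (∏ j ∈ Finset.univ.erase i, (x j).den : ℕ) * (x i).num,
    Finset.prod_pos fun i _ => (x i).den_pos, ?_, ?_⟩
  · intro h
    obtain ⟨i, -, hi⟩ := (Prime.dvd_finsetProd_iff hp.prime _).1 h
    exact hx i hi
  · intro i
    have h1 : (∏ j, (x j).den : ℕ) = (x i).den * ∏ j ∈ Finset.univ.erase i, (x j).den :=
      (Finset.mul_prod_erase _ _ (Finset.mem_univ i)).symm
    rw [h1]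
    push_cast
    have h2 : ((x i).den : ℚ) * x i = (x i).num := Rat.den_mul_eq_num (x i)
    linear_combination -(∏ j ∈ Finset.univ.erase i, ((x j).den : ℚ)) * h2

/-- The valuation of a fraction with numerator and denominator prime to `p`. -/
private theorem Vec_val (p : ℕ) [Fact p.Prime] (z : ℤ) (c : ℕ) (hz : ¬ (p : ℤ) ∣ z)
    (hc : ¬ p ∣ c) : padicValRat p ((z : ℚ) / c) = 0 ∧ (z : ℚ) / c ≠ 0 := by
  have hz0 : z ≠ 0 := fun h => hz (h ▸ dvd_zero _)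
  have hc0 : c ≠ 0 := fun h => hc (h ▸ dvd_zero _)
  have hz0' : (z : ℚ) ≠ 0 := by exact_mod_cast hz0
  have hc0' : (c : ℚ) ≠ 0 := by exact_mod_cast hc0
  refine ⟨?_, div_ne_zero hz0' hc0'⟩
  rw [padicValRat.div hz0' hc0', padicValRat.of_int, padicValRat.of_nat,
    padicValInt.eq_zero_of_not_dvd hz, padicValNat.eq_zero_of_not_dvd hc]
  simp

/-- **Vec.** -/
theorem tVec : S_Vec := by
  intro N Q e p hp hp2 hN hQs hQd hQ hQi he hqe
  have : Fact p.Prime := ⟨hp⟩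
  obtain ⟨c, A0, hc0, hc, hA0⟩ := Vec_clear p hp (fun ij : Fin N × Fin N => Q ij.1 ij.2)
    fun ij => hQ ij.1 ij.2
  obtain ⟨c', A1, hc0', hc', hA1⟩ := Vec_clear p hp (fun ij : Fin N × Fin N => Q⁻¹ ij.1 ij.2)
    fun ij => hQi ij.1 ij.2
  obtain ⟨k, e0, hk0, hk, he0⟩ := Vec_clear p hp e he
  let A : Matrix (Fin N) (Fin N) ℤ := fun i j => A0 (i, j)
  let A' : Matrix (Fin N) (Fin N) ℤ := fun i j => A1 (i, j)
  have hAQ : A.map (Int.cast : ℤ → ℚ) = (c : ℚ) • Q := by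
    ext i j
    exact hA0 (i, j)
  have hAQ' : A'.map (Int.cast : ℤ → ℚ) = (c' : ℚ) • Q⁻¹ := by
    ext i j
    exact hA1 (i, j)
  have hinjm : Function.Injective fun M : Matrix (Fin N) (Fin N) ℤ => M.map (Int.cast : ℤ → ℚ) :=
    Matrix.map_injective Int.cast_injective
  have hmapmul : ∀ M M' : Matrix (Fin N) (Fin N) ℤ, (M * M').map (Int.cast : ℤ → ℚ) =
      M.map (Int.cast : ℤ → ℚ) * M'.map (Int.cast : ℤ → ℚ) := fun M M' =>
    Matrix.map_mul (f := Int.castRingHom ℚ)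
  have hAs : A.IsSymm := by
    ext i j
    have h : (A j i : ℚ) = A i j := by
      have h1 := hA0 (j, i)
      have h2 := hA0 (i, j)
      change (A0 (j, i) : ℚ) = A0 (i, j)
      rw [h1, h2]
      change (c : ℚ) * Q j i = c * Q i j
      rw [hQs.apply]
    exact_mod_cast h
  have hAA : A' * A = ((c' * c : ℕ) : ℤ) • (1 : Matrix (Fin N) (Fin N) ℤ) := by
    apply hinjm
    change (A' * A).map (Int.cast : ℤ → ℚ) =
      (((c' * c : ℕ) : ℤ) • (1 : Matrix (Fin N) (Fin N) ℤ)).map (Int.cast : ℤ → ℚ)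
    rw [hmapmul, hAQ, hAQ', Matrix.smul_mul, Matrix.mul_smul,
      Matrix.nonsing_inv_mul _ (isUnit_iff_ne_zero.2 hQd)]
    ext i j
    rw [Matrix.map_apply, Matrix.smul_apply, Matrix.smul_apply, Matrix.smul_apply,
      Matrix.one_apply, Matrix.one_apply]
    split_ifs <;> simp
  -- the form
  have hform : ∀ x y : Fin N → ℤ, ((x ⬝ᵥ (A *ᵥ y) : ℤ) : ℚ) =
      c * ((fun i => (x i : ℚ)) ⬝ᵥ (Q *ᵥ fun i => (y i : ℚ))) := by
    intro x y
    have h1 : ((x ⬝ᵥ (A *ᵥ y) : ℤ) : ℚ) = (fun i => (x i : ℚ)) ⬝ᵥ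
        ((A.map (Int.cast : ℤ → ℚ)) *ᵥ fun i => (y i : ℚ)) := by
      simp only [dotProduct, Matrix.mulVec, Matrix.map_apply]
      push_cast
      rfl
    rw [h1, hAQ, Matrix.smul_mulVec, dotProduct_smul, smul_eq_mul]
  have hee : (fun i => (e0 i : ℚ)) = (k : ℚ) • e := by
    funext i
    exact he0 i
  have hcq : (c : ℚ) ≠ 0 := by exact_mod_cast hc0.ne'
  have hkq : (k : ℚ) ≠ 0 := by exact_mod_cast hk0.ne'
  -- `q(e)`
  have hqe0 : ¬ (p : ℤ) ∣ e0 ⬝ᵥ (A *ᵥ e0) := by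
    intro h
    have h1 : ((e0 ⬝ᵥ (A *ᵥ e0) : ℤ) : ℚ) = ((c * k * k : ℕ) : ℚ) * (e ⬝ᵥ (Q *ᵥ e)) := by
      rw [hform, hee, Matrix.mulVec_smul, dotProduct_smul, smul_dotProduct, smul_eq_mul,
        smul_eq_mul]
      push_cast
      ring
    set q := e ⬝ᵥ (Q *ᵥ e) with hq
    have h2 : (e0 ⬝ᵥ (A *ᵥ e0)) * (q.den : ℤ) = ((c * k * k : ℕ) : ℤ) * q.num := by
      have h3 : (q.den : ℚ) * q = q.num := Rat.den_mul_eq_num q
      have h4 : (((e0 ⬝ᵥ (A *ᵥ e0)) * (q.den : ℤ) : ℤ) : ℚ) =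
          ((((c * k * k : ℕ) : ℤ) * q.num : ℤ) : ℚ) := by
        push_cast
        rw [h1]
        push_cast
        linear_combination (c * k * k : ℚ) * h3
      exact_mod_cast h4
    have h3 : (p : ℤ) ∣ ((c * k * k : ℕ) : ℤ) * q.num := by
      rw [← h2]
      exact dvd_mul_of_dvd_left h _
    rcases (Nat.prime_iff_prime_int.1 hp).dvd_or_dvd h3 with h4 | h4
    · have h5 : p ∣ c * k * k := by exact_mod_cast h4
      rcases hp.dvd_mul.1 h5 with h6 | h6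
      · rcases hp.dvd_mul.1 h6 with h7 | h7
        · exact hc h7
        · exact hk h7
      · exact hk h6
    · exact hqe h4
  have hcc : ¬ (p : ℤ) ∣ ((c' * c : ℕ) : ℤ) := by
    intro h
    have h5 : p ∣ c' * c := by exact_mod_cast h
    rcases hp.dvd_mul.1 h5 with h6 | h6
    · exact hc' h6
    · exact hc h6
  obtain ⟨u, m, a, hu, ha, heu, hem, hm⟩ :=
    Vec_int N p hp2 hN A A' _ hcc hAs hAA e0 hqe0
  have hden : ∀ z : ℤ, ¬ p ∣ ((z : ℤ) : ℚ).den := by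
    intro z h
    rw [Rat.den_intCast] at h
    exact hp.one_lt.ne' (Nat.dvd_one.1 h)
  have hpq : (p : ℚ) ≠ 0 := by exact_mod_cast hp.ne_zero
  -- the values
  have vu : (fun i => (u i : ℚ)) ⬝ᵥ (Q *ᵥ fun i => (u i : ℚ)) = p * ((a : ℚ) / c) := by
    have h := hform u u
    rw [hu] at h
    push_cast at h
    field_simp
    linear_combination -h
  have veu : e ⬝ᵥ (Q *ᵥ fun i => (u i : ℚ)) =
      ((e0 ⬝ᵥ (A *ᵥ u) : ℤ) : ℚ) / ((c * k : ℕ) : ℚ) := by
    have h := hform e0 u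
    rw [hee, smul_dotProduct, smul_eq_mul] at h
    rw [h]
    push_cast
    field_simp
  have vem : e ⬝ᵥ (Q *ᵥ fun i => (m i : ℚ)) = 0 := by
    have h := hform e0 m
    rw [hem, hee, smul_dotProduct, smul_eq_mul, Int.cast_zero] at h
    have h2 := mul_eq_zero.1 h.symm
    rcases h2 with h2 | h2
    · exact absurd h2 hcq
    · exact (mul_eq_zero.1 h2).resolve_left hkq
  have vm : (fun i => (m i : ℚ)) ⬝ᵥ (Q *ᵥ fun i => (m i : ℚ)) =
      ((m ⬝ᵥ (A *ᵥ m) : ℤ) : ℚ) / c := by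
    rw [hform]
    field_simp
  have hck : ¬ p ∣ c * k := by
    intro h
    rcases hp.dvd_mul.1 h with h6 | h6
    · exact hc h6
    · exact hk h6
  obtain ⟨w1, w2⟩ := Vec_val p a c ha hc
  obtain ⟨w3, w4⟩ := Vec_val p _ (c * k) heu hck
  obtain ⟨w5, w6⟩ := Vec_val p _ c hm hc
  refine ⟨fun i => (u i : ℚ), fun i => (m i : ℚ), fun i => hden _, fun i => hden _, ?_, ?_, ?_,
    ?_, vem, ?_, ?_⟩
  · rw [vu, padicValRat.mul hpq w2, w1, add_zero, padicValRat.self hp.one_lt]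
  · rw [veu]; exact w3
  · rw [veu]; exact w4
  · rw [vu]; exact mul_ne_zero hpq w2
  · rw [vm]; exact w6
  · rw [vm]; exact w5

end Pool.Agent.GP
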