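import Pool.Agent.Lib.GP.Base
import Pool.Agent.Lib.GP.Bri
import Pool.Agent.Lib.GP.Stm3
import Pool.Agent.Lib.GP.Asm3
import Pool.Agent.Lib.GP.Hk1
import Pool.Agent.Lib.GP.HkS
import Pool.Agent.Lib.GP.Eig
import Pool.Agent.Lib.GP.Loc2
import Pool.Agent.Lib.GP.GRb
import Pool.Agent.Lib.GP.Gdx
import Pool.Agent.Lib.GP.Cmp
import Pool.Agent.Lib.GP.Mn
import Pool.Agent.Lib.GP.NbI
import Pool.Agent.Lib.GP.NbK
import Pool.Agent.Lib.GP.NbF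
import Pool.Agent.Lib.GP.Vec
import Pool.Agent.Lib.GP.Rf
import Pool.Agent.Lib.GP.NbE
import Pool.Agent.Lib.GP.Neg
import Pool.Agent.Lib.GP.NoN
import Pool.Agent.Lib.GP.NbH
import Pool.Agent.Lib.GP.DpI
import Pool.Agent.Lib.GP.Cnt
import Pool.Agent.Lib.GP.Pr
import Pool.Agent.Lib.GP.Jw2
import Pool.Agent.Lib.GP.Sch
import Pool.Agent.Lib.GP.BF3
import Pool.Agent.Lib.GP.GS
import Pool.Agent.Lib.GP.LT3
import Pool.Agent.Lib.GP.OS
import Pool.Agent.Lib.GP.Num2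

/-!
# The theorem GPO, and its light form (author helper25)
-/

set_option autoImplicit false

open IsDedekindDomain Matrix MeasureTheory

noncomputable section

namespace Pool.Agent.GP

/-- **GPO.** -/
theorem gpO : C_GPO := by
  have hHS := tHS
  have hPhb := tPhb hHS
  have hAD1 : C_AD1 := tAD1
  have hAD2 : C_AD2 := tAD2
  have hAD3 : C_AD3 := tAD3 hAD1
  have hAD5 : C_AD5 := tAD5 hAD1
  have hAD6 : C_AD6 := tAD6
  have hGR1 : C_GR1 := tGR1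
  have hGR3 : C_GR3 := tGR3 hAD2 hAD5 hGR1
  have hRed : C_Red := tRed tPrm
  have hHer : C_Her := tHer hRed
  have hCN1 : C_CN1 := tCN1 hRed hHer
  have hCN2 : C_CN2 := tCN2 hAD1 hAD2 hAD3
  have hCN3 : C_CN3 := tCN3 hAD2 hCN1 hCN2
  have hCN4 : C_CN4 := tCN4 hAD2 hAD3 hAD6 tFinV hCN3
  have hMn : C_Mn := tMn
  have hCmp : C_Cmp := tCmp
  have hVec : C_Vec := tVec
  have hRf : C_Rf := tRf
  have hNbI : C_NbI := tNbI hMn
  have hNeg : C_Neg := tNeg hVec hRf hCmp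
  exact tGPO tHk1 tHkS tEig (tBF3 tJw2 tSch) (tLT3 tGS) (tOS hHS)
    (tLoc2 hPhb (tAv hHS) (tMean hHS) tPsi (tLow tLo1) tUp1 tCov tCir) tGRb (tGdx hAD5 hAD6) hNbI
    (tNbK hMn hCmp) (tNbF hAD2 hAD3) (tNbE hVec hRf hCmp hMn) (tNoN hNeg hCmp) (tNbH hMn hCmp hNbI) tDpI
    (tCnt hAD1 hAD2 hAD5 hGR1) tPr tNum2 hGR1 hGR3 hCN4

end Pool.Agent.GP
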