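import Pool.Agent.Lib.GP.Bri
import Pool.Agent.Lib.GP.Stm4
import Pool.Agent.Lib.GP.FinL
import Pool.Agent.Lib.GP.Asm4

/-!
# The light form of MOM (author helper25)
-/

set_option autoImplicit false

open IsDedekindDomain Matrix MeasureTheory

noncomputable section

namespace Pool.Agent.GP

private theorem pair_inv4 {G H : Type} [Group G] [TopologicalSpace G] [Group H] [TopologicalSpace H] {n m : ℕ}
    (ρ : MRep G n) (σ : MRep H m) (i : H →* G) (L : Matrix (Fin n) (Fin m) ℂ)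
    (hL : ∀ x, (ρ.hom (i x))ᵀ * L * σ.hom x = L) (x : H) (v : Fin n → ℂ) (w : Fin m → ℂ) :
    (ρ.hom (i x) *ᵥ v) ⬝ᵥ (L *ᵥ (σ.hom x *ᵥ w)) = v ⬝ᵥ (L *ᵥ w) := by
  have h1 : (ρ.hom (i x) *ᵥ v) = v ᵥ* (ρ.hom (i x))ᵀ := (vecMul_transpose _ _).symm
  rw [h1, ← dotProduct_mulVec, mulVec_mulVec, mulVec_mulVec, hL x]

/-- A bilinear form on `ℂ^n × ℂ^m` is given by a matrix. -/
private theorem bil_mat {n m : ℕ} (l : EuclideanSpace ℂ (Fin n) →ₗ[ℂ] EuclideanSpace ℂ (Fin m) →ₗ[ℂ] ℂ) :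
    ∃ L : Matrix (Fin n) (Fin m) ℂ, ∀ v w, l v w = v.ofLp ⬝ᵥ (L *ᵥ w.ofLp) := by
  classical
  refine ⟨fun i j => l (EuclideanSpace.single i 1) (EuclideanSpace.single j 1), fun v w => ?_⟩
  have hv : v = ∑ i, v.ofLp i • EuclideanSpace.single i (1 : ℂ) := by
    ext k
    simp [Pi.single_apply]
  have hw : w = ∑ i, w.ofLp i • EuclideanSpace.single i (1 : ℂ) := by
    ext k
    simp [Pi.single_apply]
  conv_lhs => rw [hv, hw]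
  simp only [map_sum, map_smul, LinearMap.sum_apply, LinearMap.smul_apply, smul_eq_mul, dotProduct, mulVec]
  simp only [Finset.mul_sum]
  rw [Finset.sum_comm]
  exact Finset.sum_congr rfl fun i _ => Finset.sum_congr rfl fun j _ => by ring

/-- The matrix of an invariant form is invariant. -/
private theorem mat_inv {n m : ℕ} (A : Matrix (Fin n) (Fin n) ℂ) (B : Matrix (Fin m) (Fin m) ℂ) (L : Matrix (Fin n) (Fin m) ℂ)
    (h : ∀ (v : Fin n → ℂ) (w : Fin m → ℂ), (A *ᵥ v) ⬝ᵥ (L *ᵥ (B *ᵥ w)) = v ⬝ᵥ (L *ᵥ w)) : Aᵀ * L * B = L := by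
  classical
  ext i j
  have h1 := h (Pi.single i 1) (Pi.single j 1)
  have h2 : (A *ᵥ Pi.single i 1) = Pi.single i 1 ᵥ* Aᵀ := (vecMul_transpose _ _).symm
  rw [h2, ← dotProduct_mulVec, mulVec_mulVec, mulVec_mulVec, mulVec_single_one, mulVec_single_one, single_one_dotProduct,
    single_one_dotProduct] at h1
  exact h1

theorem ip_eq {N : ℕ} {Q : Matrix (Fin N) (Fin N) ℚ} (K : Subgroup (SO Q AQ)) {e : Fin N → ℚ}
    (φ φ' : HH Q e ℝ → HH Q e AQ → ℂ) : Ip (qH Q e AQ) (lH K e) φ φ' = Pet Q e K φ φ' := by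
  unfold Ip Pet
  refine finsum_congr fun c => ?_
  rw [od_eq]
  rfl

theorem ty_eq {N : ℕ} {Q : Matrix (Fin N) (Fin N) ℚ} (K : Subgroup (SO Q AQ)) (Y : Set (SO Q AQ))
    (φ : SO Q ℝ → SO Q AQ → ℂ) : HO K Y φ = TY Q K Y φ := rfl

theorem tyh_eq {N : ℕ} {Q : Matrix (Fin N) (Fin N) ℚ} (K : Subgroup (SO Q AQ)) (e : Fin N → ℚ) (Y : Set (SO Q AQ))
    (ψ : HH Q e ℝ → HH Q e AQ → ℂ) : HO (lH K e) (rY e Y) ψ = TYH Q e K Y ψ := rfl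

theorem gpMLight (hM : C_MOM) (N : ℕ) (Q : Matrix (Fin N) (Fin N) ℚ) (e : Fin N → ℚ) (K : Subgroup (SO Q AQ)) (hN : 3 ≤ N)
    (hQ : PQ Q) (he : e ≠ 0) (hK : CO K) (Y : Set (SO Q AQ)) (hY : IsCompact Y) (hKY : ∀ y ∈ Y, ∀ k ∈ K, y * k ∈ Y ∧ k * y ∈ Y)
    (hYe : ∀ y ∈ Y, mat y *ᵥ ve e AQ ≠ -ve e AQ) :
    ∃ C : ℝ, 0 < C ∧ ∀ (n m : ℕ) (ρ : MRep (SO Q ℝ) n) (σ : MRep (HH Q e ℝ) m), Pairing1 ρ σ (iH Q e ℝ) →
      ∀ (r : ℕ) (φ : Fin r → SO Q ℝ → SO Q AQ → ℂ), ONB K ρ φ →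
        ∀ (s : ℕ) (ψ : Fin s → HH Q e ℝ → HH Q e AQ → ℂ), (∀ i, AutH K σ (ψ i)) →
          (∀ i j, Ip (qH Q e AQ) (lH K e) (ψ i) (ψ j) = if i = j then 1 else 0) →
          ∑ i, ‖∑ j, Pd K (HO K Y (φ j)) (ψ i) * star (Pd K (φ j) (ψ i)) -
              ((n : ℂ) / m) * Ip (qH Q e AQ) (lH K e) (HO (lH K e) (rY e Y) (ψ i)) (ψ i)‖ ^ 2 ≤
            C * ((n : ℝ) / m) ^ 2 * ((min s m : ℕ) * (m * ((m : ℝ) / n) ^ (1 / (2 * N + 4 : ℝ)))) := by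
  obtain ⟨C, hC, h⟩ := hM N Q e K Y hN hQ he hK.1 hK.2 hY hKY hYe
  refine ⟨C, hC, ?_⟩
  intro n m ρ σ hP r φ hφ s ψ hψ hort
  obtain ⟨u, hu1, hu2, hu3⟩ := tBr.1 (SO Q ℝ) n ρ
  obtain ⟨t, hs1, hs2, hs3⟩ := tBr.1 (HH Q e ℝ) m σ
  obtain ⟨L, hL, hLi, hLu⟩ := hP
  obtain ⟨l, hl1, hl2⟩ := tBr.2 n m L
  have fn : Module.finrank ℂ (EuclideanSpace ℂ (Fin n)) = n := by simp
  have fm : Module.finrank ℂ (EuclideanSpace ℂ (Fin m)) = m := by simp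
  have hinv : ∀ (x : Hp Q e ℝ) (v : EuclideanSpace ℂ (Fin n)) (w : EuclideanSpace ℂ (Fin m)),
      l (u.act x.1 v) (t.act x w) = l v w := by
    intro x v w
    rw [hl1, hl1]
    have e1 : (u.act x.1 v).ofLp = ρ.hom (iH Q e ℝ x) *ᵥ v.ofLp := hu1 x.1 v
    have e2 : (t.act x w).ofLp = σ.hom x *ᵥ w.ofLp := hs1 x w
    rw [e1, e2]
    exact pair_inv4 ρ σ (iH Q e ℝ) L hLi x _ _
  have huniq : ∀ l' : EuclideanSpace ℂ (Fin n) →ₗ[ℂ] EuclideanSpace ℂ (Fin m) →ₗ[ℂ] ℂ,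
      (∀ (x : Hp Q e ℝ) v w, l' (u.act x.1 v) (t.act x w) = l' v w) → ∃ c : ℂ, l' = c • l := by
    intro l' hl'
    obtain ⟨L', hL'⟩ := bil_mat l'
    obtain ⟨c, hc⟩ := hLu L' (fun x => mat_inv _ _ _ fun v w => by
      have e1 : (u.act x.1 (WithLp.toLp 2 v)).ofLp = ρ.hom (iH Q e ℝ x) *ᵥ v := hu1 x.1 (WithLp.toLp 2 v)
      have e2 : (t.act x (WithLp.toLp 2 w)).ofLp = σ.hom x *ᵥ w := hs1 x (WithLp.toLp 2 w)
      have e3 := hl' x (WithLp.toLp 2 v) (WithLp.toLp 2 w)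
      rw [hL', hL', e1, e2] at e3
      exact e3)
    refine ⟨c, ?_⟩
    refine LinearMap.ext fun v => LinearMap.ext fun w => ?_
    rw [hL', hc, smul_mulVec, dotProduct_smul]
    exact congrArg (c • ·) (hl1 v w).symm
  have hb := h (EuclideanSpace ℂ (Fin n)) (EuclideanSpace ℂ (Fin m)) u t l hu2 hs2 (hl2 hL) hinv huniq r φ
    (fun j => (autG_iff K ρ u hu3 (φ j)).1 ((hφ.1 (φ j)).2 (Submodule.subset_span ⟨j, rfl⟩)))
    (fun f hf => (hφ.1 f).1 ((autG_iff K ρ u hu3 f).2 hf)) (fun i j => hφ.2 i j) s ψ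
    (fun j => (autH_iff K σ t hs3 (ψ j)).1 (hψ j)) (fun i j => (ip_eq K (ψ i) (ψ j)).symm.trans (hort i j))
  rw [fn, fm] at hb
  refine le_trans (le_of_eq (Finset.sum_congr rfl fun i _ => ?_)) hb
  rw [ip_eq]
  have h1 : ∀ j, Pd K (HO K Y (φ j)) (ψ i) * star (Pd K (φ j) (ψ i)) =
      Per Q e K (TY Q K Y (φ j)) (ψ i) * (starRingEnd ℂ) (Per Q e K (φ j) (ψ i)) := by
    intro j
    rw [pd_eq, pd_eq]
    rfl
  rw [Finset.sum_congr rfl fun j _ => h1 j]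
  rfl

end Pool.Agent.GP
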