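import Pool.Agent.Lib.GP.Asm5

/-!
# The stable range: a numerical criterion (author helper25)
-/

set_option autoImplicit false

open IsDedekindDomain Matrix MeasureTheory

noncomputable section

namespace Pool.Agent.GP

variable {N : ℕ}

/-- `⟨x, y⟩ = xᵀ Q y` is invariant. -/
private theorem bq_inv {R : Type} [CommRing R] [Algebra ℚ R] (Q : Matrix (Fin N) (Fin N) ℚ) (g : Gp Q R) (x y : Fin N → R) :
    bq Q (g.1.1 *ᵥ x) (g.1.1 *ᵥ y) = bq Q x y := by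
  have h : g.1.1ᵀ * Q.map (algebraMap ℚ R) * g.1.1 = Q.map (algebraMap ℚ R) := g.2
  have h1 : g.1.1ᵀ *ᵥ (Q.map (algebraMap ℚ R) *ᵥ (g.1.1 *ᵥ y)) = Q.map (algebraMap ℚ R) *ᵥ y := by
    rw [mulVec_mulVec, mulVec_mulVec, h]
  unfold bq
  rw [← vecMul_transpose, ← dotProduct_mulVec, h1]

private theorem bq_map {R : Type} [CommRing R] [Algebra ℚ R] (Q : Matrix (Fin N) (Fin N) ℚ) (x y : Fin N → ℚ) :
    bq Q (fun i => algebraMap ℚ R (x i)) (fun i => algebraMap ℚ R (y i)) = algebraMap ℚ R (bq Q x y) := by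
  unfold bq
  simp only [dotProduct, mulVec, Matrix.map_apply, map_sum, map_mul]
  rfl

private theorem bq_real (Q : Matrix (Fin N) (Fin N) ℚ) (x y : Fin N → ℚ) :
    bq Q (fun i => (x i : ℝ)) (fun i => (y i : ℝ)) = ((bq Q x y : ℚ) : ℝ) := bq_map (R := ℝ) Q x y

private theorem bq_sub (Q : Matrix (Fin N) (Fin N) ℚ) (hQ : Q.IsSymm) (x y : Fin N → ℚ) :
    bq Q (x - y) (x - y) = bq Q x x + bq Q y y - 2 * bq Q x y := by
  have hs : bq Q y x = bq Q x y := by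
    unfold bq
    rw [dotProduct_mulVec, ← mulVec_transpose, dotProduct_comm]
    have e : (Q.map (algebraMap ℚ ℚ))ᵀ = Q.map (algebraMap ℚ ℚ) := by
      have e0 : (Q.map (algebraMap ℚ ℚ))ᵀ = Qᵀ.map (algebraMap ℚ ℚ) := rfl
      rw [e0, hQ]
    rw [e]
  unfold bq at *
  rw [mulVec_sub, sub_dotProduct, dotProduct_sub, dotProduct_sub, hs]
  ring

private theorem bq_add (Q : Matrix (Fin N) (Fin N) ℚ) (hQ : Q.IsSymm) (x y : Fin N → ℚ) :
    bq Q (x + y) (x + y) = bq Q x x + bq Q y y + 2 * bq Q x y := by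
  have hs : bq Q y x = bq Q x y := by
    unfold bq
    rw [dotProduct_mulVec, ← mulVec_transpose, dotProduct_comm]
    have e : (Q.map (algebraMap ℚ ℚ))ᵀ = Q.map (algebraMap ℚ ℚ) := by
      have e0 : (Q.map (algebraMap ℚ ℚ))ᵀ = Qᵀ.map (algebraMap ℚ ℚ) := rfl
      rw [e0, hQ]
    rw [e]
  unfold bq at *
  rw [mulVec_add, add_dotProduct, dotProduct_add, dotProduct_add, hs]
  ring

private theorem bq_nn (Q : Matrix (Fin N) (Fin N) ℚ) (hQ : PQ Q) (x : Fin N → ℚ) : 0 ≤ bq Q x x ∧ (bq Q x x = 0 → x = 0) := by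
  by_cases hx : x = 0
  · subst hx
    refine ⟨le_of_eq ?_, fun _ => rfl⟩
    unfold bq
    rw [zero_dotProduct]
  · have h1 : (fun i => (x i : ℝ)) ≠ 0 := by
      intro h
      apply hx
      funext i
      have := congrFun h i
      have h2 : ((x i : ℚ) : ℝ) = 0 := this
      exact_mod_cast h2
    have h2 : 0 < bq Q (fun i => (x i : ℝ)) (fun i => (x i : ℝ)) := hQ.2 _ h1
    rw [bq_real] at h2
    have h3 : 0 < bq Q x x := by exact_mod_cast h2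
    exact ⟨h3.le, fun h => absurd h h3.ne'⟩

theorem sta_ee (Q : Matrix (Fin N) (Fin N) ℚ) (e : Fin N → ℚ) : bq Q (ve e Af) (ve e Af) = algebraMap ℚ Af (bq Q e e) :=
  bq_map Q e e

/-- **The criterion.** `b (⟨e, y e⟩ - ⟨e, e⟩) ∈ m Zh` for `y ∈ 𝒴` and `2 b ⟨e, e⟩ < m`. -/
theorem sta_num (hAD2 : C_AD2) (Q : Matrix (Fin N) (Fin N) ℚ) (e : Fin N → ℚ) (hQ : PQ Q) (𝒴 : Set (Gp Q Af)) (b m : ℕ)
    (hb : 0 < b) (hbm : 2 * b * bq Q e e < m)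
    (h : ∀ y ∈ 𝒴, ∃ z ∈ Zh, (b : Af) * (bq Q (ve e Af) (y.1.1 *ᵥ ve e Af) - bq Q (ve e Af) (ve e Af)) = (m : Af) * z) :
    Sta Q e 𝒴 := by
  intro γ g hg g' hg' y hy hγ
  obtain ⟨z, hz, hzy⟩ := h y hy
  -- the rational number
  have hve : ∀ x : Fin N → ℚ, ve x Af = fun i => algebraMap ℚ Af (x i) := fun x => rfl
  have h1 : bq Q (ve e Af) (y.1.1 *ᵥ ve e Af) = algebraMap ℚ Af (bq Q e (γ.1.1 *ᵥ e)) := by
    have h2 : bq Q (ve e Af) ((jG Q Af γ).1.1 *ᵥ ve e Af) = algebraMap ℚ Af (bq Q e (γ.1.1 *ᵥ e)) := by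
      rw [jG_ve]
      exact bq_map Q e (γ.1.1 *ᵥ e)
    have h3 : (jG Q Af γ).1.1 *ᵥ ve e Af = g.1.1 *ᵥ (y.1.1 *ᵥ ve e Af) := by
      rw [hγ]
      have h4 : g'.1.1 *ᵥ ve e Af = ve e Af := hg'
      change (g.1.1 * y.1.1 * g'.1.1) *ᵥ ve e Af = _
      rw [← mulVec_mulVec, h4, ← mulVec_mulVec]
    have h5 : ve e Af = g.1.1 *ᵥ ve e Af := by
      have h4 : g.1.1 *ᵥ ve e Af = ve e Af := hg
      exact h4.symm
    rw [← h2, h3]
    conv_rhs => rw [h5]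
    rw [bq_inv]
    rw [← h5]
  have h6 : bq Q (ve e Af) (ve e Af) = algebraMap ℚ Af (bq Q e e) := bq_map Q e e
  set t : ℚ := bq Q e (γ.1.1 *ᵥ e) with ht
  set q0 : ℚ := bq Q e e with hq0
  have hq0n : 0 ≤ q0 := (bq_nn Q hQ e).1
  have hm0 : (0 : ℚ) < m := lt_of_le_of_lt (by positivity) hbm
  rw [h1, h6] at hzy
  have h7 : algebraMap ℚ Af ((b : ℚ) * (t - q0) / m) ∈ Zh := by
    have h8 : algebraMap ℚ Af ((b : ℚ) * (t - q0) / m) = z := by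
      have h9 : algebraMap ℚ Af ((b : ℚ) * (t - q0) / m) = algebraMap ℚ Af ((m : ℚ)⁻¹) * ((b : Af) * (algebraMap ℚ Af t - algebraMap ℚ Af q0)) := by
        rw [div_eq_mul_inv, map_mul, map_mul, map_sub, map_natCast, mul_comm]
      rw [h9, hzy, ← map_natCast (algebraMap ℚ Af) m, ← mul_assoc, ← map_mul, inv_mul_cancel₀ hm0.ne', map_one, one_mul]
    rw [h8]
    exact hz
  obtain ⟨k, hk⟩ := hAD2 _ h7
  -- Cauchy-Schwarz
  have hself : bq Q (γ.1.1 *ᵥ e) (γ.1.1 *ᵥ e) = q0 := by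
    have h8 := bq_inv Q γ e e
    exact h8
  have h9 := bq_sub Q hQ.1 e (γ.1.1 *ᵥ e)
  have h10 := bq_add Q hQ.1 e (γ.1.1 *ᵥ e)
  rw [hself, ← hq0, ← ht] at h9 h10
  have h11 := (bq_nn Q hQ (e - γ.1.1 *ᵥ e)).1
  have h12 := (bq_nn Q hQ (e + γ.1.1 *ᵥ e)).1
  rw [h9] at h11
  rw [h10] at h12
  have hbQ : (0 : ℚ) < b := by exact_mod_cast hb
  have hk0 : k = 0 := by
    have h13 : (b : ℚ) * (t - q0) = k * m := by
      rw [← hk]
      field_simp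
    have h14 : -(m : ℚ) < k * m := by
      rw [← h13]
      nlinarith
    have h15 : k * (m : ℚ) < m := by
      rw [← h13]
      nlinarith
    have h16 : (-1 : ℚ) < k := by
      by_contra hc
      push Not at hc
      nlinarith
    have h17 : (k : ℚ) < 1 := by
      by_contra hc
      push Not at hc
      nlinarith
    have h18 : -1 < k := by exact_mod_cast h16
    have h19 : k < 1 := by exact_mod_cast h17
    omega
  have htq : t = q0 := by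
    rw [hk0, Int.cast_zero, div_eq_zero_iff] at hk
    rcases hk with hk | hk
    · rcases mul_eq_zero.1 hk with h13 | h13
      · exact absurd h13 hbQ.ne'
      · linarith
    · exact absurd hk hm0.ne'
  have h20 : bq Q (e - γ.1.1 *ᵥ e) (e - γ.1.1 *ᵥ e) = 0 := by
    rw [h9, htq]
    ring
  have h21 := (bq_nn Q hQ _).2 h20
  change γ.1.1 *ᵥ ve e ℚ = ve e ℚ
  have h22 : ve e ℚ = e := rfl
  rw [h22]
  exact (sub_eq_zero.1 h21).symm

/-- **The criterion** in terms of values: `⟨e, e⟩` is the only rational value `⟨e, y e⟩`, `y ∈ 𝒴`, in `[-⟨e, e⟩, ⟨e, e⟩]`. -/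
theorem sta_val (Q : Matrix (Fin N) (Fin N) ℚ) (e : Fin N → ℚ) (hQ : PQ Q) (𝒴 : Set (Gp Q Af))
    (h : ∀ t : ℚ, |t| ≤ bq Q e e → ∀ y ∈ 𝒴, bq Q (ve e Af) (y.1.1 *ᵥ ve e Af) = algebraMap ℚ Af t → t = bq Q e e) :
    Sta Q e 𝒴 := by
  intro γ g hg g' hg' y hy hγ
  have h1 : bq Q (ve e Af) (y.1.1 *ᵥ ve e Af) = algebraMap ℚ Af (bq Q e (γ.1.1 *ᵥ e)) := by
    have h2 : bq Q (ve e Af) ((jG Q Af γ).1.1 *ᵥ ve e Af) = algebraMap ℚ Af (bq Q e (γ.1.1 *ᵥ e)) := by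
      rw [jG_ve]
      exact bq_map Q e (γ.1.1 *ᵥ e)
    have h3 : (jG Q Af γ).1.1 *ᵥ ve e Af = g.1.1 *ᵥ (y.1.1 *ᵥ ve e Af) := by
      rw [hγ]
      have h4 : g'.1.1 *ᵥ ve e Af = ve e Af := hg'
      change (g.1.1 * y.1.1 * g'.1.1) *ᵥ ve e Af = _
      rw [← mulVec_mulVec, h4, ← mulVec_mulVec]
    have h5 : ve e Af = g.1.1 *ᵥ ve e Af := by
      have h4 : g.1.1 *ᵥ ve e Af = ve e Af := hg
      exact h4.symm
    rw [← h2, h3]
    conv_rhs => rw [h5]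
    rw [bq_inv]
    rw [← h5]
  have hself : bq Q (γ.1.1 *ᵥ e) (γ.1.1 *ᵥ e) = bq Q e e := bq_inv Q γ e e
  have h9 := bq_sub Q hQ.1 e (γ.1.1 *ᵥ e)
  have h10 := bq_add Q hQ.1 e (γ.1.1 *ᵥ e)
  rw [hself] at h9 h10
  have h11 := (bq_nn Q hQ (e - γ.1.1 *ᵥ e)).1
  have h12 := (bq_nn Q hQ (e + γ.1.1 *ᵥ e)).1
  rw [h9] at h11
  rw [h10] at h12
  have htq := h (bq Q e (γ.1.1 *ᵥ e)) (abs_le.2 ⟨by linarith, by linarith⟩) y hy h1
  have h20 : bq Q (e - γ.1.1 *ᵥ e) (e - γ.1.1 *ᵥ e) = 0 := by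
    rw [h9, htq]
    ring
  have h21 := (bq_nn Q hQ _).2 h20
  change γ.1.1 *ᵥ ve e ℚ = ve e ℚ
  have h22 : ve e ℚ = e := rfl
  rw [h22]
  exact (sub_eq_zero.1 h21).symm

end Pool.Agent.GP
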