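import Pool.Agent.Lib.GP.Stm4

/-!
# Gross-Prasad periods on definite orthogonal groups: the stable range (author helper25)
-/

set_option autoImplicit false

open Matrix

noncomputable section

namespace Pool.Agent.GP

variable {N : ℕ} {Q : Matrix (Fin N) (Fin N) ℚ}

/-- `⟨e, y e⟩ = eᵀ Q y e`. -/
def mc (e : Fin N → ℚ) (y : SO Q AQ) : AQ := ve e AQ ⬝ᵥ (Q.map (algebraMap ℚ AQ) *ᵥ (mat y *ᵥ ve e AQ))

end Pool.Agent.GP
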