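import Pool.Agent.Lib.GP.Bri
import Pool.Agent.Lib.GP.Stm5
import Pool.Agent.Lib.GP.FinP
import Pool.Agent.Lib.GP.FinM
import Pool.Agent.Lib.GP.StaN

/-!
# The light form of STA (author helper25)
-/

set_option autoImplicit false

open IsDedekindDomain Matrix MeasureTheory

noncomputable section

namespace Pool.Agent.GP

/-- **STA.** -/
theorem gpS : C_STA := by
  have hHS := tHS
  have hAD1 : C_AD1 := tAD1
  have hAD2 : C_AD2 := tAD2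
  have hAD3 : C_AD3 := tAD3 hAD1
  have hAD5 : C_AD5 := tAD5 hAD1
  have hAD6 : C_AD6 := tAD6
  have hGR1 : C_GR1 := tGR1
  have hGR3 : C_GR3 := tGR3 hAD2 hAD5 hGR1
  have hRed : C_Red := tRed tPrm
  have hHer : C_Her := tHer hRed
  have hCN1 : C_CN1 := tCN1 hRed hHer
  have hCN2 : C_CN2 := tCN2 hAD1 hAD2 hAD3
  have hCN3 : C_CN3 := tCN3 hAD2 hCN1 hCN2
  have hCN4 : C_CN4 := tCN4 hAD2 hAD3 hAD6 tFinV hCN3
  exact tSTA (tBG tSch) (tBF4 tJw2 tSch) (tRz tSch tRp) (tLM tGM) tTH hGR1 hGR3 hCN4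

private theorem pair_inv5 {G H : Type} [Group G] [TopologicalSpace G] [Group H] [TopologicalSpace H] {n m : ℕ}
    (ρ : MRep G n) (σ : MRep H m) (i : H →* G) (L : Matrix (Fin n) (Fin m) ℂ)
    (hL : ∀ x, (ρ.hom (i x))ᵀ * L * σ.hom x = L) (x : H) (v : Fin n → ℂ) (w : Fin m → ℂ) :
    (ρ.hom (i x) *ᵥ v) ⬝ᵥ (L *ᵥ (σ.hom x *ᵥ w)) = v ⬝ᵥ (L *ᵥ w) := by
  have h1 : (ρ.hom (i x) *ᵥ v) = v ᵥ* (ρ.hom (i x))ᵀ := (vecMul_transpose _ _).symm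
  rw [h1, ← dotProduct_mulVec, mulVec_mulVec, mulVec_mulVec, hL x]

/-- A bilinear form on `ℂ^n × ℂ^m` is given by a matrix. -/
private theorem bil_mat5 {n m : ℕ} (l : EuclideanSpace ℂ (Fin n) →ₗ[ℂ] EuclideanSpace ℂ (Fin m) →ₗ[ℂ] ℂ) :
    ∃ L : Matrix (Fin n) (Fin m) ℂ, ∀ v w, l v w = v.ofLp ⬝ᵥ (L *ᵥ w.ofLp) := by
  classical
  refine ⟨fun i j => l (EuclideanSpace.single i 1) (EuclideanSpace.single j 1), fun v w => ?_⟩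
  have hv : v = ∑ i, v.ofLp i • EuclideanSpace.single i (1 : ℂ) := by
    ext k
    simp [Pi.single_apply]
  have hw : w = ∑ i, w.ofLp i • EuclideanSpace.single i (1 : ℂ) := by
    ext k
    simp [Pi.single_apply]
  conv_lhs => rw [hv, hw]
  simp only [map_sum, map_smul, LinearMap.sum_apply, LinearMap.smul_apply, smul_eq_mul, dotProduct, mulVec]
  simp only [Finset.mul_sum]
  rw [Finset.sum_comm]
  exact Finset.sum_congr rfl fun i _ => Finset.sum_congr rfl fun j _ => by ring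

/-- The matrix of an invariant form is invariant. -/
private theorem mat_inv5 {n m : ℕ} (A : Matrix (Fin n) (Fin n) ℂ) (B : Matrix (Fin m) (Fin m) ℂ) (L : Matrix (Fin n) (Fin m) ℂ)
    (h : ∀ (v : Fin n → ℂ) (w : Fin m → ℂ), (A *ᵥ v) ⬝ᵥ (L *ᵥ (B *ᵥ w)) = v ⬝ᵥ (L *ᵥ w)) : Aᵀ * L * B = L := by
  classical
  ext i j
  have h1 := h (Pi.single i 1) (Pi.single j 1)
  have h2 : (A *ᵥ Pi.single i 1) = Pi.single i 1 ᵥ* Aᵀ := (vecMul_transpose _ _).symm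
  rw [h2, ← dotProduct_mulVec, mulVec_mulVec, mulVec_mulVec, mulVec_single_one, mulVec_single_one, single_one_dotProduct,
    single_one_dotProduct] at h1
  exact h1

/-- **The stable range**: every element of `G(ℚ)` in `H(AQ) Y H(AQ)` is in `H(ℚ)`. -/
def Stable {N : ℕ} {Q : Matrix (Fin N) (Fin N) ℚ} (e : Fin N → ℚ) (Y : Set (SO Q AQ)) : Prop :=
  ∀ (γ : SO Q ℚ) (h h' : HH Q e AQ), ∀ y ∈ Y, qG Q AQ γ = iH Q e AQ h * y * iH Q e AQ h' → mat γ *ᵥ e = e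

theorem sta_iff {N : ℕ} {Q : Matrix (Fin N) (Fin N) ℚ} (e : Fin N → ℚ) (Y : Set (SO Q AQ)) (h : Stable e Y) :
    Sta Q e (show Set (Gp Q Af) from Y) :=
  fun γ g hg g' hg' y hy hγ => h γ ⟨g, hg⟩ ⟨g', hg'⟩ y hy hγ

theorem sta_iff' {N : ℕ} {Q : Matrix (Fin N) (Fin N) ℚ} (e : Fin N → ℚ) (Y : Set (SO Q AQ))
    (h : Sta Q e (show Set (Gp Q Af) from Y)) : Stable e Y :=
  fun γ g g' y hy hγ => h γ g.1 g.2 g'.1 g'.2 y hy hγ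

theorem gpSLight (hM : C_STA) (N : ℕ) (Q : Matrix (Fin N) (Fin N) ℚ) (e : Fin N → ℚ) (K : Subgroup (SO Q AQ))
    (hQ : PQ Q) (hK : CO K) (Y : Set (SO Q AQ)) (hY : IsCompact Y) (hKY : ∀ y ∈ Y, ∀ k ∈ K, y * k ∈ Y ∧ k * y ∈ Y)
    (hYe : Stable e Y) (n m : ℕ) (ρ : MRep (SO Q ℝ) n) (σ : MRep (HH Q e ℝ) m) (hP : Pairing1 ρ σ (iH Q e ℝ))
    (r : ℕ) (φ : Fin r → SO Q ℝ → SO Q AQ → ℂ) (hφ : ONB K ρ φ) (ψ ψ' : HH Q e ℝ → HH Q e AQ → ℂ) (hψ : AutH K σ ψ)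
    (hψ' : AutH K σ ψ') :
    ∑ j, Pd K (HO K Y (φ j)) ψ * star (Pd K (φ j) ψ') =
      ((n : ℂ) / m) * Ip (qH Q e AQ) (lH K e) (HO (lH K e) (rY e Y) ψ') ψ := by
  obtain ⟨u, hu1, hu2, hu3⟩ := tBr.1 (SO Q ℝ) n ρ
  obtain ⟨t, hs1, hs2, hs3⟩ := tBr.1 (HH Q e ℝ) m σ
  obtain ⟨L, hL, hLi, hLu⟩ := hP
  obtain ⟨l, hl1, hl2⟩ := tBr.2 n m L
  have fn : Module.finrank ℂ (EuclideanSpace ℂ (Fin n)) = n := by simp
  have fm : Module.finrank ℂ (EuclideanSpace ℂ (Fin m)) = m := by simp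
  have hinv : ∀ (x : Hp Q e ℝ) (v : EuclideanSpace ℂ (Fin n)) (w : EuclideanSpace ℂ (Fin m)),
      l (u.act x.1 v) (t.act x w) = l v w := by
    intro x v w
    rw [hl1, hl1]
    have e1 : (u.act x.1 v).ofLp = ρ.hom (iH Q e ℝ x) *ᵥ v.ofLp := hu1 x.1 v
    have e2 : (t.act x w).ofLp = σ.hom x *ᵥ w.ofLp := hs1 x w
    rw [e1, e2]
    exact pair_inv5 ρ σ (iH Q e ℝ) L hLi x _ _
  have huniq : ∀ l' : EuclideanSpace ℂ (Fin n) →ₗ[ℂ] EuclideanSpace ℂ (Fin m) →ₗ[ℂ] ℂ,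
      (∀ (x : Hp Q e ℝ) v w, l' (u.act x.1 v) (t.act x w) = l' v w) → ∃ c : ℂ, l' = c • l := by
    intro l' hl'
    obtain ⟨L', hL'⟩ := bil_mat5 l'
    obtain ⟨c, hc⟩ := hLu L' (fun x => mat_inv5 _ _ _ fun v w => by
      have e1 : (u.act x.1 (WithLp.toLp 2 v)).ofLp = ρ.hom (iH Q e ℝ x) *ᵥ v := hu1 x.1 (WithLp.toLp 2 v)
      have e2 : (t.act x (WithLp.toLp 2 w)).ofLp = σ.hom x *ᵥ w := hs1 x (WithLp.toLp 2 w)
      have e3 := hl' x (WithLp.toLp 2 v) (WithLp.toLp 2 w)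
      rw [hL', hL', e1, e2] at e3
      exact e3)
    refine ⟨c, ?_⟩
    refine LinearMap.ext fun v => LinearMap.ext fun w => ?_
    rw [hL', hc, smul_mulVec, dotProduct_smul]
    exact congrArg (c • ·) (hl1 v w).symm
  have hb := hM N Q e K Y hQ hK.1 hK.2 hY hKY (sta_iff e Y hYe) (EuclideanSpace ℂ (Fin n)) (EuclideanSpace ℂ (Fin m)) u t l
    hu2 hs2 (hl2 hL) hinv huniq r φ
    (fun j => (autG_iff K ρ u hu3 (φ j)).1 ((hφ.1 (φ j)).2 (Submodule.subset_span ⟨j, rfl⟩)))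
    (fun f hf => (hφ.1 f).1 ((autG_iff K ρ u hu3 f).2 hf)) (fun i j => hφ.2 i j) ψ
    ((autH_iff K σ t hs3 ψ).1 hψ) ψ' ((autH_iff K σ t hs3 ψ').1 hψ')
  rw [fn, fm] at hb
  have h1 : ∀ j, Pd K (HO K Y (φ j)) ψ * star (Pd K (φ j) ψ') =
      Per Q e K (TY Q K Y (φ j)) ψ * (starRingEnd ℂ) (Per Q e K (φ j) ψ') := by
    intro j
    rw [pd_eq, pd_eq]
    rfl
  rw [Finset.sum_congr rfl fun j _ => h1 j, ip_eq]
  exact hb

theorem staLight (N : ℕ) (Q : Matrix (Fin N) (Fin N) ℚ) (e : Fin N → ℚ) (hQ : PQ Q) (Y : Set (SO Q AQ)) (b m : ℕ)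
    (hb : 0 < b) (hbm : 2 * b * (e ⬝ᵥ (Q *ᵥ e)) < m)
    (h : ∀ y ∈ Y, ∃ z, Itg z ∧ (b : AQ) * (mc e y - algebraMap ℚ AQ (e ⬝ᵥ (Q *ᵥ e))) = (m : AQ) * z) : Stable e Y := by
  have h2 : bq Q e e = e ⬝ᵥ (Q *ᵥ e) := by
    unfold bq
    have h2 : Q.map (algebraMap ℚ ℚ) = Q := by
      ext i j
      rfl
    rw [h2]
  refine sta_iff' e Y (sta_num tAD2 Q e hQ Y b m hb ?_ ?_)
  · rw [h2]
    exact hbm
  · intro y hy
    obtain ⟨z, hz, h1⟩ := h y hy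
    refine ⟨z, hz, ?_⟩
    rw [sta_ee, h2]
    exact h1

/-- The condition on the values gives the stable range. -/
theorem valLight (N : ℕ) (Q : Matrix (Fin N) (Fin N) ℚ) (e : Fin N → ℚ) (hQ : PQ Q) (Y : Set (SO Q AQ))
    (h : ∀ t : ℚ, |t| ≤ e ⬝ᵥ (Q *ᵥ e) → ∀ y ∈ Y, mc e y = algebraMap ℚ AQ t → t = e ⬝ᵥ (Q *ᵥ e)) : Stable e Y := by
  have h2 : bq Q e e = e ⬝ᵥ (Q *ᵥ e) := by
    unfold bq
    have h2 : Q.map (algebraMap ℚ ℚ) = Q := by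
      ext i j
      rfl
    rw [h2]
  refine sta_iff' e Y (sta_val Q e hQ Y ?_)
  intro t ht y hy hty
  rw [h2] at ht ⊢
  exact h t ht y hy hty

end Pool.Agent.GP
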