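import Pool.Agent.Lib.GP.Stm2

/-!
# Gross-Prasad periods on definite orthogonal groups: partners in the level aspect (author helper25)
-/

set_option autoImplicit false

open Matrix

noncomputable section

namespace Pool.Agent.GP

variable {N n : ℕ}

/-- The integral matrix `S` as a rational matrix. -/
def qS (S : Matrix (Fin N) (Fin N) ℤ) : Matrix (Fin N) (Fin N) ℚ := S.map Int.cast

/-- The integral vector `v` as a rational vector. -/
def qv (v : Fin N → ℤ) : Fin N → ℚ := fun i => v i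

/-- `p` does not divide `2 M det S ⟨v, v⟩` and `G(ℤ_p) ⊂ K`. -/
def GdP (S : Matrix (Fin N) (Fin N) ℤ) (v : Fin N → ℤ) (M : ℕ) (K : Subgroup (SO (qS S) AQ)) (p : Nat.Primes) : Prop :=
  ¬ ((p : ℕ) : ℤ) ∣ 2 * M * S.det * (v ⬝ᵥ (S *ᵥ v)) ∧
    ∀ y : SO (qS S) AQ, (∀ w, w ≠ vp p → mv w y = 1) → (∀ i j, Itg (mat y i j)) → y ∈ K

/-- `φ'` has `r` **partners**: there are automorphic forms `φ_j`, `j < r`, on `G` of weight `ρ` and level `K`, whose period with `φ'` is not zero, which are eigenforms of the `T_p`, `p ∈ P`, with pairwise different systems of eigenvalues. -/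
def PartG {Q : Matrix (Fin N) (Fin N) ℚ} (K : Subgroup (SO Q AQ)) {e : Fin N → ℚ} (ρ : MRep (SO Q ℝ) n)
    (P : Set Nat.Primes) (φ' : HH Q e ℝ → HH Q e AQ → ℂ) (r : ℕ) : Prop :=
  ∃ (φ : Fin r → SO Q ℝ → SO Q AQ → ℂ) (lam : Fin r → Nat.Primes → ℝ),
    ∀ j, AutG K ρ (φ j) ∧ Pd K (φ j) φ' ≠ 0 ∧ (∀ p ∈ P, TK K p (φ j) = (lam j p : ℂ) • φ j) ∧
      ∀ i, i ≠ j → ∃ p ∈ P, lam i p ≠ lam j p

end Pool.Agent.GP
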