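import Pool.Agent.Lib.GP.FinE
import Pool.Agent.Lib.GP.Stm6
import Pool.Agent.Lib.GP.Asm6

/-!
# The theorem LVC and its light form (author helper25)
-/

set_option autoImplicit false

open IsDedekindDomain Matrix MeasureTheory

noncomputable section

namespace Pool.Agent.GP

/-- **LVC.** -/
theorem gpV : C_LVC := by
  have hHS := tHS
  have hAD1 : C_AD1 := tAD1
  have hAD2 : C_AD2 := tAD2
  have hAD3 : C_AD3 := tAD3 hAD1
  have hAD5 : C_AD5 := tAD5 hAD1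
  have hAD6 : C_AD6 := tAD6
  have hGR1 : C_GR1 := tGR1
  have hGR3 : C_GR3 := tGR3 hAD2 hAD5 hGR1
  have hRed : C_Red := tRed tPrm
  have hHer : C_Her := tHer hRed
  have hCN1 : C_CN1 := tCN1 hRed hHer
  have hCN2 : C_CN2 := tCN2 hAD1 hAD2 hAD3
  have hCN3 : C_CN3 := tCN3 hAD2 hCN1 hCN2
  have hCN4 : C_CN4 := tCN4 hAD2 hAD3 hAD6 tFinV hCN3
  have hMn : C_Mn := tMn
  have hCmp : C_Cmp := tCmp
  have hVec : C_Vec := tVec
  have hRf : C_Rf := tRf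
  have hNbI : C_NbI := tNbI hMn
  have hLA := tLA hHS
  have hNull : C_Null := tNull hLA tExp
  exact tLVC tHk1 tHkS tEig (tBF2 tJw) (tInd (tInt hNull)) tLT hNbI (tNbK hMn hCmp) (tNbF hAD2 hAD3)
    (tNbE hVec hRf hCmp hMn) (tNbH hMn hCmp hNbI) tDpI hAD2 hGR1 hGR3 hCN4

variable {N : ℕ}

private theorem int_Zh (a : ℤ) : algebraMap ℚ Af (a : ℚ) ∈ Zh := by
  rw [map_intCast]
  exact intCast_mem Zh a

private theorem nd (p : Nat.Primes) (a : ℤ) : ¬ (p : ℕ) ∣ ((a : ℚ)).den := by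
  rw [Rat.den_intCast, Nat.dvd_one]
  exact p.2.one_lt.ne'

private theorem dot_cast (S : Matrix (Fin N) (Fin N) ℤ) (v : Fin N → ℤ) :
    qv v ⬝ᵥ (qS S *ᵥ qv v) = ((v ⬝ᵥ (S *ᵥ v) : ℤ) : ℚ) := by
  simp only [qv, qS, dotProduct, mulVec, Matrix.map_apply]
  push_cast
  rfl

private theorem gd_of (S : Matrix (Fin N) (Fin N) ℤ) (v : Fin N → ℤ) (M : ℕ) (K : Subgroup (SO (qS S) AQ))
    (hKi : ∀ k ∈ K, ∀ i j, Itg (mat k i j)) (p : Nat.Primes) (h : GdP S v M K p) :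
    Gd (qS S) (qv v) (show Subgroup (Gp (qS S) Af) from K) p ∧ ¬ (p : ℕ) ∣ M := by
  have hd : ∀ a : ℤ, a ∣ 2 * M * S.det * (v ⬝ᵥ (S *ᵥ v)) → ¬ ((p : ℕ) : ℤ) ∣ a := fun a ha hpa => h.1 (hpa.trans ha)
  have h2 : ¬ ((p : ℕ) : ℤ) ∣ 2 := hd 2 ⟨M * S.det * (v ⬝ᵥ (S *ᵥ v)), by ring⟩
  have hM : ¬ ((p : ℕ) : ℤ) ∣ (M : ℤ) := hd M ⟨2 * S.det * (v ⬝ᵥ (S *ᵥ v)), by ring⟩
  have hS : ¬ ((p : ℕ) : ℤ) ∣ S.det := hd S.det ⟨2 * M * (v ⬝ᵥ (S *ᵥ v)), by ring⟩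
  have hv : ¬ ((p : ℕ) : ℤ) ∣ (v ⬝ᵥ (S *ᵥ v)) := hd _ ⟨2 * M * S.det, by ring⟩
  refine ⟨⟨?_, ?_, ?_, ?_, ?_, ?_, ?_⟩, fun h1 => hM (by exact_mod_cast h1)⟩
  · intro h1
    apply h2
    rw [h1]
    exact dvd_refl _
  · intro k hk i j
    exact hKi k hk i j (vp p)
  · intro y hy hy2
    exact h.2 y (fun w hw => (mv_iff y w).2 (hy w hw)) hy2
  · intro i j
    exact nd p (S i j)
  · intro i j
    have h1 : (qS S)⁻¹ i j = ((S.adjugate i j : ℤ) : ℚ) / ((S.det : ℤ) : ℚ) := by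
      have e1 : (qS S).det = ((S.det : ℤ) : ℚ) := by
        have := (Int.castRingHom ℚ).map_det S
        exact this.symm
      have e2 : (qS S).adjugate = S.adjugate.map (Int.cast : ℤ → ℚ) := by
        have := (Int.castRingHom ℚ).map_adjugate S
        exact this.symm
      rw [Matrix.inv_def, Matrix.smul_apply, e1, e2, Ring.inverse_eq_inv', smul_eq_mul, Matrix.map_apply]
      rw [div_eq_inv_mul]
    rw [h1]
    intro h3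
    have h4 := Rat.den_dvd (S.adjugate i j) S.det
    exact hS ((by exact_mod_cast h3 : ((p : ℕ) : ℤ) ∣ _).trans h4)
  · intro i
    exact nd p (v i)
  · rw [dot_cast, Rat.num_intCast]
    exact hv

theorem gpVLight (hV : C_LVC) (hN : 3 ≤ N) (S : Matrix (Fin N) (Fin N) ℤ) (hS : S.IsSymm)
    (hpos : ∀ x : Fin N → ℝ, x ≠ 0 → 0 < x ⬝ᵥ (S.map (Int.cast : ℤ → ℝ) *ᵥ x)) (v : Fin N → ℤ) (hv : v ≠ 0)
    (K : Subgroup (SO (qS S) AQ)) (hK : CO K) (hKi : ∀ k ∈ K, ∀ i j, Itg (mat k i j)) (M : ℕ) (hM : 0 < M)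
    (hKv : ∀ k ∈ K, ∀ i, ∃ z, Itg z ∧ (mat k *ᵥ ve (qv v) AQ) i = ve (qv v) AQ i + (M : AQ) * z) (n m : ℕ)
    (ρ : MRep (SO (qS S) ℝ) n) (σ : MRep (HH (qS S) (qv v) ℝ) m) (hP : Pairing ρ σ (iH (qS S) (qv v) ℝ))
    (ψ : HH (qS S) (qv v) ℝ → HH (qS S) (qv v) AQ → ℂ) (hψ : AutH K σ ψ) (hne : ψ ≠ 0) :
    PartG K ρ {p | GdP S v M K p} ψ
      {p : Nat.Primes | GdP S v M K p ∧ 4 * (v ⬝ᵥ (S *ᵥ v)) * ((p : ℕ) : ℤ) ^ 2 < (M : ℤ) ^ 2}.ncard := by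
  classical
  have hQ : PQ (qS S) := by
    refine ⟨?_, fun x hx => ?_⟩
    · change (S.map (Int.cast : ℤ → ℚ))ᵀ = S.map (Int.cast : ℤ → ℚ)
      have e0 : (S.map (Int.cast : ℤ → ℚ))ᵀ = Sᵀ.map (Int.cast : ℤ → ℚ) := rfl
      rw [e0, hS]
    · have h1 := hpos x hx
      have h2 : (qS S).map (algebraMap ℚ ℝ) = S.map (Int.cast : ℤ → ℝ) := by
        ext i j
        change ((((S i j : ℤ) : ℚ)) : ℝ) = ((S i j : ℤ) : ℝ)
        norm_cast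
      rw [h2]
      exact h1
  have hq0 : bq (qS S) (qv v) (qv v) = ((v ⬝ᵥ (S *ᵥ v) : ℤ) : ℚ) := by
    have h1 : bq (qS S) (qv v) (qv v) = (qv v) ⬝ᵥ ((qS S) *ᵥ (qv v)) := by
      unfold bq
      have h2 : (qS S).map (algebraMap ℚ ℚ) = (qS S) := by
        ext i j
        rfl
      rw [h2]
    rw [h1]
    exact dot_cast S v
  have hpos0 : 0 < v ⬝ᵥ (S *ᵥ v) := by
    have h1 : (fun i => ((v i : ℤ) : ℝ)) ≠ 0 := by
      intro h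
      apply hv
      funext i
      have h2 := congrFun h i
      have h3 : ((v i : ℤ) : ℝ) = 0 := h2
      exact_mod_cast h3
    have h2 := hpos _ h1
    have h3 : (fun i => ((v i : ℤ) : ℝ)) ⬝ᵥ (S.map (Int.cast : ℤ → ℝ) *ᵥ fun i => ((v i : ℤ) : ℝ)) =
        ((v ⬝ᵥ (S *ᵥ v) : ℤ) : ℝ) := by
      simp only [dotProduct, mulVec, Matrix.map_apply]
      push_cast
      rfl
    rw [h3] at h2
    exact_mod_cast h2
  have hfin : {p : Nat.Primes | GdP S v M K p ∧ 4 * (v ⬝ᵥ (S *ᵥ v)) * ((p : ℕ) : ℤ) ^ 2 < (M : ℤ) ^ 2}.Finite := by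
    have h1 : Set.Finite ((fun p : Nat.Primes => (p : ℕ)) ⁻¹' (Set.Iic M)) :=
      Set.Finite.preimage (fun a _ b _ h => Subtype.ext h) (Set.finite_Iic M)
    refine h1.subset ?_
    rintro p ⟨-, hp⟩
    change (p : ℕ) ≤ M
    by_contra hc
    push Not at hc
    have h2 : (M : ℤ) < ((p : ℕ) : ℤ) := by exact_mod_cast hc
    nlinarith [h2, hpos0, sq_nonneg ((p : ℕ) : ℤ), Int.natCast_nonneg M]
  obtain ⟨u, hu1, hu2, hu3⟩ := tBr.1 (SO (qS S) ℝ) n ρ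
  obtain ⟨s, hs1, hs2, hs3⟩ := tBr.1 (HH (qS S) (qv v) ℝ) m σ
  obtain ⟨L, hL, hLi⟩ := hP
  obtain ⟨l, hl1, hl2⟩ := tBr.2 n m L
  have hinv : ∀ (x : Hp (qS S) (qv v) ℝ) (a : EuclideanSpace ℂ (Fin n)) (w : EuclideanSpace ℂ (Fin m)),
      l (u.act x.1 a) (s.act x w) = l a w := by
    intro x a w
    rw [hl1, hl1]
    have e1 : (u.act x.1 a).ofLp = ρ.hom (iH (qS S) (qv v) ℝ x) *ᵥ a.ofLp := hu1 x.1 a
    have e2 : (s.act x w).ofLp = σ.hom x *ᵥ w.ofLp := hs1 x w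
    rw [e1, e2]
    exact pair_inv ρ σ (iH (qS S) (qv v) ℝ) L hLi x _ _
  have hb := hV N (qS S) (qv v) K M {p | GdP S v M K p} hfin.toFinset hN hQ hK.1 hK.2 (fun i j => int_Zh (S i j))
    (fun i => int_Zh (v i)) hM
    (fun k hk => by
      choose z hz1 hz2 using hKv k hk
      refine ⟨z, hz1, ?_⟩
      funext i
      exact hz2 i)
    (fun p hp => gd_of S v M K hKi p hp)
    (fun p hp => ((Set.Finite.mem_toFinset hfin).1 hp).1)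
    (fun p hp p' hp' => by
      have h1 := ((Set.Finite.mem_toFinset hfin).1 hp).2
      have h2 := ((Set.Finite.mem_toFinset hfin).1 hp').2
      rw [hq0]
      have h3 : 4 * (((p : ℕ) : ℤ) * ((p' : ℕ) : ℤ)) * (v ⬝ᵥ (S *ᵥ v)) < (M : ℤ) ^ 2 := by
        nlinarith [sq_nonneg (((p : ℕ) : ℤ) - ((p' : ℕ) : ℤ)), hpos0, mul_nonneg hpos0.le (sq_nonneg (((p : ℕ) : ℤ) - ((p' : ℕ) : ℤ)))]
      exact_mod_cast h3)
    (EuclideanSpace ℂ (Fin n)) (EuclideanSpace ℂ (Fin m)) u s l hs2 (hl2 hL) hinv ψ ((autH_iff K σ s hs3 ψ).1 hψ) hne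
  rw [Set.ncard_eq_toFinset_card _ hfin]
  obtain ⟨φ, lam, h2, h3, h4, h5⟩ := hb
  refine ⟨φ, lam, fun j => ⟨(autG_iff K ρ u hu3 (φ j)).2 (h2 j), ?_, ?_, ?_⟩⟩
  · exact (pd_eq K (φ j) ψ).trans_ne (h5 j)
  · intro p hp
    exact (tk_eq K p (φ j)).trans (h3 j p hp)
  · intro i hi
    obtain ⟨p, hp, hne⟩ := h4 i j hi
    exact ⟨p, hp, hne⟩

end Pool.Agent.GP
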