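import Pool.Agent.Lib.GP.Spec3

/-!
# Theorem GPE, module Num: the choice of `X` (helper28)
-/

set_option autoImplicit false

open IsDedekindDomain Matrix MeasureTheory

noncomputable section

namespace Pool.Agent.GP

/-- The choice of `X` for a real number `y ≥ C`. -/
private theorem Num_y (M0 : ℝ) (hM0 : 0 ≤ M0) (X0 k E : ℕ) (hk : 1 ≤ k) (hE : 1 ≤ E) :
    ∃ C η : ℝ, 0 < C ∧ 0 < η ∧ ∀ y : ℝ, C ≤ y → ∃ X : ℕ, X0 ≤ X ∧ 1 ≤ X ∧
      M0 * (X : ℝ) ^ E * (1 / y) ^ (1 / (k : ℝ)) < 1 ∧ (y / C) ^ η ≤ (X : ℝ) ^ (1 / 2 : ℝ) := by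
  have hk0 : (0 : ℝ) < k := by exact_mod_cast hk
  have hE0 : (0 : ℝ) < E := by exact_mod_cast hE
  have hM1 : 0 < M0 + 1 := by linarith
  have hC3 : 0 < (M0 + 1) ^ k := by positivity
  have hX2 : (0 : ℝ) < (X0 : ℝ) + 2 := by positivity
  have hκ : (0 : ℝ) < 1 / (k * E) := by positivity
  refine ⟨(M0 + 1) ^ k * ((X0 : ℝ) + 2) ^ (k * E), 1 / (k * E) * (1 / 2), by positivity, by positivity, ?_⟩
  intro y hy
  have hy0 : 0 < y := lt_of_lt_of_le (by positivity) hy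
  obtain ⟨z, hz⟩ : ∃ z : ℝ, z = (y / (M0 + 1) ^ k) ^ (1 / (k * E : ℝ)) := ⟨_, rfl⟩
  have hq0 : 0 < y / (M0 + 1) ^ k := by positivity
  have hz0 : 0 < z := by rw [hz]; exact Real.rpow_pos_of_pos hq0 _
  have hpw : (((X0 : ℝ) + 2) ^ (k * E)) ^ (1 / (k * E : ℝ)) = (X0 : ℝ) + 2 := by
    rw [← Real.rpow_natCast, ← Real.rpow_mul hX2.le]
    push_cast
    rw [mul_one_div_cancel (by positivity), Real.rpow_one]
  have hz1 : (X0 : ℝ) + 2 ≤ z := by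
    rw [← hpw, hz]
    refine Real.rpow_le_rpow (by positivity) ?_ hκ.le
    rw [le_div_iff₀ hC3, mul_comm]
    exact hy
  have hX1 : ((⌊z⌋₊ : ℕ) : ℝ) ≤ z := Nat.floor_le hz0.le
  have hX3 : X0 + 2 ≤ ⌊z⌋₊ := Nat.le_floor (by push_cast; exact hz1)
  refine ⟨⌊z⌋₊, by omega, by omega, ?_, ?_⟩
  · have h1 : ((⌊z⌋₊ : ℕ) : ℝ) ^ E ≤ z ^ E := pow_le_pow_left₀ (Nat.cast_nonneg _) hX1 E
    have h2 : z ^ E * (1 / y) ^ (1 / (k : ℝ)) = 1 / (M0 + 1) := by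
      rw [hz, ← Real.rpow_natCast, ← Real.rpow_mul hq0.le]
      have e1 : 1 / (k * E : ℝ) * (E : ℝ) = 1 / (k : ℝ) := by
        field_simp
      rw [e1, ← Real.mul_rpow hq0.le (by positivity)]
      have e2 : y / (M0 + 1) ^ k * (1 / y) = (1 / (M0 + 1)) ^ k := by
        rw [div_pow, one_pow]
        field_simp
      rw [e2, ← Real.rpow_natCast, ← Real.rpow_mul (by positivity), mul_one_div_cancel hk0.ne',
        Real.rpow_one]
    have h3 : 0 ≤ (1 / y) ^ (1 / (k : ℝ)) := Real.rpow_nonneg (by positivity) _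
    calc M0 * ((⌊z⌋₊ : ℕ) : ℝ) ^ E * (1 / y) ^ (1 / (k : ℝ))
        ≤ M0 * z ^ E * (1 / y) ^ (1 / (k : ℝ)) := by
          exact mul_le_mul_of_nonneg_right (mul_le_mul_of_nonneg_left h1 hM0) h3
      _ = M0 / (M0 + 1) := by rw [mul_assoc, h2, mul_one_div]
      _ < 1 := by rw [div_lt_one hM1]; linarith
  · rw [Real.rpow_mul (by positivity)]
    refine Real.rpow_le_rpow (Real.rpow_nonneg (by positivity) _) ?_ (by norm_num)
    have e1 : (y / ((M0 + 1) ^ k * ((X0 : ℝ) + 2) ^ (k * E))) ^ (1 / (k * E : ℝ)) = z / ((X0 : ℝ) + 2) := by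
      rw [← div_div, Real.div_rpow hq0.le (by positivity), hpw, ← hz]
    rw [e1, div_le_iff₀ hX2]
    have h4 : z < (⌊z⌋₊ : ℕ) + 1 := Nat.lt_floor_add_one z
    have h5 : (2 : ℝ) ≤ (⌊z⌋₊ : ℕ) := by
      have : 2 ≤ ⌊z⌋₊ := by omega
      exact_mod_cast this
    have h6 : (0 : ℝ) ≤ X0 := Nat.cast_nonneg _
    nlinarith

theorem tNum : S_Num := by
  intro N X0 hH C1 C2 hC2
  obtain ⟨C, η, hC, hη, h⟩ := Num_y ((hH : ℝ) ^ 4 * (C1 : ℝ) ^ (2 * (N * N) + (N + 2)) * C2) (by positivity)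
    X0 (2 * N + 4) (12 * (N * N) + 2 * N + 8) (by omega) (by omega)
  refine ⟨C, η, hC, hη, ?_⟩
  intro d D hd hD
  have hd0 : (0 : ℝ) < d := by exact_mod_cast hd
  have hD0 : (0 : ℝ) < D := lt_of_lt_of_le (by positivity) hD
  obtain ⟨X, hX0, hX1, h1, h2⟩ := h ((D : ℝ) / (d : ℝ) ^ (2 * N + 5)) (by
    rw [le_div_iff₀ (by positivity)]
    exact hD)
  refine ⟨X, hX0, hX1, ?_, ?_⟩
  · refine lt_of_le_of_lt (le_of_eq ?_) h1
    have e1 : (d : ℝ) * ((d : ℝ) / D) ^ (1 / (2 * N + 4 : ℝ)) =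
        (1 / ((D : ℝ) / (d : ℝ) ^ (2 * N + 5))) ^ (1 / (((2 * N + 4 : ℕ)) : ℝ)) := by
      have e2 : 1 / ((D : ℝ) / (d : ℝ) ^ (2 * N + 5)) = (d : ℝ) ^ (2 * N + 4) * ((d : ℝ) / D) := by
        rw [pow_succ (d : ℝ) (2 * N + 4)]
        field_simp
      rw [e2, Real.mul_rpow (by positivity) (by positivity), ← Real.rpow_natCast, ← Real.rpow_mul hd0.le,
        mul_one_div_cancel (by positivity), Real.rpow_one]
      push_cast
      rfl
    rw [e1]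
    push_cast
    ring
  · rw [div_div, mul_comm ((d : ℝ) ^ (2 * N + 5))] at h2
    exact h2

end Pool.Agent.GP
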