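import Pool.Agent.Lib.GP.Base
import Pool.Agent.Lib.GP.Asm2
import Pool.Agent.Lib.GP.Hk1
import Pool.Agent.Lib.GP.HkS
import Pool.Agent.Lib.GP.Eig
import Pool.Agent.Lib.GP.BF2
import Pool.Agent.Lib.GP.Int
import Pool.Agent.Lib.GP.Ind
import Pool.Agent.Lib.GP.LT
import Pool.Agent.Lib.GP.Loc2
import Pool.Agent.Lib.GP.GRb
import Pool.Agent.Lib.GP.Gdx
import Pool.Agent.Lib.GP.Cmp
import Pool.Agent.Lib.GP.Mn
import Pool.Agent.Lib.GP.NbI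
import Pool.Agent.Lib.GP.NbK
import Pool.Agent.Lib.GP.NbF
import Pool.Agent.Lib.GP.Vec
import Pool.Agent.Lib.GP.Rf
import Pool.Agent.Lib.GP.NbE
import Pool.Agent.Lib.GP.Neg
import Pool.Agent.Lib.GP.NoN
import Pool.Agent.Lib.GP.NbH
import Pool.Agent.Lib.GP.DpI
import Pool.Agent.Lib.GP.Cnt
import Pool.Agent.Lib.GP.Pr
import Pool.Agent.Lib.GP.Num

/-!
# The theorem GPE (helper25, team)
-/

set_option autoImplicit false

open IsDedekindDomain Matrix MeasureTheory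

namespace Pool.Agent.GP

/-- **GPE.** -/
theorem gpFull : C_GPE := by
  have hHS := tHS
  have hPhb := tPhb hHS
  have hAD1 : C_AD1 := tAD1
  have hAD2 : C_AD2 := tAD2
  have hAD3 : C_AD3 := tAD3 hAD1
  have hAD5 : C_AD5 := tAD5 hAD1
  have hAD6 : C_AD6 := tAD6
  have hGR1 : C_GR1 := tGR1
  have hGR3 : C_GR3 := tGR3 hAD2 hAD5 hGR1
  have hRed : C_Red := tRed tPrm
  have hHer : C_Her := tHer hRed
  have hCN1 : C_CN1 := tCN1 hRed hHer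
  have hCN2 : C_CN2 := tCN2 hAD1 hAD2 hAD3
  have hCN3 : C_CN3 := tCN3 hAD2 hCN1 hCN2
  have hCN4 : C_CN4 := tCN4 hAD2 hAD3 hAD6 tFinV hCN3
  have hNull : C_Null := tNull (tLA hHS) tExp
  have hMn : C_Mn := tMn
  have hCmp : C_Cmp := tCmp
  have hVec : C_Vec := tVec
  have hRf : C_Rf := tRf
  have hNbI : C_NbI := tNbI hMn
  have hNeg : C_Neg := tNeg hVec hRf hCmp
  exact tGPE tHk1 tHkS tEig (tBF2 tJw) (tInd (tInt hNull)) tLT
    (tLoc2 hPhb (tAv hHS) (tMean hHS) tPsi (tLow tLo1) tUp1 tCov tCir) tGRb (tGdx hAD5 hAD6) hNbI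
    (tNbK hMn hCmp) (tNbF hAD2 hAD3) (tNbE hVec hRf hCmp hMn) (tNoN hNeg hCmp) (tNbH hMn hCmp hNbI) tDpI
    (tCnt hAD1 hAD2 hAD5 hGR1) tPr tNum hGR1 hGR3 hCN4

end Pool.Agent.GP
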