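import Pool.Agent.Lib.GP.Spec

/-!
# Theorem GP, module Jw: the dual of W in V (helper58)
-/

set_option autoImplicit false

open IsDedekindDomain Matrix MeasureTheory
open scoped Real

noncomputable section

namespace Pool.Agent.GP

section

variable {G V W : Type} [Group G] [TopologicalSpace G] [NormedAddCommGroup V] [InnerProductSpace ℂ V]
  [FiniteDimensional ℂ V] [NormedAddCommGroup W] [InnerProductSpace ℂ W] [FiniteDimensional ℂ W]

/-- the vector which represents the functional `v ↦ l v w` -/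
private def jv (l : V →ₗ[ℂ] W →ₗ[ℂ] ℂ) (w : W) : V :=
  haveI : CompleteSpace V := FiniteDimensional.complete ℂ V
  (InnerProductSpace.toDual ℂ V).symm (LinearMap.toContinuousLinearMap (l.flip w))

private theorem jv_inner (l : V →ₗ[ℂ] W →ₗ[ℂ] ℂ) (w : W) (v : V) : inner ℂ (jv l w) v = l v w := by
  have : CompleteSpace V := FiniteDimensional.complete ℂ V
  unfold jv
  rw [InnerProductSpace.toDual_symm_apply]
  rfl

private theorem jv_ext (l : V →ₗ[ℂ] W →ₗ[ℂ] ℂ) (w : W) (z : V) (h : ∀ v : V, inner ℂ z v = l v w) :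
    jv l w = z := by
  refine ext_inner_right ℂ fun v => ?_
  rw [jv_inner, h]

private theorem jv_add (l : V →ₗ[ℂ] W →ₗ[ℂ] ℂ) (w w' : W) : jv l (w + w') = jv l w + jv l w' := by
  refine jv_ext l _ _ fun v => ?_
  rw [inner_add_left, jv_inner, jv_inner, map_add]

private theorem jv_smul (l : V →ₗ[ℂ] W →ₗ[ℂ] ℂ) (c : ℂ) (w : W) :
    jv l (c • w) = (starRingEnd ℂ) c • jv l w := by
  refine jv_ext l _ _ fun v => ?_
  rw [inner_smul_left, jv_inner, map_smul, Complex.conj_conj, smul_eq_mul]

private theorem jv_zero (l : V →ₗ[ℂ] W →ₗ[ℂ] ℂ) : jv l 0 = 0 := by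
  refine jv_ext l _ _ fun v => ?_
  rw [inner_zero_left, map_zero]

private theorem jv_sum {ι : Type*} (l : V →ₗ[ℂ] W →ₗ[ℂ] ℂ) (s : Finset ι) (c : ι → ℂ) (w : ι → W) :
    jv l (∑ i ∈ s, c i • w i) = ∑ i ∈ s, (starRingEnd ℂ) (c i) • jv l (w i) := by
  classical
  induction s using Finset.induction_on with
  | empty => rw [Finset.sum_empty, Finset.sum_empty, jv_zero]
  | insert a s ha ih => rw [Finset.sum_insert ha, Finset.sum_insert ha, jv_add, jv_smul, ih]

variable {H : Subgroup G} {ρ : URep G V} {σ : URep H W} {l : V →ₗ[ℂ] W →ₗ[ℂ] ℂ}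

private theorem jv_act (hl : ∀ (x : H) v w, l (ρ.act x v) (σ.act x w) = l v w) (x : H) (w : W) :
    jv l (σ.act x w) = ρ.act x (jv l w) := by
  refine jv_ext l _ _ fun v => ?_
  have e : v = ρ.act x (ρ.act (x⁻¹ : H) v) := by
    have := congrArg (fun f : V ≃ₗᵢ[ℂ] V => f v) (map_mul ρ.act (x : G) ((x⁻¹ : H) : G))
    rw [← Subgroup.coe_mul, mul_inv_cancel, Subgroup.coe_one, map_one] at this
    exact this
  rw [e, LinearIsometryEquiv.inner_map_map, jv_inner, hl]

/-- the kernel -/
private def kj (l : V →ₗ[ℂ] W →ₗ[ℂ] ℂ) : Submodule ℂ W where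
  carrier := {w | jv l w = 0}
  add_mem' := by
    intro a b ha hb
    rw [Set.mem_setOf_eq] at ha hb ⊢
    rw [jv_add, ha, hb, add_zero]
  zero_mem' := jv_zero l
  smul_mem' := by
    intro c a ha
    rw [Set.mem_setOf_eq] at ha ⊢
    rw [jv_smul, ha, smul_zero]

private theorem jv_inj (hσ : σ.Irr) (h0 : l ≠ 0)
    (hl : ∀ (x : H) v w, l (ρ.act x v) (σ.act x w) = l v w) {w : W} (hw : jv l w = 0) : w = 0 := by
  have h1 : kj l = ⊥ := by
    rcases hσ.2 (kj l) (fun g v hv => by
      have hv' : jv l v = 0 := hv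
      change jv l (σ.act g v) = 0
      rw [jv_act hl, hv', map_zero]) with h | h
    · exact h
    · exfalso
      refine h0 (LinearMap.ext fun v => LinearMap.ext fun w' => ?_)
      have h2 : w' ∈ kj l := by
        rw [h]
        exact Submodule.mem_top
      have h3 : jv l w' = 0 := h2
      rw [← jv_inner, h3, inner_zero_left, LinearMap.zero_apply, LinearMap.zero_apply]
  have h4 : w ∈ kj l := hw
  rw [h1] at h4
  exact (Submodule.mem_bot ℂ).1 h4

end

theorem tJw : S_Jw := by
  intro G V W _ _ _ _ _ _ _ _ H ρ σ l hσ h0 hl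
  classical
  have cV : CompleteSpace V := FiniteDimensional.complete ℂ V
  set bw := Module.finBasis ℂ W with hbw
  set a : Fin (Module.finrank ℂ W) → V := fun k => jv l (bw k) with ha
  have hJ : ∀ w : W, jv l w = ∑ k, (starRingEnd ℂ) (bw.repr w k) • a k := by
    intro w
    conv_lhs => rw [← bw.sum_repr w]
    rw [jv_sum]
  have hli : LinearIndependent ℂ a := by
    rw [Fintype.linearIndependent_iff]
    intro g hg
    have h1 : jv l (∑ k, (starRingEnd ℂ) (g k) • bw k) = 0 := by
      rw [jv_sum, ← hg]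
      refine Finset.sum_congr rfl fun k _ => ?_
      rw [Complex.conj_conj]
    have h2 := jv_inj hσ h0 hl h1
    have h3 := Fintype.linearIndependent_iff.1 bw.linearIndependent _ h2
    intro i
    have h4 := h3 i
    rwa [map_eq_zero] at h4
  set U : Submodule ℂ V := Submodule.span ℂ (Set.range a) with hU
  have haU : ∀ k, a k ∈ U := fun k => Submodule.subset_span ⟨k, rfl⟩
  have hJU : ∀ w : W, jv l w ∈ U := by
    intro w
    rw [hJ]
    exact Submodule.sum_mem _ fun k _ => Submodule.smul_mem _ _ (haU k)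
  have hst : ∀ x ∈ H, ∀ v ∈ U, ρ.act x v ∈ U := by
    intro x hx v hv
    refine Submodule.span_induction (p := fun v _ => ρ.act x v ∈ U) ?_ ?_ ?_ ?_ hv
    · rintro _ ⟨k, rfl⟩
      have := hJU (σ.act ⟨x, hx⟩ (bw k))
      rw [jv_act hl] at this
      exact this
    · rw [map_zero]
      exact U.zero_mem
    · intro v w _ _ h1 h2
      rw [map_add]
      exact U.add_mem h1 h2
    · intro c v _ h1
      rw [map_smul]
      exact U.smul_mem c h1
  have hinv : ∀ (x : G) (v w : V), inner ℂ v (ρ.act x w) = inner ℂ (ρ.act x⁻¹ v) w := by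
    intro x v w
    have e : v = ρ.act x (ρ.act x⁻¹ v) := by
      have := congrArg (fun f : V ≃ₗᵢ[ℂ] V => f v) (map_mul ρ.act x x⁻¹)
      rw [mul_inv_cancel, map_one] at this
      exact this
    conv_lhs => rw [e]
    rw [LinearIsometryEquiv.inner_map_map]
  have hst' : ∀ x ∈ H, ∀ v ∈ Uᗮ, ρ.act x v ∈ Uᗮ := by
    intro x hx v hv
    rw [Submodule.mem_orthogonal] at hv ⊢
    intro u hu
    rw [hinv]
    exact hv _ (hst _ (H.inv_mem hx) u hu)
  have hPa : ∀ v ∈ U, U.starProjection v = v := fun v hv => Submodule.starProjection_eq_self_iff.2 hv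
  refine ⟨U.starProjection.toLinearMap, a, ?_, ?_, ?_, ?_, ?_⟩
  · refine ⟨?_, ?_⟩
    · intro v
      exact hPa _ (Submodule.starProjection_apply_mem U v)
    · intro u v
      exact Submodule.inner_starProjection_left_eq_right U u v
  · intro x hx v
    change U.starProjection (ρ.act x v) = ρ.act x (U.starProjection v)
    refine Submodule.eq_starProjection_of_mem_orthogonal
      (hst x hx _ (Submodule.starProjection_apply_mem U v)) ?_
    rw [← map_sub]
    exact hst' x hx _ (Submodule.sub_starProjection_mem_orthogonal v)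
  · have e : LinearMap.range U.starProjection.toLinearMap = U := Submodule.range_starProjection U
    unfold rk
    rw [e, hU, finrank_span_eq_card hli, Fintype.card_fin]
  · intro k
    exact hPa _ (haU k)
  · intro u w
    have cU : CompleteSpace U := FiniteDimensional.complete ℂ U
    set f : U →ₗ[ℂ] ℂ := (Module.Basis.span hli).constr ℂ (fun k => (starRingEnd ℂ) (inner ℂ u (bw k))) with hf
    set b : U := (InnerProductSpace.toDual ℂ U).symm (LinearMap.toContinuousLinearMap f) with hb
    have hba : ∀ k, inner ℂ (b : V) (a k) = (starRingEnd ℂ) (inner ℂ u (bw k)) := by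
      intro k
      have h1 : inner ℂ b (⟨a k, haU k⟩ : U) = f ⟨a k, haU k⟩ := by
        rw [hb, InnerProductSpace.toDual_symm_apply]
        rfl
      have h2 : (⟨a k, haU k⟩ : U) = Module.Basis.span hli k := (Module.Basis.span_apply hli k).symm
      rw [h2, hf, Module.Basis.constr_basis, ← h2] at h1
      exact h1
    refine ⟨b, fun k => (starRingEnd ℂ) (bw.repr w k), hPa _ b.2, fun x => ?_⟩
    have e1 : inner ℂ (b : V) (jv l (σ.act x w)) = (starRingEnd ℂ) (inner ℂ u (σ.act x w)) := by
      rw [hJ, inner_sum]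
      conv_rhs => rw [← bw.sum_repr (σ.act x w), inner_sum, map_sum]
      refine Finset.sum_congr rfl fun k _ => ?_
      rw [inner_smul_right, hba, inner_smul_right, map_mul]
    rw [← e1, jv_act hl, hJ w, map_sum, inner_sum]
    refine Finset.sum_congr rfl fun k _ => ?_
    rw [map_smul, inner_smul_right]

end Pool.Agent.GP
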