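import Pool.Agent.Lib.GP.Spec4

/-!
# Theorem GPO, module Num2: the constants (helper25)
-/

set_option autoImplicit false

open IsDedekindDomain Matrix MeasureTheory

noncomputable section

namespace Pool.Agent.GP

theorem tNum2 : S_Num2 := by
  intro N hH C1 C2 hC2
  refine ⟨(hH : ℝ) ^ 4 * (C1 : ℝ) ^ (2 * N ^ 2 + N + 2) * C2 + 1, by positivity, ?_⟩
  intro d D X s hd hD hX M hM hs1 hs2
  set q : ℝ := (d : ℝ) * ((d : ℝ) / D) ^ (1 / (2 * N + 4 : ℝ)) with hq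
  have hq0 : 0 ≤ q := by positivity
  set A : ℝ := (hH : ℝ) ^ 4 * (C1 : ℝ) ^ (2 * N ^ 2 + N + 2) * C2 with hA
  have hA0 : 0 ≤ A := by positivity
  have hMr : (M : ℝ) ≤ ((hH : ℝ) * (X * ((X : ℝ) ^ 2) ^ (N * N))) ^ 2 * ((C1 : ℝ) * (X : ℝ) ^ 2) ^ (N * N) := by
    exact_mod_cast hM
  have hM2 : (M : ℝ) ^ 2 ≤ (((hH : ℝ) * (X * ((X : ℝ) ^ 2) ^ (N * N))) ^ 2 * ((C1 : ℝ) * (X : ℝ) ^ 2) ^ (N * N)) ^ 2 :=
    pow_le_pow_left₀ (Nat.cast_nonneg _) hMr 2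
  have hid : (((hH : ℝ) * (X * ((X : ℝ) ^ 2) ^ (N * N))) ^ 2 * ((C1 : ℝ) * (X : ℝ) ^ 2) ^ (N * N)) ^ 2 *
      (C2 * (((C1 : ℝ) * (X : ℝ) ^ 2) ^ (N + 2) * q)) = A * (X : ℝ) ^ (12 * N ^ 2 + 2 * N + 8) * q := by
    rw [hA]
    ring
  have hle : (M : ℝ) ^ 2 * (C2 * (((C1 : ℝ) * (X : ℝ) ^ 2) ^ (N + 2) * q)) ≤ (A + 1) * (X : ℝ) ^ (12 * N ^ 2 + 2 * N + 8) * q := by
    have h1 : (M : ℝ) ^ 2 * (C2 * (((C1 : ℝ) * (X : ℝ) ^ 2) ^ (N + 2) * q)) ≤ A * (X : ℝ) ^ (12 * N ^ 2 + 2 * N + 8) * q := by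
      rw [← hid]
      exact mul_le_mul_of_nonneg_right hM2 (by positivity)
    refine h1.trans ?_
    refine mul_le_mul_of_nonneg_right ?_ hq0
    refine mul_le_mul_of_nonneg_right ?_ (by positivity)
    linarith
  rcases Nat.eq_zero_or_pos s with h0 | h0
  · rw [h0, Nat.cast_zero]
    positivity
  · have h1 := hs2 h0
    set δ : ℝ := (A + 1) * (X : ℝ) ^ (12 * N ^ 2 + 2 * N + 8) * q with hδ
    have h2 : 1 ≤ δ := h1.trans hle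
    have h3 : (s : ℝ) ≤ d * δ := by
      refine hs1.trans ?_
      calc (M : ℝ) ^ 2 * (d * (C2 * (((C1 : ℝ) * (X : ℝ) ^ 2) ^ (N + 2) * q))) =
            d * ((M : ℝ) ^ 2 * (C2 * (((C1 : ℝ) * (X : ℝ) ^ 2) ^ (N + 2) * q))) := by ring
        _ ≤ d * δ := mul_le_mul_of_nonneg_left hle (Nat.cast_nonneg _)
    have h4 : (1 : ℝ) ≤ ⌊δ⌋₊ := by
      have h5 : 1 ≤ ⌊δ⌋₊ := Nat.le_floor (by exact_mod_cast h2)
      exact_mod_cast h5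
    have h5 : δ < ⌊δ⌋₊ + 1 := Nat.lt_floor_add_one δ
    have h6 : δ ≤ 2 * ⌊δ⌋₊ := by linarith
    calc (s : ℝ) ≤ d * δ := h3
      _ ≤ d * (2 * ⌊δ⌋₊) := mul_le_mul_of_nonneg_left h6 (Nat.cast_nonneg _)
      _ = 2 * d * ⌊δ⌋₊ := by ring

end Pool.Agent.GP
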