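import Pool.Agent.Lib.GP.Defs

/-!
# Theorem GP: the modules (author helper25)

MP_6342b0_nt (Gross-Prasad, `SO(n+1) × SO(n)`), hard tier. THEOREM. `V_n ⊂ V_(n+1) = ℚ^N` positive definite, `N = n + 1 ≥ 3`, `K ⊂ G(Af)` compact open with
`-e ∉ K e` (or `-1 ∈ K`, `ρ(-1) = 1`). There is `C` with: for all irreducible `(V, ρ)` of `G(ℝ)`, `(W, σ)` of `H(ℝ)` with `Hom_(H(ℝ))(V ⊗ W, ℂ) ≠ 0` the space of the automorphic forms `φ'` of weight `σ` and level `K ∩ H(Af)`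
on `H` with `Per φ φ' = 0` for all automorphic forms `φ` of weight `ρ`, level `K` on `G` has dimension at most `C (dim W)² (dim W / dim V)^(1/(2N+4))`, and it is `0` if `dim V ≥ C (dim W)^(2N+5)`.

PROOF IN SHORT. `P` = orthogonal projector of `V` on its part `U` isomorphic to the dual of `W` (`Prj`). `Ph ρ P g = ‖P ρ(g) P‖²` (Hilbert-Schmidt). (1) LOCAL ANALYSIS (statements `HS .. Loc`, for an abstract compact group `G` with the structure `Rot`, the stabilizer of the unit vector `e` in the role of `H(ℝ)`):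
`Ph g ≤ C_g d (d/D)^(1/(2N+4))`, `d = dim U`, `D = dim V`, if `g e ≠ ± e`. (2) FORMS (`LA`, `Tst`, `Exp`, `Null`, `BF`): if `a = (a_i)` is orthogonal to all values of vector valued forms at the class representatives `h_i` of `H` then, by testing with the Poincare form built from `a`, `∑ w_i ‖a_i‖²` is minus a finite sum of `⟨P ρ(γ)⁻¹ P a_j, a_i⟩`
with `γ e ≠ ± e`, so the dimension of the space of these `a` is at most a constant times `max Ph(γ)`. (3) ARITHMETIC (`AD1 .. AD6`, `GR1 .. GR3`, `CN1 .. CN3`): adeles, finiteness of the transporters and of the class set.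

RULES: `S_X` is to be proved as `theorem tX : S_X` in `Pool/Agent/Lib/GP/X.lean`, first lines `import Pool.Agent.Lib.GP.Spec`, `set_option autoImplicit false`, the `open` lines of this file, `noncomputable section`, `namespace Pool.Agent.GP`. Auxiliary declarations `private` or with the prefix `X_`. Every `C_X` is a statement, `S_X` the
implication from the statements used to `C_X`. All modules are independent.
-/

set_option autoImplicit false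

open IsDedekindDomain Matrix MeasureTheory
open scoped Real

noncomputable section

namespace Pool.Agent.GP

/-! ## Definitions for the local analysis -/

/-- The Euclidean space. -/
abbrev EE (N : ℕ) : Type := EuclideanSpace ℝ (Fin N)

/-- An action of `G` on the Euclidean space by isometries which contains all rotations; `e` is a unit vector. `c α` is the rotation
by the angle `α` in the plane of `a`, `b`: `a ↦ cos α a + sin α b`, `b ↦ -sin α a + cos α b`. -/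
structure Rot (G : Type) [Group G] [TopologicalSpace G] (N : ℕ) (e : EE N) where
  τ : G →* (EE N ≃ₗᵢ[ℝ] EE N)
  ne : ‖e‖ = 1
  cont : ∀ v : EE N, Continuous fun g => τ g v
  rot : ∀ a b : EE N, ‖a‖ = 1 → ‖b‖ = 1 → inner ℝ a b = (0 : ℝ) → ∃ c : ℝ → G, Continuous c ∧
    ∀ (α : ℝ) (x : EE N), τ (c α) x = x + ((Real.cos α - 1) * inner ℝ a x - Real.sin α * inner ℝ b x) • a +
      ((Real.cos α - 1) * inner ℝ b x + Real.sin α * inner ℝ a x) • b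

/-- `P` is an orthogonal projector. -/
structure Prj {V : Type} [NormedAddCommGroup V] [InnerProductSpace ℂ V] (P : V →ₗ[ℂ] V) : Prop where
  idem : ∀ v, P (P v) = P v
  adj : ∀ u v, inner ℂ (P u) v = inner ℂ u (P v)

/-- The rank of `P`. -/
def rk {V : Type} [NormedAddCommGroup V] [InnerProductSpace ℂ V] (P : V →ₗ[ℂ] V) : ℕ :=
  Module.finrank ℂ (LinearMap.range P)

/-- The square of the Hilbert-Schmidt norm. -/
def hs2 {V : Type} [NormedAddCommGroup V] [InnerProductSpace ℂ V] [FiniteDimensional ℂ V] (A : V →ₗ[ℂ] V) : ℝ :=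
  ∑ i, ‖A (stdOrthonormalBasis ℂ V i)‖ ^ 2

/-- `P ρ(g) P`. -/
def pgp {G V : Type} [Group G] [TopologicalSpace G] [NormedAddCommGroup V] [InnerProductSpace ℂ V]
    (ρ : URep G V) (P : V →ₗ[ℂ] V) (g : G) : V →ₗ[ℂ] V :=
  P ∘ₗ (ρ.act g).toLinearEquiv.toLinearMap ∘ₗ P

/-- `‖P ρ(g) P‖²`. -/
def Ph {G V : Type} [Group G] [TopologicalSpace G] [NormedAddCommGroup V] [InnerProductSpace ℂ V]
    [FiniteDimensional ℂ V] (ρ : URep G V) (P : V →ₗ[ℂ] V) (g : G) : ℝ := hs2 (pgp ρ P g)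

/-! ## Local analysis -/

/-- **HS.** The Hilbert-Schmidt norm. -/
def C_HS : Prop :=
  ∀ (V : Type) [NormedAddCommGroup V] [InnerProductSpace ℂ V] [FiniteDimensional ℂ V],
    (∀ (ι : Type) [Fintype ι] (b : OrthonormalBasis ι ℂ V) (A : V →ₗ[ℂ] V), ∑ i, ‖A (b i)‖ ^ 2 = hs2 A) ∧
    (∀ A B : V →ₗ[ℂ] V, (∀ u v, inner ℂ (A u) v = inner ℂ u (B v)) → hs2 A = hs2 B) ∧
    (∀ (A : V →ₗ[ℂ] V) (u : V ≃ₗᵢ[ℂ] V), hs2 (A ∘ₗ u.toLinearEquiv.toLinearMap) = hs2 A ∧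
      hs2 (u.toLinearEquiv.toLinearMap ∘ₗ A) = hs2 A) ∧
    (∀ (A : V →ₗ[ℂ] V) (v : V), 0 ≤ hs2 A ∧ ‖A v‖ ^ 2 ≤ hs2 A * ‖v‖ ^ 2) ∧
    ∀ P : V →ₗ[ℂ] V, Prj P → hs2 P = rk P ∧ (∀ A : V →ₗ[ℂ] V, hs2 (P ∘ₗ A) ≤ hs2 A ∧ hs2 (A ∘ₗ P) ≤ hs2 A)

/-- (100 lines) **HS.** PROOF. (1), (2): `∑_i ‖A b_i‖² = ∑_i ∑_j |⟨c_j, A b_i⟩|² = ∑_j ∑_i |⟨B c_j, b_i⟩|² = ∑_j ‖B c_j‖²` for orthonormal bases `b, c` (Parseval: `OrthonormalBasis.sum_sq_norm_inner_right` or similar), `B` the adjoint (`LinearMap.adjoint A`): so `∑ ‖A b_i‖²` does not depend on `b` and `hs2 A = hs2 B`.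
(3) `u` maps an orthonormal basis to one (`OrthonormalBasis.map`), and `‖u x‖ = ‖x‖`. (4) `‖A v‖ ≤ ∑_i |⟨b_i, v⟩| ‖A b_i‖`, Cauchy-Schwarz. (5) `‖P x‖ ≤ ‖x‖` (`‖P x‖² = ⟨P x, P x⟩ = ⟨x, P P x⟩ = ⟨x, P x⟩ ≤ ‖x‖ ‖P x‖`): `hs2 (P ∘ A) ≤ hs2 A`; `hs2 (A ∘ P) = hs2 (P ∘ A*) ≤ hs2 A* = hs2 A` by (2).
`hs2 P = rk P`: `‖P b_i‖² = ⟨b_i, P b_i⟩` (real), `∑_i ⟨b_i, P b_i⟩ = trace P` (`LinearMap.trace_eq_sum_inner`), and the trace of a projection is its rank (`LinearMap.IsProj.trace` / `LinearMap.IsIdempotentElem...`), or choose an orthonormal basis adapted to `range P`. -/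
def S_HS : Prop := C_HS

/-- **Phb.** Properties of `Ph`. `S` is a subgroup of `G` which commutes with `P`. -/
def C_Phb : Prop :=
  ∀ (G V : Type) [Group G] [TopologicalSpace G] [IsTopologicalGroup G] [NormedAddCommGroup V]
    [InnerProductSpace ℂ V] [FiniteDimensional ℂ V] (ρ : URep G V) (P : V →ₗ[ℂ] V) (S : Subgroup G), Prj P →
    (∀ h ∈ S, ∀ v, P (ρ.act h v) = ρ.act h (P v)) →
      (∀ g : G, 0 ≤ Ph ρ P g ∧ Ph ρ P g ≤ rk P) ∧ (∀ g : G, ∀ h ∈ S, Ph ρ P (h * g) = Ph ρ P g ∧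
        Ph ρ P (g * h) = Ph ρ P g) ∧ (∀ g : G, Ph ρ P g⁻¹ = Ph ρ P g) ∧ Continuous (Ph ρ P)

/-- (80 lines) **Phb** (from HS). PROOF. `pgp g = P ∘ ρ(g) ∘ P`, `hs2 (P ∘ (ρ(g) ∘ P)) ≤ hs2 (ρ(g) ∘ P) = hs2 P = rk P`. `P ρ(h g) P = ρ(h) P ρ(g) P`, `P ρ(g h) P = P ρ(g) P ρ(h)`: HS (3). `(P ρ(g) P)* = P ρ(g)⁻¹ P` (`⟨ρ(g) u, v⟩ = ⟨u, ρ(g⁻¹) v⟩`): HS (2). Continuity: a finite sum of `‖P (ρ(g) (P b_i))‖²`; `g ↦ ρ(g) v` is continuous, `P` is continuous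
(finite dimension: `LinearMap.continuous_of_finiteDimensional`). -/
def S_Phb : Prop := C_HS → C_Phb

/-- **Av.** Averaging over a circle (Cauchy-Schwarz). -/
def C_Av : Prop :=
  ∀ (G V : Type) [Group G] [TopologicalSpace G] [IsTopologicalGroup G] [NormedAddCommGroup V]
    [InnerProductSpace ℂ V] [FiniteDimensional ℂ V] (ρ : URep G V) (P : V →ₗ[ℂ] V), Prj P →
    ∀ c : ℝ → G, Continuous c → (∀ α v, P (ρ.act (c α) v) = ρ.act (c α) (P v)) → ∀ (g : G) (k : ℝ → ℝ),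
      Continuous k → (∀ α, k (α + 2 * π) = k α) → (∀ α β, Ph ρ P (g⁻¹ * (c α)⁻¹ * c β * g) = k (β - α)) →
        Ph ρ P g ^ 2 ≤ rk P * ((2 * π)⁻¹ * ∫ α in (0 : ℝ)..(2 * π), k α)

/-- (140 lines) **Av** (from HS). PROOF. Let `b` be an orthonormal basis of `V`, `D = dim V`, `𝓗 = PiLp 2 (fun _ : Fin D => V)` (a complete inner product space, `⟨x, y⟩ = ∑_i ⟨x_i, y_i⟩`; `PiLp.inner_apply`), `vec A = (A b_i)_i`, so `⟨vec A, vec B⟩ = ∑_i ⟨A b_i, B b_i⟩ = trace (A* B)` (`LinearMap.trace_eq_sum_inner`). `Q_α = ρ(c α) ρ(g) P ρ(g)⁻¹ ρ(c α)⁻¹`, selfadjoint, idempotent.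
`p = vec P`, `q(α) = vec Q_α` (continuous). (i) `‖p‖² = hs2 P = rk P`. (ii) `⟨p, q(α)⟩ = trace (P Q_α) = trace (P ρ(g) P ρ(g)⁻¹)` (`P` commutes with `ρ(c α)`, the trace is cyclic: `LinearMap.trace_mul_comm`) `= Ph g` (`trace (P ρ P ρ⁻¹) = trace ((P ρ P)(P ρ⁻¹ P)) = trace (A A*)`, `A = P ρ(g) P`, `= hs2 A`).
(iii) `⟨q(α), q(β)⟩ = trace (Q_α Q_β) = trace (P ρ(y) P ρ(y)⁻¹)` with `y = g⁻¹ (c α)⁻¹ c(β) g`, `= Ph y = k(β - α)`. LEMMA (Hilbert space `𝓗`): with `y = ∫_0^(2π) q(α) dα`: `⟨p, y⟩ = ∫ ⟨p, q(α)⟩ = 2π Ph g` (`ContinuousLinearMap.intervalIntegral_comp_comm` for `innerSL ℂ p`), `⟨y, y⟩ = ∫_β ⟨y, q(β)⟩ = ∫_β ∫_α ⟨q(α), q(β)⟩`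
(conjugate for the first variable: `⟨y, q(β)⟩ = conj ⟨q(β), y⟩`) `= ∫_β ∫_α k(β - α) dα dβ = 2π ∫_0^(2π) k` (substitution and periodicity: `intervalIntegral.integral_comp_sub_left`, `Function.Periodic.intervalIntegral_add_eq`). Cauchy-Schwarz: `(2π Ph g)² ≤ ‖p‖² ‖y‖² = rk P * 2π ∫ k`. -/
def S_Av : Prop := C_HS → C_Av

/-- **Mean.** The mean value of `Ph` over the group. -/
def C_Mean : Prop :=
  ∀ (G V : Type) [Group G] [TopologicalSpace G] [IsTopologicalGroup G] [CompactSpace G] [MeasurableSpace G]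
    [BorelSpace G] [NormedAddCommGroup V] [InnerProductSpace ℂ V] [FiniteDimensional ℂ V] (ρ : URep G V)
    (P : V →ₗ[ℂ] V) (μ : Measure G) [IsProbabilityMeasure μ] [μ.IsMulLeftInvariant], ρ.Irr → Prj P →
      ∫ x, Ph ρ P x ∂μ = (rk P : ℝ) ^ 2 / Module.finrank ℂ V

/-- (150 lines) **Mean** (from HS). PROOF. For `v ∈ V` put `T v = ∫ ρ(x) P ρ(x)⁻¹ v dμ(x)` (the integrand is continuous in `x`: `ρ(x) (P (ρ(x⁻¹) v))`; joint continuity: expand `ρ(x⁻¹) v` in a basis, or `(x, v) ↦ ρ(x) v` is continuous because `‖ρ(x) v‖ = ‖v‖`; so it is integrable, `G` compact: `Continuous.integrable_of_hasCompactSupport`).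
`T` is linear, `T ρ(y) v = ρ(y) T v` (left invariance: `integral_mul_left_eq_self` for `x ↦ y x`, and `ρ(y)` commutes with the integral: `ContinuousLinearMap.integral_comp_comm` or `LinearIsometryEquiv.integral_comp_comm`). SCHUR: `T` has an eigenvalue `λ` (`Module.End.exists_eigenvalue`; `V` is nontrivial), its eigenspace is stable, so it is `⊤`: `T = λ`.
`trace T = ∑_i ⟨b_i, T b_i⟩ = ∫ ∑_i ⟨b_i, ρ(x) P ρ(x)⁻¹ b_i⟩ dμ = ∫ trace P dμ = rk P` (trace of a projector: HS: `∑_i ⟨b_i, P b_i⟩ = ∑ ‖P b_i‖² = hs2 P = rk P`, for the basis `ρ(x)⁻¹ b_i`), so `λ = rk P / D`. Finally `Ph x = trace (P ρ(x) P ρ(x)⁻¹) = ∑_i ⟨P b_i, ρ(x) P ρ(x)⁻¹ b_i⟩`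
(`hs2 A = ∑ ‖A* b_i‖² = ∑ ⟨b_i, A A* b_i⟩`, `A = P ρ(x) P`, `A A* = P ρ(x) P ρ(x)⁻¹ P`), and `∫ Ph = ∑_i ⟨P b_i, T P b_i⟩ = λ ∑_i ‖P b_i‖² = λ rk P`. -/
def S_Mean : Prop := C_HS → C_Mean

/-- **Psi.** Functions which are invariant under the stabilizer of `e` on both sides are functions of `⟨g e, e⟩`. -/
def C_Psi : Prop :=
  ∀ (N : ℕ) (G : Type) [Group G] [TopologicalSpace G] [IsTopologicalGroup G] (e : EE N) (R : Rot G N e), 3 ≤ N →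
    ∀ f : G → ℝ, Continuous f → (∀ g h : G, R.τ h e = e → f (h * g) = f g ∧ f (g * h) = f g) →
      ∃ ψ : ℝ → ℝ, Continuous ψ ∧ (∀ s, ∃ y, ψ s = f y) ∧ ∀ x, f x = ψ (inner ℝ (R.τ x e) e)

/-- (130 lines) **Psi.** PROOF. Choose a unit vector `u` with `⟨e, u⟩ = 0` (`N ≥ 2`) and `c` from `R.rot e u`; `τ(c α) e = cos α e + sin α u`. `ψ(s) = f (c (arccos s))`, continuous (`Real.continuous_arccos`). Let `x ∈ G`, `s = ⟨τ x e, e⟩ ∈ [-1, 1]` (Cauchy-Schwarz), `y = c (arccos s)`, so `τ y e = s e + √(1 - s²) u` (`Real.cos_arccos`, `Real.sin_arccos`).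
CLAIM: there is `h` with `τ h e = e`, `τ h (τ y e) = τ x e`. `τ x e = s e + v'`, `⟨v', e⟩ = 0`, `‖v'‖² = 1 - s²`. If `s² = 1`: `v' = 0`, `h = 1`. Otherwise `b = v'/√(1 - s²)` is a unit vector, `⟨b, e⟩ = 0`; we need `h` with `τ h e = e`, `τ h u = b`. If there is a unit vector `w` orthogonal to `e`, `u` and an angle `α` with `b = cos α u + sin α w` then `h = c' α`
with `c'` from `R.rot u w` is as needed (`τ(c' α) e = e` because `⟨u, e⟩ = ⟨w, e⟩ = 0`). Put `p = ⟨b, u⟩`. If `p² ≠ 1`: `w = (b - p u)/√(1 - p²)`, `α = arccos p`. If `p² = 1` then `b = p u`, `p = ± 1`: any unit vector `w` orthogonal to `e, u` (`N ≥ 3`: the orthogonal complement of the span of `e, u` is not `⊥`, by `finrank`), `α = 0` or `π`.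
Then `x⁻¹ h y` fixes `e`: `f x = f (x (x⁻¹ h y)) = f (h y) = f y = ψ(s)`. -/
def S_Psi : Prop := C_Psi

/-- **Lo1.** One variable. -/
def C_Lo1 : Prop :=
  ∀ ψ : ℝ → ℝ, Continuous ψ → (∀ s, 0 ≤ ψ s) → ∀ p q r : ℝ, 0 < r → r ≤ p → p ^ 2 + q ^ 2 ≤ 1 →
    ∫ s in (-r)..r, ψ s ≤ ∫ α in (0 : ℝ)..(2 * π), ψ (Real.cos α * p - Real.sin α * q)

/-- (70 lines) **Lo1.** PROOF. `p = m cos β`, `q = m sin β` with `m = √(p² + q²) ≥ r`, `m ≤ 1` (`Complex.abs`/`arg` of `p + i q`: `Complex.norm_mul_cos_arg`, `Complex.norm_mul_sin_arg`). `cos α p - sin α q = m cos (α + β)`. By periodicity (`Function.Periodic.intervalIntegral_add_eq`) the right side is `∫_0^(2π) ψ(m cos α) dα ≥ ∫_0^π ψ(m cos α) dα` (`ψ ≥ 0`)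
`≥ ∫_0^π ψ(m cos α) m sin α dα = ∫_(-m)^m ψ(s) ds` (`0 ≤ m sin α ≤ 1`; substitution `intervalIntegral.integral_comp_mul_deriv`) `≥ ∫_(-r)^r ψ` (`intervalIntegral.integral_mono_interval`). -/
def S_Lo1 : Prop := C_Lo1

/-- **Low.** The law of `⟨g e, e⟩` under the Haar measure has a density bounded below. -/
def C_Low : Prop :=
  ∀ (N : ℕ) (G : Type) [Group G] [TopologicalSpace G] [IsTopologicalGroup G] [CompactSpace G] [MeasurableSpace G]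
    [BorelSpace G] (e : EE N) (R : Rot G N e) (μ : Measure G) [IsProbabilityMeasure μ] [μ.IsMulLeftInvariant],
    2 ≤ N → ∀ ψ : ℝ → ℝ, Continuous ψ → (∀ s, 0 ≤ ψ s) → ∀ r : ℝ, 0 < r → r < 1 →
      μ.real {x | r ≤ inner ℝ (R.τ x e) e} * (∫ s in (-r)..r, ψ s) ≤ 2 * π * ∫ x, ψ (inner ℝ (R.τ x e) e) ∂μ

/-- (110 lines) **Low** (from Lo1). PROOF. `u` a unit vector orthogonal to `e`, `c` from `R.rot e u`. `F(x) = ψ(⟨x e, e⟩)` is continuous and bounded. For every `α`: `∫ F(c(α) x) dμ = ∫ F dμ` (`integral_mul_left_eq_self`). `⟨c(α) x e, e⟩ = cos α p(x) - sin α q(x)`, `p(x) = ⟨x e, e⟩`, `q(x) = ⟨x e, u⟩` (from the formula of `R.rot`), `p² + q² ≤ 1` (Bessel).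
So `2π ∫ F dμ = ∫_0^(2π) ∫_G ψ(cos α p(x) - sin α q(x)) dμ dα = ∫_G ∫_0^(2π) ψ(cos α p(x) - sin α q(x)) dα dμ` (the integrand is continuous in `(α, x)` and bounded: `intervalIntegral_integral_interchange` or `MeasureTheory.integral_integral_swap`), the inner integral is `≥ 0`, and `≥ ∫_(-r)^r ψ` on the set `{r ≤ p(x)}` (Lo1).
(A measure on `G`: if joint measurability causes trouble note that `(α, x) ↦ (p(x), q(x), α)` is continuous, and `p, q` are measurable, so the integrand is a continuous function of `(α, p(x), q(x))`, measurable for the product `σ`-algebra.) -/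
def S_Low : Prop := C_Lo1 → C_Low

/-- **Up1.** One variable. -/
def C_Up1 : Prop :=
  ∀ (ψ : ℝ → ℝ) (b : ℝ), Continuous ψ → (∀ s, 0 ≤ ψ s ∧ ψ s ≤ b) → ∀ t s η : ℝ, t ^ 2 < 1 → s = 1 - t ^ 2 → 0 < η →
    η ≤ 1 → ∫ α in (0 : ℝ)..(2 * π), ψ (t ^ 2 + s * Real.cos α) ≤
      4 * η * b + π / (s * η) * ∫ x in (-(t ^ 2 + s * Real.cos η))..(t ^ 2 + s * Real.cos η), ψ x

/-- (110 lines) **Up1.** PROOF. By `α ↦ 2π - α` the integral is `2 ∫_0^π`. `∫_0^π = ∫_0^η + ∫_η^(π-η) + ∫_(π-η)^π`, the first and the last are `≤ η b`. On `[η, π - η]`: `sin α ≥ sin η ≥ 2 η/π` (`Real.mul_le_sin`), so `∫_η^(π-η) ψ(t² + s cos α) dα ≤ (s sin η)⁻¹ ∫_η^(π-η) ψ(t² + s cos α) s sin α dα = (s sin η)⁻¹ ∫_(t² - s cos η)^(t² + s cos η) ψ`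
(substitution, `cos (π - η) = -cos η`) `≤ π/(2 s η) ∫_(-(t² + s cos η))^(t² + s cos η) ψ` (`ψ ≥ 0`, `-(t² + s cos η) ≤ t² - s cos η`). Total: `2 (2 η b + π/(2 s η) ∫ ψ)`. -/
def S_Up1 : Prop := C_Up1

/-- **Cov.** The measure of small caps. -/
def C_Cov : Prop :=
  ∀ N : ℕ, 1 ≤ N → ∃ c : ℝ, 0 < c ∧ ∀ (G : Type) [Group G] [TopologicalSpace G] [IsTopologicalGroup G]
    [MeasurableSpace G] [BorelSpace G] (e : EE N) (R : Rot G N e) (μ : Measure G) [IsProbabilityMeasure μ]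
    [μ.IsMulLeftInvariant] (δ : ℝ), 0 < δ → δ ≤ 1 → c * δ ^ N ≤ μ.real {x | ‖R.τ x e - e‖ ≤ δ}

/-- (90 lines) **Cov.** PROOF. `ε = δ/N`. For `x ∈ G` let `κ(x) : Fin N → ℤ`, `κ(x) i = ⌊(τ x e) i / ε⌋`. `|(τ x e) i| ≤ 1`, so `κ(x) i ∈ [-m, m]`, `m = ⌈1/ε⌉ + 1`, at most `M = (2 m + 1)^N ≤ (7 N/δ)^N` values (`1/ε = N/δ ≥ 1`). If `κ(x) = κ(y)` then `|(τ x e - τ y e) i| ≤ ε` for all `i`, so `‖τ x e - τ y e‖ ≤ ∑_i ε = δ` (or `√N ε ≤ δ`), and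
`‖τ (y⁻¹ x) e - e‖ = ‖τ x e - τ y e‖`. So for every value `k` the set `{x | κ(x) = k}` is empty or contained in `y B`, `B = {x | ‖τ x e - e‖ ≤ δ}`, for any `y` in it, and `μ(y B) = μ(B)` (`measure_preimage_mul` for `y⁻¹`). `G` is the union of these sets: `1 ≤ M μ(B)` (`measure_biUnion_finset_le` or the sum over `Fintype.piFinset`). `c = (7 N)^(-N)`. -/
def S_Cov : Prop := C_Cov

/-- **Cir.** The circle for `Av`. -/
def C_Cir : Prop :=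
  ∀ (N : ℕ) (G : Type) [Group G] [TopologicalSpace G] (e : EE N) (R : Rot G N e), 3 ≤ N →
    ∀ (g : G) (t : ℝ), t = inner ℝ (R.τ g e) e → t ^ 2 < 1 → ∃ c : ℝ → G, Continuous c ∧ (∀ α, R.τ (c α) e = e) ∧
      ∀ α β, inner ℝ (R.τ (g⁻¹ * (c α)⁻¹ * c β * g) e) e = t ^ 2 + (1 - t ^ 2) * Real.cos (β - α)

/-- (80 lines) **Cir.** PROOF. `v = (g e - t e)/√(1 - t²)`: a unit vector orthogonal to `e`; `w` a unit vector orthogonal to `e` and `v` (`N ≥ 3`: the orthogonal complement of the span of `e, v` is not `⊥`). `c` from `R.rot v w`: `c(α) e = e` (`⟨v, e⟩ = ⟨w, e⟩ = 0`), `c(α) g e = t e + √(1 - t²) (cos α v + sin α w)`.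
`⟨g⁻¹ c(α)⁻¹ c(β) g e, e⟩ = ⟨c(β) g e, c(α) g e⟩` (isometries: `τ (x⁻¹)` is the inverse of `τ x`) `= t² + (1 - t²)(cos α cos β + sin α sin β)`. -/
def S_Cir : Prop := C_Cir

/-- **Loc.** The local estimate. -/
def C_Loc : Prop :=
  ∀ (N : ℕ) (G : Type) [Group G] [TopologicalSpace G] [IsTopologicalGroup G] [CompactSpace G] (e : EE N)
    (R : Rot G N e), 3 ≤ N → ∀ g : G, R.τ g e ≠ e → R.τ g e ≠ -e → ∃ C : ℝ, 0 < C ∧
      ∀ (V : Type) [NormedAddCommGroup V] [InnerProductSpace ℂ V] [FiniteDimensional ℂ V] (ρ : URep G V)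
        (P : V →ₗ[ℂ] V), ρ.Irr → Prj P → (∀ h : G, R.τ h e = e → ∀ v, P (ρ.act h v) = ρ.act h (P v)) →
          Ph ρ P g ≤ C * (rk P * ((rk P : ℝ) / Module.finrank ℂ V) ^ (1 / (2 * N + 4 : ℝ)))

/-- (150 lines) **Loc** (from Phb, Av, Mean, Psi, Low, Up1, Cov, Cir). PROOF. `MeasurableSpace G := borel G`, `μ` the Haar probability measure (`Measure.haar` of the compact group, normalised, or `haarMeasure ⊤`; it is left invariant; if `G` is not Hausdorff or a class is missing use `haarMeasure ⊤`: `PositiveCompacts` has `⊤` for compact nonempty `G`).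
`t = ⟨g e, e⟩`, `t² < 1` (equality in Cauchy-Schwarz: `inner_eq_one_iff_of_norm_one`, `inner_eq_neg_one_iff..`, so `g e = ± e` otherwise), `s = 1 - t²`. `d = rk P`, `D = finrank V > 0`, `d ≤ D`; if `d = 0` then `Ph = 0` (Phb (1)). `x = d/D ∈ (0, 1]`. Psi for `f = Ph ρ P` (Phb (2), (4), the subgroup of the `h` with `τ h e = e`): `ψ`, `0 ≤ ψ ≤ d`. Cir: `c`; `k(α) = ψ(t² + s cos α)`.
Av: `Ph(g)² ≤ d (2π)⁻¹ ∫_0^(2π) ψ(t² + s cos α) dα`. Up1 (`b = d`) for `η ∈ (0, 1]`, `r = t² + s cos η`: `0 < r < 1` (`cos η > 0`, `< 1`). Low: `∫_(-r)^r ψ ≤ 2π (∫ Ph dμ)/μ(B_r)`, `B_r = {r ≤ ⟨x e, e⟩}`, `∫ Ph dμ = d²/D = d x` (Mean). `1 - r = s (1 - cos η) ≥ s η²/5` (`Real.cos_le_one_sub_mul_cos_sq` or `Real.cos_quadratic_upper_bound` or `Real.cos_bound`), so with `δ = √(2 s/5) η ≤ 1`: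
`‖x e - e‖ ≤ δ` gives `⟨x e, e⟩ = 1 - ‖x e - e‖²/2 ≥ 1 - δ²/2 ≥ r`: `μ(B_r) ≥ c0 δ^N` (Cov). So `Ph(g)² ≤ d² (2 η/π + C1 x η^(-N-1))` with `C1` depending on `N, s`. `η = x^(1/(N+2))` (real power): `x η^(-N-1) = η`: `Ph(g)² ≤ d² (1 + C1) x^(1/(N+2))`; the square root: `x^(1/(2N+4))`, `C = √(1 + C1)`. -/
def S_Loc : Prop := C_Phb → C_Av → C_Mean → C_Psi → C_Low → C_Up1 → C_Cov → C_Cir → C_Loc

/-! ## Forms -/

/-- **LA.** Linear algebra. -/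
def C_LA : Prop :=
  ∀ (V : Type) [NormedAddCommGroup V] [InnerProductSpace ℂ V] [FiniteDimensional ℂ V] (ι κ : Type) [Fintype ι]
    [Fintype κ] (A : Submodule ℂ (PiLp 2 fun _ : ι => V)) (p q : κ → ι) (D : κ → V →ₗ[ℂ] V) (c : κ → ℝ) (β : ℝ),
    (∀ t, 0 ≤ c t ∧ c t ≤ 1) → (∀ t, hs2 (D t) ≤ β) →
    (∀ a ∈ A, ((‖a‖ ^ 2 : ℝ) : ℂ) + ∑ t, (c t : ℂ) * inner ℂ (D t (a (q t))) (a (p t)) = 0) →
      (Module.finrank ℂ A : ℝ) ≤ (Fintype.card κ : ℝ) ^ 2 * β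

/-- (110 lines) **LA** (from HS). PROOF. `b_1, .., b_r` an orthonormal basis of `A` (`stdOrthonormalBasis ℂ A`, `r = finrank A`). Sum of the identities: `r + ∑_t c_t ∑_k ⟨D_t b_k(q), b_k(p)⟩ = 0`, so `r ≤ ∑_t |∑_k ⟨D_t b_k(q), b_k(p)⟩| ≤ ∑_t (∑_k ‖D_t b_k(q)‖²)^(1/2) (∑_k ‖b_k(p)‖²)^(1/2)`. `∑_k ‖b_k(p)‖² ≤ ∑_k ‖b_k‖² = r`.
`∑_k ‖D b_k(q)‖² ≤ hs2 D`: let `v_i` be an orthonormal basis of `V`, `D*` the adjoint: `∑_k ‖D b_k(q)‖² = ∑_k ∑_i |⟨v_i, D b_k(q)⟩|² = ∑_i ∑_k |⟨D* v_i, b_k(q)⟩|²`, and for `v ∈ V`: `⟨v, b_k(q)⟩ = ⟨v~, b_k⟩` with the vector `v~` of `PiLp` which is `v` at `q` and `0` elsewhere (`PiLp.single`/`WithLp.toLp 2 (Pi.single q v)`), so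
`∑_k |⟨v, b_k(q)⟩|² ≤ ‖v~‖² = ‖v‖²` (Bessel: `Orthonormal.sum_inner_products_le`), total `≤ ∑_i ‖D* v_i‖² = hs2 D* = hs2 D` (HS (1), (2)). So `r ≤ card κ √β √r`; if `r > 0` square and divide by `r`. -/
def S_LA : Prop := C_HS → C_LA

section forms

variable {Γ G Gf : Type} [Group Γ] [Group G] [TopologicalSpace G] [Group Gf]
  {V : Type} [NormedAddCommGroup V] [InnerProductSpace ℂ V] {ι : Type}

/-- The data: finite transporters, inequivalent points `h i`. -/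
structure FD (jf : Γ →* Gf) (K : Subgroup Gf) (Γ1 : Subgroup Γ) (h : ι → Gf) : Prop where
  fin : ∀ g g' : Gf, (tr jf K g g').Finite
  ineq : ∀ i j, ∀ γ ∈ Γ1, γ ∈ tr jf K (h i) (h j) → i = j

/-- The weight of `h i`. -/
def wt (jf : Γ →* Gf) (K : Subgroup Gf) (Γ1 : Subgroup Γ) (h : ι → Gf) (i : ι) : ℝ :=
  ((st Γ1 jf K (h i) : ℕ) : ℝ)⁻¹

/-- The invariant vectors in the image of `P`. -/
def Inv1 (ja : Γ →* G) (jf : Γ →* Gf) (K : Subgroup Gf) (Γ1 : Subgroup Γ) (h : ι → Gf) (ρ : URep G V)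
    (P : V →ₗ[ℂ] V) : Submodule ℂ (ι → V) where
  carrier := {a | ∀ i, P (a i) = a i ∧ ∀ γ ∈ Γ1, γ ∈ tr jf K (h i) (h i) → ρ.act (ja γ) (a i) = a i}
  add_mem' := by
    intro a b ha hb i
    refine ⟨by simp only [Pi.add_apply, map_add, (ha i).1, (hb i).1], fun γ hγ hg => ?_⟩
    simp only [Pi.add_apply, map_add, (ha i).2 γ hγ hg, (hb i).2 γ hγ hg]
  zero_mem' := fun i => ⟨by simp only [Pi.zero_apply, map_zero], fun γ _ _ => by simp only [Pi.zero_apply, map_zero]⟩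
  smul_mem' := by
    intro c a ha i
    refine ⟨by simp only [Pi.smul_apply, map_smul, (ha i).1], fun γ hγ hg => ?_⟩
    simp only [Pi.smul_apply, map_smul, (ha i).2 γ hγ hg]

/-- The vectors of `Inv1` which are orthogonal to all forms. -/
def Nul (ja : Γ →* G) (jf : Γ →* Gf) (K : Subgroup Gf) (Γ1 : Subgroup Γ) (h : ι → Gf) (ρ : URep G V)
    (P : V →ₗ[ℂ] V) [Fintype ι] : Submodule ℂ (ι → V) where
  carrier := {a | a ∈ Inv1 ja jf K Γ1 h ρ P ∧ ∀ f ∈ MV ja jf K ρ,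
    ∑ i, (wt jf K Γ1 h i : ℂ) * inner ℂ (f (h i)) (a i) = 0}
  add_mem' := by
    rintro a b ⟨h1, h2⟩ ⟨h3, h4⟩
    refine ⟨Submodule.add_mem _ h1 h3, fun f hf => ?_⟩
    simp only [Pi.add_apply, inner_add_right, mul_add, Finset.sum_add_distrib, h2 f hf, h4 f hf, add_zero]
  zero_mem' := ⟨Submodule.zero_mem _, fun f _ => by simp⟩
  smul_mem' := by
    rintro c a ⟨h1, h2⟩
    refine ⟨Submodule.smul_mem _ c h1, fun f hf => ?_⟩
    have e : ∑ i, (wt jf K Γ1 h i : ℂ) * inner ℂ (f (h i)) ((c • a) i) =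
        c * ∑ i, (wt jf K Γ1 h i : ℂ) * inner ℂ (f (h i)) (a i) := by
      rw [Finset.mul_sum]
      refine Finset.sum_congr rfl fun i _ => ?_
      rw [Pi.smul_apply, inner_smul_right]
      ring
    rw [e, h2 f hf, mul_zero]

open Classical in
/-- The elements of the transporter which are not in `Γ1`. -/
def bad {jf : Γ →* Gf} {K : Subgroup Gf} {Γ1 : Subgroup Γ} {h : ι → Gf} (hd : FD jf K Γ1 h) (i j : ι) :
    Finset Γ := (hd.fin (h i) (h j)).toFinset.filter fun γ => γ ∉ Γ1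

end forms

/-- **Exp.** The Poincare form of `a` and its product with `a`. -/
def C_Exp : Prop :=
  ∀ (Γ G Gf V ι : Type) [Group Γ] [Group G] [TopologicalSpace G] [Group Gf] [NormedAddCommGroup V]
    [InnerProductSpace ℂ V] [Fintype ι] (ja : Γ →* G) (jf : Γ →* Gf) (K : Subgroup Gf) (Γ1 : Subgroup Γ)
    (h : ι → Gf) (ρ : URep G V) (P : V →ₗ[ℂ] V) (hd : FD jf K Γ1 h), Prj P →
    ∀ a ∈ Inv1 ja jf K Γ1 h ρ P, ∃ f ∈ MV ja jf K ρ,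
      ∑ i, (wt jf K Γ1 h i : ℂ) * inner ℂ (f (h i)) (a i) =
        ((∑ i, wt jf K Γ1 h i * ‖a i‖ ^ 2 : ℝ) : ℂ) + ∑ i, ∑ j, ∑ γ ∈ bad hd i j,
          ((wt jf K Γ1 h i * wt jf K Γ1 h j : ℝ) : ℂ) * inner ℂ (pgp ρ P (ja γ)⁻¹ (a j)) (a i)

/-- (140 lines) **Exp.** PROOF. `f(g) = ∑_j w_j ∑_(γ ∈ tr g (h j)) ρ(ja γ)⁻¹ a_j` (finite sums: `hd.fin`; `w_j` real). `f ∈ MV`: `tr (jf δ g k) (h j) = {γ | γ δ ∈ tr g (h j)}` (`γ jf δ g k ∈ h_j K` iff `(γ δ) g ∈ h_j K`), substitute `γ' = γ δ`: `ρ(γ)⁻¹ = ρ(δ) ρ(γ')⁻¹` (`Finset.sum_bij` or `Finset.sum_nbij'` with `γ ↦ γ δ`, inverse `γ' ↦ γ' δ⁻¹`).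
`∑_i w_i ⟨f(h_i), a_i⟩ = ∑_(i, j) w_i w_j ∑_(γ ∈ tr (h i) (h j)) ⟨ρ(γ)⁻¹ a_j, a_i⟩`. Split each sum in `γ ∈ Γ1` and `bad`. `γ ∈ Γ1`: `i = j` (`hd.ineq`), `ρ(γ) a_i = a_i`, so the term is `‖a_i‖²`, and there are `st Γ1 jf K (h i)` such `γ` (`Nat.card` of the subtype = card of the filtered finset), so their sum is `w_i w_i (st) ‖a_i‖² = w_i ‖a_i‖²` (`st > 0`: `γ = 1`).
`γ ∈ bad`: `⟨ρ(γ)⁻¹ a_j, a_i⟩ = ⟨ρ(γ)⁻¹ P a_j, P a_i⟩ = ⟨P ρ(γ)⁻¹ P a_j, a_i⟩` (`P a = a`, `Prj.adj`). -/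
def S_Exp : Prop := C_Exp

/-- **Null.** The dimension of the null space. -/
def C_Null : Prop :=
  ∀ (Γ G Gf V ι : Type) [Group Γ] [Group G] [TopologicalSpace G] [Group Gf] [NormedAddCommGroup V]
    [InnerProductSpace ℂ V] [FiniteDimensional ℂ V] [Fintype ι] (ja : Γ →* G) (jf : Γ →* Gf) (K : Subgroup Gf)
    (Γ1 : Subgroup Γ) (h : ι → Gf) (ρ : URep G V) (P : V →ₗ[ℂ] V) (hd : FD jf K Γ1 h) (β : ℝ), Prj P →
    (∀ i j, ∀ γ ∈ bad hd i j, Ph ρ P (ja γ)⁻¹ ≤ β) →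
      (Module.finrank ℂ (Nul ja jf K Γ1 h ρ P) : ℝ) ≤ ((∑ i, ∑ j, (bad hd i j).card : ℕ) : ℝ) ^ 2 * β

/-- (100 lines) **Null** (from LA, Exp). PROOF. `κ` = the type of the triples `(i, j, γ)`, `γ ∈ bad hd i j` (`Σ i, Σ j, bad hd i j` or a `Finset.sigma` coerced to a type), its card is `∑ i, ∑ j, (bad hd i j).card`. The linear map `a ↦ (√w_i a_i)_i` from `ι → V` to `PiLp 2` is injective (`w_i > 0`: `st ≥ 1` as `1` is in the stabilizer, and it is finite by `hd.fin`),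
`A` the image of `Nul` (`Submodule.map`; same `finrank`). For `a ∈ Nul`: Exp and the definition of `Nul`: `0 = ∑ w_i ‖a_i‖² + ∑_(i, j, γ) w_i w_j ⟨pgp(γ⁻¹) a_j, a_i⟩`; with `a'_i = √w_i a_i`: `‖a'‖² = ∑ w_i ‖a_i‖²`, `w_i w_j ⟨D a_j, a_i⟩ = √(w_i w_j) ⟨D a'_j, a'_i⟩`. LA with `c = √(w_i w_j) ≤ 1` (`w ≤ 1`), `D = pgp ρ P (ja γ)⁻¹`, `hs2 D = Ph ≤ β`. -/
def S_Null : Prop := C_LA → C_Exp → C_Null

/-- **BF.** From scalar automorphic forms of `H` to vectors of `V`. `KH'` is the level of the forms on `H`; the points `h i * y i` of `Gf`. -/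
def C_BF : Prop :=
  ∀ (Γ G Gf V W ι : Type) [Group Γ] [Group G] [TopologicalSpace G] [IsTopologicalGroup G] [Group Gf]
    [NormedAddCommGroup V] [InnerProductSpace ℂ V] [FiniteDimensional ℂ V] [NormedAddCommGroup W]
    [InnerProductSpace ℂ W] [FiniteDimensional ℂ W] (ja : Γ →* G) (jf : Γ →* Gf) (K : Subgroup Gf)
    (ΓH : Subgroup Γ) (H : Subgroup G) (Hf : Subgroup Gf) (jaH : ΓH →* H) (jfH : ΓH →* Hf) (KH' : Subgroup Hf)
    [CompactSpace H] [MeasurableSpace H] [BorelSpace H] (μ : Measure H) [IsProbabilityMeasure μ]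
    [μ.IsMulLeftInvariant] [μ.IsOpenPosMeasure] (ρ : URep G V) (σ : URep H W) (h : ι → Hf) (y : ι → Gf)
    (l : V →ₗ[ℂ] W →ₗ[ℂ] ℂ),
    (∀ γ, (jaH γ : G) = ja γ) → (∀ γ, (jfH γ : Gf) = jf γ) →
    (∀ i, ∀ k : Hf, (y i)⁻¹ * (k : Gf) * y i ∈ K → k ∈ KH') → σ.Irr → l ≠ 0 →
    (∀ (x : H) v w, l (ρ.act x v) (σ.act x w) = l v w) →
    ∃ P : V →ₗ[ℂ] V, Prj P ∧ (∀ x ∈ H, ∀ v, P (ρ.act x v) = ρ.act x (P v)) ∧ rk P = Module.finrank ℂ W ∧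
      ∃ Θ : AF jaH jfH KH' σ →ₗ[ℂ] (Fin (Module.finrank ℂ W) → ι → V),
        (∀ φ' k i, P (Θ φ' k i) = Θ φ' k i) ∧
        (∀ φ' k i, ∀ γ ∈ ΓH, γ ∈ tr jf K ((h i : Gf) * y i) ((h i : Gf) * y i) →
          ρ.act (ja γ) (Θ φ' k i) = Θ φ' k i) ∧
        (∀ f ∈ MV ja jf K ρ, ∀ k, ∃ φ ∈ AF ja jf K ρ, ∀ φ' i,
          ∫ x, φ x ((h i : Gf) * y i) * φ'.1 x (h i) ∂μ = inner ℂ (f ((h i : Gf) * y i)) (Θ φ' k i)) ∧
        ∀ ι1 : Set ι, (∀ g : Hf, ∃ i ∈ ι1, ∃ γ : ΓH, ∃ k ∈ KH', g = jfH γ * h i * k) →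
          ∀ φ', (∀ k, ∀ i ∈ ι1, Θ φ' k i = 0) → φ' = 0

/-- The dual of `W` in `V`: a conjugate linear equivariant injection. -/
def C_Jw : Prop :=
  ∀ (G V W : Type) [Group G] [TopologicalSpace G] [NormedAddCommGroup V] [InnerProductSpace ℂ V]
    [FiniteDimensional ℂ V] [NormedAddCommGroup W] [InnerProductSpace ℂ W] [FiniteDimensional ℂ W]
    (H : Subgroup G) (ρ : URep G V) (σ : URep H W) (l : V →ₗ[ℂ] W →ₗ[ℂ] ℂ), σ.Irr → l ≠ 0 →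
    (∀ (x : H) v w, l (ρ.act x v) (σ.act x w) = l v w) →
    ∃ (P : V →ₗ[ℂ] V) (a : Fin (Module.finrank ℂ W) → V), Prj P ∧ (∀ x ∈ H, ∀ v, P (ρ.act x v) = ρ.act x (P v)) ∧
      rk P = Module.finrank ℂ W ∧ (∀ k, P (a k) = a k) ∧
      ∀ u w : W, ∃ (b : V) (c : Fin (Module.finrank ℂ W) → ℂ), P b = b ∧ ∀ x : H,
        (starRingEnd ℂ) (inner ℂ u (σ.act x w)) = ∑ k, c k * inner ℂ b (ρ.act x (a k))

/-- (150 lines) **Jw.** PROOF. For `w ∈ W` the functional `v ↦ l v w` is `v ↦ ⟨J w, v⟩` for a unique `J w ∈ V` (`InnerProductSpace.toDual`, Riesz; finite dimension); `J` is conjugate linear: `J (c w) = conj c (J w)`. Equivariance: `⟨J σ(x) w, v⟩ = l v (σ(x) w) = l (ρ(x⁻¹) v) w = ⟨J w, ρ(x)⁻¹ v⟩ = ⟨ρ(x) J w, v⟩`, so `J σ(x) w = ρ(x) J w`.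
The set `{w | J w = 0}` is a `σ`-stable submodule, not `⊤` (`l ≠ 0`), so `⊥`: `J` is injective. `U` = the set of the `J w`, a submodule of `V` (`c (J w) = J (conj c w)`), `ρ(x) U = U` for `x ∈ H`. `P` = the orthogonal projector on `U` (`Submodule.starProjection` or `Submodule.orthogonalProjection`), commutes with `ρ(x)`, `x ∈ H` (`ρ(x)` preserves `U` and its orthogonal complement).
`a k = J w_k`, `w_k` a basis of `W`; the `a k` are a basis of `U` (conjugate linear bijection `W → U`), so `rk P = dim W`. Last claim: `w = ∑ c'_k w_k`, `J w = ∑ conj c'_k a_k`. On `U` the functional `J w' ↦ conj ⟨u, w'⟩` is linear and well defined: it is `⟨b, ·⟩` for a `b ∈ U` (Riesz on `U`). So `conj ⟨u, σ(x) w⟩ = ⟨b, J σ(x) w⟩ = ⟨b, ρ(x) J w⟩ = ∑_k conj c'_k ⟨b, ρ(x) a_k⟩`. -/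
def S_Jw : Prop := C_Jw

/-- (150 lines) **BF** (from Jw). PROOF. `P`, `a` from Jw. `Θ φ' k i = ∫ φ'(x, h_i) ρ(x) a_k dμ(x)` (`x ∈ H`; `x ↦ φ'(x, g)` is continuous: a finite linear combination of matrix coefficients; so the integrand is continuous on the compact group `H`, integrable; linear in `φ'`). (a) `P` commutes with the integral and with `ρ(x)`, `P a_k = a_k`.
(b) `γ ∈ ΓH`, `jf γ h_i y_i = h_i y_i k''` with `k'' ∈ K`, so `k = h_i⁻¹ γ h_i ∈ Hf` has `y_i⁻¹ k y_i = k'' ∈ K`: `k ∈ KH'`, `γ h_i = h_i k`: `φ'(x, h_i) = φ'(γ x, γ h_i k⁻¹) = φ'(γ x, h_i)` (the invariance with `k⁻¹`), so `ρ(γ) ∫ φ'(x, h_i) ρ(x) a = ∫ φ'(γ x, h_i) ρ(γ x) a dμ = ∫ φ'(x, h_i) ρ(x) a` (left invariance).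
(c) `φ(x, g) = ⟨f(g), ρ(x) a_k⟩` is in `AF` (`⟨ρ(γ) f(g), ρ(γ) ρ(x) a_k⟩`), and `∫ φ(x, h_i y_i) φ'(x, h_i) dμ = ∫ ⟨f(h_i y_i), φ'(x, h_i) ρ(x) a_k⟩ = ⟨f(h_i y_i), Θ⟩`.
(d) `Θ φ' k i = 0` for all `k`. Then `conj φ'(x, h_i)` is a finite combination of functions `⟨b, ρ(x) a_k⟩` (Jw, last item, `coef` is a span), so `∫ |φ'(x, h_i)|² dμ = ∑ (coefficients) ⟨b, ∫ φ'(x, h_i) ρ(x) a_k⟩ = 0`, and `φ'(·, h_i) = 0` (continuous, `μ` positive on open sets: `Continuous.integral_pos_of_hasCompactSupport_nonneg_nonzero` or `integral_eq_zero_iff_of_nonneg` and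
`Continuous.ae_eq_iff_eq`). For `g = γ h_i k`: `φ'(x, g) = φ'(γ⁻¹ x, h_i) = 0`. -/
def S_BF : Prop := C_Jw → C_BF

end Pool.Agent.GP
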