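import Pool.Agent.Lib.GP.Defs2

/-!
# Theorem GP, second part (Hecke eigenforms): the modules (author helper25)

MP_6342b0_nt, hard tier. THEOREM (`C_GPE` below). Setting as in `C_GP`. There are `p0`, `C`, `η > 0` (depending on `Q, e, K`) such that for `D = dim V ≥ C (dim W)^(2N+5)` every automorphic form `φ' ≠ 0` on `H` (weight `W`, level `K ∩ H(Af)`) has at least `(D / (C (dim W)^(2N+5)))^η` partners: automorphic forms `φ_j` on `G` of weight `V`, level `K`, eigenforms of all Hecke operators `Tp`, `p > p0`,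
with pairwise different systems of eigenvalues, and `Per φ_j φ' ≠ 0`. So the number of the representations `π_(n+1)` of level `K` and weight `V` with non-vanishing period against a given `π_n` is at least a power of `dim V`.

PROOF. As for `C_GP`, with the points `h y`, `h ∈ H(Af)`, `y ∈ Nb p`, `p` in the set `PP` of the primes in `(p0, X]`, `X` = a small power of `D / (dim W)^(2N+5)`: by Null there is, for every prescription of invariant values, a form `f` with `P f = ` prescribed at the points (Int, Ind). So for each `p1 ∈ PP` there is `f` with `P f(h y) = F(h)` for `y ∈ Nb p1` of depth one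
(`y⁻¹ e` not integral) and `0` at all the other points (this is consistent: NbH). Then `L(Tp f) = 0` for `p ≠ p1` and `L(T_(p1) f) ≠ 0` for `L(f) = Per(φ_f, φ')` (LT): the functionals `L ∘ Tp`, `p ∈ PP`, are linearly independent, so at least `|PP|` different systems of eigenvalues occur in the eigenforms `f` with `L(f) ≠ 0` (Eig).

RULES: `S_X` is to be proved as `theorem tX : S_X` in `Pool/Agent/Lib/GP/X.lean`, first lines `import Pool.Agent.Lib.GP.Spec2`, `set_option autoImplicit false`, the `open` lines of this file, `noncomputable section`, `namespace Pool.Agent.GP`. Auxiliary declarations `private` or with the prefix `X_`. All modules are independent: `S_X` is the implication from the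
statements used to `C_X`; all statements `C_HS .. C_CN4` of Spec and SpecA are proved (`tHS .. tCN4`, see `Pool/Agent/Results/MP_6342b0_nt`), they are hypotheses here where they are used.
-/

set_option autoImplicit false

open IsDedekindDomain Matrix MeasureTheory

noncomputable section

namespace Pool.Agent.GP

/-! ## Abstract part -/

/-- The cosets `y K` of the elements of a set `𝒴`. -/
def cs {Gf : Type} [Group Gf] (K : Subgroup Gf) (𝒴 : Set Gf) : Set (Gf ⧸ K) := {c | ∃ y ∈ 𝒴, c = (y : Gf ⧸ K)}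

/-- `K 𝒴 ⊂ 𝒴 K`. -/
def KS {Gf : Type} [Group Gf] (K : Subgroup Gf) (𝒴 : Set Gf) : Prop :=
  ∀ k ∈ K, ∀ y ∈ 𝒴, ∃ y' ∈ 𝒴, ∃ k' ∈ K, k * y = y' * k'

/-- `∫ φ'(x, g) ρ(x) a dx` over `H`. -/
def FF {G Gf V : Type} [Group G] [TopologicalSpace G] [NormedAddCommGroup V] [InnerProductSpace ℂ V]
    {H : Subgroup G} [MeasurableSpace H] (μ : Measure H) (ρ : URep G V) (φ' : H → Gf → ℂ) (a : V) (g : Gf) : V :=
  ∫ x, φ' x g • ρ.act x a ∂μ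

/-- **Hk1.** Elementary properties of the Hecke operators. -/
def C_Hk1 : Prop :=
  ∀ (Gf : Type) [Group Gf] (K : Subgroup Gf),
    (∀ (E : Type) [AddCommGroup E] [Module ℂ E] (𝒴 : Set Gf) (f : Gf → E), (cs K 𝒴).Finite → KS K 𝒴 →
      (∀ g, ∀ k ∈ K, f (g * k) = f g) →
      (∀ g, ∀ k ∈ K, Hk K (cs K 𝒴) f (g * k) = Hk K (cs K 𝒴) f g) ∧
      (∀ (𝒵 : Set Gf), (cs K 𝒵).Finite → KS K 𝒵 → (∀ y ∈ 𝒴, ∀ z ∈ 𝒵, y * z = z * y) →
        Hk K (cs K 𝒴) (Hk K (cs K 𝒵) f) = Hk K (cs K 𝒵) (Hk K (cs K 𝒴) f)) ∧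
      (∀ (f' : Gf → E) (a : ℂ), Hk K (cs K 𝒴) (f + f') = Hk K (cs K 𝒴) f + Hk K (cs K 𝒴) f' ∧
        Hk K (cs K 𝒴) (a • f) = a • Hk K (cs K 𝒴) f) ∧
      ∀ (g : Gf), ∀ c : Gf ⧸ K, ∀ y : Gf, c = (y : Gf ⧸ K) → f (g * Quotient.out c) = f (g * y)) ∧
    ∀ (Γ G V : Type) [Group Γ] [Group G] [TopologicalSpace G] [NormedAddCommGroup V] [InnerProductSpace ℂ V]
      (ja : Γ →* G) (jf : Γ →* Gf) (ρ : URep G V) (𝒴 : Set Gf), (cs K 𝒴).Finite → KS K 𝒴 →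
      ∀ f ∈ MV ja jf K ρ, Hk K (cs K 𝒴) f ∈ MV ja jf K ρ

/-- (120 lines) **Hk1.** PROOF. `Hk K 𝒞 f g = ∑ᶠ c : 𝒞, f (g * Quotient.out c)`; for a finite set `𝒞` it is a finite sum (`finsum_eq_sum_of_fintype` after `Set.Finite.fintype`). Last item of the first block: if `c = ↑y` then `y⁻¹ * out c ∈ K` (`QuotientGroup.eq`, `QuotientGroup.mk_out_eq_mul`), so `f (g out c) = f (g y (y⁻¹ out c)) = f (g y)`.
(1) `f(g k out c) = f(g out (k • c))` (`k • c = ↑(k * out c)`, left action of `Gf` on `Gf ⧸ K`), and `c ↦ k • c` is a bijection of `cs K 𝒴` (KS for `k` and `k⁻¹`): `Finset.sum_bij` / `Equiv.sum_comp` / `finsum_eq_of_bijective`. (2) Choose for every `c ∈ cs K 𝒴` an element `y_c ∈ 𝒴`, `c = ↑y_c`, and `z_d ∈ 𝒵` for `d ∈ cs K 𝒵`.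
`Hk (Hk f) g = ∑_c (Hk_𝒵 f)(g out c) = ∑_c (Hk_𝒵 f)(g y_c)` (by (1) `Hk_𝒵 f` is right `K`-invariant) `= ∑_c ∑_d f(g y_c z_d)`, and the other order gives `∑_d ∑_c f(g z_d y_c)`; `y_c z_d = z_d y_c`; `Finset.sum_comm`. (3) Linearity. (4) `f ∈ MV`: `f(jf γ g k) = ρ(γ) f(g)`; the sum is finite and `ρ(γ)` is additive. -/
def S_Hk1 : Prop := C_Hk1

/-- **HkS.** The Hecke operators are symmetric. -/
def C_HkS : Prop :=
  ∀ (Γ G Gf V ι : Type) [Group Γ] [Group G] [TopologicalSpace G] [Group Gf] [NormedAddCommGroup V]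
    [InnerProductSpace ℂ V] [Fintype ι] (ja : Γ →* G) (jf : Γ →* Gf) (K : Subgroup Gf) (ρ : URep G V) (z : ι → Gf)
    (𝒴 : Set Gf), (∀ g g' : Gf, (tr jf K g g').Finite) → (∀ g, ∃ i, ∃ γ, ∃ k ∈ K, g = jf γ * z i * k) →
    (∀ i j γ, γ ∈ tr jf K (z i) (z j) → i = j) → (cs K 𝒴).Finite → KS K 𝒴 → (∀ y ∈ 𝒴, y⁻¹ ∈ 𝒴) →
    ∀ f ∈ MV ja jf K ρ, ∀ f' ∈ MV ja jf K ρ,
      ∑ i, ((st (⊤ : Subgroup Γ) jf K (z i) : ℂ))⁻¹ * inner ℂ (Hk K (cs K 𝒴) f (z i)) (f' (z i)) =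
        ∑ i, ((st (⊤ : Subgroup Γ) jf K (z i) : ℂ))⁻¹ * inner ℂ (f (z i)) (Hk K (cs K 𝒴) f' (z i))

/-- (180 lines) **HkS.** PROOF. `S̃ = {g | ↑g ∈ cs K 𝒴} = 𝒴 K`, `S̃⁻¹ = S̃` (`(y k)⁻¹ = k⁻¹ y⁻¹ ∈ 𝒴 K` by KS). `w_i = 1/st(z_i)`. For `i, j` let `A(i, j) = {γ | (z_i)⁻¹ jf γ z_j ∈ S̃}`; it is the union over the finitely many `c ∈ cs K 𝒴` of the sets `A_c(i, j) = {γ | (z_i)⁻¹ jf γ z_j ∈ c} = tr (z j) (z_i out c)`, finite.
CLAIM: `∑_(c) ⟨f(z_i out c), v⟩ = ∑_j w_j ∑_(γ ∈ A(i, j)) ⟨ρ(γ) f(z_j), v⟩` for every `v`. For `c` there is `j` and `γ0, k` with `z_i out c = γ0 z_j k`; `j` is unique (two such `j` are related by an element of the transporter); `A_c(i, j') = ∅` for `j' ≠ j`, and `A_c(i, j) = γ0 (tr (z j) (z j))` has `st(z_j)` elements, each with `ρ(γ) f(z_j) = f(jf γ z_j) = f(z_i out c)`.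
So `⟨f(z_i out c), v⟩ = ∑_j w_j ∑_(γ ∈ A_c(i, j)) ⟨ρ(γ) f(z_j), v⟩`; sum over `c` (the `A_c` are disjoint). Hence the left side is `∑_(i, j) w_i w_j ∑_(γ ∈ A(i, j)) ⟨ρ(γ) f(z_j), f'(z_i)⟩` and the right side `∑_(i, j) w_i w_j ∑_(γ ∈ A(i, j)) ⟨f(z_i), ρ(γ) f'(z_j)⟩`. In the right side exchange `i, j` and replace `γ` by `γ⁻¹`
(`γ⁻¹ ∈ A(j, i)` iff `(z_j)⁻¹ γ⁻¹ z_i ∈ S̃` iff `(z_i)⁻¹ γ z_j ∈ S̃⁻¹ = S̃`) and use `⟨f(z_j), ρ(γ⁻¹) f'(z_i)⟩ = ⟨ρ(γ) f(z_j), f'(z_i)⟩`. -/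
def S_HkS : Prop := C_HkS

/-- **Eig.** Independent functionals give many systems of eigenvalues. -/
def C_Eig : Prop :=
  ∀ (E P : Type) [AddCommGroup E] [Module ℂ E] [FiniteDimensional ℂ E] (B : E →ₗ⋆[ℂ] E →ₗ[ℂ] ℂ)
    (T : P → Module.End ℂ E) (L : E →ₗ⋆[ℂ] ℂ) (PP : Finset P),
    (∀ x y, (starRingEnd ℂ) (B x y) = B y x) → (∀ x, x ≠ 0 → 0 < (B x x).re) → (∀ p x y, B (T p x) y = B x (T p y)) →
    (∀ p q, T p * T q = T q * T p) →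
    (∀ α : P → ℂ, (∀ x, L (∑ p ∈ PP, α p • T p x) = 0) → ∀ p ∈ PP, α p = 0) →
    ∃ (x : Fin PP.card → E) (lam : Fin PP.card → P → ℝ), (∀ j p, T p (x j) = (lam j p : ℂ) • x j) ∧
      (∀ j, L (x j) ≠ 0) ∧ ∀ i j, i ≠ j → lam i ≠ lam j

/-- (150 lines) **Eig.** PROOF. `B` makes `E` a finite-dimensional inner product space (`InnerProductSpace.Core`, `InnerProductSpace.ofCore`); the `T p` are symmetric and commute. The joint eigenspaces `E_λ = {x | ∀ p, T p x = λ(p) x}`, `λ : P → ℂ`, span `E`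
(`Mathlib/Analysis/InnerProductSpace/JointEigenspace.lean`, `Module.End.iSup_iInf_..`, `Mathlib/LinearAlgebra/Eigenspace/Pi.lean`; `P` may be infinite: if the lemmas need a finite index type use induction on `dim E`: if some `T p` is not a scalar decompose into its eigenspaces, which are stable under all `T q`; otherwise all of `E` is a joint eigenspace), the eigenvalues are real.
Let `Λ` be the set of the systems `λ : P → ℝ` with an `x ∈ E_λ`, `L x ≠ 0`. CLAIM: `Λ` is infinite or has at least `|PP|` elements (then choose `|PP|` different ones and vectors). Suppose `Λ` has `r < |PP|` elements. The `r` linear equations `∑_(p ∈ PP) α_p λ(p) = 0`, `λ ∈ Λ`, have a solution `β ≠ 0` in `PP → ℂ` (`Matrix.exists_mulVec_eq_zero..`, or dimension count for a linear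
map `(PP → ℂ) → (Λ → ℂ)`), extended by `0`. For `x ∈ E_λ`: `L (∑ β_p T p x) = L ((∑ β_p λ(p)) x) = conj (∑ β_p λ(p)) L x`, which is `0` if `λ ∈ Λ`, and if `λ ∉ Λ` since `L x = 0`. As the `E_λ` span `E`, `L (∑ β_p T p x) = 0` for all `x`, so `β = 0`: contradiction. -/
def S_Eig : Prop := C_Eig

/-- **BF2.** From scalar automorphic forms of `H` to functions with values in `V`. -/
def C_BF2 : Prop :=
  ∀ (Γ G Gf V W : Type) [Group Γ] [Group G] [TopologicalSpace G] [IsTopologicalGroup G] [Group Gf]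
    [NormedAddCommGroup V] [InnerProductSpace ℂ V] [FiniteDimensional ℂ V] [NormedAddCommGroup W]
    [InnerProductSpace ℂ W] [FiniteDimensional ℂ W] (ja : Γ →* G) (ΓH : Subgroup Γ) (H : Subgroup G)
    (Hf : Subgroup Gf) (jaH : ΓH →* H) (jfH : ΓH →* Hf) (KH' : Subgroup Hf) [CompactSpace H] [MeasurableSpace H]
    [BorelSpace H] (μ : Measure H) [IsProbabilityMeasure μ] [μ.IsMulLeftInvariant] [μ.IsOpenPosMeasure]
    (ρ : URep G V) (σ : URep H W) (l : V →ₗ[ℂ] W →ₗ[ℂ] ℂ), (∀ γ, (jaH γ : G) = ja γ) → σ.Irr → l ≠ 0 →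
    (∀ (x : H) v w, l (ρ.act x v) (σ.act x w) = l v w) →
    ∃ (P : V →ₗ[ℂ] V) (a : Fin (Module.finrank ℂ W) → V), Prj P ∧ (∀ x ∈ H, ∀ v, P (ρ.act x v) = ρ.act x (P v)) ∧
      rk P = Module.finrank ℂ W ∧ (∀ k, P (a k) = a k) ∧
      ∀ φ' ∈ AF jaH jfH KH' σ,
        (∀ k (g : Hf) (v : V), ∫ x, inner ℂ v (ρ.act (x : G) (a k)) * φ' x g ∂μ = inner ℂ v (FF μ ρ φ' (a k) g)) ∧
        (∀ k g, P (FF μ ρ φ' (a k) g) = FF μ ρ φ' (a k) g) ∧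
        (∀ k (γ : ΓH) (g : Hf), ∀ κ ∈ KH', FF μ ρ φ' (a k) (jfH γ * g * κ) = ρ.act (ja γ) (FF μ ρ φ' (a k) g)) ∧
        (φ' ≠ 0 → ∃ k g, FF μ ρ φ' (a k) g ≠ 0)

/-- (130 lines) **BF2** (from Jw). PROOF. Edit of the proof of BF (`Pool/Agent/Lib/GP/BF.lean`). `P`, `a` from Jw. `x ↦ φ'(x, g)` is continuous (a finite linear combination of matrix coefficients), so `x ↦ φ'(x, g) ρ(x) a_k` is continuous on the compact group `H`, integrable. (1) `⟨v, ·⟩` commutes with the integral. (2) `P` commutes with the integral and with `ρ(x)`, `P a_k = a_k`.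
(3) `φ'(x, jf γ g κ) = φ'(γ⁻¹ x, g)` (`φ'(γ y, γ g κ) = φ'(y, g)` with `y = γ⁻¹ x`), so `FF(γ g κ) = ∫ φ'(γ⁻¹ x, g) ρ(x) a dμ = ∫ φ'(x, g) ρ(γ x) a dμ = ρ(γ) FF(g)` (left invariance). (4) If `FF = 0` for all `k, g` then `∫ |φ'(x, g)|² dμ = 0` for all `g` (Jw, last item, as in BF (d)), so `φ' = 0`. -/
def S_BF2 : Prop := C_Jw → C_BF2

/-- **Int.** Interpolation. -/
def C_Int : Prop :=
  ∀ (Γ G Gf V ι : Type) [Group Γ] [Group G] [TopologicalSpace G] [Group Gf] [NormedAddCommGroup V]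
    [InnerProductSpace ℂ V] [FiniteDimensional ℂ V] [Fintype ι] (ja : Γ →* G) (jf : Γ →* Gf) (K : Subgroup Gf)
    (Γ1 : Subgroup Γ) (h : ι → Gf) (ρ : URep G V) (P : V →ₗ[ℂ] V) (hd : FD jf K Γ1 h) (β : ℝ), Prj P →
    (∀ i j, ∀ γ ∈ bad hd i j, Ph ρ P (ja γ)⁻¹ ≤ β) →
    ((∑ i, ∑ j, (bad hd i j).card : ℕ) : ℝ) ^ 2 * β < 1 →
    (∀ i, ∀ f ∈ MV ja jf K ρ, ∀ γ ∈ Γ1, γ ∈ tr jf K (h i) (h i) → ρ.act (ja γ) (P (f (h i))) = P (f (h i))) →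
    ∀ a ∈ Inv1 ja jf K Γ1 h ρ P, ∃ f ∈ MV ja jf K ρ, ∀ i, P (f (h i)) = a i

/-- (100 lines) **Int** (from Null). PROOF. By Null `finrank Nul < 1`, so `Nul = ⊥`. The linear map `E : MV → (ι → V)`, `f ↦ (P f(h i))_i`, has values in `Inv1` (`P P = P` and the hypothesis). Suppose its range `R` is not `Inv1`. `(ι → V)` with the Hermitian form `⟨a, b⟩_w = ∑ w_i ⟨a_i, b_i⟩` (`w_i = wt > 0`) is a finite-dimensional inner product space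
(transport to `PiLp 2` by `a ↦ (√w_i a_i)_i` as in the proof of Null, `Pool/Agent/Lib/GP/Null.lean`), so there is `0 ≠ a ∈ Inv1` orthogonal to `R` (`Submodule.exists...`: the orthogonal complement of `R` inside `Inv1` is not `⊥` if `R < Inv1`). For `f ∈ MV`: `∑ w_i ⟨f(h i), a i⟩ = ∑ w_i ⟨f(h i), P a i⟩ = ∑ w_i ⟨P f(h i), a i⟩ = 0`, so `a ∈ Nul = ⊥`: contradiction. -/
def S_Int : Prop := C_Null → C_Int

/-- **Ind.** Forms with prescribed values at the points `h y`. -/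
def C_Ind : Prop :=
  ∀ (Γ G Gf V P0 X : Type) [Group Γ] [Group G] [TopologicalSpace G] [Group Gf] [NormedAddCommGroup V]
    [InnerProductSpace ℂ V] [FiniteDimensional ℂ V] [Fintype X] (ja : Γ →* G) (jf : Γ →* Gf) (K : Subgroup Gf)
    (ΓH Γ1 : Subgroup Γ) (Hf : Subgroup Gf) (ρ : URep G V) (P : V →ₗ[ℂ] V) (S A : P0 → Set Gf) (pt : X → Gf)
    (F : Gf → V) (β : ℝ) (n1 : ℕ), (∀ g g' : Gf, (tr jf K g g').Finite) → Prj P →
    (∀ γ ∈ ΓH, ∀ v, P (ρ.act (ja γ) v) = ρ.act (ja γ) (P v)) → (∀ γ ∈ ΓH, jf γ ∈ Hf) → ΓH ≤ Γ1 →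
    (∀ γ ∈ Γ1, ∃ γ0 ∈ ΓH, (∀ v, ρ.act (ja γ) v = ρ.act (ja γ0) v) ∧ ∀ g, (jf γ0 * g)⁻¹ * (jf γ * g) ∈ K) →
    (∀ p, ∀ h ∈ Hf, ∀ g, ∀ k ∈ K, h * g * k ∈ A p ↔ g ∈ A p) → (∀ p p', p ≠ p' → ∀ y ∈ S p', y ∉ A p) →
    (∀ p, ∀ y ∈ S p, ∀ y' ∈ S p, y ∈ A p → ∀ h ∈ Hf, ∀ k ∈ K, h * y = y' * k → h ∈ K) →
    (∀ p, ∀ h ∈ Hf, ∀ y ∈ S p, ∃ x, ∃ γ ∈ ΓH, ∃ k ∈ K, h * y = jf γ * pt x * k) →
    (∀ x, ∃ p, ∃ h ∈ Hf, ∃ y ∈ S p, pt x = h * y) → 0 ≤ β →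
    (∀ x x', {γ | γ ∈ tr jf K (pt x) (pt x') ∧ γ ∉ Γ1}.ncard ≤ n1) →
    (∀ x x', ∀ γ ∈ tr jf K (pt x) (pt x'), γ ∉ Γ1 → Ph ρ P (ja γ)⁻¹ ≤ β) →
    (((Fintype.card X ^ 2 * n1 : ℕ) : ℝ)) ^ 2 * β < 1 →
    (∀ γ ∈ ΓH, ∀ h ∈ Hf, ∀ κ ∈ K, κ ∈ Hf → F (jf γ * h * κ) = ρ.act (ja γ) (F h)) → (∀ h ∈ Hf, P (F h) = F h) →
    ∀ p1, ∃ f ∈ MV ja jf K ρ, ∀ p, ∀ h ∈ Hf, ∀ y ∈ S p,
      ((p = p1 ∧ y ∈ A p1) → P (f (h * y)) = F h) ∧ (¬ (p = p1 ∧ y ∈ A p1) → P (f (h * y)) = 0)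

/-- (200 lines) **Ind** (from Int). PROOF. `x ~ x'` if there is `γ ∈ Γ1` in `tr jf K (pt x) (pt x')` (an equivalence relation on `X`). `ι` = the quotient (or the set of the chosen representatives), `h i = pt (out i)`: `FD` holds. `∑_(i, j) card (bad i j) ≤ (card X)² n1`, so the hypotheses of Int hold. The invariance hypothesis of Int: `γ ∈ Γ1` with `γ h_i K = h_i K`, `f ∈ MV`: `γ0` for `γ`,
`ρ(γ) P f(h_i) = ρ(γ0) P f(h_i) = P ρ(γ0) f(h_i) = P ρ(γ) f(h_i) = P f(jf γ h_i) = P f(h_i)`. The values: if `h i ∈ A p1` then `h i = h' y'` with `h' ∈ Hf`, `y' ∈ S p`; `y' ∈ A p1`, so `p = p1`: choose such `h'` and put `a_i = F h'`; otherwise `a_i = 0`. (`*`) If `h y = γ (h' y') k` with `γ ∈ ΓH`, `h, h' ∈ Hf`, `k ∈ K`, `y, y' ∈ S p1`, `y ∈ A p1` then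
`κ = (jf γ h')⁻¹ h ∈ Hf` has `κ y = y' k`, so `κ ∈ K` and `F h = F(jf γ h' κ) = ρ(γ) F(h')`. `a ∈ Inv1`: `P a_i = a_i`, and for `γ ∈ Γ1 ∩ tr(h_i, h_i)`: `ρ(γ) a_i = ρ(γ0) F(h')`, `jf γ0 h' y' ∈ jf γ h' y' K = h' y' K`: by (`*`) (with `γ0⁻¹` or `γ0`) it is `F(h')`. Int gives `f`. Let `h ∈ Hf`, `y ∈ S p`. By the covering hypothesis and the choice of
representatives `h y = γ h_i k` with `γ ∈ Γ1`, `k ∈ K`; with `γ0`: `h y = jf γ0 h_i k'`, `k' ∈ K`, and `f(h y) = ρ(γ) f(h_i) = ρ(γ0) f(h_i)`, `P f(h y) = ρ(γ0) a_i`. `h y ∈ A p1` iff `h_i ∈ A p1` iff `y ∈ A p1`. If `y ∉ A p1` the value is `0`. If `y ∈ A p1` then `p = p1` and by (`*`) `F h = ρ(γ0) F(h') = ρ(γ0) a_i`. If `p ≠ p1` then `y ∉ A p1`. -/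
def S_Ind : Prop := C_Int → C_Ind

/-- **LT.** Independence of the functionals `L ∘ Tp`. -/
def C_LT : Prop :=
  ∀ (Γ G Gf V P0 ι : Type) [Group Γ] [Group G] [TopologicalSpace G] [Group Gf] [NormedAddCommGroup V]
    [InnerProductSpace ℂ V] [FiniteDimensional ℂ V] [Fintype P0] [Fintype ι] (ja : Γ →* G) (jf : Γ →* Gf)
    (K : Subgroup Gf) (ΓH : Subgroup Γ) (Hf : Subgroup Gf) (ρ : URep G V) (P : V →ₗ[ℂ] V) (S A : P0 → Set Gf)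
    (F : Gf → V) (z : ι → Gf) (w : ι → ℝ), Prj P → (∀ i, z i ∈ Hf) → (∀ i, 0 < w i) →
    (∀ h ∈ Hf, ∃ i, ∃ γ ∈ ΓH, ∃ κ ∈ K, κ ∈ Hf ∧ h = jf γ * z i * κ) → (∀ p, (cs K (S p)).Finite) →
    (∀ p, ∃ y ∈ S p, y ∈ A p) → (∀ p, ∀ g, ∀ k ∈ K, g * k ∈ A p ↔ g ∈ A p) →
    (∀ γ ∈ ΓH, ∀ h ∈ Hf, ∀ κ ∈ K, κ ∈ Hf → F (jf γ * h * κ) = ρ.act (ja γ) (F h)) → (∀ h ∈ Hf, P (F h) = F h) →
    (∃ h ∈ Hf, F h ≠ 0) →
    (∀ p1, ∃ f ∈ MV ja jf K ρ, ∀ p, ∀ h ∈ Hf, ∀ y ∈ S p,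
      ((p = p1 ∧ y ∈ A p1) → P (f (h * y)) = F h) ∧ (¬ (p = p1 ∧ y ∈ A p1) → P (f (h * y)) = 0)) →
    ∀ α : P0 → ℂ, (∀ f ∈ MV ja jf K ρ,
      ∑ i, (w i : ℂ) * inner ℂ (∑ p, α p • Hk K (cs K (S p)) f (z i)) (F (z i)) = 0) → ∀ p, α p = 0

/-- (110 lines) **LT.** PROOF. Let `p1` be given and `f` as in the hypothesis. For `c ∈ cs K (S p)`, `c = ↑y`, `y ∈ S p`: `f (z_i out c) = f (z_i y)` (right `K`-invariance), `⟨f(z_i y), F(z_i)⟩ = ⟨f(z_i y), P F(z_i)⟩ = ⟨P f(z_i y), F(z_i)⟩`, which is `‖F(z_i)‖²` if `p = p1` and `y ∈ A p1`, and `0` otherwise. So `⟨Hk f (z_i), F(z_i)⟩ = 0` for `p ≠ p1` and `= n ‖F(z_i)‖²` for `p = p1`,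
`n` the number of the `c ∈ cs K (S p1)` with a representative in `S p1 ∩ A p1` (well defined, `A` is right `K`-invariant; decide by `out c ∈ A p1`), `n ≥ 1`. The hypothesis for `f`: `conj (α p1) n ∑_i w_i ‖F(z_i)‖² = 0`. Some `F h ≠ 0`, `h = γ z_i κ`, `F h = ρ(γ) F(z_i)`, so `F(z_i) ≠ 0` and the sum is positive: `α p1 = 0`. -/
def S_LT : Prop := C_LT

/-! ## Local analysis, uniform -/

/-- **Loc2.** The local estimate with an explicit constant. -/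
def C_Loc2 : Prop :=
  ∀ N : ℕ, 3 ≤ N → ∃ C : ℝ, 0 < C ∧ ∀ (G : Type) [Group G] [TopologicalSpace G] [IsTopologicalGroup G]
    [CompactSpace G] (e : EE N) (R : Rot G N e) (g : G) (t : ℝ), t = inner ℝ (R.τ g e) e → t ^ 2 < 1 →
      ∀ (V : Type) [NormedAddCommGroup V] [InnerProductSpace ℂ V] [FiniteDimensional ℂ V] (ρ : URep G V)
        (P : V →ₗ[ℂ] V), ρ.Irr → Prj P → (∀ h : G, R.τ h e = e → ∀ v, P (ρ.act h v) = ρ.act h (P v)) →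
          Ph ρ P g ≤ C * (((1 - t ^ 2)⁻¹ : ℝ) ^ (N + 2) * ((rk P : ℝ) * ((rk P : ℝ) / Module.finrank ℂ V) ^ (1 / (2 * N + 4 : ℝ))))

/-- (160 lines) **Loc2** (from Phb, Av, Mean, Psi, Low, Up1, Cov, Cir). PROOF. Edit of `Pool/Agent/Lib/GP/Loc.lean`, with the constants followed. `s = 1 - t²`, `x = d/D`, `η = x^(1/(N+2))`, `δ = √(2 s/5) η`: `∫_(-r)^r ψ ≤ 2π d x/(c0 δ^N)` (`c0` from Cov depends on `N` only), so by Up1 and Av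
`Ph(g)² ≤ d² (2 η/π + (π/c0) (5/2)^(N/2) s^(-1-N/2) x η^(-N-1)) = d² η (2/π + c1 s^(-1-N/2)) ≤ d² η (1 + c1) s^(-2(N+2))` (`0 < s ≤ 1`, `1 + N/2 ≤ 2 (N + 2)`). Square root: `Ph(g) ≤ √(1 + c1) s^(-(N+2)) d x^(1/(2N+4))`. -/
def S_Loc2 : Prop := C_Phb → C_Av → C_Mean → C_Psi → C_Low → C_Up1 → C_Cov → C_Cir → C_Loc2

/-- **GRb.** The structure `Rot` on the real orthogonal group, with the inner product. -/
def C_GRb : Prop :=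
  ∀ (N : ℕ) (Q : Matrix (Fin N) (Fin N) ℚ) (e : Fin N → ℚ), PQ Q → e ≠ 0 →
    ∃ (e' : EE N) (R : Rot (Gp Q ℝ) N e'), (∀ g : Gp Q ℝ, R.τ g e' = e' ↔ g ∈ Hp Q e ℝ) ∧
      (∀ g : Gp Q ℝ, R.τ g e' = -e' ↔ g.1.1 *ᵥ ve e ℝ = -ve e ℝ) ∧
      ∀ g : Gp Q ℝ, inner ℝ (R.τ g e') e' = bq Q (g.1.1 *ᵥ ve e ℝ) (ve e ℝ) / bq Q (ve e ℝ) (ve e ℝ)

/-- (180 lines) **GRb.** PROOF. Edit of `Pool/Agent/Lib/GP/GR2.lean` (same construction, one more property): `τ(g) = B g B⁻¹`, `Bᵀ B = Q`, `e' = B e/‖B e‖`, so `⟨τ(g) e', e'⟩ = (B g e)·(B e)/‖B e‖² = (g e)ᵀ Q e/(eᵀ Q e)`. -/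
def S_GRb : Prop := C_GRb

/-! ## Good primes and neighbours -/

/-- **Gdx.** Almost all primes are good. -/
def C_Gdx : Prop :=
  ∀ (N : ℕ) (Q : Matrix (Fin N) (Fin N) ℚ) (e : Fin N → ℚ) (K : Subgroup (Gp Q Af)), PQ Q → e ≠ 0 →
    IsOpen (K : Set (Gp Q Af)) → IsCompact (K : Set (Gp Q Af)) → ∃ p0 : ℕ, ∀ p : Nat.Primes, p0 < (p : ℕ) → Gd Q e K p

/-- (110 lines) **Gdx** (from AD5, AD6). PROOF. `m1` from AD5 for `K`, `m2` from AD6. `p0` = the sum of `2`, `m1`, `m2`, all the denominators of the entries of `Q`, `Q⁻¹`, `e` and the absolute value of the numerator of `eᵀ Q e` (which is not zero: `eᵀ Q e > 0`). `p > p0` does not divide any of them. k1: `m1 k_ij ∈ Zh` and `m1` is a unit at `p` (the valuation of an integer prime to `p` is `1`: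
`HeightOneSpectrum.valuation..`, `v(m) < 1` iff `m ∈ v.asIdeal = (p)`). k2: `y ∈ Loc p` with integral entries: `z_ij = (y_ij - 1_ij)/m2` (`m2` is invertible in `Af`) is `0` outside `p` and integral at `p`, so `z_ij ∈ Zh`, `y ∈ K` by AD6. -/
def S_Gdx : Prop := C_AD5 → C_AD6 → C_Gdx

/-- **Cmp.** The component at `p` of an adelic element. -/
def C_Cmp : Prop :=
  ∀ (N : ℕ) (Q : Matrix (Fin N) (Fin N) ℚ) (p : Nat.Primes) (g : Gp Q Af), ∃ y ∈ Loc Q p, evG Q (vp p) y = evG Q (vp p) g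

/-- (70 lines) **Cmp.** PROOF. Let `ε ∈ Af` be the idempotent adele with component `1` at `vp p` and `0` elsewhere (all components integral; a restricted product element: `⟨fun v => if v = vp p then 1 else 0, _⟩`). `y = 1 + ε (g - 1)` (entries `1_ij + ε (g_ij - 1_ij)`). Its image under `ev v` is the matrix `1` for `v ≠ vp p` and `g_v` for `v = vp p`.
`det y = 1` and `yᵀ Q y = Q`: two adeles (adelic matrices) are equal iff all their components are (`FiniteAdeleRing.ext`), and `ev v` is a ring homomorphism (`RingHom.map_det`, `Matrix.map_mul`). -/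
def S_Cmp : Prop := C_Cmp

/-- **Mn.** Integrality of `2 × 2` minors of products. -/
def C_Mn : Prop :=
  ∀ (N : ℕ) (R : Type) [CommRing R] (O : Subring R) (t : R) (A Y B : Matrix (Fin N) (Fin N) R), (∀ i j, A i j ∈ O) →
    (∀ i j, B i j ∈ O) → (∀ i j, t * Y i j ∈ O) → (∀ i j k l, t * (Y i j * Y k l - Y i l * Y k j) ∈ O) →
    (∀ i j, t * (A * Y * B) i j ∈ O) ∧
      ∀ i j k l, t * ((A * Y * B) i j * (A * Y * B) k l - (A * Y * B) i l * (A * Y * B) k j) ∈ O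

/-- (40 lines) **Mn.** PROOF. `(A Y B)_ij = ∑_(a, b) A_ia Y_ab B_bj`, so the minor is `∑_(a, b, c, d) A_ia A_kc B_bj B_dl (Y_ab Y_cd - Y_ad Y_cb)`. -/
def S_Mn : Prop := C_Mn

/-- **NbI.** The identity and inverses. -/
def C_NbI : Prop :=
  ∀ (N : ℕ) (Q : Matrix (Fin N) (Fin N) ℚ) (e : Fin N → ℚ) (K : Subgroup (Gp Q Af)) (p : Nat.Primes), Q.IsSymm →
    Q.det ≠ 0 → Gd Q e K p → (1 : Gp Q Af) ∈ Nb Q p ∧ ∀ y ∈ Nb Q p, y⁻¹ ∈ Nb Q p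

/-- (100 lines) **NbI** (from Mn). PROOF. `y⁻¹ = Q⁻¹ yᵀ Q` in the adelic matrices (`yᵀ Q y = Q`, `Q` invertible over `ℚ`). `y⁻¹ ∈ Loc`. Membership in `Zh` is tested at all `v`: for `v ≠ vp p` the component of `y⁻¹` is the identity matrix and everything is integral; at `v = vp p` the entries of `Q`, `Q⁻¹` are integral (a rational number whose denominator is prime to `p` is integral at `vp p`), so Mn
(with `O` = the ring of integers of the completion, `t = p`, `A = Q⁻¹`, `Y = yᵀ`, `B = Q`). -/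
def S_NbI : Prop := C_Mn → C_NbI

/-- **NbK.** Stability under `K`. -/
def C_NbK : Prop :=
  ∀ (N : ℕ) (Q : Matrix (Fin N) (Fin N) ℚ) (e : Fin N → ℚ) (K : Subgroup (Gp Q Af)) (p : Nat.Primes), Gd Q e K p →
    KS K (Nb Q p)

/-- (90 lines) **NbK** (from Mn, Cmp). PROOF. `k ∈ K`, `y ∈ Nb p`. Cmp: `k_p ∈ Loc p` with the component of `k` at `vp p`; its entries are in `Zh` (`Gd.k1` at `vp p`, identity elsewhere), so `k_p ∈ K` (`Gd.k2`). `k' = k_p⁻¹ k ∈ K` has trivial component at `vp p`, `y` has trivial components outside: `k' y = y k'` (two adelic matrices with the same components are equal). So `k y = k_p k' y = (k_p y) k'`,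
and `k_p y ∈ Nb p` (Mn at `vp p`, with `A = k_p`, `B = 1`; at the other places `k_p y` is the identity). -/
def S_NbK : Prop := C_Mn → C_Cmp → C_NbK

/-- **NbF.** Finitely many neighbours. -/
def C_NbF : Prop :=
  ∀ (N : ℕ) (Q : Matrix (Fin N) (Fin N) ℚ) (e : Fin N → ℚ) (K : Subgroup (Gp Q Af)) (p : Nat.Primes), Gd Q e K p →
    (∀ y ∈ Nb Q p, y⁻¹ ∈ Nb Q p) → (Cp Q K p).Finite ∧ (Cp Q K p).ncard ≤ ((p : ℕ) ^ 2) ^ (N * N)

/-- (110 lines) **NbF** (from AD2, AD3). PROOF. Every `a ∈ Zh` is `r + p² z` with `r ∈ {0, .., p² - 1}` and `z ∈ Zh` (AD3: `a = x + p² z`, `x` rational, `x ∈ Zh`, so `x ∈ ℤ` (AD2); reduce modulo `p²`). For `y ∈ Nb p` let `r_ij(y)` be the residue of `p y_ij`. If `r(y) = r(y')` then `p y' - p y = p² Z`, `Z ∈ M(Zh)`, so `y' - y = p Z` and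
`y⁻¹ y' = 1 + y⁻¹ (y' - y) = 1 + (p y⁻¹) Z ∈ M(Zh)` (`p y⁻¹` is integral), it is in `Loc p`, so in `K` (`Gd.k2`): `y K = y' K`. So there are at most `(p²)^(N²)` cosets (choose a representative in `Nb p` of each coset; injective map to `Fin N → Fin N → Fin (p²)`). -/
def S_NbF : Prop := C_AD2 → C_AD3 → C_NbF

/-- **Vec.** Auxiliary vectors. -/
def C_Vec : Prop :=
  ∀ (N : ℕ) (Q : Matrix (Fin N) (Fin N) ℚ) (e : Fin N → ℚ) (p : ℕ), p.Prime → p ≠ 2 → 3 ≤ N → Q.IsSymm → Q.det ≠ 0 →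
    (∀ i j, ¬ p ∣ (Q i j).den) → (∀ i j, ¬ p ∣ (Q⁻¹ i j).den) → (∀ i, ¬ p ∣ (e i).den) →
    ¬ (p : ℤ) ∣ (e ⬝ᵥ (Q *ᵥ e)).num → ∃ u m : Fin N → ℚ, (∀ i, ¬ p ∣ (u i).den) ∧ (∀ i, ¬ p ∣ (m i).den) ∧
      padicValRat p (u ⬝ᵥ (Q *ᵥ u)) = 1 ∧ padicValRat p (e ⬝ᵥ (Q *ᵥ u)) = 0 ∧ e ⬝ᵥ (Q *ᵥ u) ≠ 0 ∧
      u ⬝ᵥ (Q *ᵥ u) ≠ 0 ∧ e ⬝ᵥ (Q *ᵥ m) = 0 ∧ m ⬝ᵥ (Q *ᵥ m) ≠ 0 ∧ padicValRat p (m ⬝ᵥ (Q *ᵥ m)) = 0

/-- (200 lines) **Vec.** PROOF. Write `⟨x, y⟩ = xᵀ Q y`, `q(x) = ⟨x, x⟩`. Reduce modulo `p`: `k = ZMod p`, `Q̄` (numerator times the inverse of the denominator; the ring of the rationals with denominator prime to `p` maps to `k`) is symmetric and invertible over `k` (its inverse is the reduction of `Q⁻¹`), `q(ē) ≠ 0`. (i) There is `f1 ∈ ē^⊥` with `q(f1) ≠ 0`: otherwise `q = 0` on `ē^⊥`, so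
(`p` odd, polarisation) `⟨x, y⟩ = 0` for all `x, y ∈ ē^⊥`, so every `x ∈ ē^⊥` is orthogonal to `ē^⊥` and to `ē`, hence to `k^N = k ē + ē^⊥`, `x = 0`; but `ē^⊥` has dimension `N - 1 ≥ 2`. (ii) In the same way there is `f2` orthogonal to `ē`, `f1` with `q(f2) ≠ 0` (dimension `N - 2 ≥ 1`). (iii) `α² q(f1) + β² q(f2) = -q(ē)` has a solution in `k`
(`FiniteField.exists_root_sum_quadratic` for the two quadratic polynomials, or the pigeonhole argument). Lift `f1, f2` to integral vectors, `α, β` to integers, `u0 = e + α f1 + β f2`: `q(u0)` is divisible by `p`, `⟨e, u0⟩ ≡ q(e)` is a unit. If `padicValRat p (q u0) = 1` take `u = u0`; otherwise (`q(u0) = 0` or the valuation is `≥ 2`) `u = u0 + p e`: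
`q(u) = q(u0) + 2 p ⟨u0, e⟩ + p² q(e)` has valuation `1`, `⟨e, u⟩ = ⟨e, u0⟩ + p q(e)` is a unit. `m = f1 - (⟨f1, e⟩/q(e)) e`: `⟨m, e⟩ = 0`, `q(m) = q(f1) - ⟨f1, e⟩²/q(e) ≡ q(f1)` is a unit. -/
def S_Vec : Prop := C_Vec

/-- The reflection at the vector `x`. -/
def rf {N : ℕ} (Q : Matrix (Fin N) (Fin N) ℚ) (x : Fin N → ℚ) : Matrix (Fin N) (Fin N) ℚ :=
  1 - (2 / (x ⬝ᵥ (Q *ᵥ x))) • Matrix.of fun i j => x i * (Q *ᵥ x) j

/-- **Rf.** Products of two reflections are in `G(ℚ)`. -/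
def C_Rf : Prop :=
  ∀ (N : ℕ) (Q : Matrix (Fin N) (Fin N) ℚ) (x y : Fin N → ℚ), Q.IsSymm → x ⬝ᵥ (Q *ᵥ x) ≠ 0 → y ⬝ᵥ (Q *ᵥ y) ≠ 0 →
    rf Q x * rf Q x = 1 ∧ (∀ z, rf Q x *ᵥ z = z - (2 * (x ⬝ᵥ (Q *ᵥ z)) / (x ⬝ᵥ (Q *ᵥ x))) • x) ∧
      ∃ γ : Gp Q ℚ, γ.1.1 = rf Q x * rf Q y ∧ (γ⁻¹).1.1 = rf Q y * rf Q x

/-- (80 lines) **Rf.** PROOF. Direct computation; `det (rf Q x) = -1` (`Matrix.det_one_add_replicateCol_mul_replicateRow` or `det (1 + u vᵀ) = 1 + vᵀ u`), `(rf Q x)ᵀ Q (rf Q x) = Q`. -/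
def S_Rf : Prop := C_Rf

/-- **NbE.** There is a neighbour of depth one. -/
def C_NbE : Prop :=
  ∀ (N : ℕ) (Q : Matrix (Fin N) (Fin N) ℚ) (e : Fin N → ℚ) (K : Subgroup (Gp Q Af)) (p : Nat.Primes), 3 ≤ N →
    Q.IsSymm → Q.det ≠ 0 → Gd Q e K p → ∃ y ∈ Nb Q p, y ∈ Dp Q e p

/-- (150 lines) **NbE** (from Vec, Rf, Cmp, Mn). PROOF. `u` from Vec. `γ = rf u * rf e ∈ G(ℚ)` (Rf), `y` = the component at `p` of `jG Q Af γ` (Cmp). `y ∈ Nb p`: outside `p` trivial; at `p`: `rf e` is integral (`2/q(e)`, `e`, `Q e` are integral at `p`); `p (rf u)` is integral (`2 p/q(u)` has valuation `0`), and the `2 × 2` minors of `rf u = 1 - c x x'ᵀ` (`c = 2/q(u)`, `x = u`, `x' = Q u`):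
`(δ_ij - c x_i x'_j)(δ_kl - c x_k x'_l) - (δ_il - c x_i x'_l)(δ_kj - c x_k x'_j)`: the terms with `c²` cancel, so `p` times the minor is integral; Mn with `A = 1`, `Y = rf u`, `B = rf e`. `y ∈ Dp`: `y⁻¹ e` at `p` is `z = rf e (rf u e)`. If `z` were integral then `rf e z = rf u e = e - (2 ⟨u, e⟩/q(u)) u` would be integral; but `2 ⟨u, e⟩/q(u)` has valuation `-1` and some
coordinate of `u` is a unit at `p` (otherwise `⟨e, u⟩` would be divisible by `p`). -/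
def S_NbE : Prop := C_Vec → C_Rf → C_Cmp → C_Mn → C_NbE

/-- **Neg.** A local element with `κ e = -e`. -/
def C_Neg : Prop :=
  ∀ (N : ℕ) (Q : Matrix (Fin N) (Fin N) ℚ) (e : Fin N → ℚ) (K : Subgroup (Gp Q Af)) (p : Nat.Primes), 3 ≤ N →
    Q.IsSymm → Q.det ≠ 0 → Gd Q e K p → ∃ κ ∈ K, κ ∈ Loc Q p ∧
      ∀ i, ((κ.1.1 *ᵥ ve e Af) i) (vp p) = ((-ve e Af) i) (vp p)

/-- (80 lines) **Neg** (from Vec, Rf, Cmp). PROOF. `m` from Vec, `γ = rf e * rf m ∈ G(ℚ)`, `γ e = rf e e = -e`. `κ` = the component at `p` of `jG Q Af γ` (Cmp); its entries are integral at `p` (`2/q(e)`, `2/q(m)` are integral), so `κ ∈ K` by `Gd.k2`. -/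
def S_Neg : Prop := C_Vec → C_Rf → C_Cmp → C_Neg

/-- **NoN.** Under the condition on `K` no transporter between the points contains a `γ` with `γ e = -e`. -/
def C_NoN : Prop :=
  ∀ (N : ℕ) (Q : Matrix (Fin N) (Fin N) ℚ) (e : Fin N → ℚ) (K : Subgroup (Gp Q Af)) (p p' : Nat.Primes), 3 ≤ N →
    Q.IsSymm → Q.det ≠ 0 → Gd Q e K p → Gd Q e K p' → (∀ k ∈ K, k.1.1 *ᵥ ve e Af ≠ -ve e Af) →
    ∀ h ∈ Hp Q e Af, ∀ h' ∈ Hp Q e Af, ∀ y ∈ Loc Q p, ∀ y' ∈ Loc Q p', ∀ γ ∈ tr (jG Q Af) K (h * y) (h' * y'),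
      γ.1.1 *ᵥ ve e ℚ ≠ -ve e ℚ

/-- (120 lines) **NoN** (from Neg, Cmp). PROOF. Suppose `γ e = -e`. `k = (h' y')⁻¹ γ (h y) ∈ K`, and `k y⁻¹ e = k (h y)⁻¹ e = (h' y')⁻¹ γ e = -y'⁻¹ e` (`h⁻¹ e = e`, `h'⁻¹ e = e`). At a place `v ≠ vp p, vp p'`: `y_v = y'_v = 1`, so `(k e)_v = -e_v`. Let `k_p, k_(p')` be the components of `k` at `p, p'` (Cmp), in `K` (`Gd.k1, k2`), and `κ, κ'` from Neg for `p`, `p'`.
If `p ≠ p'`: `k̃ = k k_p⁻¹ k_(p')⁻¹ κ κ'`, if `p = p'`: `k̃ = k k_p⁻¹ κ`. Its component at `p` is that of `κ`, at `p'` that of `κ'`, elsewhere that of `k`; so `k̃ e = -e` at every place, `k̃ ∈ K`: contradiction. -/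
def S_NoN : Prop := C_Neg → C_Cmp → C_NoN

/-- **NbH.** A neighbour of depth one determines the lattice of `H`. -/
def C_NbH : Prop :=
  ∀ (N : ℕ) (Q : Matrix (Fin N) (Fin N) ℚ) (e : Fin N → ℚ) (K : Subgroup (Gp Q Af)) (p : Nat.Primes), Q.IsSymm →
    Q.det ≠ 0 → Gd Q e K p → ∀ y ∈ Nb Q p, ∀ y' ∈ Nb Q p, y ∈ Dp Q e p → ∀ h ∈ Hp Q e Af, ∀ k ∈ K,
      h * y = y' * k → h ∈ K

/-- (180 lines) **NbH** (from Mn, Cmp, NbI). PROOF. At `v = vp p` write `O` for the integers of the completion, `L = O^N`, `⟨x, z⟩ = xᵀ Q z` (unimodular: `Q`, `Q⁻¹` integral), and `h, y, y', k` for the components; `y'' = y' k` (`p y''` and `p` times its minors are integral: Mn), `h y = y''`, `h e = e`, `w = y⁻¹ e = y''⁻¹ e ∉ L`. `y⁻¹` has the property `Nb` (NbI).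
(i) For `x ∈ L` there is `c ∈ O` with `y⁻¹ (x - c e) ∈ L`: the vectors `a = p y⁻¹ x`, `b = p y⁻¹ e` are in `L`, `a_i b_j - a_j b_i ∈ p O` (`p²` times a combination of minors of `y⁻¹` with integral coefficients), and some `b_j` is a unit (`w ∉ L`: some `w_j ∉ O`, `p w_j ∈ O`, so `p w_j` is a unit); `c = a_j/b_j`: `a_i - c b_i ∈ p O` for all `i`.
(ii) If `l ∈ L` and `z = y'' l` has `⟨z, e⟩ ∈ O` then `z ∈ L`. Suppose `z_i ∉ O` for an `i`, so `p z_i` is a unit. For every `l' ∈ L` with `z' = y'' l'`: `(p z_i)(p z'_j) - (p z_j)(p z'_i) ∈ p O`, so `p z'_j - c' p z_j ∈ p O` with `c' = (p z'_i)/(p z_i)`, for all `j`; so `p ⟨z', e⟩ - c' p ⟨z, e⟩ ∈ p O` and `⟨z', e⟩ ∈ O`. But `⟨y'' l', e⟩ = ⟨l', y''⁻¹ e⟩ = ⟨l', w⟩`, and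
`⟨l', w⟩ ∈ O` for all `l' ∈ L` gives `Q w ∈ L`, `w ∈ L`: contradiction. (iii) `h L ⊂ L`: let `x ∈ L`, `c` from (i), `x' = x - c e`, `l = y⁻¹ x' ∈ L`: `h x' = y'' l` and `⟨h x', e⟩ = ⟨x', h⁻¹ e⟩ = ⟨x', e⟩ ∈ O`, so `h x' ∈ L` by (ii), and `h x = h x' + c e ∈ L`. So the component of `h` at `p` is integral.
Finally `h = y' k y⁻¹` has the component `k_v` for `v ≠ vp p`; `k⁻¹ h` is in `Loc p` and integral (`k⁻¹` is integral at `p`, `Gd.k1`), so in `K` (`Gd.k2`). -/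
def S_NbH : Prop := C_Mn → C_Cmp → C_NbI → C_NbH

/-- **DpI.** Invariance of the depth. -/
def C_DpI : Prop :=
  ∀ (N : ℕ) (Q : Matrix (Fin N) (Fin N) ℚ) (e : Fin N → ℚ) (K : Subgroup (Gp Q Af)) (p : Nat.Primes), Gd Q e K p →
    (∀ h ∈ Hp Q e Af, ∀ g, ∀ k ∈ K, h * g * k ∈ Dp Q e p ↔ g ∈ Dp Q e p) ∧
    (∀ p' : Nat.Primes, p ≠ p' → ∀ y ∈ Loc Q p', y ∉ Dp Q e p) ∧
    ∀ p' : Nat.Primes, p ≠ p' → ∀ y ∈ Loc Q p, ∀ z ∈ Loc Q p', y * z = z * y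

/-- (80 lines) **DpI.** PROOF. `(h g k)⁻¹ e = k⁻¹ g⁻¹ h⁻¹ e = k⁻¹ (g⁻¹ e)`, and `k`, `k⁻¹` are integral at `p` (`Gd.k1`). `y ∈ Loc p'` has trivial component at `vp p` (`vp` is injective), so `y⁻¹ e` is `e` at `p`, integral by `Gd.e1`. Commutation: compare the components. -/
def S_DpI : Prop := C_DpI

/-- **Cnt.** Counting in the transporters. -/
def C_Cnt : Prop :=
  ∀ (N : ℕ) (Q : Matrix (Fin N) (Fin N) ℚ) (e : Fin N → ℚ) (K : Subgroup (Gp Q Af)) (T : Set (Gp Q Af)), PQ Q → e ≠ 0 →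
    IsCompact (K : Set (Gp Q Af)) → T.Finite → ∃ C : ℕ, 0 < C ∧ ∀ p p' : Nat.Primes, Gd Q e K p →
      ∀ y ∈ Nb Q p, y⁻¹ ∈ Nb Q p → ∀ y' ∈ Nb Q p', ∀ c ∈ T, ∀ c' ∈ T,
        (tr (jG Q Af) K (c * y) (c' * y')).ncard ≤ (C * ((p : ℕ) * (p' : ℕ))) ^ (N * N) ∧
        ∀ γ ∈ tr (jG Q Af) K (c * y) (c' * y'), γ.1.1 *ᵥ ve e ℚ ≠ ve e ℚ → γ.1.1 *ᵥ ve e ℚ ≠ -ve e ℚ →
          ∀ t : ℝ, t = bq Q ((jG Q ℝ γ).1.1 *ᵥ ve e ℝ) (ve e ℝ) / bq Q (ve e ℝ) (ve e ℝ) →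
            t ^ 2 < 1 ∧ (1 - t ^ 2)⁻¹ ≤ (C : ℝ) * (((p : ℕ) : ℝ) * ((p' : ℕ) : ℝ))

/-- (180 lines) **Cnt** (from AD1, AD2, AD5, GR1). PROOF. `m ≥ 1` with `m k`, `m c`, `m c⁻¹` integral for `k ∈ K`, `c ∈ T` (AD5, AD1). `γ` in the transporter: `jG γ = (c' y') k (c y)⁻¹ = c' y' k y⁻¹ c⁻¹` with `k ∈ K`; `p' y'`, `p y⁻¹` are integral: `M γ` has integral adelic entries, so integral entries (AD2), `M = m³ p p'`. `|γ_ij| ≤ R`, `R ≥ 1` an integer (GR1):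
the number of these `γ` is at most `(2 M R + 1)^(N²) ≤ (3 m³ R p p')^(N²)`. `t = (γ e)ᵀ Q e/(eᵀ Q e)` is rational; let `q1 ≥ 1` be an integer with `q1 e_l Q_ik e_k/(eᵀ Q e) ∈ ℤ` for all `i, k, l`; `t = ∑ γ_il e_l Q_ik e_k/(eᵀ Q e)`, so `M q1 t ∈ ℤ`. Cauchy-Schwarz for the form `Q` (positive definite): `|t| ≤ 1` with equality only if `γ e = ± e`
(`(γe)ᵀ Q (γe) = eᵀ Q e`; for `t = ± 1`: `(γe ∓ e)ᵀ Q (γe ∓ e) = 2 eᵀ Q e (1 ∓ t) = 0`). So `|t| < 1`, `|M q1 t| ≤ M q1 - 1`, `1 - t² ≥ 1 - |t| ≥ 1/(M q1)`. `C` = a number `≥ 3 m³ R` and `≥ m³ q1`. -/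
def S_Cnt : Prop := C_AD1 → C_AD2 → C_AD5 → C_GR1 → C_Cnt

/-- **Pr.** Many primes. -/
def C_Pr : Prop :=
  ∀ p0 : ℕ, ∃ X0 : ℕ, ∀ X : ℕ, X0 ≤ X →
    (X : ℝ) ^ (1 / 2 : ℝ) ≤ (((Finset.range (X + 1)).filter fun p => p.Prime ∧ p0 < p).card : ℝ)

/-- (100 lines) **Pr.** PROOF. Chebyshev: `4^n ≤ 2 n * centralBinom n` (`Nat.four_pow_le_two_mul_self_mul_centralBinom`), `centralBinom n = ∏_(p ≤ 2n) p^(v_p) ≤ (2n)^(π(2n))` (`Nat.factorization_choose_le_log`, `Nat.prod_pow_factorization_centralBinom`), so `π(2n) ≥ (n log 4 - log (2n))/log (2n)`, which is larger than `√(2n + 1) + p0` for large `n`; `X = 2n` or `2n + 1`.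
(If Mathlib has a Chebyshev bound for `Nat.primeCounting` or `Chebyshev.theta` use it.) -/
def S_Pr : Prop := C_Pr

/-! ## The main theorem -/

/-- **GPE.** Power-many Hecke eigenforms of level `K` and weight `V` with non-zero period against a given form of `H`. -/
def C_GPE : Prop :=
  ∀ (N : ℕ) (Q : Matrix (Fin N) (Fin N) ℚ) (e : Fin N → ℚ) (K : Subgroup (Gp Q Af)), 3 ≤ N → PQ Q → e ≠ 0 →
    IsOpen (K : Set (Gp Q Af)) → IsCompact (K : Set (Gp Q Af)) →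
    ∃ (p0 : ℕ) (C η : ℝ), 0 < C ∧ 0 < η ∧
      ∀ (V W : Type) [NormedAddCommGroup V] [InnerProductSpace ℂ V] [FiniteDimensional ℂ V]
        [NormedAddCommGroup W] [InnerProductSpace ℂ W] [FiniteDimensional ℂ W]
        (ρ : URep (Gp Q ℝ) V) (σ : URep (Hp Q e ℝ) W) (l : V →ₗ[ℂ] W →ₗ[ℂ] ℂ), ρ.Irr → σ.Irr → l ≠ 0 →
        (∀ (x : Hp Q e ℝ) (v : V) (w : W), l (ρ.act x v) (σ.act x w) = l v w) →
        ((∀ k ∈ K, k.1.1 *ᵥ ve e Af ≠ -ve e Af) ∨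
          ((∃ k ∈ K, k.1.1 = -1) ∧ ∀ z : Gp Q ℝ, z.1.1 = -1 → ρ.act z = 1)) →
        C * (Module.finrank ℂ W : ℝ) ^ (2 * N + 5) ≤ Module.finrank ℂ V → ∀ φ' ∈ AH Q e K σ, φ' ≠ 0 →
          ∃ (r : ℕ) (φ : Fin r → Gp Q ℝ → Gp Q Af → ℂ) (lam : Fin r → Nat.Primes → ℝ),
            ((Module.finrank ℂ V : ℝ) / (C * (Module.finrank ℂ W : ℝ) ^ (2 * N + 5))) ^ η ≤ r ∧
            (∀ j, φ j ∈ AG Q K ρ) ∧ (∀ j, ∀ p : Nat.Primes, p0 < (p : ℕ) → Tp Q K p (φ j) = (lam j p : ℂ) • φ j) ∧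
            (∀ i j, i ≠ j → ∃ p : Nat.Primes, p0 < (p : ℕ) ∧ lam i p ≠ lam j p) ∧ ∀ j, Per Q e K (φ j) φ' ≠ 0

end Pool.Agent.GP
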