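import Pool.Agent.Lib.GP.Spec2

/-!
# Theorem GPE: the choice of `X` (author helper25)
-/

set_option autoImplicit false

open IsDedekindDomain Matrix MeasureTheory

noncomputable section

namespace Pool.Agent.GP

/-- **Num.** The choice of `X`. -/
def C_Num : Prop :=
  ∀ (N X0 hH C1 : ℕ) (C2 : ℝ), 0 < C2 → ∃ C η : ℝ, 0 < C ∧ 0 < η ∧ ∀ d D : ℕ, 1 ≤ d → C * (d : ℝ) ^ (2 * N + 5) ≤ D →
    ∃ X : ℕ, X0 ≤ X ∧ 1 ≤ X ∧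
      ((((hH * (X * (X ^ 2) ^ (N * N))) ^ 2 * (C1 * X ^ 2) ^ (N * N) : ℕ)) : ℝ) ^ 2 *
        (C2 * (((C1 : ℝ) * (X : ℝ) ^ 2) ^ (N + 2) * ((d : ℝ) * ((d : ℝ) / D) ^ (1 / (2 * N + 4 : ℝ))))) < 1 ∧
      ((D : ℝ) / (C * (d : ℝ) ^ (2 * N + 5))) ^ η ≤ (X : ℝ) ^ (1 / 2 : ℝ)

/-- (90 lines) **Num.** PROOF. Put `y = D/d^(2N+5)`; `d (d/D)^(1/(2N+4)) = y^(-1/(2N+4))` (`d = (d^(2N+4))^(1/(2N+4))`). The left side of the first inequality is `M0 X^E y^(-1/(2N+4))` with `E = 12 N² + 2 N + 8` and a constant `M0 = hH^4 C1^(2 N² + N + 2) C2 ≥ 0` (only `≤` for some `M0`, `E` is needed). `C3 = (M0 + 1)^(2N+4)`, `κ = 1/((2N+4) E)`,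
`C = C3 (X0 + 2)^((2N+4) E)`, `η = κ/2`, `X = ⌊(y/C3)^κ⌋`. Since `y ≥ C`: `(y/C3)^κ ≥ X0 + 2`, so `X ≥ X0 + 2`. `X^E ≤ (y/C3)^(1/(2N+4)) = y^(1/(2N+4))/(M0 + 1)`: the first inequality (`M0/(M0 + 1) < 1`). `X ≥ (y/C3)^κ - 1 ≥ (y/C3)^κ/2 ≥ (y/C3)^κ/(X0 + 2) = (y/C)^κ`, so `(y/C)^η = ((y/C)^κ)^(1/2) ≤ X^(1/2)`, and `y/C = D/(C d^(2N+5))`. -/
def S_Num : Prop := C_Num

end Pool.Agent.GP
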