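import Pool.Agent.Lib.GP.Spec3

/-!
# Theorem GPO: almost all forms of `H` have power-many partners (author helper25)

MP_6342b0_nt, hard tier. THEOREM GPE (`Spec2.lean`, proved: `Full.lean`) is made uniform. Setting as there. THEOREM GPO: there are `p0, X0, C` such that for all `V, W` (no condition on the dimensions `D = dim V`, `d = dim W`), `X ≥ X0` and every system of pairwise orthogonal (Petersson product) forms `ψ_j ≠ 0`, `j < s`, on `H` (weight `W`, level `K ∩ H(Af)`)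
which have less than `√X` partners each: `s ≤ 2 d ⌊C X^(12N²+2N+8) d (d/D)^(1/(2N+4))⌋`. (So almost all members of every orthogonal basis have many partners as soon as `D/d → ∞`, and all forms have if `D > (C X^(12N²+2N+8))^(2N+4) d^(2N+5)`.)

PROOF. `F_k(ψ)(g) = ∫ ψ(x, g) ρ(x) a_k dx`, `k < d` (`BF3`: `ψ ↦ (F_k(ψ))_k` is an isometry up to `√d`). For `F = F_k(ψ)` the Hecke functionals `L_p(f) = ∑ w_i ⟨(T_p f)(z_i), F(z_i)⟩` are tested with the Poincare series `f_q = ∑_i w_i ∑_(c ∈ T_q of depth one) R(z_i c, F(z_i))`: `L_p(f_q) = δ_pq m_p + (bad terms)`, `m_p ≥ ∑ w_i ‖F(z_i)‖²`,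
the bad terms are products `⟨ρ(γ) F(z_i), F(z_i')⟩` with `γ e ≠ ± e` (GS, LT3). If their sum is less than `∑ w_i ‖F(z_i)‖²` then the `L_p` are independent and `ψ` has many partners (as in GPE). Otherwise the Hilbert-Schmidt bound for `P ρ(γ) P` limits the number of the members of the system (OS).

RULES: `S_X` is to be proved as `theorem tX : S_X` in `Pool/Agent/Lib/GP/X.lean`, first lines `import Pool.Agent.Lib.GP.Spec4`, `set_option autoImplicit false`, the `open` lines of this file, `noncomputable section`, `namespace Pool.Agent.GP`. Auxiliary declarations `private` or with the prefix `X_`. All modules are independent: `S_X` is the implication from the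
statements used to `C_X`.
-/

set_option autoImplicit false

open IsDedekindDomain Matrix MeasureTheory

noncomputable section

namespace Pool.Agent.GP

/-- **Jw2.** The dual of `W` in `V`: a conjugate linear equivariant isometry `J`. -/
def C_Jw2 : Prop :=
  ∀ (G V W : Type) [Group G] [TopologicalSpace G] [NormedAddCommGroup V] [InnerProductSpace ℂ V]
    [FiniteDimensional ℂ V] [NormedAddCommGroup W] [InnerProductSpace ℂ W] [FiniteDimensional ℂ W]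
    (H : Subgroup G) (ρ : URep G V) (σ : URep H W) (l : V →ₗ[ℂ] W →ₗ[ℂ] ℂ), σ.Irr → l ≠ 0 →
    (∀ (x : H) v w, l (ρ.act x v) (σ.act x w) = l v w) →
    ∃ (P : V →ₗ[ℂ] V) (J : W →ₗ⋆[ℂ] V), Prj P ∧ (∀ x ∈ H, ∀ v, P (ρ.act x v) = ρ.act x (P v)) ∧
      rk P = Module.finrank ℂ W ∧ (∀ w, P (J w) = J w) ∧ (∀ (x : H) w, J (σ.act x w) = ρ.act x (J w)) ∧
      ∀ w w', inner ℂ (J w) (J w') = inner ℂ w' w

/-- (150 lines) **Jw2.** PROOF. Copy the proof of `tJw` (`Pool/Agent/Lib/GP/Jw.lean`): `J0 w` the vector with `⟨J0 w, v⟩ = l v w`, conjugate linear, injective, equivariant, `U` its image, `P` the orthogonal projector on `U`, `rk P = dim W`. New: `J0` is a similarity: the operator `A` of `W` with `⟨w, A w'⟩ = ⟨J0 w', J0 w⟩`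
(`w' ↦` the vector which represents the linear functional `w ↦ conj ⟨J0 w', J0 w⟩ = ⟨J0 w, J0 w'⟩`; or `A = B* B` for a suitable linear `B`) is linear and commutes with `σ(x)` (`⟨J0 σ w', J0 σ w⟩ = ⟨J0 w', J0 w⟩`), so it is a scalar `κ` (an eigenvalue exists: `Module.End.exists_eigenvalue`, its eigenspace is stable, so `⊤`). `⟨J0 w', J0 w⟩ = κ ⟨w, w'⟩`;
`w = w' ≠ 0`: `κ = ‖J0 w‖²/‖w‖² > 0` real. `J = κ^(-1/2) J0`. -/
def S_Jw2 : Prop := C_Jw2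

/-- **Sch.** Schur orthogonality. -/
def C_Sch : Prop :=
  ∀ (H W : Type) [Group H] [TopologicalSpace H] [IsTopologicalGroup H] [CompactSpace H] [MeasurableSpace H]
    [BorelSpace H] [NormedAddCommGroup W] [InnerProductSpace ℂ W] [FiniteDimensional ℂ W] (μ : Measure H)
    [IsProbabilityMeasure μ] [μ.IsMulLeftInvariant] (σ : URep H W), σ.Irr → ∀ u w w' : W,
      ∫ x, inner ℂ (σ.act x w) u • σ.act x w' ∂μ = ((Module.finrank ℂ W : ℂ)⁻¹ * inner ℂ w w') • u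

/-- (120 lines) **Sch.** PROOF. As in `Pool/Agent/Lib/GP/Mean.lean` (copy). For fixed `w, w'` the map `T u = ∫ ⟨σ(x) w, u⟩ σ(x) w' dμ(x)` is linear (the integrand is continuous in `x`, so integrable on the compact group) and commutes with `σ(y)`: `T σ(y) u = ∫ ⟨σ(y⁻¹ x) w, u⟩ σ(x) w' = ∫ ⟨σ(x) w, u⟩ σ(y x) w' = σ(y) T u` (left invariance).
SCHUR: `T` is a scalar `λ` (eigenvalue, its eigenspace is stable, so it is `⊤`; `W` is nontrivial). `d λ = trace T = ∑_i ⟨b_i, T b_i⟩ = ∫ ∑_i ⟨σ(x) w, b_i⟩ ⟨b_i, σ(x) w'⟩ dμ = ∫ ⟨σ(x) w, σ(x) w'⟩ dμ = ⟨w, w'⟩` (`OrthonormalBasis.sum_inner_mul_inner`, `b` an orthonormal basis). -/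
def S_Sch : Prop := C_Sch

/-- **BF3.** From scalar automorphic forms of `H` to functions with values in `V`, isometrically. -/
def C_BF3 : Prop :=
  ∀ (Γ G Gf V W : Type) [Group Γ] [Group G] [TopologicalSpace G] [IsTopologicalGroup G] [Group Gf]
    [NormedAddCommGroup V] [InnerProductSpace ℂ V] [FiniteDimensional ℂ V] [NormedAddCommGroup W]
    [InnerProductSpace ℂ W] [FiniteDimensional ℂ W] (ja : Γ →* G) (ΓH : Subgroup Γ) (H : Subgroup G)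
    (Hf : Subgroup Gf) (jaH : ΓH →* H) (jfH : ΓH →* Hf) (KH' : Subgroup Hf) [CompactSpace H] [MeasurableSpace H]
    [BorelSpace H] (μ : Measure H) [IsProbabilityMeasure μ] [μ.IsMulLeftInvariant] [μ.IsOpenPosMeasure]
    (ρ : URep G V) (σ : URep H W) (l : V →ₗ[ℂ] W →ₗ[ℂ] ℂ), (∀ γ, (jaH γ : G) = ja γ) → σ.Irr → l ≠ 0 →
    (∀ (x : H) v w, l (ρ.act x v) (σ.act x w) = l v w) →
    ∃ (P : V →ₗ[ℂ] V) (a : Fin (Module.finrank ℂ W) → V), Prj P ∧ (∀ x ∈ H, ∀ v, P (ρ.act x v) = ρ.act x (P v)) ∧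
      rk P = Module.finrank ℂ W ∧
      ∀ φ' ∈ AF jaH jfH KH' σ,
        (∀ k (g : Hf) (v : V), ∫ x, inner ℂ v (ρ.act (x : G) (a k)) * φ' x g ∂μ = inner ℂ v (FF μ ρ φ' (a k) g)) ∧
        (∀ k g, P (FF μ ρ φ' (a k) g) = FF μ ρ φ' (a k) g) ∧
        (∀ k (γ : ΓH) (g : Hf), ∀ κ ∈ KH', FF μ ρ φ' (a k) (jfH γ * g * κ) = ρ.act (ja γ) (FF μ ρ φ' (a k) g)) ∧
        ∀ ψ ∈ AF jaH jfH KH' σ, ∀ g : Hf, ∑ k, inner ℂ (FF μ ρ φ' (a k) g) (FF μ ρ ψ (a k) g) =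
          (Module.finrank ℂ W : ℂ)⁻¹ * ∫ x, (starRingEnd ℂ) (φ' x g) * ψ x g ∂μ

/-- (150 lines) **BF3** (from Jw2, Sch). PROOF. `P`, `J` from Jw2, `a k = J w_k` with `w_k = stdOrthonormalBasis ℂ W k`. The first three items as in `tBF2` (`Pool/Agent/Lib/GP/BF2.lean`, copy; they use `P a_k = a_k` only). Last item: both sides are sesquilinear in `(φ'(·, g), ψ(·, g)) ∈ coef σ × coef σ` (twice `Submodule.span_induction`; all functions are continuous, so integrable),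
so let `φ'(x, g) = ⟨u, σ(x) w⟩`, `ψ(x, g) = ⟨u', σ(x) w'⟩`: prove it as a lemma for functions `f, f' ∈ coef σ` of `x ∈ H` with `FF_k(f) = ∫ f(x) ρ(x) a_k dμ`. `⟨u, σ(x) w⟩ ρ(x) J w_k = ⟨u, σ(x) w⟩ J (σ(x) w_k) = J (⟨σ(x) w, u⟩ σ(x) w_k)` (`J` conjugate linear), `J` is continuous (isometry) and real linear, so it commutes with the integral:
`FF_k = J (∫ ⟨σ(x) w, u⟩ σ(x) w_k) = J (d⁻¹ ⟨w, w_k⟩ u) = d⁻¹ ⟨w_k, w⟩ J u` (Sch). So the left side is `d⁻² ∑_k ⟨w, w_k⟩ ⟨w_k, w'⟩ ⟨J u, J u'⟩ = d⁻² ⟨w, w'⟩ ⟨u', u⟩`. The integral: `∫ ⟨σ(x) w, u⟩ ⟨u', σ(x) w'⟩ dμ = ⟨u', ∫ ⟨σ(x) w, u⟩ σ(x) w'⟩ = d⁻¹ ⟨w, w'⟩ ⟨u', u⟩`.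
(To commute `J` with the integral one may also pair with a vector `v ∈ V`: `⟨v, FF_k⟩`, and use the linear map `v ↦` ...; or use `ContinuousLinearMap.integral_comp_comm` over `ℝ` for `J` restricted to real scalars: `LinearMap.mkContinuous` with `map_smul` for real scalars, conj c = c.) -/
def S_BF3 : Prop := C_Jw2 → C_Sch → C_BF3

/-- The hypotheses on the points `z i` and the sets `S p`, `A p`. -/
structure PT {Γ G Gf V P0 ι : Type} [Group Γ] [Group G] [TopologicalSpace G] [Group Gf] [NormedAddCommGroup V]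
    [InnerProductSpace ℂ V] (ja : Γ →* G) (jf : Γ →* Gf) (K : Subgroup Gf) (ΓH Γ1 : Subgroup Γ) (Hf : Subgroup Gf)
    (ρ : URep G V) (S A : P0 → Set Gf) (z : ι → Gf) : Prop where
  fin : ∀ g g' : Gf, (tr jf K g g').Finite
  jH : ∀ γ ∈ ΓH, jf γ ∈ Hf
  le : ΓH ≤ Γ1
  g1 : ∀ γ ∈ Γ1, ∃ γ0 ∈ ΓH, (∀ v, ρ.act (ja γ) v = ρ.act (ja γ0) v) ∧ ∀ g, (jf γ0 * g)⁻¹ * (jf γ * g) ∈ K
  a1 : ∀ p, ∀ h ∈ Hf, ∀ g, ∀ k ∈ K, h * g * k ∈ A p ↔ g ∈ A p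
  a2 : ∀ p p', p ≠ p' → ∀ y ∈ S p', y ∉ A p
  a3 : ∀ p, ∀ y ∈ S p, ∀ y' ∈ S p, y ∈ A p → ∀ h ∈ Hf, ∀ k ∈ K, h * y = y' * k → h ∈ K
  s1 : ∀ p, (cs K (S p)).Finite
  s2 : ∀ p, KS K (S p)
  zH : ∀ i, z i ∈ Hf
  zi : ∀ i j, ∀ γ ∈ ΓH, γ ∈ tr jf K (z i) (z j) → i = j

/-- The cosets of `S` of depth one. -/
def cA {Gf : Type} [Group Gf] (K : Subgroup Gf) (S A : Set Gf) : Set (Gf ⧸ K) := {c | c ∈ cs K S ∧ Quotient.out c ∈ A}

/-- **GS.** The good terms of the Poincare series of depth one. -/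
def C_GS : Prop :=
  ∀ (Γ G Gf V P0 ι : Type) [Group Γ] [Group G] [TopologicalSpace G] [Group Gf] [NormedAddCommGroup V]
    [InnerProductSpace ℂ V] [Fintype ι] (ja : Γ →* G) (jf : Γ →* Gf) (K : Subgroup Gf) (ΓH Γ1 : Subgroup Γ)
    (Hf : Subgroup Gf) (ρ : URep G V) (S A : P0 → Set Gf) (z : ι → Gf), PT ja jf K ΓH Γ1 Hf ρ S A z →
    ∀ F : Gf → V, (∀ γ ∈ ΓH, ∀ h ∈ Hf, ∀ κ ∈ K, κ ∈ Hf → F (jf γ * h * κ) = ρ.act (ja γ) (F h)) →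
    ∀ (p q : P0), ∀ c ∈ cs K (S p), ∀ i,
      ((p = q ∧ Quotient.out c ∈ A p) →
        ∑ i', (wt jf K ΓH z i' : ℂ) • ∑ᶠ c' : cA K (S q) (A q),
          ∑ᶠ γ : {γ : Γ // γ ∈ Γ1 ∧ γ ∈ tr jf K (z i' * Quotient.out c'.1) (z i * Quotient.out c)}, ρ.act (ja γ) (F (z i')) =
            ((wt jf K ΓH z i * st Γ1 jf K (z i) : ℝ) : ℂ) • F (z i)) ∧
      (¬ (p = q ∧ Quotient.out c ∈ A p) → ∀ i', ∀ c' ∈ cA K (S q) (A q),
        ∀ γ ∈ Γ1, γ ∉ tr jf K (z i' * Quotient.out c') (z i * Quotient.out c))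

/-- (150 lines) **GS.** PROOF. For `c ∈ cs K (S p)`: `out c = y k`, `y ∈ S p`, `k ∈ K`, so `out c ∈ A p' ↔ y ∈ A p'` for all `p'` (a1 with `h = 1`). Let `γ ∈ Γ1` be in `tr jf K (z i' * out c') (z i * out c)`, `c' ∈ cA K (S q) (A q)`, and `γ0 ∈ ΓH` from g1: also `jf γ0 z_i' out c' ∈ z_i out c K` (g1 with `g = z_i' out c'`). `out c' ∈ A q`, so (a1; `jf γ0, z_i', z_i ∈ Hf`)
`out c ∈ A q`, which gives `p = q` (a2) and `out c ∈ A p`: this is the second item. FIRST ITEM. Let `p = q`, `out c ∈ A p`, `out c = y k`, `out c' = y' k'`, `y, y' ∈ S p`. `h = (jf γ0 z_i')⁻¹ z_i ∈ Hf` satisfies `h y ∈ y' K`, so `h ∈ K` (a3, `y ∈ A p`): `γ0 ∈ tr jf K (z i') (z i)` (`z_i⁻¹ jf γ0 z_i' = h⁻¹`), so `i' = i` (zi), and `γ ∈ tr jf K (z i) (z i)` (g1).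
So all terms with `i' ≠ i` vanish (the index type of the inner sum is empty). Let `i' = i`. For `γ ∈ Γ1 ∩ tr (z i) (z i)` there is exactly one `c' ∈ cA K (S p) (A p)` with `γ ∈ tr (z i * out c') (z i * out c)`: `γ0` as above, `κ = z_i⁻¹ jf γ0 z_i ∈ K ∩ Hf`; the condition is `jf γ z_i out c' K = z_i out c K`, and `jf γ z_i out c' K = jf γ0 z_i out c' K = z_i κ out c' K`, so it says `c' = κ⁻¹ out c K`; this coset is in `cs K (S p)`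
(KS: `κ⁻¹ y = y'' k''`) and its representative is in `A p` (a1: `κ⁻¹ ∈ Hf`). So the double sum over `(c', γ)` has as many terms as the set `{γ // γ ∈ Γ1 ∧ γ ∈ tr (z i) (z i)}`, `st Γ1 jf K (z i)` (`Nat.card`), and every term is `ρ(γ) F(z_i) = ρ(γ0) F(z_i) = F(jf γ0 z_i) = F(z_i κ) = F(z_i)`
(the hypothesis on `F` with `γ0, h = z_i, κ = 1`, and with `γ = 1, κ`). All index types are finite (fin, s1): `finsum_eq_sum_of_fintype`, `Fintype.sum_sigma`, `Fintype.card_congr`/`Finset.sum_const`. -/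
def S_GS : Prop := C_GS

/-- **LT3.** Independence of the Hecke functionals of `F`, if the bad terms are small. -/
def C_LT3 : Prop :=
  ∀ (Γ G Gf V P0 ι : Type) [Group Γ] [Group G] [TopologicalSpace G] [Group Gf] [NormedAddCommGroup V]
    [InnerProductSpace ℂ V] [Fintype P0] [Fintype ι] (ja : Γ →* G) (jf : Γ →* Gf) (K : Subgroup Gf)
    (ΓH Γ1 : Subgroup Γ) (Hf : Subgroup Gf) (ρ : URep G V) (S A : P0 → Set Gf) (z : ι → Gf) (n1 n2 : ℕ),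
    PT ja jf K ΓH Γ1 Hf ρ S A z → (∀ p, ∃ y ∈ S p, y ∈ A p) → (∑ p, (cs K (S p)).ncard ≤ n2) →
    (∀ p p', ∀ y ∈ S p, ∀ y' ∈ S p', ∀ i i', {γ | γ ∈ tr jf K (z i * y) (z i' * y') ∧ γ ∉ Γ1}.ncard ≤ n1) →
    ∃ (κ : Type) (_ : Fintype κ) (I I' : κ → ι) (g : κ → Γ), Fintype.card κ ≤ (Fintype.card ι * n2) ^ 2 * n1 ∧
      (∀ t, g t ∉ Γ1 ∧ ∃ p p', ∃ y ∈ S p, ∃ y' ∈ S p', g t ∈ tr jf K (z (I t) * y) (z (I' t) * y')) ∧
      ∀ F : Gf → V, (∀ γ ∈ ΓH, ∀ h ∈ Hf, ∀ κ ∈ K, κ ∈ Hf → F (jf γ * h * κ) = ρ.act (ja γ) (F h)) →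
        ∑ t, wt jf K ΓH z (I t) * wt jf K ΓH z (I' t) *
          ‖inner ℂ (ρ.act (ja (g t)) (F (z (I t)))) (F (z (I' t)))‖ < ∑ i, wt jf K ΓH z i * ‖F (z i)‖ ^ 2 →
        ∀ α : P0 → ℂ, (∀ f ∈ MV ja jf K ρ,
          ∑ i, (wt jf K ΓH z i : ℂ) * inner ℂ (∑ p, α p • Hk K (cs K (S p)) f (z i)) (F (z i)) = 0) → ∀ p, α p = 0

/-- (200 lines) **LT3** (from GS). PROOF. Choose for every `c ∈ cs K (S p)` a `y(c) ∈ S p` with `c = ↑y(c)`. `κ` = the type of `(i', i, (p', c'), (p, c), γ)` with `i', i : ι`, `(p', c'), (p, c) : Σ p, cs K (S p)` and `γ` in the finite set `{γ | γ ∈ tr jf K (z i' * y(c')) (z i * y(c)) ∧ γ ∉ Γ1}`; `I = i'`, `I' = i`, `g = γ`. Its card is `∑ ≤ (card ι * n2)² n1`. NOTE: `tr jf K (g k) (g' k') = tr jf K g g'` for `k, k' ∈ K`, so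
`y(c)` may be replaced by `out c`. Let `F` be given. For `q : P0` put `f_q(g) = ∑_i' w_i' ∑_(c' ∈ cA K (S q) (A q)) ∑_(γ ∈ tr (z_i' out c') g) ρ(γ) F(z_i')` (finite sums). `f_q ∈ MV`: `tr g1 (jf δ g k) = {δ γ | γ ∈ tr g1 g}`. For `c ∈ cs K (S p)`: `Hk K (cs K (S p)) f_q (z_i) = ∑_c f_q(z_i out c)`. Put `M_pq = ∑_i w_i ⟨Hk K (cs K (S p)) f_q (z_i), F(z_i)⟩`.
Split the sum over `γ` in `γ ∈ Γ1` and `γ ∉ Γ1`. By GS the first part of `f_q(z_i out c)` is `0` if `p ≠ q` or `out c ∉ A p`, and `w_i st1_i F(z_i)` otherwise (`st1_i = st Γ1 jf K (z i) ≥ st ΓH jf K (z i) = w_i⁻¹ > 0`: both are finite, `1` is in them, `ΓH ≤ Γ1`), so the first part of `M_pq` is `0` for `p ≠ q` and `m_q = ∑_i w_i n_q w_i st1_i ‖F(z_i)‖² ≥ m = ∑_i w_i ‖F(z_i)‖²` for `p = q`, real, where `n_q`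
is the card of `cA K (S q) (A q)`, `n_q ≥ 1` (a `y ∈ S q ∩ A q`, `out ↑y = y k ∈ A q` by a1). The second part `B_pq` has `∑_p ∑_q |B_pq| ≤ b`, `b` the sum of the hypothesis (each `(p, q)` gives terms of `κ` with these `p`, `p' = q`; the others are `≥ 0`). Let `α` be as in the hypothesis and suppose `α ≠ 0`; choose `q` with `|α_q|` maximal, `|α_q| > 0`. `f = f_q`: `0 = ∑_p conj(α_p) M_pq`, so
`|α_q| m ≤ |α_q| m_q = |∑_p conj(α_p) B_pq| ≤ |α_q| ∑_p |B_pq| ≤ |α_q| b < |α_q| m`: contradiction. -/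
def S_LT3 : Prop := C_GS → C_LT3

/-- **OS.** The number of the members of an orthogonal system with large bad terms. -/
def C_OS : Prop :=
  ∀ (V ι κ : Type) [NormedAddCommGroup V] [InnerProductSpace ℂ V] [FiniteDimensional ℂ V] [Fintype ι] [Fintype κ]
    (I I' : κ → ι) (D : κ → V →ₗ[ℂ] V) (w : ι → ℝ) (β : ℝ) (s d : ℕ) (F : Fin s → Fin d → ι → V),
    (∀ i, 0 < w i ∧ w i ≤ 1) → (∀ t, hs2 (D t) ≤ β) → (∀ j, ∃ k i, F j k i ≠ 0) →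
    (∀ j j', j ≠ j' → ∑ k, ∑ i, (w i : ℂ) * inner ℂ (F j k i) (F j' k i) = 0) →
    (∀ j k, ∑ i, w i * ‖F j k i‖ ^ 2 ≤ ∑ t, w (I t) * w (I' t) * ‖inner ℂ (D t (F j k (I t))) (F j k (I' t))‖) →
      (s : ℝ) ≤ (Fintype.card κ : ℝ) ^ 2 * (d * β) ∧ (0 < s → 1 ≤ (Fintype.card κ : ℝ) ^ 2 * β)

/-- (150 lines) **OS** (from HS). PROOF (compare `tLA`, `Pool/Agent/Lib/GP/LA.lean`). `w > 0`, so `N_j = ∑_k ∑_i w_i ‖F_jki‖² > 0`. `x_jki = √w_i F_jki/√N_j`: the vectors `x_j ∈ PiLp 2 (fun _ : Fin d × ι => V)` are orthonormal, and (the hypothesis divided by `N_j`; `w_I w_I' |⟨D F_I, F_I'⟩| = √(w_I w_I') N_j |⟨D x_I, x_I'⟩| ≤ N_j |⟨D x_I, x_I'⟩|`)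
`∑_i ‖x_jki‖² ≤ ∑_t |⟨D_t x_jk(I t), x_jk(I' t)⟩| ≤ ∑_t ‖D_t x_jk(I t)‖ ‖x_jk(I' t)‖`. Sum over `k`, Cauchy-Schwarz for each `t`, `∑_k ‖x_jk(I' t)‖² ≤ 1`: `1 ≤ ∑_t (∑_k ‖D_t x_jk(I t)‖²)^(1/2)`, so `1 ≤ card κ ∑_t ∑_k ‖D_t x_jk(I t)‖²` (Cauchy-Schwarz), and, summed over `j`: `s ≤ card κ ∑_t ∑_k ∑_j ‖D_t x_jk(I t)‖²`.
For fixed `t, k`: `∑_j ‖D x_jk(i)‖² = ∑_j ∑_b |⟨e_b, D x_jk(i)⟩|² = ∑_b ∑_j |⟨D* e_b, x_jk(i)⟩|² ≤ ∑_b ‖D* e_b‖² = hs2 D` (Bessel for the orthonormal system `x_j` and the vector of `PiLp` which is `D* e_b` at `(k, i)` and `0` elsewhere; HS (1), (2)). So `s ≤ card κ · card κ · d β`. SECOND CLAIM: `j = 0`, `k` with some `F_jki ≠ 0`, `m = ∑_i w_i ‖F_jki‖² > 0`. By HS (4)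
`w_I w_I' |⟨D F_I, F_I'⟩| ≤ √β (√w_I ‖F_I‖) (√w_I' ‖F_I'‖) ≤ √β m` (`w ≤ 1`; `0 ≤ hs2 D ≤ β`), so `m ≤ card κ √β m`, `1 ≤ card κ √β`, and squared: `1 ≤ (card κ)² β` (`κ` is not empty because `m > 0`, so `β ≥ 0`). -/
def S_OS : Prop := C_HS → C_OS

/-- **Num2.** The constants. -/
def C_Num2 : Prop :=
  ∀ (N hH C1 : ℕ) (C2 : ℝ), 0 < C2 → ∃ C : ℝ, 0 < C ∧ ∀ d D X s : ℕ, 1 ≤ d → 1 ≤ D → 1 ≤ X → ∀ M : ℕ,
    M ≤ (hH * (X * (X ^ 2) ^ (N * N))) ^ 2 * (C1 * X ^ 2) ^ (N * N) →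
    (s : ℝ) ≤ (M : ℝ) ^ 2 * (d * (C2 * (((C1 : ℝ) * (X : ℝ) ^ 2) ^ (N + 2) *
      ((d : ℝ) * ((d : ℝ) / D) ^ (1 / (2 * N + 4 : ℝ)))))) →
    (0 < s → 1 ≤ (M : ℝ) ^ 2 * (C2 * (((C1 : ℝ) * (X : ℝ) ^ 2) ^ (N + 2) *
      ((d : ℝ) * ((d : ℝ) / D) ^ (1 / (2 * N + 4 : ℝ)))))) →
      (s : ℝ) ≤ 2 * d * ⌊C * (X : ℝ) ^ (12 * N ^ 2 + 2 * N + 8) * ((d : ℝ) * ((d : ℝ) / D) ^ (1 / (2 * N + 4 : ℝ)))⌋₊

/-- (60 lines) **Num2.** PROOF. `C = hH^4 C1^(2N²+N+2) C2 + 1`. `δ = M² (C2 (..))`, `δ' = C X^E (d (d/D)^..)`, `E = 12N²+2N+8`. `M² ≤ hH^4 C1^(2N²) X^(12N²+4)`, so `δ ≤ δ'`. `s = 0`: clear. `s > 0`: `1 ≤ δ ≤ δ'`, `s ≤ d δ ≤ d δ' ≤ 2 d ⌊δ'⌋` because `1 ≤ ⌊δ'⌋` and `δ' < ⌊δ'⌋ + 1` (`Nat.lt_floor_add_one`, `Nat.one_le_floor_iff`/`Nat.le_floor`). -/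
def S_Num2 : Prop := C_Num2

end Pool.Agent.GP
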