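import Pool.Agent.Lib.GP.Spec4

/-!
# Theorem MOM: the first moment of the Gross-Prasad periods (author helper25)

MP_6342b0_nt, hard tier. Setting as in THEOREM GPE (`Spec2.lean`). THEOREM MOM. Let `𝒴 ⊂ G(Af)` with `K 𝒴 K = 𝒴`, finitely many cosets `y K`, `y e ≠ -e` for `y ∈ 𝒴`. There is `C` such that for all `V, W` with `dim Hom_(H(ℝ))(V ⊗ W, ℂ) = 1`, every orthonormal basis `φ_j` of the automorphic forms of weight `V`, level `K` on `G` and all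
orthonormal `ψ_1, .., ψ_s` of weight `W`, level `K ∩ H(Af)` on `H`: `∑_i |∑_j P(T φ_j, ψ_i) conj P(φ_j, ψ_i) - (D/d) ⟨T_H ψ_i, ψ_i⟩|² ≤ C (D/d)² min(s, d) d (d/D)^(1/(2N+4))`; `T`, `T_H` the Hecke operators of `𝒴` and `𝒴 ∩ H(Af)`.

PROOF. For `ψ` the period `φ ↦ P(φ, ψ)` is the product with the form `Ξ(x, g) = D ∑_k ⟨f_k(g), ρ(x) a_k⟩`, `f_k = ∑_i w_i R(z_i, F_k(z_i))` (Poincare series `RP`; BG, Rp, BF4, Rz), so the moment is `P(T Ξ, ψ) = D ∑_k ∑_i w_i ⟨(T f_k)(z_i), F_k(z_i)⟩`. The terms with `γ ∈ H(ℚ)` give `D ∑_k ∑_i w_i ⟨F_k(T_H ψ)(z_i), F_k(z_i)⟩ = (D/d) ⟨T_H ψ, ψ⟩`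
(GM, LM, TH), the others are bounded by the Hilbert-Schmidt norms of `P ρ(γ) P` (OS2).

RULES: `S_X` is to be proved as `theorem tX : S_X` in `Pool/Agent/Lib/GP/X.lean`, first lines `import Pool.Agent.Lib.GP.Spec5`, `set_option autoImplicit false`, the `open` lines of this file, `noncomputable section`, `namespace Pool.Agent.GP`. Auxiliary declarations `private` or with the prefix `X_`. All modules are independent: `S_X` is the implication from the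
statements used to `C_X`.
-/

set_option autoImplicit false

open IsDedekindDomain Matrix MeasureTheory

noncomputable section

namespace Pool.Agent.GP

/-- **BG.** Every automorphic form on `G` comes from vector valued forms. -/
def C_BG : Prop :=
  ∀ (Γ G Gf V : Type) [Group Γ] [Group G] [TopologicalSpace G] [IsTopologicalGroup G] [CompactSpace G]
    [MeasurableSpace G] [BorelSpace G] [Group Gf] [NormedAddCommGroup V] [InnerProductSpace ℂ V]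
    [FiniteDimensional ℂ V] (μ : Measure G) [IsProbabilityMeasure μ] [μ.IsMulLeftInvariant] (ja : Γ →* G)
    (jf : Γ →* Gf) (K : Subgroup Gf) (ρ : URep G V), ρ.Irr → ∀ φ ∈ AF ja jf K ρ,
      ∃ f : Fin (Module.finrank ℂ V) → Gf → V, (∀ l, f l ∈ MV ja jf K ρ) ∧
        ∀ x g, φ x g = ∑ l, inner ℂ (f l g) (ρ.act x (stdOrthonormalBasis ℂ V l))

/-- (110 lines) **BG** (from Sch). PROOF. `v_l = stdOrthonormalBasis ℂ V l`, `D = finrank V`, `f l g = (D : ℂ) • ∫ conj (φ x g) • ρ(x) v_l dμ(x)` (`φ(·, g) ∈ coef ρ` is continuous, so integrable on the compact group). `f l ∈ MV`: `f l (γ g k) = D ∫ conj φ(x, γ g k) ρ(x) v_l = D ∫ conj φ(γ x, γ g k) ρ(γ x) v_l = ρ(γ) f l g`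
(left invariance, invariance of `φ`, `ρ(γ)` commutes with the integral; as in `tBF2`, `Pool/Agent/Lib/GP/BF2.lean`). The formula: for a function `F ∈ coef ρ` of `x` put `f_l(F) = D ∫ conj F(x) ρ(x) v_l`, conjugate linear in `F`, so `F ↦ ∑_l ⟨f_l(F), ρ(x) v_l⟩` is linear and it is enough (`Submodule.span_induction`) to consider `F(x) = ⟨u, ρ(x) v⟩`:
`f_l = D ∫ ⟨ρ(x) v, u⟩ ρ(x) v_l = ⟨v, v_l⟩ u` (Sch), `∑_l ⟨⟨v, v_l⟩ u, ρ(x) v_l⟩ = ∑_l ⟨v_l, v⟩ ⟨u, ρ(x) v_l⟩ = ⟨u, ρ(x) ∑_l ⟨v_l, v⟩ v_l⟩ = ⟨u, ρ(x) v⟩` (`OrthonormalBasis.sum_repr'`). -/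
def S_BG : Prop := C_Sch → C_BG

section

variable {Γ G Gf V : Type} [Group Γ] [Group G] [TopologicalSpace G] [Group Gf] [NormedAddCommGroup V]
  [InnerProductSpace ℂ V]

/-- The Poincare series of `v` at `g`. -/
def RP (ja : Γ →* G) (jf : Γ →* Gf) (K : Subgroup Gf) (ρ : URep G V) (g : Gf) (v : V) : Gf → V :=
  fun g' => ∑ᶠ γ : tr jf K g g', ρ.act (ja γ.1) v

end

/-- **Rp.** The Poincare series are reproducing vectors. -/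
def C_Rp : Prop :=
  ∀ (Γ G Gf V ι : Type) [Group Γ] [Group G] [TopologicalSpace G] [Group Gf] [NormedAddCommGroup V]
    [InnerProductSpace ℂ V] [Fintype ι] (ja : Γ →* G) (jf : Γ →* Gf) (K : Subgroup Gf) (ρ : URep G V) (y : ι → Gf),
    (∀ g g' : Gf, (tr jf K g g').Finite) → (∀ g, ∃ i, ∃ γ, ∃ k ∈ K, g = jf γ * y i * k) →
    (∀ i j γ, γ ∈ tr jf K (y i) (y j) → i = j) → ∀ (g : Gf) (v : V), RP ja jf K ρ g v ∈ MV ja jf K ρ ∧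
      ∀ f ∈ MV ja jf K ρ, ∑ i, ((st (⊤ : Subgroup Γ) jf K (y i) : ℕ) : ℂ)⁻¹ * inner ℂ (f (y i)) (RP ja jf K ρ g v (y i)) =
        inner ℂ (f g) v

/-- (100 lines) **Rp.** PROOF. `tr jf K g (jf δ * g' * k) = {δ γ | γ ∈ tr jf K g g'}` (`(δ g' k)⁻¹ (δ γ g) = k⁻¹ (g'⁻¹ γ g)`), so `RP (δ g' k) = ∑ ρ(δ γ) v = ρ(δ) RP(g')` (finite sums, `finsum_eq_of_bijective` / `Equiv`). SECOND: `f (jf γ g) = ρ(γ) f(g)`, and `f(g' k) = f(g')`. For `γ ∈ tr jf K g (y i)`: `y_i⁻¹ γ g ∈ K`, so `f(y i) = f(γ g) = ρ(γ) f(g)` and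
`⟨f(y_i), ρ(γ) v⟩ = ⟨f(g), v⟩`. So the sum is `∑_i st_i⁻¹ (card of tr jf K g (y i)) ⟨f(g), v⟩`. `g = jf δ y_i0 k`: `tr jf K g (y i)` is empty for `i ≠ i0` (`γ δ ∈ tr (y i0) (y i)`) and in bijection with `tr jf K (y i0) (y i0)` for `i = i0` (`γ ↦ γ δ`), whose card is `st ⊤ jf K (y i0) > 0` (`1` is in it). -/
def S_Rp : Prop := C_Rp

/-- **BF4.** As `BF3`, with multiplicity one. -/
def C_BF4 : Prop :=
  ∀ (Γ G Gf V W : Type) [Group Γ] [Group G] [TopologicalSpace G] [IsTopologicalGroup G] [Group Gf]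
    [NormedAddCommGroup V] [InnerProductSpace ℂ V] [FiniteDimensional ℂ V] [NormedAddCommGroup W]
    [InnerProductSpace ℂ W] [FiniteDimensional ℂ W] (ja : Γ →* G) (ΓH : Subgroup Γ) (H : Subgroup G)
    (Hf : Subgroup Gf) (jaH : ΓH →* H) (jfH : ΓH →* Hf) (KH' : Subgroup Hf) [CompactSpace H] [MeasurableSpace H]
    [BorelSpace H] (μ : Measure H) [IsProbabilityMeasure μ] [μ.IsMulLeftInvariant] [μ.IsOpenPosMeasure]
    (ρ : URep G V) (σ : URep H W) (l : V →ₗ[ℂ] W →ₗ[ℂ] ℂ), (∀ γ, (jaH γ : G) = ja γ) → σ.Irr → l ≠ 0 →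
    (∀ (x : H) v w, l (ρ.act x v) (σ.act x w) = l v w) →
    (∀ l' : V →ₗ[ℂ] W →ₗ[ℂ] ℂ, (∀ (x : H) v w, l' (ρ.act x v) (σ.act x w) = l' v w) → ∃ c : ℂ, l' = c • l) →
    ∃ (P : V →ₗ[ℂ] V) (a : Fin (Module.finrank ℂ W) → V), Prj P ∧ (∀ x ∈ H, ∀ v, P (ρ.act x v) = ρ.act x (P v)) ∧
      rk P = Module.finrank ℂ W ∧
      ∀ φ' ∈ AF jaH jfH KH' σ,
        (∀ k (g : Hf) (v : V), ∫ x, inner ℂ v (ρ.act (x : G) (a k)) * φ' x g ∂μ = inner ℂ v (FF μ ρ φ' (a k) g)) ∧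
        (∀ k g, P (FF μ ρ φ' (a k) g) = FF μ ρ φ' (a k) g) ∧
        (∀ k (γ : ΓH) (g : Hf), ∀ κ ∈ KH', FF μ ρ φ' (a k) (jfH γ * g * κ) = ρ.act (ja γ) (FF μ ρ φ' (a k) g)) ∧
        (∀ (v u : V) (g : Hf), ∫ x, inner ℂ u (ρ.act (x : G) v) * φ' x g ∂μ =
          ∑ k, inner ℂ (a k) v * inner ℂ u (FF μ ρ φ' (a k) g)) ∧
        ∀ ψ ∈ AF jaH jfH KH' σ, ∀ g : Hf, ∑ k, inner ℂ (FF μ ρ φ' (a k) g) (FF μ ρ ψ (a k) g) =
          (Module.finrank ℂ W : ℂ)⁻¹ * ∫ x, (starRingEnd ℂ) (φ' x g) * ψ x g ∂μ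

/-- (200 lines) **BF4** (from Jw2, Sch). PROOF. Copy the proof of `tBF3` (`Pool/Agent/Lib/GP/BF3.lean`): `a k = J w_k`, `w_k` an orthonormal basis of `W`. New is only the item on `∫ ⟨u, ρ(x) v⟩ φ'(x, g) dμ = ⟨u, FF φ' v g⟩`: show `FF φ' v g = ∑_k ⟨a_k, v⟩ FF φ' (a_k) g`. The `a_k` are orthonormal (`⟨J w, J w'⟩ = ⟨w', w⟩`), in the range of `P`, and `rk P = d`:
an orthonormal basis of the range, so `P v = ∑_k ⟨a_k, v⟩ a_k` and `FF φ' (P v) g = ∑_k ⟨a_k, v⟩ FF φ' (a_k) g` (linearity of the integral). It remains to show `FF φ' v g = 0` if `P v = 0` (apply it to `v - P v`). By linearity (`Submodule.span_induction` for `φ'(·, g) ∈ coef σ`) this is `∫ ⟨u0, σ(x) w⟩ ρ(x) v dμ = 0` for all `u0, w ∈ W`. Let `u0 ∈ W`, `u ∈ V` be fixed,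
`l'(v, w) = ∫ ⟨u0, σ(x) w⟩ ⟨u, ρ(x) v⟩ dμ(x)`: bilinear (`LinearMap.mk₂`), and `l'(ρ(y) v, σ(y) w) = l'(v, w)` because `μ` is also right invariant: for continuous `f` and `y ∈ H`: `∫ f(x y) dμ(x) = ∫ f(x) dμ(x)`. (A left invariant probability measure on a compact group is right invariant: Mathlib has unimodularity of compact groups, search `IsMulRightInvariant` / `modularCharacter` / `haarMeasure` with
`CompactSpace`; or `∫ f(x y) dμ(x)` defines a left invariant probability measure (the map by `· * y`), and left invariant probability measures on a compact group are equal: `MeasureTheory.Measure.isMulInvariant_eq_smul_of_compactSpace`.) So `l' = c • l`. Also `l''(v, w) = ⟨J w, v⟩` is bilinear, invariant and not `0`, `l'' = c'' • l`, `c'' ≠ 0`.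
If `P v = 0` then `⟨J w, v⟩ = ⟨P J w, v⟩ = ⟨J w, P v⟩ = 0`, so `l v w = 0` and `l' v w = 0` for all `w`. As `u` is arbitrary, `∫ ⟨u0, σ(x) w⟩ ρ(x) v dμ = 0`. -/
def S_BF4 : Prop := C_Jw2 → C_Sch → C_BF4

/-- **Rz.** The Riesz vector of a period. -/
def C_Rz : Prop :=
  ∀ (Γ G Gf V ι ιH : Type) [Group Γ] [Group G] [TopologicalSpace G] [IsTopologicalGroup G] [CompactSpace G]
    [MeasurableSpace G] [BorelSpace G] [Group Gf] [NormedAddCommGroup V] [InnerProductSpace ℂ V]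
    [FiniteDimensional ℂ V] [Fintype ι] [Fintype ιH] (μ : Measure G) [IsProbabilityMeasure μ]
    [μ.IsMulLeftInvariant] (ja : Γ →* G) (jf : Γ →* Gf) (K : Subgroup Gf) (ρ : URep G V) (y : ι → Gf), ρ.Irr →
    (∀ g g' : Gf, (tr jf K g g').Finite) → (∀ g, ∃ i, ∃ γ, ∃ k ∈ K, g = jf γ * y i * k) →
    (∀ i j γ, γ ∈ tr jf K (y i) (y j) → i = j) → ∀ (z : ιH → Gf) (w : ιH → ℝ) (d : ℕ) (a : Fin d → V)
      (F : Fin d → ιH → V) (Ξ : G → Gf → ℂ),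
      (∀ x g, Ξ x g = (Module.finrank ℂ V : ℂ) * ∑ k, inner ℂ (∑ i, (w i : ℂ) • RP ja jf K ρ (z i) (F k i) g) (ρ.act x (a k))) →
      Ξ ∈ AF ja jf K ρ ∧ ∀ f ∈ MV ja jf K ρ, ∀ v : V,
        ∑ m, ((st (⊤ : Subgroup Γ) jf K (y m) : ℕ) : ℂ)⁻¹ *
          ∫ x, (starRingEnd ℂ) (Ξ x (y m)) * inner ℂ (f (y m)) (ρ.act x v) ∂μ =
            ∑ k, inner ℂ (a k) v * ∑ i, (w i : ℂ) * inner ℂ (f (z i)) (F k i)

/-- (120 lines) **Rz** (from Sch, Rp). PROOF. `f_k(g) = ∑_i w_i RP(z_i, F_ki)(g)` is in `MV` (Rp, submodule). `Ξ ∈ AF`: `⟨f_k(γ g κ), ρ(γ x) a_k⟩ = ⟨ρ(γ) f_k(g), ρ(γ) ρ(x) a_k⟩ = ⟨f_k(g), ρ(x) a_k⟩`, and it is a combination of coefficients. `∫ conj ⟨f_k(y), ρ(x) a_k⟩ ⟨f(y), ρ(x) v⟩ dμ = ∫ ⟨ρ(x) a_k, f_k(y)⟩ ⟨f(y), ρ(x) v⟩ = ⟨f(y), ∫ ⟨ρ(x) a_k, f_k(y)⟩ ρ(x) v⟩`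
`= D⁻¹ ⟨a_k, v⟩ ⟨f(y), f_k(y)⟩` (Sch; `integral_inner`; all functions are continuous in `x`). Multiply by `D` (`conj D = D`, `D ≠ 0`) and sum: `∑_k ⟨a_k, v⟩ ∑_m st_m⁻¹ ⟨f(y_m), f_k(y_m)⟩`, and `∑_m st_m⁻¹ ⟨f(y_m), RP(z_i, F_ki)(y_m)⟩ = ⟨f(z_i), F_ki⟩` (Rp). -/
def S_Rz : Prop := C_Sch → C_Rp → C_Rz

/-- The elements of `𝒴` which are in the subgroup `Hf`. -/
def resY {Gf : Type} [Group Gf] (Hf : Subgroup Gf) (𝒴 : Set Gf) : Set Hf := {h | (h : Gf) ∈ 𝒴}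

/-- **GM.** The good terms. -/
def C_GM : Prop :=
  ∀ (Γ G Gf V ι : Type) [Group Γ] [Group G] [TopologicalSpace G] [Group Gf] [NormedAddCommGroup V]
    [InnerProductSpace ℂ V] [Fintype ι] (ja : Γ →* G) (jf : Γ →* Gf) (K : Subgroup Gf) (ΓH : Subgroup Γ)
    (Hf : Subgroup Gf) (ρ : URep G V) (z : ι → Gf) (𝒴 : Set Gf), (∀ g g' : Gf, (tr jf K g g').Finite) →
    (∀ γ ∈ ΓH, jf γ ∈ Hf) → (∀ i, z i ∈ Hf) → (∀ i j, ∀ γ ∈ ΓH, γ ∈ tr jf K (z i) (z j) → i = j) →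
    (∀ h ∈ Hf, ∃ i, ∃ γ ∈ ΓH, ∃ κ ∈ K, κ ∈ Hf ∧ h = jf γ * z i * κ) → (cs K 𝒴).Finite →
    (∀ y ∈ 𝒴, ∀ k ∈ K, y * k ∈ 𝒴) →
    ∀ F : Gf → V, (∀ γ ∈ ΓH, ∀ h ∈ Hf, ∀ κ ∈ K, κ ∈ Hf → F (jf γ * h * κ) = ρ.act (ja γ) (F h)) → ∀ i,
      ∑ i', (wt jf K ΓH z i' : ℂ) • ∑ᶠ c : cs K 𝒴,
        ∑ᶠ γ : {γ : Γ // γ ∈ ΓH ∧ γ ∈ tr jf K (z i') (z i * Quotient.out c.1)}, ρ.act (ja γ.1) (F (z i')) =
          ∑ᶠ c' : cs (K.comap Hf.subtype) (resY Hf 𝒴), F (z i * (Quotient.out c'.1 : Hf))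

/-- (150 lines) **GM.** PROOF. For `c ∈ cs K 𝒴` let `S(c)` be the sum over `i'` and `γ` with this `c`. If `γ ∈ ΓH` is in `tr jf K (z i') (z i * out c)` then `h = z_i⁻¹ jf γ z_i' ∈ Hf` is in `out c K`. So `S(c) = 0` (empty sums) if the coset `c` does not meet `Hf`. If `h ∈ Hf` is in the coset `c` (`out c = h k`, `k ∈ K`) then `z_i h ∈ Hf`, `z_i h = jf γ0 z_i0 κ0`,
and `γ ∈ ΓH` is in `tr jf K (z i') (z i * out c)` iff `jf γ z_i' ∈ z_i h K` iff `γ0⁻¹ γ ∈ tr jf K (z i') (z i0)`: so `i' = i0` and `γ0⁻¹ γ` is in the stabilizer, `st ΓH jf K (z i0)` elements (finite, `≥ 1`); every term is `ρ(γ) F(z_i0) = F(jf γ z_i0) = F(z_i h)` (`jf γ z_i0 = z_i h κ` with `κ ∈ K`, and `κ ∈ Hf` because all others are; hypothesis on `F`), so `S(c) = w_i0 st_i0 F(z_i h) = F(z_i h)`.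
The cosets `c ∈ cs K 𝒴` which meet `Hf` correspond to the `c' ∈ cs (K.comap Hf.subtype) (resY Hf 𝒴)`: `c' = ↑h ↦ c = ↑(h : Gf)` (well defined and injective: `h⁻¹ h' ∈ K`), onto the cosets which meet `Hf` (`h ∈ out c K`, `out c ∈ 𝒴 K ⊂ 𝒴`, so `h ∈ 𝒴`), and `F(z_i h) = F(z_i out c')` (`h` and `out c'` differ by an element of `K ∩ Hf`). -/
def S_GM : Prop := C_GM

/-- **LM.** The moment of `F`. -/
def C_LM : Prop :=
  ∀ (Γ G Gf V ι : Type) [Group Γ] [Group G] [TopologicalSpace G] [Group Gf] [NormedAddCommGroup V]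
    [InnerProductSpace ℂ V] [Fintype ι] (ja : Γ →* G) (jf : Γ →* Gf) (K : Subgroup Gf) (ΓH : Subgroup Γ)
    (Hf : Subgroup Gf) (ρ : URep G V) (z : ι → Gf) (𝒴 : Set Gf), (∀ g g' : Gf, (tr jf K g g').Finite) →
    (∀ γ ∈ ΓH, jf γ ∈ Hf) → (∀ i, z i ∈ Hf) → (∀ i j, ∀ γ ∈ ΓH, γ ∈ tr jf K (z i) (z j) → i = j) →
    (∀ h ∈ Hf, ∃ i, ∃ γ ∈ ΓH, ∃ κ ∈ K, κ ∈ Hf ∧ h = jf γ * z i * κ) → (cs K 𝒴).Finite →
    (∀ y ∈ 𝒴, ∀ k ∈ K, y * k ∈ 𝒴) → ∀ n1 : ℕ, (∀ i i', ∀ y ∈ 𝒴, (tr jf K (z i) (z i' * y)).ncard ≤ n1) →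
    ∃ (κ : Type) (_ : Fintype κ) (I I' : κ → ι) (g : κ → Γ), Fintype.card κ ≤ Fintype.card ι ^ 2 * (cs K 𝒴).ncard * n1 ∧
      (∀ t, g t ∉ ΓH ∧ ∃ y ∈ 𝒴, g t ∈ tr jf K (z (I t)) (z (I' t) * y)) ∧
      ∀ F : Gf → V, (∀ γ ∈ ΓH, ∀ h ∈ Hf, ∀ κ ∈ K, κ ∈ Hf → F (jf γ * h * κ) = ρ.act (ja γ) (F h)) →
        ∑ i, (wt jf K ΓH z i : ℂ) * inner ℂ (Hk K (cs K 𝒴)
          (fun g' => ∑ i', (wt jf K ΓH z i' : ℂ) • RP ja jf K ρ (z i') (F (z i')) g') (z i)) (F (z i)) =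
        ∑ i, (wt jf K ΓH z i : ℂ) * inner ℂ
          (∑ᶠ c' : cs (K.comap Hf.subtype) (resY Hf 𝒴), F (z i * (Quotient.out c'.1 : Hf))) (F (z i)) +
        ∑ t, ((wt jf K ΓH z (I t) * wt jf K ΓH z (I' t) : ℝ) : ℂ) *
          inner ℂ (ρ.act (ja (g t)) (F (z (I t)))) (F (z (I' t)))

/-- (130 lines) **LM** (from GM). PROOF. `κ` = the type of the `(i, i', c, γ)`, `c ∈ cs K 𝒴`, `γ` in the finite set `{γ | γ ∈ tr jf K (z i) (z i' * out c) ∧ γ ∉ ΓH}` (card at most `n1`, as `out c ∈ 𝒴`); `I = i`, `I' = i'`, `g = γ`; `y = out c ∈ 𝒴` (`out c = y0 k`, `y0 ∈ 𝒴`). `Hk K (cs K 𝒴) f (z i) = ∑_c f(z_i out c)`, `f(z_i out c) = ∑_i' w_i' ∑_(γ ∈ tr (z i') (z i out c)) ρ(γ) F(z_i')`; split the sum over `γ` in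
`γ ∈ ΓH` and `γ ∉ ΓH` (all sums are finite: `finsum_eq_sum_of_fintype`). The first part is GM; the second part, with the product with `F(z_i)` (conjugate linear in the first variable, the weights are real), is the sum over `κ`. -/
def S_LM : Prop := C_GM → C_LM

/-- **OS2.** The variance over an orthonormal system. -/
def C_OS2 : Prop :=
  ∀ (V ι κ : Type) [NormedAddCommGroup V] [InnerProductSpace ℂ V] [FiniteDimensional ℂ V] [Fintype ι] [Fintype κ]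
    (I I' : κ → ι) (D : κ → V →ₗ[ℂ] V) (w : ι → ℝ) (β : ℝ) (s d : ℕ) (F : Fin s → Fin d → ι → V),
    (∀ i, 0 < w i ∧ w i ≤ 1) → (∀ t, hs2 (D t) ≤ β) →
    (∀ j j', ∑ k, ∑ i, (w i : ℂ) * inner ℂ (F j k i) (F j' k i) = if j = j' then 1 else 0) →
      ∑ j, ‖∑ k, ∑ t, ((w (I t) * w (I' t) : ℝ) : ℂ) * inner ℂ (D t (F j k (I t))) (F j k (I' t))‖ ^ 2 ≤
        (Fintype.card κ : ℝ) ^ 2 * ((min s d : ℕ) * β)

/-- (130 lines) **OS2** (from HS). PROOF (compare `tOS`, `Pool/Agent/Lib/GP/OS.lean`, and `tLA`). `x_jki = √w_i F_jki`: the `x_j ∈ PiLp 2 (fun _ : Fin d × ι => V)` are orthonormal, `w_I w_I' ⟨D F_I, F_I'⟩ = √(w_I w_I') ⟨D x_I, x_I'⟩`. For fixed `j`, `t`: `∑_k |⟨D x_jk(I), x_jk(I')⟩| ≤ (∑_k ‖D x_jk(I)‖²)^(1/2) (∑_k ‖x_jk(I')‖²)^(1/2) ≤ (∑_k ‖D x_jk(I)‖²)^(1/2)`.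
So the `j`-th term is at most `(∑_t (∑_k ‖D_t x_jk(I t)‖²)^(1/2))² ≤ card κ ∑_t ∑_k ‖D_t x_jk(I t)‖²`. (i) `∑_k ‖D_t x_jk(I t)‖² ≤ β ∑_k ‖x_jk(I t)‖² ≤ β` (HS (4); `β ≥ 0` if `κ` is not empty): the total is at most `s (card κ)² β`. (ii) `∑_j ∑_k ‖D_t x_jk(I t)‖² ≤ d hs2 (D t) ≤ d β` (Bessel, as in OS): the total is at most `(card κ)² d β`. If `κ` is empty the left side is `0`. -/
def S_OS2 : Prop := C_HS → C_OS2

/-- **TH.** The Hecke operator on the forms of `H`. -/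
def C_TH : Prop :=
  ∀ (Γ G Gf V W : Type) [Group Γ] [Group G] [TopologicalSpace G] [Group Gf] [NormedAddCommGroup V]
    [InnerProductSpace ℂ V] [FiniteDimensional ℂ V] [NormedAddCommGroup W] [InnerProductSpace ℂ W]
    (ΓH : Subgroup Γ) (H : Subgroup G) (Hf : Subgroup Gf) (jaH : ΓH →* H) (jfH : ΓH →* Hf) (KH' : Subgroup Hf)
    [CompactSpace H] [MeasurableSpace H] [BorelSpace H] (μ : Measure H) [IsProbabilityMeasure μ]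
    (ρ : URep G V) (σ : URep H W) (𝒵 : Set Hf), (cs KH' 𝒵).Finite → KS KH' 𝒵 → ∀ ψ ∈ AF jaH jfH KH' σ,
      (fun x => Hk KH' (cs KH' 𝒵) (ψ x)) ∈ AF jaH jfH KH' σ ∧
        ∀ (a : V) (h : Hf), FF μ ρ (fun x => Hk KH' (cs KH' 𝒵) (ψ x)) a h =
          ∑ᶠ c : cs KH' 𝒵, FF μ ρ ψ a (h * Quotient.out c.1)

/-- (80 lines) **TH.** PROOF. `Hk KH' (cs KH' 𝒵) (ψ x) h = ∑_c ψ(x, h out c)`, a finite sum. `ψ(x, ·)` is right `KH'`-invariant. Membership: `ψ(γ x, γ h out c) = ψ(x, h out c)`, and `h κ out c`: the map `c ↦ κ c` is a permutation of `cs KH' 𝒵` (`KS`), as in `tHk1` (`Pool/Agent/Lib/GP/Hk1.lean`; or use `(hHk1 Hf KH').1 ℂ 𝒵 (ψ x)` with the proof of `tHk1` imported) so `∑_c ψ(x, h κ out c) = ∑_c ψ(x, h out c)`;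
`coef σ` is a submodule. `FF`: the integral of a finite sum of integrable (continuous) functions, `Finset.sum_smul`. -/
def S_TH : Prop := C_TH

end Pool.Agent.GP
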