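import Pool.Agent.Lib.GP.Spec

/-!
# Theorem GP: the arithmetic modules and the main theorem (author helper25)

Adeles (`AD1 .. AD6`), the real group (`GR1, GR2`), finite transporters (`GR3`), reduction theory of positive definite integral forms (`Prm, Red, Her, CN1, FinV`), the class number (`CN2, CN3, CN4`), the main theorem (`GP`).

RULES: `S_X` is to be proved as `theorem tX : S_X` in `Pool/Agent/Lib/GP/X.lean`, first lines `import Pool.Agent.Lib.GP.SpecA`, `set_option autoImplicit false`, the `open` line of this file, `noncomputable section`, `namespace Pool.Agent.GP`. Auxiliary declarations `private` or with the prefix `X_`.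
All modules are independent: `S_X` is the implication from the statements used to `C_X`.
-/

set_option autoImplicit false

open IsDedekindDomain Matrix MeasureTheory

noncomputable section

namespace Pool.Agent.GP

/-- The rational symmetric matrix `Q` is positive definite. -/
def PQ {N : ℕ} (Q : Matrix (Fin N) (Fin N) ℚ) : Prop :=
  Q.IsSymm ∧ ∀ x : Fin N → ℝ, x ≠ 0 → 0 < x ⬝ᵥ (Q.map (algebraMap ℚ ℝ) *ᵥ x)

/-- The integral symmetric matrix `S` is positive definite. -/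
def PD {N : ℕ} (S : Matrix (Fin N) (Fin N) ℤ) : Prop :=
  S.IsSymm ∧ ∀ x : Fin N → ℝ, x ≠ 0 → 0 < x ⬝ᵥ (S.map (Int.cast : ℤ → ℝ) *ᵥ x)

/-! ## Adeles -/

/-- **AD1.** Denominators. -/
def C_AD1 : Prop := ∀ a : Af, ∃ m : ℕ, 0 < m ∧ (m : Af) * a ∈ Zh

/-- (60 lines) **AD1.** PROOF. `a v` is in `O_v` for all `v` outside a finite set `T` (`a.2`, a filter statement for `cofinite`). For `v ∈ T` there is a nonzero integer `b_v` with `a_v b_v ∈ O_v` (`adicCompletion.mul_nonZeroDivisor_mem_adicCompletionIntegers`). `m = ∏_(v ∈ T) |b_v|`; integers are in `O_v`, so `m a_v ∈ O_v` for all `v`. -/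
def S_AD1 : Prop := C_AD1

/-- **AD2.** Rational numbers which are integral adeles. -/
def C_AD2 : Prop := ∀ q : ℚ, algebraMap ℚ Af q ∈ Zh → ∃ z : ℤ, q = z

/-- (20 lines) **AD2.** PROOF. `HeightOneSpectrum.mem_integers_of_valuation_le_one`. -/
def S_AD2 : Prop := C_AD2

/-- **AD3.** Strong approximation for the additive group. -/
def C_AD3 : Prop :=
  ∀ (a : Af) (m : ℕ), 0 < m → ∃ (q : ℚ) (z : Af), z ∈ Zh ∧ a = algebraMap ℚ Af q + m * z

/-- (120 lines) **AD3** (from AD1). PROOF. CLAIM: for `b ∈ Zh` and `M > 0` there is an integer `c` with `b = c + M z`, `z ∈ Zh`. For `v` with `M` a unit in `O_v` every `c` is fine. The other `v` are finitely many (`HeightOneSpectrum.Support.finite` or the finitely many prime factors of `M`); for such `v` let `c_v` be an integer with `b_v - c_v ∈ M O_v`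
(`ℤ` is dense in `O_v`: `ℚ` is dense in the completion (`adicCompletion.denseRange_algebraMap`), a rational `q` with `v(b_v - q) ≤ v(M)` has `v(q) ≤ 1`, so its denominator `s` is prime to `p`, and with `s s' ≡ 1` modulo a high power of `p`, `c_v = (numerator) s'`; or use `adicCompletionIntegers.padicIntEquiv` and `PadicInt.appr`). Chinese remainder theorem
(`IsDedekindDomain.exists_forall_sub_mem_ideal`, or for integers and prime powers): an integer `c` with `c - c_v ∈ M O_v` for these finitely many `v`. `z = (b - c)/M` (`M` is invertible in `Af`: `algebraMap ℚ Af (1/M)`). Now AD1: `n a ∈ Zh`, the CLAIM with `M = n m`: `n a = c + n m z`, so `a = c/n + m z`. -/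
def S_AD3 : Prop := C_AD1 → C_AD3

/-- **AD5.** Bounded denominators on compact sets. -/
def C_AD5 : Prop :=
  ∀ (N : ℕ) (Q : Matrix (Fin N) (Fin N) ℚ) (S : Set (Gp Q Af)), IsCompact S →
    ∃ m : ℕ, 0 < m ∧ ∀ g ∈ S, ∀ i j, (m : Af) * g.1.1 i j ∈ Zh

/-- (60 lines) **AD5** (from AD1). PROOF. For fixed `i, j` the set `T` of the entries `g_ij`, `g ∈ S`, is compact (`g ↦ g.1.1 i j` is continuous: subspace topologies). `Zh` is open in `Af` (`RestrictedProduct.isOpen_forall_mem`; `Valued.isOpen_valuationSubring`), so `U_m = {a | m a ∈ Zh}` is open, and the `U_m`, `m ≥ 1`, cover `T` (AD1). A finite subcover;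
the product `M` of its `m` is a multiple of each, so `T ⊂ U_M`. Multiply over the pairs `i, j`. -/
def S_AD5 : Prop := C_AD1 → C_AD5

/-- **AD6.** Open subgroups contain a congruence subgroup. -/
def C_AD6 : Prop :=
  ∀ (N : ℕ) (Q : Matrix (Fin N) (Fin N) ℚ) (K : Subgroup (Gp Q Af)), IsOpen (K : Set (Gp Q Af)) →
    ∃ m : ℕ, 0 < m ∧ ∀ g : Gp Q Af,
      (∀ i j, ∃ z ∈ Zh, g.1.1 i j = (1 : Matrix (Fin N) (Fin N) Af) i j + (m : Af) * z) → g ∈ K

/-- (120 lines) **AD6.** PROOF. LEMMA: every neighbourhood `U` of `0` in `Af` contains `m Zh` for some `m ≥ 1`. The map `∏_v O_v → Af` is continuous (`RestrictedProduct.isEmbedding_structureMap`, `nhds_zero_eq_map_structureMap`, .. ), the preimage of `U` is a neighbourhood of `0` in the product: it contains `{a | a_v ∈ U_v for v ∈ T}`,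
`T` finite, `U_v` a neighbourhood of `0` in `O_v`, so it contains `{x | v(x) < γ_v}`; choose an integer `m_v ≥ 1` with `v(m_v) < γ_v` (a power of the prime `p` of `v`), `m = ∏_(v ∈ T) m_v`. Then `K` is a neighbourhood of `1` in `Gp Q Af` with the topology induced from the matrices (a finite product), so there is a neighbourhood `U` of `0` such that
`g_ij - 1_ij ∈ U` for all `i, j` implies `g ∈ K`. -/
def S_AD6 : Prop := C_AD6

/-! ## The real group -/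

/-- **GR1.** Compactness. -/
def C_GR1 : Prop :=
  ∀ (N : ℕ) (Q : Matrix (Fin N) (Fin N) ℚ) (e : Fin N → ℚ), PQ Q →
    CompactSpace (Gp Q ℝ) ∧ CompactSpace (Hp Q e ℝ) ∧ ∃ R : ℝ, ∀ g : Gp Q ℝ, ∀ i j, |g.1.1 i j| ≤ R

/-- (80 lines) **GR1.** PROOF. `xᵀ Q x` is continuous and positive on the compact unit sphere (`N ≥ 1`; `N = 0` is trivial), so `λ |x|² ≤ xᵀ Q x` with `λ > 0`. The column `g_j` of `g ∈ Gp Q ℝ` has `g_jᵀ Q g_j = Q_jj`: the entries are bounded. `Gp Q ℝ` and `Hp Q e ℝ` are closed in the matrices (see the proof of `instLC` in `Defs.lean`; `Matrix` has no metric: use `Fin N → Fin N → ℝ`),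
closed and bounded: compact (`isCompact_of_isClosed_isBounded`; `Topology.IsClosedEmbedding.compactSpace` or `isCompact_iff_compactSpace`, `IsClosedEmbedding.isCompact_preimage`). -/
def S_GR1 : Prop := C_GR1

/-- **GR2.** The structure `Rot` on the real orthogonal group. -/
def C_GR2 : Prop :=
  ∀ (N : ℕ) (Q : Matrix (Fin N) (Fin N) ℚ) (e : Fin N → ℚ), PQ Q → e ≠ 0 →
    ∃ (e' : EE N) (R : Rot (Gp Q ℝ) N e'), ∀ g : Gp Q ℝ, (R.τ g e' = e' ↔ g ∈ Hp Q e ℝ) ∧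
      (R.τ g e' = -e' ↔ g.1.1 *ᵥ ve e ℝ = -ve e ℝ)

/-- (170 lines) **GR2.** PROOF. There is an invertible real matrix `B` with `Bᵀ B = Q` (`Matrix.posDef_iff_eq_conjTranspose_mul_self` or the square root of a positive definite matrix, or an orthonormal basis for the inner product `xᵀ Q y`). `τ(g) = B g B⁻¹` as an isometry of `EE N` (`Matrix.toEuclideanLin`, `Matrix.toLin'`): `(B g B⁻¹)ᵀ (B g B⁻¹) = B⁻ᵀ gᵀ Q g B⁻¹ = 1`.
`e' = B e/‖B e‖`, `B e ≠ 0`. `τ(g) e' = ± e'` iff `B g e = ± B e` iff `g e = ± e`. Rotations: for orthonormal `a, b` let `R(α) = 1 + (cos α - 1)(a aᵀ + b bᵀ) + sin α (b aᵀ - a bᵀ)` (real matrix), `R(α) R(β) = R(α + β)`, `R(0) = 1`, `R(α)ᵀ = R(-α)`, so `R(α)` is orthogonal, `det R(α) = det (R(α/2))² = (± 1)² = 1`.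
`c(α) = B⁻¹ R(α) B`: `det = 1`, `c(α)ᵀ Q c(α) = Bᵀ R(α)ᵀ R(α) B = Q`, continuous in `α`, `τ(c α) = R(α)`. -/
def S_GR2 : Prop := C_GR2

/-- **GR3.** The transporters are finite. -/
def C_GR3 : Prop :=
  ∀ (N : ℕ) (Q : Matrix (Fin N) (Fin N) ℚ) (K : Subgroup (Gp Q Af)), PQ Q → IsCompact (K : Set (Gp Q Af)) →
    ∀ g g' : Gp Q Af, (tr (jG Q Af) K g g').Finite

/-- (70 lines) **GR3** (from AD2, AD5, GR1). PROOF. For `γ` in the transporter `jG γ ∈ g' K g⁻¹`, a compact set, so by AD5 there is `m ≥ 1`, independent of `γ`, with `m γ_ij ∈ Zh` (the entries of `jG Q Af γ` are `algebraMap ℚ Af (γ_ij)`), so `m γ_ij = z_ij ∈ ℤ` (AD2), and `|γ_ij| ≤ R` (GR1 for `jG Q ℝ γ`), so `|z_ij| ≤ m R`. The map `γ ↦ (z_ij)` is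
injective with values in a finite set of integral matrices. -/
def S_GR3 : Prop := C_AD2 → C_AD5 → C_GR1 → C_GR3

/-! ## Reduction theory -/

/-- **Prm.** A primitive vector is the first column of an invertible matrix. -/
def C_Prm : Prop :=
  ∀ (N : ℕ) (v : Fin (N + 1) → ℤ), (∀ (k : ℤ) (w : Fin (N + 1) → ℤ), v = k • w → IsUnit k) →
    ∃ U U' : Matrix (Fin (N + 1)) (Fin (N + 1)) ℤ, U * U' = 1 ∧ U' * U = 1 ∧ ∀ i, U i 0 = v i

/-- (80 lines) **Prm.** PROOF. `v ≠ 0` (`0 = 0 • 0`). `L = ℤ v` is a submodule of rank `1` of `ℤ^(N+1)`. Smith normal form (`Submodule.smithNormalForm`): a basis `b` of `ℤ^(N+1)`, a basis `b'` of `L` indexed by `Fin n`, `f : Fin n ↪ Fin (N+1)`, integers `a_i` with `b'_i = a_i b_(f i)`; `n = 1`, `b'_0 = ± v`, so `v = ± a_0 b_(f 0)`, `a_0` is a unit (hypothesis), `v = ± b_(f 0)`.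
`U` = the matrix with columns the basis `b`, reindexed by the transposition of `0` and `f 0`, and with a sign changed at the first column. (Alternative: Euclid: induction on `N` with `2 × 2` matrices.) -/
def S_Prm : Prop := C_Prm

/-- **Red.** One reduction step. -/
def C_Red : Prop :=
  ∀ (N : ℕ) (S : Matrix (Fin (N + 1)) (Fin (N + 1)) ℤ), PD S → ∃ (a : ℤ) (T : Matrix (Fin N) (Fin N) ℤ), 0 < a ∧
    (∀ x : Fin (N + 1) → ℤ, x ≠ 0 → a ≤ x ⬝ᵥ (S *ᵥ x)) ∧ PD T ∧ a * T.det = a ^ N * S.det ∧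
    ∀ W W' : Matrix (Fin N) (Fin N) ℤ, W * W' = 1 → W' * W = 1 →
      ∃ U U' : Matrix (Fin (N + 1)) (Fin (N + 1)) ℤ, U * U' = 1 ∧ U' * U = 1 ∧ (Uᵀ * S * U) 0 0 = a ∧
        (∀ i : Fin N, 2 * |(Uᵀ * S * U) 0 i.succ| ≤ a) ∧
        ∀ i j : Fin N, a * (Uᵀ * S * U) i.succ j.succ -
          (Uᵀ * S * U) 0 i.succ * (Uᵀ * S * U) 0 j.succ = (Wᵀ * T * W) i j

/-- (230 lines) **Red** (from Prm). PROOF. `a` = the smallest value of `xᵀ S x` for `0 ≠ x ∈ ℤ^(N+1)` (positive integers: well ordering, `Nat.find` or `WellFounded.min`), attained at `v`. `v` is primitive: `v = k w` gives `a = k² wᵀ S w ≥ k² a` (`w ≠ 0`), so `k² ≤ 1`, and `k ≠ 0`. Prm: `U0` with first column `v`, `S0 = U0ᵀ S U0`, `(S0)_00 = a`, `s_i = (S0)_(0, i+1)`,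
`T_ij = a (S0)_(i+1, j+1) - s_i s_j`. `PD T`: symmetric; for `0 ≠ y ∈ ℝ^N` let `x = (-⟨s, y⟩, a y) ≠ 0`: `xᵀ S0 x = a (a yᵀ S0' y - ⟨s, y⟩²) = a yᵀ T y` (`S0'` the lower right block), positive because `xᵀ S0 x = (U0 x)ᵀ S (U0 x)`, `U0 x ≠ 0`. Determinant: let `E` be the matrix with columns `e_0` and `a e_(i+1) - s_i e_0` (upper triangular, `det E = a^N`);
`Eᵀ S0 E = diag(a, a T)` in blocks, so `a^(2N) det S = a * a^N det T` (`det U0 = ± 1`, so `det S0 = det S`; `Matrix.det_succ_column_zero`, or blocks via `Fin.cons`/`reindex` with `Fin 1 ⊕ Fin N`, `Matrix.det_fromBlocks_zero₂₁`); cancel `a^N`. Given `W`: `s' = Wᵀ s`, `r_i` an integer with `2 |s'_i + a r_i| ≤ a` (round `-s'_i/a`; `Int.bmod` or `Int.emod`),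
`U1` the matrix with `(U1)_00 = 1`, `(U1)_(0, i+1) = r_i`, `(U1)_(i+1, 0) = 0`, lower right block `W`; its inverse has the same shape with `W'` and `-r W'`. `U = U0 U1`: `Uᵀ S U = U1ᵀ S0 U1` has the entries `a`, `s'_i + a r_i`, `(Wᵀ S0' W)_ij + r_i s'_j + s'_i r_j + a r_i r_j`, and
`a (..)_ij - (s'_i + a r_i)(s'_j + a r_j) = a (Wᵀ S0' W)_ij - s'_i s'_j = (Wᵀ T W)_ij`. -/
def S_Red : Prop := C_Prm → C_Red

/-- **Her.** Hermite's inequality. -/
def C_Her : Prop :=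
  ∀ N : ℕ, ∃ c : ℕ, 0 < c ∧ ∀ S : Matrix (Fin (N + 1)) (Fin (N + 1)) ℤ, PD S →
    ∃ x : Fin (N + 1) → ℤ, x ≠ 0 ∧ 0 < x ⬝ᵥ (S *ᵥ x) ∧ (x ⬝ᵥ (S *ᵥ x)) ^ (N + 1) ≤ c * S.det

/-- (100 lines) **Her** (from Red). PROOF. Induction on `N`. `N = 0`: `x = 1`, the value is `S_00 = det S`, `c = 1`. Step: `S` of size `N + 2`. Red for `S`: `a`, `T` (size `N + 1`), `det T = a^N det S` (from `a det T = a^(N+1) det S`). Red for `T`: `a'`, `T'`; with `W = 1` (size `N`): `U` with `(Uᵀ T U)_00 = a'`. By induction there is `y ≠ 0` with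
`(yᵀ T y)^(N+1) ≤ c det T`, and `a' ≤ yᵀ T y`. Red for `S` with `W = U`: `U2` with `S'' = U2ᵀ S U2`, `S''_00 = a`, `2 |S''_01| ≤ a`, `a S''_11 - S''_01² = a'`. `S''_11` is the value of `S` at the second column of `U2`, not zero, so `S''_11 ≥ a`: `a² ≤ a' + a²/4`, `3 a² ≤ 4 a'`. So `3^(N+1) a^(2N+2) ≤ 4^(N+1) a'^(N+1) ≤ 4^(N+1) c a^N det S`,
`a^(N+2) ≤ 4^(N+1) c det S`. `x` = the first column of `U2`: value `a`. -/
def S_Her : Prop := C_Red → C_Her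

/-- **CN1.** Reduced forms. -/
def C_CN1 : Prop :=
  ∀ N Δ : ℕ, ∃ R : ℕ, ∀ S : Matrix (Fin N) (Fin N) ℤ, PD S → S.det ≤ Δ →
    ∃ U U' : Matrix (Fin N) (Fin N) ℤ, U * U' = 1 ∧ U' * U = 1 ∧ ∀ i j, |(Uᵀ * S * U) i j| ≤ R

/-- (100 lines) **CN1** (from Red, Her). PROOF. Induction on `N` (for all `Δ`); `N = 0`: no entries. Size `N + 1`: Red: `a`, `T`. Her: `a ≤ a^(N+1) ≤ c det S ≤ c Δ =: A` (`1 ≤ a ≤ xᵀ S x`). `det T > 0`? not needed: `det T ≤ a det T = a^N det S ≤ A^N Δ` if `det T ≥ 0`, and if `det T < 0` it is `≤` as well. Induction for `T` with `Δ' = A^N Δ`: `R'`, `W` with `|(Wᵀ T W)_ij| ≤ R'`.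
Red: `U`, with the entries `S''_00 = a ≤ A`, `|S''_(0, i+1)| ≤ a` (and `S''` is symmetric), `|a S''_(i+1, j+1)| ≤ R' + a²`, so `|S''_(i+1, j+1)| ≤ R' + A²`. `R = R' + A² + A`. -/
def S_CN1 : Prop := C_Red → C_Her → C_CN1

/-- **FinV.** Finitely many vectors of bounded length. -/
def C_FinV : Prop :=
  ∀ (N : ℕ) (S : Matrix (Fin N) (Fin N) ℤ) (κ : ℤ), PD S → {c : Fin N → ℤ | c ⬝ᵥ (S *ᵥ c) ≤ κ}.Finite

/-- (60 lines) **FinV.** PROOF. `xᵀ S x` is continuous and positive on the compact unit sphere of `Fin N → ℝ` (`N ≥ 1`; the sphere for the sup norm is fine), so `λ ‖x‖² ≤ xᵀ S x` with `λ > 0`; then `|c_i| ≤ √(κ/λ)` for `c` in the set, finitely many integral vectors. -/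
def S_FinV : Prop := C_FinV

/-! ## The class number -/

/-- **CN2.** The lattice of an adelic matrix. -/
def C_CN2 : Prop :=
  ∀ (N : ℕ) (g g' : Matrix (Fin N) (Fin N) Af), g * g' = 1 → g' * g = 1 →
    ∃ B B' : Matrix (Fin N) (Fin N) ℚ, B * B' = 1 ∧ B' * B = 1 ∧
      (∀ i j, (g' * B.map (algebraMap ℚ Af)) i j ∈ Zh) ∧ ∀ i j, (B'.map (algebraMap ℚ Af) * g) i j ∈ Zh

/-- (170 lines) **CN2** (from AD1, AD2, AD3). PROOF. `m ≥ 1` with `m g_ij`, `m g'_ij ∈ Zh` (AD1, product over the entries). `L = {x ∈ ℚ^N | g' x ∈ Zh^N}`, an additive subgroup (`ℤ`-submodule). `m ℤ^N ⊂ L` (`g' (m z) = (m g') z`), and for `x ∈ L`: `m x = (m g)(g' x) ∈ Zh^N`, so `m x ∈ ℤ^N` (AD2). So `m L` is a submodule of `ℤ^N` which contains `m² ℤ^N`: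
it has a basis with `N` elements (`Submodule.basisOfPid` / `Submodule.smithNormalForm`; the rank is `N` because it contains `m² ℤ^N`; or: there is a nonsingular integral matrix `A` with `m L = A ℤ^N`). `B = A/m`: the columns are a `ℤ`-basis of `L` and `B` is invertible in the rational matrices (`m e_i ∈ L` is in the span of the columns), `B' = B⁻¹`. `g' B ∈ M(Zh)` by the definition of `L`.
If `y ∈ L` then `B' y ∈ ℤ^N`. `B' g ∈ M(Zh)`: let `g_j` be a column of `g`. AD3 (each coordinate): `g_j = y + m z`, `y ∈ ℚ^N`, `z ∈ Zh^N`. `g' y = e_j - (m g') z ∈ Zh^N`: `y ∈ L`, `B' y ∈ ℤ^N`. `B' (m z) = ∑_i z_i B' (m e_i) ∈ Zh^N` as `m e_i ∈ L`. So `B' g_j ∈ Zh^N`. -/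
def S_CN2 : Prop := C_AD1 → C_AD2 → C_AD3 → C_CN2

/-- **CN3.** The reduced data of a class. -/
def C_CN3 : Prop :=
  ∀ (N : ℕ) (Q : Matrix (Fin N) (Fin N) ℚ) (e : Fin N → ℚ), PQ Q → ∃ (q R : ℕ) (κ : ℤ), 0 < q ∧
    ∀ g : Gp Q Af, g.1.1 *ᵥ ve e Af = ve e Af → ∃ (B B' : Matrix (Fin N) (Fin N) ℚ)
      (S : Matrix (Fin N) (Fin N) ℤ) (c : Fin N → ℤ), B * B' = 1 ∧ B' * B = 1 ∧
      (∀ i j, ((g⁻¹).1.1 * B.map (algebraMap ℚ Af)) i j ∈ Zh) ∧
      (∀ i j, (B'.map (algebraMap ℚ Af) * g.1.1) i j ∈ Zh) ∧ (B.det = 1 ∨ B.det = -1) ∧ PD S ∧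
      (∀ i j, |S i j| ≤ R) ∧ ((q : ℚ) • (Bᵀ * Q * B) = S.map (Int.cast : ℤ → ℚ)) ∧
      ((q : ℚ) • (B' *ᵥ e) = fun i => (c i : ℚ)) ∧ c ⬝ᵥ (S *ᵥ c) ≤ κ

/-- (150 lines) **CN3** (from AD2, CN1, CN2). PROOF. `q ≥ 1` with `q Q`, `q e` integral (product of all denominators). `g` given, CN2 for `g.1.1`, `(g⁻¹).1.1`: `B0, B0'`. `u = g⁻¹ B0 ∈ M(Zh)`, `u' = B0' g ∈ M(Zh)`, `u u' = 1`, `u' u = 1`. `det B0 = det g * det u = det u ∈ Zh`, `det B0' = det u' ∈ Zh`: both integers (AD2) with product `1`: `det B0 = ± 1`.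
`q B0ᵀ Q B0 = uᵀ (q Q) u` (because `B0 = g u` and `gᵀ Q g = Q` in `Af`) has entries in `Zh`, so it is integral (AD2): `S0`. `det S0 = q^N det Q ≤ Δ` (a constant `Δ : ℕ` depending on `Q, q`). `PD S0` (`Q` positive definite, `B0` invertible). CN1: `U, U'`, `S = Uᵀ S0 U`, `|S_ij| ≤ R`. `B = B0 U`, `B' = U' B0'` (all properties are kept; `det U = ± 1`).
`q B' e`: in the adeles `B' e = B' g g⁻¹ e = (B' g) e`, so `q B' e = (B' g)(q e) ∈ Zh^N`, integral (AD2): `c`. `cᵀ S c = q³ eᵀ B'ᵀ Bᵀ Q B B' e = q³ eᵀ Q e`, `κ` an integer `≥` this number. -/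
def S_CN3 : Prop := C_AD2 → C_CN1 → C_CN2 → C_CN3

/-- **CN4.** The class number is finite. -/
def C_CN4 : Prop :=
  ∀ (N : ℕ) (Q : Matrix (Fin N) (Fin N) ℚ) (e : Fin N → ℚ) (K : Subgroup (Gp Q Af)), PQ Q →
    IsOpen (K : Set (Gp Q Af)) → Finite (ClH Q e K)

/-- (150 lines) **CN4** (from AD2, AD3, AD6, FinV, CN3). PROOF. `m` from AD6 for `K`. Every `a ∈ Zh` is `r + m z` with `r ∈ {0, .., m - 1}`, `z ∈ Zh` (AD3: `a = x + m z` with `x` rational, `x = a - m z ∈ Zh`, so `x` is an integer (AD2); reduce it modulo `m`). For `g ∈ H(Af)` let `B, B', S, c` be as in CN3, `u = g⁻¹ B`, `r_ij(g)` the residues of the entries of `u`, `s(g) = det B = ± 1`.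
The tuple `(S, c, r, s)` is in a finite set: `S` has bounded entries, and for every `S` with `PD S` there are finitely many `c` (FinV). CLAIM: if `g_1`, `g_2` have the same tuple then they are in the same class. `δ = B_1 B_2'`: `δᵀ Q δ = B_2'ᵀ (B_1ᵀ Q B_1) B_2' = B_2'ᵀ (B_2ᵀ Q B_2) B_2' = Q`, `det δ = 1`,
`δ e = B_1 B_2' e = B_1 c/q = B_1 B_1' e = e`: `δ ∈ H(ℚ)`. `k = g_1⁻¹ δ g_2 = u_1 (B_2' g_2)`, `k - 1 = (u_1 - u_2)(B_2' g_2)` (because `u_2 B_2' g_2 = g_2⁻¹ B_2 B_2' g_2 = 1`), with entries in `m Zh`: `k ∈ K` (AD6), `k ∈ H(Af)`. So `g_2 = δ⁻¹ g_1 k`. The map from the classes to the finite set of tuples, on `Quotient.out`, is injective. -/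
def S_CN4 : Prop := C_AD2 → C_AD3 → C_AD6 → C_FinV → C_CN3 → C_CN4

/-! ## The main theorem -/

/-- **GP.** The main theorem. -/
def C_GP : Prop :=
  ∀ (N : ℕ) (Q : Matrix (Fin N) (Fin N) ℚ) (e : Fin N → ℚ) (K : Subgroup (Gp Q Af)), 3 ≤ N → PQ Q → e ≠ 0 →
    IsOpen (K : Set (Gp Q Af)) → IsCompact (K : Set (Gp Q Af)) →
    Finite (ClH Q e K) ∧ ∃ C : ℝ, 0 < C ∧
      ∀ (V W : Type) [NormedAddCommGroup V] [InnerProductSpace ℂ V] [FiniteDimensional ℂ V]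
        [NormedAddCommGroup W] [InnerProductSpace ℂ W] [FiniteDimensional ℂ W]
        (ρ : URep (Gp Q ℝ) V) (σ : URep (Hp Q e ℝ) W) (l : V →ₗ[ℂ] W →ₗ[ℂ] ℂ), ρ.Irr → σ.Irr → l ≠ 0 →
        (∀ (x : Hp Q e ℝ) (v : V) (w : W), l (ρ.act x v) (σ.act x w) = l v w) →
        ((∀ k ∈ K, k.1.1 *ᵥ ve e Af ≠ -ve e Af) ∨
          ((∃ k ∈ K, k.1.1 = -1) ∧ ∀ z : Gp Q ℝ, z.1.1 = -1 → ρ.act z = 1)) →
        (∀ 𝒩 : Submodule ℂ (Hp Q e ℝ → Hp Q e Af → ℂ), 𝒩 ≤ AH Q e K σ →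
          (∀ φ' ∈ 𝒩, ∀ φ ∈ AG Q K ρ, Per Q e K φ φ' = 0) →
          FiniteDimensional ℂ 𝒩 ∧ (Module.finrank ℂ 𝒩 : ℝ) ≤ C * ((Module.finrank ℂ W : ℝ) ^ 2 *
            ((Module.finrank ℂ W : ℝ) / Module.finrank ℂ V) ^ (1 / (2 * N + 4 : ℝ)))) ∧
        (C * (Module.finrank ℂ W : ℝ) ^ (2 * N + 5) ≤ Module.finrank ℂ V →
          ∀ φ' ∈ AH Q e K σ, φ' ≠ 0 → ∃ φ ∈ AG Q K ρ, Per Q e K φ φ' ≠ 0)

end Pool.Agent.GP
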