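import Pool.Agent.Lib.GP.Stm

/-!
# Theorem GP: matrix representations (author helper25)
-/

set_option autoImplicit false

open Matrix MeasureTheory

noncomputable section

namespace Pool.Agent.GP

/-- **Br.** From matrix representations to unitary representations. -/
def C_Br : Prop :=
  (∀ (G : Type) [Group G] [TopologicalSpace G] (n : ℕ) (ρ : MRep G n), ∃ u : URep G (EuclideanSpace ℂ (Fin n)),
    (∀ x v, (u.act x v).ofLp = ρ.hom x *ᵥ v.ofLp) ∧ u.Irr ∧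
      coef u = Submodule.span ℂ {c | ∃ i j, c = fun x => ρ.hom x i j}) ∧
  ∀ (n m : ℕ) (L : Matrix (Fin n) (Fin m) ℂ), ∃ l : EuclideanSpace ℂ (Fin n) →ₗ[ℂ] EuclideanSpace ℂ (Fin m) →ₗ[ℂ] ℂ,
    (∀ v w, l v w = v.ofLp ⬝ᵥ (L *ᵥ w.ofLp)) ∧ (L ≠ 0 → l ≠ 0)

/-- (90 lines) **Br.** PROOF. `u.act x` = the linear isometry equivalence of `EuclideanSpace ℂ (Fin n)` given by the unitary matrix `ρ.hom x` (inverse: `ρ.hom x⁻¹`; `‖A v‖² = ⟨v, Aᴴ A v⟩ = ‖v‖²`; `Matrix.toEuclideanLin`, `Matrix.mulVec_mulVec`, `LinearIsometryEquiv`), multiplicative in `x`. Continuity: `x ↦ ρ.hom x *ᵥ v` is continuous.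
`Irr`: `Nontrivial` because `n ≠ 0`; an invariant submodule `S` of the Euclidean space corresponds to the submodule `{v | toLp 2 v ∈ S}` of `Fin n → ℂ` (`WithLp.linearEquiv 2 ℂ (Fin n → ℂ)`). `coef`: `⟨u0, ρ(x) v⟩ = ∑_(i, j) conj(u0 i) ρ(x)_ij v_j` is a combination of the entries, and the entry `ρ(x)_ij` is `⟨e_i, ρ(x) e_j⟩`
(`EuclideanSpace.single`). `l v w = ∑_(i, j) v_i L_ij w_j` (`LinearMap.mk₂`), `l e_i e_j = L_ij`. -/
def S_Br : Prop := C_Br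

end Pool.Agent.GP
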