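import Pool.Agent.Lib.GP.Defs2

/-!
# Gross-Prasad periods on definite orthogonal groups: the definitions of the final statements (author helper25)

`V_(n+1) = ℚ^N`, `N = n + 1`, with the symmetric matrix `Q`; `V_n` the orthogonal complement of `e`; `G = SO(V_(n+1))`, `H = SO(V_n)` the stabilizer of `e` in `G`.
-/

set_option autoImplicit false

open Matrix MeasureTheory

noncomputable section

namespace Pool.Agent.GP

variable {N : ℕ}

/-- The ring of finite adeles of `ℚ`. -/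
def AQ : Type := IsDedekindDomain.FiniteAdeleRing ℤ ℚ

instance rA : CommRing AQ := (inferInstance : CommRing (IsDedekindDomain.FiniteAdeleRing ℤ ℚ))
instance aA : Algebra ℚ AQ := (inferInstance : Algebra ℚ (IsDedekindDomain.FiniteAdeleRing ℤ ℚ))
instance tA : TopologicalSpace AQ := (inferInstance : TopologicalSpace (IsDedekindDomain.FiniteAdeleRing ℤ ℚ))

section groups

variable (Q : Matrix (Fin N) (Fin N) ℚ) (e : Fin N → ℚ) (R : Type) [CommRing R] [Algebra ℚ R]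

/-- `G(R) = SO(V_(n+1))(R)`. -/
def SO : Type := ↥(Gp Q R)

instance gSO : Group (SO Q R) := Subgroup.toGroup (Gp Q R)
instance tSO [TopologicalSpace R] : TopologicalSpace (SO Q R) := instTopologicalSpaceSubtype (p := (· ∈ Gp Q R))

variable {Q R}

/-- The matrix of an element of `G(R)`. -/
def mat (g : SO Q R) : Matrix (Fin N) (Fin N) R := g.1.1

theorem mat_one : mat (1 : SO Q R) = 1 := rfl

theorem mat_mul (a b : SO Q R) : mat (a * b) = mat a * mat b := rfl

variable (Q R)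

theorem sH_mul {a b : SO Q R} (ha : mat a *ᵥ ve e R = ve e R) (hb : mat b *ᵥ ve e R = ve e R) :
    mat (a * b) *ᵥ ve e R = ve e R := (Hp Q e R).mul_mem (x := a) (y := b) ha hb

theorem sH_one : mat (1 : SO Q R) *ᵥ ve e R = ve e R := (Hp Q e R).one_mem

theorem sH_inv {a : SO Q R} (ha : mat a *ᵥ ve e R = ve e R) : mat a⁻¹ *ᵥ ve e R = ve e R :=
  (Hp Q e R).inv_mem (x := a) ha

/-- `H(R)`, the stabilizer of `e`. -/
def SH : Subgroup (SO Q R) where
  carrier := {g | mat g *ᵥ ve e R = ve e R}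
  mul_mem' := sH_mul Q e R
  one_mem' := sH_one Q e R
  inv_mem' := sH_inv Q e R

/-- `H(R)` as a group. -/
def HH : Type := ↥(SH Q e R)

instance gHH : Group (HH Q e R) := Subgroup.toGroup (SH Q e R)
instance tHH [TopologicalSpace R] : TopologicalSpace (HH Q e R) := instTopologicalSpaceSubtype (p := (· ∈ SH Q e R))

/-- The inclusion `H(R) → G(R)`. -/
def iH : HH Q e R →* SO Q R := (SH Q e R).subtype

theorem qmem (γ : SO Q ℚ) : SpecialLinearGroup.map (algebraMap ℚ R) γ.1 ∈ Gp Q R := (jG Q R γ).2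

/-- `G(ℚ) → G(R)`. -/
def qG : SO Q ℚ →* SO Q R :=
  MonoidHom.codRestrict ((SpecialLinearGroup.map (algebraMap ℚ R)).comp (Gp Q ℚ).subtype) (Gp Q R) (qmem Q R)

theorem qHmem (γ : HH Q e ℚ) : qG Q R (iH Q e ℚ γ) ∈ SH Q e R := (jH Q e R γ).2

/-- `H(ℚ) → H(R)`. -/
def qH : HH Q e ℚ →* HH Q e R := MonoidHom.codRestrict ((qG Q R).comp (iH Q e ℚ)) (SH Q e R) (qHmem Q e R)

end groups

/-- A continuous irreducible unitary representation of `G` by `n × n` matrices. -/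
structure MRep (G : Type) [Group G] [TopologicalSpace G] (n : ℕ) where
  hom : G →* Matrix (Fin n) (Fin n) ℂ
  cont : Continuous hom
  unit : ∀ x, (hom x)ᴴ * hom x = 1
  pos : n ≠ 0
  irr : ∀ S : Submodule ℂ (Fin n → ℂ), (∀ x, ∀ v ∈ S, hom x *ᵥ v ∈ S) → S = ⊥ ∨ S = ⊤

section abstract

variable {Γ G A H B : Type} [Group Γ] [Group G] [TopologicalSpace G] [Group A] [Group H] [TopologicalSpace H] {n m : ℕ}

/-- **Automorphic forms** on `Γ \\ G × A / K` of weight `ρ`: `φ x g`, `x ∈ G` the archimedean and `g ∈ A` the finite component. As a function of `x` it is a combination of the entries of `ρ`. -/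
def Aut (ja : Γ →* G) (jf : Γ →* A) (K : Subgroup A) (ρ : MRep G n) (φ : G → A → ℂ) : Prop :=
  (∀ γ x g, ∀ k ∈ K, φ (ja γ * x) (jf γ * g * k) = φ x g) ∧
    ∀ g, (fun x => φ x g) ∈ Submodule.span ℂ {c | ∃ i j, c = fun x => ρ.hom x i j}

/-- There is a nonzero `H`-invariant bilinear form on the representations `ρ` and `σ`: `Hom_H(ρ ⊗ σ, ℂ) ≠ 0`. -/
def Pairing (ρ : MRep G n) (σ : MRep H m) (i : H →* G) : Prop :=
  ∃ L : Matrix (Fin n) (Fin m) ℂ, L ≠ 0 ∧ ∀ x, (ρ.hom (i x))ᵀ * L * σ.hom x = L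

/-- The Haar measure of total mass one of a compact group. -/
def hm (H : Type) [Group H] [TopologicalSpace H] [IsTopologicalGroup H] [LocallyCompactSpace H] : @Measure H (borel H) :=
  letI : MeasurableSpace H := borel H
  haveI : BorelSpace H := ⟨rfl⟩
  ((Measure.haar (Set.univ : Set H))⁻¹) • (Measure.haar : Measure H)

/-- The order of the group `Γ ∩ g K g⁻¹`. -/
def od (jf : Γ →* A) (K : Subgroup A) (g : A) : ℕ := Nat.card {γ : Γ // g⁻¹ * (jf γ * g) ∈ K}

/-- **The period** `∫ φ(h) φ'(h) dh` over `Γ \\ H × B`, `B` the finite component with open compact subgroup `L`, for the measure on `H × B` which gives `H × L` the mass one: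
the sum over the double cosets `Γ c L` of `|Γ ∩ c L c⁻¹|⁻¹ ∫ φ(x, c) φ'(x, c) dx` over `H`. -/
def Pg [IsTopologicalGroup H] [LocallyCompactSpace H] [Group B] (jf : Γ →* B) (L : Subgroup B) (i : H →* G) (i' : B →* A)
    (φ : G → A → ℂ) (φ' : H → B → ℂ) : ℂ :=
  ∑ᶠ c : Cls jf L, (od jf L (Quotient.out c) : ℂ)⁻¹ *
    @integral H ℂ _ _ (borel H) (hm H) fun x => φ (i x) (i' (Quotient.out c)) * φ' x (Quotient.out c)

end abstract

instance tgH (Q : Matrix (Fin N) (Fin N) ℚ) (e : Fin N → ℚ) : IsTopologicalGroup (HH Q e ℝ) :=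
  (inferInstance : IsTopologicalGroup (Hp Q e ℝ))

instance lcH (Q : Matrix (Fin N) (Fin N) ℚ) (e : Fin N → ℚ) : LocallyCompactSpace (HH Q e ℝ) := instLC Q e

section final

variable {Q : Matrix (Fin N) (Fin N) ℚ} {n m : ℕ}

/-- `K` is open and compact. -/
def CO (K : Subgroup (SO Q AQ)) : Prop := IsOpen (K : Set (SO Q AQ)) ∧ IsCompact (K : Set (SO Q AQ))

/-- Automorphic forms on `G` of weight `ρ` and level `K`. -/
def AutG (K : Subgroup (SO Q AQ)) (ρ : MRep (SO Q ℝ) n) (φ : SO Q ℝ → SO Q AQ → ℂ) : Prop := Aut (qG Q ℝ) (qG Q AQ) K ρ φ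

/-- The level `K ∩ H(AQ)`. -/
def lH (K : Subgroup (SO Q AQ)) (e : Fin N → ℚ) : Subgroup (HH Q e AQ) := K.comap (iH Q e AQ)

/-- Automorphic forms on `H` of weight `σ` and level `K ∩ H(AQ)`. -/
def AutH (K : Subgroup (SO Q AQ)) {e : Fin N → ℚ} (σ : MRep (HH Q e ℝ) m) (φ' : HH Q e ℝ → HH Q e AQ → ℂ) : Prop :=
  Aut (qH Q e ℝ) (qH Q e AQ) (lH K e) σ φ'

/-- The period of the problem. -/
def Pd (K : Subgroup (SO Q AQ)) {e : Fin N → ℚ} (φ : SO Q ℝ → SO Q AQ → ℂ) (φ' : HH Q e ℝ → HH Q e AQ → ℂ) : ℂ :=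
  Pg (qH Q e AQ) (lH K e) (iH Q e ℝ) (iH Q e AQ) φ φ'

/-- The condition on the level: no `k ∈ K` maps `e` to `-e`, or `-1 ∈ K` and `ρ(-1) = 1`. -/
def Lev (K : Subgroup (SO Q AQ)) (e : Fin N → ℚ) (ρ : MRep (SO Q ℝ) n) : Prop :=
  (∀ k ∈ K, mat k *ᵥ ve e AQ ≠ -ve e AQ) ∨ ((∃ k ∈ K, mat k = -1) ∧ ∀ z, mat z = -1 → ρ.hom z = 1)

end final

end Pool.Agent.GP
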