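import Pool.Agent.Lib.GP.Stm

/-!
# Gross-Prasad periods on definite orthogonal groups: Hecke operators and partners (author helper25)
-/

set_option autoImplicit false

open IsDedekindDomain Matrix

noncomputable section

namespace Pool.Agent.GP

variable {N n : ℕ} {Q : Matrix (Fin N) (Fin N) ℚ}

/-- The component at the place `v` of the matrix of `y`. -/
def mv (v : HeightOneSpectrum ℤ) (y : SO Q AQ) : Matrix (Fin N) (Fin N) (v.adicCompletion ℚ) :=
  fun i j => (show FiniteAdeleRing ℤ ℚ from mat y i j) v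

/-- The adele `a` is integral at all places. -/
def Itg (a : AQ) : Prop := ∀ v : HeightOneSpectrum ℤ, (show FiniteAdeleRing ℤ ℚ from a) v ∈ v.adicCompletionIntegers ℚ

/-- The elements `y` of `G(ℚ_p)` (the components outside `p` are trivial) such that `y ℤ_p^N` is `ℤ_p^N` or a `p`-neighbour of it: `p y` and `p` times the `2 × 2` minors of `y` are integral. -/
def Nei (Q : Matrix (Fin N) (Fin N) ℚ) (p : Nat.Primes) : Set (SO Q AQ) :=
  {y | (∀ v, v ≠ vp p → mv v y = 1) ∧ (∀ i j, Itg (((p : ℕ) : AQ) * mat y i j)) ∧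
    ∀ i j k l, Itg (((p : ℕ) : AQ) * (mat y i j * mat y k l - mat y i l * mat y k j))}

/-- **The Hecke operator** `T_p` on the forms of level `K` on `G`: `(T_p φ)(x, g) = ∑ φ(x, g c)`, the sum over the cosets `c = y K` of the elements `y` of `Nei Q p`. -/
def TK (K : Subgroup (SO Q AQ)) (p : Nat.Primes) (φ : SO Q ℝ → SO Q AQ → ℂ) : SO Q ℝ → SO Q AQ → ℂ :=
  fun x g => ∑ᶠ c : {c : SO Q AQ ⧸ K // ∃ y ∈ Nei Q p, c = QuotientGroup.mk y}, φ x (g * Quotient.out c.1)

/-- `φ'` has at least `R` **partners**: there are automorphic forms `φ_j`, `j < r`, `R ≤ r`, on `G` of weight `ρ` and level `K`, whose period with `φ'` is not zero, which are eigenforms of all `T_p`, `p > p0`, with pairwise different systems of eigenvalues. -/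
def Partners (K : Subgroup (SO Q AQ)) {e : Fin N → ℚ} (ρ : MRep (SO Q ℝ) n) (p0 : ℕ)
    (φ' : HH Q e ℝ → HH Q e AQ → ℂ) (R : ℝ) : Prop :=
  ∃ (r : ℕ) (φ : Fin r → SO Q ℝ → SO Q AQ → ℂ) (lam : Fin r → Nat.Primes → ℝ), R ≤ r ∧
    ∀ j, AutG K ρ (φ j) ∧ Pd K (φ j) φ' ≠ 0 ∧ (∀ p : Nat.Primes, p0 < (p : ℕ) → TK K p (φ j) = (lam j p : ℂ) • φ j) ∧
      ∀ i, i ≠ j → ∃ p : Nat.Primes, p0 < (p : ℕ) ∧ lam i p ≠ lam j p

end Pool.Agent.GP
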